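import Pool.Agent.Lib_helper30.Past

set_option autoImplicit false

namespace Pool.Agent.Lib_helper30

open Filter Topology Set

/-- Cutting an element outside an interval on which it is positive. -/
lemma exists_cut {f : ℝ ≃o ℝ} (hf : f ∈ HH) {A B : ℝ} (hA : A ∈ Dy) (hB : B ∈ Dy) (hAB : A ≤ B)
    (hp : ∀ t, A ≤ t → t ≤ B → t < f t) :
    ∃ f' ∈ HH, (∀ t, A ≤ t → t ≤ B → f' t = f t) ∧ ∀ t, t < f' t := by
  have hfA : f A - A ∈ Dy := Dy.sub_mem ((PL2.dy_iff hf A).2 hA) hA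
  have hfB : f B - B ∈ Dy := Dy.sub_mem ((PL2.dy_iff hf B).2 hB) hB
  have e1 : tr (f A - A) A = f A := by rw [tr_apply]; ring
  set f1 := glue (tr (f A - A)) f A e1 with hf1
  have e2 : f1 B = tr (f B - B) B := by rw [hf1, glue_ge hAB, tr_apply]; ring
  have h1 : f1 ∈ HH := glue_mem_HH (tr_mem_HH hfA) hf hA
  refine ⟨glue f1 (tr (f B - B)) B e2, glue_mem_HH h1 (tr_mem_HH hfB) hB, ?_, ?_⟩
  · intro t h3 h4
    rw [glue_le h4, hf1, glue_ge h3]
  · intro t
    have hA' := hp A le_rfl hAB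
    have hB' := hp B hAB le_rfl
    rcases le_total t B with h4 | h4
    · rw [glue_le h4]
      rcases le_total t A with h3 | h3
      · rw [hf1, glue_le h3, tr_apply]; linarith
      · rw [hf1, glue_ge h3]; exact hp t h3 h4
    · rw [glue_ge h4, tr_apply]; linarith

/-- Powers of two maps which agree along an orbit. -/
lemma pow_congr {e e' : ℝ ≃o ℝ} {A B : ℝ} (hag : ∀ t, A ≤ t → t ≤ B → e' t = e t) {x : ℝ}
    (j : ℕ) (h : ∀ i, i < j → A ≤ (e ^ i) x ∧ (e ^ i) x ≤ B) : (e' ^ j) x = (e ^ j) x := by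
  induction j with
  | zero => rfl
  | succ j ih =>
    rw [pow_succ', mul_apply', ih (fun i hi => h i (by omega)), hag _ (h j (by omega)).1
      (h j (by omega)).2, pow_succ', mul_apply']

/-- Conjugates, on the two sides, of the truncations of an element. -/
lemma bfc {e fL fR EL ER : ℝ ≃o ℝ} (he : e ∈ GG) (hfL : fL ∈ GG) (hfR : fR ∈ GG)
    (hL : LC fL EL) (hR : RC fR ER) {σ : ℝ} (hσ : σ ∈ Dy) (hagL : ∀ t, t ≤ σ → fL t = e t)
    (hpL : ∀ t, σ ≤ t → t < fL t) (hagR : ∀ t, σ ≤ t → fR t = e t) (hpR : ∀ t, t ≤ σ → t < fR t)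
    {X X' : ℝ} (hX : ∀ t, X ≤ t → t < EL t) (hX' : ∀ t, t ≤ X' → t < ER t) (M : ℕ) :
    ∃ Y₀ : ℝ, ∀ Y ∈ Dy, Y₀ ≤ Y → ∃ n₀ : ℝ, ∀ n : ℕ, n₀ ≤ n → ∃ γ ∈ GG, ∃ Γ : ℝ ≃o ℝ,
      Γ = γ * e * γ⁻¹ ∧ (∀ t, t ≤ X → Γ t = EL t) ∧ (∀ t, Y ≤ t → t ≤ Y + M → Γ t = t + 1) ∧
      (∀ t, X' + n ≤ t → Γ t = ER (t - n) + n) ∧ (∀ t, X ≤ t → t ≤ X' + n → t < Γ t) := by
  obtain ⟨G, hG, ⟨p₁, hGp⟩, N, hG1, hG2⟩ := left_conj hfL he hL hσ hagL hpL X
  obtain ⟨G', hG', ⟨p₂, hGp'⟩, N', hG1', hG2'⟩ := right_conj hfR he hR hσ hagR hpR X'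
  have heσ : σ < e σ := by rw [← hagL σ le_rfl]; exact hpL σ le_rfl
  set P : ℕ → ℝ := fun i => (e ^ i) σ with hP
  have hPm : StrictMono P := orbit_strictMono heσ
  have hPe : ∀ i, e (P i) = P (i + 1) := by
    intro i; show e ((e ^ i) σ) = (e ^ (i + 1)) σ
    rw [pow_succ', mul_apply']
  have hPD : ∀ i, P i ∈ Dy := fun i => (PL2.dy_iff (HH.pow_mem he.1 i) σ).2 hσ
  have hP0 : P 0 = σ := rfl
  have hpos : ∀ i, ∀ t, σ ≤ t → t ≤ P i → t < e t := fun i t h1 h2 => orbit_pos heσ i t h1 h2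
  refine ⟨G (P (N + 1)) + 1, ?_⟩
  intro Y hY hYge
  -- the middle conjugator
  obtain ⟨e', he', he'1, he'2⟩ := exists_cut he.1 (hPD 0) (hPD (N + M + 5))
    (hPm.monotone (Nat.zero_le _)) (fun t h1 h2 => hpos _ t h1 h2)
  obtain ⟨k₀, hk₀, hk₀1, hk₀2⟩ := ext_basic hY (Dy.add_mem hY Dy.one_mem) (hPD (N + 2))
    (hPD (N + 3)) (by linarith) (hPm (by omega))
  have hk₀Y : k₀ Y = P (N + 2) := by rw [hk₀1 Y le_rfl]; ring
  have hk₀Y1 : k₀ (Y + 1) = P (N + 3) := by rw [hk₀2 _ le_rfl]; ring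
  have he'P : ∀ i, i ≤ N + M + 5 → e' (P i) = P (i + 1) := by
    intro i hi
    rw [he'1 _ (hPm.monotone (Nat.zero_le _)) (hPm.monotone hi), hPe]
  obtain ⟨k, hk, hk1, hk2⟩ := exists_sol (h₀ := k₀) (x₀ := Y) (N := 1) he' he'2 hY Dy.one_mem
    one_pos hk₀ (by rw [hk₀Y, hk₀Y1, he'P _ (by omega)])
  set h := k⁻¹ with hh
  have hhH : h ∈ HH := HH.inv_mem hk
  have hhe : ∀ t, h (e' t) = h t + 1 := by
    intro t
    obtain ⟨s, rfl⟩ := k.surjective t
    rw [← mul_apply', ← mul_apply', ← mul_apply']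
    have : h * e' * k = tr 1 := by
      calc h * e' * k = k⁻¹ * (e' * k) := by rw [hh]; group
        _ = tr 1 := by rw [← hk2]; group
    rw [show (h * e' * k) s = tr 1 s by rw [this], tr_apply, hh, mul_apply', inv_apply']
  have hhP : ∀ i, i ≤ M + 3 → h (P (N + 2 + i)) = Y + i := by
    intro i
    induction i with
    | zero =>
      intro _
      rw [Nat.add_zero, hh]
      rw [inv_eq_of_apply (by rw [hk1 Y le_rfl (by linarith), hk₀Y] : k Y = P (N + 2))]
      simp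
    | succ i ih =>
      intro hi
      rw [show N + 2 + (i + 1) = N + 2 + i + 1 by ring, ← he'P _ (by omega), hhe, ih (by omega)]
      push_cast; ring
  obtain ⟨γ₁, hγ₁, hγ₁a, hγ₁b⟩ := interp hG hhH (hPD (N + 1)) (hPD (N + 2)) (hPm (by omega)) (by
    have := hhP 0 (by omega)
    rw [Nat.add_zero] at this
    rw [this]; push_cast; linarith)
  set r : ℕ := N + N' + M + 4 with hr
  set G'' := G' * (e⁻¹) ^ r with hG''
  have hG''H : G'' ∈ HH := HH.mul_mem hG' (HH.pow_mem (HH.inv_mem he.1) r)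
  -- key fact on inverse powers
  have hinv : ∀ a b : ℕ, ((e⁻¹) ^ (a + b)) (P b) = ((e⁻¹) ^ a) σ := by
    intro a b
    rw [pow_add, mul_apply']
    congr 1
    rw [inv_pow]
    exact inv_apply' _ _
  have hG''P : G'' (P (N + M + 4)) = G' (((e⁻¹) ^ N') σ) := by
    rw [hG'', mul_apply', show r = N' + (N + M + 4) by omega, hinv]
  have hG''e : ∀ t, P (N + M + 4) ≤ t → ER (G'' t) = G'' (e t) := by
    intro t ht
    have h1 : ((e⁻¹) ^ N') σ ≤ ((e⁻¹) ^ r) t := by
      have := ((e⁻¹) ^ r).monotone ht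
      rwa [show r = N' + (N + M + 4) by omega, hinv, ← show r = N' + (N + M + 4) by omega] at this
    rw [hG'', mul_apply', hG1' _ h1, mul_apply']
    congr 1
    rw [← mul_apply', ← mul_apply']
    congr 1
    exact (Commute.inv_right (Commute.refl e)).pow_right r
  obtain ⟨n₀, hn₀⟩ : ∃ n₀ : ℝ, n₀ = Y + M + 1 - G'' (P (N + M + 4)) + 1 := ⟨_, rfl⟩
  refine ⟨n₀, ?_⟩
  intro n hn
  obtain ⟨γ, hγ, hγa, hγb⟩ := interp hγ₁ (HH.mul_mem (tr_mem_HH (Dy_nat n)) hG''H)
    (hPD (N + M + 3)) (hPD (N + M + 4)) (hPm (by omega)) (by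
    rw [hγ₁b _ (hPm.monotone (by omega)), show N + M + 3 = N + 2 + (M + 1) by ring,
      hhP (M + 1) (by omega), mul_apply', tr_apply]
    push_cast; linarith)
  have hγG : ∀ t, t ≤ P (N + 1) → γ t = G t := by
    intro t ht
    rw [hγa t (ht.trans (hPm.monotone (by omega))), hγ₁a t ht]
  have hγh : ∀ t, P (N + 2) ≤ t → t ≤ P (N + M + 3) → γ t = h t := by
    intro t h1 h2
    rw [hγa t h2, hγ₁b t h1]
  have hγR : ∀ t, P (N + M + 4) ≤ t → γ t = G'' t + n := by
    intro t ht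
    rw [hγb t ht, mul_apply', tr_apply]
  refine ⟨γ, ⟨hγ, ⟨p₁, ?_⟩, ?_⟩, γ * e * γ⁻¹, rfl, ?_, ?_, ?_, ?_⟩
  · filter_upwards [hGp, eventually_le_atBot (P (N + 1))] with t h1 h2
    rw [hγG t h2, h1]
  · obtain ⟨q, hq⟩ := (GG.pow_mem (GG.inv_mem he) r).2.2
    have := EndTop.mul hGp' hq
    refine ⟨p₂ + q + n, ?_⟩
    filter_upwards [this, eventually_ge_atTop (P (N + M + 4))] with t h1 h2
    rw [hγR t h2, hG'', h1]; push_cast; ring
  · -- left region
    intro t ht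
    obtain ⟨s, rfl⟩ := γ.surjective t
    have hs : s ≤ P N := by
      rw [← γ.le_iff_le, hγG (P N) (hPm.monotone (by omega))]
      exact ht.trans hG2.le
    have hs1 : e s ≤ P (N + 1) := by rw [← hPe]; exact e.monotone hs
    rw [mul_apply', mul_apply', inv_apply', hγG _ hs1, hγG s (hs.trans (hPm.monotone (by omega))),
      hG1 s hs]
  · -- middle region
    intro t h1 h2
    obtain ⟨s, rfl⟩ := γ.surjective t
    have a1 : γ (P (N + 2)) = Y := by
      rw [hγh _ le_rfl (hPm.monotone (by omega))]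
      have := hhP 0 (by omega)
      rw [Nat.add_zero] at this; rw [this]; simp
    have a2 : γ (P (N + M + 2)) = Y + M := by
      rw [hγh _ (hPm.monotone (by omega)) (hPm.monotone (by omega)),
        show N + M + 2 = N + 2 + M by ring, hhP M (by omega)]
    rw [← a1, γ.le_iff_le] at h1
    rw [← a2, γ.le_iff_le] at h2
    have h3 : P (N + 2) ≤ e s := by
      refine (hPm.monotone (by omega : N + 2 ≤ N + 3)).trans ?_
      rw [← hPe]; exact e.monotone h1
    have h4 : e s ≤ P (N + M + 3) := by rw [← hPe]; exact e.monotone h2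
    have h5 : e' s = e s := he'1 s ((hPm.monotone (Nat.zero_le _)).trans h1)
      (h2.trans (hPm.monotone (by omega)))
    rw [mul_apply', mul_apply', inv_apply', hγh _ h3 h4,
      hγh s h1 (h2.trans (hPm.monotone (by omega))), ← h5, hhe]
  · -- right region
    intro t ht
    obtain ⟨s, rfl⟩ := γ.surjective t
    have hs : P (N + M + 4) ≤ s := by
      rw [← γ.le_iff_le, hγR _ le_rfl, hG''P]; linarith
    have hs1 : P (N + M + 4) ≤ e s := by
      refine (hPm.monotone (by omega : N + M + 4 ≤ N + M + 4 + 1)).trans ?_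
      rw [← hPe]; exact e.monotone hs
    rw [mul_apply', mul_apply', inv_apply', hγR _ hs1, hγR _ hs, add_sub_cancel_right, hG''e s hs]
  · -- positivity
    intro t h1 h2
    obtain ⟨s, rfl⟩ := γ.surjective t
    rcases le_total s (P N) with h3 | h3
    · have hs1 : e s ≤ P (N + 1) := by rw [← hPe]; exact e.monotone h3
      have h4 := hγG s (h3.trans (hPm.monotone (by omega)))
      rw [mul_apply', mul_apply', inv_apply', hγG _ hs1, ← hG1 s h3, ← h4]
      exact hX _ h1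
    rcases le_total s (P (N + M + 4)) with h5 | h5
    · rw [mul_apply', mul_apply', inv_apply']
      exact γ.strictMono (hpos _ s ((hPm.monotone (Nat.zero_le _)).trans h3) h5)
    · have hs1 : P (N + M + 4) ≤ e s := by
        refine (hPm.monotone (by omega : N + M + 4 ≤ N + M + 4 + 1)).trans ?_
        rw [← hPe]; exact e.monotone h5
      have h6 := hγR s h5
      rw [mul_apply', mul_apply', inv_apply', hγR _ hs1, ← hG''e s h5]
      have h7 := hX' (G'' s) (by rw [h6] at h2; linarith)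
      rw [h6]; linarith

end Pool.Agent.Lib_helper30
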