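import Pool.Agent.Lib_helper30.Perfect

set_option autoImplicit false

namespace Pool.Agent.Lib_helper30

open Filter Topology Set
open scoped commutatorElement

lemma perfect_finite {f : ℝ ≃o ℝ} (hf : f ∈ ⁅GcR, GcR⁆) :
    ∃ n : ℕ, f ∈ ⁅Gc (-(n : ℝ)) n, Gc (-(n : ℝ)) n⁆ := by
  have hmono : ∀ {n m : ℕ}, n ≤ m → ⁅Gc (-(n : ℝ)) n, Gc (-(n : ℝ)) n⁆ ≤
      ⁅Gc (-(m : ℝ)) m, Gc (-(m : ℝ)) m⁆ := by
    intro n m h
    have h1 : (n : ℝ) ≤ m := by exact_mod_cast h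
    have h2 : Gc (-(n : ℝ)) n ≤ Gc (-(m : ℝ)) m := Gc_mono (by linarith) h1
    exact Subgroup.commutator_mono h2 h2
  let S : Subgroup (ℝ ≃o ℝ) :=
    { carrier := {f | ∃ n : ℕ, f ∈ ⁅Gc (-(n : ℝ)) n, Gc (-(n : ℝ)) n⁆}
      mul_mem' := by
        rintro f g ⟨n, hn⟩ ⟨m, hm⟩
        exact ⟨max n m, Subgroup.mul_mem _ (hmono (le_max_left _ _) hn)
          (hmono (le_max_right _ _) hm)⟩
      one_mem' := ⟨0, Subgroup.one_mem _⟩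
      inv_mem' := by
        rintro f ⟨n, hn⟩
        exact ⟨n, Subgroup.inv_mem _ hn⟩ }
  have hle : ⁅GcR, GcR⁆ ≤ S := by
    rw [Subgroup.commutator_le]
    rintro x ⟨n, hn⟩ y ⟨m, hm⟩
    refine ⟨max n m, Subgroup.commutator_mem_commutator ?_ ?_⟩
    · have h1 : (n : ℝ) ≤ (max n m : ℕ) := by exact_mod_cast le_max_left n m
      exact Gc_mono (by linarith) h1 hn
    · have h1 : (m : ℝ) ≤ (max n m : ℕ) := by exact_mod_cast le_max_right n m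
      exact Gc_mono (by linarith) h1 hm
  exact hle hf

/-- `Gc a b` is perfect. -/
lemma Gc_perfect (a b : ℝ) : Gc a b ≤ ⁅Gc a b, Gc a b⁆ := by
  intro f hf
  obtain ⟨hfH, a', b', haa, hbb, h4, h5⟩ := hf
  rcases le_or_gt b' a' with hba | hab
  · have : f = 1 := by
      ext t
      rcases le_total t a' with h | h
      · exact h4 t h
      · exact h5 t (hba.trans h)
    rw [this]; exact Subgroup.one_mem _
  obtain ⟨α, hα, hα1, hα2⟩ := Dy_dense haa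
  obtain ⟨α', hα', hα3, hα4⟩ := Dy_dense hα2
  obtain ⟨β, hβ, hβ1, hβ2⟩ := Dy_dense hbb
  obtain ⟨β', hβ', hβ3, hβ4⟩ := Dy_dense hβ1
  obtain ⟨n, hn⟩ := perfect_finite (GcR_perfect (Gc_le_GcR a b ⟨hfH, a', b', haa, hbb, h4, h5⟩))
  obtain ⟨m, hm⟩ := exists_nat_gt (max (-α) (max β n))
  have hm1 : -α < m := (le_max_left _ _).trans_lt hm
  have hm2 : β < m := ((le_max_left _ _).trans (le_max_right _ _)).trans_lt hm
  have hm3 : (n : ℝ) < m := ((le_max_right _ _).trans (le_max_right _ _)).trans_lt hm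
  obtain ⟨e1, he1, he2, he3⟩ := interp (f₁ := tr (α + m)) (f₂ := 1)
    (tr_mem_HH (Dy.add_mem hα (Dy_nat m))) HH.one_mem (a := -(m : ℝ)) (b := α')
    (Dy.neg_mem (Dy_nat m)) hα' (by linarith) (by rw [tr_apply, one_apply']; linarith)
  obtain ⟨e, he4, he5, he6⟩ := interp (f₁ := e1) (f₂ := tr (β - m)) he1
    (tr_mem_HH (Dy.sub_mem hβ (Dy_nat m))) (a := β') (b := (m : ℝ)) hβ' (Dy_nat m) (by linarith)
    (by rw [he3 β' (by linarith), one_apply', tr_apply]; linarith)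
  have hem : e (-(m : ℝ)) = α := by
    rw [he5 _ (by linarith), he2 _ le_rfl, tr_apply]; ring
  have hem' : e (m : ℝ) = β := by
    rw [he6 _ le_rfl, tr_apply]; ring
  have heid : ∀ t, α' ≤ t → t ≤ β' → e t = t := fun t h1 h2 => by
    rw [he5 t h2, he3 t h1]; rfl
  have heinv : ∀ t, α' ≤ t → t ≤ β' → e⁻¹ t = t := fun t h1 h2 => by
    have := inv_apply' e t
    rwa [heid t h1 h2] at this
  -- conjugation by `e` fixes `f`
  have hconj : e * f * e⁻¹ = f := by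
    ext t
    rw [mul_apply', mul_apply']
    rcases le_total t α' with h1 | h1
    · have h2 : e⁻¹ t ≤ α' := by
        rw [← e.le_iff_le, apply_inv', heid α' le_rfl (by linarith)]; exact h1
      rw [h4 _ (by linarith), apply_inv', h4 t (by linarith)]
    · rcases le_total t β' with h2 | h2
      · rw [heinv t h1 h2]
        have h3 : α' ≤ f t := by
          have := f.monotone h1
          rwa [h4 α' (by linarith)] at this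
        have h6 : f t ≤ β' := by
          have := f.monotone h2
          rwa [h5 β' (by linarith)] at this
        exact heid _ h3 h6
      · have h3 : β' ≤ e⁻¹ t := by
          rw [← e.le_iff_le, apply_inv', heid β' (by linarith) le_rfl]; exact h2
        rw [h5 _ (by linarith), apply_inv', h5 t (by linarith)]
  have hle : (Gc (-(n : ℝ)) n).map (MulAut.conj e).toMonoidHom ≤ Gc a b := by
    rintro _ ⟨x, hx, rfl⟩
    have hx' : x ∈ Gc (-(m : ℝ)) m := Gc_mono (by linarith) hm3.le hx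
    exact Gc_conj hx' he4 (by rw [hem]; exact hα1.le) (by rw [hem']; exact hβ2.le)
  have h6 : (MulAut.conj e).toMonoidHom f ∈
      (⁅Gc (-(n : ℝ)) n, Gc (-(n : ℝ)) n⁆).map (MulAut.conj e).toMonoidHom := ⟨f, hn, rfl⟩
  rw [Subgroup.map_commutator] at h6
  have h7 := Subgroup.commutator_mono hle hle h6
  have h8 : (MulAut.conj e).toMonoidHom f = f := hconj
  rwa [h8] at h7

/-- A displacing element: maps `α` to `β`, supported in `(s,e)`. -/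
lemma exists_push {s α β e : ℝ} (hα : α ∈ Dy) (hβ : β ∈ Dy) (h1 : s < α) (h2 : α < β)
    (h3 : β < e) : ∃ φ ∈ Gc s e, φ α = β := by
  obtain ⟨s', hs', hs1, hs2⟩ := Dy_dense h1
  obtain ⟨e', he', he1, he2⟩ := Dy_dense h3
  obtain ⟨g, hg1, hg2, hg3⟩ := interp (f₁ := 1) (f₂ := tr (β - α)) HH.one_mem
    (tr_mem_HH (Dy.sub_mem hβ hα)) hs' hα hs2 (by rw [one_apply', tr_apply]; linarith)
  obtain ⟨φ, hp1, hp2, hp3⟩ := interp (f₁ := g) (f₂ := 1) hg1 HH.one_mem hα he' (by linarith)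
    (by rw [hg3 α le_rfl, tr_apply, one_apply']; linarith)
  refine ⟨φ, ⟨hp1, s', e', hs1, he2, ?_, ?_⟩, ?_⟩
  · intro t ht
    rw [hp2 t (by linarith), hg2 t ht]; rfl
  · intro t ht
    rw [hp3 t ht]; rfl
  · rw [hp2 α le_rfl, hg3 α le_rfl, tr_apply]; ring

/-- The algebraic identity behind the reduction to two commutators. -/
lemma bip_step {G : Type*} [Group G] {φ X' A' B' a₁ b₁ κ' : G}
    (h : κ' = ⁅X', φ⁆ * ⁅A', B'⁆) (hc1 : Commute κ' A') (hc2 : Commute κ' B')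
    (ha : Commute a₁ A') (ha' : Commute a₁ B') (hb : Commute b₁ A') (hb' : Commute b₁ B') :
    ⁅a₁, b₁⁆ * κ' = ⁅(⁅a₁, b₁⁆ * κ') * (φ * X' * φ⁻¹), φ⁆ *
      ⁅φ * (a₁ * A') * φ⁻¹, φ * (b₁ * B') * φ⁻¹⁆ := by
  have e1 : ⁅a₁ * A', b₁ * B'⁆ = ⁅a₁, b₁⁆ * ⁅A', B'⁆ := by
    simp only [commutatorElement_def]
    calc a₁ * A' * (b₁ * B') * (a₁ * A')⁻¹ * (b₁ * B')⁻¹
        = a₁ * (A' * b₁) * B' * (A'⁻¹ * a₁⁻¹) * (B'⁻¹ * b₁⁻¹) := by group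
      _ = a₁ * (b₁ * A') * B' * (a₁⁻¹ * A'⁻¹) * (b₁⁻¹ * B'⁻¹) := by
          rw [← hb.eq, (ha.inv_left.inv_right).eq, (hb'.inv_left.inv_right).eq]
      _ = a₁ * b₁ * (A' * B' * a₁⁻¹) * (A'⁻¹ * b₁⁻¹) * B'⁻¹ := by group
      _ = a₁ * b₁ * (a₁⁻¹ * (A' * B')) * (b₁⁻¹ * A'⁻¹) * B'⁻¹ := by
          rw [((ha.mul_right ha').inv_left).eq, ((hb.inv_left.inv_right)).eq]
      _ = a₁ * b₁ * a₁⁻¹ * ((A' * B') * b₁⁻¹) * A'⁻¹ * B'⁻¹ := by group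
      _ = a₁ * b₁ * a₁⁻¹ * (b₁⁻¹ * (A' * B')) * A'⁻¹ * B'⁻¹ := by
          rw [((hb.mul_right hb').inv_left).eq]
      _ = a₁ * b₁ * a₁⁻¹ * b₁⁻¹ * (A' * B' * A'⁻¹ * B'⁻¹) := by group
  have e2 : ⁅φ * (a₁ * A') * φ⁻¹, φ * (b₁ * B') * φ⁻¹⁆ = φ * (⁅a₁, b₁⁆ * ⁅A', B'⁆) * φ⁻¹ := by
    rw [← e1]; simp only [commutatorElement_def]; group
  have e3 : ⁅X', φ⁆ = κ' * ⁅A', B'⁆⁻¹ := by rw [h]; group
  have hc3 : Commute κ' ⁅A', B'⁆ := by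
    rw [commutatorElement_def]
    exact ((hc1.mul_right hc2).mul_right hc1.inv_right).mul_right hc2.inv_right
  have e4 : ⁅(⁅a₁, b₁⁆ * κ') * (φ * X' * φ⁻¹), φ⁆ =
      (⁅a₁, b₁⁆ * κ') * φ * ⁅X', φ⁆ * (⁅a₁, b₁⁆ * κ')⁻¹ * φ⁻¹ := by
    simp only [commutatorElement_def]; group
  rw [e4, e2, e3]
  have e5 : κ' * ⁅A', B'⁆⁻¹ * (⁅a₁, b₁⁆ * κ')⁻¹ = ⁅A', B'⁆⁻¹ * ⁅a₁, b₁⁆⁻¹ := by
    rw [mul_inv_rev, (hc3.inv_right).eq]; group
  calc ⁅a₁, b₁⁆ * κ' = (⁅a₁, b₁⁆ * κ') * φ * (⁅A', B'⁆⁻¹ * ⁅a₁, b₁⁆⁻¹) * φ⁻¹ *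
        (φ * (⁅a₁, b₁⁆ * ⁅A', B'⁆) * φ⁻¹) := by group
    _ = (⁅a₁, b₁⁆ * κ') * φ * (κ' * ⁅A', B'⁆⁻¹) * (⁅a₁, b₁⁆ * κ')⁻¹ * φ⁻¹ *
        (φ * (⁅a₁, b₁⁆ * ⁅A', B'⁆) * φ⁻¹) := by
          rw [← e5]; group

/-- Every element of `Gc s e` is a product of two commutators of elements of `Gc s e`. -/
lemma two_commutators {s e : ℝ} {κ : ℝ ≃o ℝ} (hκ : κ ∈ Gc s e) :
    ∃ X ∈ Gc s e, ∃ φ ∈ Gc s e, ∃ A ∈ Gc s e, ∃ B ∈ Gc s e, κ = ⁅X, φ⁆ * ⁅A, B⁆ := by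
  obtain ⟨hκH, a', b', haa, hbb, h4, h5⟩ := hκ
  rcases le_or_gt b' a' with hba | hab
  · have : κ = 1 := by
      ext t
      rcases le_total t a' with h | h
      · exact h4 t h
      · exact h5 t (hba.trans h)
    rw [this]
    exact ⟨1, Subgroup.one_mem _, 1, Subgroup.one_mem _, 1, Subgroup.one_mem _, 1,
      Subgroup.one_mem _, by simp⟩
  obtain ⟨α, hα, hα1, hα2⟩ := Dy_dense haa
  obtain ⟨β, hβ, hβ1, hβ2⟩ := Dy_dense hbb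
  obtain ⟨φ, hφ, hφα⟩ := exists_push hα hβ hα1 (by linarith) hβ2
  have hκ2 : κ ∈ ⁅Gc α β, Gc α β⁆ := Gc_perfect α β ⟨hκH, a', b', hα2, hβ1, h4, h5⟩
  have hsub : ⁅Gc α β, Gc α β⁆ ≤ Gc α β := Subgroup.commutator_le.2 (fun x hx y hy => by
    rw [commutatorElement_def]
    exact Subgroup.mul_mem _ (Subgroup.mul_mem _ (Subgroup.mul_mem _ hx hy)
      (Subgroup.inv_mem _ hx)) (Subgroup.inv_mem _ hy))
  have key : ∃ X ∈ Gc s e, ∃ A ∈ Gc β e, ∃ B ∈ Gc β e, κ = ⁅X, φ⁆ * ⁅A, B⁆ := by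
    have hstep : ∀ a₁ ∈ Gc α β, ∀ b₁ ∈ Gc α β, ∀ κ' ∈ Gc α β,
        (∃ X ∈ Gc s e, ∃ A ∈ Gc β e, ∃ B ∈ Gc β e, κ' = ⁅X, φ⁆ * ⁅A, B⁆) →
        ∃ X ∈ Gc s e, ∃ A ∈ Gc β e, ∃ B ∈ Gc β e, ⁅a₁, b₁⁆ * κ' = ⁅X, φ⁆ * ⁅A, B⁆ := by
      rintro a₁ ha₁ b₁ hb₁ κ' hκ' ⟨X', hX', A', hA', B', hB', h⟩
      have hcomm : ∀ x ∈ Gc α β, ∀ y ∈ Gc β e, Commute x y := fun x hx y hy =>
        Gc_comm le_rfl hx hy
      refine ⟨_, ?_, _, ?_, _, ?_, bip_step h (hcomm _ hκ' _ hA') (hcomm _ hκ' _ hB')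
        (hcomm _ ha₁ _ hA') (hcomm _ ha₁ _ hB') (hcomm _ hb₁ _ hA') (hcomm _ hb₁ _ hB')⟩
      · have hαβ : Gc α β ≤ Gc s e := Gc_mono hα1.le hβ2.le
        refine Subgroup.mul_mem _ (Subgroup.mul_mem _ ?_ (hαβ hκ')) ?_
        · rw [commutatorElement_def]
          exact Subgroup.mul_mem _ (Subgroup.mul_mem _ (Subgroup.mul_mem _ (hαβ ha₁) (hαβ hb₁))
            (Subgroup.inv_mem _ (hαβ ha₁))) (Subgroup.inv_mem _ (hαβ hb₁))
        · exact Subgroup.mul_mem _ (Subgroup.mul_mem _ hφ hX') (Subgroup.inv_mem _ hφ)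
      · refine Gc_conj (a := α) (b := e) (Subgroup.mul_mem _ (Gc_mono le_rfl hβ2.le ha₁)
          (Gc_mono (by linarith) le_rfl hA')) (Gc_le_HH _ _ hφ) hφα.ge
          (Gc_ge_apply hφ le_rfl).le
      · refine Gc_conj (a := α) (b := e) (Subgroup.mul_mem _ (Gc_mono le_rfl hβ2.le hb₁)
          (Gc_mono (by linarith) le_rfl hB')) (Gc_le_HH _ _ hφ) hφα.ge
          (Gc_ge_apply hφ le_rfl).le
    have hgen : ∀ x ∈ ⁅Gc α β, Gc α β⁆,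
        ∃ X ∈ Gc s e, ∃ A ∈ Gc β e, ∃ B ∈ Gc β e, x = ⁅X, φ⁆ * ⁅A, B⁆ := by
      intro x hx
      rw [Subgroup.commutator_def] at hx
      induction hx using Subgroup.closure_induction_left with
      | one => exact ⟨1, Subgroup.one_mem _, 1, Subgroup.one_mem _, 1, Subgroup.one_mem _, by simp⟩
      | mul_left x hx y hy ih =>
        obtain ⟨a₁, ha₁, b₁, hb₁, rfl⟩ := hx
        exact hstep a₁ ha₁ b₁ hb₁ y (hsub hy) ih
      | inv_mul_cancel x hx y hy ih =>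
        obtain ⟨a₁, ha₁, b₁, hb₁, rfl⟩ := hx
        rw [commutatorElement_inv]
        exact hstep b₁ hb₁ a₁ ha₁ y (hsub hy) ih
    exact hgen κ hκ2
  obtain ⟨X, hX, A, hA, B, hB, h⟩ := key
  have hle : Gc β e ≤ Gc s e := Gc_mono (by linarith) le_rfl
  exact ⟨X, hX, φ, hφ, A, hle hA, B, hle hB, h⟩

end Pool.Agent.Lib_helper30
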