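import Pool.Agent.Lib_helper30.Dec

set_option autoImplicit false

namespace Pool.Agent.Lib_helper30

open Filter Topology Set

/-- `h` conjugates `c` to `b` on the left of `x`. -/
def Part (c b h : ℝ ≃o ℝ) (x : ℝ) : Prop := ∀ t, t ≤ x → h (c t) = b (h t)

/-- Conjugacy with prescribed germ at `-∞`. -/
def CCk (c b : ℝ ≃o ℝ) (k : ℤ) : Prop := ∃ h ∈ GG, EndBot h k ∧ h * c = b * h

lemma Part.mono {c b h : ℝ ≃o ℝ} {x y : ℝ} (p : Part c b h x) (hy : y ≤ x) : Part c b h y :=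
  fun t ht => p t (ht.trans hy)

lemma affine_eq_of_agree {h h' : ℝ ≃o ℝ} (hh : h ∈ HH) (hh' : h' ∈ HH) {s : ℝ} (hs : s ∉ Dy)
    (hag : ∀ t, t ≤ s → h t = h' t) : ∀ᶠ t in 𝓝 s, h t = h' t := by
  obtain ⟨m, b, _, h1⟩ := hh.both s hs
  obtain ⟨m', b', _, h2⟩ := hh'.both s hs
  obtain ⟨ε, hε, hε'⟩ := Metric.eventually_nhds_iff.1 (h1.and h2)
  have e0 := hε' (y := s) (by rw [dist_self]; exact hε)
  have e1 := hε' (y := s - ε / 2) (by
    rw [Real.dist_eq, show s - ε / 2 - s = -(ε / 2) by ring, abs_neg, abs_of_pos] <;> linarith)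
  have k0 := hag s le_rfl
  have k1 := hag (s - ε / 2) (by linarith)
  rw [e0.1, e0.2] at k0
  rw [e1.1, e1.2] at k1
  have e2 : (2 : ℝ) ^ m = 2 ^ m' := by
    have e3 : (2 : ℝ) ^ m * (ε / 2) = 2 ^ m' * (ε / 2) := by nlinarith
    exact mul_right_cancel₀ (by positivity) e3
  have e4 : b = b' := by rw [e2] at k0; linarith
  filter_upwards [h1, h2] with t h3 h4
  rw [h3, h4, e2, e4]

/-- Uniqueness of partial conjugators. -/
lemma part_unique {c b h h' : ℝ ≃o ℝ} (hh : h ∈ HH) (hh' : h' ∈ HH) (hclu : Clu c) {k : ℤ}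
    (e : EndBot h k) (e' : EndBot h' k) {x : ℝ} (p : Part c b h x) (p' : Part c b h' x) :
    ∀ t, t ≤ max x (c x) → h t = h' t := by
  set S : Set ℝ := {y | ∀ t, t ≤ y → h t = h' t} with hS
  set m := max x (c x) with hm
  by_contra hcon
  have hmS : m ∉ S := hcon
  have hne : S.Nonempty := by
    have : ∀ᶠ t in atBot, h t = h' t := by
      filter_upwards [e, e'] with t h1 h2
      rw [h1, h2]
    obtain ⟨y, hy⟩ := eventually_atBot.1 this
    exact ⟨y, hy⟩
  have hbd : BddAbove S := ⟨m, fun y hy => by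
    by_contra hlt
    push Not at hlt
    exact hmS (fun t ht => hy t (ht.trans hlt.le))⟩
  set s := sSup S with hs
  have hsS : s ∈ S := by
    have hlt : ∀ t, t < s → h t = h' t := by
      intro t ht
      obtain ⟨y, hy, hty⟩ := exists_lt_of_lt_csSup hne ht
      exact hy t hty.le
    have hcl : IsClosed {t : ℝ | h t = h' t} := isClosed_eq h.continuous h'.continuous
    have hs2 : s ∈ closure (Iio s) := by rw [closure_Iio]; exact Set.mem_Iic.2 le_rfl
    have hs3 : s ∈ {t : ℝ | h t = h' t} := (closure_minimal (fun t ht => hlt t ht) hcl) hs2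
    intro t ht
    rcases ht.lt_or_eq with h1 | h1
    · exact hlt t h1
    · rw [h1]; exact hs3
  have hsm : s < m := by
    by_contra hle
    push Not at hle
    exact hmS (fun t ht => hsS t (ht.trans hle))
  have hmax : ∀ y ∈ S, y ≤ s := fun y hy => le_csSup hbd hy
  rcases lt_trichotomy (c s) s with h1 | h1 | h1
  · -- `c s < s`
    have hsx : s < x := by
      by_contra hle
      push Not at hle
      rcases le_total x (c x) with h2 | h2
      · rw [hm, max_eq_right h2] at hsm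
        have := c.monotone hle
        linarith
      · rw [hm, max_eq_left h2] at hsm
        linarith
    have h2 : s < c⁻¹ s := lt_inv_iff'.2 h1
    have h3 : min x (c⁻¹ s) ∈ S := by
      intro t ht
      have ht1 : t ≤ x := ht.trans (min_le_left _ _)
      have ht2 : c t ≤ s := le_inv_iff'.1 (ht.trans (min_le_right _ _))
      have := hsS _ ht2
      rw [p t ht1, p' t ht1] at this
      exact b.injective this
    exact absurd (hmax _ h3) (not_le.2 (lt_min hsx h2))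
  · -- fixed point
    have hsD : s ∉ Dy := fun hD => hclu s hD h1
    obtain ⟨ε, hε, hε'⟩ := Metric.eventually_nhds_iff.1 (affine_eq_of_agree hh hh' hsD hsS)
    have h3 : s + ε / 2 ∈ S := by
      intro t ht
      rcases le_total t s with h4 | h4
      · exact hsS t h4
      · apply hε'
        rw [Real.dist_eq, abs_of_nonneg (by linarith)]; linarith
    exact absurd (hmax _ h3) (by linarith)
  · -- `s < c s`
    have h3 : c (min s x) ∈ S := by
      intro t ht
      obtain ⟨r, rfl⟩ := c.surjective t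
      rw [c.le_iff_le] at ht
      have hr1 : r ≤ s := ht.trans (min_le_left _ _)
      have hr2 : r ≤ x := ht.trans (min_le_right _ _)
      rw [p r hr2, p' r hr2, hsS r hr1]
    have h4 := hmax _ h3
    rcases le_total s x with h5 | h5
    · rw [min_eq_left h5] at h4
      linarith
    · rw [min_eq_right h5] at h4
      exact absurd hsm (not_lt.2 (max_le h5 h4))

/-- Orbits approach the first fixed point. -/
lemma exists_pow_gt_bdd {d : ℝ ≃o ℝ} {p q : ℝ} (hd : ∀ t, p ≤ t → t < q → t < d t) {y : ℝ}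
    (hy : y < q) : ∃ n : ℕ, y < (d ^ n) p := by
  by_contra hcon
  push Not at hcon
  set S : Set ℝ := range (fun n : ℕ => (d ^ n) p) with hS
  have hne : S.Nonempty := ⟨_, 0, rfl⟩
  have hbd : BddAbove S := ⟨y, by rintro _ ⟨n, rfl⟩; exact hcon n⟩
  have hps : p ≤ sSup S := le_csSup hbd ⟨0, by simp⟩
  have hsy : sSup S ≤ y := csSup_le hne (by rintro _ ⟨n, rfl⟩; exact hcon n)
  have hlt : d⁻¹ (sSup S) < sSup S := inv_lt_iff'.2 (hd _ hps (by linarith))
  obtain ⟨_, ⟨n, rfl⟩, hn⟩ := exists_lt_of_lt_csSup hne hlt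
  have h1 : sSup S < (d ^ (n + 1)) p := by
    rw [pow_succ', mul_apply']
    exact inv_lt_iff'.1 hn
  exact absurd (le_csSup hbd ⟨n + 1, rfl⟩) (not_le.2 h1)

/-- A family of intervals on which an element is affine. -/
structure Cells (c : ℝ ≃o ℝ) (K : ℝ → ℝ → Prop) (Z : ℝ → Prop) : Prop where
  aff : ∀ u v, K u v → u < v ∧ u ∈ Dy ∧ v ∈ Dy ∧ ∃ σ β : ℝ, ∀ t, u ≤ t → t ≤ v → c t = σ * t + β
  ex : ∀ q, q ∉ Dy → ∃ u v, K u v ∧ u < q ∧ q < v
  zt : ∀ x, Z x → ∃ a : ℤ, ∀ t, x ≤ t → c t = t + a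
  zex : ∃ T, ∀ x, T ≤ x → Z x

/-- Obstruction to conjugacy with prescribed germ. -/
def FailP (c b : ℝ ≃o ℝ) (k : ℤ) (KC KB : ℝ → ℝ → Prop) (ZC ZB : ℝ → Prop) : Prop :=
  ∃ h ∈ GG, EndBot h k ∧ ∃ x ∈ Dy, Part c b h x ∧ x < c x ∧
    (((∃ y ∈ Dy, x < y ∧ c y < y) ∧ ∀ y, h x ≤ y → y < b y) ∨
     ((∀ y, x ≤ y → y < c y) ∧ ∃ y ∈ Dy, h x < y ∧ b y < y) ∨
     (ZC x ∧ ZB (h x) ∧
        ∃ t ∈ Dy, x ≤ t ∧ t ≤ c x ∧ ∃ s ∈ Dy, x ≤ s ∧ s ≤ c x ∧
        (h t - t ≠ h s - s ∨ ¬ ∃ n : ℤ, h t - t = n)) ∨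
     (∃ u v u' v', KC u v ∧ KB u' v' ∧ u ≤ x ∧ x < v ∧ c v < v ∧ u' ≤ h x ∧ h x < v' ∧ b v' < v' ∧
        ((c v - c u) * (v' - u') ≠ (b v' - b u') * (v - u) ∨
          ∃ t₁ ∈ Dy, x ≤ t₁ ∧ t₁ ≤ c x ∧ ∃ t₂ ∈ Dy, x ≤ t₂ ∧ t₂ ≤ c x ∧
            (h t₁ - h x) * (t₂ - x) ≠ (h t₂ - h x) * (t₁ - x))))

lemma conj_apply' {c b H : ℝ ≃o ℝ} (h : H * c = b * H) (t : ℝ) : H (c t) = b (H t) := by
  rw [← mul_apply', h, mul_apply']

lemma conj_pow' {c b H : ℝ ≃o ℝ} (h : H * c = b * H) (n : ℕ) (t : ℝ) :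
    H ((c ^ n) t) = (b ^ n) (H t) := by
  induction n with
  | zero => rfl
  | succ n ih => rw [pow_succ', mul_apply', conj_apply' h, ih, pow_succ', mul_apply']

/-- Existence of a fixed point by sign change. -/
lemma exists_fix {c : ℝ ≃o ℝ} {x v : ℝ} (hxv : x < v) (hx : x < c x) (hv : c v < v) :
    ∃ q, x < q ∧ q < v ∧ c q = q ∧ ∀ t, x ≤ t → t < q → t < c t := by
  set S : Set ℝ := {y | x ≤ y ∧ c y ≤ y} with hS
  have hcl : IsClosed S := by
    have h1 : IsClosed {y : ℝ | x ≤ y} := isClosed_Ici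
    have h2 : IsClosed {y : ℝ | c y ≤ y} := isClosed_le c.continuous continuous_id
    exact h1.inter h2
  have hne : S.Nonempty := ⟨v, hxv.le, hv.le⟩
  have hbd : BddBelow S := ⟨x, fun y hy => hy.1⟩
  have hq := hcl.csInf_mem hne hbd
  set q := sInf S with hq'
  have hlt : ∀ t, x ≤ t → t < q → t < c t := by
    intro t h1 h2
    by_contra hcon
    push Not at hcon
    exact absurd (csInf_le hbd ⟨h1, hcon⟩) (not_le.2 h2)
  have hxq : x < q := by
    rcases hq.1.lt_or_eq with h | h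
    · exact h
    · have := hq.2
      rw [← h] at this
      linarith
  have hfix : c q = q := by
    apply le_antisymm hq.2
    have hcl2 : IsClosed {t : ℝ | t ≤ c t} := isClosed_le continuous_id c.continuous
    have hmem : q ∈ closure (Ioo x q) := by
      rw [closure_Ioo hxq.ne]; exact ⟨hxq.le, le_rfl⟩
    exact (closure_minimal (fun t (ht : t ∈ Ioo x q) => (hlt t ht.1.le ht.2).le) hcl2) hmem
  refine ⟨q, hxq, ?_, hfix, hlt⟩
  rcases (csInf_le hbd (show v ∈ S from ⟨hxv.le, hv.le⟩)).lt_or_eq with h | h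
  · exact h
  · exfalso
    have h' : q = v := h
    rw [h'] at hfix
    linarith

/-- Linearity near an attracting fixed point. -/
lemma zone_linear {c b H : ℝ ≃o ℝ} (hH : H ∈ HH) (hconj : H * c = b * H) {x q q' σ σ' : ℝ}
    (hq : q ∉ Dy) (hxq : x < q) (hHq : H q = q') (hpos : ∀ t, x ≤ t → t < q → t < c t)
    (hc : ∀ t, x ≤ t → t ≤ q → c t - q = σ * (t - q))
    (hb : ∀ t, H x ≤ t → t ≤ q' → b t - q' = σ' * (t - q')) :
    σ = σ' ∧ ∃ μ : ℝ, ∀ t, x ≤ t → t ≤ q → H t - q' = μ * (t - q) := by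
  obtain ⟨i, β, _, haff⟩ := hH.both q hq
  obtain ⟨ε, hε, hε'⟩ := Metric.eventually_nhds_iff.1 haff
  have hμ : ∀ t, q - ε < t → t ≤ q → H t - q' = 2 ^ i * (t - q) := by
    intro t h1 h2
    have e1 := hε' (y := t) (by rw [Real.dist_eq, abs_sub_comm, abs_of_nonneg (by linarith)]; linarith)
    have e2 := hε' (y := q) (by rw [dist_self]; exact hε)
    rw [← hHq, e1, e2]; ring
  have hcq : c q = q := by have := hc q hxq.le le_rfl; rw [sub_self, mul_zero] at this; linarith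
  have hstay : ∀ (m : ℕ) t, x ≤ t → t < q → x ≤ (c ^ m) t ∧ (c ^ m) t < q := by
    intro m t h1 h2
    induction m with
    | zero => exact ⟨h1, h2⟩
    | succ m ih =>
      rw [pow_succ', mul_apply']
      refine ⟨ih.1.trans (hpos _ ih.1 ih.2).le, ?_⟩
      have := c.strictMono ih.2
      rwa [hcq] at this
  have hcm : ∀ (m : ℕ) t, x ≤ t → t < q → (c ^ m) t - q = σ ^ m * (t - q) := by
    intro m t h1 h2
    induction m with
    | zero => simp
    | succ m ih =>
      obtain ⟨h3, h4⟩ := hstay m t h1 h2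
      rw [pow_succ', mul_apply', hc _ h3 h4.le, ih, pow_succ']; ring
  have hbm : ∀ (m : ℕ) t, x ≤ t → t < q → (b ^ m) (H t) - q' = σ' ^ m * (H t - q') := by
    intro m t h1 h2
    induction m with
    | zero => simp
    | succ m ih =>
      obtain ⟨h3, h4⟩ := hstay m t h1 h2
      have h5 : H x ≤ (b ^ m) (H t) := by rw [← conj_pow' hconj]; exact H.monotone h3
      have h6 : (b ^ m) (H t) ≤ q' := by rw [← conj_pow' hconj, ← hHq]; exact H.monotone h4.le
      rw [pow_succ', mul_apply', hb _ h5 h6, ih, pow_succ']; ring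
  -- positivity of the slopes
  have hσ : σ ≠ 0 := by
    intro h0
    have h1 := hc x le_rfl hxq.le
    rw [h0, zero_mul] at h1
    have h2 := c.strictMono hxq
    rw [hcq] at h2
    linarith
  have hσ' : σ' ≠ 0 := by
    intro h0
    have h1 := hb (H x) le_rfl (by rw [← hHq]; exact H.monotone hxq.le)
    rw [h0, zero_mul, ← conj_apply' hconj, ← hHq] at h1
    have h2 := H.strictMono (c.strictMono hxq)
    rw [hcq] at h2
    linarith
  have hev : ∀ t, x ≤ t → t < q → ∃ m : ℕ, ∀ j, m ≤ j →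
      2 ^ i * (σ ^ j * (t - q)) = σ' ^ j * (H t - q') := by
    intro t h1 h2
    obtain ⟨m, hm⟩ := exists_pow_gt_bdd (d := c) (p := t) (q := q) (y := q - ε)
      (fun s h3 h4 => hpos s (h1.trans h3) h4) (by linarith)
    refine ⟨m, ?_⟩
    intro j hj
    obtain ⟨h3, h4⟩ := hstay j t h1 h2
    have h5 : (c ^ m) t ≤ (c ^ j) t := by
      obtain ⟨d, rfl⟩ := Nat.exists_eq_add_of_le hj
      clear hj h3 h4
      induction d with
      | zero => exact le_rfl
      | succ d ih =>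
        refine ih.trans ?_
        obtain ⟨h6, h7⟩ := hstay (m + d) t h1 h2
        rw [← add_assoc, pow_succ', mul_apply']
        exact (hpos _ h6 h7).le
    have h6 := hμ _ (hm.trans_le h5) h4.le
    rw [conj_pow' hconj, hbm j t h1 h2, hcm j t h1 h2] at h6
    exact h6.symm
  have hσσ : σ = σ' := by
    obtain ⟨m, hm⟩ := hev x le_rfl hxq
    have e1 := hm m le_rfl
    have e2 := hm (m + 1) (by omega)
    have hne : x - q ≠ 0 := by linarith [sub_neg.2 hxq] |> fun h : x - q < 0 => h.ne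
    have hA : (2 : ℝ) ^ i * (σ ^ m * (x - q)) ≠ 0 :=
      mul_ne_zero (zpow_ne_zero _ (by norm_num)) (mul_ne_zero (pow_ne_zero _ hσ) hne)
    have e3 : σ * ((2 : ℝ) ^ i * (σ ^ m * (x - q))) = σ' * ((2 : ℝ) ^ i * (σ ^ m * (x - q))) := by
      calc σ * ((2 : ℝ) ^ i * (σ ^ m * (x - q))) = 2 ^ i * (σ ^ (m + 1) * (x - q)) := by ring
        _ = σ' ^ (m + 1) * (H x - q') := e2
        _ = σ' * (σ' ^ m * (H x - q')) := by ring
        _ = _ := by rw [e1]
    exact mul_right_cancel₀ hA e3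
  refine ⟨hσσ, 2 ^ i, ?_⟩
  intro t h1 h2
  rcases h2.lt_or_eq with h3 | h3
  · obtain ⟨m, hm⟩ := hev t h1 h3
    have e1 := hm m le_rfl
    rw [← hσσ] at e1
    have e2 : σ ^ m * (H t - q') = σ ^ m * (2 ^ i * (t - q)) := by rw [← e1]; ring
    exact mul_left_cancel₀ (pow_ne_zero _ hσ) e2
  · rw [h3, hHq]; ring

/-- Soundness of the obstruction. -/
theorem failP_sound {c b : ℝ ≃o ℝ} {k : ℤ} {KC KB : ℝ → ℝ → Prop} {ZC ZB : ℝ → Prop} (hclu : Clu c)
    (hKC : Cells c KC ZC) (hKB : Cells b KB ZB) (hf : FailP c b k KC KB ZC ZB) : ¬ CCk c b k := by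
  rintro ⟨H, hH, hHk, hconj⟩
  obtain ⟨h, hh, hhk, x, hxD, hpart, hxc, hcase⟩ := hf
  have hHpart : Part c b H x := fun t _ => conj_apply' hconj t
  have hagree : ∀ t, t ≤ c x → H t = h t := by
    intro t ht
    exact part_unique hH.1 hh.1 hclu hHk hhk hHpart hpart t (ht.trans (le_max_right _ _))
  have hHx : H x = h x := hagree x hxc.le
  rcases hcase with ⟨⟨y, hyD, hxy, hcy⟩, hbpos⟩ | ⟨hcpos, y, hyD, hxy, hby⟩ |
    ⟨hZC, hZB, t, htD, ht1, ht2, s, hsD, hs1, hs2, hbad⟩ |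
    ⟨u, v, u', v', hu, hu', hux, hxv, hcv, hux', hxv', hbv', hbad⟩
  · have h1 := hbpos (H y) (by rw [← hHx]; exact (H.strictMono hxy).le)
    rw [← conj_apply' hconj, H.lt_iff_lt] at h1
    exact lt_asymm h1 hcy
  · obtain ⟨z, rfl⟩ := H.surjective y
    rw [← hHx, H.lt_iff_lt] at hxy
    rw [← conj_apply' hconj, H.lt_iff_lt] at hby
    exact lt_asymm (hcpos z hxy.le) hby
  · -- the end zone
    obtain ⟨a, ha⟩ := hKC.zt x hZC
    obtain ⟨a', ha'⟩ := hKB.zt _ hZB
    have hapos : (0 : ℝ) < a := by have := ha x le_rfl; linarith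
    obtain ⟨n, hn⟩ := hH.2.2
    obtain ⟨T, hT⟩ := eventually_atTop.1 hn
    have hcm : ∀ (m : ℕ) r, x ≤ r → (c ^ m) r = r + m * a := by
      intro m r hr
      induction m with
      | zero => simp
      | succ m ih =>
        rw [pow_succ', mul_apply', ih, ha _ (by nlinarith [Nat.cast_nonneg (α := ℝ) m])]
        push_cast; ring
    have hbm : ∀ (m : ℕ) r, x ≤ r → (b ^ m) (H r) = H r + m * a' := by
      intro m r hr
      induction m with
      | zero => simp
      | succ m ih =>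
        have h1 : h x ≤ (b ^ m) (H r) := by
          rw [← conj_pow' hconj, hcm m r hr, ← hHx]
          apply H.monotone
          nlinarith [Nat.cast_nonneg (α := ℝ) m]
        rw [pow_succ', mul_apply', ha' _ h1, ih]; push_cast; ring
    have hlin : ∀ r, x ≤ r → H r = r + n := by
      intro r hr
      obtain ⟨m, hm⟩ := exists_nat_gt ((T - r) / a)
      have hm' : T - r < m * a := by rwa [div_lt_iff₀ hapos] at hm
      have e1 : ∀ j : ℕ, m ≤ j → r + j * a + n = H r + j * a' := by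
        intro j hj
        rw [← hbm j r hr, ← conj_pow' hconj, hcm j r hr, hT]
        have : (m : ℝ) ≤ j := by exact_mod_cast hj
        nlinarith
      have e2 := e1 m le_rfl
      have e3 := e1 (m + 1) (by omega)
      push_cast at e3
      have e4 : (a : ℝ) = a' := by linarith
      rw [e4] at e2
      linarith
    rw [← hagree t ht2, ← hagree s hs2, hlin t ht1, hlin s hs1] at hbad
    rcases hbad with h1 | h1
    · apply h1; ring
    · exact h1 ⟨n, by ring⟩
  · -- the fixed cell zone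
    obtain ⟨huv, huD, hvD, σ, β, hσ⟩ := hKC.aff u v hu
    obtain ⟨huv', huD', hvD', σ', β', hσ'⟩ := hKB.aff u' v' hu'
    obtain ⟨q, hxq, hqv, hcq, hqpos⟩ := exists_fix hxv hxc hcv
    have hbx : h x < b (h x) := by
      rw [← hHx, ← conj_apply' hconj, H.lt_iff_lt]; exact hxc
    obtain ⟨q', hxq', hqv', hbq', hqpos'⟩ := exists_fix hxv' hbx hbv'
    have hqD : q ∉ Dy := fun hD => hclu q hD hcq
    have hHq : H q = q' := by
      have h1 : b (H q) = H q := by rw [← conj_apply' hconj, hcq]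
      rcases lt_trichotomy (H q) q' with h2 | h2 | h2
      · have := hqpos' (H q) (by rw [← hHx]; exact (H.strictMono hxq).le) h2
        linarith
      · exact h2
      · obtain ⟨z, rfl⟩ := H.surjective q'
        rw [H.lt_iff_lt] at h2
        rw [← conj_apply' hconj] at hbq'
        have h3 := H.injective hbq'
        rw [← hHx, H.lt_iff_lt] at hxq'
        have := hqpos z hxq'.le h2
        linarith
    have hc : ∀ t, x ≤ t → t ≤ q → c t - q = σ * (t - q) := by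
      intro t h1 h2
      have e1 := hσ t (hux.trans h1) (h2.trans hqv.le)
      have e2 := hσ q (hux.trans hxq.le) hqv.le
      rw [hcq] at e2
      linear_combination e1 - e2
    have hb : ∀ t, H x ≤ t → t ≤ q' → b t - q' = σ' * (t - q') := by
      intro t h1 h2
      rw [hHx] at h1
      have e1 := hσ' t (hux'.trans h1) (h2.trans hqv'.le)
      have e2 := hσ' q' (hux'.trans hxq'.le) hqv'.le
      rw [hbq'] at e2
      linear_combination e1 - e2
    obtain ⟨hσσ, μ, hμ⟩ := zone_linear hH.1 hconj hqD hxq hHq hqpos hc hb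
    rcases hbad with h1 | ⟨t₁, _, h11, h12, t₂, _, h21, h22, h1⟩
    · apply h1
      rw [hσ v (huv.le) le_rfl, hσ u le_rfl huv.le, hσ' v' huv'.le le_rfl, hσ' u' le_rfl huv'.le, hσσ]
      ring
    · apply h1
      have hcxq : c x ≤ q := by rw [← hcq]; exact c.monotone hxq.le
      have k1 := hμ t₁ h11 (h12.trans hcxq)
      have k2 := hμ t₂ h21 (h22.trans hcxq)
      have k3 := hμ x le_rfl hxq.le
      rw [← hagree t₁ h12, ← hagree t₂ h22, ← hHx]
      have e1 : H t₁ - H x = μ * (t₁ - x) := by linear_combination k1 - k3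
      have e2 : H t₂ - H x = μ * (t₂ - x) := by linear_combination k2 - k3
      rw [e1, e2]; ring

/-- Extension of partial conjugators past a point which is not fixed. -/
lemma part_extend {c b : ℝ ≃o ℝ} (hc : c ∈ GG) (hb : b ∈ GG) {k : ℤ} {s : ℝ} (hs : c s ≠ s)
    (hall : ∀ x, x < s → ∃ h ∈ GG, EndBot h k ∧ Part c b h x) :
    ∃ x, s < x ∧ ∃ h ∈ GG, EndBot h k ∧ Part c b h x := by
  rcases lt_or_gt_of_ne hs with h1 | h1
  · -- `c s < s`
    obtain ⟨x, hxD, hx1, hx2⟩ := Dy_dense h1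
    obtain ⟨h, hh, hk, hp⟩ := hall x hx2
    refine ⟨c⁻¹ x, lt_inv_iff'.2 hx1, ?_⟩
    have hgl : h x = (b⁻¹ * h * c) x := by
      rw [mul_apply', mul_apply', hp x le_rfl, inv_apply']
    have hf2 : b⁻¹ * h * c ∈ GG := GG.mul_mem (GG.mul_mem (GG.inv_mem hb) hh) hc
    set h' := glue h (b⁻¹ * h * c) x hgl with hh'
    obtain ⟨q, hq⟩ := hf2.2.2
    refine ⟨h', ⟨glue_mem_HH hh.1 hf2.1 hxD, ⟨k, ?_⟩, ⟨q, ?_⟩⟩, ?_, ?_⟩
    · filter_upwards [hk, eventually_le_atBot x] with t h3 h4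
      rw [hh', glue_le h4, h3]
    · filter_upwards [hq, eventually_ge_atTop x] with t h3 h4
      rw [hh', glue_ge h4, h3]
    · unfold EndBot
      filter_upwards [hk, eventually_le_atBot x] with t h3 h4
      rw [hh', glue_le h4, h3]
    · intro t ht
      have hct : c t ≤ x := le_inv_iff'.1 ht
      rcases le_total t x with h3 | h3
      · rw [hh', glue_le hct, glue_le h3, hp t h3]
      · rw [hh', glue_le hct, glue_ge h3, mul_apply', mul_apply', apply_inv']
  · -- `s < c s`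
    have h2 : c⁻¹ s < s := inv_lt_iff'.2 h1
    obtain ⟨x, hxD, hx1, hx2⟩ := Dy_dense h2
    obtain ⟨h, hh, hk, hp⟩ := hall x hx2
    have hcxD : c x ∈ Dy := (PL2.dy_iff hc.1 x).2 hxD
    have hsx : s < c x := inv_lt_iff'.1 hx1
    refine ⟨c x, hsx, ?_⟩
    have hgl : h (c x) = (b * h * c⁻¹) (c x) := by
      rw [mul_apply', mul_apply', inv_apply', hp x le_rfl]
    have hf2 : b * h * c⁻¹ ∈ GG := GG.mul_mem (GG.mul_mem hb hh) (GG.inv_mem hc)
    set h' := glue h (b * h * c⁻¹) (c x) hgl with hh'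
    obtain ⟨q, hq⟩ := hf2.2.2
    refine ⟨h', ⟨glue_mem_HH hh.1 hf2.1 hcxD, ⟨k, ?_⟩, ⟨q, ?_⟩⟩, ?_, ?_⟩
    · filter_upwards [hk, eventually_le_atBot (c x)] with t h3 h4
      rw [hh', glue_le h4, h3]
    · filter_upwards [hq, eventually_ge_atTop (c x)] with t h3 h4
      rw [hh', glue_ge h4, h3]
    · unfold EndBot
      filter_upwards [hk, eventually_le_atBot (c x)] with t h3 h4
      rw [hh', glue_le h4, h3]
    · intro t ht
      rcases le_total t x with h3 | h3
      · rw [hh', glue_le (c.monotone h3), glue_le ht, hp t h3]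
      · rw [hh', glue_ge (c.monotone h3), glue_le ht, mul_apply', mul_apply', inv_apply']

/-- Iterating partial conjugators. -/
lemma part_pow {c b h : ℝ ≃o ℝ} {x : ℝ} (n : ℕ) (hpos : ∀ i, i < n → (c ^ i) x ≤ (c ^ n) x)
    (hp : Part c b h ((c ^ n) x)) : h ((c ^ n) x) = (b ^ n) (h x) := by
  have key : ∀ i, i ≤ n → h ((c ^ i) x) = (b ^ i) (h x) := by
    intro i
    induction i with
    | zero => intro _; rfl
    | succ i ih =>
      intro hi
      rw [pow_succ', mul_apply', hp _ (hpos i (by omega)), ih (by omega), pow_succ', mul_apply']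
  exact key n le_rfl

/-- A dyadic-dense identity on an interval. -/
lemma eq_on_of_dy {f g : ℝ → ℝ} (hf : Continuous f) (hg : Continuous g) {a b : ℝ} (hab : a < b)
    (h : ∀ t ∈ Dy, a ≤ t → t ≤ b → f t = g t) : ∀ t, a ≤ t → t ≤ b → f t = g t := by
  intro t h1 h2
  have hcl : IsClosed {t : ℝ | f t = g t} := isClosed_eq hf hg
  have hsub : Icc a b ⊆ closure ({t : ℝ | t ∈ Dy} ∩ Ioo a b) := by
    intro r hr
    rw [mem_closure_iff_nhds]
    intro U hU
    obtain ⟨ε, hε, hεU⟩ := Metric.mem_nhds_iff.1 hU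
    have hlt : max a (r - ε) < min b (r + ε) := by
      rw [max_lt_iff, lt_min_iff, lt_min_iff]
      refine ⟨⟨hab, ?_⟩, ⟨?_, ?_⟩⟩ <;> linarith [hr.1, hr.2]
    obtain ⟨s, hs, hs1, hs2⟩ := Dy_dense hlt
    rw [max_lt_iff] at hs1
    rw [lt_min_iff] at hs2
    refine ⟨s, hεU ?_, hs, hs1.1, hs2.1⟩
    rw [Metric.mem_ball, Real.dist_eq, abs_lt]
    constructor <;> linarith [hs1.2, hs2.2]
  have h3 := hsub ⟨h1, h2⟩
  exact (closure_minimal (fun s hs => h s hs.1 hs.2.1.le hs.2.2.le) hcl) h3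

/-- Crossing a fixed point. -/
lemma part_cross {c b : ℝ ≃o ℝ} (hc : c ∈ GG) (hb : b ∈ GG) (hcc : Clu c) (hcb : Clu b) {k : ℤ}
    {KC KB : ℝ → ℝ → Prop} {ZC ZB : ℝ → Prop} (hKC : Cells c KC ZC) (hKB : Cells b KB ZB)
    (hnf : ¬ FailP c b k KC KB ZC ZB) {s : ℝ} (hs : c s = s) {x₀ : ℝ} (hx₀ : x₀ < s) (hpos : ∀ t, x₀ ≤ t → t < s → t < c t)
    (hall : ∀ x, x < s → ∃ h ∈ GG, EndBot h k ∧ Part c b h x) :
    ∃ x, s < x ∧ ∃ h ∈ GG, EndBot h k ∧ Part c b h x := by
  have hsD : s ∉ Dy := fun hD => hcc s hD hs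
  obtain ⟨u, v, hK, hus, hsv⟩ := hKC.ex s hsD
  obtain ⟨huv, huD, hvD, σ, β, hσ⟩ := hKC.aff u v hK
  have hc' : ∀ t, u ≤ t → t ≤ v → c t - s = σ * (t - s) := by
    intro t h1 h2
    have e1 := hσ t h1 h2
    have e2 := hσ s hus.le hsv.le
    rw [hs] at e2
    linear_combination e1 - e2
  obtain ⟨x₁, hx₁D, hx₁a, hx₁s⟩ := Dy_dense (max_lt hx₀ hus)
  rw [max_lt_iff] at hx₁a
  have hσlt : σ < 1 := by
    have h1 := hpos x₁ hx₁a.1.le hx₁s
    have h2 := hc' x₁ hx₁a.2.le (hx₁s.trans hsv).le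
    by_contra hcon
    push Not at hcon
    nlinarith
  have hσpos : 0 < σ := by
    have h1 := hc' u le_rfl huv.le
    have h2 := c.strictMono hus
    rw [hs] at h2
    by_contra hcon
    push Not at hcon
    nlinarith
  have hright : ∀ t, s < t → t ≤ v → c t < t := by
    intro t h1 h2
    have h3 := hc' t (hus.trans h1).le h2
    nlinarith
  have hcv : c v < v := hright v hsv le_rfl
  have hstay : ∀ n : ℕ, x₁ ≤ (c ^ n) x₁ ∧ (c ^ n) x₁ < s := by
    intro n
    induction n with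
    | zero => exact ⟨le_rfl, hx₁s⟩
    | succ n ih =>
      rw [pow_succ', mul_apply']
      refine ⟨ih.1.trans (hpos _ (hx₁a.1.le.trans ih.1) ih.2).le, ?_⟩
      have := c.strictMono ih.2
      rwa [hs] at this
  have hmono : Monotone (fun n : ℕ => (c ^ n) x₁) := by
    apply monotone_nat_of_le_succ
    intro n
    rw [pow_succ', mul_apply']
    exact (hpos _ (hx₁a.1.le.trans (hstay n).1) (hstay n).2).le
  obtain ⟨h₁, hh₁, hk₁, hp₁⟩ := hall x₁ hx₁s
  have hb₁ : h₁ x₁ < b (h₁ x₁) := by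
    rw [← hp₁ x₁ le_rfl]
    exact h₁.strictMono (hpos x₁ hx₁a.1.le hx₁s)
  -- `b` has a fixed point beyond `h₁ x₁`
  obtain ⟨y, hyp, hby⟩ : ∃ y, h₁ x₁ < y ∧ b y < y := by
    by_contra hcon
    push Not at hcon
    apply hnf
    obtain ⟨y₀, hy₀D, hy₀1, hy₀2⟩ := Dy_dense hsv
    refine ⟨h₁, hh₁, hk₁, x₁, hx₁D, hp₁, hpos x₁ hx₁a.1.le hx₁s,
      Or.inl ⟨⟨y₀, hy₀D, hx₁s.trans hy₀1, hright y₀ hy₀1 hy₀2.le⟩, ?_⟩⟩
    intro z hz
    rcases hz.lt_or_eq with h1 | h1
    · rcases (hcon z h1).lt_or_eq with h2 | h2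
      · exact h2
      · exfalso
        -- a non-dyadic fixed point of `b`: sign change
        have hzD : z ∉ Dy := fun hD => hcb z hD h2.symm
        obtain ⟨i, β', _, haff⟩ := hb.1.both z hzD
        obtain ⟨ε, hε, hε'⟩ := Metric.eventually_nhds_iff.1 haff
        have e0 := hε' (y := z) (by rw [dist_self]; exact hε)
        have hne : (2 : ℝ) ^ i ≠ 1 := by
          intro h3
          obtain ⟨w, hw, hw1, hw2⟩ := Dy_dense (show z < z + ε by linarith)
          have e1 := hε' (y := w) (by rw [Real.dist_eq, abs_of_pos (by linarith)]; linarith)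
          rw [h3] at e1 e0
          apply hcb w hw
          rw [e1]; linarith
        set δ := min (ε / 2) ((z - h₁ x₁) / 2) with hδ
        have hδpos : 0 < δ := lt_min (by linarith) (by linarith)
        have hδ1 : δ ≤ ε / 2 := min_le_left _ _
        have hδ2 : δ ≤ (z - h₁ x₁) / 2 := min_le_right _ _
        have e1 := hε' (y := z - δ) (by
          rw [Real.dist_eq, show z - δ - z = -δ by ring, abs_neg, abs_of_pos hδpos]; linarith)
        have e2 := hε' (y := z + δ) (by rw [Real.dist_eq, add_sub_cancel_left, abs_of_pos hδpos]; linarith)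
        have k1 := hcon (z - δ) (by linarith)
        have k2 := hcon (z + δ) (by linarith)
        rw [e1] at k1
        rw [e2] at k2
        have k3 : z = 2 ^ i * z + β' := by rw [← e0]; exact h2
        have k4 : (2 : ℝ) ^ i * δ ≤ δ := by nlinarith
        have k5 : δ ≤ (2 : ℝ) ^ i * δ := by nlinarith
        exact hne (mul_right_cancel₀ hδpos.ne' (by rw [one_mul]; exact le_antisymm k4 k5))
    · rw [← h1]; exact hb₁
  obtain ⟨q', hq1, hq2, hbq', hqpos⟩ := exists_fix hyp hb₁ hby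
  have hq'D : q' ∉ Dy := fun hD => hcb q' hD hbq'
  obtain ⟨u', v', hK', hu', hv'⟩ := hKB.ex q' hq'D
  obtain ⟨huv', huD', hvD', σ', β', hσ'⟩ := hKB.aff u' v' hK'
  have hb' : ∀ t, u' ≤ t → t ≤ v' → b t - q' = σ' * (t - q') := by
    intro t h1 h2
    have e1 := hσ' t h1 h2
    have e2 := hσ' q' hu'.le hv'.le
    rw [hbq'] at e2
    linear_combination e1 - e2
  obtain ⟨n, hn⟩ := exists_pow_gt_bdd (d := b) (p := h₁ x₁) (q := q') hqpos (max_lt hu' hq1)
  rw [max_lt_iff] at hn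
  set x₂ := (c ^ n) x₁ with hx₂
  obtain ⟨hx₂a, hx₂s⟩ := hstay n
  obtain ⟨h₂, hh₂, hk₂, hp₂⟩ := hall x₂ hx₂s
  have hx₂D : x₂ ∈ Dy := (PL2.dy_iff (HH.pow_mem hc.1 n) x₁).2 hx₁D
  have hx₂c : x₂ < c x₂ := hpos x₂ (hx₁a.1.le.trans hx₂a) hx₂s
  have hux₂ : u ≤ x₂ := hx₁a.2.le.trans hx₂a
  have hcx₂s : c x₂ < s := by have := c.strictMono hx₂s; rwa [hs] at this
  have hag : h₂ x₁ = h₁ x₁ := part_unique hh₂.1 hh₁.1 hcc hk₂ hk₁ (hp₂.mono hx₂a) hp₁ x₁
    (le_max_left _ _)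
  have hh₂x : h₂ x₂ = (b ^ n) (h₁ x₁) := by
    rw [← hag]
    exact part_pow n (fun i hi => hmono hi.le) hp₂
  have hux₂' : u' < h₂ x₂ := by rw [hh₂x]; exact hn.1
  have hbstay : ∀ m : ℕ, h₁ x₁ ≤ (b ^ m) (h₁ x₁) ∧ (b ^ m) (h₁ x₁) < q' := by
    intro m
    induction m with
    | zero => exact ⟨le_rfl, hq1⟩
    | succ m ih =>
      rw [pow_succ', mul_apply']
      refine ⟨ih.1.trans (hqpos _ ih.1 ih.2).le, ?_⟩
      have := b.strictMono ih.2
      rwa [hbq'] at this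
  have hx₂q' : h₂ x₂ < q' := by rw [hh₂x]; exact (hbstay n).2
  have hbx₂ : h₂ x₂ < b (h₂ x₂) := by
    rw [← hp₂ x₂ le_rfl]; exact h₂.strictMono hx₂c
  have hσ'lt : σ' < 1 := by
    have h2 := hb' (h₂ x₂) hux₂'.le (hx₂q'.trans hv').le
    by_contra hcon
    push Not at hcon
    nlinarith
  have hbv' : b v' < v' := by
    have h2 := hb' v' huv'.le le_rfl
    nlinarith
  -- no failure at the fixed point
  have hgood : (c v - c u) * (v' - u') = (b v' - b u') * (v - u) ∧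
      ∀ t₁ ∈ Dy, x₂ ≤ t₁ → t₁ ≤ c x₂ → ∀ t₂ ∈ Dy, x₂ ≤ t₂ → t₂ ≤ c x₂ →
        (h₂ t₁ - h₂ x₂) * (t₂ - x₂) = (h₂ t₂ - h₂ x₂) * (t₁ - x₂) := by
    by_contra hcon
    apply hnf
    refine ⟨h₂, hh₂, hk₂, x₂, hx₂D, hp₂, hx₂c, Or.inr (Or.inr (Or.inr ⟨u, v, u', v', hK, hK', hux₂,
      hx₂s.trans hsv, hcv, hux₂'.le, hx₂q'.trans hv', hbv', ?_⟩))⟩
    by_cases h1 : (c v - c u) * (v' - u') = (b v' - b u') * (v - u)
    · right
      by_contra h2
      push Not at h2
      exact hcon ⟨h1, h2⟩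
    · left; exact h1
  obtain ⟨hslope, hlin⟩ := hgood
  have hσσ : σ = σ' := by
    have e1 := hc' u le_rfl huv.le
    have e2 := hc' v huv.le le_rfl
    have e3 := hb' u' le_rfl huv'.le
    have e4 := hb' v' huv'.le le_rfl
    have e5 : c v - c u = σ * (v - u) := by linear_combination e2 - e1
    have e6 : b v' - b u' = σ' * (v' - u') := by linear_combination e4 - e3
    rw [e5, e6] at hslope
    have hne : (v - u) * (v' - u') ≠ 0 :=
      mul_ne_zero (sub_ne_zero.2 huv.ne') (sub_ne_zero.2 huv'.ne')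
    exact mul_right_cancel₀ hne (by linear_combination hslope)
  have hcx₂D : c x₂ ∈ Dy := (PL2.dy_iff hc.1 x₂).2 hx₂D
  -- the germ of `h₂` at `x₂`
  obtain ⟨i, β'', hβ'', hgerm⟩ := hh₂.1.right x₂
  rw [eventually_nhdsWithin_iff] at hgerm
  obtain ⟨ε, hε, hε'⟩ := Metric.eventually_nhds_iff.1 hgerm
  have haff : ∀ t, x₂ ≤ t → t ≤ c x₂ → h₂ t = 2 ^ i * t + β'' := by
    obtain ⟨w, hw, hw1, hw2⟩ := Dy_dense (show x₂ < min (x₂ + ε) (c x₂) from lt_min (by linarith) hx₂c)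
    rw [lt_min_iff] at hw2
    have e0 := hε' (y := x₂) (by rw [dist_self]; exact hε) (Set.mem_Ici.2 le_rfl)
    have e1 := hε' (y := w) (by rw [Real.dist_eq, abs_of_pos (by linarith)]; linarith)
      (Set.mem_Ici.2 hw1.le)
    have hwx : w - x₂ ≠ 0 := sub_ne_zero.2 hw1.ne'
    have hdy : ∀ t ∈ Dy, x₂ ≤ t → t ≤ c x₂ → h₂ t = 2 ^ i * t + β'' := by
      intro t ht h1 h2
      have e2 := hlin t ht h1 h2 w hw hw1.le hw2.2.le
      have e3 : h₂ w - h₂ x₂ = 2 ^ i * (w - x₂) := by rw [e1, e0]; ring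
      rw [e3] at e2
      have e4 : (h₂ t - h₂ x₂) * (w - x₂) = (2 ^ i * (t - x₂)) * (w - x₂) := by rw [e2]; ring
      have e5 := mul_right_cancel₀ hwx e4
      rw [e0] at e5
      linarith
    exact eq_on_of_dy h₂.continuous (by fun_prop) hx₂c hdy
  set A := tr β'' * sc i with hA
  have hAH : A ∈ HH := HH.mul_mem (tr_mem_HH hβ'') (sc_mem_HH i)
  have hAa : ∀ t, A t = 2 ^ i * t + β'' := by intro t; rw [hA, mul_apply', tr_apply, sc_apply]
  have hgl : h₂ x₂ = A x₂ := by rw [hAa, haff x₂ le_rfl hx₂c.le]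
  set h₃ := glue h₂ A x₂ hgl with hh₃
  have hh₃H : h₃ ∈ HH := glue_mem_HH hh₂.1 hAH hx₂D
  have hh₃le : ∀ t, t ≤ c x₂ → h₃ t = h₂ t := by
    intro t ht
    rcases le_total t x₂ with h1 | h1
    · rw [hh₃, glue_le h1]
    · rw [hh₃, glue_ge h1, hAa, haff t h1 ht]
  -- `A s = q'`
  have hAs : A s = q' := by
    have e1 : h₂ (c x₂) = b (h₂ x₂) := hp₂ x₂ le_rfl
    rw [haff (c x₂) hx₂c.le le_rfl] at e1
    have e2 := hb' (h₂ x₂) hux₂'.le (hx₂q'.trans hv').le
    have e3 := hc' x₂ hux₂ (hx₂s.trans hsv).le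
    rw [haff x₂ le_rfl hx₂c.le] at e1 e2
    rw [hAa]
    have hne : (1 : ℝ) - σ ≠ 0 := by linarith
    have e4 : (2 ^ i * s + β'' - q') * (1 - σ) = 0 := by
      rw [hσσ] at e3 ⊢
      linear_combination e1 + e2 - 2 ^ i * e3
    have e5 := (mul_eq_zero.1 e4).resolve_right hne
    linarith
  -- choice of the new bound
  obtain ⟨x', hx'D, hx'1, hx'2⟩ := Dy_dense (show s < min v (A⁻¹ v') from
    lt_min hsv (lt_inv_iff'.2 (by rw [hAs]; exact hv')))
  rw [lt_min_iff] at hx'2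
  have hAx' : A x' < v' := lt_inv_iff'.1 hx'2.2
  have hEB : EndBot h₃ k := by
    unfold EndBot
    filter_upwards [hk₂, eventually_le_atBot x₂] with t h3 h4
    rw [hh₃le t (h4.trans hx₂c.le), h3]
  obtain ⟨φ, hφ, hφ1, -⟩ := exists_ext_right hh₃H ⟨k, hEB⟩ hx'D 0
  refine ⟨x', hx'1, φ, hφ, ?_, ?_⟩
  · unfold EndBot
    filter_upwards [hEB, eventually_le_atBot x'] with t h3 h4
    rw [hφ1 t h4, h3]
  · intro t ht
    rcases le_total t x₂ with h1 | h1
    · have h2 : c t ≤ c x₂ := c.monotone h1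
      rw [hφ1 _ ((h2.trans hcx₂s.le).trans hx'1.le), hφ1 t ht, hh₃le _ h2,
        hh₃le t (h1.trans hx₂c.le), hp₂ t h1]
    · have h2 : c x₂ ≤ c t := c.monotone h1
      have h3 : c t ≤ x' := by
        rcases le_total t s with h4 | h4
        · have := c.monotone h4; rw [hs] at this; linarith
        · have h5 : c t ≤ c x' := c.monotone ht
          exact h5.trans (hright x' hx'1 hx'2.1.le).le
      have h4 : h₃ (c t) = A (c t) := by rw [hh₃, glue_ge (hx₂c.le.trans h2)]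
      have h5 : h₃ t = A t := by rw [hh₃, glue_ge h1]
      rw [hφ1 _ h3, hφ1 t ht, h4, h5]
      have h6 : u' ≤ A t := by
        refine hux₂'.le.trans ?_
        rw [hgl]; exact A.monotone h1
      have h7 : A t ≤ v' := (A.monotone ht).trans hAx'.le
      have e1 := hb' (A t) h6 h7
      have e2 := hc' t (hux₂.trans h1) (ht.trans hx'2.1.le)
      rw [hAa] at e1 hAs ⊢
      rw [hAa]
      rw [hσσ] at e2
      linear_combination 2 ^ i * e2 - e1 + (1 - σ') * hAs

end Pool.Agent.Lib_helper30
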