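import Pool.Agent.Lib_helper30.CC

set_option autoImplicit false

namespace Pool.Agent.Lib_helper30

open Filter Topology Set

/-- Beyond a positive point, a weakly positive element without dyadic fixed points is
strictly positive. -/
lemma strict_pos {b : ℝ ≃o ℝ} (hb : b ∈ HH) (hcb : Clu b) {p : ℝ} (hp : p < b p)
    (hcon : ∀ y, p < y → y ≤ b y) : ∀ y, p ≤ y → y < b y := by
  intro z hz
  rcases hz.lt_or_eq with h1 | h1
  · rcases (hcon z h1).lt_or_eq with h2 | h2
    · exact h2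
    · exfalso
      have hzD : z ∉ Dy := fun hD => hcb z hD h2.symm
      obtain ⟨i, β', _, haff⟩ := hb.both z hzD
      obtain ⟨ε, hε, hε'⟩ := Metric.eventually_nhds_iff.1 haff
      have e0 := hε' (y := z) (by rw [dist_self]; exact hε)
      have hne : (2 : ℝ) ^ i ≠ 1 := by
        intro h3
        obtain ⟨w, hw, hw1, hw2⟩ := Dy_dense (show z < z + ε by linarith)
        have e1 := hε' (y := w) (by rw [Real.dist_eq, abs_of_pos (by linarith)]; linarith)
        rw [h3] at e1 e0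
        apply hcb w hw
        rw [e1]; linarith
      set δ := min (ε / 2) ((z - p) / 2) with hδ
      have hδpos : 0 < δ := lt_min (by linarith) (by linarith)
      have hδ1 : δ ≤ ε / 2 := min_le_left _ _
      have hδ2 : δ ≤ (z - p) / 2 := min_le_right _ _
      have e1 := hε' (y := z - δ) (by
        rw [Real.dist_eq, show z - δ - z = -δ by ring, abs_neg, abs_of_pos hδpos]; linarith)
      have e2 := hε' (y := z + δ) (by rw [Real.dist_eq, add_sub_cancel_left, abs_of_pos hδpos]; linarith)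
      have k1 := hcon (z - δ) (by linarith)
      have k2 := hcon (z + δ) (by linarith)
      rw [e1] at k1
      rw [e2] at k2
      have k3 : z = 2 ^ i * z + β' := by rw [← e0]; exact h2
      have k4 : (2 : ℝ) ^ i * δ ≤ δ := by nlinarith
      have k5 : δ ≤ (2 : ℝ) ^ i * δ := by nlinarith
      exact hne (mul_right_cancel₀ hδpos.ne' (by rw [one_mul]; exact le_antisymm k4 k5))
  · rw [← h1]; exact hp

/-- Reaching the end. -/
lemma part_end {c b : ℝ ≃o ℝ} (hc : c ∈ GG) (hb : b ∈ GG) (hcc : Clu c) (hcb : Clu b) {k : ℤ}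
    {KC KB : ℝ → ℝ → Prop} {ZC ZB : ℝ → Prop} (hKC : Cells c KC ZC) (hKB : Cells b KB ZB)
    (hnf : ¬ FailP c b k KC KB ZC ZB) {a : ℤ} (ha : 0 < a) (hca : EndTop c a) (hba : EndTop b a)
    (hall : ∀ x, ∃ h ∈ GG, EndBot h k ∧ Part c b h x) : CCk c b k := by
  have haR : (0 : ℝ) < a := by exact_mod_cast ha
  obtain ⟨T, hT⟩ := eventually_atTop.1 hca
  obtain ⟨T', hT'⟩ := eventually_atTop.1 hba
  obtain ⟨TC, hTC⟩ := hKC.zex
  obtain ⟨TB, hTB⟩ := hKB.zex
  obtain ⟨n₀, hn₀, hn₀'⟩ := exists_nat_gt2 T TC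
  set x₀ : ℝ := (n₀ : ℝ) with hx₀
  have hx₀D : x₀ ∈ Dy := Dy_nat n₀
  have hcpos : ∀ y, x₀ ≤ y → y < c y := by
    intro y hy; rw [hT y (by linarith)]; linarith
  obtain ⟨h₀, hh₀, hk₀, hp₀⟩ := hall x₀
  have hb₀ : h₀ x₀ < b (h₀ x₀) := by
    rw [← hp₀ x₀ le_rfl]; exact h₀.strictMono (hcpos x₀ le_rfl)
  have hbpos : ∀ y, h₀ x₀ ≤ y → y < b y := by
    apply strict_pos hb.1 hcb hb₀
    intro y hy
    by_contra hcon
    push Not at hcon
    obtain ⟨z, hz, hz1, hz2⟩ := Dy_dense (max_lt hcon hy)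
    rw [max_lt_iff] at hz1
    apply hnf
    exact ⟨h₀, hh₀, hk₀, x₀, hx₀D, hp₀, hcpos x₀ le_rfl, Or.inr (Or.inl ⟨hcpos, z, hz, hz1.2,
      (b.strictMono hz2).trans hz1.1⟩)⟩
  obtain ⟨n, hn0⟩ := exists_pow_gt_of_ge hbpos (max T' TB)
  have hn : T' < (b ^ n) (h₀ x₀) := (le_max_left _ _).trans_lt hn0
  have hnB : TB < (b ^ n) (h₀ x₀) := (le_max_right _ _).trans_lt hn0
  have hcorb : ∀ m : ℕ, (c ^ m) x₀ = x₀ + m * a := by
    intro m
    induction m with
    | zero => simp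
    | succ m ih =>
      rw [pow_succ', mul_apply', ih, hT _ (by nlinarith [Nat.cast_nonneg (α := ℝ) m])]
      push_cast; ring
  set x₂ := (c ^ n) x₀ with hx₂
  have hx₂0 : x₀ ≤ x₂ := by rw [hx₂, hcorb]; nlinarith [Nat.cast_nonneg (α := ℝ) n]
  have hx₂D : x₂ ∈ Dy := (PL2.dy_iff (HH.pow_mem hc.1 n) x₀).2 hx₀D
  obtain ⟨h₂, hh₂, hk₂, hp₂⟩ := hall x₂
  have hag : h₂ x₀ = h₀ x₀ := part_unique hh₂.1 hh₀.1 hcc hk₂ hk₀ (hp₂.mono hx₂0) hp₀ x₀
    (le_max_left _ _)
  have hh₂x : h₂ x₂ = (b ^ n) (h₀ x₀) := by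
    rw [← hag]
    refine part_pow n (fun i hi => ?_) hp₂
    rw [hcorb, hcorb]
    have : (i : ℝ) ≤ n := by exact_mod_cast hi.le
    nlinarith
  have hcx₂ : c x₂ = x₂ + a := hT _ (by linarith)
  have hx₂c : x₂ < c x₂ := hcpos _ hx₂0
  have hh₂T : T' ≤ h₂ x₂ := by rw [hh₂x]; exact hn.le
  have hgood : ∀ t ∈ Dy, x₂ ≤ t → t ≤ c x₂ → ∀ s ∈ Dy, x₂ ≤ s → s ≤ c x₂ →
      h₂ t - t = h₂ s - s ∧ ∃ m : ℤ, h₂ t - t = m := by
    intro t ht t1 t2 s hs s1 s2
    by_contra hcon
    apply hnf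
    refine ⟨h₂, hh₂, hk₂, x₂, hx₂D, hp₂, hx₂c, Or.inr (Or.inr (Or.inl ⟨hTC _ (by linarith),
      hTB _ (by rw [hh₂x]; exact hnB.le), t, ht, t1, t2, s, hs, s1, s2, ?_⟩))⟩
    by_contra h2
    push Not at h2
    apply hcon
    refine ⟨h2.1, ?_⟩
    obtain ⟨m, hm⟩ := h2.2
    exact ⟨m, hm⟩
  obtain ⟨-, m, hm⟩ := hgood x₂ hx₂D le_rfl hx₂c.le x₂ hx₂D le_rfl hx₂c.le
  have hlin : ∀ t, x₂ ≤ t → t ≤ c x₂ → h₂ t = t + m := by
    apply eq_on_of_dy h₂.continuous (by fun_prop) hx₂c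
    intro t ht t1 t2
    have := (hgood t ht t1 t2 x₂ hx₂D le_rfl hx₂c.le).1
    rw [hm] at this
    linarith
  have hgl : h₂ x₂ = tr (m : ℝ) x₂ := by rw [hlin x₂ le_rfl hx₂c.le, tr_apply]
  set H := glue h₂ (tr (m : ℝ)) x₂ hgl with hH
  have hHk : EndBot H k := by
    unfold EndBot
    filter_upwards [hk₂, eventually_le_atBot x₂] with t h3 h4
    rw [hH, glue_le h4, h3]
  have hHle : ∀ t, t ≤ c x₂ → H t = h₂ t := by
    intro t ht
    rcases le_total t x₂ with h1 | h1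
    · rw [hH, glue_le h1]
    · rw [hH, glue_ge h1, tr_apply, hlin t h1 ht]
  refine ⟨H, ⟨glue_mem_HH hh₂.1 (tr_mem_HH (Dy_int m)) hx₂D, ⟨k, hHk⟩, ⟨m, ?_⟩⟩, hHk, ?_⟩
  · filter_upwards [eventually_ge_atTop x₂] with t ht
    rw [hH, glue_ge ht, tr_apply]
  · ext t
    rw [mul_apply', mul_apply']
    rcases le_total t x₂ with h1 | h1
    · rw [hHle _ (c.monotone h1), hHle t (h1.trans hx₂c.le), hp₂ t h1]
    · have h2 : c t = t + a := hT t (by linarith)
      have h3 : H t = t + m := by rw [hH, glue_ge h1, tr_apply]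
      have h4 : T' ≤ H t := by
        have h5 := H.monotone h1
        rw [hHle x₂ hx₂c.le] at h5
        linarith
      rw [hT' _ h4, h3, h2, hH, glue_ge (by linarith), tr_apply]; ring

lemma CCk.inv {c b : ℝ ≃o ℝ} {k : ℤ} (h : CCk c b k) : CCk c⁻¹ b⁻¹ k := by
  obtain ⟨g, hg, hk, h1⟩ := h
  refine ⟨g, hg, hk, ?_⟩
  calc g * c⁻¹ = b⁻¹ * (b * g) * c⁻¹ := by group
    _ = b⁻¹ * (g * c) * c⁻¹ := by rw [h1]
    _ = b⁻¹ * g := by group

lemma Part.of_inv {c b h : ℝ ≃o ℝ} {x : ℝ} (p : Part c b h (c⁻¹ x)) : Part c⁻¹ b⁻¹ h x := by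
  intro t ht
  have h1 := p (c⁻¹ t) ((c⁻¹).monotone ht)
  rw [apply_inv'] at h1
  rw [h1, inv_apply']

lemma Clu.inv {c : ℝ ≃o ℝ} (h : Clu c) : Clu c⁻¹ := by
  intro t ht h1
  apply h t ht
  have := congrArg c h1
  rw [apply_inv'] at this
  exact this.symm

lemma Clu.tp_ne {c : ℝ ≃o ℝ} (hc : c ∈ GG) (h : Clu c) : tp c ≠ 0 := by
  intro h0
  have h1 := tp_spec hc
  rw [h0] at h1
  obtain ⟨T, hT⟩ := eventually_atTop.1 h1
  obtain ⟨n, hn⟩ := exists_nat_gt T
  apply h n (Dy_nat n)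
  rw [hT n hn.le]; simp

lemma Clu.rf {c : ℝ ≃o ℝ} (h : Clu c) : Clu (rf c) := by
  intro t ht h1
  apply h (-t) (Dy.neg_mem ht)
  rw [rf_apply] at h1
  linarith

lemma Clu.bt_ne {c : ℝ ≃o ℝ} (hc : c ∈ GG) (h : Clu c) : bt c ≠ 0 := by
  have := (h.rf).tp_ne (rf_mem_GG hc)
  rw [rf_tp hc] at this
  omega

/-- Completeness of the obstruction. -/
theorem cc_complete {c b : ℝ ≃o ℝ} (hc : c ∈ GG) (hb : b ∈ GG) (hcc : Clu c) (hcb : Clu b)
    (hbt : bt c = bt b) (htp : tp c = tp b) {k : ℤ} {KC KB KC' KB' : ℝ → ℝ → Prop}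
    {ZC ZB ZC' ZB' : ℝ → Prop}
    (hKC : Cells c KC ZC) (hKB : Cells b KB ZB) (hKC' : Cells c⁻¹ KC' ZC') (hKB' : Cells b⁻¹ KB' ZB')
    (hf : ¬ FailP c b k KC KB ZC ZB) (hf' : ¬ FailP c⁻¹ b⁻¹ k KC' KB' ZC' ZB') : CCk c b k := by
  set X : Set ℝ := {x | ∃ h ∈ GG, EndBot h k ∧ Part c b h x} with hX
  have hne : X.Nonempty := by
    obtain ⟨T, hT⟩ := eventually_atBot.1 (bt_spec hc)
    obtain ⟨T', hT'⟩ := eventually_atBot.1 (bt_spec hb)
    refine ⟨min T (T' - k), tr k, tr_mem_GG k, tr_bot k, ?_⟩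
    intro t ht
    have h1 := ht.trans (min_le_left _ _)
    have h2 := ht.trans (min_le_right _ _)
    rw [tr_apply, tr_apply, hT t h1, hT' _ (by linarith), hbt]; ring
  by_cases hbd : BddAbove X
  · exfalso
    set s := sSup X with hs
    have hall : ∀ x, x < s → ∃ h ∈ GG, EndBot h k ∧ Part c b h x := by
      intro x hx
      obtain ⟨y, ⟨h, hh, hk, hp⟩, hxy⟩ := exists_lt_of_lt_csSup hne hx
      exact ⟨h, hh, hk, hp.mono hxy.le⟩
    have hcontr : ∀ x, s < x → (∃ h ∈ GG, EndBot h k ∧ Part c b h x) → False := by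
      intro x hx hex
      exact absurd (le_csSup hbd (show x ∈ X from hex)) (not_le.2 hx)
    by_cases hfix : c s = s
    · have hsD : s ∉ Dy := fun hD => hcc s hD hfix
      obtain ⟨j, β, _, haff⟩ := hc.1.both s hsD
      obtain ⟨ε, hε, hε'⟩ := Metric.eventually_nhds_iff.1 haff
      have e0 := hε' (y := s) (by rw [dist_self]; exact hε)
      rw [hfix] at e0
      have hloc : ∀ t, s - ε < t → t < s → c t - s = 2 ^ j * (t - s) := by
        intro t h1 h2
        have e1 := hε' (y := t) (by rw [Real.dist_eq, abs_sub_comm, abs_of_pos (by linarith)]; linarith)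
        linear_combination e1 - e0
      have hj : (2 : ℝ) ^ j ≠ 1 := by
        intro h3
        obtain ⟨w, hw, hw1, hw2⟩ := Dy_dense (show s - ε < s by linarith)
        have e1 := hloc w hw1 hw2
        rw [h3] at e1
        apply hcc w hw
        linarith
      rcases lt_or_gt_of_ne hj with h1 | h1
      · obtain ⟨x, hx, hex⟩ := part_cross hc hb hcc hcb hKC hKB hf hfix (x₀ := s - ε / 2) (by linarith)
          (by
            intro t h2 h3
            have := hloc t (by linarith) h3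
            nlinarith) hall
        exact hcontr x hx hex
      · have hfix' : c⁻¹ s = s := inv_eq_of_apply hfix
        obtain ⟨x, hx, h, hh, hk, hp⟩ := part_cross (GG.inv_mem hc) (GG.inv_mem hb) hcc.inv hcb.inv
          hKC' hKB' hf' hfix' (x₀ := s - ε / 2) (by linarith) (by
            intro t h2 h3
            rw [lt_inv_iff']
            have := hloc t (by linarith) h3
            nlinarith) (by
            intro x hx
            obtain ⟨h, hh, hk, hp⟩ := hall (c⁻¹ x) (by rw [← hfix']; exact (c⁻¹).strictMono hx)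
            exact ⟨h, hh, hk, hp.of_inv⟩)
        have hp' : Part c b h (c⁻¹ x) := by
          have h5 : Part c⁻¹⁻¹ b⁻¹⁻¹ h (c⁻¹ x) := by
            apply Part.of_inv
            rw [inv_inv, apply_inv']
            exact hp
          simpa using h5
        refine hcontr (c⁻¹ x) ?_ ⟨h, hh, hk, hp'⟩
        rw [lt_inv_iff', hfix]; exact hx
    · obtain ⟨x, hx, hex⟩ := part_extend hc hb hfix hall
      exact hcontr x hx hex
  · have hall : ∀ x, ∃ h ∈ GG, EndBot h k ∧ Part c b h x := by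
      intro x
      rw [not_bddAbove_iff] at hbd
      obtain ⟨y, ⟨h, hh, hk, hp⟩, hxy⟩ := hbd x
      exact ⟨h, hh, hk, hp.mono hxy.le⟩
    have htc := hcc.tp_ne hc
    rcases lt_or_gt_of_ne htc with h1 | h1
    · have h2 := part_end (GG.inv_mem hc) (GG.inv_mem hb) hcc.inv hcb.inv hKC' hKB' hf' (a := - tp c) (by omega)
        (tp_spec hc).inv (by rw [htp]; exact (tp_spec hb).inv) (by
          intro x
          obtain ⟨h, hh, hk, hp⟩ := hall (c⁻¹ x)
          exact ⟨h, hh, hk, hp.of_inv⟩)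
      have := h2.inv
      simpa using this
    · exact part_end hc hb hcc hcb hKC hKB hf h1 (tp_spec hc) (by rw [htp]; exact tp_spec hb) hall

lemma bt_pow {c : ℝ ≃o ℝ} (hc : c ∈ GG) (n : ℤ) : bt (c ^ n) = n * bt c := by
  apply bt_eq
  exact EndBot.zpow (bt_spec hc) n

/-- Conjugacy of clusters is detected by finitely many germs. -/
theorem clu_conj_iff {c b : ℝ ≃o ℝ} (hc : c ∈ GG) (hcc : Clu c) :
    GC c b ↔ ∃ k : ℕ, k < (bt c).natAbs ∧ CCk c b k := by
  constructor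
  · rintro ⟨g, hg, rfl⟩
    have hne := hcc.bt_ne hc
    set a := bt c with ha
    refine ⟨(bt g % a).toNat, ?_, g * c ^ (-(bt g / a)), GG.mul_mem hg (GG.zpow_mem hc _), ?_, ?_⟩
    · have h1 := Int.emod_nonneg (bt g) hne
      have h2 := Int.emod_lt_abs (bt g) hne
      rw [Int.abs_eq_natAbs] at h2
      omega
    · have h1 := Int.emod_nonneg (bt g) hne
      have h2 : bt (g * c ^ (-(bt g / a))) = bt g % a := by
        rw [bt_mul hg (GG.zpow_mem hc _), bt_pow hc, ← ha]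
        have := Int.emod_add_mul_ediv (bt g) a
        linarith
      have h3 := bt_spec (GG.mul_mem hg (GG.zpow_mem hc (-(bt g / a))))
      rw [h2] at h3
      rw [Int.toNat_of_nonneg h1]
      exact h3
    · have : c ^ (-(bt g / a)) * c = c * c ^ (-(bt g / a)) := (Commute.refl c).zpow_left _ |>.eq
      calc g * c ^ (-(bt g / a)) * c = g * (c ^ (-(bt g / a)) * c) := by group
        _ = g * (c * c ^ (-(bt g / a))) := by rw [this]
        _ = _ := by group
  · rintro ⟨k, -, h, hh, -, h1⟩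
    exact ⟨h, hh, by rw [h1]; group⟩

/-- Squares of clusters. -/
theorem clu_square_iff {c : ℝ ≃o ℝ} (hc : c ∈ GG) (hcc : Clu c) :
    (∃ x ∈ GG, c = x * x) ↔ ∃ k : ℤ, bt c = 2 * k ∧ CCk c c k := by
  constructor
  · rintro ⟨x, hx, rfl⟩
    refine ⟨bt x, by rw [bt_mul hx hx]; ring, x, hx, bt_spec hx, by group⟩
  · rintro ⟨k, hk, x, hx, hxk, h1⟩
    refine ⟨x, hx, ?_⟩
    -- `x * x` and `c` both commute with `c` and have the same germ
    have e1 : EndBot (x * x) (bt c) := by rw [hk, two_mul]; exact hxk.mul hxk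
    have hall : ∀ t, c t = (x * x) t := by
      intro t
      refine part_unique hc.1 (HH.mul_mem hx.1 hx.1) hcc (bt_spec hc) e1 (c := c) (b := c) (x := t)
        (fun _ _ => rfl) ?_ t (le_max_left _ _)
      intro s _
      have h2 : x * x * c = c * (x * x) := by
        calc x * x * c = x * (x * c) := by group
          _ = x * (c * x) := by rw [h1]
          _ = (x * c) * x := by group
          _ = _ := by rw [h1]; group
      rw [← mul_apply', h2, mul_apply']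
    ext t
    exact hall t

end Pool.Agent.Lib_helper30
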