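import Pool.Agent.Lib_helper30.FBList

set_option autoImplicit false

namespace Pool.Agent.Lib_helper30

open Filter Topology Set

/-- The piecewise linear exponential. -/
noncomputable def Ex (t : ℝ) : ℝ := (2 : ℝ) ^ ⌊t⌋ * (1 + Int.fract t)

lemma Ex_pos (t : ℝ) : 0 < Ex t := by
  unfold Ex
  have := Int.fract_nonneg t
  positivity

lemma Ex_add (t : ℝ) (p : ℤ) : Ex (t + p) = 2 ^ p * Ex t := by
  unfold Ex
  rw [Int.floor_add_intCast, Int.fract_add_intCast, zpow_add₀ (by norm_num : (2 : ℝ) ≠ 0)]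
  ring

lemma Ex_cell {n : ℤ} {t : ℝ} (h1 : n ≤ t) (h2 : t ≤ n + 1) : Ex t = 2 ^ n * (1 + (t - n)) := by
  rcases h2.lt_or_eq with h | h
  · have hf : ⌊t⌋ = n := Int.floor_eq_iff.2 ⟨h1, h⟩
    unfold Ex
    rw [Int.fract, hf]
  · have : t = ((n + 1 : ℤ) : ℝ) := by rw [h]; push_cast; ring
    unfold Ex
    rw [this, Int.floor_intCast, Int.fract_intCast, zpow_add₀ (by norm_num : (2 : ℝ) ≠ 0)]
    push_cast; ring

lemma Ex_zero : Ex 0 = 1 := by unfold Ex; simp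

/-- The embedding of the line onto the positive half line. -/
noncomputable def hf (t : ℝ) : ℝ := if 0 ≤ t then t + 1 else Ex t

lemma hf_nonneg {t : ℝ} (h : 0 ≤ t) : hf t = t + 1 := if_pos h

lemma hf_nonpos {t : ℝ} (h : t ≤ 0) : hf t = Ex t := by
  rcases h.lt_or_eq with h | h
  · exact if_neg (not_le.2 h)
  · rw [h, hf_nonneg le_rfl, Ex_zero]; norm_num

lemma hf_pos (t : ℝ) : 0 < hf t := by
  rcases le_total 0 t with h | h
  · rw [hf_nonneg h]; linarith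
  · rw [hf_nonpos h]; exact Ex_pos t

lemma exists_hK (K : ℕ) : ∃ g ∈ HH, ∀ t, -(K : ℝ) ≤ t → g t = hf t := by
  induction K with
  | zero =>
    refine ⟨tr 1, tr_mem_HH Dy.one_mem, ?_⟩
    intro t ht
    rw [tr_apply, hf_nonneg (by simpa using ht)]
  | succ K ih =>
    obtain ⟨g, hg, hg1⟩ := ih
    have hcell : ∀ t, -((K : ℝ) + 1) ≤ t → t ≤ -(K : ℝ) →
        hf t = 2 ^ (-((K : ℤ) + 1)) * t + 2 ^ (-((K : ℤ) + 1)) * (K + 2) := by
      intro t h1 h2
      have hK0 : (0 : ℝ) ≤ K := Nat.cast_nonneg _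
      rw [hf_nonpos (by linarith), Ex_cell (n := -((K : ℤ) + 1)) (by push_cast; linarith)
        (by push_cast; linarith)]
      push_cast; ring
    have hb : (2 : ℝ) ^ (-((K : ℤ) + 1)) * (K + 2) ∈ Dy :=
      Dy.mul_mem (Dy_zpow _) (by exact_mod_cast Dy_nat (K + 2))
    set a := tr ((2 : ℝ) ^ (-((K : ℤ) + 1)) * (K + 2)) * sc (-((K : ℤ) + 1)) with ha
    have haH : a ∈ HH := HH.mul_mem (tr_mem_HH hb) (sc_mem_HH _)
    have haa : ∀ t, a t = 2 ^ (-((K : ℤ) + 1)) * t + 2 ^ (-((K : ℤ) + 1)) * (K + 2) := by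
      intro t; rw [ha, mul_apply', tr_apply, sc_apply]
    have hgl : a (-(K : ℝ)) = g (-(K : ℝ)) := by
      rw [hg1 _ le_rfl, hcell _ (by linarith) le_rfl, haa]
    refine ⟨glue a g (-(K : ℝ)) hgl, glue_mem_HH haH hg (Dy.neg_mem (Dy_nat K)), ?_⟩
    intro t ht
    push_cast at ht
    rcases le_total t (-(K : ℝ)) with h | h
    · rw [glue_le h, haa, hcell t (by linarith) h]
    · rw [glue_ge h, hg1 t h]

lemma hf_strictMono : StrictMono hf := by
  intro s t hst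
  obtain ⟨K, hK⟩ := exists_nat_gt (-s)
  obtain ⟨g, _, hg⟩ := exists_hK K
  rw [← hg s (by linarith), ← hg t (by linarith)]
  exact g.strictMono hst

lemma hf_neg_nat (K : ℕ) : hf (-(K : ℝ)) = 2 ^ (-(K : ℤ)) := by
  have hK0 : (0 : ℝ) ≤ K := Nat.cast_nonneg _
  rw [hf_nonpos (by linarith)]
  have := Ex_add 0 (-(K : ℤ))
  rw [Ex_zero, zero_add, mul_one] at this
  rw [← this]; push_cast; rfl

lemma exists_zpow_lt_real {x : ℝ} (hx : 0 < x) : ∃ K : ℕ, (2 : ℝ) ^ (-(K : ℤ)) < x := by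
  obtain ⟨K, hK⟩ := exists_pow_lt_of_lt_one hx (by norm_num : (1 / 2 : ℝ) < 1)
  refine ⟨K, ?_⟩
  rw [zpow_neg, zpow_natCast, ← inv_pow, inv_eq_one_div]
  exact hK

lemma hf_surj {x : ℝ} (hx : 0 < x) : ∃ t, hf t = x := by
  obtain ⟨K, hK⟩ := exists_zpow_lt_real hx
  obtain ⟨g, _, hg⟩ := exists_hK K
  refine ⟨g⁻¹ x, ?_⟩
  have h1 : -(K : ℝ) ≤ g⁻¹ x := by
    rw [le_inv_iff', hg _ le_rfl, hf_neg_nat]; exact hK.le
  rw [← hg _ h1, apply_inv']

/-- The inverse of `hf`. -/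
noncomputable def hg (x : ℝ) : ℝ := by
  classical exact if h : 0 < x then (hf_surj h).choose else 0

lemma hf_hg {x : ℝ} (h : 0 < x) : hf (hg x) = x := by
  unfold hg; rw [dif_pos h]; exact (hf_surj h).choose_spec

lemma hg_hf (t : ℝ) : hg (hf t) = t := hf_strictMono.injective (hf_hg (hf_pos t))

lemma hg_lt {x y : ℝ} (hx : 0 < x) (hy : 0 < y) : hg x < hg y ↔ x < y := by
  rw [← hf_strictMono.lt_iff_lt, hf_hg hx, hf_hg hy]

/-- Transport to the positive half line. -/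
noncomputable def shR (c : ℝ ≃o ℝ) : ℝ ≃o ℝ where
  toFun x := if 0 < x then hf (c (hg x)) else x
  invFun x := if 0 < x then hf (c⁻¹ (hg x)) else x
  left_inv x := by
    by_cases h : 0 < x
    · simp only [h, if_true, hf_pos, hg_hf, inv_apply', hf_hg h]
    · simp only [h, if_false]
  right_inv x := by
    by_cases h : 0 < x
    · simp only [h, if_true, hf_pos, hg_hf, apply_inv', hf_hg h]
    · simp only [h, if_false]
  map_rel_iff' := by
    have hs : StrictMono (fun x : ℝ => if 0 < x then hf (c (hg x)) else x) := by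
      intro x y hxy
      by_cases hx : 0 < x
      · have hy : 0 < y := hx.trans hxy
        simp only [hx, hy, if_true]
        exact hf_strictMono (c.strictMono ((hg_lt hx hy).2 hxy))
      · by_cases hy : 0 < y
        · simp only [hx, hy, if_true, if_false]
          exact lt_of_le_of_lt (not_lt.1 hx) (hf_pos _)
        · simp only [hx, hy, if_false]
          exact hxy
    intro a b
    exact hs.le_iff_le

lemma shR_hf (c : ℝ ≃o ℝ) (t : ℝ) : shR c (hf t) = hf (c t) := by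
  show (if 0 < hf t then hf (c (hg (hf t))) else hf t) = _
  rw [if_pos (hf_pos t), hg_hf]

lemma shR_le (c : ℝ ≃o ℝ) {x : ℝ} (hx : x ≤ 0) : shR c x = x := by
  show (if 0 < x then hf (c (hg x)) else x) = _
  rw [if_neg (not_lt.2 hx)]

lemma eq_of_hf {u v : ℝ ≃o ℝ} (h1 : ∀ x, x ≤ 0 → u x = v x) (h2 : ∀ t, u (hf t) = v (hf t)) :
    u = v := by
  ext x
  rcases le_or_gt x 0 with h | h
  · exact h1 x h
  · rw [← hf_hg h]; exact h2 _

lemma shR_mul (c d : ℝ ≃o ℝ) : shR (c * d) = shR c * shR d := by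
  apply eq_of_hf
  · intro x hx
    rw [mul_apply', shR_le _ hx, shR_le _ hx, shR_le _ hx]
  · intro t
    rw [mul_apply', shR_hf, shR_hf, shR_hf, mul_apply']

lemma shR_one : shR 1 = 1 := by
  apply eq_of_hf
  · intro x hx; rw [shR_le _ hx]; rfl
  · intro t; rw [shR_hf]; rfl

lemma shR_inv (c : ℝ ≃o ℝ) : shR c⁻¹ = (shR c)⁻¹ := by
  rw [eq_inv_iff_mul_eq_one, ← shR_mul, inv_mul_cancel, shR_one]

lemma shR_injective {c d : ℝ ≃o ℝ} (h : ∀ x, 0 < x → shR c x = shR d x) : c = d := by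
  ext t
  have := h (hf t) (hf_pos t)
  rw [shR_hf, shR_hf] at this
  exact hf_strictMono.injective this

lemma hf_add_int {t : ℝ} {p : ℤ} (h1 : t ≤ 0) (h2 : t + p ≤ 0) : hf (t + p) = 2 ^ p * hf t := by
  rw [hf_nonpos h1, hf_nonpos h2, Ex_add]

lemma shR_mem_GG {c : ℝ ≃o ℝ} (hc : c ∈ GG) : shR c ∈ GG := by
  obtain ⟨hcH, ⟨p, hp⟩, ⟨q, hq⟩⟩ := hc
  -- local models at positive points
  have hpos : ∀ x, 0 < x → ∃ g ∈ HH, ∀ᶠ t in 𝓝 x, shR c t = g t := by
    intro x hx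
    have hy : 0 < shR c x := by
      have := (shR c).strictMono hx; rwa [shR_le c le_rfl] at this
    obtain ⟨K₁, hK₁⟩ := exists_zpow_lt_real hx
    obtain ⟨K₂, hK₂⟩ := exists_zpow_lt_real hy
    set K := max K₁ K₂ with hK
    have hmono : ∀ a b : ℕ, a ≤ b → (2 : ℝ) ^ (-(b : ℤ)) ≤ 2 ^ (-(a : ℤ)) := by
      intro a b hab
      exact zpow_le_zpow_right₀ (by norm_num) (by omega)
    have h1 : hf (-(K : ℝ)) < x := by
      rw [hf_neg_nat]; exact lt_of_le_of_lt (hmono _ _ (le_max_left _ _)) hK₁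
    have h2 : hf (-(K : ℝ)) < shR c x := by
      rw [hf_neg_nat]; exact lt_of_le_of_lt (hmono _ _ (le_max_right _ _)) hK₂
    obtain ⟨g, hgH, hgK⟩ := exists_hK K
    refine ⟨g * c * g⁻¹, HH.mul_mem (HH.mul_mem hgH hcH) (HH.inv_mem hgH), ?_⟩
    have hc2 : ∀ᶠ t in 𝓝 x, hf (-(K : ℝ)) < shR c t := by
      have := (shR c).continuous.continuousAt (x := x)
      exact this.eventually (lt_mem_nhds h2)
    filter_upwards [lt_mem_nhds h1, hc2] with y h3 h4
    have hy0 : 0 < y := (hf_pos _).trans h3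
    obtain ⟨t, rfl⟩ := hf_surj hy0
    rw [shR_hf] at h4 ⊢
    rw [hf_strictMono.lt_iff_lt] at h3 h4
    rw [mul_apply', mul_apply', inv_eq_of_apply (hgK t h3.le), hgK _ h4.le]
  refine ⟨mem_HH_of_local ?_ ?_ ?_, ⟨0, ?_⟩, ⟨q, ?_⟩⟩
  · intro x
    rcases le_or_gt x 0 with h | h
    · refine ⟨1, HH.one_mem, ?_⟩
      filter_upwards [self_mem_nhdsWithin] with t (ht : t ≤ x)
      rw [shR_le c (ht.trans h)]; rfl
    · obtain ⟨g, hg, h1⟩ := hpos x h
      exact ⟨g, hg, h1.filter_mono nhdsWithin_le_nhds⟩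
  · intro x
    rcases lt_trichotomy x 0 with h | h | h
    · refine ⟨1, HH.one_mem, ?_⟩
      filter_upwards [nhdsWithin_le_nhds (gt_mem_nhds h)] with t ht
      rw [shR_le c ht.le]; rfl
    · refine ⟨sc p, sc_mem_HH p, ?_⟩
      rw [h]
      obtain ⟨T, hT⟩ := eventually_atBot.1 hp
      set T₁ := min (min T 0) (-(p : ℝ)) with hT₁
      have h1 : T₁ ≤ T := (min_le_left _ _).trans (min_le_left _ _)
      have h2 : T₁ ≤ 0 := (min_le_left _ _).trans (min_le_right _ _)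
      have h3 : T₁ ≤ -(p : ℝ) := min_le_right _ _
      filter_upwards [nhdsWithin_le_nhds (gt_mem_nhds (hf_pos T₁)), self_mem_nhdsWithin] with y h4 h5
      have h5' : (0 : ℝ) ≤ y := h5
      rcases h5'.lt_or_eq with h6 | h6
      · obtain ⟨t, rfl⟩ := hf_surj h6
        rw [hf_strictMono.lt_iff_lt] at h4
        rw [shR_hf, hT t (by linarith), hf_add_int (by linarith) (by linarith), sc_apply]
      · rw [← h6, shR_le c le_rfl, sc_apply, mul_zero]
    · obtain ⟨g, hg, h1⟩ := hpos x h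
      exact ⟨g, hg, h1.filter_mono nhdsWithin_le_nhds⟩
  · intro x hx
    rcases lt_trichotomy x 0 with h | h | h
    · refine ⟨1, HH.one_mem, ?_⟩
      filter_upwards [gt_mem_nhds h] with t ht
      rw [shR_le c ht.le]; rfl
    · exact absurd Dy.zero_mem (h ▸ hx)
    · exact hpos x h
  · filter_upwards [eventually_le_atBot 0] with t ht
    rw [shR_le c ht]; simp
  · have h1 : ∀ᶠ x : ℝ in atTop, c (x - 1) = x - 1 + q := by
      have : Tendsto (fun x : ℝ => x - 1) atTop atTop := tendsto_atTop_add_const_right _ _ tendsto_id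
      exact this.eventually hq
    filter_upwards [h1, eventually_ge_atTop (1 : ℝ), eventually_ge_atTop (1 - (q : ℝ))] with x h2 h3 h4
    have e1 : hf (x - 1) = x := by rw [hf_nonneg (by linarith)]; ring
    have e2 : shR c x = shR c (hf (x - 1)) := by rw [e1]
    rw [e2, shR_hf, h2, hf_nonneg (by linarith)]; ring

lemma shR_tp {c : ℝ ≃o ℝ} (hc : c ∈ GG) : tp (shR c) = tp c := by
  apply tp_eq
  unfold EndTop
  have hq := tp_spec hc
  have h1 : ∀ᶠ x : ℝ in atTop, c (x - 1) = x - 1 + tp c := by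
    have : Tendsto (fun x : ℝ => x - 1) atTop atTop := tendsto_atTop_add_const_right _ _ tendsto_id
    exact this.eventually hq
  filter_upwards [h1, eventually_ge_atTop (1 : ℝ), eventually_ge_atTop (1 - (tp c : ℝ))] with x h2 h3 h4
  have e1 : hf (x - 1) = x := by rw [hf_nonneg (by linarith)]; ring
  have e2 : shR c x = shR c (hf (x - 1)) := by rw [e1]
  rw [e2, shR_hf, h2, hf_nonneg (by linarith)]; ring

lemma shR_bt (c : ℝ ≃o ℝ) : bt (shR c) = 0 := by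
  apply bt_eq
  unfold EndBot
  filter_upwards [eventually_le_atBot 0] with t ht
  rw [shR_le c ht]; simp

lemma fix_pos {u : ℝ ≃o ℝ} (h : u 0 = 0) (t : ℝ) : 0 < u (hf t) := by
  have := u.strictMono (hf_pos t); rwa [h] at this

lemma fix_inv {u : ℝ ≃o ℝ} (h : u 0 = 0) : u⁻¹ 0 = 0 := inv_eq_of_apply h

/-- The right part of an element fixing zero. -/
noncomputable def resR (u : ℝ ≃o ℝ) (h : u 0 = 0) : ℝ ≃o ℝ where
  toFun t := hg (u (hf t))
  invFun t := hg (u⁻¹ (hf t))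
  left_inv t := by
    show hg (u⁻¹ (hf (hg (u (hf t))))) = t
    rw [hf_hg (fix_pos h t), inv_apply', hg_hf]
  right_inv t := by
    show hg (u (hf (hg (u⁻¹ (hf t))))) = t
    rw [hf_hg (fix_pos (fix_inv h) t), apply_inv', hg_hf]
  map_rel_iff' := by
    have hs : StrictMono (fun t : ℝ => hg (u (hf t))) := by
      intro s t hst
      exact (hg_lt (fix_pos h s) (fix_pos h t)).2 (u.strictMono (hf_strictMono hst))
    intro a b
    exact hs.le_iff_le

lemma hf_resR {u : ℝ ≃o ℝ} (h : u 0 = 0) (t : ℝ) : hf (resR u h t) = u (hf t) :=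
  hf_hg (fix_pos h t)

lemma shR_resR {u : ℝ ≃o ℝ} (h : u 0 = 0) {x : ℝ} (hx : 0 ≤ x) : shR (resR u h) x = u x := by
  rcases hx.lt_or_eq with h1 | h1
  · obtain ⟨t, rfl⟩ := hf_surj h1
    rw [shR_hf, hf_resR]
  · rw [← h1, shR_le _ le_rfl, h]

lemma resR_mem_GG {u : ℝ ≃o ℝ} (h : u 0 = 0) (hu : u ∈ GG) : resR u h ∈ GG := by
  obtain ⟨huH, -, ⟨q, hq⟩⟩ := hu
  have hloc : ∀ t, ∃ g ∈ HH, ∀ᶠ s in 𝓝 t, resR u h s = g s := by
    intro t
    obtain ⟨K₁, hK₁⟩ := exists_nat_gt (max (-t) (-(resR u h t)))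
    have h1 : -(K₁ : ℝ) < t := by have := le_max_left (-t) (-(resR u h t)); linarith
    have h2 : -(K₁ : ℝ) < resR u h t := by have := le_max_right (-t) (-(resR u h t)); linarith
    obtain ⟨g, hgH, hgK⟩ := exists_hK K₁
    refine ⟨g⁻¹ * u * g, HH.mul_mem (HH.mul_mem (HH.inv_mem hgH) huH) hgH, ?_⟩
    have hc2 : ∀ᶠ s in 𝓝 t, -(K₁ : ℝ) < resR u h s :=
      ((resR u h).continuous.continuousAt (x := t)).eventually (lt_mem_nhds h2)
    filter_upwards [lt_mem_nhds h1, hc2] with s h3 h4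
    rw [mul_apply', mul_apply', hgK s h3.le]
    symm
    apply inv_eq_of_apply
    rw [hgK _ h4.le, hf_resR]
  refine ⟨mem_HH_of_local ?_ ?_ ?_, ?_, ⟨q, ?_⟩⟩
  · intro x
    obtain ⟨g, hg, h1⟩ := hloc x
    exact ⟨g, hg, h1.filter_mono nhdsWithin_le_nhds⟩
  · intro x
    obtain ⟨g, hg, h1⟩ := hloc x
    exact ⟨g, hg, h1.filter_mono nhdsWithin_le_nhds⟩
  · intro x _
    exact hloc x
  · obtain ⟨m, b, hb, hm⟩ := huH.right 0
    have hb0 : b = 0 := by
      have := hm.self_of_nhdsWithin (Set.mem_Ici.2 le_rfl)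
      rw [h, mul_zero, zero_add] at this
      exact this.symm
    rw [hb0] at hm
    rw [eventually_nhdsWithin_iff] at hm
    obtain ⟨ε, hε, hε'⟩ := Metric.eventually_nhds_iff.1 hm
    obtain ⟨K, hK⟩ := exists_zpow_lt_real hε
    refine ⟨m, ?_⟩
    filter_upwards [eventually_le_atBot (-(K : ℝ)), eventually_le_atBot (-(m : ℝ))] with t h1 h2
    have hK0 : (0 : ℝ) ≤ K := Nat.cast_nonneg _
    have h3 : hf t < ε := by
      refine lt_of_le_of_lt (hf_strictMono.monotone h1) ?_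
      rw [hf_neg_nat]; exact hK
    have h4 := hε' (y := hf t) (by rw [Real.dist_eq, sub_zero, abs_of_pos (hf_pos t)]; exact h3)
      (Set.mem_Ici.2 (hf_pos t).le)
    rw [add_zero, ← hf_add_int (by linarith) (by linarith), ← hf_resR h] at h4
    exact hf_strictMono.injective h4
  · have h1 : ∀ᶠ t : ℝ in atTop, u (t + 1) = t + 1 + q := by
      have : Tendsto (fun x : ℝ => x + 1) atTop atTop := tendsto_atTop_add_const_right _ _ tendsto_id
      exact this.eventually hq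
    filter_upwards [h1, eventually_ge_atTop (0 : ℝ), eventually_ge_atTop (-(q : ℝ))] with t h2 h3 h4
    apply hf_strictMono.injective
    rw [hf_resR, hf_nonneg h3, h2, hf_nonneg (by linarith)]; ring

/-- Transport to the negative half line. -/
noncomputable def shL (c : ℝ ≃o ℝ) : ℝ ≃o ℝ := rf (shR (rf c))

lemma shL_ge (c : ℝ ≃o ℝ) {x : ℝ} (hx : 0 ≤ x) : shL c x = x := by
  unfold shL
  rw [rf_apply, shR_le _ (by linarith)]; ring

lemma shL_mul (c d : ℝ ≃o ℝ) : shL (c * d) = shL c * shL d := by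
  unfold shL; rw [rf_mul, shR_mul, rf_mul]

lemma shL_one : shL 1 = 1 := by unfold shL; rw [rf_one, shR_one, rf_one]

lemma shL_inv (c : ℝ ≃o ℝ) : shL c⁻¹ = (shL c)⁻¹ := by
  unfold shL; rw [rf_inv, shR_inv, rf_inv]

lemma shL_mem_GG {c : ℝ ≃o ℝ} (hc : c ∈ GG) : shL c ∈ GG := rf_mem_GG (shR_mem_GG (rf_mem_GG hc))

lemma rf_shR (c : ℝ ≃o ℝ) : rf (shR c) = shL (rf c) := by unfold shL; rw [rf_rf]
lemma rf_shL (c : ℝ ≃o ℝ) : rf (shL c) = shR (rf c) := by unfold shL; rw [rf_rf]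

lemma rf_bt {c : ℝ ≃o ℝ} (hc : c ∈ GG) : bt (rf c) = - tp c := bt_eq (tp_spec hc).rf
lemma rf_tp {c : ℝ ≃o ℝ} (hc : c ∈ GG) : tp (rf c) = - bt c := tp_eq (bt_spec hc).rf

lemma shL_bt {c : ℝ ≃o ℝ} (hc : c ∈ GG) : bt (shL c) = bt c := by
  unfold shL
  rw [rf_bt (shR_mem_GG (rf_mem_GG hc)), shR_tp (rf_mem_GG hc), rf_tp hc, neg_neg]

lemma shL_tp {c : ℝ ≃o ℝ} (hc : c ∈ GG) : tp (shL c) = 0 := by
  unfold shL
  rw [rf_tp (shR_mem_GG (rf_mem_GG hc)), shR_bt]; rfl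

/-- Concatenation. -/
noncomputable def cat (f g : ℝ ≃o ℝ) : ℝ ≃o ℝ := shL f * shR g

lemma shLR_comm (f g : ℝ ≃o ℝ) : shL f * shR g = shR g * shL f := by
  have := comm_of_sep (f := shL f) (g := shR g) (p := 0) (fun t ht => shL_ge f ht)
    (fun t ht => shR_le g ht)
  exact this

lemma cat_mem_GG {f g : ℝ ≃o ℝ} (hf : f ∈ GG) (hg : g ∈ GG) : cat f g ∈ GG :=
  GG.mul_mem (shL_mem_GG hf) (shR_mem_GG hg)

lemma cat_mul (f g f' g' : ℝ ≃o ℝ) : cat f g * cat f' g' = cat (f * f') (g * g') := by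
  unfold cat
  rw [shL_mul, shR_mul]
  calc shL f * shR g * (shL f' * shR g') = shL f * (shR g * shL f') * shR g' := by group
    _ = shL f * (shL f' * shR g) * shR g' := by rw [← shLR_comm]
    _ = _ := by group

lemma cat_one : cat 1 1 = 1 := by unfold cat; rw [shL_one, shR_one, mul_one]

lemma cat_inv (f g : ℝ ≃o ℝ) : (cat f g)⁻¹ = cat f⁻¹ g⁻¹ := by
  symm; rw [eq_inv_iff_mul_eq_one, cat_mul, inv_mul_cancel, inv_mul_cancel, cat_one]

lemma rf_cat (f g : ℝ ≃o ℝ) : rf (cat f g) = cat (rf g) (rf f) := by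
  unfold cat
  rw [rf_mul, rf_shL, rf_shR, shLR_comm]

lemma cat_ge (f g : ℝ ≃o ℝ) {x : ℝ} (hx : 0 ≤ x) : cat f g x = shR g x := by
  unfold cat
  rw [mul_apply', shL_ge]
  have := (shR g).monotone hx
  rwa [shR_le g le_rfl] at this

lemma cat_le (f g : ℝ ≃o ℝ) {x : ℝ} (hx : x ≤ 0) : cat f g x = shL f x := by
  unfold cat
  rw [mul_apply', shR_le g hx]

lemma cat_zero (f g : ℝ ≃o ℝ) : cat f g 0 = 0 := by
  rw [cat_ge f g le_rfl, shR_le g le_rfl]

lemma cat_bt {f g : ℝ ≃o ℝ} (hf : f ∈ GG) (hg : g ∈ GG) : bt (cat f g) = bt f := by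
  unfold cat; rw [bt_mul (shL_mem_GG hf) (shR_mem_GG hg), shL_bt hf, shR_bt, add_zero]

lemma cat_tp {f g : ℝ ≃o ℝ} (hf : f ∈ GG) (hg : g ∈ GG) : tp (cat f g) = tp g := by
  unfold cat; rw [tp_mul (shL_mem_GG hf) (shR_mem_GG hg), shL_tp hf, shR_tp hg, zero_add]

lemma cat_right_inj {f g f' g' : ℝ ≃o ℝ} (h : cat f g = cat f' g') : g = g' := by
  apply shR_injective
  intro x hx
  rw [← cat_ge f g hx.le, ← cat_ge f' g' hx.le, h]

lemma cat_inj {f g f' g' : ℝ ≃o ℝ} (h : cat f g = cat f' g') : f = f' ∧ g = g' := by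
  refine ⟨?_, cat_right_inj h⟩
  have h2 : cat (rf g) (rf f) = cat (rf g') (rf f') := by rw [← rf_cat, ← rf_cat, h]
  have h3 := cat_right_inj h2
  rw [← rf_rf f, h3, rf_rf]

lemma exists_cat {u : ℝ ≃o ℝ} (hu : u ∈ GG) (h : u 0 = 0) : ∃ f ∈ GG, ∃ g ∈ GG, u = cat f g := by
  have hr : rf u 0 = 0 := by rw [rf_apply, neg_zero, h, neg_zero]
  refine ⟨rf (resR (rf u) hr), rf_mem_GG (resR_mem_GG hr (rf_mem_GG hu)), resR u h,
    resR_mem_GG h hu, ?_⟩
  ext x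
  rcases le_total 0 x with h1 | h1
  · rw [cat_ge _ _ h1, shR_resR h h1]
  · rw [cat_le _ _ h1]
    unfold shL
    rw [rf_rf, rf_apply, shR_resR hr (by linarith), rf_apply, neg_neg, neg_neg]

lemma exists_cat_of_fix {u : ℝ ≃o ℝ} (hu : u ∈ GG) {q : ℝ} (hq : q ∈ Dy) (h : u q = q) :
    ∃ f ∈ GG, ∃ g ∈ GG, ∃ γ ∈ GG, γ q = 0 ∧ γ * u * γ⁻¹ = cat f g := by
  obtain ⟨γ, hγ, hγq⟩ := exists_GG_pt hq Dy.zero_mem
  obtain ⟨f, hf, g, hg, h1⟩ := exists_cat (u := γ * u * γ⁻¹)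
    (GG.mul_mem (GG.mul_mem hγ hu) (GG.inv_mem hγ)) (by
      rw [mul_apply', mul_apply', inv_eq_of_apply hγq, h, hγq])
  exact ⟨f, hf, g, hg, γ, hγ, hγq, h1⟩

lemma GC.cat {f f' g g' : ℝ ≃o ℝ} (h1 : GC f f') (h2 : GC g g') : GC (cat f g) (cat f' g') := by
  obtain ⟨a, ha, rfl⟩ := h1
  obtain ⟨b, hb, rfl⟩ := h2
  refine ⟨Pool.Agent.Lib_helper30.cat a b, cat_mem_GG ha hb, ?_⟩
  rw [cat_inv, cat_mul, cat_mul]

lemma GC.rf {f g : ℝ ≃o ℝ} (h : GC f g) : GC (rf f) (rf g) := by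
  obtain ⟨a, ha, rfl⟩ := h
  exact ⟨Pool.Agent.Lib_helper30.rf a, rf_mem_GG ha, by rw [rf_conj]⟩

/-! ## Associativity -/

lemma hf_hf (t : ℝ) : hf (hf t) = hf t + 1 := hf_nonneg (hf_pos t).le

lemma tr_shR (c : ℝ ≃o ℝ) : tr 1 * shR c * (tr 1)⁻¹ = shR (shR c) := by
  have hti : ∀ x, (tr 1)⁻¹ x = x - 1 := by intro x; rw [tr_inv, tr_apply]; ring
  apply eq_of_hf
  · intro x hx
    rw [mul_apply', mul_apply', hti, shR_le _ hx, shR_le _ (by linarith), tr_apply]; ring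
  · intro t
    rw [mul_apply', mul_apply', hti, tr_apply, shR_hf]
    rcases le_or_gt t 0 with h | h
    · rw [shR_le c h, shR_le c, sub_add_cancel]
      have := hf_strictMono.monotone h
      rw [hf_nonneg le_rfl] at this; linarith
    · obtain ⟨s, rfl⟩ := hf_surj h
      rw [hf_hf, add_sub_cancel_right, shR_hf, hf_hf]

lemma tr_shL (c : ℝ ≃o ℝ) : tr 1 * shL (shL c) * (tr 1)⁻¹ = shL c := by
  have h := tr_shR (rf c)
  have h2 : rf (tr 1) = (tr 1)⁻¹ := by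
    ext x; rw [rf_apply, tr_inv, tr_apply, tr_apply]; ring
  have h3 : (tr 1)⁻¹ * shL c * (tr 1)⁻¹⁻¹ = shL (shL c) := by
    have := congrArg rf h
    rw [rf_mul, rf_mul, rf_inv, h2, rf_shR, rf_shR, rf_shR, rf_rf] at this
    exact this
  rw [← h3]; group

lemma hf_key {t : ℝ} (ht : 0 ≤ t) : hf (-(hf (-t))) = 1 - hf (-(hf t)) := by
  have h1 : 0 < hf (-t) := hf_pos _
  have h2 : hf (-t) ≤ 1 := by
    have := hf_strictMono.monotone (show -t ≤ 0 by linarith)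
    rw [hf_nonneg le_rfl] at this; linarith
  rw [hf_nonpos (show -(hf (-t)) ≤ 0 by linarith), Ex_cell (n := -1) (by push_cast; linarith)
    (by push_cast; linarith)]
  have h3 : -(hf t) = -t + ((-1 : ℤ) : ℝ) := by rw [hf_nonneg ht]; push_cast; ring
  rw [h3, hf_add_int (by linarith) (by push_cast; linarith)]
  push_cast
  rw [zpow_neg, zpow_one]
  ring

lemma hf_key' (t : ℝ) : hf (-(hf (-t))) = 1 - hf (-(hf t)) := by
  rcases le_total 0 t with h | h
  · exact hf_key h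
  · have := hf_key (show 0 ≤ -t by linarith)
    rw [neg_neg] at this
    linarith

lemma tr_shLR (c : ℝ ≃o ℝ) : tr 1 * shL (shR c) * (tr 1)⁻¹ = shR (shL c) := by
  have hti : ∀ x, (tr 1)⁻¹ x = x - 1 := by intro x; rw [tr_inv, tr_apply]; ring
  have hL : ∀ t, shL c (-(hf t)) = -(hf (-(c (-t)))) := by
    intro t
    unfold shL
    rw [rf_apply, neg_neg, shR_hf, rf_apply]
  have hL2 : ∀ t, shL (shR c) (-(hf t)) = -(hf (-(shR c (-t)))) := by
    intro t
    unfold shL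
    rw [rf_apply, neg_neg, shR_hf, rf_apply]
  apply eq_of_hf
  · intro x hx
    rw [mul_apply', mul_apply', hti, shR_le _ hx, tr_apply]
    have h1 : 0 < -(x - 1) := by linarith
    obtain ⟨t, ht⟩ := hf_surj h1
    have hx1 : x - 1 = -(hf t) := by linarith
    have ht0 : 0 ≤ t := by
      rw [← hf_strictMono.le_iff_le, hf_nonneg le_rfl]; linarith
    rw [hx1, hL2, shR_le _ (by linarith), neg_neg, ← hx1]; ring
  · intro t
    rw [mul_apply', mul_apply', hti, tr_apply, shR_hf]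
    rcases le_or_gt 0 t with h | h
    · rw [shL_ge c h, shL_ge _ , sub_add_cancel]
      rw [hf_nonneg h]; linarith
    · -- `t = -(hf (-s))`
      obtain ⟨s', hs'⟩ := hf_surj (show 0 < -t by linarith)
      obtain ⟨s, rfl⟩ : ∃ s, s' = -s := ⟨-s', by ring⟩
      have ht : t = -(hf (-s)) := by linarith
      have e1 : hf t - 1 = -(hf (-(hf s))) := by rw [ht, hf_key']; ring
      rw [e1, hL2, neg_neg, shR_hf, ht, hL, neg_neg, hf_key']; ring

/-- Associativity of concatenation up to conjugacy by a unit translation. -/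
lemma cat_assoc (f g h : ℝ ≃o ℝ) : tr 1 * cat (cat f g) h * (tr 1)⁻¹ = cat f (cat g h) := by
  unfold cat
  rw [shL_mul, shR_mul]
  calc tr 1 * (shL (shL f) * shL (shR g) * shR h) * (tr 1)⁻¹
      = (tr 1 * shL (shL f) * (tr 1)⁻¹) * (tr 1 * shL (shR g) * (tr 1)⁻¹) *
        (tr 1 * shR h * (tr 1)⁻¹) := by group
    _ = _ := by rw [tr_shL, tr_shLR, tr_shR]; group

lemma tr_one_mem_GG : tr 1 ∈ GG := by
  have := tr_mem_GG 1
  simpa using this

lemma GC_assoc (f g h : ℝ ≃o ℝ) : GC (cat (cat f g) h) (cat f (cat g h)) :=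
  ⟨tr 1, tr_one_mem_GG, (cat_assoc f g h).symm⟩

/-- Conjugators fixing zero split. -/
lemma GC_cat_split {f g f' g' γ : ℝ ≃o ℝ} (hγ : γ ∈ GG) (h0 : γ 0 = 0)
    (h : cat f' g' = γ * cat f g * γ⁻¹) : GC f f' ∧ GC g g' := by
  obtain ⟨a, ha, b, hb, rfl⟩ := exists_cat hγ h0
  rw [cat_inv, cat_mul, cat_mul] at h
  obtain ⟨h1, h2⟩ := cat_inj h
  exact ⟨⟨a, ha, h1⟩, ⟨b, hb, h2⟩⟩

/-- The possible splittings of a concatenation. -/
lemma split_cat {p r b₁ b₂ : ℝ ≃o ℝ} (hp : p ∈ GG) (hr : r ∈ GG) (h : GC (cat p r) (cat b₁ b₂)) :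
    (GC p b₁ ∧ GC r b₂) ∨
    (∃ s₁ ∈ GG, ∃ s₂ ∈ GG, GC p (cat s₁ s₂) ∧ GC s₁ b₁ ∧ GC (cat s₂ r) b₂) ∨
    (∃ s₁ ∈ GG, ∃ s₂ ∈ GG, GC r (cat s₁ s₂) ∧ GC (cat p s₁) b₁ ∧ GC s₂ b₂) := by
  -- the left case, for arbitrary data
  have left : ∀ {p r b₁ b₂ γ : ℝ ≃o ℝ}, p ∈ GG → r ∈ GG → γ ∈ GG →
      cat b₁ b₂ = γ * cat p r * γ⁻¹ → γ⁻¹ 0 < 0 →
      ∃ s₁ ∈ GG, ∃ s₂ ∈ GG, GC p (cat s₁ s₂) ∧ GC s₁ b₁ ∧ GC (cat s₂ r) b₂ := by
    intro p r b₁ b₂ γ hp hr hγ h hneg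
    set q := γ⁻¹ 0 with hq
    have hqfix : cat p r q = q := by
      have h1 : γ⁻¹ * cat b₁ b₂ * γ = cat p r := by rw [h]; group
      rw [← h1, mul_apply', mul_apply', hq, apply_inv', cat_zero]
    obtain ⟨t, ht⟩ := hf_surj (show 0 < -q by linarith)
    have hqt : q = -(hf t) := by linarith
    have hpt : p (-t) = -t := by
      rw [cat_le _ _ hneg.le, hqt] at hqfix
      unfold shL at hqfix
      rw [rf_apply, neg_neg, shR_hf, rf_apply] at hqfix
      have := hf_strictMono.injective (neg_injective hqfix)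
      linarith
    have hqD : q ∈ Dy := (PL2.dy_iff (HH.inv_mem hγ.1) 0).2 Dy.zero_mem
    have htD : -t ∈ Dy := by
      obtain ⟨K, hK⟩ := exists_nat_gt (-t)
      obtain ⟨g, hg, hgK⟩ := exists_hK K
      have h1 : g t = -q := by rw [hgK t (by linarith), ht]
      have h2 : t ∈ Dy := by
        rw [← PL2.dy_iff hg, h1]; exact Dy.neg_mem hqD
      exact Dy.neg_mem h2
    obtain ⟨s₁, hs₁, s₂, hs₂, δ, hδ, hδt, hδp⟩ := exists_cat_of_fix hp htD hpt
    refine ⟨s₁, hs₁, s₂, hs₂, ⟨δ, hδ, hδp.symm⟩, ?_⟩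
    -- the composed conjugator
    set η := tr 1 * cat δ 1 * γ⁻¹ with hη
    have hηG : η ∈ GG := GG.mul_mem (GG.mul_mem tr_one_mem_GG (cat_mem_GG hδ GG.one_mem)) (GG.inv_mem hγ)
    have hη0 : η 0 = 0 := by
      rw [hη, mul_apply', mul_apply', ← hq, cat_le _ _ hneg.le, hqt]
      unfold shL
      rw [rf_apply, neg_neg, shR_hf, rf_apply, hδt, neg_zero, hf_nonneg le_rfl, tr_apply]; ring
    have hconj : cat s₁ (cat s₂ r) = η * cat b₁ b₂ * η⁻¹ := by
      have e1 : cat δ 1 * cat p r * (cat δ 1)⁻¹ = cat (cat s₁ s₂) r := by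
        rw [cat_inv, cat_mul, cat_mul, hδp]; group
      rw [← cat_assoc, ← e1, h, hη]; group
    obtain ⟨h1, h2⟩ := GC_cat_split hηG hη0 hconj
    exact ⟨h1.symm, h2.symm⟩
  obtain ⟨γ, hγ, h⟩ := h
  rcases lt_trichotomy (γ⁻¹ 0) 0 with h0 | h0 | h0
  · right; left
    exact left hp hr hγ h h0
  · left
    have hγ0 : γ 0 = 0 := by
      have := congrArg γ h0; rw [apply_inv'] at this; exact this.symm
    exact GC_cat_split hγ hγ0 h
  · right; right
    have h' : cat (rf b₂) (rf b₁) = rf γ * cat (rf r) (rf p) * (rf γ)⁻¹ := by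
      rw [← rf_cat, ← rf_cat, h, rf_conj]
    obtain ⟨s₁, hs₁, s₂, hs₂, k1, k2, k3⟩ := left (rf_mem_GG hr) (rf_mem_GG hp) (rf_mem_GG hγ) h' (by
      rw [← rf_inv, rf_apply, neg_zero]; linarith)
    refine ⟨rf s₂, rf_mem_GG hs₂, rf s₁, rf_mem_GG hs₁, ?_, ?_, ?_⟩
    · have := k1.rf; rwa [rf_rf, rf_cat] at this
    · have := k3.rf; rwa [rf_rf, rf_cat, rf_rf] at this
    · have := k2.rf; rwa [rf_rf] at this

end Pool.Agent.Lib_helper30
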