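import Mathlib

set_option autoImplicit false

namespace Pool.Agent.Lib_helper30

open Encodable

variable {α β γ : Type*} [Primcodable α] [Primcodable β] [Primcodable γ]

/-- Semidecidable predicates, with a primitive recursive normal form. -/
def RE (p : α → Prop) : Prop := ∃ q : ℕ → α → Prop, PrimrecRel q ∧ ∀ a, p a ↔ ∃ n, q n a

lemma RE.congr {p q : α → Prop} (h : RE p) (H : ∀ a, q a ↔ p a) : RE q := by
  obtain ⟨r, hr, h1⟩ := h
  exact ⟨r, hr, fun a => (H a).trans (h1 a)⟩

lemma RE.of_prim {p : α → Prop} (h : PrimrecPred p) : RE p :=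
  ⟨fun _ a => p a, h.comp Primrec.snd, fun a => ⟨fun h => ⟨0, h⟩, fun ⟨_, h⟩ => h⟩⟩

lemma primrec_exists_lt {q : ℕ → α → Prop} (hq : PrimrecRel q) :
    PrimrecRel (fun (m : ℕ) (a : α) => ∃ n < m, q n a) := by
  have h := hq.exists_mem_list
  refine (h.comp (Primrec.list_range.comp Primrec.fst) Primrec.snd).of_eq ?_
  intro x
  simp

lemma RE.and {p q : α → Prop} (hp : RE p) (hq : RE q) : RE (fun a => p a ∧ q a) := by
  obtain ⟨r, hr, h1⟩ := hp
  obtain ⟨s, hs, h2⟩ := hq
  refine ⟨fun n a => r n.unpair.1 a ∧ s n.unpair.2 a, ?_, ?_⟩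
  · exact (hr.comp (Primrec.fst.comp (Primrec.unpair.comp Primrec.fst)) Primrec.snd).and
      (hs.comp (Primrec.snd.comp (Primrec.unpair.comp Primrec.fst)) Primrec.snd)
  · intro a
    show (p a ∧ q a) ↔ ∃ n : ℕ, r n.unpair.1 a ∧ s n.unpair.2 a
    rw [h1, h2]
    constructor
    · rintro ⟨⟨m, hm⟩, ⟨n, hn⟩⟩
      exact ⟨Nat.pair m n, by simpa using ⟨hm, hn⟩⟩
    · rintro ⟨n, h3, h4⟩
      exact ⟨⟨_, h3⟩, ⟨_, h4⟩⟩

lemma RE.or {p q : α → Prop} (hp : RE p) (hq : RE q) : RE (fun a => p a ∨ q a) := by
  obtain ⟨r, hr, h1⟩ := hp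
  obtain ⟨s, hs, h2⟩ := hq
  refine ⟨fun n a => r n a ∨ s n a, ?_, ?_⟩
  · exact PrimrecPred.or hr hs
  · intro a
    show (p a ∨ q a) ↔ ∃ n : ℕ, r n a ∨ s n a
    rw [h1, h2, exists_or]

lemma RE.comp {p : β → Prop} (hp : RE p) {f : α → β} (hf : Primrec f) : RE (fun a => p (f a)) := by
  obtain ⟨r, hr, h1⟩ := hp
  exact ⟨fun n a => r n (f a), hr.comp Primrec.fst (hf.comp Primrec.snd), fun a => h1 _⟩

lemma RE.ex {p : α × β → Prop} (hp : RE p) : RE (fun a => ∃ b, p (a, b)) := by
  classical
  obtain ⟨r, hr, h1⟩ := hp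
  refine ⟨fun n a => ((decode n.unpair.1 : Option β).casesOn false
    (fun b => decide (r n.unpair.2 (a, b)))) = true, ?_, ?_⟩
  · have h2 : Primrec (fun x : (ℕ × α) × β => decide (r x.1.1.unpair.2 (x.1.2, x.2))) :=
      (hr.decide).comp (Primrec.snd.comp (Primrec.unpair.comp (Primrec.fst.comp Primrec.fst)))
        (Primrec.pair (Primrec.snd.comp Primrec.fst) Primrec.snd)
    have h3 : Primrec (fun x : ℕ × α => ((decode x.1.unpair.1 : Option β).casesOn false
        (fun b => decide (r x.1.unpair.2 (x.2, b))) : Bool)) :=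
      Primrec.option_casesOn (Primrec.decode.comp (Primrec.fst.comp (Primrec.unpair.comp Primrec.fst)))
        (Primrec.const false) h2
    exact Primrec.eq.comp h3 (Primrec.const true)
  · intro a
    constructor
    · rintro ⟨b, hb⟩
      obtain ⟨n, hn⟩ := (h1 _).1 hb
      refine ⟨Nat.pair (encode b) n, ?_⟩
      simp only [Nat.unpair_pair, encodek]
      simpa using hn
    · rintro ⟨n, hn⟩
      rcases h : (decode n.unpair.1 : Option β) with _ | b
      · rw [h] at hn
        simp at hn
      · rw [h] at hn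
        simp only [decide_eq_true_eq] at hn
        exact ⟨b, (h1 _).2 ⟨_, hn⟩⟩

lemma RE.ex2 {p : α → β → Prop} (hp : RE (fun x : α × β => p x.1 x.2)) : RE (fun a => ∃ b, p a b) :=
  RE.ex hp

lemma RE.all_list {p : α × β → Prop} (hp : RE p) : RE (fun x : α × List β => ∀ b ∈ x.2, p (x.1, b)) := by
  obtain ⟨r, hr, h1⟩ := hp
  refine ⟨fun m x => ∀ b ∈ x.2, ∃ n < m, r n (x.1, b), ?_, ?_⟩
  · have h2 : PrimrecRel (fun (b : β) (y : ℕ × α) => ∃ n < y.1, r n (y.2, b)) := by
      have h3 := primrec_exists_lt hr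
      exact h3.comp (Primrec.fst.comp Primrec.snd)
        (Primrec.pair (Primrec.snd.comp Primrec.snd) Primrec.fst)
    have h4 := h2.forall_mem_list
    exact h4.comp (Primrec.snd.comp Primrec.snd)
      (Primrec.pair Primrec.fst (Primrec.fst.comp Primrec.snd))
  · rintro ⟨a, l⟩
    simp only
    induction l with
    | nil => simp
    | cons b l ih =>
      constructor
      · intro h
        obtain ⟨m, hm⟩ := ih.1 (fun b' hb' => h b' (List.mem_cons_of_mem _ hb'))
        obtain ⟨n, hn⟩ := (h1 _).1 (h b List.mem_cons_self)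
        refine ⟨max m (n + 1), ?_⟩
        intro b' hb'
        rcases List.mem_cons.1 hb' with rfl | hb'
        · exact ⟨n, by omega, hn⟩
        · obtain ⟨k, hk, hk'⟩ := hm b' hb'
          exact ⟨k, by omega, hk'⟩
      · rintro ⟨m, hm⟩ b' hb'
        obtain ⟨n, -, hn⟩ := hm b' hb'
        exact (h1 _).2 ⟨n, hn⟩

lemma RE.all_lt {p : α × ℕ → Prop} (hp : RE p) : RE (fun x : α × ℕ => ∀ n < x.2, p (x.1, n)) := by
  have h := (RE.all_list hp).comp (f := fun x : α × ℕ => (x.1, List.range x.2))
    (Primrec.pair Primrec.fst (Primrec.list_range.comp Primrec.snd))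
  refine h.congr ?_
  intro x
  simp

/-- The least set closed under a family of finitary rules. -/
inductive Der {α : Type*} (Step : α → List α → Prop) : α → Prop
  | mk (x : α) (ys : List α) (h : Step x ys) (h' : ∀ y ∈ ys, Der Step y) : Der Step x

/-- Verification of a derivation. -/
def chk {α : Type*} (R : α → List α → Prop) : List (α × List α) → Prop
  | [] => True
  | z :: T => R z.1 z.2 ∧ (∀ y ∈ z.2, y ∈ T.map Prod.fst) ∧ chk R T

lemma chk_append {α : Type*} {R : α → List α → Prop} (L₁ L₂ : List (α × List α)) (h1 : chk R L₁)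
    (h2 : chk R L₂) : chk R (L₁ ++ L₂) := by
  induction L₁ with
  | nil => exact h2
  | cons z T ih =>
    obtain ⟨a, b, c⟩ := h1
    refine ⟨a, ?_, ih c⟩
    intro y hy
    show y ∈ (T ++ L₂).map Prod.fst
    rw [List.map_append, List.mem_append]
    exact Or.inl (b y hy)

lemma chk_mono {α : Type*} {R R' : α → List α → Prop} (hR : ∀ a l, R a l → R' a l)
    (L : List (α × List α)) (h1 : chk R L) : chk R' L := by
  induction L with
  | nil => trivial
  | cons z T ih =>
    obtain ⟨a, b, c⟩ := h1
    exact ⟨hR _ _ a, b, ih c⟩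

lemma chk_sound {α : Type*} {R Step : α → List α → Prop} (hR : ∀ a l, R a l → Step a l)
    (L : List (α × List α)) (h1 : chk R L) : ∀ z ∈ L, Der Step z.1 := by
  induction L with
  | nil => simp
  | cons z T ih =>
    obtain ⟨a, b, c⟩ := h1
    have ih' := ih c
    intro w hw
    rcases List.mem_cons.1 hw with rfl | hw
    · refine Der.mk _ _ (hR _ _ a) ?_
      intro y hy
      obtain ⟨w', hw', rfl⟩ := List.mem_map.1 (b y hy)
      exact ih' w' hw'
    · exact ih' w hw

theorem RE.der {Step : α → List α → Prop} (hS : RE (fun x : α × List α => Step x.1 x.2)) :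
    RE (Der Step) := by
  classical
  obtain ⟨q, hq, h1⟩ := hS
  set R : ℕ → α → List α → Prop := fun m a l => ∃ n < m, q n (a, l) with hR
  -- the verification is primitive recursive
  have hprim : PrimrecPred (fun x : ℕ × List (α × List α) => chk (R x.1) x.2) := by
    have hRp : PrimrecPred (fun x : ℕ × (α × List α) => R x.1 x.2.1 x.2.2) := by
      have h3 := primrec_exists_lt hq
      exact h3.comp (Primrec.fst) (Primrec.snd)
    have hmem : PrimrecRel (fun (y : α) (F : List α) => y ∈ F) := by
      have h3 : PrimrecRel (fun (a : α) (y : α) => a = y) := Primrec.eq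
      have h4 := h3.exists_mem_list
      refine (h4.comp Primrec.snd Primrec.fst).of_eq ?_
      intro x
      simp
    have hall : PrimrecRel (fun (l : List α) (F : List α) => ∀ y ∈ l, y ∈ F) := hmem.forall_mem_list
    set stp : (ℕ × List (α × List α)) → ((α × List α) × (Bool × List α)) → Bool × List α :=
      fun x y => (decide (R x.1 y.1.1 y.1.2) && (decide (∀ z ∈ y.1.2, z ∈ y.2.2) && y.2.1),
        y.1.1 :: y.2.2) with hstp
    have hstpP : Primrec₂ stp := by
      refine Primrec.pair ?_ ?_
      · refine Primrec.and.comp ?_ (Primrec.and.comp ?_ ?_)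
        · exact hRp.decide.comp (Primrec.pair (Primrec.fst.comp Primrec.fst)
            (Primrec.fst.comp Primrec.snd))
        · exact hall.decide.comp (Primrec.snd.comp (Primrec.fst.comp Primrec.snd))
            (Primrec.snd.comp (Primrec.snd.comp Primrec.snd))
        · exact Primrec.fst.comp (Primrec.snd.comp Primrec.snd)
      · exact Primrec.list_cons.comp (Primrec.fst.comp (Primrec.fst.comp Primrec.snd))
          (Primrec.snd.comp (Primrec.snd.comp Primrec.snd))
    have hfold : Primrec (fun x : ℕ × List (α × List α) =>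
        x.2.foldr (fun z s => stp x (z, s)) (true, [])) :=
      Primrec.list_foldr Primrec.snd (Primrec.const _) hstpP
    have hspec : ∀ (x : ℕ × List (α × List α)) (L : List (α × List α)),
        (L.foldr (fun z s => stp x (z, s)) (true, [])).2 = L.map Prod.fst ∧
        ((L.foldr (fun z s => stp x (z, s)) (true, [])).1 = true ↔ chk (R x.1) L) := by
      intro x L
      induction L with
      | nil => simp [chk]
      | cons z T ih =>
        obtain ⟨ih1, ih2⟩ := ih
        rw [List.foldr_cons]
        refine ⟨?_, ?_⟩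
        · simp only [hstp] at ih1 ⊢
          rw [ih1, List.map_cons]
        · simp only [hstp] at ih1 ih2 ⊢
          rw [Bool.and_eq_true, Bool.and_eq_true, decide_eq_true_iff, decide_eq_true_iff, ih1, ih2]
          rfl
    have h5 : PrimrecPred (fun x : ℕ × List (α × List α) =>
        (x.2.foldr (fun z s => stp x (z, s)) (true, [])).1 = true) :=
      Primrec.eq.comp (Primrec.fst.comp hfold) (Primrec.const true)
    exact h5.of_eq (fun x => (hspec x x.2).2)
  have hcert : RE (fun x : α × (ℕ × List (α × List α) × List α) =>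
      chk (R x.2.1) ((x.1, x.2.2.2) :: x.2.2.1)) := by
    apply RE.of_prim
    exact hprim.comp (Primrec.pair (Primrec.fst.comp Primrec.snd)
      (Primrec.list_cons.comp (Primrec.pair Primrec.fst
        (Primrec.snd.comp (Primrec.snd.comp Primrec.snd)))
        (Primrec.fst.comp (Primrec.snd.comp Primrec.snd))))
  refine (RE.ex hcert).congr ?_
  intro a
  constructor
  · intro h
    -- every derivable element has a verified derivation
    have key : ∀ (x : α), Der Step x → ∃ m, ∃ L : List (α × List α), chk (R m) L ∧ x ∈ L.map Prod.fst := by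
      intro x hx
      induction hx with
      | mk x ys hs hys ih =>
        have hlist : ∀ zs : List α, (∀ z ∈ zs, z ∈ ys) → ∃ m, ∃ L : List (α × List α),
            chk (R m) L ∧ ∀ z ∈ zs, z ∈ L.map Prod.fst := by
          intro zs
          induction zs with
          | nil => intro _; exact ⟨0, [], trivial, by simp⟩
          | cons z zs ihz =>
            intro hz
            obtain ⟨m₁, L₁, a1, a2⟩ := ih z (hz z List.mem_cons_self)
            obtain ⟨m₂, L₂, b1, b2⟩ := ihz (fun w hw => hz w (List.mem_cons_of_mem _ hw))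
            refine ⟨max m₁ m₂, L₁ ++ L₂, chk_append _ _ (chk_mono ?_ _ a1) (chk_mono ?_ _ b1), ?_⟩
            · rintro a l ⟨n, hn, hn'⟩
              exact ⟨n, by omega, hn'⟩
            · rintro a l ⟨n, hn, hn'⟩
              exact ⟨n, by omega, hn'⟩
            · intro w hw
              rw [List.map_append, List.mem_append]
              rcases List.mem_cons.1 hw with rfl | hw
              · exact Or.inl a2
              · exact Or.inr (b2 w hw)
        obtain ⟨m, L, c1, c2⟩ := hlist ys (fun z hz => hz)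
        obtain ⟨n, hn⟩ := (h1 (x, ys)).1 hs
        refine ⟨max m (n + 1), (x, ys) :: L, ⟨⟨n, by omega, hn⟩, c2, chk_mono ?_ _ c1⟩, by simp⟩
        rintro a l ⟨k, hk, hk'⟩
        exact ⟨k, by omega, hk'⟩
    obtain ⟨x', ys, hs, hys⟩ := h
    have hlist : ∀ zs : List α, (∀ z ∈ zs, z ∈ ys) → ∃ m, ∃ L : List (α × List α),
        chk (R m) L ∧ ∀ z ∈ zs, z ∈ L.map Prod.fst := by
      intro zs
      induction zs with
      | nil => intro _; exact ⟨0, [], trivial, by simp⟩
      | cons z zs ihz =>
        intro hz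
        obtain ⟨m₁, L₁, a1, a2⟩ := key z (hys z (hz z List.mem_cons_self))
        obtain ⟨m₂, L₂, b1, b2⟩ := ihz (fun w hw => hz w (List.mem_cons_of_mem _ hw))
        refine ⟨max m₁ m₂, L₁ ++ L₂, chk_append _ _ (chk_mono ?_ _ a1) (chk_mono ?_ _ b1), ?_⟩
        · rintro a l ⟨n, hn, hn'⟩
          exact ⟨n, by omega, hn'⟩
        · rintro a l ⟨n, hn, hn'⟩
          exact ⟨n, by omega, hn'⟩
        · intro w hw
          rw [List.map_append, List.mem_append]
          rcases List.mem_cons.1 hw with rfl | hw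
          · exact Or.inl a2
          · exact Or.inr (b2 w hw)
    obtain ⟨m, L, c1, c2⟩ := hlist ys (fun z hz => hz)
    obtain ⟨n, hn⟩ := (h1 (a, ys)).1 hs
    refine ⟨(max m (n + 1), L, ys), ⟨⟨n, by show n < max m (n + 1); omega, hn⟩, c2, chk_mono ?_ _ c1⟩⟩
    rintro a l ⟨k, hk, hk'⟩
    exact ⟨k, by show k < max m (n + 1); omega, hk'⟩
  · rintro ⟨⟨m, L, ys⟩, h⟩
    refine chk_sound (R := R m) ?_ _ h (a, ys) List.mem_cons_self
    rintro a l ⟨n, -, hn⟩
    exact (h1 (a, l)).2 ⟨n, hn⟩

theorem RE.rePred {p : α → Prop} (h : RE p) : REPred p := by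
  classical
  obtain ⟨q, hq, h1⟩ := h
  have h2 : Partrec (fun a => Nat.rfind fun n => Part.some (decide (q n a))) := by
    apply Partrec.rfind
    have h3 : Computable (fun x : α × ℕ => decide (q x.2 x.1)) :=
      (hq.decide.comp Primrec.snd Primrec.fst).to_comp
    exact h3.partrec
  refine h2.dom_re.of_eq ?_
  intro a
  refine (Nat.rfind_dom (p := fun n => Part.some (decide (q n a)))).trans ?_
  rw [h1]
  simp

end Pool.Agent.Lib_helper30
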