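import Pool.Agent.Lib_helper30.Lvl
import Pool.Agent.Lib_helper30.RE

set_option autoImplicit false

namespace Pool.Agent.Lib_helper30

open Filter Topology Set

/-- Codes of dyadic numbers. -/
abbrev DC : Type := ℕ × ℕ × ℕ

/-- Value of a code. -/
noncomputable def dval (d : DC) : ℝ := d.1 / 2 ^ d.2.2 - d.2.1

lemma dval_dy (d : DC) : dval d ∈ Dy := by
  unfold dval
  have h := Dy_div (d.1 : ℤ) d.2.2
  push_cast at h
  exact Dy.sub_mem h (Dy_nat _)

lemma exists_dval {x : ℝ} (hx : x ∈ Dy) : ∃ d : DC, dval d = x := by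
  obtain ⟨n, a, ha⟩ := hx
  obtain ⟨C, hC⟩ := exists_nat_gt (-x)
  have h2 : (0 : ℝ) < 2 ^ n := by positivity
  have h3 : (0 : ℝ) < (x + C) * 2 ^ n := mul_pos (by linarith) h2
  have h4 : (0 : ℤ) ≤ a + C * 2 ^ n := by
    have : (0 : ℝ) ≤ ((a + C * 2 ^ n : ℤ) : ℝ) := by
      push_cast; rw [← ha]; nlinarith
    exact_mod_cast this
  refine ⟨((a + C * 2 ^ n).toNat, C, n), ?_⟩
  unfold dval
  show (((a + C * 2 ^ n).toNat : ℕ) : ℝ) / 2 ^ n - C = x
  have e1 : (((a + C * 2 ^ n).toNat : ℕ) : ℝ) = a + C * 2 ^ n := by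
    have : (((a + C * 2 ^ n).toNat : ℕ) : ℤ) = a + C * 2 ^ n := Int.toNat_of_nonneg h4
    exact_mod_cast this
  rw [e1, ← ha]
  field_simp
  ring

/-- Action of a letter on codes. -/
def st (p : Bool × Bool) (d : DC) : DC :=
  if p.2 = false then
    if p.1 = true then (d.1, d.2.1 + 1, d.2.2) else (d.1 + 2 ^ d.2.2, d.2.1, d.2.2)
  else if p.1 = true then
    if d.1 ≤ d.2.1 * 2 ^ d.2.2 then d
    else if d.1 ≤ (d.2.1 + 2) * 2 ^ d.2.2 then (d.1 + d.2.1 * 2 ^ d.2.2, d.2.1, d.2.2 + 1)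
    else (d.1, d.2.1 + 1, d.2.2)
  else
    if d.1 ≤ d.2.1 * 2 ^ d.2.2 then d
    else if d.1 ≤ (d.2.1 + 1) * 2 ^ d.2.2 then (2 * d.1, 2 * d.2.1, d.2.2)
    else (d.1 + 2 ^ d.2.2, d.2.1, d.2.2)

lemma dval_st (p : Bool × Bool) (d : DC) : dval (st p d) = lt1 p (dval d) := by
  obtain ⟨s, c⟩ := p
  obtain ⟨a, C, N⟩ := d
  have h2 : (0 : ℝ) < 2 ^ N := by positivity
  have hle : ∀ j : ℕ, a ≤ (C + j) * 2 ^ N ↔ (a : ℝ) / 2 ^ N - C ≤ j := by
    intro j
    rw [sub_le_iff_le_add, div_le_iff₀ h2]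
    constructor
    · intro h
      have : (a : ℝ) ≤ (C + j) * 2 ^ N := by exact_mod_cast h
      linarith
    · intro h
      have : (a : ℝ) ≤ (C + j) * 2 ^ N := by linarith
      exact_mod_cast this
  unfold st dval
  cases c
  · cases s
    · rw [lt1_ff]
      simp only [if_true, Bool.false_eq_true, if_false]
      push_cast; field_simp; ring
    · rw [lt1_tf]
      simp only [if_true]
      push_cast; ring
  · cases s
    · rw [lt1_ft]
      simp only [Bool.true_eq_false, Bool.false_eq_true, if_false]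
      split_ifs with h0 h1
      · have := (hle 0).1 (by simpa using h0)
        rw [dbl_le (by simpa using this)]
      · have k0 : ¬ (a : ℝ) / 2 ^ N - C ≤ (0 : ℕ) := fun h => h0 (by simpa using (hle 0).2 h)
        have k1 := (hle 1).1 (by simpa using h1)
        push_cast at k0 k1
        rw [dbl_mid (by linarith) (by linarith)]
        push_cast; ring
      · have k1 : ¬ (a : ℝ) / 2 ^ N - C ≤ (1 : ℕ) := fun h => h1 (by simpa using (hle 1).2 h)
        push_cast at k1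
        rw [dbl_ge (by linarith)]
        push_cast; field_simp; ring
    · rw [lt1_tt]
      simp only [Bool.true_eq_false, if_true, if_false]
      split_ifs with h0 h1
      · have := (hle 0).1 (by simpa using h0)
        rw [X1_le (by simpa using this)]
      · have k0 : ¬ (a : ℝ) / 2 ^ N - C ≤ (0 : ℕ) := fun h => h0 (by simpa using (hle 0).2 h)
        have k1 := (hle 2).1 (by simpa using h1)
        push_cast at k0 k1
        rw [X1_mid (by linarith) (by linarith)]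
        push_cast
        rw [pow_succ]; field_simp; ring
      · have k1 : ¬ (a : ℝ) / 2 ^ N - C ≤ (2 : ℕ) := fun h => h1 (by simpa using (hle 2).2 h)
        push_cast at k1
        rw [X1_ge (by linarith)]
        push_cast; ring

/-- Evaluation of a word at a code. -/
def evD (w : W) (d : DC) : DC := w.foldr st d

lemma dval_evD (w : W) (d : DC) : dval (evD w d) = val w (dval d) := by
  induction w with
  | nil => rfl
  | cons p w ih =>
    rw [val_cons, mul_apply', ← ih, ← dval_st]; rfl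

/-! ## Primitive recursiveness of the evaluation -/

lemma primrec_pow2 : Primrec (fun n : ℕ => 2 ^ n) := by
  have h : Primrec₂ ((· ^ ·) : ℕ → ℕ → ℕ) := Primrec₂.unpaired'.1 Nat.Primrec.pow
  exact h.comp (Primrec.const 2) Primrec.id

section
variable {α : Type*} [Primcodable α]

lemma pr_pow2 {f : α → ℕ} (hf : Primrec f) : Primrec (fun a => 2 ^ f a) := primrec_pow2.comp hf

lemma pr_add {f g : α → ℕ} (hf : Primrec f) (hg : Primrec g) : Primrec (fun a => f a + g a) :=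
  Primrec.nat_add.comp hf hg

lemma pr_mul {f g : α → ℕ} (hf : Primrec f) (hg : Primrec g) : Primrec (fun a => f a * g a) :=
  Primrec.nat_mul.comp hf hg

lemma pr_sub {f g : α → ℕ} (hf : Primrec f) (hg : Primrec g) : Primrec (fun a => f a - g a) :=
  Primrec.nat_sub.comp hf hg

lemma pr_le {f g : α → ℕ} (hf : Primrec f) (hg : Primrec g) : PrimrecPred (fun a => f a ≤ g a) :=
  Primrec.nat_le.comp hf hg

lemma pr_lt {f g : α → ℕ} (hf : Primrec f) (hg : Primrec g) : PrimrecPred (fun a => f a < g a) :=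
  Primrec.nat_lt.comp hf hg

lemma pr_eqn {f g : α → ℕ} (hf : Primrec f) (hg : Primrec g) : PrimrecPred (fun a => f a = g a) :=
  Primrec.eq.comp hf hg

lemma pr_d1 {f : α → DC} (hf : Primrec f) : Primrec (fun a => (f a).1) := Primrec.fst.comp hf
lemma pr_d2 {f : α → DC} (hf : Primrec f) : Primrec (fun a => (f a).2.1) :=
  Primrec.fst.comp (Primrec.snd.comp hf)
lemma pr_d3 {f : α → DC} (hf : Primrec f) : Primrec (fun a => (f a).2.2) :=
  Primrec.snd.comp (Primrec.snd.comp hf)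

lemma pr_mk {f g h : α → ℕ} (hf : Primrec f) (hg : Primrec g) (hh : Primrec h) :
    Primrec (fun a => ((f a, g a, h a) : DC)) := Primrec.pair hf (Primrec.pair hg hh)

end

lemma primrec_st : Primrec₂ st := by
  have hp1 : Primrec (fun x : (Bool × Bool) × DC => x.1.1) := Primrec.fst.comp Primrec.fst
  have hp2 : Primrec (fun x : (Bool × Bool) × DC => x.1.2) := Primrec.snd.comp Primrec.fst
  have hd : Primrec (fun x : (Bool × Bool) × DC => x.2) := Primrec.snd
  have h1 := pr_d1 hd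
  have h2 := pr_d2 hd
  have h3 := pr_d3 hd
  have hP := pr_pow2 h3
  have c : ∀ n : ℕ, Primrec (fun _ : (Bool × Bool) × DC => n) := fun n => Primrec.const n
  unfold st
  refine Primrec.ite (Primrec.eq.comp hp2 (Primrec.const false)) ?_ ?_
  · refine Primrec.ite (Primrec.eq.comp hp1 (Primrec.const true)) ?_ ?_
    · exact pr_mk h1 (pr_add h2 (c 1)) h3
    · exact pr_mk (pr_add h1 hP) h2 h3
  · refine Primrec.ite (Primrec.eq.comp hp1 (Primrec.const true)) ?_ ?_
    · refine Primrec.ite (pr_le h1 (pr_mul h2 hP)) hd ?_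
      refine Primrec.ite (pr_le h1 (pr_mul (pr_add h2 (c 2)) hP)) ?_ ?_
      · exact pr_mk (pr_add h1 (pr_mul h2 hP)) h2 (pr_add h3 (c 1))
      · exact pr_mk h1 (pr_add h2 (c 1)) h3
    · refine Primrec.ite (pr_le h1 (pr_mul h2 hP)) hd ?_
      refine Primrec.ite (pr_le h1 (pr_mul (pr_add h2 (c 1)) hP)) ?_ ?_
      · exact pr_mk (pr_mul (c 2) h1) (pr_mul (c 2) h2) h3
      · exact pr_mk (pr_add h1 hP) h2 h3

lemma primrec_evD : Primrec₂ evD := by
  unfold evD
  exact Primrec.list_foldr (f := fun x : W × DC => x.1) (g := fun x : W × DC => x.2)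
    (h := fun _ (y : (Bool × Bool) × DC) => st y.1 y.2) Primrec.fst Primrec.snd
    ((primrec_st.comp (Primrec.fst.comp Primrec.snd) (Primrec.snd.comp Primrec.snd)).to₂)

/-! ## Comparison of codes -/

/-- Comparison of values. -/
def dle (d e : DC) : Prop :=
  d.1 * 2 ^ e.2.2 + e.2.1 * 2 ^ (d.2.2 + e.2.2) ≤ e.1 * 2 ^ d.2.2 + d.2.1 * 2 ^ (d.2.2 + e.2.2)

lemma dle_iff (d e : DC) : dle d e ↔ dval d ≤ dval e := by
  obtain ⟨a, C, N⟩ := d
  obtain ⟨a', C', N'⟩ := e
  unfold dle dval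
  have h2 : (0 : ℝ) < 2 ^ N := by positivity
  have h3 : (0 : ℝ) < 2 ^ N' := by positivity
  simp only
  have e1 : (a : ℝ) / 2 ^ N - C ≤ a' / 2 ^ N' - C' ↔
      (a : ℝ) * 2 ^ N' + C' * (2 ^ N * 2 ^ N') ≤ a' * 2 ^ N + C * (2 ^ N * 2 ^ N') := by
    rw [← mul_le_mul_iff_of_pos_right (mul_pos h2 h3)]
    have k1 : ((a : ℝ) / 2 ^ N - C) * (2 ^ N * 2 ^ N') = a * 2 ^ N' - C * (2 ^ N * 2 ^ N') := by
      field_simp
    have k2 : ((a' : ℝ) / 2 ^ N' - C') * (2 ^ N * 2 ^ N') = a' * 2 ^ N - C' * (2 ^ N * 2 ^ N') := by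
      field_simp
    rw [k1, k2]
    constructor <;> intro h <;> linarith
  rw [e1, ← pow_add]
  exact_mod_cast Iff.rfl

lemma primrec_dle : PrimrecRel dle := by
  have hd : Primrec (fun x : DC × DC => x.1) := Primrec.fst
  have he : Primrec (fun x : DC × DC => x.2) := Primrec.snd
  unfold dle
  exact pr_le
    (pr_add (pr_mul (pr_d1 hd) (pr_pow2 (pr_d3 he)))
      (pr_mul (pr_d2 he) (pr_pow2 (pr_add (pr_d3 hd) (pr_d3 he)))))
    (pr_add (pr_mul (pr_d1 he) (pr_pow2 (pr_d3 hd)))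
      (pr_mul (pr_d2 hd) (pr_pow2 (pr_add (pr_d3 hd) (pr_d3 he)))))

section
variable {α : Type*} [Primcodable α]

lemma pr_dle {f g : α → DC} (hf : Primrec f) (hg : Primrec g) :
    PrimrecPred (fun a => dval (f a) ≤ dval (g a)) :=
  (primrec_dle.comp hf hg).of_eq (fun _ => dle_iff _ _)

lemma pr_dlt {f g : α → DC} (hf : Primrec f) (hg : Primrec g) :
    PrimrecPred (fun a => dval (f a) < dval (g a)) :=
  ((primrec_dle.comp hg hf).not).of_eq (fun _ => by rw [dle_iff, not_le])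

lemma pr_deq {f g : α → DC} (hf : Primrec f) (hg : Primrec g) :
    PrimrecPred (fun a => dval (f a) = dval (g a)) :=
  ((pr_dle hf hg).and (pr_dle hg hf)).of_eq (fun _ => (le_antisymm_iff).symm)

lemma pr_ev {f : α → W} {g : α → DC} (hf : Primrec f) (hg : Primrec g) :
    Primrec (fun a => evD (f a) (g a)) := primrec_evD.comp hf hg

end

/-! ## Arithmetic on codes -/

/-- Sum of codes. -/
def dadd (d e : DC) : DC := (d.1 * 2 ^ e.2.2 + e.1 * 2 ^ d.2.2, d.2.1 + e.2.1, d.2.2 + e.2.2)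

lemma dval_dadd (d e : DC) : dval (dadd d e) = dval d + dval e := by
  obtain ⟨a, C, N⟩ := d
  obtain ⟨a', C', N'⟩ := e
  unfold dadd dval
  simp only
  push_cast
  rw [pow_add]; field_simp; ring

/-- Difference of codes, for `d ≥ e`. -/
def dsb (d e : DC) : DC :=
  ((d.1 * 2 ^ e.2.2 + e.2.1 * 2 ^ (d.2.2 + e.2.2)) - (e.1 * 2 ^ d.2.2 + d.2.1 * 2 ^ (d.2.2 + e.2.2)),
    0, d.2.2 + e.2.2)

lemma dval_dsb {d e : DC} (h : dval e ≤ dval d) : dval (dsb d e) = dval d - dval e := by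
  rw [← dle_iff] at h
  obtain ⟨a, C, N⟩ := d
  obtain ⟨a', C', N'⟩ := e
  unfold dle at h
  simp only at h
  have h' : a' * 2 ^ N + C * 2 ^ (N + N') ≤ a * 2 ^ N' + C' * 2 ^ (N + N') := by
    rw [add_comm N N']; exact h
  unfold dsb dval
  simp only
  rw [Nat.cast_sub h']
  push_cast
  rw [pow_add]; field_simp; ring

/-- Product of codes of differences. -/
def dmu (d e : DC) : DC := (d.1 * e.1, 0, d.2.2 + e.2.2)

lemma dval_dmu {d e : DC} (hd : d.2.1 = 0) (he : e.2.1 = 0) :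
    dval (dmu d e) = dval d * dval e := by
  obtain ⟨a, C, N⟩ := d
  obtain ⟨a', C', N'⟩ := e
  simp only at hd he
  subst hd he
  unfold dmu dval
  simp only
  push_cast
  rw [pow_add]; field_simp; ring

section
variable {α : Type*} [Primcodable α]

lemma pr_dadd {f g : α → DC} (hf : Primrec f) (hg : Primrec g) :
    Primrec (fun a => dadd (f a) (g a)) := by
  unfold dadd
  exact pr_mk (pr_add (pr_mul (pr_d1 hf) (pr_pow2 (pr_d3 hg))) (pr_mul (pr_d1 hg) (pr_pow2 (pr_d3 hf))))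
    (pr_add (pr_d2 hf) (pr_d2 hg)) (pr_add (pr_d3 hf) (pr_d3 hg))

lemma pr_dsb {f g : α → DC} (hf : Primrec f) (hg : Primrec g) :
    Primrec (fun a => dsb (f a) (g a)) := by
  unfold dsb
  exact pr_mk (pr_sub
    (pr_add (pr_mul (pr_d1 hf) (pr_pow2 (pr_d3 hg)))
      (pr_mul (pr_d2 hg) (pr_pow2 (pr_add (pr_d3 hf) (pr_d3 hg)))))
    (pr_add (pr_mul (pr_d1 hg) (pr_pow2 (pr_d3 hf)))
      (pr_mul (pr_d2 hf) (pr_pow2 (pr_add (pr_d3 hf) (pr_d3 hg))))))
    (Primrec.const 0) (pr_add (pr_d3 hf) (pr_d3 hg))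

lemma pr_dmu {f g : α → DC} (hf : Primrec f) (hg : Primrec g) :
    Primrec (fun a => dmu (f a) (g a)) := by
  unfold dmu
  exact pr_mk (pr_mul (pr_d1 hf) (pr_d1 hg)) (Primrec.const 0) (pr_add (pr_d3 hf) (pr_d3 hg))

end

/-- Two codes differ by an integer. -/
def dint (d e : DC) : Prop :=
  (d.1 * 2 ^ e.2.2) % 2 ^ (d.2.2 + e.2.2) = (e.1 * 2 ^ d.2.2) % 2 ^ (d.2.2 + e.2.2)

lemma dint_iff (d e : DC) : dint d e ↔ ∃ n : ℤ, dval d - dval e = n := by
  obtain ⟨a, C, N⟩ := d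
  obtain ⟨a', C', N'⟩ := e
  unfold dint dval
  simp only
  have h2 : (0 : ℝ) < 2 ^ N := by positivity
  have h3 : (0 : ℝ) < 2 ^ N' := by positivity
  have h4 : (0 : ℝ) < 2 ^ (N + N') := by positivity
  have e1 : (a : ℝ) / 2 ^ N - C - (a' / 2 ^ N' - C') =
      (a * 2 ^ N' - a' * 2 ^ N) / 2 ^ (N + N') - (C - C') := by
    rw [pow_add]; field_simp; ring
  rw [e1, ← Nat.ModEq.eq_1, Nat.modEq_iff_dvd]
  constructor
  · rintro ⟨k, hk⟩
    refine ⟨-k - (C - C'), ?_⟩
    have hk' : ((a' : ℝ) * 2 ^ N - a * 2 ^ N') = 2 ^ (N + N') * k := by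
      have : (((a' * 2 ^ N : ℕ) : ℤ) : ℝ) - (((a * 2 ^ N' : ℕ) : ℤ) : ℝ) =
          (((2 ^ (N + N') : ℕ) : ℤ) : ℝ) * k := by exact_mod_cast hk
      push_cast at this
      exact this
    push_cast
    have : ((a : ℝ) * 2 ^ N' - a' * 2 ^ N) / 2 ^ (N + N') = -k := by
      rw [div_eq_iff h4.ne']; linarith
    rw [this]
  · rintro ⟨n, hn⟩
    refine ⟨-(n + (C - C')), ?_⟩
    have hk : ((a : ℝ) * 2 ^ N' - a' * 2 ^ N) = (n + (C - C')) * 2 ^ (N + N') := by
      rw [← div_eq_iff h4.ne']; linarith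
    have : (a' : ℝ) * 2 ^ N - a * 2 ^ N' = 2 ^ (N + N') * -(n + (C - C')) := by linarith
    exact_mod_cast this

lemma pr_dint {α : Type*} [Primcodable α] {f g : α → DC} (hf : Primrec f) (hg : Primrec g) :
    PrimrecPred (fun a => dint (f a) (g a)) := by
  unfold dint
  exact pr_eqn
    (Primrec.nat_mod.comp (pr_mul (pr_d1 hf) (pr_pow2 (pr_d3 hg)))
      (pr_pow2 (pr_add (pr_d3 hf) (pr_d3 hg))))
    (Primrec.nat_mod.comp (pr_mul (pr_d1 hg) (pr_pow2 (pr_d3 hf)))
      (pr_pow2 (pr_add (pr_d3 hf) (pr_d3 hg))))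

end Pool.Agent.Lib_helper30
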