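import Pool.Agent.Lib_helper30.Lin

set_option autoImplicit false

namespace Pool.Agent.Lib_helper30

open Filter Topology Set
open scoped commutatorElement

lemma EndBot.conj {f h : ℝ ≃o ℝ} {p : ℤ} (hf : EndBot f p) (hh : h ∈ GG) :
    EndBot (h⁻¹ * f * h) p := by
  obtain ⟨_, ⟨a, ha⟩, _⟩ := hh
  have ha' : EndBot h a := ha
  have := (ha'.inv.mul hf).mul ha'
  convert this using 1; ring

lemma EndTop.conj {f h : ℝ ≃o ℝ} {p : ℤ} (hf : EndTop f p) (hh : h ∈ GG) :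
    EndTop (h⁻¹ * f * h) p := by
  obtain ⟨_, _, ⟨a, ha⟩⟩ := hh
  have ha' : EndTop h a := ha
  have := (ha'.inv.mul hf).mul ha'
  convert this using 1; ring

lemma tr_bot (k : ℤ) : EndBot (tr (k : ℝ)) k := by unfold EndBot; simp
lemma tr_top (k : ℤ) : EndTop (tr (k : ℝ)) k := by unfold EndTop; simp

lemma tr_int_GG (k : ℤ) : tr (k : ℝ) ∈ GG := ⟨tr_mem_HH (Dy_int k), ⟨k, tr_bot k⟩, ⟨k, tr_top k⟩⟩

/-- Elements trivial near both ends with a point moved to the right are commutators. -/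
lemma comm_of_pos {c : ℝ ≃o ℝ} (hc : c ∈ GG) (hb : EndBot c 0) (ht : EndTop c 0) {p : ℝ}
    (hp : p < c p) : ∃ a ∈ GG, ∃ b ∈ GG, c = ⁅a, b⁆ := by
  obtain ⟨M₀, hM₀, key⟩ := key_lemma
  obtain ⟨K, hlin⟩ := linearise hc hp
  obtain ⟨j, hj⟩ : ∃ j : ℕ, K < 2 ^ j := ⟨K, Nat.lt_two_pow_self⟩
  set K₂ : ℕ := 2 ^ j with hK₂
  have hKK : (K : ℝ) < K₂ := by exact_mod_cast hj
  have hK₂pos : (0 : ℝ) < K₂ := by
    have : 0 < K₂ := by positivity
    exact_mod_cast this
  have hK₂1 : (1 : ℝ) ≤ K₂ := by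
    have : 1 ≤ K₂ := Nat.one_le_two_pow
    exact_mod_cast this
  set M : ℕ := M₀ + 1 with hM
  have hMR : (M : ℝ) = M₀ + 1 := by rw [hM]; push_cast; ring
  have hM0 : (0 : ℝ) ≤ M₀ := Nat.cast_nonneg _
  obtain ⟨h, hhG, hT, hdisp⟩ := hlin (M + K₂)
  set c' := h⁻¹ * c * h with hc'
  have hc'G : c' ∈ GG := GG.mul_mem (GG.mul_mem (GG.inv_mem hhG) hc) hhG
  push_cast at hT
  -- the conjugator `g`
  have e1 : (1 : ℝ ≃o ℝ) 0 = sc (-(j : ℤ)) 0 := by rw [one_apply', sc_apply, mul_zero]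
  have hz : (2 : ℝ) ^ (-(j : ℤ)) = 1 / K₂ := by
    rw [zpow_neg, zpow_natCast, hK₂]; push_cast; rw [one_div]
  have e2 : (glue 1 (sc (-(j : ℤ))) 0 e1) ((K₂ : ℝ) * M) = tr (-(((K₂ : ℝ) - 1) * M)) ((K₂ : ℝ) * M) := by
    rw [glue_ge (by positivity), sc_apply, tr_apply, hz]
    field_simp
    ring
  set g := glue (glue 1 (sc (-(j : ℤ))) 0 e1) (tr (-(((K₂ : ℝ) - 1) * M))) ((K₂ : ℝ) * M) e2 with hg
  have hKM : (0 : ℝ) ≤ (K₂ : ℝ) * M := by positivity
  have g1 : ∀ t : ℝ, t ≤ 0 → g t = t := by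
    intro t ht
    rw [hg, glue_le (by linarith), glue_le ht]; rfl
  have g2 : ∀ t : ℝ, 0 ≤ t → t ≤ K₂ * M → g t = t / K₂ := by
    intro t ht1 ht2
    rw [hg, glue_le ht2, glue_ge ht1, sc_apply, hz]; ring
  have g3 : ∀ t : ℝ, K₂ * M ≤ t → g t = t - (K₂ - 1) * M := by
    intro t ht
    rw [hg, glue_ge ht, tr_apply]; ring
  have hKD : ((K₂ : ℝ) - 1) * M ∈ Dy := Dy.mul_mem (Dy.sub_mem (Dy_nat _) Dy.one_mem) (Dy_nat _)
  have hgH : g ∈ HH := glue_mem_HH (glue_mem_HH HH.one_mem (sc_mem_HH _) Dy.zero_mem)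
    (tr_mem_HH (Dy.neg_mem hKD)) (Dy.mul_mem (Dy_nat _) (Dy_nat _))
  have hgB : EndBot g 0 := by
    unfold EndBot
    filter_upwards [eventually_le_atBot 0] with t ht
    rw [g1 t ht]; simp
  have hgT : EndTop g (-(((K₂ : ℤ) - 1) * M)) := by
    unfold EndTop
    filter_upwards [eventually_ge_atTop ((K₂ : ℝ) * M)] with t ht
    rw [g3 t ht]; push_cast; ring
  have hgG : g ∈ GG := ⟨hgH, ⟨_, hgB⟩, ⟨_, hgT⟩⟩
  have hTKG : tr (K₂ : ℝ) ∈ GG := by
    have := tr_int_GG K₂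
    simpa using this
  set y := g * tr (K₂ : ℝ) * g⁻¹ with hy
  have hyG : y ∈ GG := GG.mul_mem (GG.mul_mem hgG hTKG) (GG.inv_mem hgG)
  have hyg : ∀ s, y (g s) = g (s + K₂) := by
    intro s
    rw [hy, mul_apply', mul_apply', inv_apply', tr_apply]
  have hpos : ∀ t, t < c' (y t) := by
    intro t
    obtain ⟨s, rfl⟩ := g.surjective t
    rw [hyg]
    rcases le_or_gt s (-K₂) with h1 | h1
    · rw [g1 _ (by linarith), g1 _ (by linarith)]
      have := hdisp (s + K₂)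
      rw [abs_le] at this
      linarith [this.1]
    · rcases le_or_gt s (K₂ * M) with h2 | h2
      · have h3 : 0 ≤ g (s + K₂) := by
          have h4 : g 0 ≤ g (s + K₂) := g.monotone (by linarith)
          rwa [g1 0 le_rfl] at h4
        have h5 : g (s + K₂) ≤ M + K₂ := by
          have h4 : g (s + K₂) ≤ g (K₂ * M + K₂) := g.monotone (by linarith)
          have h7 := g3 (K₂ * M + K₂) (by linarith)
          rw [h7] at h4
          linarith
        rw [hT _ h3 h5]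
        have h6 : g s < g (s + K₂) := g.strictMono (by linarith)
        linarith
      · rw [g3 (s + K₂) (by linarith), g3 s h2.le]
        have := hdisp (s + K₂ - (K₂ - 1) * M)
        rw [abs_le] at this
        linarith [this.1]
  have hyT : ∀ t : ℝ, 0 ≤ t → t ≤ M₀ → y t = t + 1 := by
    intro t ht1 ht2
    have h1 : g (K₂ * t) = t := by
      rw [g2 _ (by positivity) (by rw [hMR]; nlinarith)]
      field_simp
    conv_lhs => rw [← h1]
    rw [hyg, g2 _ (by positivity) (by rw [hMR]; nlinarith)]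
    field_simp
  have hyB : EndBot y K₂ := by
    have := (hgB.mul (tr_bot K₂)).mul hgB.inv
    simp only [Int.cast_natCast] at this
    convert this using 1; ring
  have hyTop : EndTop y K₂ := by
    have := (hgT.mul (tr_top K₂)).mul hgT.inv
    simp only [Int.cast_natCast] at this
    convert this using 1; ring
  have hcB := hb.conj hhG
  have hcTop := ht.conj hhG
  rw [← hc'] at hcB hcTop
  obtain ⟨g₁, hg₁, w, hw, he⟩ := key K₂ (by positivity) c' hc'G y hyG hpos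
    (fun t h1 h2 => hT t h1 (by rw [hMR]; linarith)) hyT (by simpa using hcB.mul hyB)
    (by simpa using hcTop.mul hyTop)
  have h1 : g₁ * c' * g₁⁻¹ = ⁅w * g⁻¹, y⁆ := by
    have h2 : g₁ * c' * g₁⁻¹ = w * tr (K₂ : ℝ) * w⁻¹ * y⁻¹ := by rw [← he]; group
    rw [h2, commutatorElement_def, hy]; group
  refine ⟨h * g₁⁻¹ * (w * g⁻¹) * (h * g₁⁻¹)⁻¹, ?_, h * g₁⁻¹ * y * (h * g₁⁻¹)⁻¹, ?_, ?_⟩
  · have ha : h * g₁⁻¹ ∈ GG := GG.mul_mem hhG (GG.inv_mem hg₁)
    exact GG.mul_mem (GG.mul_mem ha (GG.mul_mem hw (GG.inv_mem hgG))) (GG.inv_mem ha)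
  · have ha : h * g₁⁻¹ ∈ GG := GG.mul_mem hhG (GG.inv_mem hg₁)
    exact GG.mul_mem (GG.mul_mem ha hyG) (GG.inv_mem ha)
  · have h3 : c = (h * g₁⁻¹) * (g₁ * c' * g₁⁻¹) * (h * g₁⁻¹)⁻¹ := by rw [hc']; group
    rw [h1] at h3
    conv_lhs => rw [h3]
    simp only [commutatorElement_def]
    group

/-- Every element of `GG` trivial near both ends is a commutator. -/
theorem comm_of_ends {c : ℝ ≃o ℝ} (hc : c ∈ GG) (hb : EndBot c 0) (ht : EndTop c 0) :
    ∃ a ∈ GG, ∃ b ∈ GG, c = ⁅a, b⁆ := by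
  by_cases h1 : ∃ p, p < c p
  · obtain ⟨p, hp⟩ := h1
    exact comm_of_pos hc hb ht hp
  · by_cases h2 : ∃ p, c p < p
    · obtain ⟨p, hp⟩ := h2
      have h3 : p < c⁻¹ p := by
        rw [← c.lt_iff_lt, apply_inv']; exact hp
      obtain ⟨a, ha, b, hb', he⟩ := comm_of_pos (GG.inv_mem hc) (by simpa using hb.inv)
        (by simpa using ht.inv) h3
      refine ⟨b, hb', a, ha, ?_⟩
      rw [← commutatorElement_inv, ← he, inv_inv]
    · push Not at h1 h2
      have : c = 1 := by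
        ext t
        exact le_antisymm (h1 t) (h2 t)
      exact ⟨1, GG.one_mem, 1, GG.one_mem, by rw [this]; simp⟩

/-- Elements with even translation numbers and a point moved to the right are products of two
squares. -/
lemma squares_of_pos {c : ℝ ≃o ℝ} (hc : c ∈ GG) {p q : ℤ} (hb : EndBot c (2 * p))
    (ht : EndTop c (2 * q)) {x : ℝ} (hx : x < c x) : ∃ a ∈ GG, ∃ b ∈ GG, c = a ^ 2 * b ^ 2 := by
  obtain ⟨M₀, hM₀, key⟩ := key_lemma
  obtain ⟨K, hlin⟩ := linearise hc hx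
  obtain ⟨n, hn1, hn2, hn3⟩ : ∃ n : ℕ, (0 : ℤ) < n ∧ (K : ℤ) + 1 ≤ n - p ∧ (K : ℤ) + 1 ≤ n - q := by
    refine ⟨(max 1 (max (K + 1 + p) (K + 1 + q))).toNat, ?_, ?_, ?_⟩
    all_goals
      rw [Int.toNat_of_nonneg (by omega)]
      omega
  obtain ⟨a, ha⟩ := Int.eq_ofNat_of_zero_le (show 0 ≤ (n : ℤ) - p by omega)
  obtain ⟨b, hb'⟩ := Int.eq_ofNat_of_zero_le (show 0 ≤ (n : ℤ) - q by omega)
  rw [ha] at hn2
  rw [hb'] at hn3
  have hKa : (K : ℝ) + 1 ≤ a := by exact_mod_cast hn2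
  have hKb : (K : ℝ) + 1 ≤ b := by exact_mod_cast hn3
  have hK0 : (0 : ℝ) ≤ K := Nat.cast_nonneg _
  set M : ℕ := M₀ + 1 with hM
  have hMR : (M : ℝ) = M₀ + 1 := by rw [hM]; push_cast; ring
  have hM0 : (0 : ℝ) ≤ M₀ := Nat.cast_nonneg _
  obtain ⟨h, hhG, hT, hdisp⟩ := hlin (M + 1 + 2 * b)
  set c' := h⁻¹ * c * h with hc'
  have hc'G : c' ∈ GG := GG.mul_mem (GG.mul_mem (GG.inv_mem hhG) hc) hhG
  push_cast at hT
  -- the element `Y`
  obtain ⟨Y₀, hY₀H, hY₀1, hY₀2⟩ := interp (f₁ := tr (a : ℝ)) (f₂ := tr (1 / 2)) (a := -(a : ℝ)) (b := 0)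
    (tr_mem_HH (Dy_nat a)) (tr_mem_HH Dy_half) (Dy.neg_mem (Dy_nat a)) Dy.zero_mem (by linarith)
    (by rw [tr_apply, tr_apply]; norm_num)
  obtain ⟨Y, hYH, hY1, hY2⟩ := interp (f₁ := Y₀) (f₂ := tr (b : ℝ)) (a := (M : ℝ)) (b := (M : ℝ) + 1 / 2)
    hY₀H (tr_mem_HH (Dy_nat b)) (Dy_nat M) (Dy.add_mem (Dy_nat M) Dy_half) (by linarith)
    (by rw [hY₀2 _ (by linarith), tr_apply, tr_apply]; linarith)
  have y1 : ∀ t : ℝ, t ≤ -a → Y t = t + a := by
    intro t ht
    rw [hY1 t (by linarith), hY₀1 t ht, tr_apply]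
  have y2 : ∀ t : ℝ, 0 ≤ t → t ≤ M → Y t = t + 1 / 2 := by
    intro t ht1 ht2
    rw [hY1 t ht2, hY₀2 t ht1, tr_apply]
  have y3 : ∀ t : ℝ, M + 1 / 2 ≤ t → Y t = t + b := by
    intro t ht
    rw [hY2 t ht, tr_apply]
  have hYB : EndBot Y a := by
    unfold EndBot
    filter_upwards [eventually_le_atBot (-(a : ℝ))] with t ht
    rw [y1 t ht]; simp
  have hYT : EndTop Y b := by
    unfold EndTop
    filter_upwards [eventually_ge_atTop ((M : ℝ) + 1 / 2)] with t ht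
    rw [y3 t ht]; simp
  have hYG : Y ∈ GG := ⟨hYH, ⟨_, hYB⟩, ⟨_, hYT⟩⟩
  have hYpos : ∀ t, t < Y t := by
    intro t
    rcases le_or_gt t (-a) with h1 | h1
    · rw [y1 t h1]; linarith
    · rcases lt_or_ge t 0 with h2 | h2
      · have h3 := Y.monotone h1.le
        rw [y1 _ le_rfl] at h3; linarith
      · rcases le_or_gt t M with h3 | h3
        · rw [y2 t h2 h3]; linarith
        · rcases lt_or_ge t ((M : ℝ) + 1 / 2) with h4 | h4
          · have h5 := Y.monotone h3.le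
            rw [y2 _ (by linarith) le_rfl] at h5; linarith
          · rw [y3 t h4]; linarith
  set y := Y * Y with hy
  have hyG : y ∈ GG := GG.mul_mem hYG hYG
  have hpos : ∀ t, t < c' (y t) := by
    intro t
    show t < c' (Y (Y t))
    rcases le_or_gt t (-(2 * a)) with h1 | h1
    · rw [y1 t (by linarith), y1 (t + a) (by linarith)]
      have := hdisp (t + a + a)
      rw [abs_le] at this
      linarith [this.1]
    · rcases le_or_gt t ((M : ℝ) + 1 / 2) with h2 | h2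
      · have h3 : 0 ≤ Y (Y t) := by
          have h4 := Y.monotone (Y.monotone h1.le)
          rw [y1 (-(2 * a)) (by linarith), y1 (-(2 * a) + a) (by linarith)] at h4
          linarith
        have h5 : Y (Y t) ≤ M + 1 / 2 + b + b := by
          have h4 := Y.monotone (Y.monotone h2)
          rw [y3 (M + 1 / 2) le_rfl, y3 (M + 1 / 2 + b) (by linarith)] at h4
          exact h4
        rw [hT _ h3 (by linarith)]
        linarith [hYpos t, hYpos (Y t)]
      · rw [y3 t h2.le, y3 (t + b) (by linarith)]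
        have := hdisp (t + b + b)
        rw [abs_le] at this
        linarith [this.1]
  have hyT : ∀ t : ℝ, 0 ≤ t → t ≤ M₀ → y t = t + 1 := by
    intro t ht1 ht2
    rw [hy, mul_apply', y2 t ht1 (by linarith), y2 _ (by linarith) (by linarith)]; ring
  have hcB := hb.conj hhG
  have hcTop := ht.conj hhG
  rw [← hc'] at hcB hcTop
  have hB : EndBot (c' * y) ((2 * n : ℕ) : ℤ) := by
    have := hcB.mul (hYB.mul hYB)
    convert this using 1
    push_cast; omega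
  have hTp : EndTop (c' * y) ((2 * n : ℕ) : ℤ) := by
    have := hcTop.mul (hYT.mul hYT)
    convert this using 1
    push_cast; omega
  obtain ⟨g₁, hg₁, w, hw, he⟩ := key (2 * n) (by omega) c' hc'G y hyG hpos
    (fun t h1 h2 => hT t h1 (by linarith)) hyT hB hTp
  have hTn : tr ((2 * n : ℕ) : ℝ) = tr (n : ℝ) * tr (n : ℝ) := by
    rw [tr_mul]; congr 1; push_cast; ring
  have hTnG : tr (n : ℝ) ∈ GG := by
    have := tr_int_GG n
    simpa using this
  rw [hTn] at he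
  have h1 : c' = g₁⁻¹ * (w * (tr (n : ℝ) * tr (n : ℝ)) * w⁻¹ * y⁻¹) * g₁ := by
    rw [← he]; group
  have ha : h * g₁⁻¹ ∈ GG := GG.mul_mem hhG (GG.inv_mem hg₁)
  refine ⟨h * g₁⁻¹ * (w * tr (n : ℝ) * w⁻¹) * (h * g₁⁻¹)⁻¹, ?_,
    h * g₁⁻¹ * Y⁻¹ * (h * g₁⁻¹)⁻¹, ?_, ?_⟩
  · exact GG.mul_mem (GG.mul_mem ha (GG.mul_mem (GG.mul_mem hw hTnG) (GG.inv_mem hw)))
      (GG.inv_mem ha)
  · exact GG.mul_mem (GG.mul_mem ha (GG.inv_mem hYG)) (GG.inv_mem ha)
  · have h3 : c = h * c' * h⁻¹ := by rw [hc']; group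
    conv_lhs => rw [h3, h1, hy]
    rw [pow_two, pow_two]
    group

/-- Every element of `GG` with even translation numbers is a product of two squares. -/
theorem squares_of_ends {c : ℝ ≃o ℝ} (hc : c ∈ GG) {p q : ℤ} (hb : EndBot c (2 * p))
    (ht : EndTop c (2 * q)) : ∃ a ∈ GG, ∃ b ∈ GG, c = a ^ 2 * b ^ 2 := by
  by_cases h1 : ∃ x, x < c x
  · obtain ⟨x, hx⟩ := h1
    exact squares_of_pos hc hb ht hx
  · by_cases h2 : ∃ x, c x < x
    · obtain ⟨x, hx⟩ := h2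
      have h3 : x < c⁻¹ x := by
        rw [← c.lt_iff_lt, apply_inv']; exact hx
      obtain ⟨a, ha, b, hb', he⟩ := squares_of_pos (GG.inv_mem hc) (p := -p) (q := -q)
        (by have := hb.inv; convert this using 1; ring)
        (by have := ht.inv; convert this using 1; ring) h3
      refine ⟨b⁻¹, GG.inv_mem hb', a⁻¹, GG.inv_mem ha, ?_⟩
      have h4 : c = (a ^ 2 * b ^ 2)⁻¹ := by rw [← he, inv_inv]
      conv_lhs => rw [h4]
      group
    · push Not at h1 h2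
      have : c = 1 := by
        ext t
        exact le_antisymm (h1 t) (h2 t)
      exact ⟨1, GG.one_mem, 1, GG.one_mem, by rw [this]; simp⟩

/-- Commutator width one: every element of the commutator subgroup of `F` is a commutator. -/
theorem commutator_width_one (c : TF) (hc : c ∈ commutator TF) : ∃ a b : TF, c = ⁅a, b⁆ := by
  obtain ⟨h1, h2⟩ := ends_of_commutator hc
  obtain ⟨a, ha, b, hb, he⟩ := comm_of_ends (Phi_mem c) h1 h2
  obtain ⟨a', rfl⟩ := exists_Phi ha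
  obtain ⟨b', rfl⟩ := exists_Phi hb
  refine ⟨a', b', Phi_injective ?_⟩
  rw [he, map_commutatorElement]

/-- An element of `F` is a product of two squares iff its class in the abelianization is a
square. -/
theorem two_squares (c : TF) (hc : IsSquare (Abelianization.of c)) :
    ∃ a b : TF, c = a ^ 2 * b ^ 2 := by
  obtain ⟨r, hr⟩ := hc
  obtain ⟨r', rfl⟩ := QuotientGroup.mk_surjective r
  have h1 : c * (r' * r')⁻¹ ∈ commutator TF := by
    rw [← Abelianization.ker_of, MonoidHom.mem_ker, map_mul, map_inv, map_mul, mul_inv_eq_one]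
    exact hr
  obtain ⟨h2, h3⟩ := ends_of_commutator h1
  obtain ⟨p, q, hp, hq⟩ := ends_exist r'
  have h4 : Phi c = Phi (c * (r' * r')⁻¹) * (Phi r' * Phi r') := by
    rw [← map_mul, ← map_mul]; congr 1; group
  have hB : EndBot (Phi c) (2 * p) := by
    rw [h4]
    have := h2.mul (hp.mul hp)
    convert this using 1; ring
  have hT : EndTop (Phi c) (2 * q) := by
    rw [h4]
    have := h3.mul (hq.mul hq)
    convert this using 1; ring
  obtain ⟨a, ha, b, hb, he⟩ := squares_of_ends (Phi_mem c) hB hT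
  obtain ⟨a', rfl⟩ := exists_Phi ha
  obtain ⟨b', rfl⟩ := exists_Phi hb
  refine ⟨a', b', Phi_injective ?_⟩
  rw [he, map_mul, map_pow, map_pow]

end Pool.Agent.Lib_helper30
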