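import Pool.Agent.Lib_helper30.Words2

set_option autoImplicit false

namespace Pool.Agent.Lib_helper30

open scoped commutatorElement

/-- Number of occurrences of a letter. -/
def cnt (w : List (Bool × (Bool ⊕ ℕ))) (L : Bool × (Bool ⊕ ℕ)) : ℕ :=
  (w.filter (fun p => decide (p = L))).length

lemma cnt_cons (p L : Bool × (Bool ⊕ ℕ)) (w : List (Bool × (Bool ⊕ ℕ))) :
    cnt (p :: w) L = (if p = L then 1 else 0) + cnt w L := by
  unfold cnt
  rw [List.filter_cons]
  by_cases h : p = L
  · simp [h]; ring
  · simp [h]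

lemma cnt_pos {w : List (Bool × (Bool ⊕ ℕ))} {L : Bool × (Bool ⊕ ℕ)} : 0 < cnt w L ↔ L ∈ w := by
  unfold cnt
  rw [List.length_pos_iff_exists_mem]
  constructor
  · rintro ⟨a, ha⟩
    rw [List.mem_filter] at ha
    have := ha.2
    simp only [decide_eq_true_eq] at this
    rw [← this]; exact ha.1
  · intro h
    exact ⟨L, by rw [List.mem_filter]; exact ⟨h, by simp⟩⟩

/-- Exponent sum of a letter. -/
def kk (w : List (Bool × (Bool ⊕ ℕ))) (l : Bool ⊕ ℕ) : ℤ := cnt w (true, l) - cnt w (false, l)

lemma cnt_add (w : List (Bool × (Bool ⊕ ℕ))) (n : ℕ) :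
    cnt w (true, Sum.inr n) + cnt w (false, Sum.inr n) =
      w.countP (fun p : Bool × (Bool ⊕ ℕ) => decide (p.2 = Sum.inr n)) := by
  induction w with
  | nil => rfl
  | cons p w ih =>
    rw [cnt_cons, cnt_cons, List.countP_cons, ← ih]
    obtain ⟨s, l⟩ := p
    rcases l with b | m
    · simp
    · by_cases h : m = n
      · subst h
        cases s <;> simp <;> ring
      · simp [h]

/-- A word is orientable if every variable occurs with both signs. -/
def Ori (w : List (Bool × (Bool ⊕ ℕ))) : Prop :=
  ∀ p ∈ w, (∃ b, p.2 = Sum.inl b) ∨ ∃ q ∈ w, q = (!p.1, p.2)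

/-- The abelian criterion. -/
def Crit (w : List (Bool × (Bool ⊕ ℕ))) : Prop :=
  (Ori w ∧ ∀ b : Bool, cnt w (true, Sum.inl b) = cnt w (false, Sum.inl b)) ∨
  (¬ Ori w ∧ ∀ b : Bool, (cnt w (true, Sum.inl b) + cnt w (false, Sum.inl b)) % 2 = 0)

section comm
variable {A : Type*} [CommGroup A]

lemma ev_comm (c : Bool → A) (σ : ℕ → A) (N : ℕ) (w : List (Bool × (Bool ⊕ ℕ)))
    (hN : ∀ p ∈ w, ∀ n, p.2 = Sum.inr n → n < N) :
    ev c σ w = c false ^ kk w (Sum.inl false) * c true ^ kk w (Sum.inl true) *
      ∏ n ∈ Finset.range N, σ n ^ kk w (Sum.inr n) := by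
  induction w with
  | nil => simp [ev_nil, kk, cnt]
  | cons p w ih =>
    have ih' := ih (fun q hq => hN q (List.mem_cons_of_mem _ hq))
    rw [ev_cons, ih']
    obtain ⟨s, l⟩ := p
    have hkk : ∀ l', kk ((s, l) :: w) l' = kk w l' + (if l = l' then (if s then 1 else -1) else 0) := by
      intro l'
      unfold kk
      rw [cnt_cons, cnt_cons]
      by_cases h : l = l'
      · subst h
        cases s
        · simp; ring
        · simp; ring
      · simp [h]
    rcases l with b | m
    · have h1 : ∀ n ∈ Finset.range N, σ n ^ kk ((s, Sum.inl b) :: w) (Sum.inr n) =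
          σ n ^ kk w (Sum.inr n) := by
        intro n _
        rw [hkk]; simp
      rw [Finset.prod_congr rfl h1, hkk, hkk]
      unfold evL
      cases b <;> cases s
      · simp only [Sum.elim_inl, if_true, Bool.false_eq_true, if_false, Sum.inl.injEq,
          reduceCtorEq, add_zero, zpow_add, zpow_neg, zpow_one]
        rw [mul_comm (c false)⁻¹]
        simp only [mul_assoc, mul_comm, mul_left_comm]
      · simp only [Sum.elim_inl, if_true, Bool.false_eq_true, if_false, Sum.inl.injEq,
          reduceCtorEq, add_zero, zpow_add, zpow_neg, zpow_one]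
        simp only [mul_assoc, mul_comm, mul_left_comm]
      · simp only [Sum.elim_inl, if_true, Bool.false_eq_true, if_false, Sum.inl.injEq,
          reduceCtorEq, add_zero, zpow_add, zpow_neg, zpow_one]
        simp only [mul_assoc, mul_comm, mul_left_comm]
      · simp only [Sum.elim_inl, if_true, Bool.false_eq_true, if_false, Sum.inl.injEq,
          reduceCtorEq, add_zero, zpow_add, zpow_neg, zpow_one]
        simp only [mul_assoc, mul_comm, mul_left_comm]
    · have hm : m < N := hN (s, Sum.inr m) (List.mem_cons_self) m rfl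
      have h1 : ∏ n ∈ Finset.range N, σ n ^ kk ((s, Sum.inr m) :: w) (Sum.inr n) =
          (∏ n ∈ Finset.range N, σ n ^ kk w (Sum.inr n)) * σ m ^ (if s then (1 : ℤ) else -1) := by
        have h2 : ∀ n ∈ Finset.range N, σ n ^ kk ((s, Sum.inr m) :: w) (Sum.inr n) =
            σ n ^ kk w (Sum.inr n) * (if n = m then σ m ^ (if s then (1 : ℤ) else -1) else 1) := by
          intro n _
          rw [hkk, zpow_add]
          by_cases h : n = m
          · subst h; simp
          · have h' : (Sum.inr m : Bool ⊕ ℕ) ≠ Sum.inr n := by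
              intro h2; exact h (Sum.inr.inj h2).symm
            simp [h, h']
        rw [Finset.prod_congr rfl h2, Finset.prod_mul_distrib, Finset.prod_ite_eq' (Finset.range N) m,
          if_pos (Finset.mem_range.2 hm)]
      rw [h1, hkk, hkk]
      unfold evL
      have e1 : (if s then σ m else (σ m)⁻¹) = σ m ^ (if s then (1 : ℤ) else -1) := by
        cases s <;> simp
      simp only [Sum.elim_inr, reduceCtorEq, if_false, add_zero]
      rw [e1]
      simp only [mul_assoc, mul_comm, mul_left_comm]

end comm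

lemma exists_bound (w : List (Bool × (Bool ⊕ ℕ))) :
    ∃ N : ℕ, ∀ p ∈ w, ∀ n, p.2 = Sum.inr n → n < N := by
  induction w with
  | nil => exact ⟨0, by simp⟩
  | cons p w ih =>
    obtain ⟨N, hN⟩ := ih
    obtain ⟨s, l⟩ := p
    rcases l with b | m
    · refine ⟨N, ?_⟩
      intro q hq n hn
      rcases List.mem_cons.1 hq with rfl | hq
      · simp at hn
      · exact hN q hq n hn
    · refine ⟨max N (m + 1), ?_⟩
      intro q hq n hn
      rcases List.mem_cons.1 hq with rfl | hq
      · simp only [Sum.inr.injEq] at hn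
        omega
      · exact lt_of_lt_of_le (hN q hq n hn) (le_max_left _ _)

lemma kk_even {w : List (Bool × (Bool ⊕ ℕ))} (hq : Quad w) (n : ℕ) :
    ∃ e : ℤ, kk w (Sum.inr n) = 2 * e := by
  have h := hq n
  rw [← cnt_add] at h
  unfold kk
  rcases h with h | h
  · exact ⟨0, by omega⟩
  · refine ⟨(cnt w (true, Sum.inr n) : ℤ) - 1, ?_⟩
    omega

lemma kk_ori {w : List (Bool × (Bool ⊕ ℕ))} (hq : Quad w) (ho : Ori w) (n : ℕ) :
    kk w (Sum.inr n) = 0 := by
  have h := hq n
  rw [← cnt_add] at h
  unfold kk
  rcases h with h | h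
  · omega
  · have key : ∀ s : Bool, 0 < cnt w (s, Sum.inr n) → 0 < cnt w (!s, Sum.inr n) := by
      intro s hs
      rw [cnt_pos] at hs ⊢
      rcases ho _ hs with ⟨b, hb⟩ | ⟨q, hq1, hq2⟩
      · simp at hb
      · rw [hq2] at hq1; exact hq1
    have k1 := key true
    have k2 := key false
    simp only [Bool.not_true, Bool.not_false] at k1 k2
    omega

/-- The exponents of an element of `F` in the abelianization. -/
lemma ab_unique {m n : ℤ} (h : Abelianization.of gA ^ m * Abelianization.of gB ^ n = 1) :
    m = 0 ∧ n = 0 := by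
  have h1 : gA ^ m * gB ^ n ∈ commutator TF := by
    rw [← Abelianization.ker_of, MonoidHom.mem_ker, map_mul, map_zpow, map_zpow]; exact h
  obtain ⟨h2, h3⟩ := ends_of_commutator h1
  rw [map_mul, map_zpow, map_zpow, Phi_A, Phi_B] at h2 h3
  have e1 := ((X0_bot.zpow m).mul (X1_bot.zpow n)).unique h2
  have e2 := ((X0_top.zpow m).mul (X1_top.zpow n)).unique h3
  constructor <;> linarith

lemma ab_square {m n : ℤ} {r : Abelianization TF}
    (h : Abelianization.of gA ^ m * Abelianization.of gB ^ n = r * r) :
    (∃ a, m = 2 * a) ∧ (∃ b, n = 2 * b) := by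
  obtain ⟨r', rfl⟩ := QuotientGroup.mk_surjective r
  obtain ⟨a, b, hab⟩ := exists_exponents r'
  have hab' : (QuotientGroup.mk r' : Abelianization TF) = Abelianization.of gA ^ a *
    Abelianization.of gB ^ b := hab
  rw [hab'] at h
  have h1 : Abelianization.of gA ^ (m - 2 * a) * Abelianization.of gB ^ (n - 2 * b) = 1 := by
    have e1 : Abelianization.of gA ^ (m - 2 * a) * Abelianization.of gB ^ (n - 2 * b) =
        (Abelianization.of gA ^ m * Abelianization.of gB ^ n) *
        ((Abelianization.of gA ^ a * Abelianization.of gB ^ b) *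
          (Abelianization.of gA ^ a * Abelianization.of gB ^ b))⁻¹ := by
      rw [zpow_sub, zpow_sub, two_mul, two_mul, zpow_add, zpow_add, mul_inv, mul_inv, mul_inv]
      simp only [mul_inv, mul_assoc, mul_comm, mul_left_comm]
    rw [e1, h, mul_inv_cancel]
  obtain ⟨h2, h3⟩ := ab_unique h1
  exact ⟨⟨a, by omega⟩, ⟨b, by omega⟩⟩

/-- The abelian criterion decides solvability in the abelianization. -/
theorem crit_iff {w : List (Bool × (Bool ⊕ ℕ))} (hq : Quad w) :
    (∃ τ : ℕ → Abelianization TF, ev (Abelianization.of ∘ cst) τ w = 1) ↔ Crit w := by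
  obtain ⟨N, hN⟩ := exists_bound w
  have hA : (Abelianization.of ∘ cst) false = Abelianization.of gA := rfl
  have hB : (Abelianization.of ∘ cst) true = Abelianization.of gB := rfl
  constructor
  · rintro ⟨τ, hτ⟩
    rw [ev_comm _ τ N w hN, hA, hB] at hτ
    by_cases ho : Ori w
    · left
      refine ⟨ho, ?_⟩
      have h1 : ∏ n ∈ Finset.range N, τ n ^ kk w (Sum.inr n) = 1 := by
        apply Finset.prod_eq_one
        intro n _
        rw [kk_ori hq ho, zpow_zero]
      rw [h1, mul_one] at hτ
      obtain ⟨h2, h3⟩ := ab_unique hτ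
      unfold kk at h2 h3
      intro b; cases b <;> omega
    · right
      refine ⟨ho, ?_⟩
      choose e he using kk_even hq
      have h1 : ∏ n ∈ Finset.range N, τ n ^ kk w (Sum.inr n) =
          (∏ n ∈ Finset.range N, τ n ^ e n) * (∏ n ∈ Finset.range N, τ n ^ e n) := by
        rw [← Finset.prod_mul_distrib]
        apply Finset.prod_congr rfl
        intro n _
        rw [he, two_mul, zpow_add]
      rw [h1, mul_eq_one_iff_eq_inv, mul_inv] at hτ
      obtain ⟨⟨a, ha⟩, ⟨b, hb⟩⟩ := ab_square hτ
      unfold kk at ha hb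
      intro b; cases b <;> omega
  · intro h
    rcases h with ⟨ho, h⟩ | ⟨ho, h⟩
    · refine ⟨fun _ => 1, ?_⟩
      rw [ev_comm _ _ N w hN]
      have h1 : kk w (Sum.inl false) = 0 := by unfold kk; have := h false; omega
      have h2 : kk w (Sum.inl true) = 0 := by unfold kk; have := h true; omega
      rw [h1, h2]; simp
    · unfold Ori at ho
      push Not at ho
      obtain ⟨⟨s, l⟩, hp, hl, hno⟩ := ho
      rcases l with b | z
      · exact absurd rfl (hl b)
      have hz1 : 0 < cnt w (s, Sum.inr z) := cnt_pos.2 hp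
      have hz2 : cnt w (!s, Sum.inr z) = 0 := by
        by_contra hne
        exact hno _ (cnt_pos.1 (Nat.pos_of_ne_zero hne)) rfl
      have hz3 := hq z
      rw [← cnt_add] at hz3
      obtain ⟨a, ha⟩ : ∃ a, kk w (Sum.inl false) = 2 * a := by
        have := h false
        refine ⟨kk w (Sum.inl false) / 2, ?_⟩
        unfold kk; omega
      obtain ⟨b, hb⟩ : ∃ b, kk w (Sum.inl true) = 2 * b := by
        have := h true
        refine ⟨kk w (Sum.inl true) / 2, ?_⟩
        unfold kk; omega
      have hzz : kk w (Sum.inr z) = 2 * (if s then 1 else -1) := by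
        unfold kk
        cases s
        · simp only [Bool.not_false] at hz2
          simp; omega
        · simp only [Bool.not_true] at hz2
          simp; omega
      have hzN : z < N := hN _ hp z rfl
      set r := Abelianization.of gA ^ a * Abelianization.of gB ^ b with hr
      refine ⟨fun n => if n = z then r ^ (if s then (-1 : ℤ) else 1) else 1, ?_⟩
      rw [ev_comm _ _ N w hN, hA, hB]
      have h1 : ∏ n ∈ Finset.range N, (if n = z then r ^ (if s then (-1 : ℤ) else 1) else 1) ^
          kk w (Sum.inr n) = r ^ (-2 : ℤ) := by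
        have h2 : ∀ n ∈ Finset.range N, (if n = z then r ^ (if s then (-1 : ℤ) else 1) else 1) ^
            kk w (Sum.inr n) = if n = z then r ^ (-2 : ℤ) else 1 := by
          intro n _
          by_cases hnz : n = z
          · subst hnz
            rw [if_pos rfl, if_pos rfl, hzz, ← zpow_mul]
            cases s <;> simp
          · simp [hnz]
        rw [Finset.prod_congr rfl h2, Finset.prod_ite_eq' (Finset.range N) z,
          if_pos (Finset.mem_range.2 hzN)]
      rw [h1, ha, hb, hr, mul_zpow, ← zpow_mul, ← zpow_mul]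
      have e1 : a * (-2) = -(2 * a) := by ring
      have e2 : b * (-2) = -(2 * b) := by ring
      rw [e1, e2, zpow_neg, zpow_neg]
      rw [mul_mul_mul_comm, mul_inv_cancel, mul_inv_cancel, one_mul]

lemma primrec_cnt (L : Bool × (Bool ⊕ ℕ)) :
    Primrec (fun w : List (Bool × (Bool ⊕ ℕ)) => cnt w L) := by
  unfold cnt
  exact Primrec.list_length.comp
    (Primrec.listFilter (Primrec.eq.comp Primrec.id (Primrec.const L)))

lemma primrec_ori : PrimrecPred Ori := by
  have h1 : PrimrecRel (fun (q p : Bool × (Bool ⊕ ℕ)) => q = (!p.1, p.2)) := by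
    refine Primrec.eq.comp Primrec.fst ?_
    exact Primrec.pair (Primrec.not.comp (Primrec.fst.comp Primrec.snd))
      (Primrec.snd.comp Primrec.snd)
  have h2 : PrimrecRel (fun (w : List (Bool × (Bool ⊕ ℕ))) (p : Bool × (Bool ⊕ ℕ)) =>
      ∃ q ∈ w, q = (!p.1, p.2)) := h1.exists_mem_list
  have h3 : PrimrecPred (fun p : Bool × (Bool ⊕ ℕ) => ∃ b, p.2 = Sum.inl b) := by
    have h4 : PrimrecPred (fun p : Bool × (Bool ⊕ ℕ) => p.2 = Sum.inl false ∨ p.2 = Sum.inl true) :=
      (Primrec.eq.comp Primrec.snd (Primrec.const _)).or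
        (Primrec.eq.comp Primrec.snd (Primrec.const _))
    refine h4.of_eq ?_
    intro p
    constructor
    · rintro (h | h)
      · exact ⟨_, h⟩
      · exact ⟨_, h⟩
    · rintro ⟨b, hb⟩
      cases b
      · exact Or.inl hb
      · exact Or.inr hb
  have h5 : PrimrecRel (fun (p : Bool × (Bool ⊕ ℕ)) (w : List (Bool × (Bool ⊕ ℕ))) =>
      (∃ b, p.2 = Sum.inl b) ∨ ∃ q ∈ w, q = (!p.1, p.2)) := by
    refine PrimrecPred.or ?_ ?_
    · exact h3.comp Primrec.fst
    · exact h2.comp Primrec.snd Primrec.fst
  have h6 := h5.forall_mem_list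
  exact h6.comp Primrec.id Primrec.id

lemma primrec_crit : PrimrecPred Crit := by
  unfold Crit
  refine PrimrecPred.or (PrimrecPred.and primrec_ori ?_) (PrimrecPred.and primrec_ori.not ?_)
  · have h : PrimrecPred (fun w : List (Bool × (Bool ⊕ ℕ)) =>
        cnt w (true, Sum.inl false) = cnt w (false, Sum.inl false) ∧
        cnt w (true, Sum.inl true) = cnt w (false, Sum.inl true)) :=
      (Primrec.eq.comp (primrec_cnt _) (primrec_cnt _)).and
        (Primrec.eq.comp (primrec_cnt _) (primrec_cnt _))
    refine h.of_eq ?_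
    intro w
    constructor
    · rintro ⟨h1, h2⟩ b
      cases b
      · exact h1
      · exact h2
    · intro h; exact ⟨h false, h true⟩
  · have h : PrimrecPred (fun w : List (Bool × (Bool ⊕ ℕ)) =>
        (cnt w (true, Sum.inl false) + cnt w (false, Sum.inl false)) % 2 = 0 ∧
        (cnt w (true, Sum.inl true) + cnt w (false, Sum.inl true)) % 2 = 0) :=
      (Primrec.eq.comp (Primrec.nat_mod.comp (Primrec.nat_add.comp (primrec_cnt _) (primrec_cnt _))
        (Primrec.const 2)) (Primrec.const 0)).and
      (Primrec.eq.comp (Primrec.nat_mod.comp (Primrec.nat_add.comp (primrec_cnt _) (primrec_cnt _))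
        (Primrec.const 2)) (Primrec.const 0))
    refine h.of_eq ?_
    intro w
    constructor
    · rintro ⟨h1, h2⟩ b
      cases b
      · exact h1
      · exact h2
    · intro h; exact ⟨h false, h true⟩

end Pool.Agent.Lib_helper30
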