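import Pool.Agent.Lib_helper30.Cat

set_option autoImplicit false

namespace Pool.Agent.Lib_helper30

open Filter Topology Set

/-- Dyadic fixed points in the frontier of the fixed point set. -/
def BB (c : ℝ ≃o ℝ) : Set ℝ := {q | q ∈ Dy ∧ c q = q ∧ ¬ ∀ᶠ t in 𝓝 q, c t = t}

lemma BB_right {c : ℝ ≃o ℝ} (hc : c ∈ HH) (x : ℝ) : ∃ ε > 0, (BB c ∩ Ioo x (x + ε)).Finite := by
  obtain ⟨m, b, hb, h⟩ := hc.right x
  rw [eventually_nhdsWithin_iff] at h
  obtain ⟨ε, hε, hε'⟩ := Metric.eventually_nhds_iff.1 h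
  have hS : ∀ t, x < t → t < x + ε → c t = 2 ^ m * t + b := by
    intro t h1 h2
    exact hε' (y := t) (by rw [Real.dist_eq, abs_of_pos (by linarith)]; linarith) (Set.mem_Ici.2 h1.le)
  refine ⟨ε, hε, ?_⟩
  by_cases hm : m = 0
  · by_cases hb0 : b = 0
    · have : BB c ∩ Ioo x (x + ε) = ∅ := by
        rw [Set.eq_empty_iff_forall_notMem]
        rintro t ⟨⟨_, _, h3⟩, h4, h5⟩
        apply h3
        filter_upwards [Ioo_mem_nhds h4 h5] with s hs
        rw [hS s hs.1 hs.2, hm, hb0]; simp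
      rw [this]; exact Set.finite_empty
    · have : BB c ∩ Ioo x (x + ε) = ∅ := by
        rw [Set.eq_empty_iff_forall_notMem]
        rintro t ⟨⟨_, h2, _⟩, h4, h5⟩
        rw [hS t h4 h5, hm] at h2
        apply hb0
        simp at h2
        exact h2
      rw [this]; exact Set.finite_empty
  · refine (Set.finite_singleton (b / (1 - 2 ^ m))).subset ?_
    rintro t ⟨⟨_, h2, _⟩, h4, h5⟩
    rw [hS t h4 h5] at h2
    have hne : (1 : ℝ) - 2 ^ m ≠ 0 := by
      intro h0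
      have h1 : (2 : ℝ) ^ m = 2 ^ (0 : ℤ) := by rw [zpow_zero]; linarith
      exact hm (zpow_right_injective₀ (by norm_num) (by norm_num) h1)
    rw [Set.mem_singleton_iff, eq_div_iff hne]
    linarith

lemma BB_rf (c : ℝ ≃o ℝ) : BB (rf c) = (fun t => -t) '' BB c := by
  have key : ∀ c : ℝ ≃o ℝ, ∀ q ∈ BB c, -q ∈ BB (rf c) := by
    rintro c q ⟨h1, h2, h3⟩
    refine ⟨Dy.neg_mem h1, by rw [rf_apply, neg_neg, h2], ?_⟩
    intro h
    apply h3
    have h4 : Tendsto (fun t : ℝ => -t) (𝓝 q) (𝓝 (-q)) := continuous_neg.tendsto q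
    filter_upwards [h4.eventually h] with t ht
    rw [rf_apply, neg_neg] at ht
    linarith
  ext t
  constructor
  · intro h
    refine ⟨-t, ?_, neg_neg t⟩
    have := key _ t h
    rwa [rf_rf] at this
  · rintro ⟨s, hs, rfl⟩
    exact key c s hs

lemma BB_left {c : ℝ ≃o ℝ} (hc : c ∈ HH) (x : ℝ) : ∃ ε > 0, (BB c ∩ Ioo (x - ε) x).Finite := by
  obtain ⟨ε, hε, h⟩ := BB_right (rf_mem_HH hc) (-x)
  refine ⟨ε, hε, ?_⟩
  refine (h.image (fun t => -t)).subset ?_
  rintro t ⟨h1, h2, h3⟩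
  refine ⟨-t, ⟨?_, by linarith, by linarith⟩, neg_neg t⟩
  rw [BB_rf]
  exact ⟨t, h1, rfl⟩

lemma BB_finite {c : ℝ ≃o ℝ} (hc : c ∈ GG) : (BB c).Finite := by
  obtain ⟨hcH, ⟨p, hp⟩, ⟨q, hq⟩⟩ := hc
  obtain ⟨a, ha⟩ := eventually_atBot.1 hp
  obtain ⟨b, hb⟩ := eventually_atTop.1 hq
  have hsub : BB c ⊆ Icc a b := by
    rintro t ⟨h1, h2, h3⟩
    constructor
    · by_contra hcon
      push Not at hcon
      apply h3
      have h4 : (p : ℝ) = 0 := by rw [ha t hcon.le] at h2; linarith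
      filter_upwards [gt_mem_nhds hcon] with s hs
      rw [ha s hs.le, h4]; ring
    · by_contra hcon
      push Not at hcon
      apply h3
      have h4 : (q : ℝ) = 0 := by rw [hb t hcon.le] at h2; linarith
      filter_upwards [lt_mem_nhds hcon] with s hs
      rw [hb s hs.le, h4]; ring
  have hloc : ∀ x : ℝ, ∃ U ∈ 𝓝 x, (BB c ∩ U).Finite := by
    intro x
    obtain ⟨ε, hε, h1⟩ := BB_right hcH x
    obtain ⟨δ, hδ, h2⟩ := BB_left hcH x
    refine ⟨Ioo (x - δ) (x + ε), Ioo_mem_nhds (by linarith) (by linarith), ?_⟩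
    refine ((h1.union h2).union (Set.finite_singleton x)).subset ?_
    rintro t ⟨h3, h4, h5⟩
    rcases lt_trichotomy t x with h | h | h
    · left; right; exact ⟨h3, h4, h⟩
    · right; exact h
    · left; left; exact ⟨h3, h, h5⟩
  choose U hU hUf using hloc
  obtain ⟨s, _, hs⟩ := isCompact_Icc.elim_nhds_subcover (s := Icc a b) U (fun x _ => hU x)
  refine (s.finite_toSet.biUnion (fun x _ => hUf x)).subset ?_
  intro t ht
  have := hs (hsub ht)
  simp only [Set.mem_iUnion] at this ⊢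
  obtain ⟨x, hx, hx'⟩ := this
  exact ⟨x, hx, ht, hx'⟩

lemma eq_one_of_BB {c : ℝ ≃o ℝ} (hc : c ∈ HH) (h : BB c = ∅) {q : ℝ} (hq : q ∈ Dy) (hcq : c q = q) :
    c = 1 := by
  set A : Set ℝ := {t | ∀ᶠ s in 𝓝 t, c s = s} with hA
  have hopen : IsOpen A := isOpen_iff_mem_nhds.2 (fun t ht => by
    have : ∀ᶠ s in 𝓝 t, ∀ᶠ r in 𝓝 s, c r = r := eventually_eventually_nhds.2 ht
    exact this)
  have hdy : ∀ t ∈ Dy, c t = t → t ∈ A := by
    intro t ht hct
    by_contra hcon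
    have : t ∈ BB c := ⟨ht, hct, hcon⟩
    rw [h] at this
    exact this
  have hclosed : IsClosed A := by
    rw [← closure_subset_iff_isClosed]
    intro t ht
    have hct : c t = t := by
      have hcl : IsClosed {s : ℝ | c s = s} := isClosed_eq c.continuous continuous_id
      have hsub : A ⊆ {s : ℝ | c s = s} := fun s hs => hs.self_of_nhds
      exact (closure_minimal hsub hcl) ht
    by_cases htD : t ∈ Dy
    · exact hdy t htD hct
    · obtain ⟨m, b, hb, hm⟩ := hc.both t htD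
      obtain ⟨U, hU, hUo, htU⟩ := eventually_nhds_iff.1 hm
      obtain ⟨s, hsU, hsA⟩ := mem_closure_iff.1 ht U hUo htU
      have h1 : ∀ᶠ r in 𝓝 s, c r = r ∧ c r = 2 ^ m * r + b := by
        filter_upwards [hsA, hUo.mem_nhds hsU] with r hr1 hr2
        exact ⟨hr1, hU r hr2⟩
      -- two distinct points
      obtain ⟨ε, hε, hε'⟩ := Metric.eventually_nhds_iff.1 h1
      have e1 := hε' (y := s) (by rw [dist_self]; exact hε)
      have e2 := hε' (y := s + ε / 2) (by rw [Real.dist_eq, add_sub_cancel_left, abs_of_pos] <;> linarith)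
      have e3 : (2 : ℝ) ^ m = 1 := by
        have e4 : (2 : ℝ) ^ m * (ε / 2) = ε / 2 := by
          have := e1.1.symm.trans e1.2
          have := e2.1.symm.trans e2.2
          nlinarith
        have e5 : ε / 2 ≠ 0 := by positivity
        exact mul_right_cancel₀ e5 (by rw [e4, one_mul])
      have e6 : b = 0 := by
        have := e1.1.symm.trans e1.2
        rw [e3] at this; linarith
      show ∀ᶠ s in 𝓝 t, c s = s
      filter_upwards [hm] with r hr
      rw [hr, e3, e6]; ring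
  have hne : A.Nonempty := ⟨q, hdy q hq hcq⟩
  have huniv : A = univ := IsClopen.eq_univ ⟨hclosed, hopen⟩ hne
  ext t
  have : t ∈ A := by rw [huniv]; trivial
  exact this.self_of_nhds

lemma hf_continuousAt (t : ℝ) : ContinuousAt hf t := by
  obtain ⟨K, hK⟩ := exists_nat_gt (-t)
  obtain ⟨g, _, hg⟩ := exists_hK K
  refine (g.continuous.continuousAt (x := t)).congr ?_
  filter_upwards [lt_mem_nhds (show -(K : ℝ) < t by linarith)] with s hs
  exact hg s hs.le

lemma hf_dy (t : ℝ) : hf t ∈ Dy ↔ t ∈ Dy := by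
  obtain ⟨K, hK⟩ := exists_nat_gt (-t)
  obtain ⟨g, hgH, hg⟩ := exists_hK K
  rw [← hg t (by linarith), PL2.dy_iff hgH]

lemma BB_conj {c γ : ℝ ≃o ℝ} (hγ : γ ∈ HH) {t : ℝ} (h : t ∈ BB (γ * c * γ⁻¹)) : γ⁻¹ t ∈ BB c := by
  obtain ⟨h1, h2, h3⟩ := h
  refine ⟨(PL2.dy_iff (HH.inv_mem hγ) t).2 h1, ?_, ?_⟩
  · rw [mul_apply', mul_apply'] at h2
    exact (inv_eq_of_apply h2).symm
  · intro h
    apply h3
    have h4 : Tendsto (γ⁻¹ : ℝ ≃o ℝ) (𝓝 t) (𝓝 (γ⁻¹ t)) := (γ⁻¹).continuous.tendsto t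
    filter_upwards [h4.eventually h] with s hs
    rw [mul_apply', mul_apply', hs, apply_inv']

lemma BB_cat {f g : ℝ ≃o ℝ} {t : ℝ} (h : t ∈ BB g) : hf t ∈ BB (cat f g) := by
  obtain ⟨h1, h2, h3⟩ := h
  refine ⟨(hf_dy t).2 h1, ?_, ?_⟩
  · rw [cat_ge _ _ (hf_pos t).le, shR_hf, h2]
  · intro h
    apply h3
    have h4 : Tendsto Pool.Agent.Lib_helper30.hf (𝓝 t) (𝓝 (Pool.Agent.Lib_helper30.hf t)) :=
      hf_continuousAt t
    filter_upwards [h4.eventually h] with s hs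
    rw [cat_ge _ _ (hf_pos s).le, shR_hf] at hs
    exact hf_strictMono.injective hs

lemma BB_lt_right {c f g γ : ℝ ≃o ℝ} (hc : c ∈ GG) (hγ : γ ∈ GG) {q : ℝ} (hq : q ∈ BB c)
    (hγq : γ q = 0) (h : γ * c * γ⁻¹ = cat f g) : (BB g).ncard < (BB c).ncard := by
  have hfin := BB_finite hc
  have hmap : ∀ t ∈ BB g, γ⁻¹ (Pool.Agent.Lib_helper30.hf t) ∈ BB c \ {q} := by
    intro t ht
    refine ⟨BB_conj hγ.1 (by rw [h]; exact BB_cat ht), ?_⟩
    intro h1
    rw [Set.mem_singleton_iff] at h1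
    have h2 := congrArg γ h1
    rw [apply_inv', hγq] at h2
    exact absurd h2 (hf_pos t).ne'
  have hle : (BB g).ncard ≤ (BB c \ {q}).ncard := by
    refine Set.ncard_le_ncard_of_injOn _ hmap ?_ (hfin.subset Set.diff_subset)
    intro s _ t _ hst
    exact hf_strictMono.injective ((γ⁻¹).injective hst)
  refine lt_of_le_of_lt hle ?_
  exact Set.ncard_diff_singleton_lt_of_mem hq hfin

lemma BB_ncard_rf (c : ℝ ≃o ℝ) : (BB (rf c)).ncard = (BB c).ncard := by
  rw [BB_rf]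
  exact Set.ncard_image_of_injective _ neg_injective

lemma BB_lt_left {c f g γ : ℝ ≃o ℝ} (hc : c ∈ GG) (hγ : γ ∈ GG) {q : ℝ} (hq : q ∈ BB c)
    (hγq : γ q = 0) (h : γ * c * γ⁻¹ = cat f g) : (BB f).ncard < (BB c).ncard := by
  rw [← BB_ncard_rf f, ← BB_ncard_rf c]
  refine BB_lt_right (rf_mem_GG hc) (rf_mem_GG hγ) (q := -q) ?_ ?_ (f := rf g) ?_
  · rw [BB_rf]; exact ⟨q, hq, rfl⟩
  · rw [rf_apply, neg_neg, hγq, neg_zero]
  · rw [← rf_conj, h, rf_cat]

/-- No dyadic fixed point. -/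
def Clu (c : ℝ ≃o ℝ) : Prop := ∀ t ∈ Dy, c t ≠ t

/-- Finitely decomposable elements. -/
inductive Decomp : (ℝ ≃o ℝ) → Prop
  | one : Decomp 1
  | clu (c : ℝ ≃o ℝ) (hc : c ∈ GG) (h : Clu c) : Decomp c
  | cat (c f g : ℝ ≃o ℝ) (hf : f ∈ GG) (hg : g ∈ GG) (h1 : Decomp f) (h2 : Decomp g)
      (h : GC c (cat f g)) : Decomp c

/-- Every element of `GG` is finitely decomposable. -/
theorem decomp (n : ℕ) : ∀ c ∈ GG, (BB c).ncard ≤ n → Decomp c := by
  induction n with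
  | zero =>
    intro c hc h
    have h0 : BB c = ∅ := by
      rw [← Set.ncard_eq_zero (BB_finite hc)]; omega
    by_cases hcl : Clu c
    · exact Decomp.clu c hc hcl
    · unfold Clu at hcl
      push Not at hcl
      obtain ⟨q, hq, hcq⟩ := hcl
      rw [eq_one_of_BB hc.1 h0 hq hcq]
      exact Decomp.one
  | succ n ih =>
    intro c hc h
    rcases (BB c).eq_empty_or_nonempty with h0 | ⟨q, hq⟩
    · exact ih c hc (by rw [h0]; simp)
    · obtain ⟨f, hf, g, hg, γ, hγ, hγq, hγc⟩ := exists_cat_of_fix hc hq.1 hq.2.1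
      refine Decomp.cat c f g hf hg (ih f hf ?_) (ih g hg ?_) ⟨γ, hγ, hγc.symm⟩
      · have := BB_lt_left hc hγ hq hγq hγc; omega
      · have := BB_lt_right hc hγ hq hγq hγc; omega

theorem decomp_all {c : ℝ ≃o ℝ} (hc : c ∈ GG) : Decomp c := decomp _ c hc le_rfl

end Pool.Agent.Lib_helper30
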