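import Pool.Agent.Lib_helper30.Bip

set_option autoImplicit false

namespace Pool.Agent.Lib_helper30

open Filter Topology Set
open scoped commutatorElement

/-- Conjugation by a translation. -/
noncomputable def sh (b : ℝ) (f : ℝ ≃o ℝ) : ℝ ≃o ℝ := tr b * f * tr (-b)

lemma sh_apply (b : ℝ) (f : ℝ ≃o ℝ) (t : ℝ) : sh b f t = f (t - b) + b := by
  unfold sh
  rw [mul_apply', mul_apply', tr_apply, tr_apply, sub_eq_add_neg]

lemma sh_mul (b : ℝ) (f g : ℝ ≃o ℝ) : sh b (f * g) = sh b f * sh b g := by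
  ext t
  rw [mul_apply', sh_apply, sh_apply, sh_apply, mul_apply']
  congr 3; ring

lemma sh_one (b : ℝ) : sh b 1 = 1 := by
  ext t
  rw [sh_apply, one_apply', one_apply']; ring

lemma sh_inv (b : ℝ) (f : ℝ ≃o ℝ) : sh b f⁻¹ = (sh b f)⁻¹ := by
  rw [eq_inv_iff_mul_eq_one, ← sh_mul, inv_mul_cancel, sh_one]

lemma sh_sh (b c : ℝ) (f : ℝ ≃o ℝ) : sh b (sh c f) = sh (b + c) f := by
  ext t
  rw [sh_apply, sh_apply, sh_apply, show t - b - c = t - (b + c) by ring]; ring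

lemma sh_zero (f : ℝ ≃o ℝ) : sh 0 f = f := by
  ext t; rw [sh_apply]; simp

lemma tr_mul_eq (b : ℝ) (f : ℝ ≃o ℝ) : tr b * f = sh b f * tr b := by
  ext t
  rw [mul_apply', mul_apply', sh_apply, tr_apply, tr_apply]; simp

lemma sh_mem {b : ℝ} (hb : b ∈ Dy) {I J : ℝ} {f : ℝ ≃o ℝ} (hf : f ∈ Gc I J) :
    sh b f ∈ Gc (I + b) (J + b) := by
  have h := Gc_conj (c := I + b) (d := J + b) hf (tr_mem_HH hb) (by rw [tr_apply])
    (by rw [tr_apply])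
  rw [tr_inv] at h
  exact h

/-- The twisted conjugacy relation: `κ T² = γ⁻¹ (v T^a v⁻¹) T^{2-a} γ`. -/
def InE (a I J : ℝ) (κ : ℝ ≃o ℝ) : Prop :=
  ∃ γ ∈ Gc I J, ∃ v ∈ Gc I J, κ * tr 2 = γ⁻¹ * (v * tr a * v⁻¹) * tr (2 - a) * γ

lemma InE.mono {a I J I' J' : ℝ} {κ : ℝ ≃o ℝ} (h : InE a I J κ) (h1 : I' ≤ I) (h2 : J ≤ J') :
    InE a I' J' κ := by
  obtain ⟨γ, hγ, v, hv, he⟩ := h
  exact ⟨γ, Gc_mono h1 h2 hγ, v, Gc_mono h1 h2 hv, he⟩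

lemma InE.expand {a : ℝ} {κ γ v : ℝ ≃o ℝ}
    (h : κ * tr 2 = γ⁻¹ * (v * tr a * v⁻¹) * tr (2 - a) * γ) :
    κ = γ⁻¹ * v * (sh a v)⁻¹ * sh 2 γ := by
  have h1 : γ⁻¹ * (v * tr a * v⁻¹) * tr (2 - a) * γ = γ⁻¹ * v * (sh a v)⁻¹ * sh 2 γ * tr 2 := by
    have e1 : tr a * v⁻¹ = (sh a v)⁻¹ * tr a := by rw [tr_mul_eq, sh_inv]
    have e2 : tr a * tr (2 - a) = tr 2 := by rw [tr_mul]; congr 1; ring
    calc γ⁻¹ * (v * tr a * v⁻¹) * tr (2 - a) * γ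
        = γ⁻¹ * v * (tr a * v⁻¹) * tr (2 - a) * γ := by group
      _ = γ⁻¹ * v * ((sh a v)⁻¹ * tr a) * tr (2 - a) * γ := by rw [e1]
      _ = γ⁻¹ * v * (sh a v)⁻¹ * (tr a * tr (2 - a)) * γ := by group
      _ = γ⁻¹ * v * (sh a v)⁻¹ * (tr 2 * γ) := by rw [e2]; group
      _ = γ⁻¹ * v * (sh a v)⁻¹ * sh 2 γ * tr 2 := by rw [tr_mul_eq]; group
  rw [h1] at h
  exact mul_right_cancel h

lemma InE.contract {a : ℝ} {κ γ v : ℝ ≃o ℝ} (h : κ = γ⁻¹ * v * (sh a v)⁻¹ * sh 2 γ) :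
    κ * tr 2 = γ⁻¹ * (v * tr a * v⁻¹) * tr (2 - a) * γ := by
  have h1 : γ⁻¹ * (v * tr a * v⁻¹) * tr (2 - a) * γ = γ⁻¹ * v * (sh a v)⁻¹ * sh 2 γ * tr 2 := by
    have e1 : tr a * v⁻¹ = (sh a v)⁻¹ * tr a := by rw [tr_mul_eq, sh_inv]
    have e2 : tr a * tr (2 - a) = tr 2 := by rw [tr_mul]; congr 1; ring
    calc γ⁻¹ * (v * tr a * v⁻¹) * tr (2 - a) * γ
        = γ⁻¹ * v * (tr a * v⁻¹) * tr (2 - a) * γ := by group
      _ = γ⁻¹ * v * ((sh a v)⁻¹ * tr a) * tr (2 - a) * γ := by rw [e1]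
      _ = γ⁻¹ * v * (sh a v)⁻¹ * (tr a * tr (2 - a)) * γ := by group
      _ = γ⁻¹ * v * (sh a v)⁻¹ * (tr 2 * γ) := by rw [e2]; group
      _ = γ⁻¹ * v * (sh a v)⁻¹ * sh 2 γ * tr 2 := by rw [tr_mul_eq]; group
  rw [h1, h]

/-- Interleaving of commuting products. -/
lemma interleave {G : Type*} [Group G] {x1 x2 x3 x4 y1 y2 y3 y4 : G}
    (h : ∀ x ∈ ({x1, x2, x3, x4} : Set G), ∀ y ∈ ({y1, y2, y3, y4} : Set G), Commute x y) :
    (y1 * x1) * (x2 * y2) * (y3 * x3) * (x4 * y4) = (x1 * x2 * x3 * x4) * (y1 * y2 * y3 * y4) := by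
  have c := fun (x : G) (hx : x ∈ ({x1, x2, x3, x4} : Set G)) (y : G)
    (hy : y ∈ ({y1, y2, y3, y4} : Set G)) => (h x hx y hy).eq
  have a11 : Commute x1 y1 := h _ (by simp) _ (by simp)
  have a21 : Commute x2 y1 := h _ (by simp) _ (by simp)
  have a31 : Commute x3 y1 := h _ (by simp) _ (by simp)
  have a32 : Commute x3 y2 := h _ (by simp) _ (by simp)
  have a33 : Commute x3 y3 := h _ (by simp) _ (by simp)
  have a41 : Commute x4 y1 := h _ (by simp) _ (by simp)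
  have a42 : Commute x4 y2 := h _ (by simp) _ (by simp)
  have a43 : Commute x4 y3 := h _ (by simp) _ (by simp)
  calc (y1 * x1) * (x2 * y2) * (y3 * x3) * (x4 * y4)
      = y1 * (x1 * x2) * (y2 * y3) * (x3 * x4) * y4 := by group
    _ = (x1 * x2) * y1 * ((y2 * y3) * (x3 * x4)) * y4 := by
        rw [← (a11.mul_left a21).eq]; group
    _ = (x1 * x2) * y1 * ((x3 * x4) * (y2 * y3)) * y4 := by
        rw [← ((a32.mul_right a33).mul_left (a42.mul_right a43)).eq]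
    _ = (x1 * x2) * (y1 * (x3 * x4)) * (y2 * y3) * y4 := by group
    _ = (x1 * x2) * ((x3 * x4) * y1) * (y2 * y3) * y4 := by
        rw [← (a31.mul_left a41).eq]
    _ = (x1 * x2 * x3 * x4) * (y1 * y2 * y3 * y4) := by group

/-- The product of the first `r` even shifts of `κ`. -/
noncomputable def Gam (κ : ℝ ≃o ℝ) : ℕ → (ℝ ≃o ℝ)
  | 0 => 1
  | (r + 1) => Gam κ r * sh (2 * r) κ

lemma two_mul_nat_Dy (r : ℕ) : (2 * (r : ℝ)) ∈ Dy := by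
  have := Dy_nat (2 * r)
  push_cast at this; exact this

lemma Gam_mem {s : ℝ} {κ : ℝ ≃o ℝ} (hκ : κ ∈ Gc s (s + 2)) (r : ℕ) :
    Gam κ r ∈ Gc s (s + 2 * r) := by
  induction r with
  | zero => exact Subgroup.one_mem _
  | succ r ih =>
    unfold Gam
    have hr : (0 : ℝ) ≤ r := Nat.cast_nonneg r
    refine Subgroup.mul_mem _ (Gc_mono le_rfl (by push_cast; linarith) ih)
      (Gc_mono (by linarith) (by push_cast; linarith) (sh_mem (two_mul_nat_Dy r) hκ))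

lemma sh_two_Gam (κ : ℝ ≃o ℝ) (r : ℕ) : κ * sh 2 (Gam κ r) = Gam κ (r + 1) := by
  induction r with
  | zero => simp only [Gam]; rw [sh_one]; simp [sh_zero]
  | succ r ih =>
    rw [Gam, sh_mul, ← mul_assoc, ih, sh_sh]
    conv_rhs => rw [Gam]
    congr 2
    push_cast; ring

/-- Moving a factor far away. -/
lemma Gam_move {s : ℝ} {κ κ' : ℝ ≃o ℝ} (hκ : κ ∈ Gc s (s + 2)) (hκ' : κ' ∈ Gc s (s + 2)) (r : ℕ) :
    κ * κ' = Gam κ (r + 1) * κ' * sh (2 * (r + 1 : ℕ)) κ * (sh 2 (Gam κ (r + 1)))⁻¹ := by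
  have hcomm : ∀ k : ℕ, Commute κ' (sh (2 * (k + 1 : ℕ)) κ) := by
    intro k
    have h1 := sh_mem (two_mul_nat_Dy (k + 1)) hκ
    refine Gc_comm ?_ hκ' h1
    have : (0 : ℝ) ≤ k := Nat.cast_nonneg k
    push_cast; linarith
  induction r with
  | zero =>
    simp only [Gam]
    rw [one_mul, show (2 : ℝ) * ((0 : ℕ) : ℝ) = 0 by simp, sh_zero]
    simp
  | succ r ih =>
    rw [ih]
    conv_rhs => rw [Gam, sh_mul, sh_sh]
    have e : (2 : ℝ) + 2 * ((r + 1 : ℕ) : ℝ) = 2 * ((r + 1 + 1 : ℕ) : ℝ) := by push_cast; ring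
    rw [e]
    have hc := (hcomm r).eq
    calc Gam κ (r + 1) * κ' * sh (2 * (r + 1 : ℕ)) κ * (sh 2 (Gam κ (r + 1)))⁻¹
        = Gam κ (r + 1) * (κ' * sh (2 * (r + 1 : ℕ)) κ) * (sh 2 (Gam κ (r + 1)))⁻¹ := by group
      _ = Gam κ (r + 1) * (sh (2 * (r + 1 : ℕ)) κ * κ') * (sh 2 (Gam κ (r + 1)))⁻¹ := by rw [hc]
      _ = _ := by group

/-- Closure of the twisted classes under products inside a fundamental domain. -/
lemma InE.mul {a : ℝ} (ha : a ∈ Dy) {s I J : ℝ} (hI : I ≤ s) (hJ : s + 2 ≤ J) {κ κ' : ℝ ≃o ℝ}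
    (hκ : κ ∈ Gc s (s + 2)) (hκ' : κ' ∈ Gc s (s + 2)) (h : InE a I J κ) (h' : InE a I J κ')
    (r : ℕ) (hr : J - I + 2 * |a| + 2 ≤ 2 * (r + 1 : ℕ)) :
    InE a I (J + 2 * (r + 1 : ℕ)) (κ * κ') := by
  obtain ⟨γ, hγ, v, hv, he⟩ := h
  obtain ⟨γ', hγ', v', hv', he'⟩ := h'
  have h1 := InE.expand he
  have h1' := InE.expand he'
  set R : ℝ := 2 * (r + 1 : ℕ) with hR
  have hRD : R ∈ Dy := two_mul_nat_Dy (r + 1)
  have hR0 : 0 ≤ R := by positivity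
  have h2D : (2 : ℝ) ∈ Dy := by simpa using Dy_nat 2
  have ha1 := neg_abs_le a
  have ha2 := le_abs_self a
  have ha3 := abs_nonneg a
  set γR := sh R γ with hγR
  set vR := sh R v with hvR
  have hκR : sh R κ = γR⁻¹ * vR * (sh a vR)⁻¹ * sh 2 γR := by
    rw [h1, sh_mul, sh_mul, sh_mul, sh_inv, sh_inv, sh_sh, sh_sh, hγR, hvR, sh_sh, sh_sh,
      add_comm R a, add_comm R 2]
  -- supports
  have mX : ∀ x ∈ ({γ'⁻¹, v', (sh a v')⁻¹, sh 2 γ'} : Set (ℝ ≃o ℝ)),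
      x ∈ Gc (I - |a|) (J + |a| + 2) := by
    intro x hx
    rcases hx with rfl | rfl | rfl | hx
    · exact Subgroup.inv_mem _ (Gc_mono (by linarith) (by linarith) hγ')
    · exact Gc_mono (by linarith) (by linarith) hv'
    · exact Subgroup.inv_mem _ (Gc_mono (by linarith) (by linarith) (sh_mem ha hv'))
    · rw [Set.mem_singleton_iff.1 hx]
      exact Gc_mono (by linarith) (by linarith) (sh_mem h2D hγ')
  have mY : ∀ y ∈ ({γR⁻¹, vR, (sh a vR)⁻¹, sh 2 γR} : Set (ℝ ≃o ℝ)),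
      y ∈ Gc (I + R - |a|) (J + R + |a| + 2) := by
    intro y hy
    rcases hy with rfl | rfl | rfl | hy
    · exact Subgroup.inv_mem _ (Gc_mono (by linarith) (by linarith) (sh_mem hRD hγ))
    · exact Gc_mono (by linarith) (by linarith) (sh_mem hRD hv)
    · exact Subgroup.inv_mem _ (Gc_mono (by linarith) (by linarith) (sh_mem ha (sh_mem hRD hv)))
    · rw [Set.mem_singleton_iff.1 hy]
      exact Gc_mono (by linarith) (by linarith) (sh_mem h2D (sh_mem hRD hγ))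
  have hint := interleave (fun x hx y hy => Gc_comm (by linarith) (mX x hx) (mY y hy) :
    ∀ x ∈ ({γ'⁻¹, v', (sh a v')⁻¹, sh 2 γ'} : Set (ℝ ≃o ℝ)),
      ∀ y ∈ ({γR⁻¹, vR, (sh a vR)⁻¹, sh 2 γR} : Set (ℝ ≃o ℝ)), Commute x y)
  have hprod : κ' * sh R κ =
      (γ' * γR)⁻¹ * (v' * vR) * (sh a (v' * vR))⁻¹ * sh 2 (γ' * γR) := by
    rw [hκR]
    conv_lhs => rw [h1']
    rw [sh_mul, sh_mul, mul_inv_rev, mul_inv_rev, ← hint]
  have hmove := Gam_move hκ hκ' r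
  rw [← hR] at hmove
  set Γ := Gam κ (r + 1) with hΓ
  have hΓm : Γ ∈ Gc s (s + R) := by
    have := Gam_mem hκ (r + 1)
    rwa [← hR] at this
  refine ⟨γ' * γR * Γ⁻¹, ?_, v' * vR, ?_, InE.contract ?_⟩
  · refine Subgroup.mul_mem _ (Subgroup.mul_mem _ (Gc_mono le_rfl (by linarith) hγ') ?_) ?_
    · exact Gc_mono (by linarith) (by linarith) (sh_mem hRD hγ)
    · exact Subgroup.inv_mem _ (Gc_mono hI (by linarith) hΓm)
  · exact Subgroup.mul_mem _ (Gc_mono le_rfl (by linarith) hv')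
      (Gc_mono (by linarith) (by linarith) (sh_mem hRD hv))
  · rw [hmove]
    calc Γ * κ' * sh R κ * (sh 2 Γ)⁻¹ = Γ * (κ' * sh R κ) * (sh 2 Γ)⁻¹ := by group
      _ = Γ * ((γ' * γR)⁻¹ * (v' * vR) * (sh a (v' * vR))⁻¹ * sh 2 (γ' * γR)) * (sh 2 Γ)⁻¹ := by
          rw [hprod]
      _ = (γ' * γR * Γ⁻¹)⁻¹ * (v' * vR) * (sh a (v' * vR))⁻¹ * sh 2 (γ' * γR * Γ⁻¹) := by
          rw [sh_mul 2 (γ' * γR) Γ⁻¹, sh_inv]; group

end Pool.Agent.Lib_helper30
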