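import Pool.Agent.Lib_helper30.ELemma

set_option autoImplicit false

namespace Pool.Agent.Lib_helper30

open Filter Topology Set
open scoped commutatorElement

lemma InE.mul' {a : ℝ} (ha : a ∈ Dy) {C : ℝ} (hC : 2 ≤ C) :
    ∃ C', C ≤ C' ∧ ∀ s : ℝ, ∀ κ ∈ Gc s (s + 2), ∀ κ' ∈ Gc s (s + 2),
      InE a (s - C) (s + C) κ → InE a (s - C) (s + C) κ' →
      InE a (s - C') (s + C') (κ * κ') := by
  obtain ⟨r, hr⟩ := exists_nat_ge ((2 * C + 2 * |a| + 2) / 2)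
  refine ⟨C + 2 * (r + 1 : ℕ), by push_cast; have : (0:ℝ) ≤ r := Nat.cast_nonneg r; linarith, ?_⟩
  intro s κ hκ κ' hκ' h h'
  have h3 := InE.mul ha (s := s) (I := s - C) (J := s + C) (by linarith) (by linarith) hκ hκ' h h' r
    (by push_cast; linarith)
  refine h3.mono ?_ (by linarith)
  have : (0:ℝ) ≤ r := Nat.cast_nonneg r
  push_cast; linarith

/-- From the base case to all commutators. -/
lemma InE.commutators {a C₀ : ℝ} (ha : a ∈ Dy) (hC₀ : 2 ≤ C₀)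
    (hbase : ∀ s : ℝ, ∀ z ∈ Gc s (s + 1), InE a (s - C₀) (s + C₀) (z * (sh 1 z)⁻¹)) :
    ∃ C, C₀ ≤ C ∧ ∀ s : ℝ, ∀ A ∈ Gc s (s + 1), ∀ B ∈ Gc s (s + 1),
      InE a (s - C) (s + C) ⁅A, B⁆ := by
  obtain ⟨C1, hC1, h1⟩ := InE.mul' ha hC₀
  obtain ⟨C2, hC2, h2⟩ := InE.mul' ha (hC₀.trans hC1)
  refine ⟨C2, hC1.trans hC2, ?_⟩
  intro s A hA B hB
  have hmem : ∀ z ∈ Gc s (s + 1), z * (sh 1 z)⁻¹ ∈ Gc s (s + 2) := by
    intro z hz
    refine Subgroup.mul_mem _ (Gc_mono le_rfl (by linarith) hz) (Subgroup.inv_mem _ ?_)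
    exact Gc_mono (by linarith) (by linarith) (sh_mem Dy.one_mem hz)
  have hcm : ∀ z ∈ Gc s (s + 1), ∀ w ∈ Gc s (s + 1), z * sh 1 w = sh 1 w * z := by
    intro z hz w hw
    exact Gc_comm le_rfl hz (sh_mem Dy.one_mem hw)
  have hAi := Subgroup.inv_mem _ hA
  have hBi := Subgroup.inv_mem _ hB
  have hAB := Subgroup.mul_mem _ hA hB
  have k1 := h1 s _ (hmem _ hAB) _ (hmem _ hAi) (hbase s _ hAB) (hbase s _ hAi)
  have k2 := h2 s _ (Subgroup.mul_mem _ (hmem _ hAB) (hmem _ hAi)) _ (hmem _ hBi)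
    k1 ((hbase s _ hBi).mono (by linarith) (by linarith))
  convert k2 using 1
  have e1 := hcm A⁻¹ hAi (A * B) hAB
  have e2 := hcm B⁻¹ hBi (A * B) hAB
  have e3 := hcm B⁻¹ hBi A hA
  have e1' : Commute A⁻¹ (sh 1 (A * B))⁻¹ := (show Commute A⁻¹ (sh 1 (A * B)) from e1).inv_right
  have e2' : Commute B⁻¹ (sh 1 (A * B))⁻¹ := (show Commute B⁻¹ (sh 1 (A * B)) from e2).inv_right
  have e3' : Commute B⁻¹ (sh 1 A) := e3
  rw [sh_inv, sh_inv, inv_inv, inv_inv]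
  have e4 : (sh 1 (A * B))⁻¹ * sh 1 A * sh 1 B = 1 := by
    rw [sh_mul]; group
  calc ⁅A, B⁆ = A * B * A⁻¹ * B⁻¹ := rfl
    _ = A * B * A⁻¹ * B⁻¹ * ((sh 1 (A * B))⁻¹ * sh 1 A * sh 1 B) := by rw [e4, mul_one]
    _ = A * B * A⁻¹ * ((B⁻¹ * (sh 1 (A * B))⁻¹) * sh 1 A) * sh 1 B := by group
    _ = A * B * A⁻¹ * (((sh 1 (A * B))⁻¹ * B⁻¹) * sh 1 A) * sh 1 B := by rw [e2'.eq]
    _ = A * B * (A⁻¹ * (sh 1 (A * B))⁻¹) * (B⁻¹ * sh 1 A) * sh 1 B := by group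
    _ = A * B * ((sh 1 (A * B))⁻¹ * A⁻¹) * (sh 1 A * B⁻¹) * sh 1 B := by rw [e1'.eq, e3'.eq]
    _ = A * B * (sh 1 (A * B))⁻¹ * (A⁻¹ * sh 1 A) * (B⁻¹ * sh 1 B) := by group

/-- All elements supported in a fundamental domain. -/
theorem InE.all {a C₀ : ℝ} (ha : a ∈ Dy) (hC₀ : 2 ≤ C₀)
    (hbase : ∀ s : ℝ, ∀ z ∈ Gc s (s + 1), InE a (s - C₀) (s + C₀) (z * (sh 1 z)⁻¹)) :
    ∃ C, C₀ ≤ C ∧ ∀ s ∈ Dy, ∀ κ ∈ Gc s (s + 2), InE a (s - C) (s + C) κ := by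
  obtain ⟨C1, hC1, h1⟩ := InE.commutators ha hC₀ hbase
  obtain ⟨C2, hC2, h2⟩ := InE.mul' ha (hC₀.trans hC1)
  have hone : ∀ s : ℝ, ∀ κ ∈ Gc s (s + 1), InE a (s - C2) (s + C2) κ := by
    intro s κ hκ
    obtain ⟨X, hX, φ, hφ, A, hA, B, hB, he⟩ := two_commutators hκ
    rw [he]
    have cm : ∀ z ∈ Gc s (s + 1), ∀ w ∈ Gc s (s + 1), ⁅z, w⁆ ∈ Gc s (s + 2) := by
      intro z hz w hw
      refine Gc_mono le_rfl (by linarith) (?_ : ⁅z, w⁆ ∈ Gc s (s + 1))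
      exact Subgroup.mul_mem _ (Subgroup.mul_mem _ (Subgroup.mul_mem _ hz hw)
        (Subgroup.inv_mem _ hz)) (Subgroup.inv_mem _ hw)
    exact h2 s _ (cm X hX φ hφ) _ (cm A hA B hB) (h1 s _ hX _ hφ) (h1 s _ hA _ hB)
  have hC2' : 2 ≤ C2 + 1 := by linarith
  obtain ⟨C3, hC3, h3⟩ := InE.mul' ha hC2'
  obtain ⟨C4, hC4, h4⟩ := InE.mul' ha (hC2'.trans hC3)
  refine ⟨C4, by linarith, ?_⟩
  intro s hs κ hκ
  obtain ⟨hκH, a', b', ha', hb', hκ1, hκ2⟩ := id hκ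
  have hfix1 : κ s = s := hκ1 s ha'.le
  have hfix2 : κ (s + 2) = s + 2 := hκ2 _ hb'.le
  have hs1 : s + 1 ∈ Dy := Dy.add_mem hs Dy.one_mem
  -- the position of the midpoint
  have hm1 : s < κ (s + 1) := by
    have := κ.strictMono (show s < s + 1 by linarith); rwa [hfix1] at this
  have hm2 : κ (s + 1) < s + 2 := by
    have := κ.strictMono (show s + 1 < s + 2 by linarith); rwa [hfix2] at this
  -- choose a window `(u, u+1)` containing both
  obtain ⟨u, hu, hu1, hu2⟩ := Dy_dense (show max s (max (s + 1) (κ (s + 1)) - 1) <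
    min (s + 1) (κ (s + 1)) by
      rw [max_lt_iff, lt_min_iff, lt_min_iff, sub_lt_iff_lt_add, max_lt_iff, sub_lt_iff_lt_add,
        max_lt_iff]
      refine ⟨⟨by linarith, hm1⟩, ⟨by linarith, by linarith⟩, by linarith, by linarith⟩)
  rw [max_lt_iff, sub_lt_iff_lt_add, max_lt_iff] at hu1
  rw [lt_min_iff] at hu2
  obtain ⟨hu3, hu4, hu5⟩ := hu1
  obtain ⟨hu6, hu7⟩ := hu2
  -- choose points around the midpoint
  obtain ⟨p1, hp1, hp2, hp3⟩ := Dy_dense (show max u (κ⁻¹ u) < s + 1 by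
    rw [max_lt_iff]
    refine ⟨hu6, ?_⟩
    rw [← κ.lt_iff_lt, apply_inv']; exact hu7)
  rw [max_lt_iff] at hp2
  have hκp1 : u < κ p1 := by
    have := κ.strictMono hp2.2; rwa [apply_inv'] at this
  obtain ⟨p2, hp4, hp5, hp6⟩ := Dy_dense (show s + 1 < min (u + 1) (κ⁻¹ (u + 1)) by
    rw [lt_min_iff]
    refine ⟨hu4, ?_⟩
    rw [← κ.lt_iff_lt, apply_inv']; exact hu5)
  rw [lt_min_iff] at hp6
  have hκp2 : κ p2 < u + 1 := by
    have := κ.strictMono hp6.2; rwa [apply_inv'] at this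
  obtain ⟨q1, hq1, hq2, hq3⟩ := Dy_dense (show u < min p1 (κ p1) by
    rw [lt_min_iff]; exact ⟨hp2.1, hκp1⟩)
  rw [lt_min_iff] at hq3
  obtain ⟨q2, hq4, hq5, hq6⟩ := Dy_dense (show max p2 (κ p2) < u + 1 by
    rw [max_lt_iff]; exact ⟨hp6.1, hκp2⟩)
  rw [max_lt_iff] at hq5
  obtain ⟨e0, he0, he01, he02⟩ := interp HH.one_mem hκH hq1 hp1 hq3.1 (by
    rw [one_apply']; exact hq3.2)
  have hp12 : p1 < p2 := hp3.trans hp5
  obtain ⟨e, he, he1, he2⟩ := interp he0 HH.one_mem hp4 hq4 hq5.1 (by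
    rw [one_apply', he02 p2 hp12.le]; exact hq5.2)
  have heGc : e ∈ Gc u (u + 1) := by
    refine ⟨he, q1, q2, hq2, hq6, ?_, ?_⟩
    · intro t ht
      rw [he1 t (by linarith), he01 t ht]; rfl
    · intro t ht
      rw [he2 t ht]; rfl
  have heκ : ∀ t, p1 ≤ t → t ≤ p2 → e t = κ t := by
    intro t h1 h2
    rw [he1 t h2, he02 t h1]
  set κ' := e⁻¹ * κ with hκ'
  have hκ'H : κ' ∈ HH := HH.mul_mem (HH.inv_mem he) hκH
  have hκ'mid : ∀ t, p1 ≤ t → t ≤ p2 → κ' t = t := by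
    intro t h1 h2
    rw [hκ', mul_apply', ← heκ t h1 h2, inv_apply']
  have hκ'low : ∀ t, t ≤ min a' q1 → κ' t = t := by
    intro t ht
    rw [le_min_iff] at ht
    rw [hκ', mul_apply', hκ1 t ht.1]
    have : e t = t := by rw [he1 t (by linarith), he01 t ht.2]; rfl
    conv_lhs => rw [← this]
    rw [inv_apply']
  have hκ'high : ∀ t, max b' q2 ≤ t → κ' t = t := by
    intro t ht
    rw [max_le_iff] at ht
    rw [hκ', mul_apply', hκ2 t ht.1]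
    have : e t = t := by rw [he2 t ht.2]; rfl
    conv_lhs => rw [← this]
    rw [inv_apply']
  have hs1fix : κ' (s + 1) = s + 1 := hκ'mid _ hp3.le hp5.le
  set κl := glue κ' 1 (s + 1) (by rw [hs1fix]; rfl) with hκl
  set κr := glue 1 κ' (s + 1) (by rw [hs1fix]; rfl) with hκr
  have hprod : κ' = κl * κr := by
    ext t
    show κ' t = κl (κr t)
    rcases le_total t (s + 1) with ht | ht
    · rw [hκr, glue_le ht, one_apply', hκl, glue_le ht]
    · rw [hκr, glue_ge ht]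
      have : s + 1 ≤ κ' t := by
        have := κ'.monotone ht; rwa [hs1fix] at this
      rw [hκl, glue_ge this, one_apply']
  have hl : κl ∈ Gc s (s + 1) := by
    refine ⟨glue_mem_HH hκ'H HH.one_mem hs1, min a' q1, p1, ?_, hp3, ?_, ?_⟩
    · rw [lt_min_iff]; exact ⟨ha', by linarith⟩
    · intro t ht
      have h1 : t ≤ s + 1 := by
        have := (le_min_iff.1 ht).2; linarith [hq3.1]
      rw [hκl, glue_le h1, hκ'low t ht]
    · intro t ht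
      rcases le_total t (s + 1) with h1 | h1
      · rw [hκl, glue_le h1, hκ'mid t ht (by linarith)]
      · rw [hκl, glue_ge h1]; rfl
  have hr : κr ∈ Gc (s + 1) (s + 1 + 1) := by
    refine ⟨glue_mem_HH HH.one_mem hκ'H hs1, p2, max b' q2, hp5, ?_, ?_, ?_⟩
    · rw [max_lt_iff]; exact ⟨by linarith, by linarith⟩
    · intro t ht
      rcases le_total t (s + 1) with h1 | h1
      · rw [hκr, glue_le h1]; rfl
      · rw [hκr, glue_ge h1, hκ'mid t (by linarith) ht]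
    · intro t ht
      have h1 : s + 1 ≤ t := by
        have := (max_le_iff.1 ht).2; linarith [hq5.1]
      rw [hκr, glue_ge h1, hκ'high t ht]
  have i1 : InE a (s - (C2 + 1)) (s + (C2 + 1)) κl :=
    (hone s _ hl).mono (by linarith) (by linarith)
  have i2 : InE a (s - (C2 + 1)) (s + (C2 + 1)) κr :=
    (hone (s + 1) _ hr).mono (by linarith) (by linarith)
  have i3 : InE a (s - C3) (s + C3) e :=
    (hone u _ heGc).mono (by linarith) (by linarith)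
  have i4 := h3 s _ (Gc_mono le_rfl (by linarith) hl) _ (Gc_mono (by linarith) (by linarith) hr)
    i1 i2
  rw [← hprod] at i4
  have hκ'm : κ' ∈ Gc s (s + 2) := by
    rw [hprod]
    exact Subgroup.mul_mem _ (Gc_mono le_rfl (by linarith) hl)
      (Gc_mono (by linarith) (by linarith) hr)
  have i5 := h4 s e (Gc_mono (by linarith) (by linarith) heGc) κ' hκ'm i3 i4
  rwa [hκ', mul_inv_cancel_left] at i5

/-- The case `a = 1`. -/
theorem InE.all_one : ∃ C, 2 ≤ C ∧ ∀ s ∈ Dy, ∀ κ ∈ Gc s (s + 2), InE 1 (s - C) (s + C) κ := by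
  refine InE.all (a := 1) (C₀ := 2) Dy.one_mem le_rfl ?_
  intro s z hz
  refine ⟨1, Subgroup.one_mem _, z, Gc_mono (by linarith) (by linarith) hz, InE.contract ?_⟩
  rw [sh_one]; group

end Pool.Agent.Lib_helper30
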