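import Pool.Agent.Lib_helper30.PL

set_option autoImplicit false

namespace Pool.Agent.Lib_helper30

open Filter Topology Set

/-- The doubling map: identity on `(-∞,0]`, `t ↦ 2t` on `[0,1]`, `t ↦ t+1` on `[1,∞)`. -/
noncomputable def dbl : ℝ ≃o ℝ :=
  glue (glue 1 (sc 1) 0 (by rw [one_apply', sc_apply, mul_zero])) (tr 1) 1 (by
    rw [glue_ge (by norm_num), sc_apply, tr_apply]
    norm_num)

lemma dbl_le {t : ℝ} (ht : t ≤ 0) : dbl t = t := by
  unfold dbl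
  rw [glue_le (by linarith), glue_le ht]
  rfl

lemma dbl_mid {t : ℝ} (h0 : 0 ≤ t) (h1 : t ≤ 1) : dbl t = 2 * t := by
  unfold dbl
  rw [glue_le h1, glue_ge h0]
  simp

lemma dbl_ge {t : ℝ} (ht : 1 ≤ t) : dbl t = t + 1 := by
  unfold dbl
  rw [glue_ge ht]
  simp

lemma one_mem_HH : (1 : ℝ ≃o ℝ) ∈ HH := HH.one_mem

lemma dbl_mem_HH : dbl ∈ HH :=
  glue_mem_HH (glue_mem_HH HH.one_mem (sc_mem_HH 1) Dy.zero_mem) (tr_mem_HH Dy.one_mem) Dy.one_mem

lemma dbl_pow_le (n : ℕ) {t : ℝ} (ht : t ≤ 0) : (dbl ^ n) t = t := by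
  induction n with
  | zero => rfl
  | succ n ih => rw [pow_succ', mul_apply', ih, dbl_le ht]

lemma dbl_pow_ge (n : ℕ) {t : ℝ} (ht : 1 ≤ t) : (dbl ^ n) t = t + n := by
  induction n with
  | zero => simp
  | succ n ih =>
    rw [pow_succ', mul_apply', ih, dbl_ge (by have : (0:ℝ) ≤ n := by positivity
                                              linarith)]
    push_cast; ring

/-- Basic extension lemma. -/
lemma ext_basic {a b c d : ℝ} (ha : a ∈ Dy) (hb : b ∈ Dy) (hc : c ∈ Dy) (hd : d ∈ Dy)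
    (hab : a < b) (hcd : c < d) :
    ∃ f ∈ HH, (∀ t, t ≤ a → f t = t + (c - a)) ∧ (∀ t, b ≤ t → f t = t + (d - b)) := by
  -- first the expanding case
  have key : ∀ (a b c d : ℝ), a ∈ Dy → b ∈ Dy → c ∈ Dy → d ∈ Dy → a < b → c < d →
      b - a ≤ d - c →
      ∃ f ∈ HH, (∀ t, t ≤ a → f t = t + (c - a)) ∧ (∀ t, b ≤ t → f t = t + (d - b)) := by
    intro a b c d ha hb hc hd hab hcd hle
    obtain ⟨n, x, hx⟩ := Dy.sub_mem hb ha
    obtain ⟨m, y, hy⟩ := Dy.sub_mem hd hc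
    set s := n + m with hs
    have hk1 : (b - a) * 2 ^ s = ((x * 2 ^ m : ℤ) : ℝ) := by
      push_cast; rw [← hx, hs, pow_add]; ring
    have hk2 : (d - c) * 2 ^ s = ((y * 2 ^ n : ℤ) : ℝ) := by
      push_cast; rw [← hy, hs, pow_add]; ring
    set k1 := x * 2 ^ m
    set k2 := y * 2 ^ n
    have h2 : (0 : ℝ) < 2 ^ s := by positivity
    have hk1pos : 1 ≤ k1 := by
      have : (0 : ℝ) < (k1 : ℝ) := by rw [← hk1]; exact mul_pos (sub_pos.2 hab) h2
      have : 0 < k1 := by exact_mod_cast this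
      omega
    have hk12 : k1 ≤ k2 := by
      have : (k1 : ℝ) ≤ (k2 : ℝ) := by
        rw [← hk1, ← hk2]; exact mul_le_mul_of_nonneg_right hle h2.le
      exact_mod_cast this
    obtain ⟨j, hj⟩ := Int.eq_ofNat_of_zero_le (sub_nonneg.2 hk12)
    refine ⟨tr c * sc (-s) * dbl ^ j * sc s * tr (-a), ?_, ?_, ?_⟩
    · exact HH.mul_mem (HH.mul_mem (HH.mul_mem (HH.mul_mem (tr_mem_HH hc) (sc_mem_HH _))
        (HH.pow_mem dbl_mem_HH j)) (sc_mem_HH _)) (tr_mem_HH (Dy.neg_mem ha))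
    · intro t ht
      simp only [mul_apply', tr_apply, sc_apply]
      rw [dbl_pow_le]
      · rw [zpow_neg, zpow_natCast]
        field_simp
        ring
      · rw [zpow_natCast]
        exact mul_nonpos_of_nonneg_of_nonpos h2.le (by linarith)
    · intro t ht
      simp only [mul_apply', tr_apply, sc_apply]
      rw [dbl_pow_ge]
      · have hj' : (j : ℝ) = k2 - k1 := by
          have := congrArg (fun z : ℤ => (z : ℝ)) hj
          simp only [Int.cast_sub, Int.cast_natCast] at this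
          exact this.symm
        rw [hj', ← hk1, ← hk2, zpow_neg, zpow_natCast]
        field_simp
        ring
      · rw [zpow_natCast]
        have h3 : (1 : ℝ) ≤ k1 := by exact_mod_cast hk1pos
        rw [← hk1] at h3
        nlinarith
  rcases le_total (b - a) (d - c) with h | h
  · exact key a b c d ha hb hc hd hab hcd h
  · obtain ⟨f, hf, hf1, hf2⟩ := key c d a b hc hd ha hb hcd hab h
    refine ⟨f⁻¹, HH.inv_mem hf, ?_, ?_⟩
    · intro t ht
      have : f (t + (c - a)) = t := by rw [hf1 _ (by linarith)]; ring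
      rw [← this, inv_apply', this]
    · intro t ht
      have : f (t + (d - b)) = t := by rw [hf2 _ (by linarith)]; ring
      rw [← this, inv_apply', this]

/-- Interpolation between two elements of `HH`. -/
lemma interp {f₁ f₂ : ℝ ≃o ℝ} (h₁ : f₁ ∈ HH) (h₂ : f₂ ∈ HH) {a b : ℝ} (ha : a ∈ Dy) (hb : b ∈ Dy)
    (hab : a < b) (h : f₁ a < f₂ b) :
    ∃ f ∈ HH, (∀ t, t ≤ a → f t = f₁ t) ∧ (∀ t, b ≤ t → f t = f₂ t) := by
  obtain ⟨e, he, he1, he2⟩ := ext_basic ha hb ((PL2.dy_iff h₁ a).2 ha) ((PL2.dy_iff h₂ b).2 hb)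
    hab h
  have hea : f₁ a = e a := by rw [he1 a le_rfl]; ring
  have heb : (glue f₁ e a hea) b = f₂ b := by rw [glue_ge hab.le, he2 b le_rfl]; ring
  refine ⟨glue (glue f₁ e a hea) f₂ b heb, glue_mem_HH (glue_mem_HH h₁ he ha) h₂ hb, ?_, ?_⟩
  · intro t ht
    rw [glue_le (ht.trans hab.le), glue_le ht]
  · intro t ht
    rw [glue_ge ht]

/-- The group of elements of `HH` which are integer translations near both ends. -/
def GG : Subgroup (ℝ ≃o ℝ) where
  carrier := {f | f ∈ HH ∧ (∃ p : ℤ, ∀ᶠ t in atBot, f t = t + p) ∧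
    (∃ q : ℤ, ∀ᶠ t in atTop, f t = t + q)}
  mul_mem' := by
    rintro f g ⟨hf, ⟨p, hp⟩, ⟨q, hq⟩⟩ ⟨hg, ⟨p', hp'⟩, ⟨q', hq'⟩⟩
    refine ⟨HH.mul_mem hf hg, ⟨p + p', ?_⟩, ⟨q + q', ?_⟩⟩
    · filter_upwards [hp', (g.tendsto_atBot).eventually hp] with t h1 h2
      rw [mul_apply', h2, h1]; push_cast; ring
    · filter_upwards [hq', (g.tendsto_atTop).eventually hq] with t h1 h2
      rw [mul_apply', h2, h1]; push_cast; ring
  one_mem' := ⟨HH.one_mem, ⟨0, by simp⟩, ⟨0, by simp⟩⟩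
  inv_mem' := by
    rintro f ⟨hf, ⟨p, hp⟩, ⟨q, hq⟩⟩
    refine ⟨HH.inv_mem hf, ⟨-p, ?_⟩, ⟨-q, ?_⟩⟩
    · filter_upwards [(f⁻¹.tendsto_atBot).eventually hp] with t h1
      rw [apply_inv'] at h1; push_cast; linarith
    · filter_upwards [(f⁻¹.tendsto_atTop).eventually hq] with t h1
      rw [apply_inv'] at h1; push_cast; linarith

lemma GG_le_HH : GG ≤ HH := fun _ h => h.1

/-- Elements of `HH` supported in a compact subset of the open interval `(a,b)`. -/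
def Gc (a b : ℝ) : Subgroup (ℝ ≃o ℝ) where
  carrier := {f | f ∈ HH ∧ ∃ a' b' : ℝ, a < a' ∧ b' < b ∧
    (∀ t, t ≤ a' → f t = t) ∧ (∀ t, b' ≤ t → f t = t)}
  mul_mem' := by
    rintro f g ⟨hf, a1, b1, h1, h3, h4, h5⟩ ⟨hg, a2, b2, k1, k3, k4, k5⟩
    refine ⟨HH.mul_mem hf hg, min a1 a2, max b1 b2, lt_min h1 k1, max_lt h3 k3, ?_, ?_⟩
    · intro t ht
      rw [mul_apply', k4 t (ht.trans (min_le_right _ _)), h4 t (ht.trans (min_le_left _ _))]
    · intro t ht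
      rw [mul_apply', k5 t ((le_max_right _ _).trans ht), h5 t ((le_max_left _ _).trans ht)]
  one_mem' := ⟨HH.one_mem, a + 1, b - 1, by linarith, by linarith, fun _ _ => rfl, fun _ _ => rfl⟩
  inv_mem' := by
    rintro f ⟨hf, a1, b1, h1, h3, h4, h5⟩
    refine ⟨HH.inv_mem hf, a1, b1, h1, h3, ?_, ?_⟩
    · intro t ht
      have := h4 t ht
      rw [← this, inv_apply', this]
    · intro t ht
      have := h5 t ht
      rw [← this, inv_apply', this]

lemma Gc_le_HH (a b : ℝ) : Gc a b ≤ HH := fun _ h => h.1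

lemma Gc_le_GG (a b : ℝ) : Gc a b ≤ GG := by
  rintro f ⟨hf, a1, b1, _, _, h4, h5⟩
  refine ⟨hf, ⟨0, ?_⟩, ⟨0, ?_⟩⟩
  · filter_upwards [eventually_le_atBot a1] with t ht
    rw [h4 t ht]; simp
  · filter_upwards [eventually_ge_atTop b1] with t ht
    rw [h5 t ht]; simp

lemma Gc_mono {a b c d : ℝ} (h1 : c ≤ a) (h2 : b ≤ d) : Gc a b ≤ Gc c d := by
  rintro f ⟨hf, a1, b1, k1, k2, h4, h5⟩
  exact ⟨hf, a1, b1, h1.trans_lt k1, k2.trans_le h2, h4, h5⟩

lemma Gc_le_apply {a b : ℝ} {f : ℝ ≃o ℝ} (hf : f ∈ Gc a b) {t : ℝ} (ht : t ≤ a) : f t = t := by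
  obtain ⟨_, a1, b1, k1, k2, h4, h5⟩ := hf
  exact h4 t (ht.trans k1.le)

lemma Gc_ge_apply {a b : ℝ} {f : ℝ ≃o ℝ} (hf : f ∈ Gc a b) {t : ℝ} (ht : b ≤ t) : f t = t := by
  obtain ⟨_, a1, b1, k1, k2, h4, h5⟩ := hf
  exact h5 t (k2.le.trans ht)

/-- Two maps with separated supports commute. -/
lemma comm_of_sep {f g : ℝ ≃o ℝ} {p : ℝ} (hf : ∀ t, p ≤ t → f t = t) (hg : ∀ t, t ≤ p → g t = t) :
    f * g = g * f := by
  ext t
  rw [mul_apply', mul_apply']
  rcases le_total t p with ht | ht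
  · rw [hg t ht]
    have : f t ≤ p := by
      have := f.monotone ht
      rwa [hf p le_rfl] at this
    rw [hg _ this]
  · rw [hf t ht]
    have : p ≤ g t := by
      have := g.monotone ht
      rwa [hg p le_rfl] at this
    rw [hf _ this]

lemma Gc_comm {a b c d : ℝ} (h : b ≤ c) {f g : ℝ ≃o ℝ} (hf : f ∈ Gc a b) (hg : g ∈ Gc c d) :
    f * g = g * f :=
  comm_of_sep (p := b) (fun _ ht => Gc_ge_apply hf ht) (fun _ ht => Gc_le_apply hg (ht.trans h))

lemma Gc_conj {a b c d : ℝ} {f g : ℝ ≃o ℝ} (hf : f ∈ Gc a b) (hg : g ∈ HH) (h1 : c ≤ g a)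
    (h2 : g b ≤ d) : g * f * g⁻¹ ∈ Gc c d := by
  obtain ⟨hf, a1, b1, k1, k2, h4, h5⟩ := hf
  refine ⟨HH.mul_mem (HH.mul_mem hg hf) (HH.inv_mem hg), g a1, g b1, ?_, ?_, ?_, ?_⟩
  · exact h1.trans_lt (g.strictMono k1)
  · exact (g.strictMono k2).trans_le h2
  · intro t ht
    rw [mul_apply', mul_apply', h4, apply_inv']
    rw [← g.le_iff_le, apply_inv']; exact ht
  · intro t ht
    rw [mul_apply', mul_apply', h5, apply_inv']
    rw [← g.le_iff_le, apply_inv']; exact ht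

end Pool.Agent.Lib_helper30
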