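import Pool.Agent.Lib_helper30.Glue3

set_option autoImplicit false

namespace Pool.Agent.Lib_helper30

open Filter Topology Set

/-- An element with its two negative truncations. -/
structure TruncN (c φ ψ : ℝ ≃o ℝ) (s : ℝ) : Prop where
  he : c ∈ GG
  hL : φ ∈ GG
  hR : ψ ∈ GG
  hσ : s ∈ Dy
  agL : ∀ t, t ≤ s → φ t = c t
  pL : ∀ t, s ≤ t → φ t < t
  agR : ∀ t, s ≤ t → ψ t = c t
  pR : ∀ t, t ≤ s → ψ t < t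

lemma TruncN.inv {c φ ψ : ℝ ≃o ℝ} {s : ℝ} (h : TruncN c φ ψ s) : Trunc c⁻¹ φ⁻¹ ψ⁻¹ (c s) := by
  have hcs : c s < s := by rw [← h.agL s le_rfl]; exact h.pL s le_rfl
  refine ⟨GG.inv_mem h.he, GG.inv_mem h.hL, GG.inv_mem h.hR, (PL2.dy_iff h.he.1 s).2 h.hσ, ?_, ?_, ?_, ?_⟩
  · intro t ht
    obtain ⟨r, rfl⟩ := c.surjective t
    have hr : r ≤ s := c.le_iff_le.1 ht
    rw [inv_apply', ← h.agL r hr, inv_apply']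
  · intro t ht
    rw [lt_inv_iff']
    rcases le_total s t with h1 | h1
    · exact h.pL t h1
    · rcases ht.lt_or_eq with h2 | h2
      · refine lt_of_le_of_lt ?_ h2
        rw [h.agL t h1]; exact c.monotone h1
      · rw [← h2, h.agL _ hcs.le]
        exact c.strictMono hcs
  · intro t ht
    obtain ⟨r, rfl⟩ := c.surjective t
    have hr : s ≤ r := c.le_iff_le.1 ht
    rw [inv_apply', ← h.agR r hr, inv_apply']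
  · intro t ht
    rw [lt_inv_iff']
    exact h.pR t (ht.trans hcs.le)

lemma exists_trunc {c : ℝ ≃o ℝ} (hc : c ∈ GG) {s : ℝ} (hs : s ∈ Dy) (h : s < c s) :
    ∃ φ ψ, Trunc c φ ψ s := by
  obtain ⟨φ, hφ, hφ1, hφ2⟩ := exists_trunc_pos hc hs h
  obtain ⟨ψ, hψ, hψ1, hψ2⟩ := exists_trunc_neg (rf_mem_GG hc) (Dy.neg_mem hs) (by
    rw [rf_apply, neg_neg]; linarith)
  refine ⟨φ, rf ψ, hc, hφ, rf_mem_GG hψ, hs, hφ1, hφ2, ?_, ?_⟩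
  · intro t ht
    rw [rf_apply, hψ1 (-t) (by linarith), rf_apply, neg_neg, neg_neg]
  · intro t ht
    rw [rf_apply]
    have := hψ2 (-t) (by linarith)
    linarith

lemma exists_truncN {c : ℝ ≃o ℝ} (hc : c ∈ GG) {s : ℝ} (hs : s ∈ Dy) (h : c s < s) :
    ∃ φ ψ, TruncN c φ ψ s := by
  obtain ⟨φ, hφ, hφ1, hφ2⟩ := exists_trunc_neg hc hs h
  obtain ⟨ψ, hψ, hψ1, hψ2⟩ := exists_trunc_pos (rf_mem_GG hc) (Dy.neg_mem hs) (by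
    rw [rf_apply, neg_neg]; linarith)
  refine ⟨φ, rf ψ, hc, hφ, rf_mem_GG hψ, hs, hφ1, hφ2, ?_, ?_⟩
  · intro t ht
    rw [rf_apply, hψ1 (-t) (by linarith), rf_apply, neg_neg, neg_neg]
  · intro t ht
    rw [rf_apply]
    have := hψ2 (-t) (by linarith)
    linarith

/-- Conjugacy in `GG`. -/
def GC (c c' : ℝ ≃o ℝ) : Prop := ∃ g ∈ GG, c' = g * c * g⁻¹

lemma GC.refl (c : ℝ ≃o ℝ) : GC c c := ⟨1, GG.one_mem, by group⟩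

lemma GC.symm {c c' : ℝ ≃o ℝ} (h : GC c c') : GC c' c := by
  obtain ⟨g, hg, rfl⟩ := h
  exact ⟨g⁻¹, GG.inv_mem hg, by group⟩

lemma GC.trans {a b c : ℝ ≃o ℝ} (h : GC a b) (h' : GC b c) : GC a c := by
  obtain ⟨g, hg, rfl⟩ := h
  obtain ⟨k, hk, rfl⟩ := h'
  exact ⟨k * g, GG.mul_mem hk hg, by group⟩

lemma GC.inv {c c' : ℝ ≃o ℝ} (h : GC c c') : GC c⁻¹ c'⁻¹ := by
  obtain ⟨g, hg, rfl⟩ := h
  exact ⟨g, hg, by group⟩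

lemma GC.conj {c c' : ℝ ≃o ℝ} (h : GC c c') {g : ℝ ≃o ℝ} (hg : g ∈ GG) : GC c (g * c' * g⁻¹) :=
  h.trans ⟨g, hg, rfl⟩

lemma GC.mem {c c' : ℝ ≃o ℝ} (h : GC c c') (hc : c ∈ GG) : c' ∈ GG := by
  obtain ⟨g, hg, rfl⟩ := h
  exact GG.mul_mem (GG.mul_mem hg hc) (GG.inv_mem hg)

/-- Some conjugates of three elements have product one. -/
def Sv3 (c₁ c₂ c₃ : ℝ ≃o ℝ) : Prop :=
  ∃ d₁ d₂ d₃, GC c₁ d₁ ∧ GC c₂ d₂ ∧ GC c₃ d₃ ∧ d₁ * d₂ * d₃ = 1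

lemma Sv3.rot {c₁ c₂ c₃ : ℝ ≃o ℝ} (h : Sv3 c₁ c₂ c₃) : Sv3 c₂ c₃ c₁ := by
  obtain ⟨d₁, d₂, d₃, h1, h2, h3, h⟩ := h
  refine ⟨d₂, d₃, d₁, h2, h3, h1, ?_⟩
  calc d₂ * d₃ * d₁ = d₁⁻¹ * (d₁ * d₂ * d₃) * d₁ := by group
    _ = 1 := by rw [h]; group

lemma Sv3.swap {c₁ c₂ c₃ : ℝ ≃o ℝ} (hc : c₂ ∈ GG) (h : Sv3 c₁ c₂ c₃) : Sv3 c₂ c₁ c₃ := by
  obtain ⟨d₁, d₂, d₃, h1, h2, h3, h⟩ := h
  refine ⟨d₂, d₂⁻¹ * d₁ * d₂⁻¹⁻¹, d₃, h2, h1.conj (GG.inv_mem (h2.mem hc)), h3, ?_⟩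
  rw [← h]; group

lemma Sv3.invs {c₁ c₂ c₃ : ℝ ≃o ℝ} (h : Sv3 c₁ c₂ c₃) : Sv3 c₃⁻¹ c₂⁻¹ c₁⁻¹ := by
  obtain ⟨d₁, d₂, d₃, h1, h2, h3, h⟩ := h
  refine ⟨d₃⁻¹, d₂⁻¹, d₁⁻¹, h3.inv, h2.inv, h1.inv, ?_⟩
  calc d₃⁻¹ * d₂⁻¹ * d₁⁻¹ = (d₁ * d₂ * d₃)⁻¹ := by group
    _ = 1 := by rw [h]; group

/-- The gluing theorem for half solutions. -/
theorem sv3_of_halves {c₁ c₂ c₃ φ₁ φ₂ φ₃ ψ₁ ψ₂ ψ₃ : ℝ ≃o ℝ} {s₁ s₂ s₃ : ℝ}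
    (h₁ : TruncN c₁ φ₁ ψ₁ s₁) (h₂ : TruncN c₂ φ₂ ψ₂ s₂) (h₃ : Trunc c₃ φ₃ ψ₃ s₃)
    (hL : St φ₁ φ₂ φ₃) (hR : RSt ψ₁ ψ₂ ψ₃) : Sv3 c₁ c₂ c₃ := by
  obtain ⟨F₁, hF₁, F₂, hF₂, F₃, hF₃, k₁, k₂, k₃, hF⟩ := hL
  obtain ⟨R₁, hR₁, R₂, hR₂, R₃, hR₃, l₁, l₂, l₃, hR⟩ := hR
  have e1 : F₃ = F₂⁻¹ * F₁⁻¹ := by
    calc F₃ = F₂⁻¹ * F₁⁻¹ * (F₁ * F₂ * F₃) := by group
      _ = _ := by rw [hF, mul_one]
  have e2 : R₃ = R₂⁻¹ * R₁⁻¹ := by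
    calc R₃ = R₂⁻¹ * R₁⁻¹ * (R₁ * R₂ * R₃) := by group
      _ = _ := by rw [hR, mul_one]
  obtain ⟨g₁, hg₁, g₂, hg₂, g₃, hg₃, h⟩ := glue_three h₁.inv h₂.inv h₃ k₁.inv k₂.inv
    (e1 ▸ k₃) l₁.inv l₂.inv (e2 ▸ l₃) (HH.inv_mem hF₁.1) (HH.inv_mem hR₁.1)
  refine ⟨g₁ * c₁ * g₁⁻¹, g₂ * c₂ * g₂⁻¹, g₃ * c₃ * g₃⁻¹, ⟨g₁, hg₁, rfl⟩, ⟨g₂, hg₂, rfl⟩,
    ⟨g₃, hg₃, rfl⟩, ?_⟩
  rw [← h]; group

lemma EndBot.congr {f g : ℝ ≃o ℝ} {b : ℤ} {s : ℝ} (h : EndBot f b) (hs : ∀ t, t ≤ s → g t = f t) :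
    EndBot g b := by
  unfold EndBot at *
  filter_upwards [h, eventually_le_atBot s] with t h1 h2
  rw [hs t h2, h1]

lemma EndTop.congr {f g : ℝ ≃o ℝ} {b : ℤ} {s : ℝ} (h : EndTop f b) (hs : ∀ t, s ≤ t → g t = f t) :
    EndTop g b := by
  unfold EndTop at *
  filter_upwards [h, eventually_ge_atTop s] with t h1 h2
  rw [hs t h2, h1]

/-- The basic solvability theorem for three elements, first form. -/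
theorem fb_three_aux {c₁ c₂ c₃ : ℝ ≃o ℝ} (h₁ : c₁ ∈ GG) (h₂ : c₂ ∈ GG) (h₃ : c₃ ∈ GG)
    {b₁ b₂ b₃ p₁ p₂ p₃ : ℤ} (kb₁ : EndBot c₁ b₁) (kb₂ : EndBot c₂ b₂) (kb₃ : EndBot c₃ b₃)
    (kt₁ : EndTop c₁ p₁) (kt₂ : EndTop c₂ p₂) (kt₃ : EndTop c₃ p₃)
    (hb : b₁ + b₂ + b₃ = 0) (hp : p₁ + p₂ + p₃ = 0) (hb0 : b₁ ≠ 0 ∨ b₂ ≠ 0 ∨ b₃ ≠ 0)
    (hp0 : p₁ ≠ 0 ∨ p₂ ≠ 0 ∨ p₃ ≠ 0) (n₁ : ∃ t ∈ Dy, c₁ t < t) (q₃ : ∃ t ∈ Dy, t < c₃ t)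
    {s₂ r₂ : ℝ} (hs₂ : s₂ ∈ Dy) (hr₂ : r₂ ∈ Dy) (hs₂n : c₂ s₂ < s₂) (hr₂p : r₂ < c₂ r₂)
    (hsr : s₂ < r₂) : Sv3 c₁ c₂ c₃ := by
  -- choice of `s₃`
  obtain ⟨s₃, hs₃, hs₃p, hs₃b⟩ : ∃ s₃ ∈ Dy, s₃ < c₃ s₃ ∧ (0 < b₃ → ∀ t, t ≤ s₃ → c₃ t = t + b₃) := by
    by_cases hb3 : 0 < b₃
    · obtain ⟨x, hx⟩ := eventually_atBot.1 kb₃
      obtain ⟨n, hn⟩ := exists_nat_gt (-x)
      have hbr : (0 : ℝ) < b₃ := by exact_mod_cast hb3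
      refine ⟨-(n : ℝ), Dy.neg_mem (Dy_nat n), ?_, fun _ t ht => hx t (by linarith)⟩
      rw [hx _ (by linarith)]; linarith
    · obtain ⟨t, ht, ht'⟩ := q₃
      exact ⟨t, ht, ht', fun h => absurd h hb3⟩
  obtain ⟨s₁, hs₁, hs₁p, hs₁b⟩ : ∃ s₁ ∈ Dy, c₁ s₁ < s₁ ∧ (p₁ < 0 → ∀ t, s₁ ≤ t → c₁ t = t + p₁) := by
    by_cases hb3 : p₁ < 0
    · obtain ⟨x, hx⟩ := eventually_atTop.1 kt₁
      obtain ⟨n, hn⟩ := exists_nat_gt x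
      have hbr : (p₁ : ℝ) < 0 := by exact_mod_cast hb3
      refine ⟨(n : ℝ), Dy_nat n, ?_, fun _ t ht => hx t (by linarith)⟩
      rw [hx _ (by linarith)]; linarith
    · obtain ⟨t, ht, ht'⟩ := n₁
      exact ⟨t, ht, ht', fun h => absurd h hb3⟩
  obtain ⟨φ₁, ψ₁, T₁⟩ := exists_truncN h₁ hs₁ hs₁p
  obtain ⟨φ₂, ψ₂, T₂⟩ := exists_truncN h₂ hs₂ hs₂n
  obtain ⟨φ₃, ψ₃, T₃⟩ := exists_trunc h₃ hs₃ hs₃p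
  obtain ⟨φ₂', ψ₂', T₂'⟩ := exists_trunc h₂ hr₂ hr₂p
  refine sv3_of_halves T₁ T₂ T₃ ?_ ?_
  · -- left half
    refine past_half T₁.hL T₂.hL T₃.hL (kb₁.congr T₁.agL) (kb₂.congr T₂.agL) (kb₃.congr T₃.agL) hb hb0
      ?_ ?_ ?_ ?_
    · exact eventually_atTop.2 ⟨s₁, T₁.pL⟩
    · exact eventually_atTop.2 ⟨s₂, T₂.pL⟩
    · exact eventually_atTop.2 ⟨s₃, T₃.pL⟩
    · intro hb3 t
      have hbr : (0 : ℝ) < b₃ := by exact_mod_cast hb3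
      rcases le_total s₃ t with h | h
      · exact T₃.pL t h
      · rw [T₃.agL t h, hs₃b hb3 t h]; linarith
  · -- right half
    apply St.rf
    have S : St (rf ψ₂') (rf ψ₃) (rf ψ₁) := by
      refine past_half (rf_mem_GG T₂'.hR) (rf_mem_GG T₃.hR) (rf_mem_GG T₁.hR)
        (kt₂.congr T₂'.agR).rf (kt₃.congr T₃.agR).rf (kt₁.congr T₁.agR).rf (by omega) (by omega)
        ?_ ?_ ?_ ?_
      · refine eventually_atTop.2 ⟨-r₂, fun t ht => ?_⟩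
        rw [rf_apply]; have := T₂'.pR (-t) (by linarith); linarith
      · refine eventually_atTop.2 ⟨-s₃, fun t ht => ?_⟩
        rw [rf_apply]; have := T₃.pR (-t) (by linarith); linarith
      · refine eventually_atTop.2 ⟨-s₁, fun t ht => ?_⟩
        rw [rf_apply]; have := T₁.pR (-t) (by linarith); linarith
      · intro h t
        have hbr : (p₁ : ℝ) < 0 := by have : p₁ < 0 := by omega
                                      exact_mod_cast this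
        rw [rf_apply]
        rcases le_total s₁ (-t) with h1 | h1
        · rw [T₁.agR _ h1, hs₁b (by omega) _ h1]; linarith
        · have := T₁.pR (-t) h1; linarith
    have S2 : St (rf ψ₂) (rf ψ₃) (rf ψ₁) := by
      refine S.left (rf_mem_GG T₂'.hR) (rf_mem_GG T₂.hR) ?_ ?_
      · refine ⟨-r₂, Dy.neg_mem hr₂, ?_, Or.inr (Or.inl ?_)⟩
        · intro t ht
          rw [rf_apply, rf_apply, T₂'.agR (-t) (by linarith), T₂.agR (-t) (by linarith)]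
        · intro t ht
          rw [rf_apply]; have := T₂'.pR (-t) (by linarith); linarith
      · right
        constructor
        · refine eventually_atTop.2 ⟨-s₃, fun t ht => ?_⟩
          rw [rf_apply]; have := T₃.pR (-t) (by linarith); linarith
        · refine eventually_atTop.2 ⟨-s₁, fun t ht => ?_⟩
          rw [rf_apply]; have := T₁.pR (-t) (by linarith); linarith
    exact S2.rot.rot

/-- The basic solvability theorem for three elements. -/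
theorem fb_three {c₁ c₂ c₃ : ℝ ≃o ℝ} (h₁ : c₁ ∈ GG) (h₂ : c₂ ∈ GG) (h₃ : c₃ ∈ GG)
    {b₁ b₂ b₃ p₁ p₂ p₃ : ℤ} (kb₁ : EndBot c₁ b₁) (kb₂ : EndBot c₂ b₂) (kb₃ : EndBot c₃ b₃)
    (kt₁ : EndTop c₁ p₁) (kt₂ : EndTop c₂ p₂) (kt₃ : EndTop c₃ p₃)
    (hb : b₁ + b₂ + b₃ = 0) (hp : p₁ + p₂ + p₃ = 0) (hb0 : b₁ ≠ 0 ∨ b₂ ≠ 0 ∨ b₃ ≠ 0)
    (hp0 : p₁ ≠ 0 ∨ p₂ ≠ 0 ∨ p₃ ≠ 0) (n₁ : ∃ t ∈ Dy, c₁ t < t) (n₂ : ∃ t ∈ Dy, c₂ t < t)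
    (q₂ : ∃ t ∈ Dy, t < c₂ t) (q₃ : ∃ t ∈ Dy, t < c₃ t) : Sv3 c₁ c₂ c₃ := by
  obtain ⟨s₂, hs₂, hs₂n⟩ := n₂
  obtain ⟨r₂, hr₂, hr₂p⟩ := q₂
  rcases lt_trichotomy s₂ r₂ with h | h | h
  · exact fb_three_aux h₁ h₂ h₃ kb₁ kb₂ kb₃ kt₁ kt₂ kt₃ hb hp hb0 hp0 n₁ q₃ hs₂ hr₂ hs₂n hr₂p h
  · rw [h] at hs₂n; exact absurd hs₂n (not_lt.2 hr₂p.le)
  · have := fb_three_aux (GG.inv_mem h₃) (GG.inv_mem h₂) (GG.inv_mem h₁) kb₃.inv kb₂.inv kb₁.inv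
      kt₃.inv kt₂.inv kt₁.inv (by omega) (by omega) (by omega) (by omega) (by
        obtain ⟨t, ht, ht'⟩ := q₃
        exact ⟨t, ht, inv_lt_iff'.2 ht'⟩) (by
        obtain ⟨t, ht, ht'⟩ := n₁
        exact ⟨t, ht, lt_inv_iff'.2 ht'⟩) hr₂ hs₂ (inv_lt_iff'.2 hr₂p) (lt_inv_iff'.2 hs₂n) h
    simpa using this.invs

/-- Solvability when the third element is everywhere positive. -/
theorem fb_bump {c₁ c₂ c₃ : ℝ ≃o ℝ} (h₁ : c₁ ∈ GG) (h₂ : c₂ ∈ GG) (h₃ : c₃ ∈ GG)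
    {b₁ b₂ b₃ p₁ p₂ p₃ : ℤ} (kb₁ : EndBot c₁ b₁) (kb₂ : EndBot c₂ b₂) (kb₃ : EndBot c₃ b₃)
    (kt₁ : EndTop c₁ p₁) (kt₂ : EndTop c₂ p₂) (kt₃ : EndTop c₃ p₃)
    (hb : b₁ + b₂ + b₃ = 0) (hp : p₁ + p₂ + p₃ = 0) (n₁ : ∃ t ∈ Dy, c₁ t < t)
    (n₂ : ∃ t ∈ Dy, c₂ t < t) (q₃ : ∀ t, t < c₃ t) : Sv3 c₁ c₂ c₃ := by
  obtain ⟨s₁, hs₁, hs₁n⟩ := n₁
  obtain ⟨s₂, hs₂, hs₂n⟩ := n₂
  obtain ⟨φ₁, ψ₁, T₁⟩ := exists_truncN h₁ hs₁ hs₁n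
  obtain ⟨φ₂, ψ₂, T₂⟩ := exists_truncN h₂ hs₂ hs₂n
  obtain ⟨φ₃, ψ₃, T₃⟩ := exists_trunc h₃ Dy.zero_mem (q₃ 0)
  have hb₃ : 0 < b₃ := by
    obtain ⟨t, ht⟩ := kb₃.exists
    have := q₃ t
    rw [ht] at this
    have h : (0 : ℝ) < b₃ := by linarith
    exact_mod_cast h
  have hp₃ : 0 < p₃ := by
    obtain ⟨t, ht⟩ := kt₃.exists
    have := q₃ t
    rw [ht] at this
    have h : (0 : ℝ) < p₃ := by linarith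
    exact_mod_cast h
  refine sv3_of_halves T₁ T₂ T₃ ?_ ?_
  · refine past_half T₁.hL T₂.hL T₃.hL (kb₁.congr T₁.agL) (kb₂.congr T₂.agL) (kb₃.congr T₃.agL) hb
      (by omega) (eventually_atTop.2 ⟨s₁, T₁.pL⟩) (eventually_atTop.2 ⟨s₂, T₂.pL⟩)
      (eventually_atTop.2 ⟨0, T₃.pL⟩) ?_
    intro _ t
    rcases le_total 0 t with h | h
    · exact T₃.pL t h
    · rw [T₃.agL t h]; exact q₃ t
  · apply St.rf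
    have hE : ∀ {c φ ψ : ℝ ≃o ℝ} {s : ℝ}, TruncN c φ ψ s → EvN (rf ψ)⁻¹ := by
      intro c φ ψ s T
      apply EvP.inv
      refine eventually_atTop.2 ⟨-s, fun t ht => ?_⟩
      rw [rf_apply]; have := T.pR (-t) (by linarith); linarith
    have S : St (rf ψ₁)⁻¹ (rf ψ₂)⁻¹ (rf ψ₃)⁻¹ := by
      refine past_half (GG.inv_mem (rf_mem_GG T₁.hR)) (GG.inv_mem (rf_mem_GG T₂.hR))
        (GG.inv_mem (rf_mem_GG T₃.hR)) (kt₁.congr T₁.agR).rf.inv (kt₂.congr T₂.agR).rf.inv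
        (kt₃.congr T₃.agR).rf.inv (by omega) (by omega) (hE T₁) (hE T₂) ?_ ?_
      · apply EvN.inv
        refine eventually_atTop.2 ⟨0, fun t ht => ?_⟩
        rw [rf_apply]; have := T₃.pR (-t) (by linarith); linarith
      · intro _ t
        rw [lt_inv_iff', rf_apply]
        rcases le_total 0 (-t) with h | h
        · rw [T₃.agR _ h]; have := q₃ (-t); linarith
        · have := T₃.pR _ h; linarith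
    have := S.invs
    rw [inv_inv, inv_inv, inv_inv] at this
    exact this.symm

end Pool.Agent.Lib_helper30
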