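import Pool.Agent.Lib_helper30.Sv

set_option autoImplicit false

namespace Pool.Agent.Lib_helper30

open Filter Topology Set

/-- Number of elements of a list with a property. -/
noncomputable def ct (Q : (ℝ ≃o ℝ) → Prop) (l : List (ℝ ≃o ℝ)) : ℕ := by
  classical exact (l.map (fun c => if Q c then 1 else 0)).sum

lemma ct_nil (Q : (ℝ ≃o ℝ) → Prop) : ct Q [] = 0 := rfl

lemma ct_cons (Q : (ℝ ≃o ℝ) → Prop) (a : ℝ ≃o ℝ) (l : List (ℝ ≃o ℝ)) [Decidable (Q a)] :
    ct Q (a :: l) = (if Q a then 1 else 0) + ct Q l := by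
  unfold ct
  rw [List.map_cons, List.sum_cons]
  congr

lemma ct_perm (Q : (ℝ ≃o ℝ) → Prop) {l l' : List (ℝ ≃o ℝ)} (h : l.Perm l') : ct Q l = ct Q l' := by
  unfold ct
  exact (h.map _).sum_eq

lemma ct_pos {Q : (ℝ ≃o ℝ) → Prop} {l : List (ℝ ≃o ℝ)} : 0 < ct Q l ↔ ∃ c ∈ l, Q c := by
  classical
  induction l with
  | nil => simp [ct_nil]
  | cons a l ih =>
    rw [ct_cons]
    by_cases h : Q a
    · simp [h]
    · simp [h, ih]

/-- A pair is bad for `Q` if merging it may make `Q` too rare. -/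
def Bad (Q : (ℝ ≃o ℝ) → Prop) (l : List (ℝ ≃o ℝ)) (x y : ℝ ≃o ℝ) : Prop :=
  Q x ∧ Q y ∧ ct Q l ≤ 2

/-- Removing a merged pair. -/
lemma ct_merge {Q : (ℝ ≃o ℝ) → Prop} {l : List (ℝ ≃o ℝ)} {x y z : ℝ ≃o ℝ}
    (h2 : 2 ≤ ct Q (x :: y :: l)) (hb : ¬ Bad Q (x :: y :: l) x y) (hz : Q x ∨ Q y → Q z) :
    2 ≤ ct Q (z :: l) := by
  classical
  unfold Bad at hb
  rw [ct_cons, ct_cons] at h2 hb
  rw [ct_cons]
  by_cases hx : Q x
  · have hz' := hz (Or.inl hx)
    by_cases hy : Q y
    · simp only [hx, hy, hz', if_true, true_and] at h2 hb ⊢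
      omega
    · simp only [hx, hy, hz', if_true, if_false] at h2 hb ⊢
      omega
  · by_cases hy : Q y
    · have hz' := hz (Or.inr hy)
      simp only [hx, hy, hz', if_true, if_false] at h2 hb ⊢
      omega
    · simp only [hx, hy, if_false] at h2 hb ⊢
      omega

lemma ct_merge1 {Q : (ℝ ≃o ℝ) → Prop} {l : List (ℝ ≃o ℝ)} {x y z : ℝ ≃o ℝ}
    (h2 : 2 ≤ ct Q (x :: y :: l)) (hb : ¬ Bad Q (x :: y :: l) x y)
    (hz : ¬ (Q x ↔ Q y) → Q z) : 1 ≤ ct Q (z :: l) := by
  classical
  unfold Bad at hb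
  rw [ct_cons, ct_cons] at h2 hb
  rw [ct_cons]
  by_cases hx : Q x
  · by_cases hy : Q y
    · simp only [hx, hy, if_true, true_and] at h2 hb
      omega
    · have hz' := hz (by tauto)
      simp only [hz', if_true]
      omega
  · by_cases hy : Q y
    · have hz' := hz (by tauto)
      simp only [hz', if_true]
      omega
    · simp only [hx, hy, if_false] at h2 hb ⊢
      omega

/-- Among four elements at most one pair is bad for a given property. -/
lemma bad_four (Q : (ℝ ≃o ℝ) → Prop) (a b c d : ℝ ≃o ℝ) (l : List (ℝ ≃o ℝ)) :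
    ∃ e : Fin 6, ∀ f : Fin 6, f ≠ e →
      ¬ (match f with
        | 0 => Bad Q (a :: b :: c :: d :: l) a b
        | 1 => Bad Q (a :: b :: c :: d :: l) a c
        | 2 => Bad Q (a :: b :: c :: d :: l) a d
        | 3 => Bad Q (a :: b :: c :: d :: l) b c
        | 4 => Bad Q (a :: b :: c :: d :: l) b d
        | 5 => Bad Q (a :: b :: c :: d :: l) c d) := by
  classical
  unfold Bad
  have hc : ct Q (a :: b :: c :: d :: l) = (if Q a then 1 else 0) + ((if Q b then 1 else 0) +
    ((if Q c then 1 else 0) + ((if Q d then 1 else 0) + ct Q l))) := by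
    rw [ct_cons, ct_cons, ct_cons, ct_cons]
  rw [hc]
  by_cases ha : Q a <;> by_cases hb : Q b <;> by_cases hc : Q c <;> by_cases hd : Q d <;>
    simp only [ha, hb, hc, hd, if_true, if_false, true_and, false_and, and_false]
  all_goals first
    | (refine ⟨0, ?_⟩; intro f hf; fin_cases f <;> simp at hf ⊢ <;> omega)
    | (refine ⟨1, ?_⟩; intro f hf; fin_cases f <;> simp at hf ⊢ <;> omega)
    | (refine ⟨2, ?_⟩; intro f hf; fin_cases f <;> simp at hf ⊢ <;> omega)
    | (refine ⟨3, ?_⟩; intro f hf; fin_cases f <;> simp at hf ⊢ <;> omega)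
    | (refine ⟨4, ?_⟩; intro f hf; fin_cases f <;> simp at hf ⊢ <;> omega)
    | (refine ⟨5, ?_⟩; intro f hf; fin_cases f <;> simp at hf ⊢ <;> omega)

lemma ct_ne_zero_sum {f : (ℝ ≃o ℝ) → ℤ} (l : List (ℝ ≃o ℝ)) :
    (ct (fun c => f c ≠ 0) l = 0 → (l.map f).sum = 0) ∧
    (ct (fun c => f c ≠ 0) l = 1 → (l.map f).sum ≠ 0) := by
  classical
  induction l with
  | nil => simp [ct_nil]
  | cons a l ih =>
    rw [ct_cons, List.map_cons, List.sum_cons]
    obtain ⟨ih1, ih2⟩ := ih
    by_cases h : f a = 0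
    · simp only [h, ne_eq, not_true_eq_false, if_false, zero_add]
      exact ⟨ih1, ih2⟩
    · simp only [ne_eq, h, not_false_eq_true, if_true]
      constructor
      · intro h1; omega
      · intro h1
        have := ih1 (by simp only [ne_eq]; omega)
        omega

lemma two_of_sum {f : (ℝ ≃o ℝ) → ℤ} {l : List (ℝ ≃o ℝ)} (hs : (l.map f).sum = 0)
    (h1 : 1 ≤ ct (fun c => f c ≠ 0) l) : 2 ≤ ct (fun c => f c ≠ 0) l := by
  by_contra hcon
  have := (ct_ne_zero_sum (f := f) l).2 (by omega)
  exact this hs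

/-- The basic solvability theorem for lists. -/
theorem fb_list (n : ℕ) : ∀ (l : List (ℝ ≃o ℝ)), l.length = n + 3 → (∀ c ∈ l, c ∈ GG) →
    (∀ c ∈ l, c ≠ 1) → (l.map bt).sum = 0 → (l.map tp).sum = 0 → 2 ≤ ct HasP l →
    2 ≤ ct HasN l → 2 ≤ ct (fun c => bt c ≠ 0) l → 2 ≤ ct (fun c => tp c ≠ 0) l → Sv l := by
  classical
  induction n with
  | zero =>
    intro l hlen hG hne hb ht hP hN hb2 ht2
    match l, hlen with
    | [a, b, c], _ =>
      have h3 : ∀ x y z, [x, y, z].Perm [a, b, c] → HasN x → HasP y → HasN y → HasP z →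
          Sv [a, b, c] := by
        intro x y z hp hx hy hy' hz
        have hG' : ∀ w ∈ [x, y, z], w ∈ GG := fun w hw => hG w (hp.mem_iff.1 hw)
        have hxG := hG' x (by simp)
        have hyG := hG' y (by simp)
        have hzG := hG' z (by simp)
        have hb' : (([x, y, z] : List (ℝ ≃o ℝ)).map bt).sum = 0 := by rw [(hp.map _).sum_eq, hb]
        have ht' : (([x, y, z] : List (ℝ ≃o ℝ)).map tp).sum = 0 := by rw [(hp.map _).sum_eq, ht]
        rw [← ct_perm _ hp] at hb2 ht2
        have q1 : ∃ w ∈ [x, y, z], bt w ≠ 0 := ct_pos.1 (by omega)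
        have q2 : ∃ w ∈ [x, y, z], tp w ≠ 0 := ct_pos.1 (by omega)
        simp only [List.map_cons, List.map_nil, List.sum_cons, List.sum_nil, add_zero] at hb' ht'
        refine Sv.perm hp hG' (Sv_of_Sv3 ?_)
        refine fb_three hxG hyG hzG (bt_spec hxG) (bt_spec hyG) (bt_spec hzG) (tp_spec hxG)
          (tp_spec hyG) (tp_spec hzG) (by omega) (by omega) ?_ ?_ hx hy' hy hz
        · obtain ⟨w, hw, hw'⟩ := q1
          simp only [List.mem_cons, List.not_mem_nil, or_false] at hw
          rcases hw with rfl | rfl | rfl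
          · exact Or.inl hw'
          · exact Or.inr (Or.inl hw')
          · exact Or.inr (Or.inr hw')
        · obtain ⟨w, hw, hw'⟩ := q2
          simp only [List.mem_cons, List.not_mem_nil, or_false] at hw
          rcases hw with rfl | rfl | rfl
          · exact Or.inl hw'
          · exact Or.inr (Or.inl hw')
          · exact Or.inr (Or.inr hw')
      have p1 : [a, b, c].Perm [a, b, c] := List.Perm.refl _
      have p2 : [a, c, b].Perm [a, b, c] := List.Perm.cons a (List.Perm.swap b c [])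
      have p3 : [b, a, c].Perm [a, b, c] := List.Perm.swap a b [c]
      have p4 : [b, c, a].Perm [a, b, c] :=
        (List.Perm.cons b (List.Perm.swap a c [])).trans p3
      have p5 : [c, a, b].Perm [a, b, c] := (List.Perm.swap a c [b]).trans p2
      have p6 : [c, b, a].Perm [a, b, c] := (List.Perm.cons c (List.Perm.swap a b [])).trans p5
      rw [ct_cons, ct_cons, ct_cons, ct_nil] at hP hN
      by_cases Pa : HasP a <;> by_cases Pb : HasP b <;> by_cases Pc : HasP c <;>
        by_cases Na : HasN a <;> by_cases Nb : HasN b <;> by_cases Nc : HasN c <;>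
        simp only [Pa, Pb, Pc, Na, Nb, Nc, if_true, if_false] at hP hN <;>
        first
          | omega
          | exact h3 _ _ _ p1 Na Pb Nb Pc
          | exact h3 _ _ _ p2 Na Pc Nc Pb
          | exact h3 _ _ _ p3 Nb Pa Na Pc
          | exact h3 _ _ _ p4 Nb Pc Nc Pa
          | exact h3 _ _ _ p5 Nc Pa Na Pb
          | exact h3 _ _ _ p6 Nc Pb Nb Pa
          | (exfalso; rcases hasP_or_hasN (hne a (by simp)) with h | h <;> tauto)
          | (exfalso; rcases hasP_or_hasN (hne b (by simp)) with h | h <;> tauto)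
          | (exfalso; rcases hasP_or_hasN (hne c (by simp)) with h | h <;> tauto)
  | succ n ih =>
    intro l hlen hG hne hb ht hP hN hb2 ht2
    -- the merging step
    have step : ∀ x y r, (x :: y :: r).Perm l → ¬ Bad HasP (x :: y :: r) x y →
        ¬ Bad HasN (x :: y :: r) x y → ¬ Bad (fun c => bt c ≠ 0) (x :: y :: r) x y →
        ¬ Bad (fun c => tp c ≠ 0) (x :: y :: r) x y → Sv l := by
      intro x y r hp b1 b2 b3 b4
      rw [← ct_perm _ hp] at hP hN hb2 ht2
      have hG' : ∀ w ∈ x :: y :: r, w ∈ GG := fun w hw => hG w (hp.mem_iff.1 hw)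
      have hne' : ∀ w ∈ x :: y :: r, w ≠ 1 := fun w hw => hne w (hp.mem_iff.1 hw)
      have hxG := hG' x (by simp)
      have hyG := hG' y (by simp)
      obtain ⟨g, hg, g1, g2⟩ := merge hxG hyG (hne' y (by simp))
      have hyG' : g * y * g⁻¹ ∈ GG := GG.mul_mem (GG.mul_mem hg hyG) (GG.inv_mem hg)
      have hGC : GC y (g * y * g⁻¹) := ⟨g, hg, rfl⟩
      have hb' : ((x :: y :: r).map bt).sum = 0 := by rw [(hp.map _).sum_eq, hb]
      have ht' : ((x :: y :: r).map tp).sum = 0 := by rw [(hp.map _).sum_eq, ht]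
      simp only [List.map_cons, List.sum_cons] at hb' ht'
      have e1 : bt (x * (g * y * g⁻¹)) = bt x + bt y := by rw [bt_mul hxG hyG', hGC.bt hyG]
      have e2 : tp (x * (g * y * g⁻¹)) = tp x + tp y := by rw [tp_mul hxG hyG', hGC.tp hyG]
      have hb'' : (((x * (g * y * g⁻¹)) :: r).map bt).sum = 0 := by
        rw [List.map_cons, List.sum_cons, e1]; omega
      have ht'' : (((x * (g * y * g⁻¹)) :: r).map tp).sum = 0 := by
        rw [List.map_cons, List.sum_cons, e2]; omega
      refine Sv.perm hp hG' (Sv.of_merge hGC (ih _ ?_ ?_ ?_ hb'' ht'' ?_ ?_ ?_ ?_))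
      · have := hp.length_eq
        simp only [List.length_cons] at this ⊢
        omega
      · intro w hw
        rcases List.mem_cons.1 hw with rfl | hw
        · exact GG.mul_mem hxG hyG'
        · exact hG' w (by simp [hw])
      · intro w hw
        rcases List.mem_cons.1 hw with rfl | hw
        · rcases hasP_or_hasN (hne' y (by simp)) with h | h
          · exact (g1 (Or.inr h)).ne_one
          · exact (g2 (Or.inr h)).ne_one
        · exact hne' w (by simp [hw])
      · exact ct_merge hP b1 g1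
      · exact ct_merge hN b2 g2
      · apply two_of_sum hb''
        apply ct_merge1 hb2 b3
        intro h
        simp only [ne_eq] at h ⊢
        rw [e1]
        omega
      · apply two_of_sum ht''
        apply ct_merge1 ht2 b4
        intro h
        simp only [ne_eq] at h ⊢
        rw [e2]
        omega
    match l, hlen with
    | a :: b :: c :: d :: l', _ =>
      obtain ⟨e1, h1⟩ := bad_four HasP a b c d l'
      obtain ⟨e2, h2⟩ := bad_four HasN a b c d l'
      obtain ⟨e3, h3⟩ := bad_four (fun c => bt c ≠ 0) a b c d l'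
      obtain ⟨e4, h4⟩ := bad_four (fun c => tp c ≠ 0) a b c d l'
      have hex : ∀ e1 e2 e3 e4 : Fin 6, ∃ f : Fin 6, f ≠ e1 ∧ f ≠ e2 ∧ f ≠ e3 ∧ f ≠ e4 := by decide
      obtain ⟨f, f1, f2, f3, f4⟩ := hex e1 e2 e3 e4
      have k1 := h1 f f1
      have k2 := h2 f f2
      have k3 := h3 f f3
      have k4 := h4 f f4
      have hBp : ∀ (Q : (ℝ ≃o ℝ) → Prop) {m m' : List (ℝ ≃o ℝ)} (x y : ℝ ≃o ℝ), m.Perm m' →
          ¬ Bad Q m' x y → ¬ Bad Q m x y := by
        intro Q m m' x y hp h
        unfold Bad at *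
        rwa [ct_perm Q hp]
      have fin : ∀ x y r, (x :: y :: r).Perm (a :: b :: c :: d :: l') →
          ¬ Bad HasP (a :: b :: c :: d :: l') x y → ¬ Bad HasN (a :: b :: c :: d :: l') x y →
          ¬ Bad (fun c => bt c ≠ 0) (a :: b :: c :: d :: l') x y →
          ¬ Bad (fun c => tp c ≠ 0) (a :: b :: c :: d :: l') x y → Sv (a :: b :: c :: d :: l') := by
        intro x y r hp b1 b2 b3 b4
        exact step x y r hp (hBp _ x y hp b1) (hBp _ x y hp b2) (hBp _ x y hp b3) (hBp _ x y hp b4)
      have q0 : (a :: b :: (c :: d :: l')).Perm (a :: b :: c :: d :: l') := List.Perm.refl _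
      have q1 : (a :: c :: (b :: d :: l')).Perm (a :: b :: c :: d :: l') :=
        List.Perm.cons a (List.Perm.swap b c _)
      have q2 : (a :: d :: (b :: c :: l')).Perm (a :: b :: c :: d :: l') :=
        List.Perm.cons a ((List.Perm.swap b d _).trans (List.Perm.cons b (List.Perm.swap c d _)))
      have q3 : (b :: c :: (a :: d :: l')).Perm (a :: b :: c :: d :: l') :=
        (List.Perm.cons b (List.Perm.swap a c _)).trans ((List.Perm.swap a b _).trans q0)
      have q4 : (b :: d :: (a :: c :: l')).Perm (a :: b :: c :: d :: l') :=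
        (List.Perm.cons b (List.Perm.swap a d _)).trans ((List.Perm.swap a b _).trans
          (List.Perm.cons a (List.Perm.cons b (List.Perm.swap c d _))))
      have q5 : (c :: d :: (a :: b :: l')).Perm (a :: b :: c :: d :: l') :=
        (List.Perm.cons c (List.Perm.swap a d _)).trans ((List.Perm.swap a c _).trans
          (List.Perm.cons a ((List.Perm.cons c (List.Perm.swap b d _)).trans
            ((List.Perm.swap b c _).trans (List.Perm.cons b (List.Perm.refl _))))))
      fin_cases f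
      · exact fin _ _ _ q0 k1 k2 k3 k4
      · exact fin _ _ _ q1 k1 k2 k3 k4
      · exact fin _ _ _ q2 k1 k2 k3 k4
      · exact fin _ _ _ q3 k1 k2 k3 k4
      · exact fin _ _ _ q4 k1 k2 k3 k4
      · exact fin _ _ _ q5 k1 k2 k3 k4

end Pool.Agent.Lib_helper30
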