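import Pool.Agent.Lib_helper30.Pred

set_option autoImplicit false

namespace Pool.Agent.Lib_helper30

open Filter Topology Set

lemma exists_dy_iff {P : ℝ → Prop} : (∃ y ∈ Dy, P y) ↔ ∃ d : DC, P (dval d) := by
  constructor
  · rintro ⟨y, hy, h⟩
    obtain ⟨d, rfl⟩ := exists_dval hy
    exact ⟨d, h⟩
  · rintro ⟨d, h⟩
    exact ⟨dval d, dval_dy d, h⟩

lemma exists_GG_iff {P : (ℝ ≃o ℝ) → Prop} : (∃ h ∈ GG, P h) ↔ ∃ w : W, P (val w) := by
  constructor
  · rintro ⟨y, hy, h⟩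
    obtain ⟨d, rfl⟩ := exists_val hy
    exact ⟨d, h⟩
  · rintro ⟨d, h⟩
    exact ⟨val d, val_mem d, h⟩

lemma endBot_val_iff (w : W) (k : ℤ) : EndBot (val w) k ↔ bw w = k := by
  constructor
  · intro h
    rw [← bt_val]; exact bt_eq h
  · rintro rfl
    rw [← bt_val]; exact bt_spec (val_mem w)

lemma part_val_iff (c b h : W) (x : DC) : Part (val c) (val b) (val h) (dval x) ↔
    ∀ t, t ≤ dval x → val (winv (b ++ h) ++ (h ++ c)) t = t := by
  unfold Part
  refine forall_congr' (fun t => imp_congr_right (fun _ => ?_))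
  rw [val_append, val_winv, val_append, val_append, mul_apply']
  constructor
  · intro h1
    apply inv_eq_of_apply
    rw [mul_apply', mul_apply', ← h1]
  · intro h1
    have := congrArg (val b * val h) h1
    rw [apply_inv', mul_apply', mul_apply'] at this
    exact this

lemma KW_iff (N : ℕ) (u v : ℝ) : KW N u v ↔
    ∃ m C : ℕ, u = dval (m, C, N) ∧ v = dval (m + 1, C, N) := by
  have h2 : (0 : ℝ) < 2 ^ N := by positivity
  constructor
  · rintro ⟨a, rfl, rfl⟩
    obtain ⟨K, hK⟩ : ∃ K : ℕ, K = a.natAbs := ⟨_, rfl⟩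
    have h0 : (0 : ℤ) ≤ a + K * 2 ^ N := by
      have h1 : (1 : ℤ) ≤ 2 ^ N := one_le_pow₀ (by norm_num)
      have h3 : -(K : ℤ) ≤ a := by omega
      nlinarith [Int.natCast_nonneg K]
    obtain ⟨m, hm⟩ : ∃ m : ℕ, (m : ℤ) = a + K * 2 ^ N :=
      ⟨(a + K * 2 ^ N).toNat, Int.toNat_of_nonneg h0⟩
    have hm' : (m : ℝ) = a + K * 2 ^ N := by
      have := congrArg (fun z : ℤ => (z : ℝ)) hm
      push_cast at this; exact this
    refine ⟨m, K, ?_, ?_⟩
    · rw [dval_shift]; push_cast; rw [hm']; congr 1; ring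
    · rw [dval_shift]; push_cast; rw [hm']; congr 1; ring
  · rintro ⟨m, C, rfl, rfl⟩
    refine ⟨(m : ℤ) - C * 2 ^ N, dval_shift _ _ _, ?_⟩
    rw [dval_shift]; push_cast; ring

/-- The obstruction for words. -/
def FailW (c b : W) (k : ℕ) : Prop :=
  FailP (val c) (val b) k (KW c.length) (KW b.length) (fun x => (c.length : ℝ) + 2 ≤ x)
    (fun x => (b.length : ℝ) + 2 ≤ x)

/-- First alternative, coded. -/
def FA (c b h : W) (x : DC) : Prop :=
  (∃ y : DC, dval x < dval y ∧ dval (evD c y) < dval y) ∧ ∀ y, dval (evD h x) ≤ y → y < val b y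

/-- Second alternative, coded. -/
def FA' (c b h : W) (x : DC) : Prop :=
  (∀ y, dval x ≤ y → y < val c y) ∧ ∃ y : DC, dval (evD h x) < dval y ∧ dval (evD b y) < dval y

/-- Third alternative, coded. -/
def FBc (c b h : W) (x : DC) : Prop :=
  dval (c.length + 2, 0, 0) ≤ dval x ∧ dval (b.length + 2, 0, 0) ≤ dval (evD h x) ∧
    ∃ t s : DC, dval x ≤ dval t ∧ dval t ≤ dval (evD c x) ∧ dval x ≤ dval s ∧
      dval s ≤ dval (evD c x) ∧
      (¬ dval (dadd (evD h t) s) = dval (dadd (evD h s) t) ∨ ¬ dint (evD h t) t)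

/-- Fourth alternative, coded. -/
def FCc (c b h : W) (x : DC) : Prop :=
  ∃ z : (ℕ × ℕ) × (ℕ × ℕ),
    (dval (z.1.1, z.1.2, c.length) ≤ dval x ∧ dval x < dval (z.1.1 + 1, z.1.2, c.length) ∧
     dval (evD c (z.1.1 + 1, z.1.2, c.length)) < dval (z.1.1 + 1, z.1.2, c.length) ∧
     dval (z.2.1, z.2.2, b.length) ≤ dval (evD h x) ∧
     dval (evD h x) < dval (z.2.1 + 1, z.2.2, b.length) ∧
     dval (evD b (z.2.1 + 1, z.2.2, b.length)) < dval (z.2.1 + 1, z.2.2, b.length)) ∧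
    (¬ dval (dmu (dsb (evD c (z.1.1 + 1, z.1.2, c.length)) (evD c (z.1.1, z.1.2, c.length)))
          (dsb (z.2.1 + 1, z.2.2, b.length) (z.2.1, z.2.2, b.length))) =
       dval (dmu (dsb (evD b (z.2.1 + 1, z.2.2, b.length)) (evD b (z.2.1, z.2.2, b.length)))
          (dsb (z.1.1 + 1, z.1.2, c.length) (z.1.1, z.1.2, c.length))) ∨
     ∃ t : DC × DC, dval x ≤ dval t.1 ∧ dval t.1 ≤ dval (evD c x) ∧ dval x ≤ dval t.2 ∧
        dval t.2 ≤ dval (evD c x) ∧
        ¬ dval (dmu (dsb (evD h t.1) (evD h x)) (dsb t.2 x)) =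
          dval (dmu (dsb (evD h t.2) (evD h x)) (dsb t.1 x)))

lemma dval_cell_lt (m C N : ℕ) : dval (m, C, N) < dval (m + 1, C, N) := by
  unfold dval
  have h2 : (0 : ℝ) < 2 ^ N := by positivity
  simp only
  push_cast
  have : (m : ℝ) / 2 ^ N < (m + 1) / 2 ^ N := by
    rw [div_lt_div_iff_of_pos_right h2]; linarith
  linarith

lemma dval_nat (n : ℕ) : dval (n, 0, 0) = n := by unfold dval; simp

lemma FCc_iff (c b h : W) (x : DC) : FCc c b h x ↔
    ∃ u v u' v', KW c.length u v ∧ KW b.length u' v' ∧ u ≤ dval x ∧ dval x < v ∧ val c v < v ∧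
      u' ≤ val h (dval x) ∧ val h (dval x) < v' ∧ val b v' < v' ∧
        ((val c v - val c u) * (v' - u') ≠ (val b v' - val b u') * (v - u) ∨
          ∃ t₁ ∈ Dy, dval x ≤ t₁ ∧ t₁ ≤ val c (dval x) ∧ ∃ t₂ ∈ Dy, dval x ≤ t₂ ∧
            t₂ ≤ val c (dval x) ∧
            (val h t₁ - val h (dval x)) * (t₂ - dval x) ≠
              (val h t₂ - val h (dval x)) * (t₁ - dval x)) := by
  have prod1 : ∀ m C m' C' : ℕ,
      dval (dmu (dsb (evD c (m + 1, C, c.length)) (evD c (m, C, c.length)))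
          (dsb (m' + 1, C', b.length) (m', C', b.length))) =
      (val c (dval (m + 1, C, c.length)) - val c (dval (m, C, c.length))) *
        (dval (m' + 1, C', b.length) - dval (m', C', b.length)) := by
    intro m C m' C'
    rw [dval_dmu rfl rfl, dval_dsb, dval_dsb (dval_cell_lt _ _ _).le, dval_evD, dval_evD]
    rw [dval_evD, dval_evD]
    exact (val c).monotone (dval_cell_lt _ _ _).le
  have prod2 : ∀ m C m' C' : ℕ,
      dval (dmu (dsb (evD b (m' + 1, C', b.length)) (evD b (m', C', b.length)))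
          (dsb (m + 1, C, c.length) (m, C, c.length))) =
      (val b (dval (m' + 1, C', b.length)) - val b (dval (m', C', b.length))) *
        (dval (m + 1, C, c.length) - dval (m, C, c.length)) := by
    intro m C m' C'
    rw [dval_dmu rfl rfl, dval_dsb, dval_dsb (dval_cell_lt _ _ _).le, dval_evD, dval_evD]
    rw [dval_evD, dval_evD]
    exact (val b).monotone (dval_cell_lt _ _ _).le
  have prod3 : ∀ t s : DC, dval x ≤ dval t → dval x ≤ dval s →
      dval (dmu (dsb (evD h t) (evD h x)) (dsb s x)) =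
      (val h (dval t) - val h (dval x)) * (dval s - dval x) := by
    intro t s h1 h2
    rw [dval_dmu rfl rfl, dval_dsb, dval_dsb h2, dval_evD, dval_evD]
    rw [dval_evD, dval_evD]
    exact (val h).monotone h1
  constructor
  · rintro ⟨⟨⟨m, C⟩, ⟨m', C'⟩⟩, ⟨h1, h2, h3, h4, h5, h6⟩, h7⟩
    simp only at h1 h2 h3 h4 h5 h6 h7
    rw [dval_evD] at h3 h4 h5 h6
    refine ⟨_, _, _, _, (KW_iff _ _ _).2 ⟨m, C, rfl, rfl⟩, (KW_iff _ _ _).2 ⟨m', C', rfl, rfl⟩,
      h1, h2, h3, h4, h5, h6, ?_⟩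
    rcases h7 with h7 | ⟨⟨t, s⟩, t1, t2, s1, s2, h8⟩
    · left
      rw [prod1, prod2] at h7
      exact h7
    · right
      simp only at t1 t2 s1 s2 h8
      rw [dval_evD] at t2 s2
      refine ⟨dval t, dval_dy t, t1, t2, dval s, dval_dy s, s1, s2, ?_⟩
      rw [prod3 t s t1 s1, prod3 s t s1 t1] at h8
      exact h8
  · rintro ⟨u, v, u', v', hK, hK', h1, h2, h3, h4, h5, h6, h7⟩
    obtain ⟨m, C, rfl, rfl⟩ := (KW_iff _ _ _).1 hK
    obtain ⟨m', C', rfl, rfl⟩ := (KW_iff _ _ _).1 hK'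
    refine ⟨((m, C), (m', C')), ⟨h1, h2, ?_, ?_, ?_, ?_⟩, ?_⟩
    · simp only; rw [dval_evD]; exact h3
    · simp only; rw [dval_evD]; exact h4
    · simp only; rw [dval_evD]; exact h5
    · simp only; rw [dval_evD]; exact h6
    · rcases h7 with h7 | ⟨t₁, ht₁, t1, t2, s₁, hs₁, s1, s2, h8⟩
      · left
        simp only
        rw [prod1, prod2]
        exact h7
      · right
        obtain ⟨t, rfl⟩ := exists_dval ht₁
        obtain ⟨s, rfl⟩ := exists_dval hs₁
        refine ⟨(t, s), t1, by simp only; rw [dval_evD]; exact t2, s1,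
          by simp only; rw [dval_evD]; exact s2, ?_⟩
        simp only
        rw [prod3 t s t1 s1, prod3 s t s1 t1]
        exact h8

lemma FBc_iff (c b h : W) (x : DC) : FBc c b h x ↔
    ((c.length : ℝ) + 2 ≤ dval x ∧ (b.length : ℝ) + 2 ≤ val h (dval x) ∧
        ∃ t ∈ Dy, dval x ≤ t ∧ t ≤ val c (dval x) ∧ ∃ s ∈ Dy, dval x ≤ s ∧ s ≤ val c (dval x) ∧
        (val h t - t ≠ val h s - s ∨ ¬ ∃ n : ℤ, val h t - t = n)) := by
  unfold FBc
  rw [dval_nat, dval_nat, dval_evD, dval_evD]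
  push_cast
  refine and_congr_right (fun _ => and_congr_right (fun _ => ?_))
  have key : ∀ t s : DC, (¬ dval (dadd (evD h t) s) = dval (dadd (evD h s) t) ∨ ¬ dint (evD h t) t) ↔
      (val h (dval t) - dval t ≠ val h (dval s) - dval s ∨
        ¬ ∃ n : ℤ, val h (dval t) - dval t = n) := by
    intro t s
    rw [dval_dadd, dval_dadd, dval_evD, dval_evD, dint_iff, dval_evD]
    have : (val h (dval t) + dval s = val h (dval s) + dval t) ↔
        (val h (dval t) - dval t = val h (dval s) - dval s) := by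
      constructor <;> intro h <;> linarith
    rw [this]
  constructor
  · rintro ⟨t, s, h1, h2, h3, h4, h5⟩
    exact ⟨dval t, dval_dy t, h1, h2, dval s, dval_dy s, h3, h4, (key t s).1 h5⟩
  · rintro ⟨t₁, ht₁, h1, h2, s₁, hs₁, h3, h4, h5⟩
    obtain ⟨t, rfl⟩ := exists_dval ht₁
    obtain ⟨s, rfl⟩ := exists_dval hs₁
    exact ⟨t, s, h1, h2, h3, h4, (key t s).2 h5⟩

lemma FA_iff (c b h : W) (x : DC) : FA c b h x ↔
    ((∃ y ∈ Dy, dval x < y ∧ val c y < y) ∧ ∀ y, val h (dval x) ≤ y → y < val b y) := by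
  unfold FA
  rw [dval_evD, exists_dy_iff]
  refine and_congr_left (fun _ => exists_congr (fun y => ?_))
  rw [dval_evD]

lemma FA'_iff (c b h : W) (x : DC) : FA' c b h x ↔
    ((∀ y, dval x ≤ y → y < val c y) ∧ ∃ y ∈ Dy, val h (dval x) < y ∧ val b y < y) := by
  unfold FA'
  rw [dval_evD, exists_dy_iff]
  refine and_congr_right (fun _ => exists_congr (fun y => ?_))
  rw [dval_evD]

lemma FailW_iff (c b : W) (k : ℕ) : FailW c b k ↔
    ∃ h : W, ∃ x : DC, bw h = (k : ℤ) ∧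
      (∀ t, t ≤ dval x → val (winv (b ++ h) ++ (h ++ c)) t = t) ∧ dval x < dval (evD c x) ∧
      (FA c b h x ∨ FA' c b h x ∨ FBc c b h x ∨ FCc c b h x) := by
  unfold FailW FailP
  rw [exists_GG_iff]
  refine exists_congr (fun h => ?_)
  constructor
  · rintro ⟨h1, x₁, hx₁, h2, h3, h4⟩
    obtain ⟨x, rfl⟩ := exists_dval hx₁
    refine ⟨x, (endBot_val_iff _ _).1 h1, (part_val_iff c b h x).1 h2, by rw [dval_evD]; exact h3, ?_⟩
    rcases h4 with h4 | h4 | h4 | h4
    · exact Or.inl ((FA_iff c b h x).2 h4)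
    · exact Or.inr (Or.inl ((FA'_iff c b h x).2 h4))
    · exact Or.inr (Or.inr (Or.inl ((FBc_iff c b h x).2 h4)))
    · exact Or.inr (Or.inr (Or.inr ((FCc_iff c b h x).2 h4)))
  · rintro ⟨x, h1, h2, h3, h4⟩
    refine ⟨(endBot_val_iff _ _).2 h1, dval x, dval_dy x, (part_val_iff c b h x).2 h2,
      by rw [dval_evD] at h3; exact h3, ?_⟩
    rcases h4 with h4 | h4 | h4 | h4
    · exact Or.inl ((FA_iff c b h x).1 h4)
    · exact Or.inr (Or.inl ((FA'_iff c b h x).1 h4))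
    · exact Or.inr (Or.inr (Or.inl ((FBc_iff c b h x).1 h4)))
    · exact Or.inr (Or.inr (Or.inr ((FCc_iff c b h x).1 h4)))

section
variable {α : Type*} [Primcodable α] {c b h : α → W} {x : α → DC}

lemma RE.exd {β : Type*} [Primcodable β] {p : α → β → Prop} (hp : RE (fun y : α × β => p y.1 y.2)) :
    RE (fun a => ∃ b, p a b) := RE.ex hp

lemma re_FA (hc : Primrec c) (hb : Primrec b) (hh : Primrec h) (hx : Primrec x) :
    RE (fun a => FA (c a) (b a) (h a) (x a)) := by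
  unfold FA
  refine RE.and (RE.exd (p := fun a y => dval (x a) < dval y ∧ dval (evD (c a) y) < dval y)
    (RE.of_prim ?_)) (RE.of_prim (pr_posAfter hb (pr_ev hh hx)))
  exact (pr_dlt (hx.comp Primrec.fst) Primrec.snd).and
    (pr_dlt (pr_ev (hc.comp Primrec.fst) Primrec.snd) Primrec.snd)

lemma re_FA' (hc : Primrec c) (hb : Primrec b) (hh : Primrec h) (hx : Primrec x) :
    RE (fun a => FA' (c a) (b a) (h a) (x a)) := by
  unfold FA'
  refine RE.and (RE.of_prim (pr_posAfter hc hx))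
    (RE.exd (p := fun a y => dval (evD (h a) (x a)) < dval y ∧ dval (evD (b a) y) < dval y)
    (RE.of_prim ?_))
  exact (pr_dlt ((pr_ev hh hx).comp Primrec.fst) Primrec.snd).and
    (pr_dlt (pr_ev (hb.comp Primrec.fst) Primrec.snd) Primrec.snd)

lemma re_FBc (hc : Primrec c) (hb : Primrec b) (hh : Primrec h) (hx : Primrec x) :
    RE (fun a => FBc (c a) (b a) (h a) (x a)) := by
  unfold FBc
  have k0 : Primrec (fun _ : α => 0) := Primrec.const 0
  refine RE.and (RE.of_prim (pr_dle (pr_mk (pr_add (pr_len hc) (Primrec.const 2)) k0 k0) hx))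
    (RE.and (RE.of_prim (pr_dle (pr_mk (pr_add (pr_len hb) (Primrec.const 2)) k0 k0) (pr_ev hh hx)))
    (RE.exd (RE.exd (RE.of_prim ?_))))
  have F : ∀ {γ : Type} [Primcodable γ] {f : α → γ}, Primrec f →
      Primrec (fun y : (α × DC) × DC => f y.1.1) :=
    fun hf => hf.comp (Primrec.fst.comp Primrec.fst)
  have ht : Primrec (fun y : (α × DC) × DC => y.1.2) := Primrec.snd.comp Primrec.fst
  have hs : Primrec (fun y : (α × DC) × DC => y.2) := Primrec.snd
  exact (pr_dle (F hx) ht).and ((pr_dle ht (F (pr_ev hc hx))).and ((pr_dle (F hx) hs).and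
    ((pr_dle hs (F (pr_ev hc hx))).and
    (((pr_deq (pr_dadd (pr_ev (F hh) ht) hs) (pr_dadd (pr_ev (F hh) hs) ht)).not).or
      ((pr_dint (pr_ev (F hh) ht) ht).not)))))

lemma re_FCc (hc : Primrec c) (hb : Primrec b) (hh : Primrec h) (hx : Primrec x) :
    RE (fun a => FCc (c a) (b a) (h a) (x a)) := by
  unfold FCc
  refine RE.exd ?_
  have F : ∀ {γ : Type} [Primcodable γ] {f : α → γ}, Primrec f →
      Primrec (fun y : α × ((ℕ × ℕ) × (ℕ × ℕ)) => f y.1) :=
    fun hf => hf.comp Primrec.fst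
  have z11 : Primrec (fun y : α × ((ℕ × ℕ) × (ℕ × ℕ)) => y.2.1.1) :=
    Primrec.fst.comp (Primrec.fst.comp Primrec.snd)
  have z12 : Primrec (fun y : α × ((ℕ × ℕ) × (ℕ × ℕ)) => y.2.1.2) :=
    Primrec.snd.comp (Primrec.fst.comp Primrec.snd)
  have z21 : Primrec (fun y : α × ((ℕ × ℕ) × (ℕ × ℕ)) => y.2.2.1) :=
    Primrec.fst.comp (Primrec.snd.comp Primrec.snd)
  have z22 : Primrec (fun y : α × ((ℕ × ℕ) × (ℕ × ℕ)) => y.2.2.2) :=
    Primrec.snd.comp (Primrec.snd.comp Primrec.snd)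
  have k1 : Primrec (fun _ : α × ((ℕ × ℕ) × (ℕ × ℕ)) => 1) := Primrec.const 1
  have u := pr_mk z11 z12 (pr_len (F hc))
  have v := pr_mk (pr_add z11 k1) z12 (pr_len (F hc))
  have u' := pr_mk z21 z22 (pr_len (F hb))
  have v' := pr_mk (pr_add z21 k1) z22 (pr_len (F hb))
  have hX := F hx
  have hX' := F (pr_ev hh hx)
  refine RE.and (RE.of_prim ?_) (RE.or (RE.of_prim ?_) (RE.exd (RE.of_prim ?_)))
  · exact (pr_dle u hX).and ((pr_dlt hX v).and ((pr_dlt (pr_ev (F hc) v) v).and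
      ((pr_dle u' hX').and ((pr_dlt hX' v').and (pr_dlt (pr_ev (F hb) v') v')))))
  · exact (pr_deq (pr_dmu (pr_dsb (pr_ev (F hc) v) (pr_ev (F hc) u)) (pr_dsb v' u'))
      (pr_dmu (pr_dsb (pr_ev (F hb) v') (pr_ev (F hb) u')) (pr_dsb v u))).not
  · have F2 : ∀ {γ : Type} [Primcodable γ] {f : α → γ}, Primrec f →
        Primrec (fun y : (α × ((ℕ × ℕ) × (ℕ × ℕ))) × (DC × DC) => f y.1.1) :=
      fun hf => hf.comp (Primrec.fst.comp Primrec.fst)
    have t1 : Primrec (fun y : (α × ((ℕ × ℕ) × (ℕ × ℕ))) × (DC × DC) => y.2.1) :=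
      Primrec.fst.comp Primrec.snd
    have t2 : Primrec (fun y : (α × ((ℕ × ℕ) × (ℕ × ℕ))) × (DC × DC) => y.2.2) :=
      Primrec.snd.comp Primrec.snd
    have H := F2 hh
    have X := F2 hx
    have CX := F2 (pr_ev hc hx)
    exact (pr_dle X t1).and ((pr_dle t1 CX).and ((pr_dle X t2).and ((pr_dle t2 CX).and
      (pr_deq (pr_dmu (pr_dsb (pr_ev H t1) (pr_ev H X)) (pr_dsb t2 X))
        (pr_dmu (pr_dsb (pr_ev H t2) (pr_ev H X)) (pr_dsb t1 X))).not)))

lemma re_FailW {k : α → ℕ} (hc : Primrec c) (hb : Primrec b) (hk : Primrec k) :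
    RE (fun a => FailW (c a) (b a) (k a)) := by
  refine RE.congr (p := fun a => ∃ h : W, ∃ x : DC, bw h = (k a : ℤ) ∧
      (∀ t, t ≤ dval x → val (winv (b a ++ h) ++ (h ++ c a)) t = t) ∧ dval x < dval (evD (c a) x) ∧
      (FA (c a) (b a) h x ∨ FA' (c a) (b a) h x ∨ FBc (c a) (b a) h x ∨ FCc (c a) (b a) h x)) ?_
    (fun a => FailW_iff _ _ _)
  refine RE.exd (RE.exd ?_)
  have F : ∀ {γ : Type} [Primcodable γ] {f : α → γ}, Primrec f →
      Primrec (fun y : (α × W) × DC => f y.1.1) :=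
    fun hf => hf.comp (Primrec.fst.comp Primrec.fst)
  have H : Primrec (fun y : (α × W) × DC => y.1.2) := Primrec.snd.comp Primrec.fst
  have X : Primrec (fun y : (α × W) × DC => y.2) := Primrec.snd
  refine RE.and (RE.of_prim (pr_bw H (F hk))) (RE.and (RE.of_prim ?_) (RE.and (RE.of_prim ?_)
    (RE.or ?_ (RE.or ?_ (RE.or ?_ ?_)))))
  · exact pr_idUpTo (pr_append (pr_winv (pr_append (F hb) H)) (pr_append H (F hc))) X
  · exact pr_dlt X (pr_ev (F hc) X)
  · exact re_FA (F hc) (F hb) H X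
  · exact re_FA' (F hc) (F hb) H X
  · exact re_FBc (F hc) (F hb) H X
  · exact re_FCc (F hc) (F hb) H X

end

end Pool.Agent.Lib_helper30
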