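import Pool.Agent.Lib_helper30.Red

set_option autoImplicit false

namespace Pool.Agent.Lib_helper30

open Filter Topology Set

/-- Inverse of an equation word. -/
def einv (w : EW) : EW := (w.map (fun p => (!p.1, p.2))).reverse

lemma einv_cons (p : Bool × (Bool ⊕ ℕ)) (w : EW) : einv (p :: w) = einv w ++ [(!p.1, p.2)] := by
  unfold einv; simp

lemma evL_not {G : Type*} [Group G] (c : Bool → G) (σ : ℕ → G) (p : Bool × (Bool ⊕ ℕ)) :
    evL c σ (!p.1, p.2) = (evL c σ p)⁻¹ := by
  unfold evL
  obtain ⟨s, q⟩ := p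
  cases s <;> simp

lemma eG_einv (σ : ℕ → (ℝ ≃o ℝ)) (w : EW) : eG σ (einv w) = (eG σ w)⁻¹ := by
  induction w with
  | nil => simp [einv, eG_nil]
  | cons p w ih =>
    rw [einv_cons, eG_append, ih, eG_cons, eG_cons, eG_nil, mul_one, evL_not, mul_inv_rev]

lemma oc_einv (w : EW) (n : ℕ) : oc (einv w) n = oc w n := by
  induction w with
  | nil => rfl
  | cons p w ih =>
    rw [einv_cons, oc_append, ih, oc_cons, oc_cons]
    simp [oc]

lemma Av.einv {x : ℕ} {w : EW} (h : Av x w) : Av x (einv w) := by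
  rw [av_iff, oc_einv, ← av_iff]; exact h

/-- Solvability in the group of homeomorphisms. -/
def Solv (w : EW) : Prop := ∃ σ : ℕ → (ℝ ≃o ℝ), (∀ n, σ n ∈ GG) ∧ eG σ w = 1

lemma Phi_cst : (Phi ∘ cst) = genImg := by
  funext c
  cases c
  · exact Phi_A
  · exact Phi_B

lemma Solv_iff {w : EW} : (∃ σ : ℕ → TF, ev cst σ w = 1) ↔ Solv w := by
  constructor
  · rintro ⟨σ, h⟩
    refine ⟨fun n => Phi (σ n), fun n => Phi_mem _, ?_⟩
    have := map_ev Phi cst σ w
    rw [h, map_one, Phi_cst] at this
    exact this.symm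
  · rintro ⟨σ, hσ, h⟩
    choose τ hτ using fun n => exists_Phi (hσ n)
    refine ⟨τ, Phi_injective ?_⟩
    rw [map_ev, map_one, Phi_cst]
    have : (Phi ∘ τ) = σ := by funext n; exact hτ n
    rw [this]
    exact h

lemma SSt_nil {b : Bool} {w : EW} : SSt b w [] ↔ ∃ σ : ℕ → (ℝ ≃o ℝ), (∀ n, σ n ∈ GG) ∧
    Tc b (eG σ w) := by
  unfold SSt
  refine exists_congr (fun σ => and_congr_right (fun _ => ?_))
  constructor
  · rintro ⟨x, hx, h⟩
    rw [List.map_nil, Pr_nil] at hx
    rwa [hx, mul_one] at h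
  · intro h
    exact ⟨1, Pr_nil.2 rfl, by rwa [mul_one]⟩

lemma SSt_false {w : EW} : SSt false w [] ↔ Solv w := SSt_nil

/-- The normal form of a word with a variable occurring twice with the same sign. -/
def sq2 (x : ℕ) (R : EW) : EW := (true, Sum.inr x) :: ([] ++ (true, Sum.inr x) :: R)

lemma Solv_sq2 {x : ℕ} {R : EW} (hR : Av x R) : Solv (sq2 x R) ↔ SSt true R [] := by
  rw [SSt_nil]
  unfold sq2
  constructor
  · rintro ⟨σ, hσ, h⟩
    rw [eG_var, eG_append, eG_nil, one_mul, eG_var, sgn_true, ← mul_assoc] at h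
    refine ⟨σ, hσ, (σ x)⁻¹, GG.inv_mem (hσ x), ?_⟩
    rw [eq_inv_of_mul_eq_one_right h]
    group
  · rintro ⟨σ, hσ, y, hy, h⟩
    refine ⟨Function.update σ x y⁻¹, ?_, ?_⟩
    · intro n
      by_cases hn : n = x
      · subst hn
        rw [Function.update_self]
        exact GG.inv_mem hy
      · rw [Function.update_of_ne hn]; exact hσ n
    · rw [eG_var, eG_append, eG_nil, one_mul, eG_var, sgn_true, Function.update_self,
        eG_update hR, h]
      group

lemma Solv_same {A B C : EW} {x : ℕ} {s : Bool} (hA : Av x A) (hB : Av x B) (hC : Av x C) :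
    Solv (A ++ (s, Sum.inr x) :: (B ++ (s, Sum.inr x) :: C)) ↔
      Solv (sq2 x (einv B ++ (C ++ A))) := by
  have hs : (s == s) = true := by simp
  constructor
  · rintro ⟨σ, hσ, h⟩
    rw [eG_append, eG_var, eG_append, eG_var] at h
    refine ⟨Function.update σ x (sgn s (σ x) * eG σ B), ?_, ?_⟩
    · intro n
      by_cases hn : n = x
      · subst hn
        rw [Function.update_self]
        exact GG.mul_mem (sgn_mem (hσ n)) (eG_mem hσ B)
      · rw [Function.update_of_ne hn]; exact hσ n
    · unfold sq2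
      rw [eG_var, eG_append, eG_nil, one_mul, eG_var, sgn_true, Function.update_self, eG_append,
        eG_append, eG_update hA, eG_update hC, eG_update hB.einv, eG_einv]
      have : sgn s (σ x) * eG σ B * (sgn s (σ x) * eG σ B * ((eG σ B)⁻¹ * (eG σ C * eG σ A))) =
        (eG σ A)⁻¹ * (eG σ A * (sgn s (σ x) * (eG σ B * (sgn s (σ x) * eG σ C)))) * eG σ A := by
        group
      rw [this, h]
      group
  · rintro ⟨σ, hσ, h⟩
    unfold sq2 at h
    rw [eG_var, eG_append, eG_nil, one_mul, eG_var, sgn_true, eG_append, eG_append, eG_einv] at h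
    refine ⟨Function.update σ x (sgn s (σ x * (eG σ B)⁻¹)), ?_, ?_⟩
    · intro n
      by_cases hn : n = x
      · subst hn
        rw [Function.update_self]
        exact sgn_mem (GG.mul_mem (hσ n) (GG.inv_mem (eG_mem hσ B)))
      · rw [Function.update_of_ne hn]; exact hσ n
    · rw [eG_append, eG_var, eG_append, eG_var, Function.update_self, eG_update hA, eG_update hB,
        eG_update hC, sgn_sgn, hs, sgn_true]
      have : eG σ A * (σ x * (eG σ B)⁻¹ * (eG σ B * (σ x * (eG σ B)⁻¹ * eG σ C))) =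
        eG σ A * (σ x * (σ x * ((eG σ B)⁻¹ * (eG σ C * eG σ A)))) * (eG σ A)⁻¹ := by
        group
      rw [this, h]
      group

/-- Data of a pair with equal signs. -/
abbrev SD : Type := (EW × EW × EW) × (ℕ × Bool)

/-- The word of the data. -/
def sdw (z : SD) : EW :=
  z.1.1 ++ (z.2.2, Sum.inr z.2.1) :: (z.1.2.1 ++ (z.2.2, Sum.inr z.2.1) :: z.1.2.2)

/-- The rest. -/
def sdr (z : SD) : EW := einv z.1.2.1 ++ (z.1.2.2 ++ z.1.1)

/-- Certified unsolvability of quadratic equations. -/
def Uns (w : EW) : Prop :=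
  ¬ Crit w ∨ UU (w, [], false) ∨
  ∃ z : SD, w = sdw z ∧ (¬ Crit (sq2 z.2.1 (sdr z)) ∨ UU (sdr z, [], true))

lemma quad_sq2 {w : EW} (hq : Quad w) {z : SD} (hw : w = sdw z) :
    Av z.2.1 z.1.1 ∧ Av z.2.1 z.1.2.1 ∧ Av z.2.1 z.1.2.2 ∧ Av z.2.1 (sdr z) ∧ Quad (sdr z) ∧
      Quad (sq2 z.2.1 (sdr z)) := by
  obtain ⟨⟨A, B, C⟩, x, s⟩ := z
  simp only [sdw] at hw
  have e1 : oc w x = 0 ∨ oc w x = 2 := hq x
  rw [hw] at e1
  simp only [oc_append, oc_cons, if_true] at e1
  have hA : Av x A := av_iff.2 (by omega)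
  have hB : Av x B := av_iff.2 (by omega)
  have hC : Av x C := av_iff.2 (by omega)
  have hR : Av x (sdr ((A, B, C), (x, s))) := by
    rw [av_iff]
    simp only [sdr, oc_append, oc_einv]
    rw [av_iff.1 hA, av_iff.1 hB, av_iff.1 hC]
  have hq2 : ∀ n, oc (sdr ((A, B, C), (x, s))) n = 0 ∨ oc (sdr ((A, B, C), (x, s))) n = 2 := by
    intro n
    have e2 : oc w n = 0 ∨ oc w n = 2 := hq n
    rw [hw] at e2
    by_cases hn : (Sum.inr x : Bool ⊕ ℕ) = Sum.inr n
    · have : x = n := by simpa using hn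
      subst this
      left
      exact av_iff.1 hR
    · simp only [oc_append, oc_cons, hn, if_false] at e2
      simp only [sdr, oc_append, oc_einv]
      omega
  refine ⟨hA, hB, hC, hR, hq2, ?_⟩
  intro n
  show oc (sq2 x (sdr ((A, B, C), (x, s)))) n = 0 ∨ oc (sq2 x (sdr ((A, B, C), (x, s)))) n = 2
  unfold sq2
  simp only [oc_cons, List.nil_append]
  by_cases hn : (Sum.inr x : Bool ⊕ ℕ) = Sum.inr n
  · have : x = n := by simpa using hn
    subst this
    rw [av_iff.1 hR]
    simp
  · simp only [hn, if_false]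
    exact hq2 n

lemma crit_of_solv {w : EW} (hq : Quad w) (h : Solv w) : Crit w := by
  rw [← crit_iff hq]
  obtain ⟨σ, hσ⟩ := Solv_iff.2 h
  have h2 := map_ev (Abelianization.of : TF →* _) cst σ w
  rw [hσ, map_one] at h2
  exact ⟨Abelianization.of ∘ σ, h2.symm⟩

lemma solv_of_crit {w : EW} (hq : Quad w) {x y : ℕ} (hxy : x ≠ y) (hp : PairPattern x y w)
    (h : Crit w) : Solv w := by
  rw [← crit_iff hq] at h
  obtain ⟨τ, hτ⟩ := h
  exact Solv_iff.1 (solvable_of_pattern hq hxy hp hτ)

lemma sub_two {w : EW} {a b : Bool × (Bool ⊕ ℕ)} (h : List.Sublist [a, b] w) :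
    ∃ A B C, w = A ++ a :: (B ++ b :: C) := by
  rw [List.cons_sublist_iff] at h
  obtain ⟨r₁, r₂, rfl, h1, h2⟩ := h
  obtain ⟨A, B, rfl⟩ := List.append_of_mem h1
  obtain ⟨C, D, rfl⟩ := List.append_of_mem (List.singleton_sublist.1 h2)
  exact ⟨A, B ++ C, D, by simp⟩

lemma sub_four {w : EW} {a b c d : Bool × (Bool ⊕ ℕ)} (h : List.Sublist [a, b, c, d] w) :
    ∃ A B C D E, w = A ++ a :: (B ++ b :: (C ++ c :: (D ++ d :: E))) := by
  rw [List.cons_sublist_iff] at h
  obtain ⟨r₁, r₂, rfl, h1, h2⟩ := h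
  obtain ⟨A, B, rfl⟩ := List.append_of_mem h1
  rw [List.cons_sublist_iff] at h2
  obtain ⟨r₃, r₄, rfl, h3, h4⟩ := h2
  obtain ⟨B', C, rfl⟩ := List.append_of_mem h3
  obtain ⟨C', D, E, rfl⟩ := sub_two h4
  exact ⟨A, B ++ B', C ++ C', D, E, by simp⟩

lemma crit_or_planar {w : EW} (hq : Quad w) (hs : NoSame w) (h : ¬ Solv w) :
    ¬ Crit w ∨ NoLink w := by
  by_cases hl : NoLink w
  · exact Or.inr hl
  · left
    intro hc
    unfold NoLink at hl
    push Not at hl
    obtain ⟨x, y, hxy, s1, s2, s3, s4, hsub⟩ := hl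
    apply h
    have hne : s1 ≠ s3 := by
      rintro rfl
      apply hs x s1
      refine List.Sublist.trans ?_ hsub
      refine List.Sublist.cons_cons _ (List.Sublist.cons _ (List.Sublist.cons_cons _ ?_))
      exact List.nil_sublist _
    obtain ⟨A, B, C, D, E, hw⟩ := sub_four hsub
    exact solv_of_crit hq hxy (PairPattern.linked A B C D E s1 s2 s3 s4 (Or.inl hne) hw) hc

theorem Uns_iff {w : EW} (hq : Quad w) : Uns w ↔ ¬ Solv w := by
  constructor
  · rintro (h | h | ⟨z, hw, h⟩) hS
    · exact h (crit_of_solv hq hS)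
    · exact UU_sound h (SSt_false.2 hS)
    · obtain ⟨hA, hB, hC, hR, _, hq2⟩ := quad_sq2 hq hw
      have h2 : Solv (sq2 z.2.1 (sdr z)) := by
        rw [hw] at hS
        exact (Solv_same hA hB hC).1 hS
      rcases h with h | h
      · exact h (crit_of_solv hq2 h2)
      · exact UU_sound h ((Solv_sq2 hR).1 h2)
  · intro h
    by_cases hs : NoSame w
    · rcases crit_or_planar hq hs h with h1 | h1
      · exact Or.inl h1
      · exact Or.inr (Or.inl (UU_complete _ w [] false le_rfl hq hs h1
          (fun h2 => h (SSt_false.1 h2))))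
    · unfold NoSame at hs
      push Not at hs
      obtain ⟨x, s, hsub⟩ := hs
      obtain ⟨A, B, C, hw⟩ := sub_two hsub
      refine Or.inr (Or.inr ⟨((A, B, C), (x, s)), hw, ?_⟩)
      have hw' : w = sdw ((A, B, C), (x, s)) := hw
      obtain ⟨hA, hB, hC, hR, hqR, hq2⟩ := quad_sq2 hq hw'
      have h2 : ¬ Solv (sq2 x (sdr ((A, B, C), (x, s)))) := by
        intro h2
        apply h
        rw [hw]
        exact (Solv_same hA hB hC).2 h2
      by_cases hc : Crit (sq2 x (sdr ((A, B, C), (x, s))))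
      · right
        generalize sdr ((A, B, C), (x, s)) = R at *
        have hsR : NoSame R := by
          intro y t hsub'
          obtain ⟨D, E, F, hD⟩ := sub_two hsub'
          have hxy : x ≠ y := by
            rintro rfl
            refine hR (t, Sum.inr x) ?_ rfl
            rw [hD]
            simp
          apply h2
          refine solv_of_crit hq2 hxy (PairPattern.side [] [] D E F true t ?_) hc
          rw [hD]
          rfl
        have hlR : NoLink R := by
          intro y z hyz s1 s2 s3 s4 hsub'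
          apply h2
          have hne : s1 ≠ s3 := by
            rintro rfl
            apply hsR y s1
            refine List.Sublist.trans ?_ hsub'
            refine List.Sublist.cons_cons _ (List.Sublist.cons _ (List.Sublist.cons_cons _ ?_))
            exact List.nil_sublist _
          obtain ⟨D, E, F, G, H, hD⟩ := sub_four hsub'
          refine solv_of_crit hq2 hyz (PairPattern.linked ((true, Sum.inr x) ::
            (true, Sum.inr x) :: D) E F G H s1 s2 s3 s4 (Or.inl hne) ?_) hc
          rw [hD]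
          rfl
        exact UU_complete _ R [] true le_rfl hqR hsR hlR (fun h3 => h2 ((Solv_sq2 hR).2 h3))
      · exact Or.inl hc

section
variable {α : Type*} [Primcodable α]

lemma pr_emb {f : α → W} (hf : Primrec f) : Primrec (fun a => emb (f a)) := by
  unfold emb
  have h : Primrec embL := Primrec.pair Primrec.fst (Primrec.sumInl.comp Primrec.snd)
  exact Primrec.list_map hf (h.comp Primrec.snd).to₂

lemma pr_var {s : α → Bool} {x : α → ℕ} (hs : Primrec s) (hx : Primrec x) :
    Primrec (fun a => ((s a, Sum.inr (x a)) : Bool × (Bool ⊕ ℕ))) :=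
  Primrec.pair hs (Primrec.sumInr.comp hx)

lemma pr_cons {β : Type*} [Primcodable β] {f : α → β} {g : α → List β} (hf : Primrec f)
    (hg : Primrec g) : Primrec (fun a => f a :: g a) := Primrec.list_cons.comp hf hg

lemma pr_rdw {z : α → RD} (hz : Primrec z) : Primrec (fun a => rdw (z a)) := by
  unfold rdw
  have hx : Primrec (fun a => (z a).2.1.2) :=
    Primrec.snd.comp (Primrec.fst.comp (Primrec.snd.comp hz))
  have hs : Primrec (fun a => (z a).2.1.1) :=
    Primrec.fst.comp (Primrec.fst.comp (Primrec.snd.comp hz))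
  exact pr_append (Primrec.fst.comp (Primrec.fst.comp hz)) (pr_cons (pr_var hs hx)
    (pr_append (pr_emb (Primrec.snd.comp (Primrec.snd.comp hz)))
      (pr_cons (pr_var (Primrec.not.comp hs) hx) (Primrec.snd.comp (Primrec.fst.comp hz)))))

lemma pr_av {x : α → ℕ} {w : α → EW} (hx : Primrec x) (hw : Primrec w) :
    PrimrecPred (fun a => Av (x a) (w a)) := by
  unfold Av
  refine pr_all (p := fun p a => ¬ p.2 = Sum.inr (x a)) hw ?_
  exact (pr_eq (Primrec.snd.comp Primrec.fst) (Primrec.sumInr.comp (hx.comp Primrec.snd))).not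

lemma pr_einv {w : α → EW} (hw : Primrec w) : Primrec (fun a => einv (w a)) := by
  unfold einv
  have h : Primrec (fun p : Bool × (Bool ⊕ ℕ) => (!p.1, p.2)) :=
    Primrec.pair (Primrec.not.comp Primrec.fst) Primrec.snd
  exact Primrec.list_reverse.comp (Primrec.list_map hw (h.comp Primrec.snd).to₂)

lemma pr_sq2 {x : α → ℕ} {w : α → EW} (hx : Primrec x) (hw : Primrec w) :
    Primrec (fun a => sq2 (x a) (w a)) := by
  unfold sq2
  have h := pr_var (Primrec.const true) hx
  exact pr_cons h (pr_append (Primrec.const []) (pr_cons h hw))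

lemma pr_sdw {z : α → SD} (hz : Primrec z) : Primrec (fun a => sdw (z a)) := by
  unfold sdw
  have h : Primrec (fun a => (((z a).2.2, Sum.inr (z a).2.1) : Bool × (Bool ⊕ ℕ))) :=
    pr_var (Primrec.snd.comp (Primrec.snd.comp hz)) (Primrec.fst.comp (Primrec.snd.comp hz))
  exact pr_append (Primrec.fst.comp (Primrec.fst.comp hz)) (pr_cons h
    (pr_append (Primrec.fst.comp (Primrec.snd.comp (Primrec.fst.comp hz)))
      (pr_cons h (Primrec.snd.comp (Primrec.snd.comp (Primrec.fst.comp hz))))))

lemma pr_sdr {z : α → SD} (hz : Primrec z) : Primrec (fun a => sdr (z a)) := by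
  unfold sdr
  exact pr_append (pr_einv (Primrec.fst.comp (Primrec.snd.comp (Primrec.fst.comp hz))))
    (pr_append (Primrec.snd.comp (Primrec.snd.comp (Primrec.fst.comp hz)))
      (Primrec.fst.comp (Primrec.fst.comp hz)))

end

lemma re_UU : RE UU := by
  refine RE.der ?_
  unfold StepU
  have X1 : Primrec (fun x : (EW × List W × Bool) × List (EW × List W × Bool) => x.1.1) :=
    Primrec.fst.comp Primrec.fst
  have X2 : Primrec (fun x : (EW × List W × Bool) × List (EW × List W × Bool) => x.1.2.1) :=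
    Primrec.fst.comp (Primrec.snd.comp Primrec.fst)
  have X3 : Primrec (fun x : (EW × List W × Bool) × List (EW × List W × Bool) => x.1.2.2) :=
    Primrec.snd.comp (Primrec.snd.comp Primrec.fst)
  have Y : Primrec (fun x : (EW × List W × Bool) × List (EW × List W × Bool) => x.2) :=
    Primrec.snd
  refine RE.or (RE.exd (RE.of_prim ?_)) (RE.exd (RE.and (RE.of_prim ?_) (RE.or
    (RE.and (RE.of_prim ?_) ?_) (RE.and (RE.of_prim ?_) ?_))))
  · have Z : Primrec (fun y : ((EW × List W × Bool) × List (EW × List W × Bool)) × RD => y.2) :=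
      Primrec.snd
    have A : Primrec (fun y : ((EW × List W × Bool) × List (EW × List W × Bool)) × RD =>
      y.2.1.1) := Primrec.fst.comp (Primrec.fst.comp Z)
    have C : Primrec (fun y : ((EW × List W × Bool) × List (EW × List W × Bool)) × RD =>
      y.2.1.2) := Primrec.snd.comp (Primrec.fst.comp Z)
    have V : Primrec (fun y : ((EW × List W × Bool) × List (EW × List W × Bool)) × RD =>
      y.2.2.1.2) := Primrec.snd.comp (Primrec.fst.comp (Primrec.snd.comp Z))
    have U : Primrec (fun y : ((EW × List W × Bool) × List (EW × List W × Bool)) × RD =>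
      y.2.2.2) := Primrec.snd.comp (Primrec.snd.comp Z)
    exact (pr_eq (X1.comp Primrec.fst) (pr_rdw Z)).and ((pr_av V A).and ((pr_av V C).and
      (pr_mem (Y.comp Primrec.fst) (Primrec.pair (pr_append A C) (Primrec.pair
        (pr_cons U (X2.comp Primrec.fst)) (X3.comp Primrec.fst))))))
  · exact pr_eq (X1.comp Primrec.fst) (pr_emb Primrec.snd)
  · exact pr_eq (X3.comp Primrec.fst) (Primrec.const false)
  · exact re_NSv.comp (pr_cons Primrec.snd (X2.comp Primrec.fst))
  · exact pr_eq (X3.comp Primrec.fst) (Primrec.const true)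
  · exact re_NPs.comp (pr_cons Primrec.snd (X2.comp Primrec.fst))

lemma re_Uns : RE Uns := by
  unfold Uns
  refine RE.or (RE.of_prim primrec_crit.not) (RE.or ?_ (RE.exd (RE.and (RE.of_prim ?_)
    (RE.or (RE.of_prim ?_) ?_))))
  · exact re_UU.comp (Primrec.pair Primrec.id (Primrec.const ([], false)))
  · exact pr_eq Primrec.fst (pr_sdw Primrec.snd)
  · exact (primrec_crit.comp (pr_sq2 (Primrec.fst.comp (Primrec.snd.comp Primrec.snd))
      (pr_sdr Primrec.snd))).not
  · exact re_UU.comp (Primrec.pair (pr_sdr Primrec.snd) (Primrec.const ([], true)))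

end Pool.Agent.Lib_helper30
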