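import Pool.Agent.Lib_helper30.Fin

set_option autoImplicit false

namespace Pool.Agent.Lib_helper30

open Filter Topology Set

/-- Substitution for a letter. -/
def sbL (L : List W) (p : Bool × (Bool ⊕ ℕ)) : W :=
  Sum.casesOn p.2 (fun c => [(p.1, c)])
    (fun n => if p.1 = true then L.getD n [] else winv (L.getD n []))

/-- Substitution. -/
def sbst (L : List W) (w : EW) : W := w.flatMap (sbL L)

lemma val_sbst (L : List W) (w : EW) : val (sbst L w) = eG (fun n => val (L.getD n [])) w := by
  induction w with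
  | nil => rfl
  | cons p w ih =>
    have h1 : sbst L (p :: w) = sbL L p ++ sbst L w := rfl
    rw [h1, val_append, ih, eG_cons]
    congr 1
    obtain ⟨s, c | n⟩ := p
    · show val [(s, c)] = _
      rw [val_cons, val_nil, mul_one]
      rfl
    · rw [evL_var]
      cases s
      · show val (winv (L.getD n [])) = _
        rw [val_winv]; rfl
      · rfl

lemma solv_iff_sbst (w : EW) : Solv w ↔ ∃ L : List W, val (sbst L w) = 1 := by
  constructor
  · rintro ⟨σ, hσ, h⟩
    choose wd hwd using fun n => exists_val (hσ n)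
    obtain ⟨N, hN⟩ := exists_bound w
    refine ⟨(List.range N).map wd, ?_⟩
    rw [val_sbst, ← h]
    refine ev_congr _ ?_
    intro p hp n hn
    have h1 := hN p hp n hn
    show val (((List.range N).map wd).getD n []) = σ n
    rw [← hwd n, List.getD_eq_getElem?_getD]
    simp [h1]
  · rintro ⟨L, h⟩
    rw [val_sbst] at h
    exact ⟨_, fun n => val_mem _, h⟩

lemma pr_sbst {α : Type*} [Primcodable α] {L : α → List W} {w : α → EW} (hL : Primrec L)
    (hw : Primrec w) : Primrec (fun a => sbst (L a) (w a)) := by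
  unfold sbst
  refine Primrec.list_flatMap hw ?_
  have h0 : Primrec (fun y : α × (Bool × (Bool ⊕ ℕ)) => y.2.2) := Primrec.snd.comp Primrec.snd
  have h1 : Primrec (fun y : (α × (Bool × (Bool ⊕ ℕ))) × Bool => [(y.1.2.1, y.2)]) :=
    pr_cons (Primrec.pair (Primrec.fst.comp (Primrec.snd.comp Primrec.fst)) Primrec.snd)
      (Primrec.const [])
  have h2 : Primrec (fun y : (α × (Bool × (Bool ⊕ ℕ))) × ℕ => (L y.1.1).getD y.2 []) :=
    (Primrec.list_getD ([] : W)).comp (hL.comp (Primrec.fst.comp Primrec.fst)) Primrec.snd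
  have h3 : Primrec (fun y : (α × (Bool × (Bool ⊕ ℕ))) × ℕ =>
      if y.1.2.1 = true then (L y.1.1).getD y.2 [] else winv ((L y.1.1).getD y.2 [])) :=
    Primrec.ite (Primrec.eq.comp (Primrec.fst.comp (Primrec.snd.comp Primrec.fst))
      (Primrec.const true)) h2 (pr_winv h2)
  exact (Primrec.sumCasesOn h0 h1.to₂ h3.to₂).to₂

lemma re_Solv : RE Solv := by
  refine RE.congr (p := fun w => ∃ L : List W, val (sbst L w) = 1) ?_ solv_iff_sbst
  exact RE.exd (RE.of_prim (pr_one (pr_sbst Primrec.snd Primrec.fst)))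

lemma quad_iff_list (w : EW) : Quad w ↔ ∀ q ∈ w, (q.2 = Sum.inl false ∨ q.2 = Sum.inl true) ∨
    (w.filter (fun a => decide (a.2 = q.2))).length = 2 := by
  have key : ∀ n, oc w n = (w.filter (fun a => decide (a.2 = Sum.inr n))).length := by
    intro n
    unfold oc
    rw [List.countP_eq_length_filter]
  constructor
  · rintro h ⟨s, c | n⟩ hq
    · left
      cases c
      · exact Or.inl rfl
      · exact Or.inr rfl
    · right
      have h1 : oc w n = 0 ∨ oc w n = 2 := h n
      have h2 := oc_pos.2 ⟨s, hq⟩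
      rw [key] at h1 h2
      simp only
      omega
  · intro h n
    show oc w n = 0 ∨ oc w n = 2
    by_cases h0 : oc w n = 0
    · exact Or.inl h0
    · right
      obtain ⟨s, hs⟩ := oc_pos.1 (Nat.pos_of_ne_zero h0)
      rcases h _ hs with (h1 | h1) | h1
      · simp at h1
      · simp at h1
      · rw [key]; exact h1

lemma pr_Quad : PrimrecPred Quad := by
  have h1 : PrimrecRel (fun (a q : Bool × (Bool ⊕ ℕ)) => a.2 = q.2) :=
    Primrec.eq.comp (Primrec.snd.comp Primrec.fst) (Primrec.snd.comp Primrec.snd)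
  have h2 : Primrec₂ (fun (w : EW) (q : Bool × (Bool ⊕ ℕ)) =>
      w.filter (fun a => decide (a.2 = q.2))) := PrimrecRel.listFilter h1
  have h3 : PrimrecPred (fun w : EW => ∀ q ∈ w, (q.2 = Sum.inl false ∨ q.2 = Sum.inl true) ∨
      (w.filter (fun a => decide (a.2 = q.2))).length = 2) := by
    have h4 : PrimrecRel (fun (q : Bool × (Bool ⊕ ℕ)) (w : EW) =>
        (q.2 = Sum.inl false ∨ q.2 = Sum.inl true) ∨
        (w.filter (fun a => decide (a.2 = q.2))).length = 2) :=
      ((pr_eq (Primrec.snd.comp Primrec.fst) (Primrec.const _)).or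
      (pr_eq (Primrec.snd.comp Primrec.fst) (Primrec.const _))).or
      (pr_eqn (Primrec.list_length.comp (h2.comp Primrec.snd Primrec.fst)) (Primrec.const 2))
    exact pr_all Primrec.id h4
  exact h3.of_eq (fun w => (quad_iff_list w).symm)

/-- **Quadratic equations in Thompson's group `F` are decidable**. -/
theorem decidable_quadratic : ComputablePred (fun w : EW => Quad w ∧ Solv w) := by
  rw [ComputablePred.computable_iff_re_compl_re']
  constructor
  · exact (RE.and (RE.of_prim pr_Quad) re_Solv).rePred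
  · have h : RE (fun w : EW => ¬ Quad w ∨ (Quad w ∧ Uns w)) :=
      RE.or (RE.of_prim pr_Quad.not) (RE.and (RE.of_prim pr_Quad) re_Uns)
    refine (h.congr ?_).rePred
    intro w
    by_cases hq : Quad w
    · have := Uns_iff hq
      tauto
    · tauto

end Pool.Agent.Lib_helper30
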