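import Pool.Agent.Lib_helper30.Thompson

set_option autoImplicit false

namespace Pool.Agent.Lib_helper30

open Filter Topology Set

/-- `f` is affine on `I` with slope a power of two and dyadic constant. -/
def AffOn (f : ℝ → ℝ) (I : Set ℝ) : Prop := ∃ m : ℤ, ∃ b ∈ Dy, ∀ t ∈ I, f t = 2 ^ m * t + b

lemma AffOn.mono {f : ℝ → ℝ} {I J : Set ℝ} (h : AffOn f I) (hJ : J ⊆ I) : AffOn f J := by
  obtain ⟨m, b, hb, h⟩ := h
  exact ⟨m, b, hb, fun t ht => h t (hJ ht)⟩

lemma exists_bounds {f : ℝ ≃o ℝ} (hf : f ∈ GG) : ∃ B : ℕ, ∃ p q : ℤ, 0 < B ∧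
    (∀ t : ℝ, t ≤ -B → f t = t + p) ∧ (∀ t : ℝ, B ≤ t → f t = t + q) := by
  obtain ⟨_, ⟨p, hp⟩, ⟨q, hq⟩⟩ := hf
  obtain ⟨a, ha⟩ := eventually_atBot.1 hp
  obtain ⟨b, hb⟩ := eventually_atTop.1 hq
  obtain ⟨B, hB⟩ := exists_nat_gt (max (max (-a) b) 0)
  have h1 : -a < B := (le_max_left _ _).trans_lt ((le_max_left _ _).trans_lt hB)
  have h2 : b < B := (le_max_right _ _).trans_lt ((le_max_left _ _).trans_lt hB)
  have h3 : (0 : ℝ) < B := (le_max_right _ _).trans_lt hB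
  refine ⟨B, p, q, by exact_mod_cast h3, fun t ht => ha t (by linarith), fun t ht => hb t (by linarith)⟩

lemma level_local {f : ℝ ≃o ℝ} (hf : f ∈ HH) (x : ℝ) : ∃ ε > 0, ∃ K0 : ℕ, ∀ K ≥ K0, ∀ i : ℤ,
    (Icc ((i : ℝ) / 2 ^ K) ((i + 1 : ℝ) / 2 ^ K) ∩ Ioo (x - ε) (x + ε)).Nonempty →
    AffOn f (Icc ((i : ℝ) / 2 ^ K) ((i + 1 : ℝ) / 2 ^ K)) := by
  obtain ⟨ml, bl, hbl, hl⟩ := hf.left x
  obtain ⟨mr, br, hbr, hr⟩ := hf.right x
  obtain ⟨l, hl1, hl2⟩ := mem_nhdsLE_iff_exists_Ioc_subset.1 hl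
  obtain ⟨r, hr1, hr2⟩ := mem_nhdsGE_iff_exists_Ico_subset.1 hr
  simp only [mem_Iio, mem_Ioi] at hl1 hr1
  -- two sided
  have hboth : ∃ δ > 0, x ∉ Dy → AffOn f (Ioo (x - δ) (x + δ)) := by
    by_cases hx : x ∈ Dy
    · exact ⟨1, one_pos, fun h => absurd hx h⟩
    · obtain ⟨m, b, hb, h⟩ := hf.both x hx
      obtain ⟨δ, hδ, h2⟩ := Metric.mem_nhds_iff.1 h
      refine ⟨δ, hδ, fun _ => ⟨m, b, hb, fun t ht => h2 ?_⟩⟩
      rw [Real.ball_eq_Ioo]; exact ht
  obtain ⟨δ, hδ, hb⟩ := hboth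
  set η := min δ (min (x - l) (r - x)) with hη
  have hη0 : 0 < η := lt_min hδ (lt_min (by linarith) (by linarith))
  have hηδ : η ≤ δ := min_le_left _ _
  have hηl : η ≤ x - l := (min_le_right _ _).trans (min_le_left _ _)
  have hηr : η ≤ r - x := (min_le_right _ _).trans (min_le_right _ _)
  obtain ⟨K1, hK1⟩ : ∃ n : ℕ, 2 / η < 2 ^ n := pow_unbounded_of_one_lt _ (by norm_num)
  -- dyadic level of x
  have hdy : ∃ n0 : ℕ, x ∈ Dy → ∀ K ≥ n0, ∃ a : ℤ, x * 2 ^ K = a := by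
    by_cases hx : x ∈ Dy
    · obtain ⟨n, a, ha⟩ := hx
      refine ⟨n, fun _ K hK => ⟨a * 2 ^ (K - n), ?_⟩⟩
      push_cast
      rw [← ha, mul_assoc, ← pow_add]
      congr 2; omega
    · exact ⟨0, fun h => absurd h hx⟩
  obtain ⟨n0, hn0⟩ := hdy
  refine ⟨η / 2, by linarith, max K1 n0, ?_⟩
  intro K hK i hne
  obtain ⟨y, ⟨hy1, hy2⟩, hy3, hy4⟩ := hne
  have h2K : (0 : ℝ) < 2 ^ K := by positivity
  have hlen : 1 / 2 ^ K < η / 2 := by
    have : (2 : ℝ) ^ K1 ≤ 2 ^ K := pow_le_pow_right₀ (by norm_num) ((le_max_left _ _).trans hK)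
    have h3 : 2 / η < 2 ^ K := hK1.trans_le this
    rw [div_lt_iff₀ hη0] at h3
    rw [div_lt_iff₀ h2K]
    linarith
  have hsum : ((i + 1 : ℝ)) / 2 ^ K = i / 2 ^ K + 1 / 2 ^ K := by ring
  have hsub : Icc ((i : ℝ) / 2 ^ K) ((i + 1 : ℝ) / 2 ^ K) ⊆ Ioo (x - η) (x + η) := by
    intro t ht
    constructor
    · have := ht.1; linarith
    · have := ht.2; linarith
  rcases le_or_gt ((i + 1 : ℝ) / 2 ^ K) x with h1 | h1
  · refine ⟨ml, bl, hbl, fun t ht => hl2 ⟨?_, ht.2.trans h1⟩⟩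
    have := (hsub ht).1; linarith
  · rcases le_or_gt x ((i : ℝ) / 2 ^ K) with h2 | h2
    · refine ⟨mr, br, hbr, fun t ht => hr2 ⟨h2.trans ht.1, ?_⟩⟩
      have := (hsub ht).2; linarith
    · by_cases hx : x ∈ Dy
      · exfalso
        obtain ⟨a, ha⟩ := hn0 hx K ((le_max_right _ _).trans hK)
        rw [div_lt_iff₀ h2K, ha] at h2
        rw [lt_div_iff₀ h2K, ha] at h1
        have h3 : i < a := by exact_mod_cast h2
        have h4 : a < i + 1 := by exact_mod_cast h1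
        omega
      · exact (hb hx).mono (fun t ht => ⟨by have := (hsub ht).1; linarith,
          by have := (hsub ht).2; linarith⟩)

/-- Every element of `GG` is affine on all standard dyadic intervals of a suitable level. -/
lemma exists_level {f : ℝ ≃o ℝ} (hf : f ∈ GG) : ∃ K : ℕ, ∀ i : ℤ,
    AffOn f (Icc ((i : ℝ) / 2 ^ K) ((i + 1 : ℝ) / 2 ^ K)) := by
  obtain ⟨B, p, q, hB, hp, hq⟩ := exists_bounds hf
  have hcomp : IsCompact (Icc (-(B : ℝ)) B) := isCompact_Icc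
  have key : ∃ K0 : ℕ, ∀ K ≥ K0, ∀ i : ℤ,
      (Icc ((i : ℝ) / 2 ^ K) ((i + 1 : ℝ) / 2 ^ K) ∩ Icc (-(B : ℝ)) B).Nonempty →
      AffOn f (Icc ((i : ℝ) / 2 ^ K) ((i + 1 : ℝ) / 2 ^ K)) := by
    refine hcomp.induction_on (p := fun s => ∃ K0 : ℕ, ∀ K ≥ K0, ∀ i : ℤ,
      (Icc ((i : ℝ) / 2 ^ K) ((i + 1 : ℝ) / 2 ^ K) ∩ s).Nonempty →
      AffOn f (Icc ((i : ℝ) / 2 ^ K) ((i + 1 : ℝ) / 2 ^ K))) ?_ ?_ ?_ ?_
    · exact ⟨0, fun K _ i h => by simp at h⟩
    · rintro s t hst ⟨K0, h⟩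
      exact ⟨K0, fun K hK i hne => h K hK i (hne.mono (inter_subset_inter_right _ hst))⟩
    · rintro s t ⟨K0, h⟩ ⟨K1, h'⟩
      refine ⟨max K0 K1, fun K hK i hne => ?_⟩
      rw [inter_union_distrib_left] at hne
      rcases union_nonempty.1 hne with hne | hne
      · exact h K ((le_max_left _ _).trans hK) i hne
      · exact h' K ((le_max_right _ _).trans hK) i hne
    · intro x _
      obtain ⟨ε, hε, K0, h⟩ := level_local hf.1 x
      exact ⟨Ioo (x - ε) (x + ε), mem_nhdsWithin_of_mem_nhds (Ioo_mem_nhds (by linarith)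
        (by linarith)), K0, h⟩
  obtain ⟨K0, h⟩ := key
  refine ⟨K0, fun i => ?_⟩
  by_cases hne : (Icc ((i : ℝ) / 2 ^ K0) ((i + 1 : ℝ) / 2 ^ K0) ∩ Icc (-(B : ℝ)) B).Nonempty
  · exact h K0 le_rfl i hne
  · have hle : (i : ℝ) / 2 ^ K0 ≤ (i + 1 : ℝ) / 2 ^ K0 := by
      apply div_le_div_of_nonneg_right _ (by positivity)
      linarith
    rcases le_or_gt ((i + 1 : ℝ) / 2 ^ K0) (-(B : ℝ)) with h1 | h1
    · exact ⟨0, p, Dy_int p, fun t ht => by rw [hp t (ht.2.trans h1)]; simp⟩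
    · rcases le_or_gt (B : ℝ) ((i : ℝ) / 2 ^ K0) with h2 | h2
      · exact ⟨0, q, Dy_int q, fun t ht => by rw [hq t (h2.trans ht.1)]; simp⟩
      · exfalso
        apply hne
        have hBR : (0 : ℝ) < B := by exact_mod_cast hB
        refine ⟨max ((i : ℝ) / 2 ^ K0) (-(B : ℝ)), ⟨le_max_left _ _, max_le hle h1.le⟩,
          le_max_right _ _, max_le h2.le (by linarith)⟩

/-! ### Integer-affine maps -/

/-- `E` maps each unit interval `[i,i+1]` affinely onto an integer interval of length `2^e`. -/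
structure IA (E : ℝ ≃o ℝ) (p q : ℤ) : Prop where
  unit : ∀ i : ℤ, ∃ e : ℕ, ∃ A : ℤ, ∀ t : ℝ, (i : ℝ) ≤ t → t ≤ i + 1 → E t = A + 2 ^ e * (t - i)
  bot : ∃ B : ℤ, ∀ t : ℝ, t ≤ B → E t = t + p
  top : ∃ B : ℤ, ∀ t : ℝ, B ≤ t → E t = t + q

lemma IA.growth {E : ℝ ≃o ℝ} {p q : ℤ} (h : IA E p q) (i : ℤ) (n : ℕ) :
    E i + n ≤ E (i + n : ℝ) := by
  induction n with
  | zero => simp
  | succ n ih =>
    obtain ⟨e, A, hA⟩ := h.unit (i + n)
    have h1 := hA (i + n) (by push_cast; linarith) (by push_cast; linarith)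
    have h2 := hA (i + n + 1) (by push_cast; linarith) (by push_cast; linarith)
    push_cast at h1 h2 ⊢
    have h3 : (1 : ℝ) ≤ 2 ^ e := one_le_pow₀ (by norm_num)
    rw [← add_assoc (i : ℝ)]
    nlinarith

lemma IA.le {E : ℝ ≃o ℝ} {p q : ℤ} (h : IA E p q) : p ≤ q := by
  obtain ⟨B1, h1⟩ := h.bot
  obtain ⟨B2, h2⟩ := h.top
  set i := min B1 B2 with hi
  obtain ⟨n, hn⟩ : ∃ n : ℕ, B2 = i + n := ⟨(B2 - i).toNat, by
    rw [Int.toNat_of_nonneg]; ring
    have : i ≤ B2 := min_le_right _ _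
    omega⟩
  have h3 := h.growth i n
  have h4 : (i : ℝ) ≤ B1 := by exact_mod_cast min_le_left _ _
  have h5 : ((i : ℝ) + n) = B2 := by rw [hn]; push_cast; ring
  rw [h5, h1 _ h4, h2 _ le_rfl, ← h5] at h3
  have : (p : ℝ) ≤ q := by linarith
  exact_mod_cast this

lemma tr_zpow (a : ℝ) (n : ℤ) : tr a ^ n = tr (n * a) := by
  rcases n.eq_nat_or_neg with ⟨m, rfl | rfl⟩
  · rw [zpow_natCast, tr_pow]; simp
  · rw [zpow_neg, zpow_natCast, tr_pow, tr_inv]; congr 1; push_cast; ring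

lemma tr_int_mem (i : ℤ) : tr (i : ℝ) ∈ Subgroup.closure {X0, X1} := by
  have h : tr (i : ℝ) = X0 ^ (-i) := by
    unfold X0
    rw [tr_zpow]; congr 1; push_cast; ring
  rw [h]
  exact Subgroup.zpow_mem _ (Subgroup.subset_closure (by simp)) _

/-- The doubling map based at an integer. -/
noncomputable def dblAt (i : ℤ) : ℝ ≃o ℝ := tr (i : ℝ) * dbl * tr (-(i : ℝ))

lemma dblAt_mem (i : ℤ) : dblAt i ∈ Subgroup.closure {X0, X1} := by
  unfold dblAt
  refine Subgroup.mul_mem _ (Subgroup.mul_mem _ (tr_int_mem i) ?_) ?_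
  · have : dbl = X1⁻¹ := by unfold X1; rw [inv_inv]
    rw [this]
    exact Subgroup.inv_mem _ (Subgroup.subset_closure (by simp))
  · have := tr_int_mem (-i)
    push_cast at this
    exact this

lemma dblAt_inv_le (i : ℤ) {t : ℝ} (ht : t ≤ i) : (dblAt i)⁻¹ t = t := by
  have : dblAt i t = t := by
    unfold dblAt
    simp only [mul_apply', tr_apply]
    rw [dbl_le (by linarith)]; ring
  have h2 := inv_apply' (dblAt i) t
  rwa [this] at h2

lemma dblAt_inv_mid (i : ℤ) {t : ℝ} (h0 : i ≤ t) (h1 : t ≤ i + 2) :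
    (dblAt i)⁻¹ t = i + (t - i) / 2 := by
  have : dblAt i (i + (t - i) / 2) = t := by
    unfold dblAt
    simp only [mul_apply', tr_apply]
    rw [dbl_mid (by linarith) (by linarith)]; ring
  have h2 := inv_apply' (dblAt i) (i + (t - i) / 2)
  rwa [this] at h2

lemma dblAt_inv_ge (i : ℤ) {t : ℝ} (h1 : i + 2 ≤ t) : (dblAt i)⁻¹ t = t - 1 := by
  have : dblAt i (t - 1) = t := by
    unfold dblAt
    simp only [mul_apply', tr_apply]
    rw [dbl_ge (by linarith)]; ring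
  have h2 := inv_apply' (dblAt i) (t - 1)
  rwa [this] at h2

lemma IA.mem_closure (n : ℕ) : ∀ (E : ℝ ≃o ℝ) (p q : ℤ), IA E p q → (q - p).toNat = n →
    E ∈ Subgroup.closure {X0, X1} := by
  induction n using Nat.strong_induction_on with
  | _ n ih =>
    intro E p q h hn
    by_cases hall : ∀ i : ℤ, ∃ A : ℤ, ∀ t : ℝ, (i : ℝ) ≤ t → t ≤ i + 1 → E t = A + (t - i)
    · -- `E` is a translation
      have hE : E = tr (p : ℝ) := by
        obtain ⟨B, hB⟩ := h.bot
        have hint : ∀ k : ℕ, E (B + k : ℝ) = B + k + p := by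
          intro k
          induction k with
          | zero => rw [hB _ (by simp)]
          | succ k ihk =>
            obtain ⟨A, hA⟩ := hall (B + k)
            have h1 := hA (B + k) (by push_cast; linarith) (by push_cast; linarith)
            have h2 := hA (B + k + 1) (by push_cast; linarith) (by push_cast; linarith)
            push_cast at h1 h2 ⊢
            rw [← add_assoc, h2]
            linarith
        ext t
        rw [tr_apply]
        rcases le_total t B with ht | ht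
        · exact hB t ht
        · obtain ⟨k, hk⟩ : ∃ k : ℕ, (⌊t⌋ : ℤ) = B + k := ⟨(⌊t⌋ - B).toNat, by
            rw [Int.toNat_of_nonneg]; ring
            have : B ≤ ⌊t⌋ := Int.le_floor.2 ht
            omega⟩
          obtain ⟨A, hA⟩ := hall ⌊t⌋
          have h1 := hA ⌊t⌋ le_rfl (by linarith)
          have h2 := hA t (Int.floor_le t) (Int.lt_floor_add_one t).le
          have h3 := hint k
          have h4 : ((⌊t⌋ : ℤ) : ℝ) = B + k := by rw [hk]; push_cast; ring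
          rw [← h4] at h3
          rw [h2]; linarith
      rw [hE]; exact tr_int_mem p
    · push Not at hall
      obtain ⟨i, hi⟩ := hall
      obtain ⟨e, A, hA⟩ := h.unit i
      have he : e ≠ 0 := by
        rintro rfl
        obtain ⟨t, h1, h2, h3⟩ := hi A
        apply h3
        rw [hA t h1 h2]; simp
      obtain ⟨e', rfl⟩ : ∃ e', e = e' + 1 := ⟨e - 1, by omega⟩
      have h' : IA (E * (dblAt i)⁻¹) p (q - 1) := by
        refine ⟨?_, ?_, ?_⟩
        · intro j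
          rcases lt_trichotomy j i with hj | rfl | hj
          · obtain ⟨e1, A1, hA1⟩ := h.unit j
            refine ⟨e1, A1, fun t h1 h2 => ?_⟩
            have h3 : (j : ℝ) + 1 ≤ i := by exact_mod_cast hj
            rw [mul_apply', dblAt_inv_le i (by linarith), hA1 t h1 h2]
          · refine ⟨e', A, fun t h1 h2 => ?_⟩
            rw [mul_apply', dblAt_inv_mid j h1 (by linarith), hA _ (by linarith) (by linarith),
              pow_succ]
            ring
          · rcases eq_or_lt_of_le (Int.add_one_le_iff.2 hj) with rfl | hj2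
            · refine ⟨e', A + 2 ^ e', fun t h1 h2 => ?_⟩
              push_cast at h1 h2 ⊢
              rw [mul_apply', dblAt_inv_mid i (by linarith) (by linarith),
                hA _ (by linarith) (by linarith), pow_succ]
              ring
            · obtain ⟨e1, A1, hA1⟩ := h.unit (j - 1)
              refine ⟨e1, A1, fun t h1 h2 => ?_⟩
              have h3 : (i : ℝ) + 2 ≤ j := by
                have : i + 2 ≤ j := by omega
                exact_mod_cast this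
              rw [mul_apply', dblAt_inv_ge i (by linarith),
                hA1 _ (by push_cast; linarith) (by push_cast; linarith)]
              push_cast; ring
        · obtain ⟨B, hB⟩ := h.bot
          refine ⟨min B i, fun t ht => ?_⟩
          have h1 : t ≤ B := ht.trans (by exact_mod_cast min_le_left _ _)
          have h2 : t ≤ i := ht.trans (by exact_mod_cast min_le_right _ _)
          rw [mul_apply', dblAt_inv_le i h2, hB t h1]
        · obtain ⟨B, hB⟩ := h.top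
          refine ⟨max (B + 1) (i + 2), fun t ht => ?_⟩
          have h1 : (B : ℝ) + 1 ≤ t := le_trans (by exact_mod_cast le_max_left _ _) ht
          have h2 : (i : ℝ) + 2 ≤ t := le_trans (by exact_mod_cast le_max_right _ _) ht
          rw [mul_apply', dblAt_inv_ge i h2, hB _ (by linarith)]
          push_cast; ring
      have hle := h'.le
      have h1 := ih ((q - 1 - p).toNat) (by omega) _ p (q - 1) h' rfl
      have h2 : E = E * (dblAt i)⁻¹ * dblAt i := by rw [inv_mul_cancel_right]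
      rw [h2]
      exact Subgroup.mul_mem _ h1 (dblAt_mem i)

/-- Scaling by `2^K` on `[B₁,B₂]`, translations outside. -/
noncomputable def cutSc (K : ℕ) (B₁ B₂ : ℤ) (h : B₁ < B₂) : ℝ ≃o ℝ :=
  glue (glue (tr ((2 ^ K - 1) * B₁)) (sc K) B₁ (by
    rw [tr_apply, sc_apply, zpow_natCast]; ring)) (tr ((2 ^ K - 1) * B₂)) B₂ (by
    have : (B₁ : ℝ) ≤ B₂ := by exact_mod_cast h.le
    rw [glue_ge this, tr_apply, sc_apply, zpow_natCast]; ring)

lemma cutSc_le {K : ℕ} {B₁ B₂ : ℤ} {h : B₁ < B₂} {t : ℝ} (ht : t ≤ B₁) :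
    cutSc K B₁ B₂ h t = t + (2 ^ K - 1) * B₁ := by
  have : (B₁ : ℝ) ≤ B₂ := by exact_mod_cast h.le
  unfold cutSc
  rw [glue_le (ht.trans this), glue_le ht, tr_apply]

lemma cutSc_mid {K : ℕ} {B₁ B₂ : ℤ} {h : B₁ < B₂} {t : ℝ} (h1 : B₁ ≤ t) (h2 : t ≤ B₂) :
    cutSc K B₁ B₂ h t = 2 ^ K * t := by
  unfold cutSc
  rw [glue_le h2, glue_ge h1, sc_apply, zpow_natCast]

lemma cutSc_ge {K : ℕ} {B₁ B₂ : ℤ} {h : B₁ < B₂} {t : ℝ} (ht : B₂ ≤ t) :
    cutSc K B₁ B₂ h t = t + (2 ^ K - 1) * B₂ := by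
  unfold cutSc
  rw [glue_ge ht, tr_apply]

lemma cutSc_IA (K : ℕ) (B₁ B₂ : ℤ) (h : B₁ < B₂) :
    IA (cutSc K B₁ B₂ h) ((2 ^ K - 1) * B₁) ((2 ^ K - 1) * B₂) := by
  refine ⟨?_, ⟨B₁, fun t ht => by rw [cutSc_le ht]; push_cast; ring⟩,
    ⟨B₂, fun t ht => by rw [cutSc_ge ht]; push_cast; ring⟩⟩
  intro i
  rcases lt_or_ge i B₁ with h1 | h1
  · refine ⟨0, i + (2 ^ K - 1) * B₁, fun t h2 h3 => ?_⟩
    have h4 : (i : ℝ) + 1 ≤ B₁ := by exact_mod_cast h1
    rw [cutSc_le (by linarith)]; push_cast; ring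
  · rcases lt_or_ge i B₂ with h2 | h2
    · refine ⟨K, 2 ^ K * i, fun t h3 h4 => ?_⟩
      have h5 : (i : ℝ) + 1 ≤ B₂ := by exact_mod_cast h2
      have h6 : (B₁ : ℝ) ≤ i := by exact_mod_cast h1
      rw [cutSc_mid (by linarith) (by linarith)]; push_cast; ring
    · refine ⟨0, i + (2 ^ K - 1) * B₂, fun t h3 h4 => ?_⟩
      have h5 : (B₂ : ℝ) ≤ i := by exact_mod_cast h2
      rw [cutSc_ge (by linarith)]; push_cast; ring

/-- The group `GG` is generated by `X0` and `X1`. -/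
theorem GG_eq_closure : GG = Subgroup.closure {X0, X1} := by
  apply le_antisymm
  · intro f hf
    obtain ⟨B, p, q, hB, hp, hq⟩ := exists_bounds hf
    obtain ⟨K, hK⟩ := exists_level hf
    have hBR : (0 : ℝ) < B := by exact_mod_cast hB
    -- integrality at a high level
    have hlevel : ∀ i : ℤ, ∃ K' : ℕ, ∀ K1 ≥ K', ∃ e : ℕ, ∃ A : ℤ, ∀ t : ℝ, (i : ℝ) ≤ t → t ≤ i + 1 →
        2 ^ K1 * f (t / 2 ^ K) = A + 2 ^ e * (t - i) := by
      intro i
      obtain ⟨m, b, ⟨n, a, ha⟩, hfa⟩ := hK i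
      -- `2^{K1} (2^m t / 2^K + b)`
      refine ⟨K + m.natAbs + n, fun K1 hK1 => ?_⟩
      obtain ⟨e, he⟩ : ∃ e : ℕ, (e : ℤ) = K1 - K + m := ⟨((K1 : ℤ) - K + m).toNat, by
        rw [Int.toNat_of_nonneg]; omega⟩
      refine ⟨e, a * 2 ^ (K1 - n) + 2 ^ e * i, fun t h1 h2 => ?_⟩
      have h2K : (0 : ℝ) < 2 ^ K := by positivity
      rw [hfa (t / 2 ^ K) ⟨by gcongr, by gcongr⟩]
      have h3 : (2 : ℝ) ^ K1 * (2 ^ m * (t / 2 ^ K)) = 2 ^ e * t := by
        have h4 : (2 : ℝ) ^ e = 2 ^ K1 * 2 ^ m / 2 ^ K := by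
          rw [← zpow_natCast, he, zpow_add₀ (by norm_num), zpow_sub₀ (by norm_num),
            zpow_natCast, zpow_natCast]
          field_simp
        rw [h4]; field_simp
      have h5 : (2 : ℝ) ^ K1 * b = a * 2 ^ (K1 - n) := by
        rw [← ha]
        have : (2 : ℝ) ^ K1 = 2 ^ n * 2 ^ (K1 - n) := by
          rw [← pow_add]; congr 1; omega
        rw [this]; ring
      rw [mul_add, h3, h5]
      push_cast; ring
    -- uniform choice
    have hunif : ∀ s : Finset ℤ, ∃ K' : ℕ, ∀ K1 ≥ K', ∀ i ∈ s, ∃ e : ℕ, ∃ A : ℤ,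
        ∀ t : ℝ, (i : ℝ) ≤ t → t ≤ i + 1 → 2 ^ K1 * f (t / 2 ^ K) = A + 2 ^ e * (t - i) := by
      intro s
      induction s using Finset.induction_on with
      | empty => exact ⟨0, by simp⟩
      | insert a s _ ih =>
        obtain ⟨K1, h1⟩ := ih
        obtain ⟨K2, h2⟩ := hlevel a
        refine ⟨max K1 K2, fun K3 hK3 i hi => ?_⟩
        rcases Finset.mem_insert.1 hi with rfl | hi
        · exact h2 K3 ((le_max_right _ _).trans hK3)
        · exact h1 K3 ((le_max_left _ _).trans hK3) i hi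
    obtain ⟨K', hK'⟩ := hunif (Finset.Ico (-(2 ^ K * B : ℤ)) (2 ^ K * B))
    have hK'' := hK' K' le_rfl
    -- bounds
    have hlt : -(B : ℤ) < B := by omega
    have hfB : f B = B + q := hq _ le_rfl
    have hfB' : f (-(B : ℝ)) = -B + p := hp _ le_rfl
    have hlt' : -(B : ℤ) + p < B + q := by
      have h1 : f (-(B : ℝ)) < f B := f.strictMono (by linarith)
      rw [hfB, hfB'] at h1
      exact_mod_cast h1
    set D2 := cutSc K (-(B : ℤ)) B hlt with hD2
    set D1 := cutSc K' (-(B : ℤ) + p) (B + q) hlt' with hD1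
    have hD2mem := (cutSc_IA K (-(B : ℤ)) B hlt).mem_closure _ _ _ _ rfl
    have hD1mem := (cutSc_IA K' (-(B : ℤ) + p) (B + q) hlt').mem_closure _ _ _ _ rfl
    have h2K : (0 : ℝ) < 2 ^ K := by positivity
    have h2K' : (0 : ℝ) < 2 ^ K' := by positivity
    -- inverse of D2
    have hinv_le : ∀ t : ℝ, t ≤ -(2 ^ K * B) → D2⁻¹ t = t + (2 ^ K - 1) * B := by
      intro t ht
      have h1 : D2 (t + (2 ^ K - 1) * B) = t := by
        rw [hD2, cutSc_le]
        · push_cast; ring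
        · push_cast; linarith
      have h2 := inv_apply' D2 (t + (2 ^ K - 1) * B)
      rwa [h1] at h2
    have hinv_ge : ∀ t : ℝ, (2 ^ K * B) ≤ t → D2⁻¹ t = t - (2 ^ K - 1) * B := by
      intro t ht
      have h1 : D2 (t - (2 ^ K - 1) * B) = t := by
        rw [hD2, cutSc_ge]
        · push_cast; ring
        · push_cast; linarith
      have h2 := inv_apply' D2 (t - (2 ^ K - 1) * B)
      rwa [h1] at h2
    have hinv_mid : ∀ t : ℝ, -(2 ^ K * B) ≤ t → t ≤ (2 ^ K * B) → D2⁻¹ t = t / 2 ^ K := by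
      intro t ht ht'
      have h1 : D2 (t / 2 ^ K) = t := by
        rw [hD2, cutSc_mid]
        · field_simp
        · push_cast; rw [le_div_iff₀ h2K]; linarith
        · push_cast; rw [div_le_iff₀ h2K]; linarith
      have h2 := inv_apply' D2 (t / 2 ^ K)
      rwa [h1] at h2
    have hE : IA (D1 * f * D2⁻¹) ((2 ^ K - 1) * B + p + (2 ^ K' - 1) * (-(B : ℤ) + p))
        (-((2 ^ K - 1) * B) + q + (2 ^ K' - 1) * (B + q)) := by
      have hbot : ∀ t : ℝ, t ≤ -(2 ^ K * B) → (D1 * f * D2⁻¹) t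
          = t + (((2 ^ K - 1) * B + p + (2 ^ K' - 1) * (-(B : ℤ) + p) : ℤ) : ℝ) := by
        intro t ht
        have h1 : t + (2 ^ K - 1) * B ≤ -B := by nlinarith
        rw [mul_apply', mul_apply', hinv_le t ht, hp _ h1, hD1, cutSc_le]
        · push_cast; ring
        · push_cast; linarith
      have htop : ∀ t : ℝ, (2 ^ K * B) ≤ t → (D1 * f * D2⁻¹) t
          = t + ((-((2 ^ K - 1) * B) + q + (2 ^ K' - 1) * (B + q) : ℤ) : ℝ) := by
        intro t ht
        have h1 : (B : ℝ) ≤ t - (2 ^ K - 1) * B := by nlinarith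
        rw [mul_apply', mul_apply', hinv_ge t ht, hq _ h1, hD1, cutSc_ge]
        · push_cast; ring
        · push_cast; linarith
      refine ⟨?_, ⟨-(2 ^ K * B), fun t ht => hbot t (by push_cast at ht; exact ht)⟩,
        ⟨2 ^ K * B, fun t ht => htop t (by push_cast at ht; exact ht)⟩⟩
      intro i
      rcases lt_or_ge i (-(2 ^ K * B : ℤ)) with h1 | h1
      · refine ⟨0, i + (((2 ^ K - 1) * B + p + (2 ^ K' - 1) * (-(B : ℤ) + p))), fun t h2 h3 => ?_⟩
        have h4 : (i : ℝ) + 1 ≤ -(2 ^ K * B) := by exact_mod_cast h1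
        rw [hbot t (by linarith)]
        push_cast; ring
      · rcases lt_or_ge i (2 ^ K * B : ℤ) with h2 | h2
        · obtain ⟨e, A, hA⟩ := hK'' i (Finset.mem_Ico.2 ⟨h1, h2⟩)
          refine ⟨e, A, fun t h3 h4 => ?_⟩
          have h5 : (-(2 ^ K * B) : ℝ) ≤ i := by exact_mod_cast h1
          have h6 : (i : ℝ) + 1 ≤ 2 ^ K * B := by exact_mod_cast h2
          rw [mul_apply', mul_apply', hinv_mid t (by linarith) (by linarith), hD1, cutSc_mid]
          · exact hA t h3 h4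
          · push_cast
            rw [← hfB']
            apply f.monotone
            rw [le_div_iff₀ h2K]; linarith
          · push_cast
            rw [← hfB]
            apply f.monotone
            rw [div_le_iff₀ h2K]; linarith
        · refine ⟨0, i + (-((2 ^ K - 1) * B) + q + (2 ^ K' - 1) * (B + q)), fun t h3 h4 => ?_⟩
          have h4 : (2 ^ K * B : ℝ) ≤ i := by exact_mod_cast h2
          rw [htop t (by linarith)]
          push_cast; ring
    have hEmem := hE.mem_closure _ _ _ _ rfl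
    have h3 : f = D1⁻¹ * (D1 * f * D2⁻¹) * D2 := by group
    rw [h3]
    exact Subgroup.mul_mem _ (Subgroup.mul_mem _ (Subgroup.inv_mem _ hD1mem) hEmem) hD2mem
  · rw [Subgroup.closure_le]
    rintro f (rfl | hf)
    · refine ⟨tr_mem_HH ?_, ⟨-1, ?_⟩, ⟨-1, ?_⟩⟩
      · exact Dy.neg_mem Dy.one_mem
      · simp [X0]
      · simp [X0]
    · rw [Set.mem_singleton_iff.1 hf]
      refine ⟨HH.inv_mem dbl_mem_HH, ⟨0, ?_⟩, ⟨-1, ?_⟩⟩
      · filter_upwards [eventually_le_atBot 0] with t ht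
        rw [X1_le ht]; simp
      · filter_upwards [eventually_ge_atTop 2] with t ht
        rw [X1_ge ht]; push_cast; ring

end Pool.Agent.Lib_helper30
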