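import Pool.Agent.Lib_helper30.Bfc

set_option autoImplicit false

namespace Pool.Agent.Lib_helper30

open Filter Topology Set

/-- The steering lemma with an arbitrary base point. -/
theorem steering_at : ∃ M₀ : ℕ, 0 < M₀ ∧ ∀ Y ∈ Dy, ∀ c ∈ HH, ∀ y ∈ HH,
    (∀ t : ℝ, t < c (y t)) → (∀ t : ℝ, Y ≤ t → t ≤ Y + M₀ → c t = t + 1) →
    (∀ t : ℝ, Y ≤ t → t ≤ Y + M₀ → y t = t + 1) →
    ∀ u₀ ∈ HH, ∀ v₀ ∈ HH, c * y * u₀ = u₀ * tr 1 → c * y * v₀ = v₀ * tr 1 →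
    ∃ g ∈ Gc Y (Y + M₀), ∃ w ∈ HH, ∃ k : ℤ, (g * c * g⁻¹) * y = w * tr 1 * w⁻¹ ∧
      (∀ t, u₀ t ≤ Y → w t = u₀ t) ∧ (∀ t, Y + M₀ ≤ v₀ (t + k) → w t = v₀ (t + k)) := by
  obtain ⟨M₀, hM₀, H⟩ := steering
  refine ⟨M₀, hM₀, ?_⟩
  intro Y hY c hc y hy hpos hc1 hy1 u₀ hu₀ v₀ hv₀ hu hv
  have hYm : -Y ∈ Dy := Dy.neg_mem hY
  have hT : tr Y ∈ HH := tr_mem_HH hY
  have hTi : (tr Y)⁻¹ ∈ HH := HH.inv_mem hT
  have hti : ∀ t, (tr Y)⁻¹ t = t - Y := by intro t; rw [tr_inv, tr_apply]; ring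
  obtain ⟨g, hg, w, hw, k, h1, h2, h3⟩ := H 1 one_pos ((tr Y)⁻¹ * c * tr Y)
    (HH.mul_mem (HH.mul_mem hTi hc) hT) ((tr Y)⁻¹ * y * tr Y)
    (HH.mul_mem (HH.mul_mem hTi hy) hT) (by
      intro t
      simp only [mul_apply', hti, tr_apply]
      have := hpos (t + Y)
      rw [sub_add_cancel]; linarith) (by
      intro t ht1 ht2
      simp only [mul_apply', hti, tr_apply]
      rw [hc1 _ (by linarith) (by linarith)]; ring) (by
      intro t ht1 ht2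
      simp only [mul_apply', hti, tr_apply]
      rw [hy1 _ (by linarith) (by linarith)]; ring)
    ((tr Y)⁻¹ * u₀) (HH.mul_mem hTi hu₀) ((tr Y)⁻¹ * v₀) (HH.mul_mem hTi hv₀) (by
      calc (tr Y)⁻¹ * c * tr Y * ((tr Y)⁻¹ * y * tr Y) * ((tr Y)⁻¹ * u₀)
          = (tr Y)⁻¹ * (c * y * u₀) := by group
        _ = _ := by rw [hu]; simp; group) (by
      calc (tr Y)⁻¹ * c * tr Y * ((tr Y)⁻¹ * y * tr Y) * ((tr Y)⁻¹ * v₀)
          = (tr Y)⁻¹ * (c * y * v₀) := by group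
        _ = _ := by rw [hv]; simp; group)
  refine ⟨tr Y * g * (tr Y)⁻¹, Gc_conj hg hT (by rw [tr_apply]; simp) (by rw [tr_apply]; linarith),
    tr Y * w, HH.mul_mem hT hw, k, ?_, ?_, ?_⟩
  · calc tr Y * g * (tr Y)⁻¹ * c * (tr Y * g * (tr Y)⁻¹)⁻¹ * y
        = tr Y * (g * ((tr Y)⁻¹ * c * tr Y) * g⁻¹ * ((tr Y)⁻¹ * y * tr Y)) * (tr Y)⁻¹ := by group
      _ = _ := by rw [h1]; simp; group
  · intro t ht
    have := h2 t (by rw [mul_apply', hti]; linarith)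
    rw [mul_apply', this, mul_apply', hti, tr_apply]; ring
  · intro t ht
    have := h3 t (by rw [mul_apply', hti]; linarith)
    rw [mul_apply', this, mul_apply', hti, tr_apply]; ring

/-- An element with its two truncations. -/
structure Trunc (e fL fR : ℝ ≃o ℝ) (σ : ℝ) : Prop where
  he : e ∈ GG
  hL : fL ∈ GG
  hR : fR ∈ GG
  hσ : σ ∈ Dy
  agL : ∀ t, t ≤ σ → fL t = e t
  pL : ∀ t, σ ≤ t → t < fL t
  agR : ∀ t, σ ≤ t → fR t = e t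
  pR : ∀ t, t ≤ σ → t < fR t

lemma Trunc.lt {e fL fR : ℝ ≃o ℝ} {σ : ℝ} (h : Trunc e fL fR σ) : σ < e σ := by
  rw [← h.agL σ le_rfl]; exact h.pL σ le_rfl

lemma Trunc.evL {e fL fR E : ℝ ≃o ℝ} {σ : ℝ} (h : Trunc e fL fR σ) (k : LC fL E) :
    ∃ x, ∀ t, x ≤ t → t < E t := by
  obtain ⟨x, hx⟩ := eventually_atTop.1 (k.pos (by
    filter_upwards [eventually_ge_atTop σ] with t ht using h.pL t ht))
  exact ⟨x, hx⟩

lemma Trunc.evR {e fL fR E : ℝ ≃o ℝ} {σ : ℝ} (h : Trunc e fL fR σ) (k : RC fR E) :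
    ∃ x, ∀ t, t ≤ x → t < E t := by
  obtain ⟨g, hg, ⟨p, hp⟩, rfl⟩ := k
  refine ⟨g σ, ?_⟩
  intro t ht
  obtain ⟨s, rfl⟩ := g.surjective t
  rw [mul_apply', mul_apply', inv_apply']
  exact g.strictMono (h.pR s (g.le_iff_le.1 ht))

/-- The gluing theorem. -/
theorem glue_three {e₁ e₂ e₃ fL₁ fL₂ fL₃ fR₁ fR₂ fR₃ : ℝ ≃o ℝ} {σ₁ σ₂ σ₃ : ℝ}
    (h₁ : Trunc e₁ fL₁ fR₁ σ₁) (h₂ : Trunc e₂ fL₂ fR₂ σ₂) (h₃ : Trunc e₃ fL₃ fR₃ σ₃)
    {E₁ E₂ E₁' E₂' : ℝ ≃o ℝ} (k₁ : LC fL₁ E₁) (k₂ : LC fL₂ E₂) (k₃ : LC fL₃ (E₂ * E₁))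
    (k₁' : RC fR₁ E₁') (k₂' : RC fR₂ E₂') (k₃' : RC fR₃ (E₂' * E₁'))
    (hE₁ : E₁ ∈ HH) (hE₁' : E₁' ∈ HH) :
    ∃ g₁ ∈ GG, ∃ g₂ ∈ GG, ∃ g₃ ∈ GG,
      (g₂ * e₂ * g₂⁻¹) * (g₁ * e₁ * g₁⁻¹) = g₃ * e₃ * g₃⁻¹ := by
  obtain ⟨M₀, hM₀, ST⟩ := steering_at
  -- thresholds on the left
  obtain ⟨x₁, hx₁⟩ := h₁.evL k₁
  obtain ⟨x₂, hx₂⟩ := h₂.evL k₂
  set xs := max x₁ x₂ with hxs
  have hE₁p : ∀ t, xs ≤ t → t < E₁ t := fun t ht => hx₁ t ((le_max_left _ _).trans ht)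
  have hE₂p : ∀ t, xs ≤ t → t < E₂ t := fun t ht => hx₂ t ((le_max_right _ _).trans ht)
  obtain ⟨kL, hkL, ⟨pL, hpL⟩, NL, hkL1, hkL2⟩ := left_conj h₃.hL h₃.he k₃ h₃.hσ h₃.agL h₃.pL xs
  set p := (e₃ ^ NL) σ₃ with hp
  set X := E₂ (E₁ (kL p)) with hX
  have hA1 : kL p < E₁ (kL p) := hE₁p _ hkL2.le
  have hA2 : E₁ (kL p) < X := hE₂p _ (hkL2.le.trans hA1.le)
  have hXx : xs ≤ X := (hkL2.trans (hA1.trans hA2)).le
  have hXe : X = kL (e₃ p) := by rw [hX, ← mul_apply', hkL1 p le_rfl]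
  -- thresholds on the right
  obtain ⟨x₁', hx₁'⟩ := h₁.evR k₁'
  obtain ⟨x₂', hx₂'⟩ := h₂.evR k₂'
  set xs' := min x₁' x₂' with hxs'
  have hE₁p' : ∀ t, t ≤ xs' → t < E₁' t := fun t ht => hx₁' t (ht.trans (min_le_left _ _))
  have hE₂p' : ∀ t, t ≤ xs' → t < E₂' t := fun t ht => hx₂' t (ht.trans (min_le_right _ _))
  obtain ⟨kR, hkR, ⟨pR, hpR⟩, NR, hkR1, hkR2⟩ := right_conj h₃.hR h₃.he k₃' h₃.hσ h₃.agR h₃.pR
    (min xs' (E₁'⁻¹ xs'))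
  set p' := (e₃⁻¹ ^ NR) σ₃ with hp'
  set X' := kR p' with hX'
  have hX'1 : X' ≤ xs' := (hkR2.trans_le (min_le_left _ _)).le
  have hX'2 : E₁' X' ≤ xs' := by
    have h5 : X' < E₁'⁻¹ xs' := hkR2.trans_le (min_le_right _ _)
    exact (lt_inv_iff'.1 h5).le
  have hX'3 : X' < E₁' X' := hE₁p' _ hX'1
  -- the two elements
  obtain ⟨Y₁, HY₁⟩ := bfc h₁.he h₁.hL h₁.hR k₁ k₁' h₁.hσ h₁.agL h₁.pL h₁.agR h₁.pR
    (fun t ht => hE₁p t (hXx.trans ht)) (fun t ht => hE₁p' t (ht.trans hX'1)) M₀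
  obtain ⟨Y₂, HY₂⟩ := bfc h₂.he h₂.hL h₂.hR k₂ k₂' h₂.hσ h₂.agL h₂.pL h₂.agR h₂.pR
    (fun t ht => hE₂p t (hXx.trans ht)) (fun t ht => hE₂p' t (ht.trans hX'1)) M₀
  obtain ⟨Yn, hYn⟩ := exists_nat_ge (max (max Y₁ Y₂) X)
  set Y : ℝ := (Yn : ℝ) with hY
  have hYD : Y ∈ Dy := Dy_nat Yn
  have hY1 : Y₁ ≤ Y := ((le_max_left _ _).trans (le_max_left _ _)).trans hYn
  have hY2 : Y₂ ≤ Y := ((le_max_right _ _).trans (le_max_left _ _)).trans hYn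
  have hYX : X ≤ Y := (le_max_right _ _).trans hYn
  obtain ⟨n₁, Hn₁⟩ := HY₁ Y hYD hY1
  obtain ⟨n₂, Hn₂⟩ := HY₂ Y hYD hY2
  obtain ⟨n, hn⟩ := exists_nat_ge (max (max n₁ n₂) (Y + M₀ - X'))
  have hn1 : n₁ ≤ n := ((le_max_left _ _).trans (le_max_left _ _)).trans hn
  have hn2 : n₂ ≤ n := ((le_max_right _ _).trans (le_max_left _ _)).trans hn
  have hn3 : Y + M₀ ≤ X' + n := by have := (le_max_right _ _).trans hn; linarith
  obtain ⟨γ₁, hγ₁, Γ₁, hΓ₁, a1, a2, a3, a4⟩ := Hn₁ n hn1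
  obtain ⟨γ₂, hγ₂, Γ₂, hΓ₂, b1, b2, b3, b4⟩ := Hn₂ n hn2
  have hΓ₁G : Γ₁ ∈ GG := by rw [hΓ₁]; exact GG.mul_mem (GG.mul_mem hγ₁ h₁.he) (GG.inv_mem hγ₁)
  have hΓ₂G : Γ₂ ∈ GG := by rw [hΓ₂]; exact GG.mul_mem (GG.mul_mem hγ₂ h₂.he) (GG.inv_mem hγ₂)
  have hM0 : (0 : ℝ) < M₀ := by exact_mod_cast hM₀
  -- dyadic points
  have hpD : p ∈ Dy := (PL2.dy_iff (HH.pow_mem h₃.he.1 NL) σ₃).2 h₃.hσ
  have hp'D : p' ∈ Dy := (PL2.dy_iff (HH.pow_mem (HH.inv_mem h₃.he.1) NR) σ₃).2 h₃.hσ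
  set A := kL p with hA
  have hAD : A ∈ Dy := (PL2.dy_iff hkL p).2 hpD
  have hX'D : X' ∈ Dy := (PL2.dy_iff hkR p').2 hp'D
  set B := E₁' X' + n with hB
  have hBD : B ∈ Dy := Dy.add_mem ((PL2.dy_iff hE₁' X').2 hX'D) (Dy_nat n)
  have hΓ₁X' : Γ₁ (X' + n) = B := by rw [a3 _ le_rfl, hB]; congr 2; ring
  have hAX : A < X := hA1.trans hA2
  have hX'B : X' + n < B := by rw [hB]; linarith
  have hAB : A ≤ B := by linarith
  -- positivity of the two elements on `[A, B]`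
  have hpos₁ : ∀ t, A ≤ t → t ≤ B → t < Γ₁ t := by
    intro t h1 h2
    rcases le_total t X with h3 | h3
    · rw [a1 t h3]; exact hE₁p t (hkL2.le.trans h1)
    rcases le_total t (X' + n) with h4 | h4
    · exact a4 t h3 h4
    · rw [a3 t h4]
      have := hE₁p' (t - n) (by rw [hB] at h2; linarith)
      linarith
  have hpos₂ : ∀ t, A ≤ t → t ≤ B → t < Γ₂ t := by
    intro t h1 h2
    rcases le_total t X with h3 | h3
    · rw [b1 t h3]; exact hE₂p t (hkL2.le.trans h1)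
    rcases le_total t (X' + n) with h4 | h4
    · exact b4 t h3 h4
    · rw [b3 t h4]
      have := hE₂p' (t - n) (by rw [hB] at h2; linarith)
      linarith
  obtain ⟨c₁, hc₁, hc₁1, hc₁2⟩ := exists_cut hΓ₁G.1 hAD hBD hAB hpos₁
  obtain ⟨c₂, hc₂, hc₂1, hc₂2⟩ := exists_cut hΓ₂G.1 hAD hBD hAB hpos₂
  -- the product on `[A, X' + n]`
  have hΓ₁r : ∀ t, A ≤ t → t ≤ X' + n → A ≤ Γ₁ t ∧ Γ₁ t ≤ B := by
    intro t h1 h2
    refine ⟨h1.trans (hpos₁ t h1 (by linarith)).le, ?_⟩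
    rw [← hΓ₁X']; exact Γ₁.monotone h2
  have hDA : c₂ (c₁ A) = X := by
    rw [hc₁1 A le_rfl hAB, hc₂1 _ (hΓ₁r A le_rfl (by linarith)).1 (hΓ₁r A le_rfl (by linarith)).2,
      a1 A hAX.le, b1 _ hA2.le]
  have hDX' : c₂ (c₁ (X' + n)) = kR (e₃ p') + n := by
    rw [hc₁1 _ (by linarith) (by linarith), hΓ₁X', hc₂1 B hAB le_rfl, b3 B (by linarith), hB,
      add_sub_cancel_right, ← hkR1 p' le_rfl, mul_apply']
  -- the model on the side of `e₃`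
  have hpp : p < e₃ p := by
    have := orbit_step h₃.lt NL
    rwa [pow_succ', mul_apply'] at this
  have hep : e₃ p ∈ Dy := (PL2.dy_iff h₃.he.1 p).2 hpD
  obtain ⟨h₀, hh₀, hh₀1, hh₀2⟩ := ext_basic Dy.zero_mem Dy.one_mem hpD hep zero_lt_one hpp
  have hh₀0 : h₀ 0 = p := by rw [hh₀1 0 le_rfl]; ring
  have hh₀11 : h₀ 1 = e₃ p := by rw [hh₀2 1 le_rfl]; ring
  obtain ⟨u₀, hu₀, hu₀1, hu₀2⟩ := exists_sol (h₀ := kL * h₀) (x₀ := 0) (N := 1)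
    (HH.mul_mem hc₂ hc₁) (fun t => (hc₁2 t).trans (hc₂2 _)) Dy.zero_mem Dy.one_mem one_pos
    (HH.mul_mem hkL hh₀) (by
      rw [zero_add, mul_apply', mul_apply', mul_apply', hh₀0, hh₀11, ← hA, hDA, hXe])
  obtain ⟨i', hi'⟩ : ∃ i' : ℤ, i' = -((NL : ℤ) + NR) := ⟨_, rfl⟩
  have hpp' : (e₃ ^ i') p = p' := by
    rw [hp, hp', hi', ← mul_apply', ← zpow_natCast e₃ NL, ← zpow_add, inv_pow, ← zpow_natCast e₃ NR,
      ← zpow_neg]
    congr 2; ring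
  have hi'D : (i' : ℝ) ∈ Dy := Dy_int i'
  have hcomm : ∀ t, e₃ ((e₃ ^ i') t) = (e₃ ^ i') (e₃ t) := by
    intro t
    rw [← mul_apply', ← mul_apply']
    congr 1
    exact ((Commute.refl e₃).zpow_left i').eq.symm
  set v' := tr (n : ℝ) * kR * e₃ ^ i' * h₀ * tr (-(i' : ℝ)) with hv'
  have hv'H : v' ∈ HH := HH.mul_mem (HH.mul_mem (HH.mul_mem (HH.mul_mem (tr_mem_HH (Dy_nat n)) hkR)
    (HH.zpow_mem h₃.he.1 i')) hh₀) (tr_mem_HH (Dy.neg_mem hi'D))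
  have hv'a : ∀ t, v' t = kR ((e₃ ^ i') (h₀ (t - i'))) + n := by
    intro t
    rw [hv', mul_apply', mul_apply', mul_apply', mul_apply', tr_apply, tr_apply]
    rfl
  obtain ⟨v₀, hv₀, hv₀1, hv₀2⟩ := exists_sol (h₀ := v') (x₀ := (i' : ℝ)) (N := 1)
    (HH.mul_mem hc₂ hc₁) (fun t => (hc₁2 t).trans (hc₂2 _)) hi'D Dy.one_mem one_pos
    hv'H (by
      rw [hv'a, hv'a, sub_self, hh₀0, hpp', add_sub_cancel_left, hh₀11, mul_apply', ← hX', hDX',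
        ← hcomm, hpp'])
  obtain ⟨g, hg, w, hw, k, hw1, hw2, hw3⟩ := ST Y hYD c₂ hc₂ c₁ hc₁
    (fun t => (hc₁2 t).trans (hc₂2 _)) (by
      intro t h1 h2
      rw [hc₂1 t (by linarith) (by linarith), b2 t h1 h2]) (by
      intro t h1 h2
      rw [hc₁1 t (by linarith) (by linarith), a2 t h1 h2]) u₀ hu₀ v₀ hv₀ hu₀2.symm hv₀2.symm
  -- values of `w`
  have hu₀at : ∀ t, 0 ≤ t → t ≤ 1 → u₀ t = kL (h₀ t) := by
    intro t h1 h2
    rw [hu₀1 t h1 (by linarith), mul_apply']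
  have hw0 : ∀ t, 0 ≤ t → t ≤ 1 → w t = kL (h₀ t) := by
    intro t h1 h2
    rw [hw2 t, hu₀at t h1 h2]
    rw [hu₀at t h1 h2]
    refine le_trans ?_ hYX
    rw [hXe, ← hh₀11]
    exact kL.monotone (h₀.monotone h2)
  obtain ⟨m, hm⟩ : ∃ m : ℤ, m = i' - k := ⟨_, rfl⟩
  have hv₀at : ∀ t, 0 ≤ t → t ≤ 1 → v₀ (t + i') = kR ((e₃ ^ i') (h₀ t)) + n := by
    intro t h1 h2
    rw [hv₀1 _ (by linarith) (by linarith), hv'a, add_sub_cancel_right]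
  have hwm : ∀ t, 0 ≤ t → t ≤ 1 → w (t + m) = kR ((e₃ ^ i') (h₀ t)) + n := by
    intro t h1 h2
    have e1 : t + m + k = t + i' := by rw [hm]; push_cast; ring
    have e2 : v₀ (t + m + k) = kR ((e₃ ^ i') (h₀ t)) + n := by rw [e1, hv₀at t h1 h2]
    rw [hw3 _ _, e2]
    rw [e2]
    refine hn3.trans ?_
    have : X' ≤ kR ((e₃ ^ i') (h₀ t)) := by
      rw [hX', ← hpp', ← hh₀0]
      exact kR.monotone ((e₃ ^ i').monotone (h₀.monotone h1))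
    linarith
  have hw00 : w 0 = A := by rw [hw0 0 le_rfl zero_le_one, hh₀0]
  have hwm0 : w m = X' + n := by
    have := hwm 0 le_rfl zero_le_one
    rwa [zero_add, hh₀0, hpp', ← hX'] at this
  have hmpos : 0 < m := by
    have : w 0 < w m := by rw [hw00, hwm0]; linarith
    rw [w.lt_iff_lt] at this
    exact_mod_cast this
  obtain ⟨m', rfl⟩ : ∃ m' : ℕ, m = m' + 1 := ⟨(m - 1).toNat, by omega⟩
  -- the cut of `e₃`
  set Q : ℕ → ℝ := fun i => (e₃ ^ i) p with hQ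
  have hQm : StrictMono Q := orbit_strictMono hpp
  have hQD : ∀ i, Q i ∈ Dy := fun i => (PL2.dy_iff (HH.pow_mem h₃.he.1 i) p).2 hpD
  have hQ0 : Q 0 = p := rfl
  have hQe : ∀ i, e₃ (Q i) = Q (i + 1) := by
    intro i; show e₃ ((e₃ ^ i) p) = (e₃ ^ (i + 1)) p
    rw [pow_succ', mul_apply']
  have hep1 : e₃ p = Q 1 := hQe 0
  obtain ⟨e', he', he'1, he'2⟩ := exists_cut h₃.he.1 (hQD 0) (hQD (m' + 1))
    (hQm.monotone (Nat.zero_le _)) (fun t h1 h2 => orbit_pos hpp _ t h1 h2)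
  obtain ⟨χ, hχ, hχ1, hχ2⟩ := exists_sol (h₀ := h₀) (x₀ := 0) (N := 1) he' he'2 Dy.zero_mem
    Dy.one_mem one_pos hh₀ (by
      rw [zero_add, hh₀0, hh₀11, he'1 p le_rfl (hQm.monotone (Nat.zero_le _))])
  have hχs : ∀ t, χ (t + 1) = e' (χ t) := by
    intro t
    rw [← tr_apply 1 t, ← mul_apply', hχ2, mul_apply']
  have hχn : ∀ (j : ℕ) (t : ℝ), χ (t + j) = (e' ^ j) (χ t) := by
    intro j
    induction j with
    | zero => intro t; simp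
    | succ j ih =>
      intro t
      rw [Nat.cast_succ, ← add_assoc, hχs, ih, pow_succ', mul_apply']
  have hχ01 : ∀ t, 0 ≤ t → t ≤ 1 → χ t = h₀ t := fun t h1 h2 => hχ1 t h1 (by linarith)
  have hh₀r : ∀ t, 0 ≤ t → t ≤ 1 → p ≤ h₀ t ∧ h₀ t ≤ e₃ p := by
    intro t h1 h2
    constructor
    · rw [← hh₀0]; exact h₀.monotone h1
    · rw [← hh₀11]; exact h₀.monotone h2
  have hpowQ : ∀ (j i : ℕ), (e₃ ^ j) (Q i) = Q (j + i) := by
    intro j i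
    show (e₃ ^ j) ((e₃ ^ i) p) = (e₃ ^ (j + i)) p
    rw [pow_add, mul_apply']
  have hχj : ∀ (j : ℕ), j ≤ m' → ∀ t, 0 ≤ t → t ≤ 1 → χ (t + j) = (e₃ ^ j) (h₀ t) := by
    intro j hj t h1 h2
    rw [hχn, hχ01 t h1 h2]
    obtain ⟨h3, h4⟩ := hh₀r t h1 h2
    refine pow_congr he'1 j ?_
    intro i hi
    constructor
    · refine (hQm.monotone (Nat.zero_le i)).trans ?_
      exact (e₃ ^ i).monotone h3
    · refine ((e₃ ^ i).monotone h4).trans ?_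
      rw [hep1, hpowQ]
      exact hQm.monotone (by omega)
  have hχ0 : χ 0 = p := by rw [hχ01 0 le_rfl zero_le_one, hh₀0]
  have hχm : χ ((m' : ℝ) + 1) = Q (m' + 1) := by
    have := hχj m' le_rfl 1 zero_le_one le_rfl
    rw [add_comm (1 : ℝ) _, hh₀11] at this
    rw [this]
    rw [hep1, hpowQ]
  -- the conjugator
  have hg1 : w (χ⁻¹ p) = kL p := by
    rw [inv_eq_of_apply hχ0, hw00]
  obtain ⟨ρ, hρ⟩ : ∃ ρ : ℝ ≃o ℝ, ρ = tr (n : ℝ) * kR * e₃ ^ k := ⟨_, rfl⟩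
  have hρa : ∀ t, ρ t = kR ((e₃ ^ k) t) + n := by
    intro t; rw [hρ, mul_apply', mul_apply', tr_apply]
  have hρH : ρ ∈ HH := by
    rw [hρ]
    exact HH.mul_mem (HH.mul_mem (tr_mem_HH (Dy_nat n)) hkR) (HH.zpow_mem h₃.he.1 k)
  have hki : ∀ t, (e₃ ^ k) ((e₃ ^ (m' + 1)) t) = (e₃ ^ i') t := by
    intro t
    rw [← mul_apply', ← zpow_natCast, ← zpow_add]
    congr 2; push_cast; omega
  have hρQ : ρ (Q (m' + 1)) = X' + n := by
    rw [hρa, hki, hpp']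
  have hwQ : (w * χ⁻¹) (Q (m' + 1)) = X' + n := by
    rw [mul_apply', inv_eq_of_apply hχm]
    rw [← hwm0]; push_cast; rfl
  have hgl1 : kL p = (w * χ⁻¹) p := by rw [mul_apply', hg1]
  obtain ⟨κ₁, hκ₁⟩ : ∃ κ₁, κ₁ = glue kL (w * χ⁻¹) p hgl1 := ⟨_, rfl⟩
  have hpQ : p ≤ Q (m' + 1) := hQm.monotone (Nat.zero_le _)
  have hgl2 : κ₁ (Q (m' + 1)) = ρ (Q (m' + 1)) := by
    rw [hκ₁, glue_ge hpQ, hwQ, hρQ]
  obtain ⟨κ, hκ⟩ : ∃ κ, κ = glue κ₁ ρ (Q (m' + 1)) hgl2 := ⟨_, rfl⟩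
  have hκH : κ ∈ HH := by
    rw [hκ]
    refine glue_mem_HH ?_ hρH (hQD _)
    rw [hκ₁]
    exact glue_mem_HH hkL (HH.mul_mem hw (HH.inv_mem hχ)) hpD
  have hκL : ∀ t, t ≤ p → κ t = kL t := by
    intro t ht
    rw [hκ, glue_le (ht.trans hpQ), hκ₁, glue_le ht]
  have hκM : ∀ t, p ≤ t → t ≤ Q (m' + 1) → κ t = w (χ⁻¹ t) := by
    intro t h1 h2
    rw [hκ, glue_le h2, hκ₁, glue_ge h1, mul_apply']
  have hκR : ∀ t, Q (m' + 1) ≤ t → κ t = ρ t := by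
    intro t ht
    rw [hκ, glue_ge ht]
  have hκG : κ ∈ GG := by
    refine ⟨hκH, ⟨pL, ?_⟩, ?_⟩
    · filter_upwards [hpL, eventually_le_atBot p] with t h1 h2
      rw [hκL t h2, h1]
    · obtain ⟨q, hq⟩ := (GG.zpow_mem h₃.he k).2.2
      have h5 := EndTop.mul hpR hq
      refine ⟨pR + q + n, ?_⟩
      filter_upwards [h5, eventually_ge_atTop (Q (m' + 1))] with t h1 h2
      rw [hκR t h2, hρa]
      rw [mul_apply'] at h1
      rw [h1]; push_cast; ring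
  -- the corrected product
  have hgH : g ∈ HH := hg.1
  have hgG : g ∈ GG := Gc_le_GG _ _ hg
  have hgi : g⁻¹ ∈ Gc Y (Y + M₀) := (Gc Y (Y + M₀)).inv_mem hg
  obtain ⟨D, hD⟩ : ∃ D : ℝ ≃o ℝ, D = (g * Γ₂ * g⁻¹) * Γ₁ := ⟨_, rfl⟩
  have hDa : ∀ t, D t = g (Γ₂ (g⁻¹ (Γ₁ t))) := by
    intro t; rw [hD, mul_apply', mul_apply', mul_apply']
  have hmain : ∀ t, D (κ t) = κ (e₃ t) := by
    intro t
    rcases le_total t p with h1 | h1
    · -- left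
      have h2 : κ (e₃ t) = kL (e₃ t) := by
        rcases le_total (e₃ t) p with h3 | h3
        · exact hκL _ h3
        · have h4 : e₃ t ≤ e₃ p := e₃.monotone h1
          obtain ⟨τ, hτ⟩ := h₀.surjective (e₃ t)
          have h5 : 0 ≤ τ := by rw [← h₀.le_iff_le, hh₀0, hτ]; exact h3
          have h6 : τ ≤ 1 := by rw [← h₀.le_iff_le, hh₀11, hτ]; exact h4
          have h7 : e₃ t ≤ Q (m' + 1) := by
            refine h4.trans ?_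
            rw [hep1]; exact hQm.monotone (by omega)
          rw [hκM _ h3 h7, inv_eq_of_apply (by rw [hχ01 τ h5 h6, hτ] : χ τ = e₃ t), hw0 τ h5 h6, hτ]
      rw [h2, hκL t h1, hDa]
      have h3 : kL t ≤ A := kL.monotone h1
      have h4 : E₁ (kL t) ≤ E₁ A := E₁.monotone h3
      have h5 : E₁ (kL t) ≤ X := h4.trans hA2.le
      rw [a1 _ (h3.trans hAX.le), Gc_le_apply hgi (h5.trans hYX), b1 _ h5, ← mul_apply' E₂ E₁,
        hkL1 t h1]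
      refine Gc_le_apply hg (le_trans ?_ hYX)
      rw [hXe]; exact kL.monotone (e₃.monotone h1)
    rcases le_total t (Q (m' + 1)) with h2 | h2
    · -- middle
      rw [hκM t h1 h2]
      obtain ⟨τ, hτ⟩ := χ.surjective t
      have hτ0 : 0 ≤ τ := by rw [← χ.le_iff_le, hχ0, hτ]; exact h1
      have hτm : τ ≤ m' + 1 := by rw [← χ.le_iff_le, hχm, hτ]; exact h2
      rw [inv_eq_of_apply hτ]
      have hwA : A ≤ w τ := by rw [← hw00]; exact w.monotone hτ0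
      have hwX : w τ ≤ X' + n := by
        rw [← hwm0]; apply w.monotone; push_cast; exact hτm
      have hDw : D (w τ) = w (τ + 1) := by
        rw [hDa]
        obtain ⟨h3, h4⟩ := hΓ₁r _ hwA hwX
        have h5 : A ≤ g⁻¹ (Γ₁ (w τ)) := by
          rw [← Gc_le_apply hgi (by linarith : A ≤ Y)]
          exact (g⁻¹).monotone h3
        have h6 : g⁻¹ (Γ₁ (w τ)) ≤ B := by
          rw [← Gc_ge_apply hgi (by linarith : Y + M₀ ≤ B)]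
          exact (g⁻¹).monotone h4
        rw [← hc₂1 _ h5 h6, ← hc₁1 _ hwA (by linarith)]
        have : (g * c₂ * g⁻¹ * c₁) (w τ) = (w * tr 1 * w⁻¹) (w τ) := by rw [hw1]
        rw [mul_apply', mul_apply', mul_apply', mul_apply', mul_apply', inv_apply', tr_apply] at this
        exact this
      rw [hDw]
      rcases le_total (τ + 1) (m' + 1) with h3 | h3
      · have h4 : e₃ t = χ (τ + 1) := by
          rw [hχs, hτ, he'1 t h1 h2]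
        have h5 : p ≤ e₃ t := by
          rw [h4, ← hχ0]; exact χ.monotone (by linarith)
        have h6 : e₃ t ≤ Q (m' + 1) := by
          rw [h4, ← hχm]; exact χ.monotone h3
        rw [hκM _ h5 h6, inv_eq_of_apply h4.symm]
      · have hb1 : 0 ≤ τ - m' := by linarith
        have hb2 : τ - m' ≤ 1 := by linarith
        have h4 : t = (e₃ ^ m') (h₀ (τ - m')) := by
          rw [← hχj m' le_rfl _ hb1 hb2, sub_add_cancel, hτ]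
        have h5 : e₃ t = (e₃ ^ (m' + 1)) (h₀ (τ - m')) := by
          rw [pow_succ', mul_apply', ← h4]
        have h6 : Q (m' + 1) ≤ e₃ t := by
          rw [h5]
          show (e₃ ^ (m' + 1)) p ≤ _
          rw [← hh₀0]
          exact (e₃ ^ (m' + 1)).monotone (h₀.monotone hb1)
        rw [hκR _ h6, hρa, h5, hki]
        have := hwm (τ - m') hb1 hb2
        rw [← this]; congr 1; push_cast; ring
    · -- right
      have h3 : Q (m' + 1) ≤ e₃ t := by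
        refine (hQm.monotone (by omega : m' + 1 ≤ m' + 1 + 1)).trans ?_
        rw [← hQe]; exact e₃.monotone h2
      rw [hκR t h2, hκR _ h3, hρa, hρa]
      have h4 : p' ≤ (e₃ ^ k) t := by
        rw [← hpp', ← hki]; exact (e₃ ^ k).monotone h2
      have h5 : (e₃ ^ k) (e₃ t) = e₃ ((e₃ ^ k) t) := by
        rw [← mul_apply', ← mul_apply']
        congr 1
        exact ((Commute.refl e₃).zpow_left k).eq
      rw [h5]
      set z := (e₃ ^ k) t with hz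
      have h6 : X' ≤ kR z := kR.monotone h4
      have h7 : E₁' X' ≤ E₁' (kR z) := E₁'.monotone h6
      rw [hDa, a3 _ (by linarith), add_sub_cancel_right, Gc_ge_apply hgi (by linarith),
        b3 _ (by linarith), add_sub_cancel_right, ← mul_apply' E₂' E₁', hkR1 z h4]
      apply Gc_ge_apply hg
      have h8 : kR (e₃ p') ≤ kR (e₃ z) := kR.monotone (e₃.monotone h4)
      have h9 : E₂' (E₁' X') = kR (e₃ p') := by rw [← mul_apply', hkR1 p' le_rfl]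
      have h10 : E₁' X' < E₂' (E₁' X') := hE₂p' _ hX'2
      linarith
  refine ⟨γ₁, hγ₁, g * γ₂, GG.mul_mem hgG hγ₂, κ, hκG, ?_⟩
  have h1 : D * κ = κ * e₃ := by
    ext t
    rw [mul_apply', mul_apply', hmain]
  calc (g * γ₂ * e₂ * (g * γ₂)⁻¹) * (γ₁ * e₁ * γ₁⁻¹) = (g * (γ₂ * e₂ * γ₂⁻¹) * g⁻¹) * (γ₁ * e₁ * γ₁⁻¹) := by
        group
    _ = D := by rw [hD, hΓ₁, hΓ₂]
    _ = (D * κ) * κ⁻¹ := by group
    _ = κ * e₃ * κ⁻¹ := by rw [h1]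

end Pool.Agent.Lib_helper30
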