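import Pool.Agent.Lib_helper30.Steer
import Pool.Agent.Lib_helper30.Comm

set_option autoImplicit false

namespace Pool.Agent.Lib_helper30

open Filter Topology Set

/-- Conjugacy by elements of `HH` which are integer translations near `-∞`. -/
def LC (f F : ℝ ≃o ℝ) : Prop := ∃ g ∈ HH, (∃ p : ℤ, EndBot g p) ∧ F = g * f * g⁻¹

lemma LC.refl (f : ℝ ≃o ℝ) : LC f f := ⟨1, HH.one_mem, ⟨0, EndBot.one⟩, by group⟩

lemma LC.trans {f g h : ℝ ≃o ℝ} (h1 : LC f g) (h2 : LC g h) : LC f h := by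
  obtain ⟨a, ha, ⟨p, hp⟩, rfl⟩ := h1
  obtain ⟨b, hb, ⟨q, hq⟩, rfl⟩ := h2
  exact ⟨b * a, HH.mul_mem hb ha, ⟨q + p, hq.mul hp⟩, by group⟩

lemma LC.symm {f g : ℝ ≃o ℝ} (h1 : LC f g) : LC g f := by
  obtain ⟨a, ha, ⟨p, hp⟩, rfl⟩ := h1
  exact ⟨a⁻¹, HH.inv_mem ha, ⟨-p, hp.inv⟩, by group⟩

lemma LC.inv {f g : ℝ ≃o ℝ} (h1 : LC f g) : LC f⁻¹ g⁻¹ := by
  obtain ⟨a, ha, ⟨p, hp⟩, rfl⟩ := h1
  exact ⟨a, ha, ⟨p, hp⟩, by group⟩

lemma LC.conj {f g : ℝ ≃o ℝ} (h1 : LC f g) {h : ℝ ≃o ℝ} (hh : h ∈ GG) : LC f (h * g * h⁻¹) := by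
  obtain ⟨a, ha, ⟨p, hp⟩, rfl⟩ := h1
  obtain ⟨q, hq⟩ := hh.2.1
  exact ⟨h * a, HH.mul_mem hh.1 ha, ⟨q + p, EndBot.mul hq hp⟩, by group⟩

lemma LC.pos {f g : ℝ ≃o ℝ} (h1 : LC f g) (h : ∀ᶠ t in atTop, t < f t) :
    ∀ᶠ t in atTop, t < g t := by
  obtain ⟨a, ha, ⟨p, hp⟩, rfl⟩ := h1
  filter_upwards [(a⁻¹.tendsto_atTop).eventually h] with t ht
  rw [mul_apply', mul_apply']
  have := a.strictMono ht
  rwa [apply_inv'] at this

lemma LC.neg {f g : ℝ ≃o ℝ} (h1 : LC f g) (h : ∀ᶠ t in atTop, f t < t) :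
    ∀ᶠ t in atTop, g t < t := by
  obtain ⟨a, ha, ⟨p, hp⟩, rfl⟩ := h1
  filter_upwards [(a⁻¹.tendsto_atTop).eventually h] with t ht
  rw [mul_apply', mul_apply']
  have := a.strictMono ht
  rwa [apply_inv'] at this

lemma inv_eq_of_apply {f : ℝ ≃o ℝ} {x y : ℝ} (h : f x = y) : f⁻¹ y = x := by
  rw [← h, inv_apply']

lemma inv_lt_iff' {f : ℝ ≃o ℝ} {x y : ℝ} : f⁻¹ x < y ↔ x < f y := by
  rw [← f.lt_iff_lt, apply_inv']
lemma lt_inv_iff' {f : ℝ ≃o ℝ} {x y : ℝ} : x < f⁻¹ y ↔ f x < y := by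
  rw [← f.lt_iff_lt (y := f⁻¹ y), apply_inv']
lemma inv_le_iff' {f : ℝ ≃o ℝ} {x y : ℝ} : f⁻¹ x ≤ y ↔ x ≤ f y := by
  rw [← f.le_iff_le, apply_inv']
lemma le_inv_iff' {f : ℝ ≃o ℝ} {x y : ℝ} : x ≤ f⁻¹ y ↔ f x ≤ y := by
  rw [← f.le_iff_le (y := f⁻¹ y), apply_inv']

/-- Agreement on the left of a point, for inverses. -/
lemma agree_inv {f f' : ℝ ≃o ℝ} {s : ℝ} (h : ∀ t, t ≤ s → f t = f' t) :
    ∀ t, t ≤ f s → f⁻¹ t = f'⁻¹ t := by
  intro t ht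
  have h1 : f⁻¹ t ≤ s := inv_le_iff'.2 ht
  have h2 := h _ h1
  rw [apply_inv'] at h2
  exact (inv_eq_of_apply h2.symm).symm

/-- Lemma X: maps which agree up to a point and are positive beyond it are conjugate. -/
lemma conj_of_agree {F F' : ℝ ≃o ℝ} (hF : F ∈ HH) (hF' : F' ∈ HH) {x₀ : ℝ} (hx₀ : x₀ ∈ Dy)
    (hag : ∀ t, t ≤ x₀ → F t = F' t) (hp : ∀ t, x₀ ≤ t → t < F t)
    (hp' : ∀ t, x₀ ≤ t → t < F' t) :
    ∃ g ∈ HH, (∀ t, t ≤ F x₀ → g t = t) ∧ g * F = F' * g := by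
  have hFx : F x₀ ∈ Dy := (PL2.dy_iff hF x₀).2 hx₀
  have hND : F x₀ - x₀ ∈ Dy := Dy.sub_mem hFx hx₀
  have hN : 0 < F x₀ - x₀ := sub_pos.2 (hp x₀ le_rfl)
  have hx : F' x₀ = F x₀ := (hag x₀ le_rfl).symm
  have e1 : tr (F x₀ - x₀) x₀ = F x₀ := by rw [tr_apply]; ring
  have e2 : tr (F x₀ - x₀) x₀ = F' x₀ := by rw [e1, hx]
  set A := glue (tr (F x₀ - x₀)) F x₀ e1 with hA
  set A' := glue (tr (F x₀ - x₀)) F' x₀ e2 with hA'
  have hAH : A ∈ HH := glue_mem_HH (tr_mem_HH hND) hF hx₀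
  have hAH' : A' ∈ HH := glue_mem_HH (tr_mem_HH hND) hF' hx₀
  have hAp : ∀ t, t < A t := by
    intro t
    rcases le_total t x₀ with h | h
    · rw [hA, glue_le h, tr_apply]; linarith
    · rw [hA, glue_ge h]; exact hp t h
  have hAp' : ∀ t, t < A' t := by
    intro t
    rcases le_total t x₀ with h | h
    · rw [hA', glue_le h, tr_apply]; linarith
    · rw [hA', glue_ge h]; exact hp' t h
  obtain ⟨h, hh, hh1, hh2⟩ := exists_sol (h₀ := 1) hAH hAp hx₀ hND hN HH.one_mem (by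
    rw [one_apply', one_apply', hA, glue_ge le_rfl]; ring)
  obtain ⟨k, hk, hk1, hk2⟩ := exists_sol (h₀ := 1) hAH' hAp' hx₀ hND hN HH.one_mem (by
    rw [one_apply', one_apply', hA', glue_ge le_rfl, hx]; ring)
  have hid : ∀ t, x₀ ≤ t → t ≤ F x₀ → (k * h⁻¹) t = t := by
    intro t h1 h2
    have e3 : h t = t := hh1 t h1 (by linarith)
    have e4 : k t = t := hk1 t h1 (by linarith)
    rw [mul_apply', inv_eq_of_apply e3, e4]
  have hx0 : (k * h⁻¹) x₀ = x₀ := hid x₀ le_rfl (hp x₀ le_rfl).le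
  have hcomm : (k * h⁻¹) * A = A' * (k * h⁻¹) := by
    have h3 : A = h * tr (F x₀ - x₀) * h⁻¹ := by rw [hh2]; group
    have h4 : A' = k * tr (F x₀ - x₀) * k⁻¹ := by rw [hk2]; group
    rw [h3, h4]; group
  set g := glue 1 (k * h⁻¹) x₀ (by rw [hx0, one_apply']) with hg
  refine ⟨g, glue_mem_HH HH.one_mem (HH.mul_mem hk (HH.inv_mem hh)) hx₀, ?_, ?_⟩
  · intro t ht
    rcases le_total t x₀ with h1 | h1
    · rw [hg, glue_le h1, one_apply']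
    · rw [hg, glue_ge h1, hid t h1 ht]
  · ext t
    rw [mul_apply', mul_apply']
    rcases le_total t x₀ with h1 | h1
    · have e5 : g t = t := by rw [hg, glue_le h1, one_apply']
      have e6 : F t ≤ F x₀ := F.monotone h1
      have e7 : g (F t) = F t := by
        rcases le_total (F t) x₀ with h3 | h3
        · rw [hg, glue_le h3, one_apply']
        · rw [hg, glue_ge h3, hid _ h3 e6]
      rw [e5, e7, hag t h1]
    · have e5 : g t = (k * h⁻¹) t := by rw [hg, glue_ge h1]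
      have e6 : x₀ ≤ F t := (h1.trans (hp t h1).le)
      have e7 : x₀ ≤ (k * h⁻¹) t := by
        have := (k * h⁻¹).monotone h1; rwa [hx0] at this
      have e8 : A t = F t := by rw [hA, glue_ge h1]
      have e9 : A' ((k * h⁻¹) t) = F' ((k * h⁻¹) t) := by rw [hA', glue_ge e7]
      have e10 : (k * h⁻¹) (A t) = A' ((k * h⁻¹) t) := by
        rw [← mul_apply', hcomm, mul_apply']
      rw [e5, hg, glue_ge e6, ← e8, e10, e9]

/-- Lemma X for negative maps. -/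
lemma conj_of_agree_neg {F F' : ℝ ≃o ℝ} (hF : F ∈ HH) (hF' : F' ∈ HH) {x₀ : ℝ} (hx₀ : x₀ ∈ Dy)
    (hag : ∀ t, t ≤ x₀ → F t = F' t) (hp : ∀ t, x₀ ≤ t → F t < t)
    (hp' : ∀ t, x₀ ≤ t → F' t < t) :
    ∃ g ∈ HH, (∀ t, t ≤ x₀ → g t = t) ∧ g * F = F' * g := by
  have hx : F' x₀ = F x₀ := (hag x₀ le_rfl).symm
  obtain ⟨g, hg, hg1, hg2⟩ := conj_of_agree (HH.inv_mem hF) (HH.inv_mem hF')
    ((PL2.dy_iff hF x₀).2 hx₀) (agree_inv hag) (by
      intro t ht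
      rw [lt_inv_iff']
      obtain ⟨s, rfl⟩ := F.surjective t
      rw [F.le_iff_le] at ht
      exact F.strictMono (hp s ht)) (by
      intro t ht
      rw [lt_inv_iff']
      obtain ⟨s, rfl⟩ := F'.surjective t
      rw [← hx, F'.le_iff_le] at ht
      exact F'.strictMono (hp' s ht))
  refine ⟨g, hg, ?_, ?_⟩
  · intro t ht
    apply hg1
    rw [inv_apply']; exact ht
  · have : F'⁻¹ * g = g * F⁻¹ := hg2.symm
    calc g * F = F' * (F'⁻¹ * g) * F := by group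
      _ = F' * (g * F⁻¹) * F := by rw [this]
      _ = F' * g := by group

/-- Extension of a map beyond a point to an integer translation. -/
lemma exists_ext_right {f : ℝ ≃o ℝ} (hf : f ∈ HH) (hb : ∃ p : ℤ, EndBot f p) {s : ℝ} (hs : s ∈ Dy)
    (x : ℝ) : ∃ φ ∈ GG, (∀ t, t ≤ s → φ t = f t) ∧ x < φ (s + 1) := by
  obtain ⟨n, hn⟩ := exists_nat_gt (max (f s) x - s - 1)
  have h1 : f s < s + 1 + n := by have := le_max_left (f s) x; linarith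
  have h2 : x < s + 1 + n := by have := le_max_right (f s) x; linarith
  obtain ⟨φ, hφ, hφ1, hφ2⟩ := interp (f₁ := f) (f₂ := tr (n : ℝ)) hf (tr_mem_HH (Dy_nat n)) hs
    (Dy.add_mem hs Dy.one_mem) (by linarith) (by rw [tr_apply]; exact h1)
  obtain ⟨p, hp⟩ := hb
  refine ⟨φ, ⟨hφ, ⟨p, ?_⟩, ⟨n, ?_⟩⟩, hφ1, ?_⟩
  · filter_upwards [hp, eventually_le_atBot s] with t h3 h4
    rw [hφ1 t h4, h3]
  · filter_upwards [eventually_ge_atTop (s + 1)] with t ht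
    rw [hφ2 t ht, tr_apply]; simp
  · rw [hφ2 _ le_rfl, tr_apply]; exact h2

/-- Truncation of an element at a point which it moves to the right. -/
lemma exists_trunc_pos {f : ℝ ≃o ℝ} (hf : f ∈ GG) {s : ℝ} (hs : s ∈ Dy) (hfs : s < f s) :
    ∃ φ ∈ GG, (∀ t, t ≤ s → φ t = f t) ∧ (∀ t, s ≤ t → t < φ t) := by
  obtain ⟨s', hs', h1, h2⟩ := Dy_dense hfs
  obtain ⟨n, hn⟩ := exists_nat_gt (f s - s')
  obtain ⟨φ, hφ, hφ1, hφ2⟩ := interp (f₁ := f) (f₂ := tr (n : ℝ)) hf.1 (tr_mem_HH (Dy_nat n)) hs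
    hs' h1 (by rw [tr_apply]; linarith)
  obtain ⟨p, hp⟩ := hf.2.1
  refine ⟨φ, ⟨hφ, ⟨p, ?_⟩, ⟨n, ?_⟩⟩, hφ1, ?_⟩
  · filter_upwards [hp, eventually_le_atBot s] with t h3 h4
    rw [hφ1 t h4, h3]
  · filter_upwards [eventually_ge_atTop s'] with t ht
    rw [hφ2 t ht, tr_apply]; simp
  · intro t ht
    rcases le_or_gt s' t with h3 | h3
    · rw [hφ2 t h3, tr_apply]; linarith
    · have h4 := φ.monotone ht
      rw [hφ1 s le_rfl] at h4
      linarith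

lemma exists_trunc_neg {f : ℝ ≃o ℝ} (hf : f ∈ GG) {s : ℝ} (hs : s ∈ Dy) (hfs : f s < s) :
    ∃ φ ∈ GG, (∀ t, t ≤ s → φ t = f t) ∧ (∀ t, s ≤ t → φ t < t) := by
  obtain ⟨φ, hφ, hφ1, hφ2⟩ := exists_trunc_pos (GG.inv_mem hf) ((PL2.dy_iff hf.1 s).2 hs) (by
    rw [inv_apply']; exact hfs)
  refine ⟨φ⁻¹, GG.inv_mem hφ, ?_, ?_⟩
  · intro t ht
    apply inv_eq_of_apply
    rw [hφ1 _ (f.monotone ht), inv_apply']
  · intro t ht
    rw [inv_lt_iff']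
    exact hφ2 t (by linarith)

/-- Orbits of a map which is positive beyond a point are unbounded. -/
lemma exists_pow_gt_of_ge {d : ℝ ≃o ℝ} {p : ℝ} (hd : ∀ t, p ≤ t → t < d t) (y : ℝ) :
    ∃ n : ℕ, y < (d ^ n) p := by
  by_contra hcon
  push Not at hcon
  set S : Set ℝ := range (fun n : ℕ => (d ^ n) p) with hS
  have hne : S.Nonempty := ⟨_, 0, rfl⟩
  have hbd : BddAbove S := ⟨y, by rintro _ ⟨n, rfl⟩; exact hcon n⟩
  have hps : p ≤ sSup S := le_csSup hbd ⟨0, by simp⟩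
  have hlt : d⁻¹ (sSup S) < sSup S := inv_lt_iff'.2 (hd _ hps)
  obtain ⟨_, ⟨n, rfl⟩, hn⟩ := exists_lt_of_lt_csSup hne hlt
  have h1 : sSup S < (d ^ (n + 1)) p := by
    rw [pow_succ', mul_apply']
    exact inv_lt_iff'.1 hn
  exact absurd (le_csSup hbd ⟨n + 1, rfl⟩) (not_le.2 h1)

lemma conj_pow_apply {g f F : ℝ ≃o ℝ} (h : F = g * f * g⁻¹) (n : ℕ) (t : ℝ) :
    (F ^ n) (g t) = g ((f ^ n) t) := by
  induction n with
  | zero => rfl
  | succ n ih =>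
    rw [pow_succ', mul_apply', ih, pow_succ', mul_apply', h, mul_apply', mul_apply', inv_apply']

lemma conj_apply {g f F : ℝ ≃o ℝ} (h : F = g * f * g⁻¹) (t : ℝ) : F (g t) = g (f t) := by
  rw [h, mul_apply', mul_apply', inv_apply']

/-- Positivity along the orbit of a point moved to the right. -/
lemma orbit_pos {f : ℝ ≃o ℝ} {s : ℝ} (hfs : s < f s) :
    ∀ n : ℕ, ∀ t, s ≤ t → t ≤ (f ^ n) s → t < f t := by
  intro n
  induction n with
  | zero =>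
    intro t h1 h2
    have : t = s := le_antisymm (by simpa using h2) h1
    rw [this]; exact hfs
  | succ n ih =>
    intro t h1 h2
    rcases le_or_gt t ((f ^ n) s) with h3 | h3
    · exact ih t h1 h3
    · have := f.strictMono h3
      rw [← mul_apply', ← pow_succ'] at this
      linarith

lemma orbit_step {f : ℝ ≃o ℝ} {s : ℝ} (hfs : s < f s) (n : ℕ) : (f ^ n) s < (f ^ (n + 1)) s := by
  rw [pow_succ, mul_apply']
  exact (f ^ n).strictMono hfs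

lemma orbit_strictMono {f : ℝ ≃o ℝ} {s : ℝ} (hfs : s < f s) :
    StrictMono (fun n : ℕ => (f ^ n) s) := strictMono_nat_of_lt_succ (orbit_step hfs)

lemma orbit_le {f : ℝ ≃o ℝ} {s : ℝ} (hfs : s < f s) (n : ℕ) : s ≤ (f ^ n) s := by
  have := (orbit_strictMono hfs).monotone (Nat.zero_le n)
  simpa using this

/-- A conjugacy from `f'` to `F` valid far into the last component. -/
lemma left_conj {f f' F : ℝ ≃o ℝ} (hf : f ∈ GG) (hf' : f' ∈ GG) (hLC : LC f F)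
    {s : ℝ} (hs : s ∈ Dy) (hag : ∀ t, t ≤ s → f t = f' t) (hp : ∀ t, s ≤ t → t < f t) (X : ℝ) :
    ∃ G ∈ HH, (∃ p : ℤ, EndBot G p) ∧ ∃ N : ℕ, (∀ t, t ≤ (f' ^ N) s → F (G t) = G (f' t)) ∧
      X < G ((f' ^ N) s) := by
  obtain ⟨g, hg, ⟨p, hgp⟩, hgF⟩ := hLC
  -- `F` is positive beyond `g s`
  have hFpos : ∀ t, g s ≤ t → t < F t := by
    intro t ht
    obtain ⟨r, rfl⟩ := g.surjective t
    rw [conj_apply hgF]
    exact g.strictMono (hp r (g.le_iff_le.1 ht))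
  obtain ⟨N, hN⟩ := exists_pow_gt_of_ge hFpos X
  -- the orbit of `s` under `f'`
  have hsn : ∀ n : ℕ, (f' ^ n) s ∈ Dy := fun n => (PL2.dy_iff (HH.pow_mem hf'.1 n) s).2 hs
  have hfs' : s < f' s := by rw [← hag s le_rfl]; exact hp s le_rfl
  obtain ⟨φ, hφ, hφ1, hφ2⟩ := exists_trunc_pos hf' (hsn N) (by
    have := orbit_step hfs' N
    rwa [pow_succ', mul_apply'] at this)
  have hφs : ∀ t, t ≤ s → f t = φ t := by
    intro t ht
    rw [hφ1 t (ht.trans (orbit_le hfs' N)), hag t ht]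
  have hφp : ∀ t, s ≤ t → t < φ t := by
    intro t ht
    rcases le_or_gt t ((f' ^ N) s) with h3 | h3
    · rw [hφ1 t h3]; exact orbit_pos hfs' N t ht h3
    · exact hφ2 t h3.le
  obtain ⟨h, hh, hh1, hh2⟩ := conj_of_agree hf.1 hφ.1 hs hφs hp hφp
  set G := g * h⁻¹ with hG
  have hGH : G ∈ HH := HH.mul_mem hg (HH.inv_mem hh)
  have hhB : EndBot h 0 := by
    unfold EndBot
    filter_upwards [eventually_le_atBot (f s)] with t ht
    rw [hh1 t ht]; simp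
  have hGB : EndBot G p := by simpa using hgp.mul hhB.inv
  have hGF : F = G * φ * G⁻¹ := by
    rw [hG, hgF]
    have : f = h⁻¹ * φ * h := by
      calc f = h⁻¹ * (h * f) := by group
        _ = _ := by rw [hh2]; group
    rw [this]; group
  have hhs : h s = s := hh1 s (hp s le_rfl).le
  have hφN : ∀ n : ℕ, n ≤ N → (φ ^ n) s = (f' ^ n) s := by
    intro n
    induction n with
    | zero => intro _; rfl
    | succ n ih =>
      intro hn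
      have h4 : (f' ^ n) s ≤ (f' ^ N) s := (orbit_strictMono hfs').monotone (by omega)
      rw [pow_succ', mul_apply', ih (by omega), hφ1 _ h4, pow_succ', mul_apply']
  refine ⟨G, hGH, ⟨p, hGB⟩, N, ?_, ?_⟩
  · intro t ht
    rw [conj_apply hGF, hφ1 t ht]
  · rw [← hφN N le_rfl, ← conj_pow_apply hGF, hG, mul_apply', inv_eq_of_apply hhs]
    exact hN

/-- Extension of a conjugate: positive case. -/
lemma ext_pos {f f' F : ℝ ≃o ℝ} (hf : f ∈ GG) (hf' : f' ∈ GG) (hLC : LC f F)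
    {s : ℝ} (hs : s ∈ Dy) (hag : ∀ t, t ≤ s → f t = f' t) (hp : ∀ t, s ≤ t → t < f t) (X : ℝ) :
    ∃ F' ∈ GG, LC f' F' ∧ ∀ t, t ≤ X → F' t = F t := by
  obtain ⟨G, hGH, ⟨p, hGB⟩, N, hconj, hGN⟩ := left_conj hf hf' hLC hs hag hp X
  have hsn : ∀ n : ℕ, (f' ^ n) s ∈ Dy := fun n => (PL2.dy_iff (HH.pow_mem hf'.1 n) s).2 hs
  have hfs' : s < f' s := by rw [← hag s le_rfl]; exact hp s le_rfl
  obtain ⟨G', hG', hG'1, -⟩ := exists_ext_right hGH ⟨p, hGB⟩ (hsn (N + 1)) 0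
  refine ⟨G' * f' * G'⁻¹, GG.mul_mem (GG.mul_mem hG' hf') (GG.inv_mem hG'),
    (LC.refl f').conj hG', ?_⟩
  intro y hy
  have h5 : G'⁻¹ y ≤ (f' ^ N) s := by
    rw [inv_le_iff', hG'1 _ (orbit_step hfs' N).le]
    linarith
  set t := G'⁻¹ y with ht
  have hyt : y = G' t := by rw [ht, apply_inv']
  have h6 : f' t ≤ (f' ^ (N + 1)) s := by
    rw [pow_succ', mul_apply']; exact f'.monotone h5
  have hyt2 : G' t = G t := hG'1 t (h5.trans (orbit_step hfs' N).le)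
  rw [mul_apply', mul_apply', ← ht, hG'1 _ h6, hyt, hyt2, hconj t h5]

/-- Extension of a conjugate: negative case. -/
lemma ext_neg {f f' F : ℝ ≃o ℝ} (hf : f ∈ GG) (hf' : f' ∈ GG) (hLC : LC f F)
    {s : ℝ} (hs : s ∈ Dy) (hag : ∀ t, t ≤ s → f t = f' t) (hp : ∀ t, s ≤ t → f t < t) (X : ℝ) :
    ∃ F' ∈ GG, LC f' F' ∧ ∀ t, t ≤ X → F' t = F t := by
  obtain ⟨F'', hF'', h1, h2⟩ := ext_pos (GG.inv_mem hf) (GG.inv_mem hf') hLC.inv
    ((PL2.dy_iff hf.1 s).2 hs) (agree_inv hag) (by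
      intro t ht
      rw [lt_inv_iff']
      obtain ⟨r, rfl⟩ := f.surjective t
      rw [f.le_iff_le] at ht
      exact f.strictMono (hp r ht)) (F X)
  refine ⟨F''⁻¹, GG.inv_mem hF'', by simpa using h1.inv, ?_⟩
  intro t ht
  apply inv_eq_of_apply
  rw [h2 _ (F.monotone ht), inv_apply']

/-- Extension of a conjugate: the case where `f` is eventually the identity. -/
lemma ext_id {f f' F : ℝ ≃o ℝ} (hf' : f' ∈ GG) (hLC : LC f F)
    {s₀ s : ℝ} (hs₀ : s₀ ∈ Dy) (hs : s ∈ Dy) (hss : s₀ < s) (hag : ∀ t, t ≤ s → f t = f' t)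
    (hid : ∀ t, s₀ ≤ t → f t = t) (X : ℝ) :
    ∃ F' ∈ GG, LC f' F' ∧ ∀ t, t ≤ X → F' t = F t := by
  obtain ⟨g, hg, ⟨p, hgp⟩, hgF⟩ := hLC
  obtain ⟨n, hn⟩ := exists_nat_gt (max (g s₀) X - s)
  have h1 : g s₀ < s + n := by have := le_max_left (g s₀) X; linarith
  have h2 : X < s + n := by have := le_max_right (g s₀) X; linarith
  obtain ⟨G', hG', hG'1, hG'2⟩ := interp (f₁ := g) (f₂ := tr (n : ℝ)) hg (tr_mem_HH (Dy_nat n)) hs₀
    hs hss (by rw [tr_apply]; exact h1)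
  have hG'G : G' ∈ GG := by
    refine ⟨hG', ⟨p, ?_⟩, ⟨n, ?_⟩⟩
    · filter_upwards [hgp, eventually_le_atBot s₀] with t h3 h4
      rw [hG'1 t h4, h3]
    · filter_upwards [eventually_ge_atTop s] with t ht
      rw [hG'2 t ht, tr_apply]; simp
  refine ⟨G' * f' * G'⁻¹, GG.mul_mem (GG.mul_mem hG'G hf') (GG.inv_mem hG'G),
    (LC.refl f').conj hG'G, ?_⟩
  intro y hy
  set t := G'⁻¹ y with ht
  have hyt : y = G' t := by rw [ht, apply_inv']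
  have hts : t < s := by
    rw [ht, inv_lt_iff', hG'2 s le_rfl, tr_apply]; linarith
  rw [mul_apply', mul_apply', ← ht, ← hag t hts.le]
  rcases le_or_gt t s₀ with h3 | h3
  · have h4 : f t ≤ s₀ := by rw [← hid s₀ le_rfl]; exact f.monotone h3
    rw [hG'1 _ h4, hyt, hG'1 t h3, conj_apply hgF]
  · rw [hid t h3.le, hyt]
    have h5 : s₀ ≤ g⁻¹ (G' t) := by
      rw [le_inv_iff', ← hG'1 s₀ le_rfl]; exact G'.monotone h3.le
    rw [hgF, mul_apply', mul_apply', hid _ h5]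
    exact (apply_inv' _ _).symm

/-- The condition allowing to replace `f` by `f'` (agreement up to `s`, and `f` lives in a single
component beyond `s`). -/
def Ext (f f' : ℝ ≃o ℝ) : Prop := ∃ s ∈ Dy, (∀ t, t ≤ s → f t = f' t) ∧
  ((∀ t, s ≤ t → t < f t) ∨ (∀ t, s ≤ t → f t < t) ∨ (∃ s₀ ∈ Dy, s₀ < s ∧ ∀ t, s₀ ≤ t → f t = t))

lemma Ext.extend {f f' F : ℝ ≃o ℝ} (h : Ext f f') (hf : f ∈ GG) (hf' : f' ∈ GG) (hLC : LC f F)
    (X : ℝ) : ∃ F' ∈ GG, LC f' F' ∧ ∀ t, t ≤ X → F' t = F t := by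
  obtain ⟨s, hs, hag, h1 | h1 | ⟨s₀, hs₀, hss, h1⟩⟩ := h
  · exact ext_pos hf hf' hLC hs hag h1 X
  · exact ext_neg hf hf' hLC hs hag h1 X
  · exact ext_id hf' hLC hs₀ hs hss hag h1 X

/-- Lemma Y: extension of an element staying below the identity and below another element. -/
lemma exists_below {F B : ℝ ≃o ℝ} (hF : F ∈ GG) (hB : B ∈ GG) {τ : ℝ} (hτ : τ ∈ Dy)
    (h1 : F τ < τ) (h2 : F τ < B τ) :
    ∃ F' ∈ GG, (∀ t, t ≤ τ → F' t = F t) ∧ (∀ t, τ ≤ t → F' t < t) ∧ (∀ t, τ ≤ t → F' t < B t) := by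
  obtain ⟨K, hK⟩ := GG_disp hB
  obtain ⟨v, hv, hv1, hv2⟩ := Dy_dense (show F τ < min τ (B τ) from lt_min h1 h2)
  rw [lt_min_iff] at hv2
  obtain ⟨n, hn⟩ := exists_nat_gt (max (τ - v) K)
  have hn1 : τ < v + n := by have := le_max_left (τ - v) (K : ℝ); linarith
  have hn2 : (K : ℝ) < n := by have := le_max_right (τ - v) (K : ℝ); linarith
  obtain ⟨F', hF', hF'1, hF'2⟩ := interp (f₁ := F) (f₂ := tr (-(n : ℝ))) hF.1
    (tr_mem_HH (Dy.neg_mem (Dy_nat n))) hτ (Dy.add_mem hv (Dy_nat n)) hn1 (by rw [tr_apply]; linarith)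
  obtain ⟨p, hp⟩ := hF.2.1
  have key : ∀ t, τ ≤ t → F' t < t ∧ F' t < B t := by
    intro t ht
    rcases le_or_gt (v + n) t with h3 | h3
    · rw [hF'2 t h3, tr_apply]
      have := hK t
      rw [abs_le] at this
      have hK0 : (0 : ℝ) ≤ K := Nat.cast_nonneg _
      constructor <;> linarith [this.1]
    · have h4 := F'.monotone h3.le
      rw [hF'2 _ le_rfl, tr_apply] at h4
      have h5 := B.monotone ht
      constructor <;> linarith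
  refine ⟨F', ⟨hF', ⟨p, ?_⟩, ⟨-n, ?_⟩⟩, hF'1, fun t ht => (key t ht).1, fun t ht => (key t ht).2⟩
  · filter_upwards [hp, eventually_le_atBot τ] with t h3 h4
    rw [hF'1 t h4, h3]
  · filter_upwards [eventually_ge_atTop (v + n)] with t ht
    rw [hF'2 t ht, tr_apply]; simp

/-- A half solution for three (truncated) elements. -/
def St (f₁ f₂ f₃ : ℝ ≃o ℝ) : Prop := ∃ F₁ ∈ GG, ∃ F₂ ∈ GG, ∃ F₃ ∈ GG,
  LC f₁ F₁ ∧ LC f₂ F₂ ∧ LC f₃ F₃ ∧ F₁ * F₂ * F₃ = 1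

/-- The macro move: the middle element can be extended if the other two are eventually
positive, respectively negative. -/
theorem macro_move {f₁ f₂ f₂' f₃ : ℝ ≃o ℝ} (hf₂ : f₂ ∈ GG) (hf₂' : f₂' ∈ GG) (h : St f₁ f₂ f₃)
    (h1 : ∀ᶠ t in atTop, t < f₁ t) (h3 : ∀ᶠ t in atTop, f₃ t < t) (h2 : Ext f₂ f₂') :
    St f₁ f₂' f₃ := by
  obtain ⟨F₁, hF₁, F₂, hF₂, F₃, hF₃, k1, k2, k3, hprod⟩ := h
  obtain ⟨x₁, hx₁⟩ := eventually_atTop.1 (k1.pos h1)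
  obtain ⟨x₃, hx₃⟩ := eventually_atTop.1 (k3.neg h3)
  obtain ⟨n, hn⟩ := exists_nat_ge (max x₃ (F₁ x₁))
  rw [max_le_iff] at hn
  set τ : ℝ := (n : ℝ) with hτ
  have hτD : τ ∈ Dy := Dy_nat n
  have hinv : ∀ t, F₂ (F₃ t) = F₁⁻¹ t := by
    intro t
    rw [← mul_apply']
    have : F₂ * F₃ = F₁⁻¹ := by
      rw [eq_inv_iff_mul_eq_one]
      calc F₂ * F₃ * F₁ = F₁⁻¹ * (F₁ * F₂ * F₃) * F₁ := by group
        _ = 1 := by rw [hprod]; group
    rw [this]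
  set y₀ := F₁⁻¹ τ with hy₀
  have hy₀D : y₀ ∈ Dy := (PL2.dy_iff (HH.inv_mem hF₁.1) τ).2 hτD
  have hy₀x : x₁ ≤ y₀ := le_inv_iff'.2 hn.2
  have hy₀τ : y₀ < τ := by
    have := hx₁ y₀ hy₀x
    rwa [hy₀, apply_inv'] at this
  have hF₃τ : F₃ τ < τ := hx₃ τ hn.1
  obtain ⟨F₂', hF₂', hLC2, hag2⟩ := h2.extend hf₂ hf₂' k2 (F₃ τ)
  have hB : F₃ τ < F₂'⁻¹ τ := by
    rw [lt_inv_iff', hag2 _ le_rfl, hinv]; exact hy₀τ
  obtain ⟨F₃', hF₃', hag3, hneg3, hbel3⟩ := exists_below hF₃ (GG.inv_mem hF₂') hτD hF₃τ hB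
  set P := F₂' * F₃' with hP
  have hPG : P ∈ GG := GG.mul_mem hF₂' hF₃'
  have hPle : ∀ t, t ≤ τ → P t = F₁⁻¹ t := by
    intro t ht
    rw [hP, mul_apply', hag3 t ht, hag2 _ (F₃.monotone ht), hinv]
  have hPge : ∀ t, τ ≤ t → P t < t := by
    intro t ht
    rw [hP, mul_apply']
    exact lt_inv_iff'.1 (hbel3 t ht)
  have hagP : ∀ t, t ≤ y₀ → F₁ t = P⁻¹ t := by
    intro t ht
    have h4 := agree_inv (f := P) (f' := F₁⁻¹) hPle
    rw [hPle τ le_rfl] at h4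
    rw [h4 t ht, inv_inv]
  have hP₁ : ∀ t, y₀ ≤ t → t < P⁻¹ t := by
    intro t ht
    obtain ⟨s, rfl⟩ := P.surjective t
    rw [inv_apply']
    apply hPge
    rw [← P.le_iff_le, hPle τ le_rfl]; exact ht
  refine ⟨P⁻¹, GG.inv_mem hPG, F₂', hF₂', F₃', hF₃', ?_, hLC2, ?_, by rw [hP]; group⟩
  · obtain ⟨g, hg, hg1, hg2⟩ := conj_of_agree hF₁.1 (HH.inv_mem hPG.1) hy₀D hagP
      (fun t ht => hx₁ t (hy₀x.trans ht)) hP₁
    refine k1.trans ⟨g, hg, ⟨0, ?_⟩, by rw [hg2]; group⟩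
    unfold EndBot
    filter_upwards [eventually_le_atBot (F₁ y₀)] with t ht
    rw [hg1 t ht]; simp
  · obtain ⟨g, hg, hg1, hg2⟩ := conj_of_agree_neg hF₃.1 hF₃'.1 hτD
      (fun t ht => (hag3 t ht).symm) (fun t ht => hx₃ t (hn.1.trans ht)) hneg3
    refine k3.trans ⟨g, hg, ⟨0, ?_⟩, by rw [hg2]; group⟩
    unfold EndBot
    filter_upwards [eventually_le_atBot τ] with t ht
    rw [hg1 t ht]; simp

end Pool.Agent.Lib_helper30
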