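import Pool.Agent.Lib_helper30.Gen

set_option autoImplicit false

namespace Pool.Agent.Lib_helper30

open Filter Topology Set

/-- The two defining relators of Thompson's group `F`. -/
def relsF : Set (FreeGroup Bool) :=
  {(FreeGroup.of false * (FreeGroup.of true)⁻¹) *
      ((FreeGroup.of false)⁻¹ * FreeGroup.of true * FreeGroup.of false) *
      (FreeGroup.of false * (FreeGroup.of true)⁻¹)⁻¹ *
      ((FreeGroup.of false)⁻¹ * FreeGroup.of true * FreeGroup.of false)⁻¹,
    (FreeGroup.of false * (FreeGroup.of true)⁻¹) *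
      ((FreeGroup.of false)⁻¹ * (FreeGroup.of false)⁻¹ * FreeGroup.of true * FreeGroup.of false *
        FreeGroup.of false) *
      (FreeGroup.of false * (FreeGroup.of true)⁻¹)⁻¹ *
      ((FreeGroup.of false)⁻¹ * (FreeGroup.of false)⁻¹ * FreeGroup.of true * FreeGroup.of false *
        FreeGroup.of false)⁻¹}

/-- Thompson's group `F` by its standard presentation. -/
abbrev TF : Type := PresentedGroup relsF

/-- The generator `x_0`. -/
def gA : TF := PresentedGroup.of false
/-- The generator `x_1`. -/
def gB : TF := PresentedGroup.of true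

lemma frel_TF : FRel gA gB := by
  constructor
  · have h : (PresentedGroup.mk relsF) ((FreeGroup.of false * (FreeGroup.of true)⁻¹) *
      ((FreeGroup.of false)⁻¹ * FreeGroup.of true * FreeGroup.of false) *
      (FreeGroup.of false * (FreeGroup.of true)⁻¹)⁻¹ *
      ((FreeGroup.of false)⁻¹ * FreeGroup.of true * FreeGroup.of false)⁻¹) = 1 := by
      apply PresentedGroup.one_of_mem
      exact Or.inl rfl
    simp only [map_mul, map_inv] at h
    rw [mul_inv_eq_one, mul_inv_eq_iff_eq_mul] at h
    exact h
  · have h : (PresentedGroup.mk relsF) ((FreeGroup.of false * (FreeGroup.of true)⁻¹) *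
      ((FreeGroup.of false)⁻¹ * (FreeGroup.of false)⁻¹ * FreeGroup.of true * FreeGroup.of false *
        FreeGroup.of false) *
      (FreeGroup.of false * (FreeGroup.of true)⁻¹)⁻¹ *
      ((FreeGroup.of false)⁻¹ * (FreeGroup.of false)⁻¹ * FreeGroup.of true * FreeGroup.of false *
        FreeGroup.of false)⁻¹) = 1 := by
      apply PresentedGroup.one_of_mem
      exact Or.inr rfl
    simp only [map_mul, map_inv] at h
    rw [mul_inv_eq_one, mul_inv_eq_iff_eq_mul] at h
    exact h

/-- The images of the generators. -/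
noncomputable def genImg (c : Bool) : ℝ ≃o ℝ := if c then X1 else X0

lemma genImg_rel : ∀ r ∈ relsF, FreeGroup.lift genImg r = 1 := by
  have h := frel_model
  rintro r (rfl | hr)
  · simp only [map_mul, map_inv, FreeGroup.lift_apply_of, genImg, if_true, Bool.false_eq_true,
      if_false]
    rw [mul_inv_eq_one, mul_inv_eq_iff_eq_mul]
    exact h.r1
  · rw [Set.mem_singleton_iff.1 hr]
    simp only [map_mul, map_inv, FreeGroup.lift_apply_of, genImg, if_true, Bool.false_eq_true,
      if_false]
    rw [mul_inv_eq_one, mul_inv_eq_iff_eq_mul]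
    exact h.r2

/-- The piecewise linear representation. -/
noncomputable def Phi : TF →* (ℝ ≃o ℝ) := PresentedGroup.toGroup genImg_rel

lemma Phi_A : Phi gA = X0 := by
  unfold Phi gA
  rw [PresentedGroup.toGroup.of]; rfl

lemma Phi_B : Phi gB = X1 := by
  unfold Phi gB
  rw [PresentedGroup.toGroup.of]; rfl

lemma Phi_xg (n : ℕ) : Phi (xg gA gB n) = xg X0 X1 n := by
  rcases n with _ | n
  · exact Phi_A
  · rw [xg_succ, xg_succ, map_mul, map_mul, map_inv, map_pow, Phi_A, Phi_B]

lemma Phi_prod (l : List ℕ) : Phi ((l.map (xg gA gB)).prod) = (l.map (xg X0 X1)).prod := by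
  induction l with
  | nil => simp
  | cons n l ih => rw [List.map_cons, List.prod_cons, map_mul, ih, Phi_xg, List.map_cons,
      List.prod_cons]

lemma closure_TF : Subgroup.closure {gA, gB} = (⊤ : Subgroup TF) := by
  rw [← PresentedGroup.closure_range_of relsF]
  congr 1
  ext x
  constructor
  · rintro (rfl | hx)
    · exact ⟨false, rfl⟩
    · exact ⟨true, (Set.mem_singleton_iff.1 hx).symm⟩
  · rintro ⟨c, rfl⟩
    cases c
    · exact Or.inl rfl
    · exact Or.inr rfl

lemma Phi_injective : Function.Injective Phi := by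
  rw [injective_iff_map_eq_one]
  intro g hg
  have hmem : g ∈ Subgroup.closure {gA, gB} := by rw [closure_TF]; trivial
  obtain ⟨l, q, rfl⟩ := exists_frac frel_TF hmem
  obtain ⟨l', hl', h1⟩ := exists_sorted frel_TF l
  obtain ⟨q', hq', h2⟩ := exists_sorted frel_TF q
  rw [h1, h2] at hg ⊢
  rw [map_mul, map_inv, Phi_prod, Phi_prod, mul_inv_eq_one] at hg
  rw [sorted_unique l' q' hl' hq' hg, mul_inv_cancel]

lemma Phi_range : Phi.range = GG := by
  rw [GG_eq_closure, MonoidHom.range_eq_map, ← closure_TF, MonoidHom.map_closure]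
  congr 1
  rw [Set.image_pair, Phi_A, Phi_B]

lemma Phi_mem (g : TF) : Phi g ∈ GG := by
  rw [← Phi_range]; exact ⟨g, rfl⟩

lemma exists_Phi {f : ℝ ≃o ℝ} (hf : f ∈ GG) : ∃ g : TF, Phi g = f := by
  rw [← Phi_range] at hf; exact hf

end Pool.Agent.Lib_helper30
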