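import Pool.Agent.Lib_helper30.Iso

/-!
# Thompson's group on the unit interval

The homeomorphism `bet : ℝ → (0,1)` which conjugates the model of Thompson's group on the line to
the model on `[0,1]`.
-/

set_option autoImplicit false

namespace Pool.Agent.Lib_helper30

open Filter Topology Set

namespace Ival

/-- The increasing bijection `ℝ → (0,∞)` with `eta n = 2 ^ n`, affine on the intervals
`[n, n + 1]`. -/
noncomputable def eta (t : ℝ) : ℝ := 2 ^ ⌊t⌋ * (1 + Int.fract t)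

lemma eta_eq (n : ℤ) {t : ℝ} (h0 : (n : ℝ) ≤ t) (h1 : t ≤ n + 1) :
    eta t = 2 ^ n * (1 + t - n) := by
  unfold eta
  rcases lt_or_eq_of_le h1 with h2 | h2
  · have h3 : ⌊t⌋ = n := Int.floor_eq_iff.2 ⟨h0, h2⟩
    rw [Int.fract, h3]
    ring
  · have h3 : ⌊t⌋ = n + 1 := by
      rw [h2]
      have : ((n : ℝ) + 1) = ((n + 1 : ℤ) : ℝ) := by push_cast; ring
      rw [this, Int.floor_intCast]
    rw [Int.fract, h3, h2, zpow_add₀ (by norm_num)]
    push_cast
    ring

lemma eta_pos (t : ℝ) : 0 < eta t := by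
  unfold eta
  have := Int.fract_nonneg t
  positivity

lemma eta_add (t : ℝ) (p : ℤ) : eta (t + p) = 2 ^ p * eta t := by
  unfold eta
  rw [Int.floor_add_intCast, Int.fract_add_intCast, zpow_add₀ (by norm_num)]
  ring

lemma eta_strictMono : StrictMono eta := by
  intro s t hst
  rcases lt_or_eq_of_le (Int.floor_le_floor hst.le) with h | h
  · have h1 : eta s < 2 ^ (⌊s⌋ + 1) := by
      unfold eta
      rw [zpow_add₀ (by norm_num), zpow_one]
      have h2 := Int.fract_lt_one s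
      have h3 : (0 : ℝ) < 2 ^ ⌊s⌋ := by positivity
      nlinarith
    have h2 : (2 : ℝ) ^ (⌊s⌋ + 1) ≤ 2 ^ ⌊t⌋ := zpow_le_zpow_right₀ (by norm_num) (by omega)
    have h3 : (2 : ℝ) ^ ⌊t⌋ ≤ eta t := by
      unfold eta
      have h4 := Int.fract_nonneg t
      have h5 : (0 : ℝ) < 2 ^ ⌊t⌋ := by positivity
      nlinarith
    linarith
  · unfold eta
    rw [Int.fract, Int.fract, h]
    have h5 : (0 : ℝ) < 2 ^ ⌊t⌋ := by positivity
    nlinarith

lemma eta_surj {y : ℝ} (hy : 0 < y) : ∃ t, eta t = y := by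
  obtain ⟨n, hn1, hn2⟩ := exists_mem_Ico_zpow hy (y := (2 : ℝ)) (by norm_num)
  have h2 : (0 : ℝ) < 2 ^ n := by positivity
  have h3 : 1 ≤ y / 2 ^ n := by rwa [le_div_iff₀ h2, one_mul]
  have h4 : y / 2 ^ n ≤ 2 := by
    rw [div_le_iff₀ h2]
    rw [zpow_add₀ (by norm_num), zpow_one] at hn2
    linarith
  refine ⟨n + (y / 2 ^ n - 1), ?_⟩
  rw [eta_eq n (by linarith) (by linarith)]
  field_simp
  ring

lemma eta_neg_one : eta (-1) = 1 / 2 := by
  have h := eta_eq (-1) (t := -1) (by norm_num) (by norm_num)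
  rw [h]
  norm_num

/-- The increasing bijection `ℝ → (0,1)`. -/
noncomputable def bet (t : ℝ) : ℝ := if t ≤ 0 then eta (t - 1) else 1 - eta (-t - 1)

lemma bet_le {t : ℝ} (ht : t ≤ 0) : bet t = eta (t - 1) := if_pos ht

lemma bet_ge {t : ℝ} (ht : 0 ≤ t) : bet t = 1 - eta (-t - 1) := by
  rcases lt_or_eq_of_le ht with h | h
  · exact if_neg (not_le.2 h)
  · rw [← h, bet_le le_rfl]
    norm_num [eta_neg_one]

lemma bet_le_half {t : ℝ} (ht : t ≤ 0) : bet t ≤ 1 / 2 := by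
  rw [bet_le ht, ← eta_neg_one]
  exact eta_strictMono.monotone (by linarith)

lemma half_le_bet {t : ℝ} (ht : 0 ≤ t) : 1 / 2 ≤ bet t := by
  rw [bet_ge ht]
  have : eta (-t - 1) ≤ 1 / 2 := by
    rw [← eta_neg_one]
    exact eta_strictMono.monotone (by linarith)
  linarith

lemma bet_pos (t : ℝ) : 0 < bet t := by
  rcases le_total t 0 with h | h
  · rw [bet_le h]
    exact eta_pos _
  · have := half_le_bet h
    linarith

lemma bet_lt_one (t : ℝ) : bet t < 1 := by
  rcases le_total t 0 with h | h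
  · have := bet_le_half h
    linarith
  · rw [bet_ge h]
    have := eta_pos (-t - 1)
    linarith

lemma bet_strictMono : StrictMono bet := by
  intro s t hst
  rcases le_total t 0 with h | h
  · rw [bet_le h, bet_le (hst.le.trans h)]
    exact eta_strictMono (by linarith)
  · rcases le_total 0 s with h' | h'
    · rw [bet_ge h, bet_ge h']
      have := eta_strictMono (show -t - 1 < -s - 1 by linarith)
      linarith
    · rcases lt_or_eq_of_le h' with h1 | h1
      · have h2 : bet s < 1 / 2 := by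
          rw [bet_le h', ← eta_neg_one]
          exact eta_strictMono (by linarith)
        have := half_le_bet h
        linarith
      · rw [h1] at hst ⊢
        rw [bet_ge h, bet_ge le_rfl]
        have := eta_strictMono (show -t - 1 < -0 - 1 by linarith)
        linarith

lemma bet_surj {x : ℝ} (h0 : 0 < x) (h1 : x < 1) : ∃ t, bet t = x := by
  rcases le_total x (1 / 2) with h | h
  · obtain ⟨t, ht⟩ := eta_surj h0
    have h2 : t ≤ -1 := by
      rw [← ht, ← eta_neg_one] at h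
      exact eta_strictMono.le_iff_le.1 h
    refine ⟨t + 1, ?_⟩
    rw [bet_le (by linarith), add_sub_cancel_right, ht]
  · obtain ⟨t, ht⟩ := eta_surj (show 0 < 1 - x by linarith)
    have h2 : t ≤ -1 := by
      have h3 : eta t ≤ 1 / 2 := by rw [ht]; linarith
      rw [← eta_neg_one] at h3
      exact eta_strictMono.le_iff_le.1 h3
    refine ⟨-t - 1, ?_⟩
    rw [bet_ge (by linarith)]
    have h4 : -(-t - 1) - 1 = t := by ring
    rw [h4, ht]
    ring

/-- The inverse of `bet` (junk values outside of `(0,1)`). -/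
noncomputable def psi (x : ℝ) : ℝ := Function.invFun bet x

lemma psi_bet (t : ℝ) : psi (bet t) = t := Function.leftInverse_invFun bet_strictMono.injective t

lemma bet_psi {x : ℝ} (h0 : 0 < x) (h1 : x < 1) : bet (psi x) = x :=
  Function.invFun_eq (bet_surj h0 h1)

/-- `bet` is affine on the intervals `[n, n + 1]`. -/
lemma bet_affOn (n : ℤ) : AffOn bet (Icc (n : ℝ) (n + 1)) := by
  rcases lt_or_ge n 0 with hn | hn
  · have hn1 : (n : ℝ) + 1 ≤ 0 := by exact_mod_cast hn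
    refine ⟨n - 1, 2 ^ (n - 1) * (1 - n : ℤ), Dy.mul_mem (Dy_zpow _) (Dy_int _), ?_⟩
    rintro t ⟨h0, h1⟩
    rw [bet_le (h1.trans hn1), eta_eq (n - 1) (by push_cast; linarith) (by push_cast; linarith)]
    push_cast
    ring
  · have hn1 : (0 : ℝ) ≤ n := by exact_mod_cast hn
    refine ⟨-n - 2, 1 - 2 ^ (-n - 2) * (n + 2 : ℤ),
      Dy.sub_mem Dy.one_mem (Dy.mul_mem (Dy_zpow _) (Dy_int _)), ?_⟩
    rintro t ⟨h0, h1⟩
    rw [bet_ge (hn1.trans h0), eta_eq (-n - 2) (by push_cast; linarith) (by push_cast; linarith)]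
    push_cast
    ring

/-- A function which is affine on the intervals `[n, n + 1]` has affine germs. -/
lemma germs_of_affOn {f : ℝ → ℝ} (h : ∀ n : ℤ, AffOn f (Icc (n : ℝ) (n + 1))) (x : ℝ) :
    Aff f (𝓝[≤] x) ∧ Aff f (𝓝[≥] x) ∧ (x ∉ Dy → Aff f (𝓝 x)) := by
  have hr : Aff f (𝓝[≥] x) := by
    obtain ⟨m, b, hb, h1⟩ := h ⌊x⌋
    refine ⟨m, b, hb, ?_⟩
    have h2 : Ico x ((⌊x⌋ : ℝ) + 1) ∈ 𝓝[≥] x := Ico_mem_nhdsGE (Int.lt_floor_add_one x)
    filter_upwards [h2] with t ht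
    exact h1 t ⟨(Int.floor_le x).trans ht.1, ht.2.le⟩
  refine ⟨?_, hr, ?_⟩
  · obtain ⟨m, b, hb, h1⟩ := h (⌈x⌉ - 1)
    refine ⟨m, b, hb, ?_⟩
    have h2 : ((⌈x⌉ - 1 : ℤ) : ℝ) < x := by
      have := Int.ceil_lt_add_one x
      push_cast
      linarith
    have h3 : Ioc ((⌈x⌉ - 1 : ℤ) : ℝ) x ∈ 𝓝[≤] x := Ioc_mem_nhdsLE h2
    filter_upwards [h3] with t ht
    refine h1 t ⟨ht.1.le, ht.2.trans ?_⟩
    have := Int.le_ceil x
    push_cast
    linarith
  · intro hx
    obtain ⟨m, b, hb, h1⟩ := h ⌊x⌋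
    refine ⟨m, b, hb, ?_⟩
    have h3 : (⌊x⌋ : ℝ) < x := by
      refine lt_of_le_of_ne (Int.floor_le x) fun h4 => hx ?_
      rw [← h4]
      exact Dy_int _
    have h2 : Ioo (⌊x⌋ : ℝ) ((⌊x⌋ : ℝ) + 1) ∈ 𝓝 x := Ioo_mem_nhds h3 (Int.lt_floor_add_one x)
    filter_upwards [h2] with t ht
    exact h1 t ⟨ht.1.le, ht.2.le⟩

lemma bet_germs (x : ℝ) :
    Aff bet (𝓝[≤] x) ∧ Aff bet (𝓝[≥] x) ∧ (x ∉ Dy → Aff bet (𝓝 x)) :=
  germs_of_affOn bet_affOn x

end Ival

end Pool.Agent.Lib_helper30
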