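import Pool.Agent.Lib_helper30.IvalA

/-!
# Thompson's group on the unit interval, part two: conjugation
-/

set_option autoImplicit false

namespace Pool.Agent.Lib_helper30

open Filter Topology Set

namespace Ival

/-- The unit interval. -/
abbrev UI : Type := Icc (0 : ℝ) 1

lemma bet_mem (t : ℝ) : bet t ∈ Icc (0 : ℝ) 1 := ⟨(bet_pos t).le, (bet_lt_one t).le⟩

/-- The left endpoint. -/
def z0 : UI := ⟨0, by norm_num⟩

/-- The right endpoint. -/
def z1 : UI := ⟨1, by norm_num⟩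

lemma map_z0 (f : UI ≃o UI) : f z0 = z0 := by
  apply le_antisymm
  · have h : z0 ≤ f.symm z0 := (f.symm z0).2.1
    have h2 := f.monotone h
    rwa [OrderIso.apply_symm_apply] at h2
  · exact (f z0).2.1

lemma map_z1 (f : UI ≃o UI) : f z1 = z1 := by
  apply le_antisymm
  · exact (f z1).2.2
  · have h : f.symm z1 ≤ z1 := (f.symm z1).2.2
    have h2 := f.monotone h
    rwa [OrderIso.apply_symm_apply] at h2

/-- Extension of an automorphism of the unit interval to the line by the identity. -/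
noncomputable def ef (f : UI ≃o UI) (x : ℝ) : ℝ :=
  open Classical in if h : x ∈ Icc (0 : ℝ) 1 then (f ⟨x, h⟩ : ℝ) else x

lemma ef_mem (f : UI ≃o UI) {x : ℝ} (h : x ∈ Icc (0 : ℝ) 1) : ef f x = f ⟨x, h⟩ := dif_pos h

lemma ef_coe (f : UI ≃o UI) (x : UI) : ef f x = f x := ef_mem f x.2

lemma ef_zero (f : UI ≃o UI) : ef f 0 = 0 := by
  have h := ef_coe f z0
  rw [map_z0] at h
  exact h

lemma ef_one (f : UI ≃o UI) : ef f 1 = 1 := by
  have h := ef_coe f z1
  rw [map_z1] at h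
  exact h

lemma ef_out (f : UI ≃o UI) {x : ℝ} (h : x ∉ Icc (0 : ℝ) 1) : ef f x = x := dif_neg h

lemma ef_le (f : UI ≃o UI) {x : ℝ} (h : x ≤ 0) : ef f x = x := by
  rcases lt_or_eq_of_le h with h1 | h1
  · exact ef_out f fun h2 => absurd h2.1 (not_le.2 h1)
  · rw [h1, ef_zero]

lemma ef_ge (f : UI ≃o UI) {x : ℝ} (h : 1 ≤ x) : ef f x = x := by
  rcases lt_or_eq_of_le h with h1 | h1
  · exact ef_out f fun h2 => absurd h2.2 (not_le.2 h1)
  · rw [← h1, ef_one]

lemma ef_mem_Icc (f : UI ≃o UI) {x : ℝ} (h : x ∈ Icc (0 : ℝ) 1) : ef f x ∈ Icc (0 : ℝ) 1 := by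
  rw [ef_mem f h]
  exact (f ⟨x, h⟩).2

lemma ef_strictMono (f : UI ≃o UI) : StrictMono (ef f) := by
  intro s t hst
  rcases lt_or_ge s 0 with h1 | h1
  · rw [ef_le f h1.le]
    rcases le_or_gt t 0 with h2 | h2
    · rw [ef_le f h2]
      exact hst
    · rcases le_or_gt t 1 with h3 | h3
      · exact h1.trans_le (ef_mem_Icc f ⟨h2.le, h3⟩).1
      · rw [ef_ge f h3.le]
        exact hst
  · rcases lt_or_ge 1 s with h2 | h2
    · rw [ef_ge f h2.le, ef_ge f (h2.le.trans hst.le)]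
      exact hst
    · rcases lt_or_ge 1 t with h3 | h3
      · rw [ef_ge f h3.le]
        exact (ef_mem_Icc f ⟨h1, h2⟩).2.trans_lt h3
      · rw [ef_mem f ⟨h1, h2⟩, ef_mem f ⟨h1.trans hst.le, h3⟩]
        exact f.strictMono hst

lemma ef_mul (f g : UI ≃o UI) (x : ℝ) : ef (f * g) x = ef f (ef g x) := by
  by_cases h : x ∈ Icc (0 : ℝ) 1
  · rw [ef_mem _ h, ef_mem g h, ef_coe]
    rfl
  · rw [ef_out _ h, ef_out _ h, ef_out _ h]

lemma ef_id (x : ℝ) : ef 1 x = x := by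
  by_cases h : x ∈ Icc (0 : ℝ) 1
  · rw [ef_mem _ h]
    rfl
  · exact ef_out _ h

lemma ef_inv_ef (f : UI ≃o UI) (x : ℝ) : ef f⁻¹ (ef f x) = x := by
  rw [← ef_mul, inv_mul_cancel, ef_id]

lemma ef_ef_inv (f : UI ≃o UI) (x : ℝ) : ef f (ef f⁻¹ x) = x := by
  rw [← ef_mul, mul_inv_cancel, ef_id]

/-- The extension as an order automorphism of the line. -/
noncomputable def EX (f : UI ≃o UI) : ℝ ≃o ℝ where
  toFun := ef f
  invFun := ef f⁻¹
  left_inv := ef_inv_ef f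
  right_inv := ef_ef_inv f
  map_rel_iff' := (ef_strictMono f).le_iff_le

lemma EX_apply (f : UI ≃o UI) (x : ℝ) : EX f x = ef f x := rfl

lemma ef_bet_pos (f : UI ≃o UI) (t : ℝ) : 0 < ef f (bet t) := by
  have h := ef_strictMono f (bet_pos t)
  rwa [ef_zero] at h

lemma ef_bet_lt (f : UI ≃o UI) (t : ℝ) : ef f (bet t) < 1 := by
  have h := ef_strictMono f (bet_lt_one t)
  rwa [ef_one] at h

lemma bet_psi_ef (f : UI ≃o UI) (t : ℝ) : bet (psi (ef f (bet t))) = ef f (bet t) :=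
  bet_psi (ef_bet_pos f t) (ef_bet_lt f t)

/-- The conjugate of an automorphism of the unit interval by `bet`. -/
noncomputable def toRf (f : UI ≃o UI) : ℝ ≃o ℝ where
  toFun t := psi (ef f (bet t))
  invFun t := psi (ef f⁻¹ (bet t))
  left_inv t := by
    show psi (ef f⁻¹ (bet (psi (ef f (bet t))))) = t
    rw [bet_psi_ef, ef_inv_ef, psi_bet]
  right_inv t := by
    show psi (ef f (bet (psi (ef f⁻¹ (bet t))))) = t
    rw [bet_psi_ef, ef_ef_inv, psi_bet]
  map_rel_iff' := by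
    intro s t
    show psi (ef f (bet s)) ≤ psi (ef f (bet t)) ↔ s ≤ t
    rw [← bet_strictMono.le_iff_le, bet_psi_ef, bet_psi_ef, (ef_strictMono f).le_iff_le,
      bet_strictMono.le_iff_le]

lemma bet_toRf (f : UI ≃o UI) (t : ℝ) : bet (toRf f t) = ef f (bet t) := bet_psi_ef f t

lemma toRf_unique {f : UI ≃o UI} {g : ℝ ≃o ℝ} (h : ∀ t, ef f (bet t) = bet (g t)) :
    toRf f = g := by
  ext t
  apply bet_strictMono.injective
  rw [bet_toRf, h]

/-- Conjugation as a homomorphism. -/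
noncomputable def toR : (UI ≃o UI) →* (ℝ ≃o ℝ) where
  toFun := toRf
  map_one' := toRf_unique fun t => by rw [ef_id]; rfl
  map_mul' f g := toRf_unique fun t => by
    rw [ef_mul, ← bet_toRf g, ← bet_toRf f]
    rfl

lemma bet_toR (f : UI ≃o UI) (t : ℝ) : bet (toR f t) = ef f (bet t) := bet_psi_ef f t

lemma toR_unique {f : UI ≃o UI} {g : ℝ ≃o ℝ} (h : ∀ t, ef f (bet t) = bet (g t)) :
    toR f = g := toRf_unique h

lemma toR_injective : Function.Injective toR := by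
  intro f g h
  ext x
  rw [← ef_coe, ← ef_coe]
  rcases eq_or_lt_of_le x.2.1 with h0 | h0
  · rw [← h0, ef_zero, ef_zero]
  · rcases eq_or_lt_of_le x.2.2 with h1 | h1
    · rw [h1, ef_one, ef_one]
    · obtain ⟨t, ht⟩ := bet_surj h0 h1
      rw [← ht, ← bet_toR, ← bet_toR, h]

/-- The automorphism of the unit interval defined by an automorphism of the line. -/
noncomputable def fI (g : ℝ ≃o ℝ) (x : UI) : UI :=
  if (x : ℝ) ≤ 0 then z0 else if 1 ≤ (x : ℝ) then z1 else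
    ⟨bet (g (psi x)), (bet_pos _).le, (bet_lt_one _).le⟩

lemma fI_zero (g : ℝ ≃o ℝ) {x : UI} (hx : (x : ℝ) ≤ 0) : fI g x = z0 := if_pos hx

lemma fI_one (g : ℝ ≃o ℝ) {x : UI} (hx : 1 ≤ (x : ℝ)) : fI g x = z1 := by
  unfold fI
  rw [if_neg (by linarith), if_pos hx]

lemma fI_mid (g : ℝ ≃o ℝ) {x : UI} (h0 : 0 < (x : ℝ)) (h1 : (x : ℝ) < 1) :
    (fI g x : ℝ) = bet (g (psi x)) := by
  unfold fI
  rw [if_neg (not_le.2 h0), if_neg (not_le.2 h1)]

lemma fI_bet (g : ℝ ≃o ℝ) (t : ℝ) (h : bet t ∈ Icc (0 : ℝ) 1) :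
    (fI g ⟨bet t, h⟩ : ℝ) = bet (g t) := by
  rw [fI_mid g (bet_pos t) (bet_lt_one t)]
  show bet (g (psi (bet t))) = _
  rw [psi_bet]

lemma fI_strictMono (g : ℝ ≃o ℝ) : StrictMono (fI g) := by
  intro s t hst
  have hst' : (s : ℝ) < t := hst
  show (fI g s : ℝ) < fI g t
  rcases le_or_gt (s : ℝ) 0 with h0 | h0
  · rw [fI_zero g h0]
    show (0 : ℝ) < _
    rcases le_or_gt 1 (t : ℝ) with h1 | h1
    · rw [fI_one g h1]
      exact one_pos
    · have h2 : 0 < (t : ℝ) := s.2.1.trans_lt hst'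
      rw [fI_mid g h2 h1]
      exact bet_pos _
  · have h3 : (s : ℝ) < 1 := hst'.trans_le t.2.2
    rw [fI_mid g h0 h3]
    rcases le_or_gt 1 (t : ℝ) with h1 | h1
    · rw [fI_one g h1]
      exact bet_lt_one _
    · rw [fI_mid g (h0.trans hst') h1]
      apply bet_strictMono
      apply g.strictMono
      rw [← bet_strictMono.lt_iff_lt, bet_psi h0 h3, bet_psi (h0.trans hst') h1]
      exact hst'

lemma fI_surjective (g : ℝ ≃o ℝ) : Function.Surjective (fI g) := by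
  intro y
  rcases eq_or_lt_of_le y.2.1 with h0 | h0
  · refine ⟨z0, ?_⟩
    rw [fI_zero g (x := z0) le_rfl]
    exact Subtype.ext h0
  · rcases eq_or_lt_of_le y.2.2 with h1 | h1
    · refine ⟨z1, ?_⟩
      rw [fI_one g (x := z1) le_rfl]
      exact Subtype.ext h1.symm
    · obtain ⟨t, ht⟩ := bet_surj h0 h1
      refine ⟨⟨bet (g⁻¹ t), bet_mem _⟩, ?_⟩
      apply Subtype.ext
      rw [fI_bet g (g⁻¹ t) (bet_mem _), apply_inv', ht]

/-- The automorphism of the unit interval defined by an automorphism of the line. -/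
noncomputable def ofR (g : ℝ ≃o ℝ) : UI ≃o UI :=
  StrictMono.orderIsoOfSurjective (fI g) (fI_strictMono g) (fI_surjective g)

lemma ofR_apply (g : ℝ ≃o ℝ) (x : UI) : ofR g x = fI g x := rfl

lemma ef_ofR (g : ℝ ≃o ℝ) (t : ℝ) : ef (ofR g) (bet t) = bet (g t) := by
  rw [ef_mem _ (bet_mem t), ofR_apply, fI_bet g t (bet_mem t)]

lemma toR_ofR (g : ℝ ≃o ℝ) : toR (ofR g) = g := toR_unique (ef_ofR g)

lemma ofR_toR (f : UI ≃o UI) : ofR (toR f) = f := toR_injective (toR_ofR _)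

end Ival

end Pool.Agent.Lib_helper30
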