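import Pool.Agent.Lib_helper30.IvalB

/-!
# Thompson's group on the unit interval, part three: germs
-/

set_option autoImplicit false

namespace Pool.Agent.Lib_helper30

open Filter Topology Set

namespace Ival

lemma tendsto_of_aff {f : ℝ → ℝ} {x : ℝ} {l : Filter ℝ} (h : Aff f l) (hl : l ≤ 𝓝 x)
    (hx : pure x ≤ l) : Tendsto f l (𝓝 (f x)) := by
  obtain ⟨m, b, -, h1⟩ := h
  have h2 : f x = 2 ^ m * x + b := (h1.filter_mono hx)
  rw [h2]
  have h3 : Tendsto (fun t : ℝ => (2 : ℝ) ^ m * t + b) l (𝓝 (2 ^ m * x + b)) := by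
    have h4 : Continuous (fun t : ℝ => (2 : ℝ) ^ m * t + b) := by fun_prop
    exact (h4.tendsto x).mono_left hl
  refine h3.congr' ?_
  filter_upwards [h1] with t ht
  exact ht.symm

lemma tendsto_left {f : ℝ → ℝ} (hm : Monotone f) {x : ℝ} (h : Aff f (𝓝[≤] x)) :
    Tendsto f (𝓝[≤] x) (𝓝[≤] (f x)) := by
  refine tendsto_nhdsWithin_iff.2 ⟨tendsto_of_aff h nhdsWithin_le_nhds
    (pure_le_nhdsWithin (mem_Iic.2 le_rfl)), ?_⟩
  filter_upwards [self_mem_nhdsWithin] with t ht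
  exact hm ht

lemma tendsto_right {f : ℝ → ℝ} (hm : Monotone f) {x : ℝ} (h : Aff f (𝓝[≥] x)) :
    Tendsto f (𝓝[≥] x) (𝓝[≥] (f x)) := by
  refine tendsto_nhdsWithin_iff.2 ⟨tendsto_of_aff h nhdsWithin_le_nhds
    (pure_le_nhdsWithin (mem_Ici.2 le_rfl)), ?_⟩
  filter_upwards [self_mem_nhdsWithin] with t ht
  exact hm ht

lemma bet_left (x : ℝ) : Tendsto bet (𝓝[≤] x) (𝓝[≤] (bet x)) :=
  tendsto_left bet_strictMono.monotone (bet_germs x).1

lemma bet_right (x : ℝ) : Tendsto bet (𝓝[≥] x) (𝓝[≥] (bet x)) :=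
  tendsto_right bet_strictMono.monotone (bet_germs x).2.1

lemma bet_both {x : ℝ} (hx : x ∉ Dy) : Tendsto bet (𝓝 x) (𝓝 (bet x)) :=
  tendsto_of_aff ((bet_germs x).2.2 hx) le_rfl (pure_le_nhds x)

lemma lt_psi {a z : ℝ} (h0 : 0 < z) (h1 : z < 1) : a < psi z ↔ bet a < z := by
  rw [← bet_strictMono.lt_iff_lt, bet_psi h0 h1]

lemma psi_lt {a z : ℝ} (h0 : 0 < z) (h1 : z < 1) : psi z < a ↔ z < bet a := by
  rw [← bet_strictMono.lt_iff_lt, bet_psi h0 h1]

lemma psi_le_psi {y z : ℝ} (h0 : 0 < z) (h1 : z < 1) (h2 : 0 < y) (h3 : y < 1) (h : z ≤ y) :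
    psi z ≤ psi y := by
  rw [← bet_strictMono.le_iff_le, bet_psi h0 h1, bet_psi h2 h3]
  exact h

lemma ev_mem {y : ℝ} (h0 : 0 < y) (h1 : y < 1) : ∀ᶠ z in 𝓝 y, 0 < z ∧ z < 1 :=
  Ioo_mem_nhds h0 h1

lemma psi_both {y : ℝ} (h0 : 0 < y) (h1 : y < 1) : Tendsto psi (𝓝 y) (𝓝 (psi y)) := by
  rw [tendsto_order]
  constructor
  · intro a ha
    rw [lt_psi h0 h1] at ha
    filter_upwards [ev_mem h0 h1, lt_mem_nhds ha] with z hz hz2
    exact (lt_psi hz.1 hz.2).2 hz2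
  · intro a ha
    rw [gt_iff_lt, psi_lt h0 h1] at ha
    filter_upwards [ev_mem h0 h1, gt_mem_nhds ha] with z hz hz2
    exact (psi_lt hz.1 hz.2).2 hz2

lemma psi_left {y : ℝ} (h0 : 0 < y) (h1 : y < 1) : Tendsto psi (𝓝[≤] y) (𝓝[≤] (psi y)) := by
  refine tendsto_nhdsWithin_iff.2 ⟨(psi_both h0 h1).mono_left nhdsWithin_le_nhds, ?_⟩
  filter_upwards [self_mem_nhdsWithin, nhdsWithin_le_nhds (ev_mem h0 h1)] with t ht ht2
  exact psi_le_psi ht2.1 ht2.2 h0 h1 ht

lemma psi_right {y : ℝ} (h0 : 0 < y) (h1 : y < 1) : Tendsto psi (𝓝[≥] y) (𝓝[≥] (psi y)) := by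
  refine tendsto_nhdsWithin_iff.2 ⟨(psi_both h0 h1).mono_left nhdsWithin_le_nhds, ?_⟩
  filter_upwards [self_mem_nhdsWithin, nhdsWithin_le_nhds (ev_mem h0 h1)] with t ht ht2
  exact psi_le_psi h0 h1 ht2.1 ht2.2 ht

lemma aff_psi {l l' : Filter ℝ} (hb : Aff bet l') (ht : Tendsto psi l l')
    (he : ∀ᶠ z in l, 0 < z ∧ z < 1) : Aff psi l := by
  obtain ⟨m, b, hb, h1⟩ := hb
  refine ⟨-m, -(2 ^ (-m) * b), Dy.neg_mem (Dy.mul_mem (Dy_zpow _) hb), ?_⟩
  filter_upwards [ht.eventually h1, he] with z h2 h3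
  rw [bet_psi h3.1 h3.2] at h2
  have h4 : (2 : ℝ) ^ m ≠ 0 := by positivity
  have h5 : (2 : ℝ) ^ (-m) * z = (2 : ℝ) ^ (-m) * (2 ^ m * psi z + b) := congrArg _ h2
  rw [h5, zpow_neg]
  field_simp
  ring

lemma aff_dy_iff {f : ℝ → ℝ} {x : ℝ} {m : ℤ} {b : ℝ} (hb : b ∈ Dy) (h : f x = 2 ^ m * x + b) :
    f x ∈ Dy ↔ x ∈ Dy := by
  rw [h]
  constructor
  · intro h1
    have h2 := Dy.mul_mem (Dy_zpow (-m)) (Dy.sub_mem h1 hb)
    have h3 : (2 : ℝ) ^ (-m) * (2 ^ m * x + b - b) = x := by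
      rw [zpow_neg]
      have : (2 : ℝ) ^ m ≠ 0 := by positivity
      field_simp
      ring
    rwa [h3] at h2
  · intro h1
    exact Dy.add_mem (Dy.mul_mem (Dy_zpow m) h1) hb

lemma bet_dy_iff (x : ℝ) : bet x ∈ Dy ↔ x ∈ Dy := by
  obtain ⟨m, b, hb, h⟩ := bet_affOn ⌊x⌋
  exact aff_dy_iff hb (h x ⟨Int.floor_le x, (Int.lt_floor_add_one x).le⟩)

lemma psi_dy_iff {y : ℝ} (h0 : 0 < y) (h1 : y < 1) : psi y ∈ Dy ↔ y ∈ Dy := by
  rw [← bet_dy_iff, bet_psi h0 h1]

lemma EX_bet (f : UI ≃o UI) (t : ℝ) : EX f (bet t) = bet (toR f t) := (bet_toR f t).symm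

/-- The conjugate has affine germs. -/
lemma toR_mem_HH {f : UI ≃o UI} (h : EX f ∈ HH) : toR f ∈ HH := by
  have e : (toR f : ℝ → ℝ) = psi ∘ (EX f ∘ bet) := rfl
  have hp : ∀ x, 0 < EX f (bet x) := fun x => ef_bet_pos f x
  have hq : ∀ x, EX f (bet x) < 1 := fun x => ef_bet_lt f x
  refine ⟨?_, ?_, ?_⟩
  · intro x
    rw [e]
    refine (aff_psi (l := 𝓝[≤] (EX f (bet x))) (bet_germs _).1 (psi_left (hp x) (hq x))
      (nhdsWithin_le_nhds (ev_mem (hp x) (hq x)))).comp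
      ((h.left (bet x)).comp (bet_germs x).1 (bet_left x)) ?_
    exact (tendsto_le (EX f) (bet x)).comp (bet_left x)
  · intro x
    rw [e]
    refine (aff_psi (l := 𝓝[≥] (EX f (bet x))) (bet_germs _).2.1 (psi_right (hp x) (hq x))
      (nhdsWithin_le_nhds (ev_mem (hp x) (hq x)))).comp
      ((h.right (bet x)).comp (bet_germs x).2.1 (bet_right x)) ?_
    exact (tendsto_ge (EX f) (bet x)).comp (bet_right x)
  · intro x hx
    have hx1 : bet x ∉ Dy := fun h1 => hx ((bet_dy_iff x).1 h1)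
    have hx2 : EX f (bet x) ∉ Dy := fun h1 => hx1 ((h.dy_iff _).1 h1)
    have hx3 : psi (EX f (bet x)) ∉ Dy := fun h1 => hx2 ((psi_dy_iff (hp x) (hq x)).1 h1)
    rw [e]
    refine (aff_psi (l := 𝓝 (EX f (bet x))) ((bet_germs _).2.2 hx3) (psi_both (hp x) (hq x))
      (ev_mem (hp x) (hq x))).comp
      ((h.both (bet x) hx1).comp ((bet_germs x).2.2 hx) (bet_both hx)) ?_
    exact (tendsto_both (EX f) (bet x)).comp (bet_both hx)

lemma ev_bet_lt {c : ℝ} (hc : 0 < c) : ∀ᶠ t in atBot, bet t < c := by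
  obtain ⟨t, ht⟩ := bet_surj (x := min c 1 / 2) (by positivity) (by
    have := min_le_right c 1
    linarith)
  filter_upwards [eventually_le_atBot t] with s hs
  have h1 := bet_strictMono.monotone hs
  have h2 := min_le_left c 1
  have h3 : 0 < min c 1 := by positivity
  linarith

lemma ev_lt_bet {c : ℝ} (hc : c < 1) : ∀ᶠ t in atTop, c < bet t := by
  obtain ⟨t, ht⟩ := bet_surj (x := 1 - min (1 - c) 1 / 2) (by
    have := min_le_right (1 - c) 1
    linarith) (by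
    have : 0 < min (1 - c) 1 := lt_min (by linarith) one_pos
    linarith)
  filter_upwards [eventually_ge_atTop t] with s hs
  have h1 := bet_strictMono.monotone hs
  have h2 := min_le_left (1 - c) 1
  have h3 : 0 < min (1 - c) 1 := lt_min (by linarith) one_pos
  linarith

lemma bet_add_int {t : ℝ} {m : ℤ} (h0 : t ≤ 0) (h1 : t + m ≤ 0) : bet (t + m) = 2 ^ m * bet t := by
  rw [bet_le h0, bet_le h1, ← eta_add]
  congr 1
  ring

lemma bet_sub_int {t : ℝ} {m : ℤ} (h0 : 0 ≤ t) (h1 : 0 ≤ t - m) :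
    bet (t - m) = 1 - 2 ^ m * (1 - bet t) := by
  rw [bet_ge h0, bet_ge h1, sub_sub_cancel, ← eta_add]
  congr 2
  ring

lemma toR_mem_GG {f : UI ≃o UI} (h : EX f ∈ HH) : toR f ∈ GG := by
  refine ⟨toR_mem_HH h, ?_, ?_⟩
  · obtain ⟨m, b, -, h1⟩ := h.right 0
    have h2 := h1.self_of_nhdsWithin (mem_Ici.2 le_rfl)
    rw [EX_apply, ef_zero, mul_zero, zero_add] at h2
    obtain ⟨c, hc, h3⟩ := mem_nhdsGE_iff_exists_Ico_subset.1 h1
    refine ⟨m, ?_⟩
    filter_upwards [ev_bet_lt (mem_Ioi.1 hc), eventually_le_atBot 0,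
      eventually_le_atBot (-(m : ℝ))] with t h4 h5 h6
    apply bet_strictMono.injective
    have h7 : EX f (bet t) = 2 ^ m * bet t + b := h3 ⟨(bet_pos t).le, h4⟩
    rw [← EX_bet, h7, ← h2, add_zero, bet_add_int h5 (by linarith)]
  · obtain ⟨m, b, -, h1⟩ := h.left 1
    have h2 := h1.self_of_nhdsWithin (mem_Iic.2 le_rfl)
    rw [EX_apply, ef_one, mul_one] at h2
    obtain ⟨c, hc, h3⟩ := mem_nhdsLE_iff_exists_Ioc_subset.1 h1
    refine ⟨-m, ?_⟩
    filter_upwards [ev_lt_bet (mem_Iio.1 hc), eventually_ge_atTop 0,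
      eventually_ge_atTop (m : ℝ)] with t h4 h5 h6
    apply bet_strictMono.injective
    have h7 : EX f (bet t) = 2 ^ m * bet t + b := h3 ⟨h4, (bet_lt_one t).le⟩
    have h8 : t + ((-m : ℤ) : ℝ) = t - m := by push_cast; ring
    rw [← EX_bet, h7, h8, bet_sub_int h5 (by linarith)]
    linarith

/-- Affine germs of the extension. -/
lemma EX_mem_HH {f : UI ≃o UI} (h : toR f ∈ GG) : EX f ∈ HH := by
  obtain ⟨h, ⟨p, hp⟩, ⟨q, hq⟩⟩ := h
  have e : ∀ z : ℝ, 0 < z ∧ z < 1 → EX f z = (bet ∘ (toR f ∘ psi)) z := by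
    intro z hz
    show _ = bet (toR f (psi z))
    rw [← EX_bet, bet_psi hz.1 hz.2]
  have hlo : Aff (EX f) (𝓝[≥] 0) := by
    obtain ⟨a, ha⟩ := eventually_atBot.1 hp
    refine ⟨p, 0, Dy.zero_mem, ?_⟩
    have h1 : Ico (0 : ℝ) (bet (min a (min 0 (-(p : ℝ))))) ∈ 𝓝[≥] (0 : ℝ) :=
      Ico_mem_nhdsGE (bet_pos _)
    filter_upwards [h1] with z hz
    rcases eq_or_lt_of_le hz.1 with h2 | h2
    · rw [← h2, EX_apply, ef_zero, mul_zero, add_zero]
    · have h3 : z < 1 := hz.2.trans (bet_lt_one _)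
      have h4 : psi z < min a (min 0 (-(p : ℝ))) := (psi_lt h2 h3).2 hz.2
      have h5 := min_le_left a (min 0 (-(p : ℝ)))
      have h6 := (min_le_right a (min 0 (-(p : ℝ)))).trans (min_le_left _ _)
      have h7 := (min_le_right a (min 0 (-(p : ℝ)))).trans (min_le_right _ _)
      have h8 : toR f (psi z) = psi z + p := ha _ (by linarith)
      rw [e z ⟨h2, h3⟩]
      show bet (toR f (psi z)) = _
      rw [h8, bet_add_int (by linarith) (by linarith), bet_psi h2 h3, add_zero]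
  have hhi : Aff (EX f) (𝓝[≤] 1) := by
    obtain ⟨a, ha⟩ := eventually_atTop.1 hq
    refine ⟨-q, 1 - 2 ^ (-q), Dy.sub_mem Dy.one_mem (Dy_zpow _), ?_⟩
    have h1 : Ioc (bet (max a (max 0 (-(q : ℝ))))) (1 : ℝ) ∈ 𝓝[≤] (1 : ℝ) :=
      Ioc_mem_nhdsLE (bet_lt_one _)
    filter_upwards [h1] with z hz
    rcases eq_or_lt_of_le hz.2 with h2 | h2
    · rw [h2, EX_apply, ef_one]
      ring
    · have h3 : 0 < z := (bet_pos _).trans hz.1
      have h4 : max a (max 0 (-(q : ℝ))) < psi z := (lt_psi h3 h2).2 hz.1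
      have h5 := le_max_left a (max 0 (-(q : ℝ)))
      have h6 := (le_max_left _ _).trans (le_max_right a (max 0 (-(q : ℝ))))
      have h7 := (le_max_right _ _).trans (le_max_right a (max 0 (-(q : ℝ))))
      have h8 : toR f (psi z) = psi z - ((-q : ℤ) : ℝ) := by
        rw [ha _ (by linarith)]
        push_cast
        ring
      rw [e z ⟨h3, h2⟩]
      show bet (toR f (psi z)) = _
      rw [h8, bet_sub_int (by linarith) (by push_cast; linarith), bet_psi h3 h2]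
      ring
  have hid : ∀ {l : Filter ℝ}, (∀ᶠ z in l, z ≤ 0 ∨ 1 ≤ z) → Aff (EX f) l := by
    intro l hl
    refine ⟨0, 0, Dy.zero_mem, ?_⟩
    filter_upwards [hl] with z hz
    rw [EX_apply, zpow_zero, one_mul, add_zero]
    rcases hz with hz | hz
    · exact ef_le f hz
    · exact ef_ge f hz
  have hin : ∀ y : ℝ, 0 < y → y < 1 → Aff (EX f) (𝓝[≤] y) ∧ Aff (EX f) (𝓝[≥] y) ∧
      (y ∉ Dy → Aff (EX f) (𝓝 y)) := by
    intro y h0 h1
    refine ⟨?_, ?_, ?_⟩
    · refine Aff.congr (f := bet ∘ (toR f ∘ psi)) ?_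
        (Filter.Eventually.mono (nhdsWithin_le_nhds (ev_mem h0 h1)) e)
      refine (bet_germs (toR f (psi y))).1.comp ((h.left (psi y)).comp (aff_psi (bet_germs _).1
        (psi_left h0 h1) (nhdsWithin_le_nhds (ev_mem h0 h1))) (psi_left h0 h1)) ?_
      exact (tendsto_le (toR f) (psi y)).comp (psi_left h0 h1)
    · refine Aff.congr (f := bet ∘ (toR f ∘ psi)) ?_
        (Filter.Eventually.mono (nhdsWithin_le_nhds (ev_mem h0 h1)) e)
      refine (bet_germs (toR f (psi y))).2.1.comp ((h.right (psi y)).comp (aff_psi (bet_germs _).2.1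
        (psi_right h0 h1) (nhdsWithin_le_nhds (ev_mem h0 h1))) (psi_right h0 h1)) ?_
      exact (tendsto_ge (toR f) (psi y)).comp (psi_right h0 h1)
    · intro hy
      have hy1 : psi y ∉ Dy := fun h2 => hy ((psi_dy_iff h0 h1).1 h2)
      have hy2 : toR f (psi y) ∉ Dy := fun h2 => hy1 ((h.dy_iff _).1 h2)
      refine Aff.congr (f := bet ∘ (toR f ∘ psi)) ?_ ((ev_mem h0 h1).mono e)
      refine ((bet_germs (toR f (psi y))).2.2 hy2).comp ((h.both (psi y) hy1).comp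
        (aff_psi ((bet_germs _).2.2 hy1) (psi_both h0 h1) (ev_mem h0 h1)) (psi_both h0 h1)) ?_
      exact (tendsto_both (toR f) (psi y)).comp (psi_both h0 h1)
  refine ⟨?_, ?_, ?_⟩
  · intro y
    rcases le_or_gt y 0 with h0 | h0
    · apply hid
      filter_upwards [self_mem_nhdsWithin] with z hz
      exact Or.inl ((mem_Iic.1 hz).trans h0)
    · rcases lt_trichotomy y 1 with h1 | h1 | h1
      · exact (hin y h0 h1).1
      · rw [h1]
        exact hhi
      · apply hid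
        filter_upwards [nhdsWithin_le_nhds (lt_mem_nhds h1)] with z hz
        exact Or.inr hz.le
  · intro y
    rcases le_or_gt 1 y with h1 | h1
    · apply hid
      filter_upwards [self_mem_nhdsWithin] with z hz
      exact Or.inr (h1.trans (mem_Ici.1 hz))
    · rcases lt_trichotomy 0 y with h0 | h0 | h0
      · exact (hin y h0 h1).2.1
      · rw [← h0]
        exact hlo
      · apply hid
        filter_upwards [nhdsWithin_le_nhds (gt_mem_nhds h0)] with z hz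
        exact Or.inl hz.le
  · intro y hy
    rcases lt_trichotomy 0 y with h0 | h0 | h0
    · rcases lt_trichotomy y 1 with h1 | h1 | h1
      · exact (hin y h0 h1).2.2 hy
      · exact absurd (by rw [h1]; exact Dy.one_mem) hy
      · apply hid
        filter_upwards [lt_mem_nhds h1] with z hz
        exact Or.inr hz.le
    · exact absurd (by rw [← h0]; exact Dy.zero_mem) hy
    · apply hid
      filter_upwards [gt_mem_nhds h0] with z hz
      exact Or.inl hz.le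

lemma toR_mem_iff (f : UI ≃o UI) : toR f ∈ GG ↔ EX f ∈ HH := ⟨EX_mem_HH, toR_mem_GG⟩

end Ival

end Pool.Agent.Lib_helper30
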