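import Pool.Agent.Lib_helper30.IvalC
import Pool.Agent.Lib_helper30.Final

/-!
# Thompson's group on the unit interval, part four: finitely many dyadic breakpoints
-/

set_option autoImplicit false

namespace Pool.Agent.Lib_helper30

open Filter Topology Set

namespace Ival

/-- The automorphism `f` of `[0,1]` is piecewise linear with finitely many breakpoints, all
dyadic, and its slopes are powers of two. -/
def PLD (f : UI ≃o UI) : Prop :=
  ∃ B : Finset ℝ, (∀ b ∈ B, ∃ (a : ℤ) (n : ℕ), b = a / 2 ^ n) ∧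
    ∀ s t : UI, s < t → (∀ b ∈ B, b ≤ s ∨ (t : ℝ) ≤ b) →
      ∃ m : ℤ, ∀ x : UI, s ≤ x → x ≤ t → (f x : ℝ) = f s + 2 ^ m * (x - s)

lemma dy_of_frac {b : ℝ} (h : ∃ (a : ℤ) (n : ℕ), b = a / 2 ^ n) : b ∈ Dy := by
  obtain ⟨a, n, rfl⟩ := h
  refine ⟨n, a, ?_⟩
  have : (2 : ℝ) ^ n ≠ 0 := by positivity
  field_simp

lemma pieces {f : UI ≃o UI} (h : PLD f) : ∃ B : Finset ℝ, (∀ b ∈ B, b ∈ Dy ∧ 0 ≤ b ∧ b ≤ 1) ∧
    (0 : ℝ) ∈ B ∧ (1 : ℝ) ∈ B ∧ ∀ s t : ℝ, 0 ≤ s → t ≤ 1 → s < t → (∀ b ∈ B, b ≤ s ∨ t ≤ b) →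
      ∃ m : ℤ, ∀ x, s ≤ x → x ≤ t → ef f x = ef f s + 2 ^ m * (x - s) := by
  classical
  obtain ⟨B, hB, h⟩ := h
  refine ⟨insert 0 (insert 1 (B.filter fun b => 0 ≤ b ∧ b ≤ 1)), ?_, by simp, by simp, ?_⟩
  · intro b hb
    rcases Finset.mem_insert.1 hb with rfl | hb
    · exact ⟨Dy.zero_mem, le_rfl, zero_le_one⟩
    · rcases Finset.mem_insert.1 hb with rfl | hb
      · exact ⟨Dy.one_mem, zero_le_one, le_rfl⟩
      · have h1 := Finset.mem_filter.1 hb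
        exact ⟨dy_of_frac (hB b h1.1), h1.2⟩
  · intro s t hs ht hst hb
    have hs1 : s ∈ Icc (0 : ℝ) 1 := ⟨hs, hst.le.trans ht⟩
    have ht1 : t ∈ Icc (0 : ℝ) 1 := ⟨hs.trans hst.le, ht⟩
    obtain ⟨m, hm⟩ := h ⟨s, hs1⟩ ⟨t, ht1⟩ hst (by
      intro b hbB
      rcases lt_or_ge b 0 with h1 | h1
      · exact Or.inl (h1.le.trans hs)
      · rcases lt_or_ge 1 b with h2 | h2
        · exact Or.inr (ht.trans h2.le)
        · exact hb b (Finset.mem_insert_of_mem (Finset.mem_insert_of_mem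
            (Finset.mem_filter.2 ⟨hbB, h1, h2⟩))))
    refine ⟨m, fun x h1 h2 => ?_⟩
    have hx : x ∈ Icc (0 : ℝ) 1 := ⟨hs.trans h1, h2.trans ht⟩
    rw [ef_mem f hx, ef_mem f hs1]
    exact hm ⟨x, hx⟩ h1 h2

lemma exL (B : Finset ℝ) {x : ℝ} (h1 : ∃ b ∈ B, b < x) (h2 : ∃ b ∈ B, x ≤ b) :
    ∃ a ∈ B, ∃ c ∈ B, a < x ∧ x ≤ c ∧ ∀ b ∈ B, b ≤ a ∨ c ≤ b := by
  classical
  obtain ⟨b1, hb1, h1⟩ := h1
  obtain ⟨b2, hb2, h2⟩ := h2
  obtain ⟨a, ha, ha2⟩ := Finset.exists_max_image (B.filter fun b => b < x) id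
    ⟨b1, Finset.mem_filter.2 ⟨hb1, h1⟩⟩
  obtain ⟨c, hc, hc2⟩ := Finset.exists_min_image (B.filter fun b => x ≤ b) id
    ⟨b2, Finset.mem_filter.2 ⟨hb2, h2⟩⟩
  have ha' := Finset.mem_filter.1 ha
  have hc' := Finset.mem_filter.1 hc
  refine ⟨a, ha'.1, c, hc'.1, ha'.2, hc'.2, fun b hb => ?_⟩
  rcases lt_or_ge b x with h | h
  · exact Or.inl (ha2 b (Finset.mem_filter.2 ⟨hb, h⟩))
  · exact Or.inr (hc2 b (Finset.mem_filter.2 ⟨hb, h⟩))

lemma exR (B : Finset ℝ) {x : ℝ} (h1 : ∃ b ∈ B, b ≤ x) (h2 : ∃ b ∈ B, x < b) :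
    ∃ a ∈ B, ∃ c ∈ B, a ≤ x ∧ x < c ∧ ∀ b ∈ B, b ≤ a ∨ c ≤ b := by
  classical
  obtain ⟨b1, hb1, h1⟩ := h1
  obtain ⟨b2, hb2, h2⟩ := h2
  obtain ⟨a, ha, ha2⟩ := Finset.exists_max_image (B.filter fun b => b ≤ x) id
    ⟨b1, Finset.mem_filter.2 ⟨hb1, h1⟩⟩
  obtain ⟨c, hc, hc2⟩ := Finset.exists_min_image (B.filter fun b => x < b) id
    ⟨b2, Finset.mem_filter.2 ⟨hb2, h2⟩⟩
  have ha' := Finset.mem_filter.1 ha
  have hc' := Finset.mem_filter.1 hc
  refine ⟨a, ha'.1, c, hc'.1, ha'.2, hc'.2, fun b hb => ?_⟩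
  rcases le_or_gt b x with h | h
  · exact Or.inl (ha2 b (Finset.mem_filter.2 ⟨hb, h⟩))
  · exact Or.inr (hc2 b (Finset.mem_filter.2 ⟨hb, h⟩))

/-- The pieces of a map with dyadic breakpoints. -/
lemma affPieces {f : UI ≃o UI} (h : PLD f) :
    (∀ x : ℝ, 0 < x → x ≤ 1 → ∃ a c : ℝ, a ∈ Dy ∧ c ∈ Dy ∧ a < x ∧ x ≤ c ∧
      AffOn (ef f) (Icc a c)) ∧
    (∀ x : ℝ, 0 ≤ x → x < 1 → ∃ a c : ℝ, a ∈ Dy ∧ c ∈ Dy ∧ a ≤ x ∧ x < c ∧
      AffOn (ef f) (Icc a c)) := by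
  classical
  obtain ⟨B, hB, h0, h1, h⟩ := pieces h
  have hdy : ∀ b ∈ B, ef f b ∈ Dy := by
    by_contra hcon
    push Not at hcon
    obtain ⟨b0, hb0, hb1⟩ := hcon
    obtain ⟨b, hb, hb2⟩ := Finset.exists_min_image (B.filter fun b => ef f b ∉ Dy) id
      ⟨b0, Finset.mem_filter.2 ⟨hb0, hb1⟩⟩
    obtain ⟨hb, hb3⟩ := Finset.mem_filter.1 hb
    have hpos : 0 < b := by
      refine lt_of_le_of_ne (hB b hb).2.1 fun h2 => hb3 ?_
      rw [← h2, ef_zero]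
      exact Dy.zero_mem
    obtain ⟨a, ha, c, hc, hab, hbc, hac⟩ := exL B ⟨0, h0, hpos⟩ ⟨b, hb, le_rfl⟩
    have hfa : ef f a ∈ Dy := by
      by_contra h2
      have h3 : b ≤ a := hb2 a (Finset.mem_filter.2 ⟨ha, h2⟩)
      linarith
    obtain ⟨m, hm⟩ := h a b (hB a ha).2.1 (hB b hb).2.2 hab (fun b' hb' => by
      rcases hac b' hb' with h2 | h2
      · exact Or.inl h2
      · exact Or.inr (hbc.trans h2))
    apply hb3
    rw [hm b hab.le le_rfl]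
    exact Dy.add_mem hfa (Dy.mul_mem (Dy_zpow _) (Dy.sub_mem (hB b hb).1 (hB a ha).1))
  have haff : ∀ a ∈ B, ∀ c ∈ B, a < c → (∀ b ∈ B, b ≤ a ∨ c ≤ b) →
      AffOn (ef f) (Icc a c) := by
    intro a ha c hc hac hb
    obtain ⟨m, hm⟩ := h a c (hB a ha).2.1 (hB c hc).2.2 hac hb
    refine ⟨m, ef f a - 2 ^ m * a, Dy.sub_mem (hdy a ha)
      (Dy.mul_mem (Dy_zpow _) (hB a ha).1), fun t ht => ?_⟩
    rw [hm t ht.1 ht.2]
    ring
  constructor
  · intro x hx hx1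
    obtain ⟨a, ha, c, hc, hax, hxc, hb⟩ := exL B ⟨0, h0, hx⟩ ⟨1, h1, hx1⟩
    exact ⟨a, c, (hB a ha).1, (hB c hc).1, hax, hxc, haff a ha c hc (hax.trans_le hxc) hb⟩
  · intro x hx hx1
    obtain ⟨a, ha, c, hc, hax, hxc, hb⟩ := exR B ⟨0, h0, hx⟩ ⟨1, h1, hx1⟩
    exact ⟨a, c, (hB a ha).1, (hB c hc).1, hax, hxc, haff a ha c hc (hax.trans_lt hxc) hb⟩

lemma EX_of_PLD {f : UI ≃o UI} (h : PLD f) : EX f ∈ HH := by
  obtain ⟨hL, hR⟩ := affPieces h
  have hid : ∀ {l : Filter ℝ}, (∀ᶠ z in l, z ≤ 0 ∨ 1 ≤ z) → Aff (EX f) l := by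
    intro l hl
    refine ⟨0, 0, Dy.zero_mem, ?_⟩
    filter_upwards [hl] with z hz
    rw [EX_apply, zpow_zero, one_mul, add_zero]
    rcases hz with hz | hz
    · exact ef_le f hz
    · exact ef_ge f hz
  refine ⟨?_, ?_, ?_⟩
  · intro y
    rcases le_or_gt y 0 with h0 | h0
    · apply hid
      filter_upwards [self_mem_nhdsWithin] with z hz
      exact Or.inl ((mem_Iic.1 hz).trans h0)
    · rcases le_or_gt y 1 with h1 | h1
      · obtain ⟨a, c, -, -, hay, hyc, m, b, hb, hm⟩ := hL y h0 h1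
        refine ⟨m, b, hb, ?_⟩
        filter_upwards [Ioc_mem_nhdsLE hay] with z hz
        exact hm z ⟨hz.1.le, hz.2.trans hyc⟩
      · apply hid
        filter_upwards [nhdsWithin_le_nhds (lt_mem_nhds h1)] with z hz
        exact Or.inr hz.le
  · intro y
    rcases le_or_gt 1 y with h1 | h1
    · apply hid
      filter_upwards [self_mem_nhdsWithin] with z hz
      exact Or.inr (h1.trans (mem_Ici.1 hz))
    · rcases le_or_gt 0 y with h0 | h0
      · obtain ⟨a, c, -, -, hay, hyc, m, b, hb, hm⟩ := hR y h0 h1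
        refine ⟨m, b, hb, ?_⟩
        filter_upwards [Ico_mem_nhdsGE hyc] with z hz
        exact hm z ⟨hay.trans hz.1, hz.2.le⟩
      · apply hid
        filter_upwards [nhdsWithin_le_nhds (gt_mem_nhds h0)] with z hz
        exact Or.inl hz.le
  · intro y hy
    rcases lt_trichotomy 0 y with h0 | h0 | h0
    · rcases lt_trichotomy y 1 with h1 | h1 | h1
      · obtain ⟨a, c, ha, -, hay, hyc, m, b, hb, hm⟩ := hR y h0.le h1
        have hay' : a < y := lt_of_le_of_ne hay fun h2 => hy (by rw [← h2]; exact ha)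
        refine ⟨m, b, hb, ?_⟩
        filter_upwards [Ioo_mem_nhds hay' hyc] with z hz
        exact hm z ⟨hz.1.le, hz.2.le⟩
      · exact absurd (by rw [h1]; exact Dy.one_mem) hy
      · apply hid
        filter_upwards [lt_mem_nhds h1] with z hz
        exact Or.inr hz.le
    · exact absurd (by rw [← h0]; exact Dy.zero_mem) hy
    · apply hid
      filter_upwards [gt_mem_nhds h0] with z hz
      exact Or.inl hz.le

lemma PLD_of_EX {f : UI ≃o UI} (h : EX f ∈ HH) : PLD f := by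
  classical
  have hG : EX f ∈ GG := by
    refine ⟨h, ⟨0, ?_⟩, ⟨0, ?_⟩⟩
    · filter_upwards [eventually_le_atBot 0] with t ht
      rw [EX_apply, ef_le f ht]
      simp
    · filter_upwards [eventually_ge_atTop 1] with t ht
      rw [EX_apply, ef_ge f ht]
      simp
  obtain ⟨K, hK⟩ := exists_level hG
  have h2K : (0 : ℝ) < 2 ^ K := by positivity
  refine ⟨(Finset.range (2 ^ K + 1)).image fun i : ℕ => (i : ℝ) / 2 ^ K, ?_, ?_⟩
  · intro b hb
    obtain ⟨i, -, rfl⟩ := Finset.mem_image.1 hb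
    exact ⟨i, K, by push_cast; rfl⟩
  · intro s t hst hb
    have hst' : (s : ℝ) < t := hst
    have hs0 : (0 : ℝ) ≤ s := s.2.1
    have ht1 : (t : ℝ) ≤ 1 := t.2.2
    have hs0' : 0 ≤ (s : ℝ) * 2 ^ K := by positivity
    set i : ℕ := ⌊(s : ℝ) * 2 ^ K⌋₊ with hi
    have hi1 : (i : ℝ) ≤ s * 2 ^ K := Nat.floor_le hs0'
    have hi2 : (s : ℝ) * 2 ^ K < i + 1 := Nat.lt_floor_add_one _
    have hlt : (s : ℝ) * 2 ^ K < 2 ^ K := by
      have : (s : ℝ) < 1 := hst'.trans_le ht1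
      nlinarith
    have hi3 : i < 2 ^ K := by
      have : (i : ℝ) < 2 ^ K := hi1.trans_lt hlt
      exact_mod_cast this
    have hmem : (((i + 1 : ℕ) : ℝ)) / 2 ^ K ∈
        (Finset.range (2 ^ K + 1)).image fun i : ℕ => (i : ℝ) / 2 ^ K :=
      Finset.mem_image.2 ⟨i + 1, Finset.mem_range.2 (by omega), rfl⟩
    have ht2 : (t : ℝ) ≤ ((i : ℝ) + 1) / 2 ^ K := by
      rcases hb _ hmem with h1 | h1
      · exfalso
        rw [div_le_iff₀ h2K] at h1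
        push_cast at h1
        linarith
      · push_cast at h1
        exact h1
    have hs2 : (i : ℝ) / 2 ^ K ≤ s := by rwa [div_le_iff₀ h2K]
    obtain ⟨m, b, -, hm⟩ := hK (i : ℤ)
    push_cast at hm
    refine ⟨m, fun x hx1 hx2 => ?_⟩
    have hx1' : (s : ℝ) ≤ x := hx1
    have hx2' : (x : ℝ) ≤ t := hx2
    have e1 := hm x ⟨hs2.trans hx1', hx2'.trans ht2⟩
    have e2 := hm s ⟨hs2, hst'.le.trans ht2⟩
    rw [EX_apply, ef_coe] at e1 e2
    rw [e1, e2]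
    ring

/-- The elements of the model on the interval. -/
lemma PLD_iff (f : UI ≃o UI) : PLD f ↔ toR f ∈ GG :=
  ⟨fun h => toR_mem_GG (EX_of_PLD h), fun h => PLD_of_EX (EX_mem_HH h)⟩

/-! ### The generators -/

lemma bet_mid {u : ℝ} (h0 : -1 ≤ u) (h1 : u ≤ 1) : bet u = 1 / 2 + u / 4 := by
  rcases le_total u 0 with h | h
  · rw [bet_le h, eta_eq (-2) (by push_cast; linarith) (by push_cast; linarith)]
    norm_num
    ring
  · rw [bet_ge h, eta_eq (-2) (by push_cast; linarith) (by push_cast; linarith)]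
    norm_num
    ring

lemma bet_12 {u : ℝ} (h0 : 1 ≤ u) (h1 : u ≤ 2) : bet u = 5 / 8 + u / 8 := by
  rw [bet_ge (by linarith), eta_eq (-3) (by push_cast; linarith) (by push_cast; linarith)]
  norm_num
  ring

lemma bet_zero : bet 0 = 1 / 2 := by
  rw [bet_mid (by norm_num) (by norm_num)]
  norm_num

lemma bet_one : bet 1 = 3 / 4 := by
  rw [bet_mid (by norm_num) (by norm_num)]
  norm_num

lemma bet_two : bet 2 = 7 / 8 := by
  rw [bet_12 (by norm_num) (by norm_num)]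
  norm_num

/-- The generator `x_0`. -/
noncomputable def x0 : UI ≃o UI := ofR X0
/-- The generator `x_1`. -/
noncomputable def x1 : UI ≃o UI := ofR X1

lemma x0_bet (u : ℝ) : ef x0 (bet u) = bet (u - 1) := by
  unfold x0
  rw [ef_ofR]
  congr 1

lemma x1_bet (u : ℝ) : ef x1 (bet u) = bet (X1 u) := by
  unfold x1
  rw [ef_ofR]

lemma x0_lo (t : UI) (ht : (t : ℝ) ≤ 1 / 2) : (x0 t : ℝ) = t / 2 := by
  rw [← ef_coe]
  rcases eq_or_lt_of_le t.2.1 with h0 | h0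
  · rw [← h0, ef_zero]
    norm_num
  · obtain ⟨u, hu⟩ := bet_surj h0 (by linarith)
    have hu0 : u ≤ 0 := by rw [← bet_strictMono.le_iff_le, hu, bet_zero]; exact ht
    rw [← hu, x0_bet]
    have h1 := bet_add_int (t := u) (m := -1) hu0 (by push_cast; linarith)
    have h2 : u + ((-1 : ℤ) : ℝ) = u - 1 := by push_cast; ring
    rw [h2] at h1
    rw [h1]
    norm_num
    ring

lemma x0_mid (t : UI) (h1 : 1 / 2 ≤ (t : ℝ)) (h2 : (t : ℝ) ≤ 3 / 4) :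
    (x0 t : ℝ) = t - 1 / 4 := by
  rw [← ef_coe]
  obtain ⟨u, hu⟩ := bet_surj (x := (t : ℝ)) (by linarith) (by linarith)
  have hu0 : 0 ≤ u := by rw [← bet_strictMono.le_iff_le, hu, bet_zero]; exact h1
  have hu1 : u ≤ 1 := by rw [← bet_strictMono.le_iff_le, hu, bet_one]; exact h2
  rw [← hu, x0_bet, bet_mid (by linarith) hu1, bet_mid (by linarith) (by linarith)]
  ring

lemma hi_aux {f : UI ≃o UI} {c : ℝ}
    (hf : ∀ u, c ≤ u → ef f (bet u) = bet (u - 1)) (hc : 1 ≤ c) (t : UI)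
    (h1 : bet c ≤ (t : ℝ)) : (f t : ℝ) = 2 * t - 1 := by
  rw [← ef_coe]
  rcases eq_or_lt_of_le t.2.2 with h2 | h2
  · rw [h2, ef_one]
    norm_num
  · obtain ⟨u, hu⟩ := bet_surj (x := (t : ℝ)) ((bet_pos c).trans_le h1) h2
    have hu1 : c ≤ u := by rw [← bet_strictMono.le_iff_le, hu]; exact h1
    rw [← hu, hf u hu1]
    have h3 := bet_sub_int (t := u) (m := 1) (by linarith) (by push_cast; linarith)
    have h4 : u - ((1 : ℤ) : ℝ) = u - 1 := by push_cast; ring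
    rw [h4] at h3
    rw [h3]
    norm_num
    ring

lemma x0_hi (t : UI) (h1 : 3 / 4 ≤ (t : ℝ)) : (x0 t : ℝ) = 2 * t - 1 :=
  hi_aux (c := 1) (fun u _ => x0_bet u) le_rfl t (by rw [bet_one]; exact h1)

lemma x1_lo (t : UI) (ht : (t : ℝ) ≤ 1 / 2) : (x1 t : ℝ) = t := by
  rw [← ef_coe]
  rcases eq_or_lt_of_le t.2.1 with h0 | h0
  · rw [← h0, ef_zero]
  · obtain ⟨u, hu⟩ := bet_surj h0 (by linarith)
    have hu0 : u ≤ 0 := by rw [← bet_strictMono.le_iff_le, hu, bet_zero]; exact ht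
    rw [← hu, x1_bet, X1_le hu0]

lemma x1_mid (t : UI) (h1 : 1 / 2 ≤ (t : ℝ)) (h2 : (t : ℝ) ≤ 3 / 4) :
    (x1 t : ℝ) = t / 2 + 1 / 4 := by
  rw [← ef_coe]
  obtain ⟨u, hu⟩ := bet_surj (x := (t : ℝ)) (by linarith) (by linarith)
  have hu0 : 0 ≤ u := by rw [← bet_strictMono.le_iff_le, hu, bet_zero]; exact h1
  have hu1 : u ≤ 1 := by rw [← bet_strictMono.le_iff_le, hu, bet_one]; exact h2
  rw [← hu, x1_bet, X1_mid hu0 (by linarith), bet_mid (by linarith) hu1,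
    bet_mid (by linarith) (by linarith)]
  ring

lemma x1_mid2 (t : UI) (h1 : 3 / 4 ≤ (t : ℝ)) (h2 : (t : ℝ) ≤ 7 / 8) :
    (x1 t : ℝ) = t - 1 / 8 := by
  rw [← ef_coe]
  obtain ⟨u, hu⟩ := bet_surj (x := (t : ℝ)) (by linarith) (by linarith)
  have hu0 : 1 ≤ u := by rw [← bet_strictMono.le_iff_le, hu, bet_one]; exact h1
  have hu1 : u ≤ 2 := by rw [← bet_strictMono.le_iff_le, hu, bet_two]; exact h2
  rw [← hu, x1_bet, X1_mid (by linarith) hu1, bet_12 hu0 hu1,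
    bet_mid (by linarith) (by linarith)]
  ring

lemma x1_hi (t : UI) (h1 : 7 / 8 ≤ (t : ℝ)) : (x1 t : ℝ) = 2 * t - 1 :=
  hi_aux (c := 2) (fun u hu => by rw [x1_bet, X1_ge hu]) (by norm_num) t
    (by rw [bet_two]; exact h1)

lemma toR_x0 : toR x0 = X0 := toR_ofR _
lemma toR_x1 : toR x1 = X1 := toR_ofR _

/-- The two elements generate. -/
lemma PLD_iff_closure (f : UI ≃o UI) : PLD f ↔ f ∈ Subgroup.closure {x0, x1} := by
  rw [PLD_iff, GG_eq_closure]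
  have h : Subgroup.closure {X0, X1} = (Subgroup.closure {x0, x1}).map toR := by
    rw [MonoidHom.map_closure, Set.image_pair, toR_x0, toR_x1]
  rw [h]
  constructor
  · rintro ⟨g, hg, hgf⟩
    rw [← toR_injective hgf]
    exact hg
  · intro hf
    exact ⟨f, hf, rfl⟩

/-- The constants of the equations. -/
noncomputable def gens (c : Bool) : UI ≃o UI := if c then x1 else x0

lemma toR_gens : toR ∘ gens = genImg := by
  funext c
  cases c
  · exact toR_x0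
  · exact toR_x1

/-- Solvability in the model on the interval. -/
lemma solv_iff (w : EW) : Solv w ↔ ∃ σ : ℕ → (UI ≃o UI), (∀ n, PLD (σ n)) ∧ ev gens σ w = 1 := by
  constructor
  · rintro ⟨σ, hσ, h⟩
    refine ⟨fun n => ofR (σ n), fun n => ?_, ?_⟩
    · rw [PLD_iff, toR_ofR]
      exact hσ n
    · apply toR_injective
      rw [map_ev, map_one, toR_gens]
      have h1 : (toR : (UI ≃o UI) → (ℝ ≃o ℝ)) ∘ (fun n => ofR (σ n)) = σ := by
        funext n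
        exact toR_ofR _
      rw [h1]
      exact h
  · rintro ⟨σ, hσ, h⟩
    refine ⟨toR ∘ σ, fun n => (PLD_iff _).1 (hσ n), ?_⟩
    have h1 := congrArg toR h
    rw [map_ev, map_one, toR_gens] at h1
    exact h1

end Ival

end Pool.Agent.Lib_helper30
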