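import Pool.Agent.Lib_helper30.Sol

set_option autoImplicit false

namespace Pool.Agent.Lib_helper30

open Filter Topology Set

lemma down_induction {P : ℝ → Prop} {t₁ N : ℝ} (hN : 0 < N)
    (h0 : ∀ t, t₁ ≤ t → t ≤ t₁ + N → P t) (h : ∀ t, t ≤ t₁ → P (t + N) → P t) :
    ∀ t, t ≤ t₁ + N → P t := by
  have key : ∀ k : ℕ, ∀ t, t₁ - k * N ≤ t → t ≤ t₁ + N → P t := by
    intro k
    induction k with
    | zero => intro t h1 h2; exact h0 t (by simpa using h1) h2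
    | succ k ih =>
      intro t h1 h2
      rcases le_or_gt t₁ t with h3 | h3
      · exact h0 t h3 h2
      · refine h t h3.le (ih _ ?_ (by linarith))
        push_cast at h1; linarith
  intro t ht
  obtain ⟨k, hk⟩ := exists_nat_ge ((t₁ - t) / N)
  rw [div_le_iff₀ hN] at hk
  exact key k t (by linarith) ht

lemma up_induction {P : ℝ → Prop} {t₁ N : ℝ} (hN : 0 < N)
    (h0 : ∀ t, t₁ ≤ t → t ≤ t₁ + N → P t) (h : ∀ t, t₁ ≤ t → P t → P (t + N)) :
    ∀ t, t₁ ≤ t → P t := by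
  have key : ∀ k : ℕ, ∀ t, t₁ ≤ t → t ≤ t₁ + (k + 1) * N → P t := by
    intro k
    induction k with
    | zero => intro t h1 h2; exact h0 t h1 (by simpa using h2)
    | succ k ih =>
      intro t h1 h2
      rcases le_or_gt t (t₁ + N) with h3 | h3
      · exact h0 t h1 h3
      · have := h (t - N) (by linarith) (ih _ (by linarith) (by push_cast at h2; linarith))
        simpa using this
  intro t ht
  obtain ⟨k, hk⟩ := exists_nat_ge ((t - t₁) / N)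
  rw [div_le_iff₀ hN] at hk
  exact key k t ht (by linarith)

lemma left_sol {d : ℝ ≃o ℝ} {N : ℕ} (hN : 0 < N) (hd : d ∈ HH) (hdp : ∀ t, t < d t)
    (hend : EndBot d N) : ∃ u ∈ HH, (∃ L : ℝ, ∀ t, t ≤ L → u t = t) ∧ d * u = u * tr N := by
  have hNR : (0 : ℝ) < N := by exact_mod_cast hN
  obtain ⟨L, hL⟩ := eventually_atBot.1 hend
  obtain ⟨n, hn⟩ := exists_nat_gt (-L)
  have hLn : (-(n : ℤ) : ℝ) ≤ L := by push_cast; linarith
  have hx : ((-(n : ℤ) : ℤ) : ℝ) ∈ Dy := Dy_int _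
  push_cast at hx
  obtain ⟨u, hu, hu1, hu2⟩ := exists_sol (h₀ := 1) (x₀ := -(n : ℝ)) (N := N) hd hdp hx (Dy_nat N) hNR
    HH.one_mem (by
      rw [one_apply', one_apply', hL _ (by push_cast at hLn; exact hLn)]; simp)
  refine ⟨u, hu, ⟨-(n : ℝ) + N, ?_⟩, hu2.symm⟩
  refine down_induction hNR hu1 ?_
  intro t ht hP
  have h1 : d (u t) = u (t + N) := by
    have := congrArg (fun f : ℝ ≃o ℝ => f t) hu2
    simp only [mul_apply', tr_apply] at this
    exact this.symm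
  have h2 : d t = t + N := by
    rw [hL t (by push_cast at hLn; linarith)]; simp
  rw [hP, ← h2] at h1
  exact d.injective h1

lemma right_sol {d : ℝ ≃o ℝ} {N : ℕ} (hN : 0 < N) (hd : d ∈ HH) (hdp : ∀ t, t < d t)
    (hend : EndTop d N) : ∃ u ∈ HH, (∃ R : ℝ, ∀ t, R ≤ t → u t = t) ∧ d * u = u * tr N := by
  have hNR : (0 : ℝ) < N := by exact_mod_cast hN
  obtain ⟨R, hR⟩ := eventually_atTop.1 hend
  obtain ⟨n, hn⟩ := exists_nat_gt R
  obtain ⟨u, hu, hu1, hu2⟩ := exists_sol (h₀ := 1) (x₀ := (n : ℝ)) (N := N) hd hdp (Dy_nat n)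
    (Dy_nat N) hNR HH.one_mem (by
      rw [one_apply', one_apply', hR _ hn.le]; simp)
  refine ⟨u, hu, ⟨(n : ℝ), ?_⟩, hu2.symm⟩
  refine up_induction hNR hu1 ?_
  intro t ht hP
  have h1 : d (u t) = u (t + N) := by
    have := congrArg (fun f : ℝ ≃o ℝ => f t) hu2
    simp only [mul_apply', tr_apply] at this
    exact this.symm
  rw [← h1, hP, hR t (by linarith)]; simp

/-- On the region where `y` is the unit translation, conjugation by `y` is a shift. -/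
lemma push_shift {y f : ℝ ≃o ℝ} {I J M : ℝ} (hy : ∀ t, 0 ≤ t → t ≤ M → y t = t + 1)
    (hI : 0 ≤ I) (hJ : J ≤ M) (hf : f ∈ Gc I J) : y * f = sh 1 f * y := by
  have h1 : sh 1 f ∈ Gc (I + 1) (J + 1) := sh_mem Dy.one_mem hf
  ext t
  rw [mul_apply', mul_apply']
  rcases le_or_gt t I with ht | ht
  · rw [Gc_le_apply hf ht]
    rcases le_or_gt I J with hIJ | hIJ
    · have : y t ≤ I + 1 := by
        rw [← hy I hI (by linarith)]; exact y.monotone ht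
      rw [Gc_le_apply h1 this]
    · -- empty support
      have hf1 : f = 1 := by
        ext x
        rcases le_or_gt x I with hx | hx
        · rw [Gc_le_apply hf hx]; rfl
        · rw [Gc_ge_apply hf (by linarith)]; rfl
      rw [hf1, sh_one]; rfl
  · rcases le_or_gt J t with htJ | htJ
    · rw [Gc_ge_apply hf htJ]
      rcases le_or_gt I J with hIJ | hIJ
      · have : J + 1 ≤ y t := by
          rw [← hy J (by linarith) hJ]; exact y.monotone htJ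
        rw [Gc_ge_apply h1 this]
      · have hf1 : f = 1 := by
          ext x
          rcases le_or_gt x I with hx | hx
          · rw [Gc_le_apply hf hx]; rfl
          · rw [Gc_ge_apply hf (by linarith)]; rfl
        rw [hf1, sh_one]; rfl
    · have h2 : f t ≤ M := by
        have h3 : J ≤ J := le_rfl
        have h4 := f.monotone htJ.le
        rw [Gc_ge_apply hf h3] at h4; linarith
      have h5 : 0 ≤ f t := by
        have h4 := f.monotone ht.le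
        rw [Gc_le_apply hf le_rfl] at h4; linarith
      rw [hy _ h5 h2, hy t (by linarith) (by linarith), sh_apply]
      simp

/-- The algebraic identity behind the key lemma. -/
lemma key_identity {c y γ v : ℝ ≃o ℝ} {I J M : ℝ} (hc : ∀ t, 0 ≤ t → t ≤ M → c t = t + 1)
    (hy : ∀ t, 0 ≤ t → t ≤ M → y t = t + 1) (hI : 0 ≤ I) (hJ : J + 1 ≤ M)
    (hγ : γ ∈ Gc I J) (hv : v ∈ Gc I J) :
    c * y * (γ⁻¹ * v * (sh 1 v)⁻¹ * sh 2 γ) =
      (sh 2 γ)⁻¹ * ((sh 2 v * c * (sh 2 v)⁻¹) * y) * sh 2 γ := by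
  have h1 : y * γ⁻¹ = (sh 1 γ)⁻¹ * y := by
    rw [← sh_inv]; exact push_shift hy hI (by linarith) (Subgroup.inv_mem _ hγ)
  have h2 : c * (sh 1 γ)⁻¹ = (sh 2 γ)⁻¹ * c := by
    have h := push_shift hc (by linarith) (by linarith) (Subgroup.inv_mem _ (sh_mem Dy.one_mem hγ))
    rw [sh_inv, sh_sh] at h
    rw [h]; norm_num
  have h3 : y * v = sh 1 v * y := push_shift hy hI (by linarith) hv
  have h4 : c * sh 1 v = sh 2 v * c := by
    have h := push_shift hc (by linarith) (by linarith) (sh_mem Dy.one_mem hv)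
    rw [sh_sh] at h
    rw [h]; norm_num
  have h5 : y * (sh 1 v)⁻¹ = (sh 2 v)⁻¹ * y := by
    have h := push_shift hy (by linarith) (by linarith) (Subgroup.inv_mem _ (sh_mem Dy.one_mem hv))
    rw [sh_inv, sh_sh] at h
    rw [h]; norm_num
  calc c * y * (γ⁻¹ * v * (sh 1 v)⁻¹ * sh 2 γ)
      = c * (y * γ⁻¹) * v * (sh 1 v)⁻¹ * sh 2 γ := by group
    _ = (c * (sh 1 γ)⁻¹) * (y * v) * (sh 1 v)⁻¹ * sh 2 γ := by rw [h1]; group
    _ = (sh 2 γ)⁻¹ * (c * sh 1 v) * (y * (sh 1 v)⁻¹) * sh 2 γ := by rw [h2, h3]; group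
    _ = (sh 2 γ)⁻¹ * (sh 2 v * c) * ((sh 2 v)⁻¹ * y) * sh 2 γ := by rw [h4, h5]
    _ = _ := by group

/-- The key lemma. -/
theorem key_lemma : ∃ M₀ : ℕ, 0 < M₀ ∧ ∀ N : ℕ, 0 < N → ∀ c ∈ GG, ∀ y ∈ GG,
    (∀ t : ℝ, t < c (y t)) → (∀ t : ℝ, 0 ≤ t → t ≤ M₀ → c t = t + 1) →
    (∀ t : ℝ, 0 ≤ t → t ≤ M₀ → y t = t + 1) → EndBot (c * y) N → EndTop (c * y) N →
    ∃ g ∈ GG, ∃ w ∈ GG, (g * c * g⁻¹) * y = w * tr N * w⁻¹ := by
  obtain ⟨C, hC2, hC⟩ := InE.all_one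
  obtain ⟨n₀, hn₀⟩ := exists_nat_ge C
  obtain ⟨j₀, hj₀⟩ := exists_nat_ge (C + 2)
  obtain ⟨M₀, hM₀⟩ := exists_nat_ge ((n₀ : ℝ) + 2 * j₀ + C + 10)
  have hn₀' : (0 : ℝ) ≤ n₀ := Nat.cast_nonneg _
  have hj₀' : (0 : ℝ) ≤ j₀ := Nat.cast_nonneg _
  refine ⟨M₀, ?_, ?_⟩
  · have : (0 : ℝ) < M₀ := by linarith
    exact_mod_cast this
  intro N hN c hcG y hyG hpos hcT hyT hbot htop
  have hNR : (0 : ℝ) < N := by exact_mod_cast hN
  have hN1 : (1 : ℝ) ≤ N := by exact_mod_cast hN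
  set d := c * y with hd
  have hdG : d ∈ GG := GG.mul_mem hcG hyG
  have hdH : d ∈ HH := hdG.1
  have hdp : ∀ t, t < d t := hpos
  have hd2 : ∀ t : ℝ, 0 ≤ t → t ≤ M₀ - 1 → d t = t + 2 := by
    intro t h1 h2
    rw [hd, mul_apply', hyT t h1 (by linarith), hcT _ (by linarith) (by linarith)]; ring
  obtain ⟨u₀, hu₀, ⟨L, hL⟩, hu₀d⟩ := left_sol hN hdH hdp hbot
  obtain ⟨v₀, hv₀, ⟨R, hR⟩, hv₀d⟩ := right_sol hN hdH hdp htop
  have hu₀' : ∀ t, d (u₀ t) = u₀ (t + N) := fun t => by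
    have := congrArg (fun f : ℝ ≃o ℝ => f t) hu₀d
    simpa only [mul_apply', tr_apply] using this
  have hv₀' : ∀ t, d (v₀ t) = v₀ (t + N) := fun t => by
    have := congrArg (fun f : ℝ ≃o ℝ => f t) hv₀d
    simpa only [mul_apply', tr_apply] using this
  -- the first fundamental domain
  set δ₁ : ℝ := (n₀ : ℝ) with hδ₁
  have hδ₁D : δ₁ ∈ Dy := Dy_nat n₀
  set t₁ := u₀⁻¹ δ₁ with ht₁
  have hu₀t₁ : u₀ t₁ = δ₁ := apply_inv' _ _
  have ht₁D : t₁ ∈ Dy := by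
    rw [← PL2.dy_iff hu₀, hu₀t₁]; exact hδ₁D
  have hdδ₁ : d δ₁ = δ₁ + 2 := hd2 _ hn₀' (by linarith)
  have hu₀t₁N : u₀ (t₁ + N) = δ₁ + 2 := by rw [← hu₀', hu₀t₁, hdδ₁]
  set τ := v₀⁻¹ δ₁ with hτ
  have hv₀τ : v₀ τ = δ₁ := apply_inv' _ _
  have hv₀τN : v₀ (τ + N) = δ₁ + 2 := by rw [← hv₀', hv₀τ, hdδ₁]
  set k : ℤ := ⌊τ - t₁⌋ with hk
  have hk1 : t₁ + k ≤ τ := by have := Int.floor_le (τ - t₁); linarith
  have hk2 : τ < t₁ + k + 1 := by have := Int.lt_floor_add_one (τ - t₁); linarith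
  set P := v₀ * tr k with hP
  have hPH : P ∈ HH := HH.mul_mem hv₀ (tr_mem_HH (Dy_int k))
  have P_apply : ∀ t, P t = v₀ (t + k) := fun t => rfl
  have hPd : ∀ t, d (P t) = P (t + N) := by
    intro t
    rw [P_apply, P_apply, hv₀']; congr 1; ring
  -- the window
  obtain ⟨a₁, ha₁D, ha₁, ha₁'⟩ := Dy_dense (show τ - k < t₁ + N by linarith)
  obtain ⟨a₂, ha₂D, ha₂, ha₂'⟩ := Dy_dense ha₁'
  obtain ⟨as, hasD, has, has'⟩ := Dy_dense ha₂
  have hPa₁ : δ₁ < P a₁ := by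
    rw [P_apply, ← hv₀τ]; exact v₀.strictMono (by linarith)
  have hPa₂ : P a₂ < δ₁ + 2 := by
    rw [P_apply, ← hv₀τN]; exact v₀.strictMono (by linarith)
  have hua₁ : δ₁ < u₀ a₁ := by
    rw [← hu₀t₁]; exact u₀.strictMono (by linarith)
  have hua₂ : u₀ a₂ < δ₁ + 2 := by
    rw [← hu₀t₁N]; exact u₀.strictMono ha₂'
  -- the first correction
  obtain ⟨b₁, hb₁D, hb₁, hb₁'⟩ := Dy_dense (show δ₁ < min (u₀ a₁) (P a₁) from lt_min hua₁ hPa₁)
  obtain ⟨b₂, hb₂D, hb₂, hb₂'⟩ := Dy_dense (show max (u₀ a₂) (P a₂) < δ₁ + 2 from max_lt hua₂ hPa₂)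
  rw [lt_min_iff] at hb₁'
  rw [max_lt_iff] at hb₂
  have hQH : P * u₀⁻¹ ∈ HH := HH.mul_mem hPH (HH.inv_mem hu₀)
  have hQ : ∀ t, (P * u₀⁻¹) (u₀ t) = P t := by
    intro t; rw [mul_apply', inv_apply']
  obtain ⟨e0, he0, he01, he02⟩ := interp (f₁ := 1) (f₂ := P * u₀⁻¹) HH.one_mem hQH hb₁D
    ((PL2.dy_iff hu₀ a₁).2 ha₁D) hb₁'.1 (by rw [one_apply', hQ]; exact hb₁'.2)
  obtain ⟨κ₁, hκ₁H, hκ₁1, hκ₁2⟩ := interp (f₁ := e0) (f₂ := 1) he0 HH.one_mem
    ((PL2.dy_iff hu₀ a₂).2 ha₂D) hb₂D hb₂.1 (by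
      rw [one_apply', he02 _ (u₀.monotone ha₂.le), hQ]; exact hb₂.2)
  have hκ₁m : κ₁ ∈ Gc δ₁ (δ₁ + 2) := by
    refine ⟨hκ₁H, b₁, b₂, hb₁, hb₂', ?_, ?_⟩
    · intro t ht
      have h1 : t ≤ u₀ a₂ := by
        have := u₀.monotone ha₂.le; linarith
      rw [hκ₁1 t h1, he01 t ht]; rfl
    · intro t ht
      rw [hκ₁2 t ht]; rfl
  have hκ₁a : ∀ t, a₁ ≤ t → t ≤ a₂ → κ₁ (u₀ t) = P t := by
    intro t h1 h2
    rw [hκ₁1 _ (u₀.monotone h2), he02 _ (u₀.monotone h1), hQ]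
  -- the modified left solution
  set d₁ := d * κ₁ with hd₁
  have hd₁H : d₁ ∈ HH := HH.mul_mem hdH hκ₁H
  have hκ₁low : ∀ t, t ≤ δ₁ → κ₁ t = t := fun t ht => Gc_le_apply hκ₁m ht
  have hκ₁high : ∀ t, δ₁ + 2 ≤ t → κ₁ t = t := fun t ht => Gc_ge_apply hκ₁m ht
  have hd₁p : ∀ t, t < d₁ t := by
    intro t
    rw [hd₁, mul_apply']
    rcases le_or_gt t δ₁ with h1 | h1
    · rw [hκ₁low t h1]; exact hdp t
    · rcases le_or_gt (δ₁ + 2) t with h2 | h2
      · rw [hκ₁high t h2]; exact hdp t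
      · have h3 : δ₁ ≤ κ₁ t := by
          have := κ₁.monotone h1.le; rwa [hκ₁low δ₁ le_rfl] at this
        have h4 := d.monotone h3
        rw [hdδ₁] at h4
        linarith
  obtain ⟨u₁, hu₁, hu₁a, hu₁b⟩ := exists_sol (h₀ := u₀) (x₀ := t₁) (N := N) hd₁H hd₁p ht₁D (Dy_nat N)
    hNR hu₀ (by rw [hu₀t₁N, hu₀t₁, hd₁, mul_apply', hκ₁low δ₁ le_rfl, hdδ₁])
  have hu₁' : ∀ t, d (κ₁ (u₁ t)) = u₁ (t + N) := fun t => by
    have := congrArg (fun f : ℝ ≃o ℝ => f t) hu₁b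
    simp only [mul_apply', tr_apply, hd₁] at this
    exact this.symm
  have hu₁low : ∀ t, t ≤ t₁ + N → u₁ t = u₀ t := by
    refine down_induction hNR hu₁a ?_
    intro t ht hPt
    have h1 := hu₁' t
    have h2 : d (κ₁ (u₀ t)) = u₀ (t + N) := by
      rw [hκ₁low (u₀ t) (by rw [← hu₀t₁]; exact u₀.monotone ht), hu₀']
    rw [hPt, ← h2] at h1
    exact κ₁.injective (d.injective h1)
  have hu₁win : ∀ j : ℕ, ∀ t, a₁ + (j + 1) * N ≤ t → t ≤ a₂ + (j + 1) * N → u₁ t = P t := by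
    intro j
    induction j with
    | zero =>
      intro t h1 h2
      have h3 := hu₁' (t - N)
      rw [sub_add_cancel, hu₁low (t - N) (by push_cast at h2; linarith),
        hκ₁a (t - N) (by push_cast at h1; linarith) (by push_cast at h2; linarith), hPd,
        sub_add_cancel] at h3
      exact h3.symm
    | succ j ih =>
      intro t h1 h2
      push_cast at h1 h2
      have h4 := ih (t - N) (by linarith) (by linarith)
      have h3 := hu₁' (t - N)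
      have h5 : δ₁ + 2 ≤ P (t - N) := by
        have h6 : P (a₁ + N) = d (P a₁) := (hPd a₁).symm
        have h7 : P (a₁ + N) ≤ P (t - N) := by
          apply P.monotone
          have : 0 ≤ (j : ℝ) * N := by positivity
          nlinarith
        have h8 : δ₁ + 2 ≤ d (P a₁) := by
          rw [← hdδ₁]; exact d.monotone hPa₁.le
        linarith
      rw [sub_add_cancel, h4, hκ₁high _ h5, hPd, sub_add_cancel] at h3
      exact h3.symm
  -- positions along the region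
  have hPpos : ∀ j : ℕ, j ≤ j₀ + 2 → P (as + j * N) = P as + 2 * j := by
    intro j
    induction j with
    | zero => intro _; simp
    | succ j ih =>
      intro hj
      have h1 := ih (by omega)
      have h2 : P (as + (j + 1 : ℕ) * N) = d (P (as + j * N)) := by
        rw [hPd]; congr 1; push_cast; ring
      have hjR : (j : ℝ) + 1 ≤ j₀ + 2 := by exact_mod_cast hj
      have h3 : P as < δ₁ + 2 := (P.strictMono has').trans hPa₂
      have h4 : δ₁ < P as := hPa₁.trans (P.strictMono has)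
      rw [h2, h1, hd2 _ (by have : (0:ℝ) ≤ j := Nat.cast_nonneg _
                            linarith) (by linarith)]
      push_cast; ring
  have hPas1 : P as < δ₁ + 2 := (P.strictMono has').trans hPa₂
  have hPas2 : δ₁ < P as := hPa₁.trans (P.strictMono has)
  -- the second fundamental domain
  set t₂ := as + (j₀ + 1) * N with ht₂
  set δ₂ := P t₂ with hδ₂
  have hδ₂eq : δ₂ = P as + 2 * (j₀ + 1) := by
    have := hPpos (j₀ + 1) (by omega)
    push_cast at this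
    rw [hδ₂, ht₂, this]
  have hδ₂N : P (t₂ + N) = δ₂ + 2 := by
    have := hPpos (j₀ + 2) (by omega)
    push_cast at this
    rw [hδ₂eq, ht₂, show as + (j₀ + 1) * N + N = as + (j₀ + 2) * N by ring, this]; ring
  have ht₂D : t₂ ∈ Dy := by
    refine Dy.add_mem hasD (Dy.mul_mem ?_ (Dy_nat N))
    exact Dy.add_mem (Dy_nat j₀) Dy.one_mem
  have hδ₂D : δ₂ ∈ Dy := (PL2.dy_iff hPH t₂).2 ht₂D
  have h2D : (2 : ℝ) ∈ Dy := by simpa using Dy_nat 2
  have hu₁t₂ : u₁ t₂ = δ₂ := hu₁win j₀ t₂ (by linarith) (by linarith)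
  have hu₁t₂N : u₁ (t₂ + N) = δ₂ + 2 := by
    rw [← hδ₂N]
    refine hu₁win (j₀ + 1) _ ?_ ?_
    · push_cast; linarith
    · push_cast; linarith
  set Q := P * u₁⁻¹ with hQdef
  have hQH' : Q ∈ HH := HH.mul_mem hPH (HH.inv_mem hu₁)
  have hQ' : ∀ t, Q (u₁ t) = P t := by
    intro t; rw [hQdef, mul_apply', inv_apply']
  have hQδ₂ : Q δ₂ = δ₂ := by
    have h := hQ' t₂
    rwa [hu₁t₂] at h
  have hQδ₂N : Q (δ₂ + 2) = δ₂ + 2 := by
    have h := hQ' (t₂ + N)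
    rwa [hu₁t₂N, hδ₂N] at h
  set κ₂ := glue (glue 1 Q δ₂ (by rw [hQδ₂, one_apply'])) 1 (δ₂ + 2) (by
    rw [glue_ge (by linarith), hQδ₂N, one_apply']) with hκ₂
  have hκ₂low : ∀ t, t ≤ δ₂ → κ₂ t = t := by
    intro t ht
    rw [hκ₂, glue_le (by linarith), glue_le ht]; rfl
  have hκ₂high : ∀ t, δ₂ + 2 ≤ t → κ₂ t = t := by
    intro t ht
    rw [hκ₂, glue_ge ht]; rfl
  have hκ₂mid : ∀ t, δ₂ ≤ t → t ≤ δ₂ + 2 → κ₂ t = Q t := by
    intro t h1 h2
    rw [hκ₂, glue_le h2, glue_ge h1]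
  have hκ₂H : κ₂ ∈ HH := glue_mem_HH (glue_mem_HH HH.one_mem hQH' hδ₂D) HH.one_mem
    (Dy.add_mem hδ₂D h2D)
  have hκ₂m : κ₂ ∈ Gc δ₂ (δ₂ + 2) := by
    refine ⟨hκ₂H, u₁ (a₂ + (j₀ + 1) * N), u₁ (a₁ + (j₀ + 2) * N), ?_, ?_, ?_, ?_⟩
    · rw [← hu₁t₂]; exact u₁.strictMono (by linarith)
    · rw [← hu₁t₂N]; exact u₁.strictMono (by linarith)
    · intro t ht
      rcases le_or_gt t δ₂ with h1 | h1
      · exact hκ₂low t h1
      · have hs1 : t₂ ≤ u₁⁻¹ t := by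
          rw [← u₁.le_iff_le, apply_inv', hu₁t₂]; exact h1.le
        have hs2 : u₁⁻¹ t ≤ a₂ + (j₀ + 1) * N := by
          rw [← u₁.le_iff_le, apply_inv']; exact ht
        have hs3 : u₁ (u₁⁻¹ t) = P (u₁⁻¹ t) := hu₁win j₀ _ (by linarith) hs2
        rw [apply_inv'] at hs3
        have hs4 : t ≤ δ₂ + 2 := by
          rw [← hu₁t₂N]
          refine ht.trans (u₁.monotone ?_)
          have h5 : a₂ < t₁ + N := ha₂'
          have h6 : t₁ < as := by linarith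
          linarith
        rw [hκ₂mid t h1.le hs4, hQdef, mul_apply', ← hs3]
    · intro t ht
      rcases le_or_gt (δ₂ + 2) t with h1 | h1
      · exact hκ₂high t h1
      · have hs1 : u₁⁻¹ t ≤ t₂ + N := by
          rw [← u₁.le_iff_le, apply_inv', hu₁t₂N]; exact h1.le
        have hs2 : a₁ + (j₀ + 2) * N ≤ u₁⁻¹ t := by
          rw [← u₁.le_iff_le, apply_inv']; exact ht
        have hs3 : u₁ (u₁⁻¹ t) = P (u₁⁻¹ t) := by
          refine hu₁win (j₀ + 1) _ ?_ ?_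
          · push_cast; linarith
          · push_cast; linarith
        rw [apply_inv'] at hs3
        have hs4 : δ₂ ≤ t := by
          rw [← hu₁t₂]
          refine le_trans (u₁.monotone ?_) ht
          have h5 : a₂ < t₁ + N := ha₂'
          have h6 : t₁ < a₁ := by linarith
          linarith
        rw [hκ₂mid t hs4 h1.le, hQdef, mul_apply', ← hs3]
  -- the conjugator
  set u := glue u₁ P (t₂ + N) (by rw [hu₁t₂N, hδ₂N]) with hu
  have huH : u ∈ HH := glue_mem_HH hu₁ hPH (Dy.add_mem ht₂D (Dy_nat N))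
  have huG : u ∈ GG := by
    refine ⟨huH, ⟨0, ?_⟩, ⟨k, ?_⟩⟩
    · filter_upwards [eventually_le_atBot (min (t₂ + N) (min (t₁ + N) L))] with t ht
      rw [le_min_iff, le_min_iff] at ht
      rw [hu, glue_le ht.1, hu₁low t ht.2.1, hL t ht.2.2]; simp
    · filter_upwards [eventually_ge_atTop (max (t₂ + N) (R - k))] with t ht
      rw [max_le_iff] at ht
      rw [hu, glue_ge ht.1, P_apply, hR _ (by linarith [ht.2])]
  have h12 : δ₁ + 2 ≤ δ₂ := by rw [hδ₂eq]; linarith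
  have hconj : d * κ₁ * κ₂ * u = u * tr N := by
    ext t
    simp only [mul_apply', tr_apply]
    rcases le_or_gt t t₂ with h1 | h1
    · have e1 : u t = u₁ t := by rw [hu, glue_le (by linarith)]
      have e2 : u (t + N) = u₁ (t + N) := by rw [hu, glue_le (by linarith)]
      have e3 : u₁ t ≤ δ₂ := by rw [← hu₁t₂]; exact u₁.monotone h1
      rw [e1, e2, hκ₂low _ e3, hu₁']
    · have e2 : u (t + N) = P (t + N) := by rw [hu, glue_ge (by linarith)]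
      rcases le_or_gt t (t₂ + N) with h2 | h2
      · have e1 : u t = u₁ t := by rw [hu, glue_le h2]
        have e3 : δ₂ ≤ u₁ t := by rw [← hu₁t₂]; exact u₁.monotone h1.le
        have e4 : u₁ t ≤ δ₂ + 2 := by rw [← hu₁t₂N]; exact u₁.monotone h2
        have e5 : δ₂ ≤ P t := P.monotone h1.le
        rw [e1, e2, hκ₂mid _ e3 e4, hQ', hκ₁high _ (by linarith), hPd]
      · have e1 : u t = P t := by rw [hu, glue_ge h2.le]
        have e5 : δ₂ + 2 ≤ P t := by rw [← hδ₂N]; exact P.monotone h2.le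
        rw [e1, e2, hκ₂high _ e5, hκ₁high _ (by linarith), hPd]
  -- the twisted factorisation
  obtain ⟨γ₁, hγ₁, v₁, hv₁, he₁⟩ := hC δ₁ hδ₁D κ₁ hκ₁m
  obtain ⟨γ₂, hγ₂, v₂, hv₂, he₂⟩ := hC δ₂ hδ₂D κ₂ hκ₂m
  have h1 := InE.expand he₁
  have h2 := InE.expand he₂
  have hsep : δ₁ + C + 2 ≤ δ₂ - C := by rw [hδ₂eq]; linarith
  have mX : ∀ x ∈ ({γ₁⁻¹, v₁, (sh 1 v₁)⁻¹, sh 2 γ₁} : Set (ℝ ≃o ℝ)),
      x ∈ Gc (δ₁ - C) (δ₁ + C + 2) := by
    intro x hx
    rcases hx with rfl | rfl | rfl | hx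
    · exact Subgroup.inv_mem _ (Gc_mono (by linarith) (by linarith) hγ₁)
    · exact Gc_mono (by linarith) (by linarith) hv₁
    · exact Subgroup.inv_mem _ (Gc_mono (by linarith) (by linarith) (sh_mem Dy.one_mem hv₁))
    · rw [Set.mem_singleton_iff.1 hx]
      exact Gc_mono (by linarith) (by linarith) (sh_mem h2D hγ₁)
  have mY : ∀ y ∈ ({γ₂⁻¹, v₂, (sh 1 v₂)⁻¹, sh 2 γ₂} : Set (ℝ ≃o ℝ)),
      y ∈ Gc (δ₂ - C) (δ₂ + C + 2) := by
    intro x hx
    rcases hx with rfl | rfl | rfl | hx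
    · exact Subgroup.inv_mem _ (Gc_mono (by linarith) (by linarith) hγ₂)
    · exact Gc_mono (by linarith) (by linarith) hv₂
    · exact Subgroup.inv_mem _ (Gc_mono (by linarith) (by linarith) (sh_mem Dy.one_mem hv₂))
    · rw [Set.mem_singleton_iff.1 hx]
      exact Gc_mono (by linarith) (by linarith) (sh_mem h2D hγ₂)
  have hint := interleave (fun x hx y hy => Gc_comm hsep (mX x hx) (mY y hy) :
    ∀ x ∈ ({γ₁⁻¹, v₁, (sh 1 v₁)⁻¹, sh 2 γ₁} : Set (ℝ ≃o ℝ)),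
      ∀ y ∈ ({γ₂⁻¹, v₂, (sh 1 v₂)⁻¹, sh 2 γ₂} : Set (ℝ ≃o ℝ)), Commute x y)
  set γ := γ₁ * γ₂ with hγ
  set v := v₁ * v₂ with hv
  have hprod : κ₁ * κ₂ = γ⁻¹ * v * (sh 1 v)⁻¹ * sh 2 γ := by
    rw [h1, h2, hγ, hv, sh_mul, sh_mul, mul_inv_rev, mul_inv_rev, ← hint]
  have hγm : γ ∈ Gc (δ₁ - C) (δ₂ + C) := Subgroup.mul_mem _
    (Gc_mono le_rfl (by linarith) hγ₁) (Gc_mono (by linarith) le_rfl hγ₂)
  have hvm : v ∈ Gc (δ₁ - C) (δ₂ + C) := Subgroup.mul_mem _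
    (Gc_mono le_rfl (by linarith) hv₁) (Gc_mono (by linarith) le_rfl hv₂)
  have hid := key_identity (M := M₀) hcT hyT (by linarith) (by rw [hδ₂eq]; linarith) hγm hvm
  rw [← hprod, ← hd, ← mul_assoc] at hid
  have hconj' : d * κ₁ * κ₂ = u * tr N * u⁻¹ := by rw [← hconj]; group
  refine ⟨sh 2 v, Gc_le_GG _ _ (sh_mem h2D hvm), sh 2 γ * u,
    GG.mul_mem (Gc_le_GG _ _ (sh_mem h2D hγm)) huG, ?_⟩
  rw [hconj'] at hid
  calc (sh 2 v * c * (sh 2 v)⁻¹) * y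
      = sh 2 γ * ((sh 2 γ)⁻¹ * ((sh 2 v * c * (sh 2 v)⁻¹) * y) * sh 2 γ) * (sh 2 γ)⁻¹ := by group
    _ = sh 2 γ * (u * tr N * u⁻¹) * (sh 2 γ)⁻¹ := by rw [hid]
    _ = _ := by group

end Pool.Agent.Lib_helper30
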