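import Pool.Agent.Lib_helper30.Key

set_option autoImplicit false

namespace Pool.Agent.Lib_helper30

open Filter Topology Set
open scoped commutatorElement

lemma GG_disp {f : ℝ ≃o ℝ} (hf : f ∈ GG) : ∃ K : ℕ, ∀ t, |f t - t| ≤ K := by
  obtain ⟨B, p, q, hB, hp, hq⟩ := exists_bounds hf
  have hBR : (0 : ℝ) < B := by exact_mod_cast hB
  obtain ⟨K, hK⟩ := exists_nat_ge (max (max |(p : ℝ)| |(q : ℝ)|) (max (f B + B) (B - f (-B))))
  rw [max_le_iff, max_le_iff, max_le_iff] at hK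
  obtain ⟨⟨h1, h2⟩, h3, h4⟩ := hK
  refine ⟨K, fun t => ?_⟩
  rcases le_or_gt t (-B) with ht | ht
  · rw [hp t ht, add_sub_cancel_left]; exact h1
  · rcases le_or_gt (B : ℝ) t with ht' | ht'
    · rw [hq t ht', add_sub_cancel_left]; exact h2
    · have h5 := f.monotone ht.le
      have h6 := f.monotone ht'.le
      rw [abs_le]
      constructor <;> linarith

/-- Linearisation on a long interval, normalised version. -/
lemma lin_aux {c : ℝ ≃o ℝ} (hc : c ∈ GG) (h0 : c 0 = 1) (m : ℕ) :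
    ∃ h ∈ GG, (∀ t : ℝ, t ≤ 1 → h t = t) ∧ (∀ t : ℝ, 0 ≤ t → t ≤ m → h (t + 1) = c (h t)) ∧
      (∀ t : ℝ, m ≤ t → h t = (c ^ m) (t - m)) := by
  induction m with
  | zero =>
    refine ⟨1, GG.one_mem, fun t _ => rfl, ?_, ?_⟩
    · intro t h1 h2
      have : t = 0 := le_antisymm (by simpa using h2) h1
      rw [this, one_apply', one_apply', h0]; simp
    · intro t _; simp
  | succ m ih =>
    obtain ⟨h, hh, h1, h2, h3⟩ := ih
    have e1 : h ((m : ℝ) + 1) = (c * h * tr (-1)) ((m : ℝ) + 1) := by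
      rw [mul_apply', mul_apply', tr_apply, h2 m (Nat.cast_nonneg m) le_rfl]
      congr 2; ring
    have hD : (m : ℝ) + 1 ∈ Dy := Dy.add_mem (Dy_nat m) Dy.one_mem
    set h' := glue h (c * h * tr (-1)) ((m : ℝ) + 1) e1 with hh'
    have hlow : ∀ t, t ≤ (m : ℝ) + 1 → h' t = h t := fun t ht => glue_le ht
    have hhigh : ∀ t, (m : ℝ) + 1 ≤ t → h' t = c (h (t - 1)) := by
      intro t ht
      rw [hh', glue_ge ht, mul_apply', mul_apply', tr_apply]; rfl
    have hm0 : (0 : ℝ) ≤ m := Nat.cast_nonneg m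
    refine ⟨h', ?_, ?_, ?_, ?_⟩
    · have hmem2 : c * h * tr (-1) ∈ GG := by
        refine GG.mul_mem (GG.mul_mem hc hh) ?_
        refine ⟨tr_mem_HH (Dy.neg_mem Dy.one_mem), ⟨-1, ?_⟩, ⟨-1, ?_⟩⟩
        · simp
        · simp
      refine ⟨glue_mem_HH hh.1 hmem2.1 hD, ?_, ?_⟩
      · obtain ⟨p, hp⟩ := hh.2.1
        refine ⟨p, ?_⟩
        filter_upwards [hp, eventually_le_atBot ((m : ℝ) + 1)] with t ht1 ht2
        rw [hlow t ht2, ht1]
      · obtain ⟨q, hq⟩ := hmem2.2.2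
        refine ⟨q, ?_⟩
        filter_upwards [hq, eventually_ge_atTop ((m : ℝ) + 1)] with t ht1 ht2
        rw [hh', glue_ge ht2, ht1]
    · intro t ht
      rw [hlow t (by linarith), h1 t ht]
    · intro t ht1 ht2
      push_cast at ht2
      rcases le_total t m with h5 | h5
      · rw [hlow t (by linarith), hlow (t + 1) (by linarith), h2 t ht1 h5]
      · rw [hhigh (t + 1) (by linarith), hlow t ht2]; simp
    · intro t ht
      push_cast at ht
      rw [hhigh t ht, h3 _ (by linarith), pow_succ', mul_apply']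
      congr 2; push_cast; ring

/-- Every element with a point moved to the right is conjugate to one which is the unit
translation on a prescribed long interval, with controlled displacement. -/
theorem linearise {c : ℝ ≃o ℝ} (hc : c ∈ GG) {p : ℝ} (hp : p < c p) :
    ∃ K : ℕ, ∀ m : ℕ, ∃ h ∈ GG, (∀ t : ℝ, 0 ≤ t → t ≤ m → (h⁻¹ * c * h) t = t + 1) ∧
      (∀ t, |(h⁻¹ * c * h) t - t| ≤ K) := by
  -- a dyadic point
  have hcont : Continuous (fun t => c t - t) := c.continuous.sub continuous_id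
  have hopen : IsOpen {t : ℝ | 0 < c t - t} := isOpen_lt continuous_const hcont
  obtain ⟨ε, hε, hball⟩ := Metric.isOpen_iff.1 hopen p (by
    show 0 < c p - p
    linarith)
  obtain ⟨p', hp'D, hp1, hp2⟩ := Dy_dense (show p < p + ε by linarith)
  have hp' : p' < c p' := by
    have : p' ∈ {t : ℝ | 0 < c t - t} := hball (by
      rw [Metric.mem_ball, Real.dist_eq, abs_lt]; constructor <;> linarith)
    have h2 : 0 < c p' - p' := this
    linarith
  -- normalisation
  have hcp'D : c p' ∈ Dy := (PL2.dy_iff hc.1 p').2 hp'D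
  obtain ⟨h₀, hh₀H, h01, h02⟩ := ext_basic (a := 0) (b := 1) (c := p') (d := c p') Dy.zero_mem
    Dy.one_mem hp'D hcp'D (by norm_num) hp'
  -- make the ends integral
  obtain ⟨e1, he1, he11, he12⟩ := interp (f₁ := tr (⌊p'⌋ - 1 : ℤ)) (f₂ := h₀)
    (tr_mem_HH (Dy_int _)) hh₀H (a := -1) (b := 0) (by simpa using Dy_int (-1)) Dy.zero_mem
    (by norm_num) (by
      rw [tr_apply, h01 0 le_rfl]
      have := Int.floor_le p'
      push_cast; linarith)
  obtain ⟨h₁, hh₁, hh₁1, hh₁2⟩ := interp (f₁ := e1) (f₂ := tr (⌈c p'⌉ : ℤ))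
    he1 (tr_mem_HH (Dy_int _)) (a := 1) (b := 2) Dy.one_mem (by simpa using Dy_nat 2)
    (by norm_num) (by
      rw [tr_apply, he12 1 (by norm_num), h02 1 le_rfl]
      have := Int.le_ceil (c p')
      push_cast; linarith)
  have hh₁G : h₁ ∈ GG := by
    refine ⟨hh₁, ⟨⌊p'⌋ - 1, ?_⟩, ⟨⌈c p'⌉, ?_⟩⟩
    · filter_upwards [eventually_le_atBot (-1)] with t ht
      rw [hh₁1 t (by linarith), he11 t ht, tr_apply]
    · filter_upwards [eventually_ge_atTop 2] with t ht
      rw [hh₁2 t ht, tr_apply]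
  have hv0 : h₁ 0 = p' := by
    rw [hh₁1 0 (by norm_num), he12 0 le_rfl, h01 0 le_rfl]; ring
  have hv1 : h₁ 1 = c p' := by
    rw [hh₁1 1 le_rfl, he12 1 (by norm_num), h02 1 le_rfl]; ring
  set c₁ := h₁⁻¹ * c * h₁ with hc₁
  have hc₁G : c₁ ∈ GG := GG.mul_mem (GG.mul_mem (GG.inv_mem hh₁G) hc) hh₁G
  have hc₁0 : c₁ 0 = 1 := by
    rw [hc₁, mul_apply', mul_apply', hv0, ← hv1, inv_apply']
  obtain ⟨K, hK⟩ := GG_disp hc₁G
  refine ⟨K, fun m => ?_⟩
  obtain ⟨h, hhG, h1, h2, h3⟩ := lin_aux hc₁G hc₁0 m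
  have hm0 : (0 : ℝ) ≤ m := Nat.cast_nonneg m
  refine ⟨h₁ * h, GG.mul_mem hh₁G hhG, ?_, ?_⟩
  · intro t ht1 ht2
    have e : (h₁ * h)⁻¹ * c * (h₁ * h) = h⁻¹ * c₁ * h := by rw [hc₁]; group
    rw [e, mul_apply', mul_apply', ← h2 t ht1 ht2, inv_apply']
  · intro t
    have e : (h₁ * h)⁻¹ * c * (h₁ * h) = h⁻¹ * c₁ * h := by rw [hc₁]; group
    rw [e, mul_apply', mul_apply']
    rcases le_or_gt t 0 with ht | ht
    · rw [h1 t (by linarith)]
      have h4 : c₁ t ≤ 1 := by rw [← hc₁0]; exact c₁.monotone ht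
      have h5 : h⁻¹ (c₁ t) = c₁ t := by
        conv_lhs => rw [← h1 _ h4]
        rw [inv_apply']
      rw [h5]; exact hK t
    · rcases le_or_gt t m with ht' | ht'
      · rw [← h2 t ht.le ht', inv_apply', add_sub_cancel_left]
        have := hK 0
        rw [hc₁0] at this
        simpa using this
      · have h4 : c₁ (h t) = h (m + c₁ (t - m)) := by
          have h5 : 0 ≤ c₁ (t - m) := by
            have h6 : c₁ 0 ≤ c₁ (t - m) := c₁.monotone (by linarith)
            rw [hc₁0] at h6; linarith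
          rw [h3 t ht'.le, h3 _ (by linarith), add_sub_cancel_left]
          have hc : c₁ * c₁ ^ m = c₁ ^ m * c₁ := (Commute.refl c₁).pow_right m |>.eq
          rw [← mul_apply', hc, mul_apply']
        rw [h4, inv_apply']
        have := hK (t - m)
        have e2 : (m : ℝ) + c₁ (t - m) - t = c₁ (t - m) - (t - m) := by ring
        rw [e2]; exact this

end Pool.Agent.Lib_helper30
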