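import Pool.Agent.Lib_helper30.CC2

set_option autoImplicit false

namespace Pool.Agent.Lib_helper30

open Filter Topology Set

/-- Words in the two generators; the first component is the sign. -/
abbrev W : Type := List (Bool × Bool)

/-- Value of a letter. -/
noncomputable def lt1 (p : Bool × Bool) : ℝ ≃o ℝ := if p.1 then genImg p.2 else (genImg p.2)⁻¹

/-- Value of a word. -/
noncomputable def val (w : W) : ℝ ≃o ℝ := (w.map lt1).prod

lemma val_nil : val [] = 1 := rfl

lemma val_cons (p : Bool × Bool) (w : W) : val (p :: w) = lt1 p * val w := by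
  unfold val; rw [List.map_cons, List.prod_cons]

lemma val_append (u v : W) : val (u ++ v) = val u * val v := by
  unfold val; rw [List.map_append, List.prod_append]

/-- Formal inverse. -/
def winv (w : W) : W := (w.map (fun p => (!p.1, p.2))).reverse

lemma lt1_not (p : Bool × Bool) : lt1 (!p.1, p.2) = (lt1 p)⁻¹ := by
  unfold lt1
  rcases p with ⟨s, c⟩
  cases s <;> simp

lemma winv_cons (p : Bool × Bool) (w : W) : winv (p :: w) = winv w ++ [(!p.1, p.2)] := by
  unfold winv
  rw [List.map_cons, List.reverse_cons]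

lemma val_winv (w : W) : val (winv w) = (val w)⁻¹ := by
  induction w with
  | nil => rw [val_nil, inv_one]; rfl
  | cons p w ih =>
    rw [winv_cons, val_append, ih, val_cons, val_cons, val_nil, lt1_not]; group

lemma winv_length (w : W) : (winv w).length = w.length := by
  unfold winv; simp

lemma genImg_mem (c : Bool) : genImg c ∈ GG := by
  have h : ∀ g : TF, Phi g ∈ GG := Phi_mem
  cases c
  · have := h gA; rw [Phi_A] at this; exact this
  · have := h gB; rw [Phi_B] at this; exact this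

lemma lt1_mem (p : Bool × Bool) : lt1 p ∈ GG := by
  unfold lt1
  split_ifs
  · exact genImg_mem _
  · exact GG.inv_mem (genImg_mem _)

lemma val_mem (w : W) : val w ∈ GG := by
  induction w with
  | nil => exact GG.one_mem
  | cons p w ih => rw [val_cons]; exact GG.mul_mem (lt1_mem p) ih

/-- The element of `F` given by a word. -/
def wF (w : W) : TF := (w.map (fun p : Bool × Bool =>
  if p.1 then (PresentedGroup.of p.2 : TF) else (PresentedGroup.of p.2)⁻¹)).prod

lemma wF_append (u v : W) : wF (u ++ v) = wF u * wF v := by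
  unfold wF; rw [List.map_append, List.prod_append]

lemma wF_cons (p : Bool × Bool) (w : W) : wF (p :: w) =
    (if p.1 then (PresentedGroup.of p.2 : TF) else (PresentedGroup.of p.2)⁻¹) * wF w := by
  unfold wF; rw [List.map_cons, List.prod_cons]

lemma wF_winv (w : W) : wF (winv w) = (wF w)⁻¹ := by
  induction w with
  | nil => simp [wF, winv]
  | cons p w ih =>
    rw [winv_cons, wF_append, ih, wF_cons, wF_cons]
    rcases p with ⟨s, c⟩
    cases s <;> simp [wF]

lemma Phi_wF (w : W) : Phi (wF w) = val w := by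
  induction w with
  | nil => rw [val_nil]; exact map_one Phi
  | cons p w ih =>
    rw [wF_cons, map_mul, ih, val_cons]
    congr 1
    have h : ∀ c : Bool, Phi (PresentedGroup.of c : TF) = genImg c := by
      intro c
      cases c
      · exact Phi_A
      · exact Phi_B
    unfold lt1
    split_ifs
    · exact h _
    · rw [map_inv, h]

lemma exists_wF (g : TF) : ∃ w : W, wF w = g := by
  have hmem : g ∈ Subgroup.closure {gA, gB} := by rw [closure_TF]; trivial
  induction hmem using Subgroup.closure_induction with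
  | mem x hx =>
    rcases hx with rfl | hx
    · exact ⟨[(true, false)], by simp [wF]; rfl⟩
    · rw [Set.mem_singleton_iff.1 hx]
      exact ⟨[(true, true)], by simp [wF]; rfl⟩
  | one => exact ⟨[], rfl⟩
  | mul x y _ _ h1 h2 =>
    obtain ⟨u, rfl⟩ := h1
    obtain ⟨v, rfl⟩ := h2
    exact ⟨u ++ v, wF_append u v⟩
  | inv x _ h1 =>
    obtain ⟨u, rfl⟩ := h1
    exact ⟨winv u, wF_winv u⟩

lemma exists_val {f : ℝ ≃o ℝ} (hf : f ∈ GG) : ∃ w : W, val w = f := by
  obtain ⟨g, rfl⟩ := exists_Phi hf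
  obtain ⟨w, rfl⟩ := exists_wF g
  exact ⟨w, (Phi_wF w).symm⟩

/-! ## Action of letters -/

lemma lt1_tf (t : ℝ) : lt1 (true, false) t = t - 1 := by
  show X0 t = t - 1
  unfold X0
  rw [tr_apply]; ring

lemma lt1_ff (t : ℝ) : lt1 (false, false) t = t + 1 := by
  show X0⁻¹ t = t + 1
  unfold X0
  rw [tr_inv, tr_apply]; ring

lemma lt1_tt : lt1 (true, true) = X1 := rfl

lemma lt1_ft : lt1 (false, true) = dbl := by
  show X1⁻¹ = dbl
  unfold X1
  rw [inv_inv]

lemma level_letter (p : Bool × Bool) (M : ℕ) (hM : 1 ≤ M) (a : ℤ) : ∃ M' : ℕ, ∃ a' : ℤ,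
    M ≤ M' + 1 ∧ ∀ t : ℝ, 0 ≤ t → t ≤ 1 → lt1 p ((a + t) / 2 ^ M) = (a' + t) / 2 ^ M' := by
  have h2 : (0 : ℝ) < 2 ^ M := by positivity
  rcases p with ⟨s, c⟩
  cases c
  · cases s
    · refine ⟨M, a + 2 ^ M, by omega, ?_⟩
      intro t _ _
      rw [lt1_ff]; push_cast; field_simp; ring
    · refine ⟨M, a - 2 ^ M, by omega, ?_⟩
      intro t _ _
      rw [lt1_tf]; push_cast; field_simp; ring
  · cases s
    · rw [lt1_ft]
      by_cases h0 : a < 0
      · refine ⟨M, a, by omega, ?_⟩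
        intro t _ ht
        apply dbl_le
        apply div_nonpos_of_nonpos_of_nonneg _ h2.le
        have : (a : ℝ) ≤ -1 := by exact_mod_cast (by omega : a ≤ -1)
        linarith
      · by_cases h1 : a < 2 ^ M
        · refine ⟨M - 1, a, by omega, ?_⟩
          intro t ht ht'
          have ha0 : (0 : ℝ) ≤ a := by exact_mod_cast (by omega : 0 ≤ a)
          have ha1 : (a : ℝ) + 1 ≤ 2 ^ M := by exact_mod_cast (by omega : a + 1 ≤ 2 ^ M)
          rw [dbl_mid (by positivity) (by rw [div_le_one h2]; linarith)]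
          have e1 : (2 : ℝ) ^ M = 2 ^ (M - 1) * 2 := by
            rw [← pow_succ]; congr 1; omega
          rw [e1]; field_simp
        · refine ⟨M, a + 2 ^ M, by omega, ?_⟩
          intro t ht ht'
          have ha1 : (2 : ℝ) ^ M ≤ a := by exact_mod_cast (by omega : (2 : ℤ) ^ M ≤ a)
          rw [dbl_ge (by rw [le_div_iff₀ h2]; linarith)]
          push_cast; field_simp; ring
    · rw [lt1_tt]
      by_cases h0 : a < 0
      · refine ⟨M, a, by omega, ?_⟩
        intro t _ ht
        apply X1_le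
        apply div_nonpos_of_nonpos_of_nonneg _ h2.le
        have : (a : ℝ) ≤ -1 := by exact_mod_cast (by omega : a ≤ -1)
        linarith
      · by_cases h1 : a < 2 * 2 ^ M
        · refine ⟨M + 1, a, by omega, ?_⟩
          intro t ht ht'
          have ha0 : (0 : ℝ) ≤ a := by exact_mod_cast (by omega : 0 ≤ a)
          have ha1 : (a : ℝ) + 1 ≤ 2 * 2 ^ M := by exact_mod_cast (by omega : a + 1 ≤ 2 * 2 ^ M)
          rw [X1_mid (by positivity) (by rw [div_le_iff₀ h2]; linarith), pow_succ]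
          field_simp
        · refine ⟨M, a - 2 ^ M, by omega, ?_⟩
          intro t ht ht'
          have ha1 : 2 * (2 : ℝ) ^ M ≤ a := by exact_mod_cast (by omega : 2 * (2 : ℤ) ^ M ≤ a)
          rw [X1_ge (by rw [le_div_iff₀ h2]; linarith)]
          push_cast; field_simp; ring

/-- A word of length at most `N` maps every cell of level `N` affinely to a standard dyadic
interval. -/
theorem level (w : W) (N : ℕ) (h : w.length ≤ N) (a : ℤ) : ∃ M : ℕ, ∃ a' : ℤ, N ≤ M + w.length ∧
    ∀ t : ℝ, 0 ≤ t → t ≤ 1 → val w ((a + t) / 2 ^ N) = (a' + t) / 2 ^ M := by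
  induction w with
  | nil => exact ⟨N, a, by simp, fun t _ _ => rfl⟩
  | cons p w ih =>
    rw [List.length_cons] at h
    obtain ⟨M, a', hM, h1⟩ := ih (by omega)
    obtain ⟨M', a'', hM', h2⟩ := level_letter p M (by omega) a'
    refine ⟨M', a'', by rw [List.length_cons]; omega, ?_⟩
    intro t ht ht'
    rw [val_cons, mul_apply', h1 t ht ht', h2 t ht ht']

/-- The cells of a word. -/
def KW (N : ℕ) (u v : ℝ) : Prop := ∃ a : ℤ, u = a / 2 ^ N ∧ v = (a + 1) / 2 ^ N

lemma Dy_div (a : ℤ) (N : ℕ) : (a : ℝ) / 2 ^ N ∈ Dy := by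
  have : (a : ℝ) / 2 ^ N = a * 2 ^ (-(N : ℤ)) := by
    rw [zpow_neg, zpow_natCast]; rfl
  rw [this]
  exact Dy.mul_mem (Dy_int a) (Dy_zpow _)

lemma cell_affine (w : W) (N : ℕ) (h : w.length ≤ N) (a : ℤ) : ∃ σ β : ℝ,
    ∀ t, (a : ℝ) / 2 ^ N ≤ t → t ≤ (a + 1) / 2 ^ N → val w t = σ * t + β := by
  obtain ⟨M, a', _, h1⟩ := level w N h a
  have h2 : (0 : ℝ) < 2 ^ N := by positivity
  have h3 : (0 : ℝ) < 2 ^ M := by positivity
  refine ⟨2 ^ N / 2 ^ M, (a' - a) / 2 ^ M, ?_⟩
  intro t ht ht'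
  have e1 : t = (a + (t * 2 ^ N - a)) / 2 ^ N := by field_simp; ring
  rw [div_le_iff₀ h2] at ht
  rw [le_div_iff₀ h2] at ht'
  have := h1 (t * 2 ^ N - a) (by linarith) (by linarith)
  rw [← e1] at this
  rw [this]; field_simp; ring

lemma exists_cell (N : ℕ) (t : ℝ) : ∃ a : ℤ, (a : ℝ) / 2 ^ N ≤ t ∧ t < (a + 1) / 2 ^ N := by
  have h2 : (0 : ℝ) < 2 ^ N := by positivity
  refine ⟨⌊t * 2 ^ N⌋, ?_, ?_⟩
  · rw [div_le_iff₀ h2]; exact Int.floor_le _
  · rw [lt_div_iff₀ h2]; exact Int.lt_floor_add_one _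

/-- Two-adic arithmetic: a dyadic number with an odd denominator is an integer. -/
lemma int_of_odd_mul {t : ℝ} (ht : t ∈ Dy) {d : ℕ} (hd : 1 ≤ d) {r : ℤ}
    (h : t * (2 ^ d - 1) = r) : ∃ m : ℤ, t = m := by
  obtain ⟨n, x, hx⟩ := ht
  have h2 : (0 : ℝ) < 2 ^ n := by positivity
  have e1 : (x : ℝ) * (2 ^ d - 1) = r * 2 ^ n := by rw [← hx, ← h]; ring
  have e2 : x * (2 ^ d - 1) = r * 2 ^ n := by exact_mod_cast e1
  have hc : IsCoprime (2 : ℤ) (2 ^ d - 1) := by
    refine ⟨2 ^ (d - 1), -1, ?_⟩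
    have : (2 : ℤ) ^ d = 2 ^ (d - 1) * 2 := by rw [← pow_succ]; congr 1; omega
    rw [this]; ring
  have hdvd : (2 : ℤ) ^ n ∣ x := by
    have h3 : (2 : ℤ) ^ n ∣ x * (2 ^ d - 1) := ⟨r, by rw [e2]; ring⟩
    exact (hc.pow_left).dvd_of_dvd_mul_right h3
  obtain ⟨m, hm⟩ := hdvd
  refine ⟨m, ?_⟩
  have : t * 2 ^ n = m * 2 ^ n := by rw [hx, hm]; push_cast; ring
  exact mul_right_cancel₀ h2.ne' this

/-- Dyadic fixed points are visible on the grid. -/
theorem clu_of_grid (w : W) (N : ℕ) (h : w.length ≤ N)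
    (hg : ∀ a : ℤ, val w ((a : ℝ) / 2 ^ N) ≠ (a : ℝ) / 2 ^ N) : Clu (val w) := by
  intro q hq hfix
  have h2 : (0 : ℝ) < 2 ^ N := by positivity
  obtain ⟨a, ha1, ha2⟩ := exists_cell N q
  obtain ⟨M, a', _, h1⟩ := level w N h a
  have h3 : (0 : ℝ) < 2 ^ M := by positivity
  obtain ⟨t, ht⟩ : ∃ t : ℝ, t = q * 2 ^ N - a := ⟨_, rfl⟩
  rw [div_le_iff₀ h2] at ha1
  rw [lt_div_iff₀ h2] at ha2
  have ht0 : 0 ≤ t := by linarith
  have ht1 : t < 1 := by linarith
  have hqt : q = (a + t) / 2 ^ N := by rw [ht]; field_simp; ring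
  have htD : t ∈ Dy := by
    rw [ht]
    refine Dy.sub_mem (Dy.mul_mem hq ?_) (Dy_int a)
    have := Dy_zpow (N : ℤ)
    rwa [zpow_natCast] at this
  have e1 := h1 t ht0 ht1.le
  rw [← hqt, hfix, hqt] at e1
  rw [div_eq_div_iff h2.ne' h3.ne'] at e1
  -- endpoints are images of endpoints
  have hend : ∀ x : ℤ, ((a : ℝ) + x) * 2 ^ M = (a' + x) * 2 ^ N → 0 ≤ x → x ≤ 1 → False := by
    intro x hx hx0 hx1
    apply hg (a + x)
    have hx0' : (0 : ℝ) ≤ x := by exact_mod_cast hx0
    have hx1' : (x : ℝ) ≤ 1 := by exact_mod_cast hx1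
    push_cast
    rw [h1 x hx0' hx1', div_eq_div_iff h3.ne' h2.ne']
    exact hx.symm
  rcases lt_trichotomy M N with hMN | hMN | hMN
  · obtain ⟨d, rfl⟩ := Nat.exists_eq_add_of_lt hMN
    have e2 : t * (2 ^ (d + 1) - 1) = ((a - a' * 2 ^ (d + 1) : ℤ) : ℝ) := by
      push_cast
      have e3 : (2 : ℝ) ^ (M + d + 1) = 2 ^ M * 2 ^ (d + 1) := by rw [← pow_add, add_assoc]
      rw [e3] at e1
      have e4 : 2 ^ M * (t * (2 ^ (d + 1) - 1)) = 2 ^ M * ((a : ℝ) - a' * 2 ^ (d + 1)) := by
        linear_combination -e1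
      exact mul_left_cancel₀ h3.ne' e4
    obtain ⟨m, hm⟩ := int_of_odd_mul htD (by omega) e2
    have hm0 : m = 0 := by
      rw [hm] at ht0 ht1
      have h5 : (0 : ℤ) ≤ m := by exact_mod_cast ht0
      have h6 : m < 1 := by exact_mod_cast ht1
      omega
    exact hend m (by rw [← hm]; exact e1) (by omega) (by omega)
  · subst hMN
    have e2 : (a : ℝ) = a' := by
      have := mul_right_cancel₀ h3.ne' e1; linarith
    exact hend 0 (by rw [e2]) le_rfl zero_le_one
  · obtain ⟨d, rfl⟩ := Nat.exists_eq_add_of_lt hMN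
    have e2 : t * (2 ^ (d + 1) - 1) = ((a' - a * 2 ^ (d + 1) : ℤ) : ℝ) := by
      push_cast
      have e3 : (2 : ℝ) ^ (N + d + 1) = 2 ^ N * 2 ^ (d + 1) := by rw [← pow_add, add_assoc]
      rw [e3] at e1
      have e4 : 2 ^ N * (t * (2 ^ (d + 1) - 1)) = 2 ^ N * ((a' : ℝ) - a * 2 ^ (d + 1)) := by
        linear_combination e1
      exact mul_left_cancel₀ h2.ne' e4
    obtain ⟨m, hm⟩ := int_of_odd_mul htD (by omega) e2
    have hm0 : m = 0 := by
      rw [hm] at ht0 ht1
      have h5 : (0 : ℤ) ≤ m := by exact_mod_cast ht0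
      have h6 : m < 1 := by exact_mod_cast ht1
      omega
    exact hend m (by rw [← hm]; exact e1) (by omega) (by omega)

/-! ## Behaviour near the ends -/

/-- Translation number at `-∞` of a word. -/
def bw (w : W) : ℤ := (w.count (false, false) : ℤ) - w.count (true, false)

/-- Translation number at `+∞` of a word. -/
def tw (w : W) : ℤ := (w.countP (fun p => !p.1) : ℤ) - w.countP (fun p => p.1)

lemma bw_cons (p : Bool × Bool) (w : W) : bw (p :: w) =
    (if p = (false, false) then 1 else if p = (true, false) then -1 else 0) + bw w := by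
  unfold bw
  rw [List.count_cons, List.count_cons]
  rcases p with ⟨s, c⟩
  cases s <;> cases c <;> simp <;> ring

lemma tw_cons (p : Bool × Bool) (w : W) : tw (p :: w) = (if p.1 then -1 else 1) + tw w := by
  unfold tw
  rw [List.countP_cons, List.countP_cons]
  rcases p with ⟨s, c⟩
  cases s <;> simp <;> ring

lemma val_low (w : W) : ∀ t : ℝ, t ≤ -(w.length : ℝ) → val w t = t + bw w ∧
    val w t ≤ t + w.length := by
  induction w with
  | nil => intro t _; simp [val_nil, bw]
  | cons p w ih =>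
    intro t ht
    rw [List.length_cons] at ht ⊢
    push_cast at ht ⊢
    obtain ⟨h1, h2⟩ := ih t (by linarith)
    rw [val_cons, mul_apply', bw_cons]
    have h3 : val w t ≤ -1 := by linarith
    rcases p with ⟨s, c⟩
    cases s <;> cases c
    · rw [lt1_ff]
      refine ⟨by simp; rw [h1]; ring, by linarith⟩
    · rw [lt1_ft, dbl_le (by linarith)]
      refine ⟨by simp; exact h1, by linarith⟩
    · rw [lt1_tf]
      refine ⟨by simp; rw [h1]; ring, by linarith⟩
    · rw [lt1_tt, X1_le (by linarith)]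
      refine ⟨by simp; exact h1, by linarith⟩

lemma val_high (w : W) : ∀ t : ℝ, (w.length : ℝ) + 2 ≤ t → val w t = t + tw w ∧
    t - w.length ≤ val w t := by
  induction w with
  | nil => intro t _; simp [val_nil, tw]
  | cons p w ih =>
    intro t ht
    rw [List.length_cons] at ht ⊢
    push_cast at ht ⊢
    obtain ⟨h1, h2⟩ := ih t (by linarith)
    rw [val_cons, mul_apply', tw_cons]
    have h3 : 3 ≤ val w t := by linarith
    rcases p with ⟨s, c⟩
    cases s <;> cases c
    · rw [lt1_ff]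
      refine ⟨by simp; rw [h1]; ring, by linarith⟩
    · rw [lt1_ft, dbl_ge (by linarith)]
      refine ⟨by simp; rw [h1]; ring, by linarith⟩
    · rw [lt1_tf]
      refine ⟨by simp; rw [h1]; ring, by linarith⟩
    · rw [lt1_tt, X1_ge (by linarith)]
      refine ⟨by simp; rw [h1]; ring, by linarith⟩

lemma bt_val (w : W) : bt (val w) = bw w := by
  apply bt_eq
  unfold EndBot
  filter_upwards [eventually_le_atBot (-(w.length : ℝ))] with t ht
  exact (val_low w t ht).1

lemma tp_val (w : W) : tp (val w) = tw w := by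
  apply tp_eq
  unfold EndTop
  filter_upwards [eventually_ge_atTop ((w.length : ℝ) + 2)] with t ht
  exact (val_high w t ht).1

lemma cells_KW (w : W) (N : ℕ) (h : w.length ≤ N) :
    Cells (val w) (KW N) (fun x => (N : ℝ) + 2 ≤ x) where
  aff := by
    rintro u v ⟨a, rfl, rfl⟩
    have h2 : (0 : ℝ) < 2 ^ N := by positivity
    refine ⟨by rw [div_lt_div_iff_of_pos_right h2]; linarith, Dy_div a N, ?_, cell_affine w N h a⟩
    have := Dy_div (a + 1) N
    push_cast at this; exact this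
  ex := by
    intro q hq
    obtain ⟨a, h1, h2⟩ := exists_cell N q
    refine ⟨_, _, ⟨a, rfl, rfl⟩, ?_, h2⟩
    rcases h1.lt_or_eq with h | h
    · exact h
    · exact absurd (h ▸ Dy_div a N) hq
  zt := by
    intro x hx
    have hN : (w.length : ℝ) ≤ N := by exact_mod_cast h
    exact ⟨tw w, fun t ht => (val_high w t (by linarith)).1⟩
  zex := ⟨(N : ℝ) + 2, fun x hx => hx⟩

/-! ## Statements about all points from the grid -/

/-- A linear inequality between the grid points and their images propagates. -/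
lemma grid_ge (w : W) (N : ℕ) (h : w.length ≤ N) {u v : ℝ} (a₀ a₁ : ℤ)
    (hu : (a₀ : ℝ) / 2 ^ N ≤ u) (hv : v ≤ (a₁ : ℝ) / 2 ^ N)
    (hg : ∀ a : ℤ, a₀ ≤ a → a ≤ a₁ → (a : ℝ) / 2 ^ N ≤ val w (a / 2 ^ N)) :
    ∀ t, u ≤ t → t ≤ v → t ≤ val w t := by
  intro t h1 h2
  have h3 : (0 : ℝ) < 2 ^ N := by positivity
  obtain ⟨a, ha1, ha2⟩ := exists_cell N t
  have ha0 : a₀ ≤ a := by
    have : (a₀ : ℝ) / 2 ^ N < (a + 1) / 2 ^ N := by linarith
    rw [div_lt_div_iff_of_pos_right h3] at this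
    have h4 : a₀ < a + 1 := by exact_mod_cast this
    omega
  have ha' : a ≤ a₁ := by
    have : (a : ℝ) / 2 ^ N ≤ a₁ / 2 ^ N := by linarith
    rw [div_le_div_iff_of_pos_right h3] at this
    exact_mod_cast this
  rcases ha'.lt_or_eq with h5 | h5
  · obtain ⟨σ, β, hσ⟩ := cell_affine w N h a
    have k1 := hg a ha0 ha'
    have k2 := hg (a + 1) (by omega) (by omega)
    push_cast at k2
    have hlt : (a : ℝ) / 2 ^ N < (a + 1) / 2 ^ N := by
      rw [div_lt_div_iff_of_pos_right h3]; linarith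
    rw [hσ _ le_rfl hlt.le] at k1
    rw [hσ _ hlt.le le_rfl] at k2
    rw [hσ t ha1 ha2.le]
    -- convexity
    by_contra hcon
    push Not at hcon
    rcases le_total σ 1 with h6 | h6
    · nlinarith
    · nlinarith
  · subst h5
    have : t = a / 2 ^ N := le_antisymm (h2.trans hv) ha1
    rw [this]
    exact hg a ha0 ha'

lemma grid_gt (w : W) (N : ℕ) (h : w.length ≤ N) {u v : ℝ} (a₀ a₁ : ℤ)
    (hu : (a₀ : ℝ) / 2 ^ N ≤ u) (hv : v ≤ (a₁ : ℝ) / 2 ^ N)
    (hg : ∀ a : ℤ, a₀ ≤ a → a ≤ a₁ → (a : ℝ) / 2 ^ N < val w (a / 2 ^ N)) :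
    ∀ t, u ≤ t → t ≤ v → t < val w t := by
  intro t h1 h2
  have h3 : (0 : ℝ) < 2 ^ N := by positivity
  obtain ⟨a, ha1, ha2⟩ := exists_cell N t
  have ha0 : a₀ ≤ a := by
    have : (a₀ : ℝ) / 2 ^ N < (a + 1) / 2 ^ N := by linarith
    rw [div_lt_div_iff_of_pos_right h3] at this
    have h4 : a₀ < a + 1 := by exact_mod_cast this
    omega
  have ha' : a ≤ a₁ := by
    have : (a : ℝ) / 2 ^ N ≤ a₁ / 2 ^ N := by linarith
    rw [div_le_div_iff_of_pos_right h3] at this
    exact_mod_cast this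
  rcases ha'.lt_or_eq with h5 | h5
  · obtain ⟨σ, β, hσ⟩ := cell_affine w N h a
    have k1 := hg a ha0 ha'
    have k2 := hg (a + 1) (by omega) (by omega)
    push_cast at k2
    have hlt : (a : ℝ) / 2 ^ N < (a + 1) / 2 ^ N := by
      rw [div_lt_div_iff_of_pos_right h3]; linarith
    rw [hσ _ le_rfl hlt.le] at k1
    rw [hσ _ hlt.le le_rfl] at k2
    rw [hσ t ha1 ha2.le]
    by_contra hcon
    push Not at hcon
    rcases le_total σ 1 with h6 | h6
    · nlinarith
    · nlinarith
  · subst h5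
    have : t = a / 2 ^ N := le_antisymm (h2.trans hv) ha1
    rw [this]
    exact hg a ha0 ha'

/-- Everywhere at least the identity: finite criterion. -/
lemma ge_iff_grid (w : W) : (∀ t, t ≤ val w t) ↔
    ∀ a : ℤ, -((w.length : ℤ) * 2 ^ w.length) ≤ a → a ≤ (w.length + 2) * 2 ^ w.length →
      (a : ℝ) / 2 ^ w.length ≤ val w (a / 2 ^ w.length) := by
  constructor
  · intro h a _ _; exact h _
  · intro h t
    set n := w.length with hn
    have h3 : (0 : ℝ) < 2 ^ n := by positivity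
    have e1 : ((-((n : ℤ) * 2 ^ n) : ℤ) : ℝ) / 2 ^ n = -(n : ℝ) := by push_cast; field_simp
    have e2 : ((((n : ℤ) + 2) * 2 ^ n : ℤ) : ℝ) / 2 ^ n = (n : ℝ) + 2 := by push_cast; field_simp
    have hpos : (0 : ℤ) < 2 ^ n := by positivity
    rcases le_total t (-(n : ℝ)) with h1 | h1
    · have k := h _ le_rfl (by nlinarith)
      rw [e1, (val_low w _ le_rfl).1] at k
      rw [(val_low w t h1).1]
      linarith
    rcases le_total ((n : ℝ) + 2) t with h2 | h2
    · have k := h _ (by nlinarith) le_rfl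
      rw [e2, (val_high w _ le_rfl).1] at k
      rw [(val_high w t h2).1]
      linarith
    · exact grid_ge w n le_rfl _ _ e1.le e2.ge (fun a ha ha' => h a ha ha') t h1 h2

/-- No dyadic fixed points: finite criterion. -/
lemma clu_iff_grid (w : W) : Clu (val w) ↔
    ∀ a : ℤ, -((w.length : ℤ) * 2 ^ w.length) ≤ a → a ≤ (w.length + 2) * 2 ^ w.length →
      val w ((a : ℝ) / 2 ^ w.length) ≠ (a : ℝ) / 2 ^ w.length := by
  constructor
  · intro h a _ _; exact h _ (Dy_div a _)
  · intro h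
    apply clu_of_grid w w.length le_rfl
    intro a
    set n := w.length with hn
    have h3 : (0 : ℝ) < 2 ^ n := by positivity
    have e1 : ((-((n : ℤ) * 2 ^ n) : ℤ) : ℝ) / 2 ^ n = -(n : ℝ) := by push_cast; field_simp
    have e2 : ((((n : ℤ) + 2) * 2 ^ n : ℤ) : ℝ) / 2 ^ n = (n : ℝ) + 2 := by push_cast; field_simp
    have hpos : (0 : ℤ) < 2 ^ n := by positivity
    rcases lt_or_ge a (-((n : ℤ) * 2 ^ n)) with h1 | h1
    · have h4 : (a : ℝ) / 2 ^ n ≤ -(n : ℝ) := by
        rw [← e1, div_le_div_iff_of_pos_right h3]; exact_mod_cast h1.le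
      have k := h _ le_rfl (by nlinarith)
      rw [e1, (val_low w _ le_rfl).1] at k
      rw [(val_low w _ h4).1]
      intro hcon
      apply k; linarith
    rcases lt_or_ge (((n : ℤ) + 2) * 2 ^ n) a with h2 | h2
    · have h4 : (n : ℝ) + 2 ≤ (a : ℝ) / 2 ^ n := by
        rw [← e2, div_le_div_iff_of_pos_right h3]; exact_mod_cast h2.le
      have k := h _ (by nlinarith) le_rfl
      rw [e2, (val_high w _ le_rfl).1] at k
      rw [(val_high w _ h4).1]
      intro hcon
      apply k; linarith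
    · exact h a h1 h2

end Pool.Agent.Lib_helper30
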