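import Pool.Agent.Lib_helper30.PrLem

set_option autoImplicit false

namespace Pool.Agent.Lib_helper30

open Filter Topology Set

section
variable {α β γ : Type*} [Primcodable α] [Primcodable β] [Primcodable γ]

lemma pr_eq {f g : α → β} (hf : Primrec f) (hg : Primrec g) : PrimrecPred (fun a => f a = g a) := by
  classical
  exact Primrec.eq.comp hf hg

lemma pr_mem {f : α → List β} {g : α → β} (hf : Primrec f) (hg : Primrec g) :
    PrimrecPred (fun a => g a ∈ f a) := by
  classical
  have h1 : PrimrecRel (fun (L : List β) (b : β) => ∃ a ∈ L, a = b) :=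
    PrimrecRel.exists_mem_list Primrec.eq
  exact (h1.comp hf hg).of_eq (fun a => by simp)

lemma pr_all {f : α → List β} {p : β → α → Prop} (hf : Primrec f) (hp : PrimrecRel p) :
    PrimrecPred (fun a => ∀ b ∈ f a, p b a) :=
  (PrimrecRel.forall_mem_list hp).comp hf Primrec.id

lemma pr_exl {f : α → List β} {p : β → α → Prop} (hf : Primrec f) (hp : PrimrecRel p) :
    PrimrecPred (fun a => ∃ b ∈ f a, p b a) :=
  (PrimrecRel.exists_mem_list hp).comp hf Primrec.id

end

/-- All choices of one element in each list. -/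
def choices {β : Type*} (Ss : List (List β)) : List (List β) :=
  Ss.foldr (fun S acc => S.flatMap (fun s => acc.map (fun v => s :: v))) [[]]

lemma choices_nil {β : Type*} : choices ([] : List (List β)) = [[]] := rfl

lemma choices_cons {β : Type*} (S : List β) (Ss : List (List β)) :
    choices (S :: Ss) = S.flatMap (fun s => (choices Ss).map (fun v => s :: v)) := rfl

lemma mem_choices {β : Type*} {Ss : List (List β)} : ∀ {v : List β},
    v ∈ choices Ss ↔ List.Forall₂ (fun s S => s ∈ S) v Ss := by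
  induction Ss with
  | nil =>
    intro v
    rw [choices_nil, List.mem_singleton]
    constructor
    · rintro rfl; exact List.Forall₂.nil
    · intro h; cases h; rfl
  | cons S Ss ih =>
    intro v
    rw [choices_cons]
    simp only [List.mem_flatMap, List.mem_map]
    constructor
    · rintro ⟨s, hs, u, hu, rfl⟩
      exact List.Forall₂.cons hs (ih.1 hu)
    · intro h
      cases h with
      | cons h1 h2 => exact ⟨_, h1, _, ih.2 h2, rfl⟩

section
variable {α β : Type*} [Primcodable α] [Primcodable β]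

lemma pr_choices {f : α → List (List β)} (hf : Primrec f) :
    Primrec (fun a => choices (f a)) := by
  unfold choices
  have h1 : Primrec (fun x : ((α × (List β × List (List β))) × β) × List β => x.1.2 :: x.2) :=
    Primrec.list_cons.comp (Primrec.snd.comp Primrec.fst) Primrec.snd
  have h2 : Primrec (fun x : (α × (List β × List (List β))) × β =>
      x.1.2.2.map (fun v => x.2 :: v)) :=
    Primrec.list_map (Primrec.snd.comp (Primrec.snd.comp Primrec.fst)) h1.to₂
  have h : Primrec₂ (fun (_ : α) (p : List β × List (List β)) =>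
      p.1.flatMap (fun s => p.2.map (fun v => s :: v))) :=
    Primrec.list_flatMap (Primrec.fst.comp Primrec.snd) h2.to₂
  exact Primrec.list_foldr hf (Primrec.const ([[]] : List (List β))) h

end

/-- Pairs of words. -/
abbrev SL : Type := List (W × W)

/-- Join of two splitting lists. -/
def joinCS (p r : W) (S T : SL) : SL :=
  (p, r) :: (S.map (fun s => (s.1, catw s.2 r)) ++ T.map (fun s => (catw p s.1, s.2)))

lemma pr_joinCS {α : Type*} [Primcodable α] {p r : α → W} {S T : α → SL} (hp : Primrec p)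
    (hr : Primrec r) (hS : Primrec S) (hT : Primrec T) :
    Primrec (fun a => joinCS (p a) (r a) (S a) (T a)) := by
  have k1 : Primrec (fun y : α × (W × W) => (y.2.1, catw y.2.2 (r y.1))) :=
    Primrec.pair (Primrec.fst.comp Primrec.snd)
      (pr_catw (Primrec.snd.comp Primrec.snd) (hr.comp Primrec.fst))
  have k2 : Primrec (fun y : α × (W × W) => (catw (p y.1) y.2.1, y.2.2)) :=
    Primrec.pair (pr_catw (hp.comp Primrec.fst) (Primrec.fst.comp Primrec.snd))
      (Primrec.snd.comp Primrec.snd)
  have m1 : Primrec (fun a => (S a).map (fun s => (s.1, catw s.2 (r a)))) :=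
    Primrec.list_map hS k1.to₂
  have m2 : Primrec (fun a => (T a).map (fun s => (catw (p a) s.1, s.2))) :=
    Primrec.list_map hT k2.to₂
  exact Primrec.list_cons.comp (Primrec.pair hp hr) (pr_append m1 m2)

/-- Steps for complete splitting lists. -/
def StepCS (x : W × SL) (ys : List (W × SL)) : Prop :=
  (Clu (val x.1) ∧ x.2 = []) ∨
  (val x.1 = 1 ∧ x.2 = [([], [])]) ∨
  (∃ z : (W × SL) × (W × SL), GCw x.1 (catw z.1.1 z.2.1) ∧
     x.2 = joinCS z.1.1 z.2.1 z.1.2 z.2.2 ∧ z.1 ∈ ys ∧ z.2 ∈ ys)

/-- Complete splitting list of a word. -/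
def CS (x : W × SL) : Prop := Der StepCS x

lemma CS_valid {x : W × SL} (h : CS x) : ∀ s ∈ x.2, GC (val x.1) (cat (val s.1) (val s.2)) := by
  induction h with
  | mk x ys h _ ih =>
    rcases h with ⟨_, h⟩ | ⟨h1, h⟩ | ⟨z, hz, h, hy1, hy2⟩
    · rw [h]; intro s hs; cases hs
    · rw [h]
      intro s hs
      rw [List.mem_singleton.1 hs, h1, val_nil, cat_one]
      exact GC.refl 1
    · rw [GCw_iff, val_catw] at hz
      rw [h]
      unfold joinCS
      intro s hs
      rcases List.mem_cons.1 hs with rfl | hs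
      · exact hz
      · rcases List.mem_append.1 hs with hs | hs
        · obtain ⟨s', hs', rfl⟩ := List.mem_map.1 hs
          have := ih _ hy1 s' hs'
          simp only [val_catw]
          exact (hz.trans (GC.cat this (GC.refl _))).trans (GC_assoc _ _ _)
        · obtain ⟨s', hs', rfl⟩ := List.mem_map.1 hs
          have := ih _ hy2 s' hs'
          simp only [val_catw]
          exact (hz.trans (GC.cat (GC.refl _) this)).trans (GC_assoc _ _ _).symm

lemma CS_complete {x : W × SL} (h : CS x) : ∀ b₁ b₂ : ℝ ≃o ℝ,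
    GC (val x.1) (cat b₁ b₂) → ∃ s ∈ x.2, GC (val s.1) b₁ ∧ GC (val s.2) b₂ := by
  induction h with
  | mk x ys h _ ih =>
    intro b₁ b₂ hb
    rcases h with ⟨h1, h⟩ | ⟨h1, h⟩ | ⟨z, hz, h, hy1, hy2⟩
    · exact absurd (hb.clu h1) (not_clu_cat _ _)
    · rw [h1] at hb
      obtain ⟨rfl, rfl⟩ := split_one hb
      rw [h]
      exact ⟨_, List.mem_singleton_self _, GC.refl 1, GC.refl 1⟩
    · rw [GCw_iff, val_catw] at hz
      rw [h]
      unfold joinCS
      rcases split_cat (val_mem z.1.1) (val_mem z.2.1) (hz.symm.trans hb) with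
        ⟨k1, k2⟩ | ⟨s₁, _, s₂, _, k1, k2, k3⟩ | ⟨s₁, _, s₂, _, k1, k2, k3⟩
      · exact ⟨_, List.mem_cons_self, k1, k2⟩
      · obtain ⟨s, hs, e1, e2⟩ := ih _ hy1 _ _ k1
        refine ⟨(s.1, catw s.2 z.2.1), List.mem_cons_of_mem _ (List.mem_append_left _
          (List.mem_map.2 ⟨s, hs, rfl⟩)), e1.trans k2, ?_⟩
        simp only [val_catw]
        exact (GC.cat e2 (GC.refl _)).trans k3
      · obtain ⟨s, hs, e1, e2⟩ := ih _ hy2 _ _ k1
        refine ⟨(catw z.1.1 s.1, s.2), List.mem_cons_of_mem _ (List.mem_append_right _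
          (List.mem_map.2 ⟨s, hs, rfl⟩)), ?_, e2.trans k3⟩
        simp only [val_catw]
        exact (GC.cat (GC.refl _) e1).trans k2

lemma CS_exists_aux {c : ℝ ≃o ℝ} (h : Decomp c) : ∀ b : W, val b = c → ∃ S, CS (b, S) := by
  induction h with
  | one =>
    intro b hb
    exact ⟨[([], [])], Der.mk _ [] (Or.inr (Or.inl ⟨hb, rfl⟩)) (by simp)⟩
  | clu c hc h =>
    intro b hb
    subst hb
    exact ⟨[], Der.mk _ [] (Or.inl ⟨h, rfl⟩) (by simp)⟩
  | cat c f g hf hg _ _ h ih1 ih2 =>
    intro b hb
    subst hb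
    obtain ⟨p, rfl⟩ := exists_val hf
    obtain ⟨r, rfl⟩ := exists_val hg
    obtain ⟨S, hS⟩ := ih1 p rfl
    obtain ⟨T, hT⟩ := ih2 r rfl
    refine ⟨_, Der.mk _ [(p, S), (r, T)] (Or.inr (Or.inr ⟨((p, S), (r, T)), ?_, rfl, ?_, ?_⟩)) ?_⟩
    · rw [GCw_iff, val_catw]; exact h
    · simp
    · simp
    · intro y hy
      simp only [List.mem_cons, List.not_mem_nil, or_false] at hy
      rcases hy with rfl | rfl
      · exact hS
      · exact hT

lemma CS_exists (b : W) : ∃ S, CS (b, S) := CS_exists_aux (decomp_all (val_mem b)) b rfl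

lemma re_CS : RE CS := by
  refine RE.der ?_
  unfold StepCS
  have X1 : Primrec (fun x : (W × SL) × List (W × SL) => x.1.1) := Primrec.fst.comp Primrec.fst
  have X2 : Primrec (fun x : (W × SL) × List (W × SL) => x.1.2) := Primrec.snd.comp Primrec.fst
  refine RE.or (RE.of_prim ((pr_clu X1).and (pr_eq X2 (Primrec.const [])))) (RE.or
    (RE.of_prim ((pr_one X1).and (pr_eq X2 (Primrec.const [([], [])])))) (RE.exd (RE.and ?_
      (RE.of_prim ?_))))
  · exact re_GCw (X1.comp Primrec.fst) (pr_catw
      (Primrec.fst.comp (Primrec.fst.comp Primrec.snd))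
      (Primrec.fst.comp (Primrec.snd.comp Primrec.snd)))
  · have P : Primrec (fun y : ((W × SL) × List (W × SL)) × ((W × SL) × (W × SL)) => y.2.1.1) :=
      Primrec.fst.comp (Primrec.fst.comp Primrec.snd)
    have R : Primrec (fun y : ((W × SL) × List (W × SL)) × ((W × SL) × (W × SL)) => y.2.2.1) :=
      Primrec.fst.comp (Primrec.snd.comp Primrec.snd)
    have SP : Primrec (fun y : ((W × SL) × List (W × SL)) × ((W × SL) × (W × SL)) => y.2.1.2) :=
      Primrec.snd.comp (Primrec.fst.comp Primrec.snd)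
    have SR : Primrec (fun y : ((W × SL) × List (W × SL)) × ((W × SL) × (W × SL)) => y.2.2.2) :=
      Primrec.snd.comp (Primrec.snd.comp Primrec.snd)
    have Y : Primrec (fun y : ((W × SL) × List (W × SL)) × ((W × SL) × (W × SL)) => y.1.2) :=
      Primrec.snd.comp Primrec.fst
    exact (pr_eq (X2.comp Primrec.fst) (pr_joinCS P R SP SR)).and
      ((pr_mem Y (Primrec.fst.comp Primrec.snd)).and (pr_mem Y (Primrec.snd.comp Primrec.snd)))

end Pool.Agent.Lib_helper30
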