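import Pool.Agent.Lib_helper30.ND

set_option autoImplicit false

namespace Pool.Agent.Lib_helper30

open Filter Topology Set

/-- The good lists of words. -/
def Gdw (bs : List W) : Prop := (∀ b ∈ bs, ¬ HasN (val b)) ∨ bs.length = 1

lemma Gdw_iff {bs : List W} : Gdw bs ↔ Gd (bs.map val) := by
  unfold Gdw Gd
  rw [List.length_map]
  simp

/-- The choice rule. -/
def Rch (ys : List (W × List W)) (z : (W × W) × List (W × SL)) : Prop :=
  ∀ v ∈ choices (z.2.map Prod.snd), (z.1.1, v.map Prod.fst) ∈ ys ∨ (z.1.2, v.map Prod.snd) ∈ ys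

/-- Steps for the problem: the value of a word is not a product of conjugates of given ones. -/
def StepND (x : W × List W) (ys : List (W × List W)) : Prop :=
  (¬ bw x.1 = bw x.2.flatten) ∨ (¬ tw x.1 = tw x.2.flatten) ∨
  (val x.1 = 1 ∧ (∃ b ∈ x.2, ¬ val b = 1) ∧ Gdw x.2) ∨
  (¬ val x.1 = 1 ∧ ∀ b ∈ x.2, val b = 1) ∨
  (HasN (val x.1) ∧ ∀ b ∈ x.2, ¬ HasN (val b)) ∨
  (∃ z : List W × W × List W, x.2 = z.1 ++ z.2.1 :: z.2.2 ∧ val z.2.1 = 1 ∧
    (x.1, z.1 ++ z.2.2) ∈ ys) ∨
  (Clu (val x.1) ∧ ∃ b : W, x.2 = [b] ∧ NConj x.1 b) ∨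
  (Gdw x.2 ∧ ∃ z : (W × W) × List (W × SL), GCw x.1 (catw z.1.1 z.1.2) ∧ z.2.map Prod.fst = x.2 ∧
    (∀ s ∈ z.2, CS s) ∧ Rch ys z)

/-- The value of `x.1` is not a product of conjugates of the values of `x.2`, certified. -/
def ND (x : W × List W) : Prop := Der StepND x

lemma map_val_GG (l : List W) : ∀ c ∈ l.map val, c ∈ GG := by
  intro c hc
  obtain ⟨w, _, rfl⟩ := List.mem_map.1 hc
  exact val_mem w

lemma sum_bt_map (l : List W) : ((l.map val).map bt).sum = bw l.flatten := by
  rw [bw_flatten, List.map_map]
  congr 1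
  exact List.map_congr_left (fun w _ => bt_val w)

lemma sum_tp_map (l : List W) : ((l.map val).map tp).sum = tw l.flatten := by
  rw [tw_flatten, List.map_map]
  congr 1
  exact List.map_congr_left (fun w _ => tp_val w)

lemma Pr_drop {u v : List W} {b : W} (hb : val b = 1) {x : ℝ ≃o ℝ} :
    Pr ((u ++ b :: v).map val) x ↔ Pr ((u ++ v).map val) x := by
  have p : ((u ++ b :: v).map val).Perm ((b :: (u ++ v)).map val) :=
    List.Perm.map _ List.perm_middle
  constructor
  · intro h
    have := Pr_perm p (map_val_GG _) x h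
    rwa [List.map_cons, hb, Pr_one_cons] at this
  · intro h
    refine Pr_perm p.symm (map_val_GG _) x ?_
    rwa [List.map_cons, hb, Pr_one_cons]

/-- Choosing a splitting. -/
lemma choose_split {T : List (W × SL)} (hT : ∀ s ∈ T, CS s) {ps : List ((ℝ ≃o ℝ) × (ℝ ≃o ℝ))}
    (h : List.Forall₂ (fun c p => p.1 ∈ GG ∧ p.2 ∈ GG ∧ GC c (cat p.1 p.2))
      ((T.map Prod.fst).map val) ps) :
    ∃ v ∈ choices (T.map Prod.snd), List.Forall₂ GC ((v.map Prod.fst).map val) (ps.map Prod.fst) ∧
      List.Forall₂ GC ((v.map Prod.snd).map val) (ps.map Prod.snd) := by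
  induction T generalizing ps with
  | nil =>
    cases h
    exact ⟨[], by simp [choices_nil], List.Forall₂.nil, List.Forall₂.nil⟩
  | cons s T ih =>
    rw [List.map_cons, List.map_cons] at h
    cases h with
    | cons h1 h2 =>
      obtain ⟨v, hv, e1, e2⟩ := ih (fun t ht => hT t (List.mem_cons_of_mem _ ht)) h2
      obtain ⟨r, hr, k1, k2⟩ := CS_complete (hT s List.mem_cons_self) _ _ h1.2.2
      refine ⟨r :: v, ?_, List.Forall₂.cons k1 e1, List.Forall₂.cons k2 e2⟩
      rw [mem_choices, List.map_cons]
      exact List.Forall₂.cons hr (mem_choices.1 hv)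

theorem ND_sound {x : W × List W} (h : ND x) : ¬ Pr (x.2.map val) (val x.1) := by
  induction h with
  | mk x ys h _ ih =>
    intro hP
    obtain ⟨_, hb, ht⟩ := Pr_ends (map_val_GG _) hP
    rw [sum_bt_map, bt_val] at hb
    rw [sum_tp_map, tp_val] at ht
    rcases h with h | h | ⟨h1, ⟨b, hb1, hb2⟩, h2⟩ | ⟨h1, h2⟩ | ⟨h1, h2⟩ | ⟨z, h1, h2, h3⟩ |
      ⟨h1, b, h2, h3⟩ | ⟨h1, z, h2, h3, h4, h5⟩
    · exact h hb
    · exact h ht
    · rcases h2 with h2 | h2
      · rw [h1] at hP
        refine Pr_ne_one ?_ ⟨val b, List.mem_map_of_mem hb1, hb2⟩ hP rfl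
        intro c hc
        obtain ⟨w, hw, rfl⟩ := List.mem_map.1 hc
        exact h2 w hw
      · obtain ⟨b', hb'⟩ := List.length_eq_one_iff.1 h2
        rw [hb', List.mem_singleton] at hb1
        subst hb1
        rw [hb', List.map_singleton, Pr_singleton, h1, GC_to_one_iff] at hP
        exact hb2 hP
    · rw [Pr_all_one (by
        intro c hc
        obtain ⟨w, hw, rfl⟩ := List.mem_map.1 hc
        exact h2 w hw)] at hP
      exact h1 hP
    · obtain ⟨t, _, ht⟩ := h1
      refine absurd ht (not_lt.2 (Pr_ge ?_ hP t))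
      intro c hc
      obtain ⟨w, hw, rfl⟩ := List.mem_map.1 hc
      exact h2 w hw
    · refine ih _ h3 ?_
      rw [h1] at hP
      exact (Pr_drop h2).1 hP
    · rw [h2, List.map_singleton, Pr_singleton] at hP
      exact nconj_sound h1 h3 hP.symm
    · rw [GCw_iff, val_catw] at h2
      have hP2 := Pr.of_GC h2 hP
      obtain ⟨ps, k1, k2, k3⟩ := Pr_cat_split (map_val_GG _) (Gdw_iff.1 h1) hP2
      rw [← h3] at k1
      obtain ⟨v, hv, e1, e2⟩ := choose_split h4 k1
      rcases h5 v hv with h | h
      · exact ih _ h ⟨_, e1, k2⟩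
      · exact ih _ h ⟨_, e2, k3⟩

lemma exists_CS_list (bs : List W) : ∃ T : List (W × SL), T.map Prod.fst = bs ∧ ∀ s ∈ T, CS s := by
  induction bs with
  | nil => exact ⟨[], rfl, by simp⟩
  | cons b bs ih =>
    obtain ⟨T, h1, h2⟩ := ih
    obtain ⟨S, hS⟩ := CS_exists b
    refine ⟨(b, S) :: T, by rw [List.map_cons, h1], ?_⟩
    intro s hs
    rcases List.mem_cons.1 hs with rfl | hs
    · exact hS
    · exact h2 s hs

/-- Elements of a choice are valid splittings. -/
lemma choice_valid {T : List (W × SL)} (hT : ∀ s ∈ T, CS s) {v : SL}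
    (hv : v ∈ choices (T.map Prod.snd)) :
    List.Forall₂ (fun c (p : (ℝ ≃o ℝ) × (ℝ ≃o ℝ)) => GC c (cat p.1 p.2)) ((T.map Prod.fst).map val)
      (v.map (fun s => (val s.1, val s.2))) := by
  induction T generalizing v with
  | nil =>
    rw [List.map_nil, choices_nil, List.mem_singleton] at hv
    subst hv
    exact List.Forall₂.nil
  | cons s T ih =>
    rw [mem_choices, List.map_cons] at hv
    cases hv with
    | cons h1 h2 =>
      rw [List.map_cons, List.map_cons, List.map_cons]
      refine List.Forall₂.cons ?_ (ih (fun t ht => hT t (List.mem_cons_of_mem _ ht))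
        (mem_choices.2 h2))
      exact CS_valid (hT s List.mem_cons_self) _ h1

lemma Gd_choice {T : List (W × SL)} (hT : ∀ s ∈ T, CS s) {v : SL}
    (hv : v ∈ choices (T.map Prod.snd)) (hg : Gdw (T.map Prod.fst)) :
    Gdw (v.map Prod.fst) ∧ Gdw (v.map Prod.snd) := by
  have h1 := choice_valid hT hv
  have hl := h1.length_eq
  simp only [List.length_map] at hl
  rcases hg with hg | hg
  · have key : ∀ s ∈ v, ¬ HasN (val s.1) ∧ ¬ HasN (val s.2) := by
      clear hl
      induction T generalizing v with
      | nil =>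
        rw [List.map_nil, choices_nil, List.mem_singleton] at hv
        subst hv
        intro s hs; cases hs
      | cons t T ih =>
        rw [mem_choices, List.map_cons] at hv
        cases hv with
        | cons k1 k2 =>
          rename_i r u
          have hc := CS_valid (hT t List.mem_cons_self) _ k1
          have ht : ¬ HasN (val t.1) := hg t.1 (by simp)
          have hcat : ¬ HasN (cat (val r.1) (val r.2)) := fun h => ht (hc.symm.hasN h)
          intro s hs
          rcases List.mem_cons.1 hs with rfl | hs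
          · constructor
            · rintro ⟨x, _, hx⟩
              apply hcat
              -- the point of `shL`
              have e1 : rf (cat (val s.1) (val s.2)) = cat (rf (val s.2)) (rf (val s.1)) := rf_cat _ _
              have e2 : HasP (rf (cat (val s.1) (val s.2))) := by
                rw [e1]
                refine hasP_of_real (t := hf (-x)) ?_
                rw [cat_ge _ _ (hf_pos _).le, shR_hf, rf_apply, neg_neg]
                exact hf_strictMono (by linarith)
              exact hasP_rf.1 e2
            · rintro ⟨x, _, hx⟩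
              apply hcat
              refine hasN_of_real (t := hf x) ?_
              rw [cat_ge _ _ (hf_pos _).le, shR_hf]
              exact hf_strictMono hx
          · exact ih (fun t ht => hT t (List.mem_cons_of_mem _ ht)) (mem_choices.2 k2)
              (choice_valid (fun t ht => hT t (List.mem_cons_of_mem _ ht)) (mem_choices.2 k2))
              (fun b hb => hg b (List.mem_cons_of_mem _ hb)) s hs
    constructor
    · left
      intro b hb
      obtain ⟨s, hs, rfl⟩ := List.mem_map.1 hb
      exact (key s hs).1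
    · left
      intro b hb
      obtain ⟨s, hs, rfl⟩ := List.mem_map.1 hb
      exact (key s hs).2
  · rw [List.length_map] at hg
    constructor
    · right; rw [List.length_map]; omega
    · right; rw [List.length_map]; omega

lemma Pr_of_choice {T : List (W × SL)} (hT : ∀ s ∈ T, CS s) {v : SL}
    (hv : v ∈ choices (T.map Prod.snd)) {c₁ c₂ : ℝ ≃o ℝ} (h1 : Pr ((v.map Prod.fst).map val) c₁)
    (h2 : Pr ((v.map Prod.snd).map val) c₂) : Pr ((T.map Prod.fst).map val) (cat c₁ c₂) := by
  refine Pr_cat_join (choice_valid hT hv) ?_ ?_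
  · rw [List.map_map] at h1 ⊢
    exact h1
  · rw [List.map_map] at h2 ⊢
    exact h2

/-- Leaves of the derivations. -/
lemma ND.leaf {x : W × List W} (h : StepND x []) : ND x := Der.mk x [] h (by simp)

lemma ND.drop {c : W} {u v : List W} {b : W} (hb : val b = 1) (h : ND (c, u ++ v)) :
    ND (c, u ++ b :: v) := by
  refine Der.mk _ [(c, u ++ v)] ?_ ?_
  · exact Or.inr (Or.inr (Or.inr (Or.inr (Or.inr (Or.inl ⟨(u, b, v), rfl, hb, by simp⟩)))))
  · intro y hy
    rw [List.mem_singleton] at hy
    subst hy
    exact h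

theorem ND_complete_clu {c : W} (hc : Clu (val c)) (n : ℕ) : ∀ bs : List W, bs.length = n →
    Gdw bs → ¬ Pr (bs.map val) (val c) → ND (c, bs) := by
  induction n with
  | zero =>
    intro bs hn hg hP
    refine ND.leaf (Or.inr (Or.inr (Or.inr (Or.inl ⟨?_, ?_⟩))))
    · intro h
      exact hc 0 zero_dy (by show (val c) 0 = 0; rw [show val c = 1 from h]; rfl)
    · rw [List.length_eq_zero_iff] at hn
      subst hn
      intro b hb; cases hb
  | succ n ih =>
    intro bs hn hg hP
    have hc1 : val c ≠ 1 := fun h => hc 0 zero_dy (by rw [h]; rfl)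
    by_cases hb : bw c = bw bs.flatten
    · by_cases ht : tw c = tw bs.flatten
      · by_cases hall : ∀ b ∈ bs, val b = 1
        · exact ND.leaf (Or.inr (Or.inr (Or.inr (Or.inl ⟨hc1, hall⟩))))
        · by_cases hlen : bs.length = 1
          · obtain ⟨b, rfl⟩ := List.length_eq_one_iff.1 hlen
            refine ND.leaf (Or.inr (Or.inr (Or.inr (Or.inr (Or.inr (Or.inr (Or.inl
              ⟨hc, b, rfl, ?_⟩)))))))
            refine nconj_complete hc ?_ ?_ ?_
            · simpa using hb
            · simpa using ht
            · intro h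
              apply hP
              rw [List.map_singleton, Pr_singleton]
              exact h.symm
          · have hge : ∀ b ∈ bs, ¬ HasN (val b) := hg.resolve_right hlen
            by_cases htriv : ∃ b ∈ bs, val b = 1
            · obtain ⟨b, hb1, hb2⟩ := htriv
              obtain ⟨u, v, rfl⟩ := List.append_of_mem hb1
              refine ND.drop hb2 (ih (u ++ v) ?_ ?_ ?_)
              · simp at hn ⊢; omega
              · left
                intro b' hb'
                apply hge
                rcases List.mem_append.1 hb' with h | h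
                · exact List.mem_append_left _ h
                · exact List.mem_append_right _ (List.mem_cons_of_mem _ h)
              · intro h
                exact hP ((Pr_drop hb2).2 h)
            · push Not at htriv
              by_cases hN : HasN (val c)
              · exact ND.leaf (Or.inr (Or.inr (Or.inr (Or.inr (Or.inl ⟨hN, hge⟩)))))
              · exfalso
                apply hP
                match bs, hn, hlen, hge, htriv, hb, ht with
                | a :: b :: l, _, _, hge, htriv, hb, ht =>
                  refine Pr_bump (map_val_GG (a :: b :: l)) ?_ (htriv a (by simp))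
                    (htriv b (by simp)) (val_mem c)
                    (clu_ge_pos (val_mem c) hc (ge_of_not_hasN hN)) ?_ ?_
                  · intro d hd
                    obtain ⟨w, hw, rfl⟩ := List.mem_map.1 (show d ∈ (a :: b :: l).map val from hd)
                    exact hge w hw
                  · have := sum_bt_map (a :: b :: l)
                    rw [← hb] at this
                    rw [bt_val]
                    exact this
                  · have := sum_tp_map (a :: b :: l)
                    rw [← ht] at this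
                    rw [tp_val]
                    exact this
      · exact ND.leaf (Or.inr (Or.inl ht))
    · exact ND.leaf (Or.inl hb)

lemma ND_complete_aux {d : ℝ ≃o ℝ} (hd : Decomp d) : ∀ c : W, val c = d → ∀ bs : List W,
    Gdw bs → ¬ Pr (bs.map val) (val c) → ND (c, bs) := by
  induction hd with
  | one =>
    intro c hc bs hg hP
    refine ND.leaf (Or.inr (Or.inr (Or.inl ⟨hc, ?_, hg⟩)))
    by_contra hcon
    push Not at hcon
    apply hP
    rw [Pr_all_one]
    · exact hc
    · intro b hb
      obtain ⟨w, hw, rfl⟩ := List.mem_map.1 hb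
      exact hcon w hw
  | clu d hd h =>
    intro c hc bs hg hP
    subst hc
    exact ND_complete_clu h _ bs rfl hg hP
  | cat d f g hf hg _ _ h ih1 ih2 =>
    intro c hc bs hgd hP
    subst hc
    obtain ⟨c₁, rfl⟩ := exists_val hf
    obtain ⟨c₂, rfl⟩ := exists_val hg
    obtain ⟨T, rfl, hT⟩ := exists_CS_list bs
    classical
    let ys : List (W × List W) := ((choices (T.map Prod.snd)).map (fun v => (c₁, v.map Prod.fst)) ++
      (choices (T.map Prod.snd)).map (fun v => (c₂, v.map Prod.snd))).filter (fun y => ND y)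
    refine Der.mk _ ys (Or.inr (Or.inr (Or.inr (Or.inr (Or.inr (Or.inr (Or.inr
      ⟨hgd, ((c₁, c₂), T), ?_, rfl, hT, ?_⟩))))))) ?_
    · rw [GCw_iff, val_catw]; exact h
    · intro v hv
      have h2 := Gd_choice hT hv hgd
      by_cases hP1 : Pr ((v.map Prod.fst).map val) (val c₁)
      · right
        have hP2 : ¬ Pr ((v.map Prod.snd).map val) (val c₂) := by
          intro hP2
          apply hP
          exact Pr.of_GC h.symm (Pr_of_choice hT hv hP1 hP2)
        have := ih2 c₂ rfl _ h2.2 hP2
        show (c₂, v.map Prod.snd) ∈ ys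
        refine List.mem_filter.2 ⟨List.mem_append_right _ (List.mem_map.2 ⟨v, hv, rfl⟩), ?_⟩
        simpa using this
      · left
        have := ih1 c₁ rfl _ h2.1 hP1
        show (c₁, v.map Prod.fst) ∈ ys
        refine List.mem_filter.2 ⟨List.mem_append_left _ (List.mem_map.2 ⟨v, hv, rfl⟩), ?_⟩
        simpa using this
    · intro y hy
      exact of_decide_eq_true (List.mem_filter.1 hy).2

theorem ND_iff {c : W} {bs : List W} (hg : Gdw bs) : ND (c, bs) ↔ ¬ Pr (bs.map val) (val c) :=
  ⟨fun h => ND_sound h, fun h => ND_complete_aux (decomp_all (val_mem c)) c rfl bs hg h⟩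

section
variable {α : Type*} [Primcodable α]

lemma pr_hasN_all {f : α → List W} (hf : Primrec f) :
    PrimrecPred (fun a => ∀ b ∈ f a, ¬ HasN (val b)) :=
  pr_all (p := fun b _ => ¬ HasN (val b)) hf (pr_hasN Primrec.fst).not

lemma pr_Gdw {f : α → List W} (hf : Primrec f) : PrimrecPred (fun a => Gdw (f a)) := by
  unfold Gdw
  exact (pr_hasN_all hf).or (pr_eqn (Primrec.list_length.comp hf) (Primrec.const 1))

lemma pr_one_all {f : α → List W} (hf : Primrec f) :
    PrimrecPred (fun a => ∀ b ∈ f a, val b = 1) :=
  pr_all (p := fun b _ => val b = 1) hf (pr_one Primrec.fst)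

lemma pr_one_ex {f : α → List W} (hf : Primrec f) :
    PrimrecPred (fun a => ∃ b ∈ f a, ¬ val b = 1) :=
  pr_exl (p := fun b _ => ¬ val b = 1) hf (pr_one Primrec.fst).not

lemma pr_flatten {f : α → List W} (hf : Primrec f) : Primrec (fun a => (f a).flatten) :=
  Primrec.list_flatten.comp hf

lemma pr_Rch {ys : α → List (W × List W)} {z : α → (W × W) × List (W × SL)} (hy : Primrec ys)
    (hz : Primrec z) : PrimrecPred (fun a => Rch (ys a) (z a)) := by
  have m : Primrec (fun a => (z a).2.map Prod.snd) :=
    Primrec.list_map (Primrec.snd.comp hz) (Primrec.snd.comp Primrec.snd).to₂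
  have f1 : Primrec (fun x : SL × α => x.1.map Prod.fst) :=
    Primrec.list_map Primrec.fst (Primrec.fst.comp Primrec.snd).to₂
  have f2 : Primrec (fun x : SL × α => x.1.map Prod.snd) :=
    Primrec.list_map Primrec.fst (Primrec.snd.comp Primrec.snd).to₂
  unfold Rch
  refine pr_all (p := fun v a => ((z a).1.1, v.map Prod.fst) ∈ ys a ∨
    ((z a).1.2, v.map Prod.snd) ∈ ys a) (pr_choices m) ?_
  exact (pr_mem (hy.comp Primrec.snd) (Primrec.pair
      (Primrec.fst.comp (Primrec.fst.comp (hz.comp Primrec.snd))) f1)).or
    (pr_mem (hy.comp Primrec.snd) (Primrec.pair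
      (Primrec.snd.comp (Primrec.fst.comp (hz.comp Primrec.snd))) f2))

end

lemma re_ND : RE ND := by
  refine RE.der ?_
  unfold StepND
  have X1 : Primrec (fun x : (W × List W) × List (W × List W) => x.1.1) :=
    Primrec.fst.comp Primrec.fst
  have X2 : Primrec (fun x : (W × List W) × List (W × List W) => x.1.2) :=
    Primrec.snd.comp Primrec.fst
  have Y : Primrec (fun x : (W × List W) × List (W × List W) => x.2) := Primrec.snd
  refine RE.or (RE.of_prim (pr_bw_eq X1 (pr_flatten X2)).not)
    (RE.or (RE.of_prim (pr_tw_eq X1 (pr_flatten X2)).not)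
    (RE.or (RE.of_prim ((pr_one X1).and ((pr_one_ex X2).and (pr_Gdw X2))))
    (RE.or (RE.of_prim ((pr_one X1).not.and (pr_one_all X2)))
    (RE.or (RE.of_prim ((pr_hasN X1).and (pr_hasN_all X2)))
    (RE.or (RE.exd (RE.of_prim ?_))
    (RE.or (RE.and (RE.of_prim (pr_clu X1)) (RE.exd (RE.and (RE.of_prim ?_) ?_)))
    (RE.and (RE.of_prim (pr_Gdw X2)) (RE.exd (RE.and ?_ (RE.and (RE.of_prim ?_)
      (RE.and ?_ (RE.of_prim ?_))))))))))))
  · have U : Primrec (fun y : ((W × List W) × List (W × List W)) × (List W × W × List W) =>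
      y.2.1) := Primrec.fst.comp Primrec.snd
    have B : Primrec (fun y : ((W × List W) × List (W × List W)) × (List W × W × List W) =>
      y.2.2.1) := Primrec.fst.comp (Primrec.snd.comp Primrec.snd)
    have V : Primrec (fun y : ((W × List W) × List (W × List W)) × (List W × W × List W) =>
      y.2.2.2) := Primrec.snd.comp (Primrec.snd.comp Primrec.snd)
    exact (pr_eq (X2.comp Primrec.fst) (pr_append U (Primrec.list_cons.comp B V))).and
      ((pr_one B).and (pr_mem (Y.comp Primrec.fst) (Primrec.pair (X1.comp Primrec.fst)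
        (pr_append U V))))
  · exact pr_eq (X2.comp Primrec.fst) (Primrec.list_cons.comp Primrec.snd (Primrec.const []))
  · exact re_nconj (X1.comp Primrec.fst) Primrec.snd
  · exact re_GCw (X1.comp Primrec.fst) (pr_catw (Primrec.fst.comp (Primrec.fst.comp Primrec.snd))
      (Primrec.snd.comp (Primrec.fst.comp Primrec.snd)))
  · exact pr_eq (Primrec.list_map (Primrec.snd.comp Primrec.snd)
      (Primrec.fst.comp Primrec.snd).to₂) (X2.comp Primrec.fst)
  · exact (RE.all_list (re_CS.comp (Primrec.snd (α := Unit)))).comp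
      (Primrec.pair (Primrec.const ()) (Primrec.snd.comp Primrec.snd))
  · exact pr_Rch (Y.comp Primrec.fst) Primrec.snd

end Pool.Agent.Lib_helper30
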