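import Mathlib

/-!
# Pruning and non-backtracking paths

* `prune`: a finite set with more points than lines (for two partitions into lines) contains a
  nonempty subset in which every line has at least two points.
* `path`: a finite nonempty family of invertible matrices in which one can always move by a
  nonzero power of `g` and by a nonzero power of `h` shows that `g`, `h` do not generate freely.
-/

set_option autoImplicit false

namespace Pool.Agent.Lib_helper30.NF

open Finset

lemma imlt {P L : Type*} [DecidableEq P] [DecidableEq L] (S : Finset P) (u : P → L) (p : P)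
    (hp : p ∈ S) (hu : ∀ p' ∈ S, p' ≠ p → u p' ≠ u p) :
    ((S.erase p).image u).card + 1 ≤ (S.image u).card := by
  have h1 : (S.erase p).image u ⊆ (S.image u).erase (u p) := by
    intro y hy
    rw [mem_image] at hy
    obtain ⟨x, hx, rfl⟩ := hy
    rw [mem_erase] at hx
    rw [mem_erase]
    exact ⟨hu x hx.2 hx.1, mem_image_of_mem _ hx.2⟩
  have h2 := card_le_card h1
  have h3 : u p ∈ S.image u := mem_image_of_mem _ hp
  rw [card_erase_of_mem h3] at h2
  have : 0 < (S.image u).card := card_pos.2 ⟨_, h3⟩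
  omega

lemma prune {P LA LB : Type*} [DecidableEq P] [DecidableEq LA] [DecidableEq LB]
    (f : P → LA) (g : P → LB) (S : Finset P)
    (h : (S.image f).card + (S.image g).card < S.card) :
    ∃ T : Finset P, T ⊆ S ∧ T.Nonempty ∧
      (∀ p ∈ T, ∃ p' ∈ T, p' ≠ p ∧ f p' = f p) ∧
      (∀ p ∈ T, ∃ p' ∈ T, p' ≠ p ∧ g p' = g p) := by
  induction S using Finset.strongInduction with
  | H S ih =>
    have key : ∀ (p : P), p ∈ S →
        (((S.erase p).image f).card + ((S.erase p).image g).card + 1 ≤
          (S.image f).card + (S.image g).card) →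
        ∃ T : Finset P, T ⊆ S ∧ T.Nonempty ∧
          (∀ p ∈ T, ∃ p' ∈ T, p' ≠ p ∧ f p' = f p) ∧
          (∀ p ∈ T, ∃ p' ∈ T, p' ≠ p ∧ g p' = g p) := by
      intro p hp hc
      have hcard := Finset.card_erase_of_mem hp
      have hpos : 0 < S.card := card_pos.2 ⟨p, hp⟩
      obtain ⟨T, hT, h1, h2, h3⟩ := ih (S.erase p) (Finset.erase_ssubset hp) (by omega)
      exact ⟨T, hT.trans (Finset.erase_subset _ _), h1, h2, h3⟩
    by_cases h1 : ∀ p ∈ S, ∃ p' ∈ S, p' ≠ p ∧ f p' = f p
    · by_cases h2 : ∀ p ∈ S, ∃ p' ∈ S, p' ≠ p ∧ g p' = g p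
      · exact ⟨S, Subset.rfl, card_pos.1 (by omega), h1, h2⟩
      · push Not at h2
        obtain ⟨p, hp, h3⟩ := h2
        apply key p hp
        have e1 := imlt S g p hp h3
        have e2 := card_le_card (image_subset_image (f := f) (erase_subset p S))
        omega
    · push Not at h1
      obtain ⟨p, hp, h3⟩ := h1
      apply key p hp
      have e1 := imlt S f p hp h3
      have e2 := card_le_card (image_subset_image (f := g) (erase_subset p S))
      omega

/-- the shear `(x, y) ↦ (x + 2 y, y)` -/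
def sA : Equiv.Perm (ℤ × ℤ) where
  toFun v := (v.1 + 2 * v.2, v.2)
  invFun v := (v.1 - 2 * v.2, v.2)
  left_inv v := by ext <;> simp
  right_inv v := by ext <;> simp

/-- the shear `(x, y) ↦ (x, y + 2 x)` -/
def sB : Equiv.Perm (ℤ × ℤ) where
  toFun v := (v.1, v.2 + 2 * v.1)
  invFun v := (v.1, v.2 - 2 * v.1)
  left_inv v := by ext <;> simp
  right_inv v := by ext <;> simp

lemma sA_zpow (n : ℤ) : ∀ v : ℤ × ℤ, (sA ^ n) v = (v.1 + 2 * n * v.2, v.2) := by
  induction n using Int.induction_on with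
  | zero => intro v; simp
  | succ i ih =>
    intro v
    rw [zpow_add_one, Equiv.Perm.mul_apply, ih]
    simp only [sA, Equiv.coe_fn_mk, Prod.mk.injEq, and_true]
    ring
  | pred i ih =>
    intro v
    rw [zpow_sub_one, Equiv.Perm.mul_apply, ih]
    simp only [sA, Equiv.Perm.inv_def, Equiv.coe_fn_symm_mk, Prod.mk.injEq, and_true]
    ring

lemma sB_zpow (n : ℤ) : ∀ v : ℤ × ℤ, (sB ^ n) v = (v.1, v.2 + 2 * n * v.1) := by
  induction n using Int.induction_on with
  | zero => intro v; simp
  | succ i ih =>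
    intro v
    rw [zpow_add_one, Equiv.Perm.mul_apply, ih]
    simp only [sB, Equiv.coe_fn_mk, Prod.mk.injEq, true_and]
    ring
  | pred i ih =>
    intro v
    rw [zpow_sub_one, Equiv.Perm.mul_apply, ih]
    simp only [sB, Equiv.Perm.inv_def, Equiv.coe_fn_symm_mk, Prod.mk.injEq, true_and]
    ring

/-- the auxiliary action on `ℤ²` -/
noncomputable def psi : FreeGroup (Fin 2) →* Equiv.Perm (ℤ × ℤ) := FreeGroup.lift ![sA, sB]

lemma grow {x y n : ℤ} (hn : n ≠ 0) (h : |x| < |y|) : |y| < |x + 2 * n * y| := by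
  have h1 : 1 ≤ |n| := Int.one_le_abs hn
  have h2 : |2 * n * y| ≤ |x + 2 * n * y| + |x| := by
    have := abs_sub_abs_le_abs_sub (2 * n * y) (-x)
    have e : 2 * n * y - -x = x + 2 * n * y := by ring
    rw [e, abs_neg] at this
    linarith
  have h3 : |2 * n * y| = 2 * |n| * |y| := by
    rw [abs_mul, abs_mul]; norm_num
  have h4 : 0 ≤ |y| := abs_nonneg _
  nlinarith

section path

variable {P : Type*} {R : Type*} [CommRing R]

theorem path (T : Finset P) (hne : T.Nonempty)
    (μ : P → Matrix (Fin 2) (Fin 2) R) (hdet : ∀ p ∈ T, (μ p).det = 1)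
    (g h : Matrix.GeneralLinearGroup (Fin 2) R)
    (hg : ∀ p ∈ T, ∃ p' ∈ T, ∃ n : ℤ, n ≠ 0 ∧
      μ p' = ((g ^ n : Matrix.GeneralLinearGroup (Fin 2) R) : Matrix (Fin 2) (Fin 2) R) * μ p)
    (hh : ∀ p ∈ T, ∃ p' ∈ T, ∃ n : ℤ, n ≠ 0 ∧
      μ p' = ((h ^ n : Matrix.GeneralLinearGroup (Fin 2) R) : Matrix (Fin 2) (Fin 2) R) * μ p) :
    ¬ Function.Injective (FreeGroup.lift ![g, h]) := by
  intro hinj
  choose! fA hfA nA hnA hA using hg
  choose! fB hfB nB hnB hB using hh
  obtain ⟨p0, hp0⟩ := hne
  -- the path, two steps at a time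
  let step : P × FreeGroup (Fin 2) → P × FreeGroup (Fin 2) := fun s =>
    (fB (fA s.1), FreeGroup.of 1 ^ nB (fA s.1) * (FreeGroup.of 0 ^ nA s.1 * s.2))
  let s : ℕ → P × FreeGroup (Fin 2) := fun i => step^[i] (p0, 1)
  have hs0 : s 0 = (p0, 1) := rfl
  have hss : ∀ i, s (i + 1) = step (s i) := fun i => Function.iterate_succ_apply' step i _
  have hmem : ∀ i, (s i).1 ∈ T := by
    intro i
    induction i with
    | zero => exact hp0
    | succ i ih => rw [hss]; exact hfB _ (hfA _ ih)
  have hμ : ∀ i, μ (s i).1 =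
      ((FreeGroup.lift ![g, h] (s i).2 : Matrix.GeneralLinearGroup (Fin 2) R) :
        Matrix (Fin 2) (Fin 2) R) * μ p0 := by
    intro i
    induction i with
    | zero => rw [hs0]; simp
    | succ i ih =>
      rw [hss]
      simp only [step]
      rw [hB _ (hfA _ (hmem i)), hA _ (hmem i), ih]
      simp only [map_mul, map_zpow, FreeGroup.lift_apply_of, Matrix.cons_val_zero,
        Matrix.cons_val_one, Units.val_mul, Matrix.mul_assoc]
  have hgrow : ∀ i, |(psi (s i).2 (0, 1)).1| < |(psi (s i).2 (0, 1)).2| ∧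
      |(psi (s i).2 (0, 1)).2| < |(psi (s (i + 1)).2 (0, 1)).2| := by
    have key : ∀ i, |(psi (s i).2 (0, 1)).1| < |(psi (s i).2 (0, 1)).2| →
        |(psi (s (i + 1)).2 (0, 1)).1| < |(psi (s (i + 1)).2 (0, 1)).2| ∧
        |(psi (s i).2 (0, 1)).2| < |(psi (s (i + 1)).2 (0, 1)).2| := by
      intro i hi
      rw [hss]
      simp only [step]
      simp only [map_mul, map_zpow, Equiv.Perm.mul_apply]
      have e0 : psi (FreeGroup.of 0) = sA := by simp [psi]
      have e1 : psi (FreeGroup.of 1) = sB := by simp [psi]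
      rw [e0, e1, sA_zpow, sB_zpow]
      simp only
      set v := psi (s i).2 (0, 1)
      have h1 := grow (hnA _ (hmem i)) hi
      have h2 := grow (hnB _ (hfA _ (hmem i))) h1
      exact ⟨h2, h1.trans h2⟩
    have base : ∀ i, |(psi (s i).2 (0, 1)).1| < |(psi (s i).2 (0, 1)).2| := by
      intro i
      induction i with
      | zero => rw [hs0]; simp
      | succ i ih => exact (key i ih).1
    exact fun i => ⟨base i, (key i (base i)).2⟩
  have hmono : StrictMono (fun i => |(psi (s i).2 (0, 1)).2|) :=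
    strictMono_nat_of_lt_succ fun i => (hgrow i).2
  have hfin : Finite T := inferInstance
  obtain ⟨i, j, hij, he⟩ := Finite.exists_ne_map_eq_of_infinite
    (fun i : ℕ => (⟨(s i).1, hmem i⟩ : T))
  have he' : (s i).1 = (s j).1 := congrArg Subtype.val he
  have h1 := hμ i
  have h2 := hμ j
  rw [he', h2] at h1
  have hunit : IsUnit (μ p0) := by
    rw [Matrix.isUnit_iff_isUnit_det, hdet p0 hp0]
    exact isUnit_one
  have h3 := hunit.mul_right_cancel h1
  have h4 : FreeGroup.lift ![g, h] (s j).2 = FreeGroup.lift ![g, h] (s i).2 := Units.ext h3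
  have h5 := hinj h4
  apply hij
  apply hmono.injective
  simp only [h5]

end path

end Pool.Agent.Lib_helper30.NF
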