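import Mathlib
import Pool.Agent.Lib_helper30.NFPath

/-!
# The counting criterion for non-freeness

Let `g = [[1, α], [0, 1]]` and `h = [[1, 0], [β, 1]]` with `α, β` rational, acting on `ℚ²`.
If a finite set `V` of vectors with nonzero coordinates meets fewer `⟨g⟩`-orbits plus
`⟨h⟩`-orbits than it has elements, then `g`, `h` do not generate a free group freely.
-/

set_option autoImplicit false

namespace Pool.Agent.Lib_helper30.NF

open Finset

section

variable {F : Type*} [Field F]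

lemma upper_zpow (g : Matrix.GeneralLinearGroup (Fin 2) F) (α : F)
    (hg : (g : Matrix (Fin 2) (Fin 2) F) = !![1, α; 0, 1]) (n : ℤ) :
    ((g ^ n : Matrix.GeneralLinearGroup (Fin 2) F) : Matrix (Fin 2) (Fin 2) F) =
      !![1, n * α; 0, 1] := by
  have hinv : ((g⁻¹ : Matrix.GeneralLinearGroup (Fin 2) F) : Matrix (Fin 2) (Fin 2) F) =
      !![1, -α; 0, 1] := by
    have h1 : (g : Matrix (Fin 2) (Fin 2) F) * !![1, -α; 0, 1] = 1 := by
      rw [hg]; simp [Matrix.one_fin_two]
    have h2 : ((g⁻¹ : Matrix.GeneralLinearGroup (Fin 2) F) : Matrix (Fin 2) (Fin 2) F) *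
        (g : Matrix (Fin 2) (Fin 2) F) = 1 := by
      rw [← Units.val_mul]; simp
    calc ((g⁻¹ : Matrix.GeneralLinearGroup (Fin 2) F) : Matrix (Fin 2) (Fin 2) F)
        = _ * ((g : Matrix (Fin 2) (Fin 2) F) * !![1, -α; 0, 1]) := by rw [h1, mul_one]
      _ = !![1, -α; 0, 1] := by rw [← mul_assoc, h2, one_mul]
  induction n using Int.induction_on with
  | zero => simp [Matrix.one_fin_two]
  | succ i ih =>
    rw [zpow_add_one, Units.val_mul, ih, hg]
    simp only [Matrix.mul_fin_two]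
    push_cast
    congr 1
    simp only [mul_one, mul_zero, add_zero, zero_mul, zero_add]
    ring_nf
  | pred i ih =>
    rw [zpow_sub_one, Units.val_mul, ih, hinv]
    simp only [Matrix.mul_fin_two]
    push_cast
    congr 1
    simp only [mul_one, mul_zero, add_zero, zero_mul, zero_add]
    ring_nf

lemma lower_zpow (g : Matrix.GeneralLinearGroup (Fin 2) F) (α : F)
    (hg : (g : Matrix (Fin 2) (Fin 2) F) = !![1, 0; α, 1]) (n : ℤ) :
    ((g ^ n : Matrix.GeneralLinearGroup (Fin 2) F) : Matrix (Fin 2) (Fin 2) F) =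
      !![1, 0; n * α, 1] := by
  have hinv : ((g⁻¹ : Matrix.GeneralLinearGroup (Fin 2) F) : Matrix (Fin 2) (Fin 2) F) =
      !![1, 0; -α, 1] := by
    have h1 : (g : Matrix (Fin 2) (Fin 2) F) * !![1, 0; -α, 1] = 1 := by
      rw [hg]; simp [Matrix.one_fin_two]
    have h2 : ((g⁻¹ : Matrix.GeneralLinearGroup (Fin 2) F) : Matrix (Fin 2) (Fin 2) F) *
        (g : Matrix (Fin 2) (Fin 2) F) = 1 := by
      rw [← Units.val_mul]; simp
    calc ((g⁻¹ : Matrix.GeneralLinearGroup (Fin 2) F) : Matrix (Fin 2) (Fin 2) F)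
        = _ * ((g : Matrix (Fin 2) (Fin 2) F) * !![1, 0; -α, 1]) := by rw [h1, mul_one]
      _ = !![1, 0; -α, 1] := by rw [← mul_assoc, h2, one_mul]
  induction n using Int.induction_on with
  | zero => simp [Matrix.one_fin_two]
  | succ i ih =>
    rw [zpow_add_one, Units.val_mul, ih, hg]
    simp only [Matrix.mul_fin_two]
    push_cast
    congr 1
    simp only [mul_one, mul_zero, add_zero, zero_mul, zero_add]
    ring_nf
  | pred i ih =>
    rw [zpow_sub_one, Units.val_mul, ih, hinv]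
    simp only [Matrix.mul_fin_two]
    push_cast
    congr 1
    simp only [mul_one, mul_zero, add_zero, zero_mul, zero_add]
    ring_nf

/-- the matrix with first column `v` and second column of slope parameter `τ` -/
def mat (F : Type*) [Field F] (v : ℚ × ℚ) (τ : ℚ) : Matrix (Fin 2) (Fin 2) F :=
  !![(v.1 : F), ((v.1 * τ - 1 / v.2 : ℚ) : F); (v.2 : F), ((v.2 * τ : ℚ) : F)]

variable [CharZero F]

lemma mat_det (v : ℚ × ℚ) (hv : v.2 ≠ 0) (τ : ℚ) : (mat F v τ).det = 1 := by
  rw [mat, Matrix.det_fin_two_of]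
  have : v.1 * (v.2 * τ) - (v.1 * τ - 1 / v.2) * v.2 = 1 := by field_simp; ring
  exact_mod_cast this

lemma mat_inj {v v' : ℚ × ℚ} {τ τ' : ℚ} (hv : v.2 ≠ 0) (h : mat F v τ = mat F v' τ') :
    v = v' ∧ τ = τ' := by
  have h00 := congrFun (congrFun h 0) 0
  have h10 := congrFun (congrFun h 1) 0
  have h11 := congrFun (congrFun h 1) 1
  simp only [mat, Matrix.of_apply, Matrix.cons_val', Matrix.cons_val_zero, Matrix.cons_val_one,
    Matrix.cons_val_fin_one] at h00 h10 h11
  have e1 : v.1 = v'.1 := by exact_mod_cast h00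
  have e2 : v.2 = v'.2 := by exact_mod_cast h10
  have e3 : v.2 * τ = v'.2 * τ' := by exact_mod_cast h11
  refine ⟨Prod.ext e1 e2, ?_⟩
  rw [← e2] at e3
  exact mul_left_cancel₀ hv e3

lemma mat_upper (α : ℚ) (n : ℤ) (v : ℚ × ℚ) (τ : ℚ) :
    mat F (v.1 + n * α * v.2, v.2) τ = !![1, n * (α : F); 0, 1] * mat F v τ := by
  simp only [mat, Matrix.mul_fin_two]
  push_cast
  congr 1
  simp only [one_mul, zero_mul, zero_add]
  ring_nf

lemma mat_lower (β : ℚ) (n : ℤ) (v : ℚ × ℚ) (τ : ℚ) (h1 : v.1 ≠ 0) (h2 : v.2 ≠ 0)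
    (h3 : v.2 + n * β * v.1 ≠ 0) :
    mat F (v.1, v.2 + n * β * v.1)
      (τ - 1 / (v.1 * v.2) + 1 / (v.1 * (v.2 + n * β * v.1))) =
      !![1, 0; n * (β : F), 1] * mat F v τ := by
  simp only [mat, Matrix.mul_fin_two]
  have e1 : v.1 * (τ - 1 / (v.1 * v.2) + 1 / (v.1 * (v.2 + n * β * v.1))) -
      1 / (v.2 + n * β * v.1) = v.1 * τ - 1 / v.2 := by
    field_simp
    ring
  have e2 : (v.2 + n * β * v.1) *
      (τ - 1 / (v.1 * v.2) + 1 / (v.1 * (v.2 + n * β * v.1))) =
      n * β * (v.1 * τ - 1 / v.2) + v.2 * τ := by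
    field_simp
    ring
  rw [e1, e2]
  push_cast
  simp only [one_mul, zero_mul, add_zero]
  congr 1
  ring_nf

end

section

variable {F : Type*} [Field F] [CharZero F]

/-- **Counting criterion.** -/
theorem criterion {ι LA LB : Type*} [DecidableEq ι] [DecidableEq LA] [DecidableEq LB] (α β : ℚ)
    (V : Finset ι) (vec : ι → ℚ × ℚ) (hinj : ∀ v ∈ V, ∀ v' ∈ V, vec v' = vec v → v' = v)
    (hV : ∀ v ∈ V, (vec v).1 ≠ 0 ∧ (vec v).2 ≠ 0)
    (fA : ι → LA) (fB : ι → LB)
    (hA : ∀ v ∈ V, ∀ v' ∈ V, fA v' = fA v →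
      ∃ n : ℤ, vec v' = ((vec v).1 + n * α * (vec v).2, (vec v).2))
    (hB : ∀ v ∈ V, ∀ v' ∈ V, fB v' = fB v →
      ∃ n : ℤ, vec v' = ((vec v).1, (vec v).2 + n * β * (vec v).1))
    (hcard : (V.image fA).card + (V.image fB).card < V.card)
    (g h : Matrix.GeneralLinearGroup (Fin 2) F)
    (hg : (g : Matrix (Fin 2) (Fin 2) F) = !![1, (α : F); 0, 1])
    (hh : (h : Matrix (Fin 2) (Fin 2) F) = !![1, 0; (β : F), 1]) :
    ¬ Function.Injective (FreeGroup.lift ![g, h]) := by
  classical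
  -- common denominator
  set Q : ℕ := ∏ v ∈ V, (1 / ((vec v).1 * (vec v).2)).den with hQ
  have hQ0 : (Q : ℚ) ≠ 0 := by
    rw [hQ]; push_cast
    exact prod_ne_zero_iff.2 fun v _ => by exact_mod_cast (Rat.den_nz _)
  have hc : ∀ v ∈ V, ∃ c : ℤ, (c : ℚ) / Q = 1 / ((vec v).1 * (vec v).2) := by
    intro v hv
    have hd : (1 / ((vec v).1 * (vec v).2)).den ∣ Q :=
      dvd_prod_of_mem (fun v => (1 / ((vec v).1 * (vec v).2)).den) hv
    obtain ⟨e, he⟩ := hd
    refine ⟨(1 / ((vec v).1 * (vec v).2)).num * e, ?_⟩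
    have h1 : ((1 / ((vec v).1 * (vec v).2)).den : ℚ) ≠ 0 := by exact_mod_cast (Rat.den_nz _)
    have h2 : (e : ℚ) ≠ 0 := by
      intro h0; apply hQ0; rw [he]; push_cast; rw [h0, mul_zero]
    rw [he]
    push_cast
    rw [mul_div_mul_right _ _ h2]
    exact Rat.num_div_den _
  choose! c hc using hc
  set C : ℤ := ∑ v ∈ V, |c v| with hC
  have hcC : ∀ v ∈ V, |c v| ≤ C := fun v hv =>
    single_le_sum (f := fun v => |c v|) (fun _ _ => abs_nonneg _) hv
  have hC0 : 0 ≤ C := sum_nonneg fun _ _ => abs_nonneg _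
  set T : ℤ := 2 * C * (V.image fB).card + 1 with hT
  have hT0 : 0 ≤ T := by positivity
  set P : Finset (ι × ℤ) := V ×ˢ Ico 0 T with hP
  let iA : ι × ℤ → LA × ℤ := fun p => (fA p.1, p.2)
  let iB : ι × ℤ → LB × ℤ := fun p => (fB p.1, p.2 - c p.1)
  have hIA : (P.image iA).card ≤ (V.image fA).card * T.toNat := by
    have : P.image iA ⊆ (V.image fA) ×ˢ Ico 0 T := by
      intro y hy
      rw [mem_image] at hy
      obtain ⟨p, hp, rfl⟩ := hy
      rw [hP, mem_product] at hp
      rw [mem_product]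
      exact ⟨mem_image_of_mem _ hp.1, hp.2⟩
    refine (card_le_card this).trans ?_
    rw [card_product, Int.card_Ico, sub_zero]
  have hIB : (P.image iB).card ≤ (V.image fB).card * (T + 2 * C).toNat := by
    have : P.image iB ⊆ (V.image fB) ×ˢ Ico (-C) (T + C) := by
      intro y hy
      rw [mem_image] at hy
      obtain ⟨p, hp, rfl⟩ := hy
      rw [hP, mem_product, mem_Ico] at hp
      rw [mem_product, mem_Ico]
      have := abs_le.1 (hcC _ hp.1)
      refine ⟨mem_image_of_mem _ hp.1, ?_, ?_⟩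
      · simp only [iB]; linarith [hp.2.1]
      · simp only [iB]; linarith [hp.2.2]
    refine (card_le_card this).trans ?_
    rw [card_product, Int.card_Ico]
    apply le_of_eq
    congr 2
    ring
  have hPc : P.card = V.card * T.toNat := by
    rw [hP, card_product, Int.card_Ico, sub_zero]
  have hlt : (P.image iA).card + (P.image iB).card < P.card := by
    rw [hPc]
    refine lt_of_le_of_lt (Nat.add_le_add hIA hIB) ?_
    zify
    rw [Int.toNat_of_nonneg hT0, Int.toNat_of_nonneg (by positivity : (0 : ℤ) ≤ T + 2 * C)]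
    have h1 : ((V.image fA).card : ℤ) + (V.image fB).card + 1 ≤ V.card := by exact_mod_cast hcard
    have h2 : (((V.image fA).card : ℤ) + (V.image fB).card + 1) * T ≤ V.card * T :=
      mul_le_mul_of_nonneg_right h1 hT0
    have h3 : ((V.image fB).card : ℤ) * (2 * C) < T := by rw [hT]; linarith
    nlinarith
  obtain ⟨S, hS, hne, hSA, hSB⟩ := prune iA iB P hlt
  refine path S hne (fun p => mat F (vec p.1) ((p.2 : ℚ) / Q)) ?_ g h ?_ ?_
  · intro p hp
    have := hS hp
    rw [hP, mem_product] at this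
    exact mat_det _ (hV _ this.1).2 _
  · intro p hp
    obtain ⟨p', hp', hne', he⟩ := hSA p hp
    have m1 := hS hp
    have m2 := hS hp'
    rw [hP, mem_product] at m1 m2
    simp only [iA, Prod.mk.injEq] at he
    obtain ⟨n, hn⟩ := hA _ m1.1 _ m2.1 he.1
    refine ⟨p', hp', n, ?_, ?_⟩
    · rintro rfl
      apply hne'
      refine Prod.ext (hinj _ m1.1 _ m2.1 ?_) he.2
      rw [hn]; simp
    · rw [upper_zpow g _ hg, ← mat_upper, hn, he.2]
  · intro p hp
    obtain ⟨p', hp', hne', he⟩ := hSB p hp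
    have m1 := hS hp
    have m2 := hS hp'
    rw [hP, mem_product] at m1 m2
    simp only [iB, Prod.mk.injEq] at he
    obtain ⟨n, hn⟩ := hB _ m1.1 _ m2.1 he.1
    have hc1 := hc _ m1.1
    have hc2 := hc _ m2.1
    refine ⟨p', hp', n, ?_, ?_⟩
    · rintro rfl
      apply hne'
      have e1 : p'.1 = p.1 := hinj _ m1.1 _ m2.1 (by rw [hn]; simp)
      refine Prod.ext e1 ?_
      have := he.2
      rw [e1] at this
      linarith
    · have h1 := hV _ m1.1
      have h2 := hV _ m2.1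
      have h3 : (vec p.1).2 + n * β * (vec p.1).1 ≠ 0 := by
        have := h2.2
        rw [hn] at this
        exact this
      rw [lower_zpow h _ hh, ← mat_lower β n (vec p.1) _ h1.1 h1.2 h3]
      have e3 : (p'.2 : ℚ) / Q = (p.2 : ℚ) / Q - 1 / ((vec p.1).1 * (vec p.1).2) +
          1 / ((vec p.1).1 * ((vec p.1).2 + n * β * (vec p.1).1)) := by
        have e4 : (p'.2 : ℚ) - c p'.1 = p.2 - c p.1 := by exact_mod_cast he.2
        have e5 : (c p'.1 : ℚ) / Q =
            1 / ((vec p.1).1 * ((vec p.1).2 + n * β * (vec p.1).1)) := by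
          rw [hc2, hn]
        rw [← hc1, ← e5, ← sub_div, ← add_div]
        congr 1
        linarith
      rw [← e3, ← hn]

end

end Pool.Agent.Lib_helper30.NF
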