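import Mathlib
import Pool.Agent.Lib_helper30.NFCrit

/-!
# The vectors used for `α = a / b`

`Y = b y`.  The set `EE` consists of pairs `(o, ε)` with `2 Y < |o| ≤ (b + 1) Y`, `0 < |ε| ≤ Y`
and `b ε ≡ N (mod o)` for some `N ≠ 0` with `|N| ≤ Y`.
-/

set_option autoImplicit false

namespace Pool.Agent.Lib_helper30.NF

open Finset

/-- the positive modulus attached to an index -/
def DD (b k e j : ℕ) (t : Bool) : ℤ :=
  if t then ((b * e : ℤ) - 1) / k - j else ((b * e : ℤ)) / k + 1 + j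

lemma DD_true {b y k e j : ℕ} (hk : 1 ≤ k) (hj : j < b * y / k) :
    (k : ℤ) * DD b k e j true ≤ b * e - 1 ∧ (b * e : ℤ) - b * y ≤ k * DD b k e j true := by
  have hk0 : (0 : ℤ) < k := by exact_mod_cast hk
  have h1 := Int.mul_ediv_self_le (x := (b * e : ℤ) - 1) hk0.ne'
  have h2 := Int.lt_mul_ediv_self_add (x := (b * e : ℤ) - 1) hk0
  have h3 : (k : ℤ) * (j + 1) ≤ b * y := by
    have : k * (j + 1) ≤ b * y := (Nat.mul_le_mul_left k hj).trans (Nat.mul_div_le _ _)
    exact_mod_cast this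
  have h4 : (0 : ℤ) ≤ k * j := by positivity
  simp only [DD, if_true]
  set q := ((b * e : ℤ) - 1) / k
  constructor
  · have : (k : ℤ) * (q - j) = k * q - k * j := by ring
    rw [this]; linarith
  · have : (k : ℤ) * (q - j) = k * q - k * j := by ring
    rw [this]
    have h5 : (k : ℤ) * (j + 1) = k * j + k := by ring
    omega

lemma DD_false {b y k e j : ℕ} (hk : 1 ≤ k) (hj : j < b * y / k) :
    (b * e : ℤ) + 1 ≤ k * DD b k e j false ∧ (k : ℤ) * DD b k e j false ≤ b * e + b * y := by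
  have hk0 : (0 : ℤ) < k := by exact_mod_cast hk
  have h1 := Int.mul_ediv_self_le (x := (b * e : ℤ)) hk0.ne'
  have h2 := Int.lt_mul_ediv_self_add (x := (b * e : ℤ)) hk0
  have h3 : (k : ℤ) * (j + 1) ≤ b * y := by
    have : k * (j + 1) ≤ b * y := (Nat.mul_le_mul_left k hj).trans (Nat.mul_div_le _ _)
    exact_mod_cast this
  have h4 : (0 : ℤ) ≤ k * j := by positivity
  simp only [DD, Bool.false_eq_true, if_false]
  set q := (b * e : ℤ) / k
  have h5 : (k : ℤ) * (q + 1 + j) = k * q + k + k * j := by ring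
  have h6 : (k : ℤ) * (j + 1) = k * j + k := by ring
  rw [h5]
  constructor <;> omega

lemma DD_big {b y k e j : ℕ} (hb : 0 < b) (hk : 1 ≤ k) (hj : j < b * y / k)
    (he : (2 * k + 1) * y < e) (t : Bool) : 2 * ((b * y : ℕ) : ℤ) < DD b k e j t := by
  have hk0 : (0 : ℤ) < k := by exact_mod_cast hk
  have h1 : (b * e : ℤ) - b * y ≤ k * DD b k e j t := by
    cases t
    · have := (DD_false (e := e) hk hj).1
      have h0 : (0 : ℤ) ≤ b * y := by positivity
      linarith
    · exact (DD_true (e := e) hk hj).2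
  have h2 : (b : ℤ) * ((2 * k + 1) * y) < b * e := by
    have : (((2 * k + 1) * y : ℕ) : ℤ) < e := by exact_mod_cast he
    have hb0 : (0 : ℤ) < b := by exact_mod_cast hb
    push_cast at this
    exact mul_lt_mul_of_pos_left this hb0
  have h3 : (k : ℤ) * (2 * (b * y)) < k * DD b k e j t := by linarith
  have := lt_of_mul_lt_mul_left h3 hk0.le
  push_cast
  exact this

lemma DD_le {b y k e j : ℕ} (hk : 1 ≤ k) (hj : j < b * y / k)
    (he : e ≤ b * y) (t : Bool) (hpos : 0 < DD b k e j t) :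
    DD b k e j t ≤ (b + 1) * ((b * y : ℕ) : ℤ) := by
  have hk1 : (1 : ℤ) ≤ k := by exact_mod_cast hk
  have h1 : (k : ℤ) * DD b k e j t ≤ b * e + b * y := by
    cases t
    · exact (DD_false (e := e) hk hj).2
    · have := (DD_true (e := e) hk hj).1
      have h0 : (0 : ℤ) ≤ b * y := by positivity
      linarith
  have h2 : (b : ℤ) * e ≤ b * (b * y) := by
    have : (e : ℤ) ≤ b * y := by exact_mod_cast he
    exact mul_le_mul_of_nonneg_left this (by positivity)
  have h3 : DD b k e j t ≤ k * DD b k e j t := by nlinarith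
  push_cast
  nlinarith

/-- the index set -/
def idx (b y K : ℕ) : Finset (Σ _ : ℕ, ℕ × ℕ) :=
  (Icc 1 K).sigma fun k => (Ioc ((2 * k + 1) * y) (b * y)) ×ˢ range (b * y / k)

/-- the full index set, with signs -/
def fidx (b y K : ℕ) : Finset (ℤ × ℤ × Bool × (Σ _ : ℕ, ℕ × ℕ)) :=
  ({1, -1} : Finset ℤ) ×ˢ ({1, -1} : Finset ℤ) ×ˢ (univ : Finset Bool) ×ˢ idx b y K

/-- the pair attached to an index -/
def emap (b : ℕ) (p : ℤ × ℤ × Bool × (Σ _ : ℕ, ℕ × ℕ)) : ℤ × ℤ :=
  (p.1 * DD b p.2.2.2.1 p.2.2.2.2.1 p.2.2.2.2.2 p.2.2.1, p.2.1 * (p.2.2.2.2.1 : ℤ))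

/-- the set of pairs -/
def EE (b y K : ℕ) : Finset (ℤ × ℤ) := (fidx b y K).image (emap b)

lemma mem_fidx {b y K : ℕ} {s1 s2 : ℤ} {t : Bool} {k e j : ℕ} :
    (s1, s2, t, (⟨k, (e, j)⟩ : Σ _ : ℕ, ℕ × ℕ)) ∈ fidx b y K ↔
      (s1 = 1 ∨ s1 = -1) ∧ (s2 = 1 ∨ s2 = -1) ∧ (1 ≤ k ∧ k ≤ K) ∧
        ((2 * k + 1) * y < e ∧ e ≤ b * y) ∧ j < b * y / k := by
  simp only [fidx, idx, mem_product, mem_insert, mem_singleton, mem_univ, true_and, mem_sigma,
    mem_Icc, mem_Ioc, mem_range]

lemma emap_inj {b y K : ℕ} (hb : 0 < b) :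
    Set.InjOn (emap b) (fidx b y K : Set (ℤ × ℤ × Bool × (Σ _ : ℕ, ℕ × ℕ))) := by
  rintro ⟨s1, s2, t, ⟨k, e, j⟩⟩ h ⟨s1', s2', t', ⟨k', e', j'⟩⟩ h' heq
  rw [mem_coe, mem_fidx] at h h'
  obtain ⟨h1, h2, ⟨h3, -⟩, ⟨h4, h5⟩, h6⟩ := h
  obtain ⟨h1', h2', ⟨h3', -⟩, ⟨h4', h5'⟩, h6'⟩ := h'
  simp only [emap, Prod.mk.injEq] at heq
  obtain ⟨e1, e2⟩ := heq
  have hD := DD_big hb h3 h6 h4 t
  have hD' := DD_big hb h3' h6' h4' t'
  have hY : (0 : ℤ) ≤ ((b * y : ℕ) : ℤ) := by positivity
  have hep : (0 : ℤ) < e := by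
    have : 0 < e := lt_of_le_of_lt (Nat.zero_le _) h4
    exact_mod_cast this
  have hep' : (0 : ℤ) < e' := by
    have : 0 < e' := lt_of_le_of_lt (Nat.zero_le _) h4'
    exact_mod_cast this
  have hs1 : s1 = s1' ∧ DD b k e j t = DD b k' e' j' t' := by
    rcases h1 with rfl | rfl <;> rcases h1' with rfl | rfl <;> constructor <;> linarith
  have hs2 : s2 = s2' ∧ (e : ℤ) = e' := by
    rcases h2 with rfl | rfl <;> rcases h2' with rfl | rfl <;> constructor <;> linarith
  obtain ⟨rfl, hDD⟩ := hs1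
  obtain ⟨rfl, hee⟩ := hs2
  have hee' : e = e' := by exact_mod_cast hee
  subst hee'
  -- the two-sided bounds
  have B : ∀ (k j : ℕ) (t : Bool), 1 ≤ k → j < b * y / k →
      |(b * e : ℤ) - k * DD b k e j t| ≤ ((b * y : ℕ) : ℤ) := by
    intro k j t hk hj
    rw [abs_le]
    push_cast
    cases t
    · have := DD_false (e := e) hk hj
      have h0 : (0 : ℤ) ≤ b * y := by positivity
      constructor <;> linarith [this.1, this.2]
    · have := DD_true (e := e) hk hj
      have h0 : (0 : ℤ) ≤ b * y := by positivity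
      constructor <;> linarith [this.1, this.2]
  have b1 := abs_le.1 (B k j t h3 h6)
  have b2 := abs_le.1 (B k' j' t' h3' h6')
  rw [← hDD] at b2 hD'
  set D := DD b k e j t with hDdef
  have hkk : k = k' := by
    rcases lt_trichotomy k k' with hlt | heq | hlt
    · exfalso
      have : (k : ℤ) + 1 ≤ k' := by exact_mod_cast hlt
      have h7 : ((k : ℤ) + 1) * D ≤ k' * D := mul_le_mul_of_nonneg_right this (by linarith)
      nlinarith [b1.2, b2.1]
    · exact heq
    · exfalso
      have : (k' : ℤ) + 1 ≤ k := by exact_mod_cast hlt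
      have h7 : ((k' : ℤ) + 1) * D ≤ k * D := mul_le_mul_of_nonneg_right this (by linarith)
      nlinarith [b1.1, b2.2]
  subst hkk
  have htt : t = t' := by
    cases t <;> cases t'
    · rfl
    · exfalso
      have c1 := (DD_false (e := e) h3 h6).1
      have c2 := (DD_true (e := e) h3' h6').1
      rw [← hDD] at c2
      linarith
    · exfalso
      have c1 := (DD_true (e := e) h3 h6).1
      have c2 := (DD_false (e := e) h3' h6').1
      rw [← hDD] at c2
      linarith
    · rfl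
  subst htt
  have hjj : j = j' := by
    have : DD b k e j t = DD b k e j' t := hDD
    cases t
    · simp only [DD, Bool.false_eq_true, if_false] at this
      have : (j : ℤ) = j' := by linarith
      exact_mod_cast this
    · simp only [DD, if_true] at this
      have : (j : ℤ) = j' := by linarith
      exact_mod_cast this
  subst hjj
  rfl

lemma EE_card {b y K : ℕ} (hb : 0 < b) :
    (EE b y K).card = 8 * ∑ k ∈ Icc 1 K, (b * y - (2 * k + 1) * y) * (b * y / k) := by
  rw [EE, card_image_of_injOn (emap_inj hb), fidx, card_product, card_product, card_product, idx,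
    card_sigma]
  have h1 : (({1, -1} : Finset ℤ)).card = 2 := by decide
  rw [h1]
  simp only [card_product, Nat.card_Ioc, card_range, card_univ, Fintype.card_bool]
  ring

/-- properties of the elements of `EE` -/
lemma EE_prop {b y K : ℕ} (hb : 0 < b) {v : ℤ × ℤ} (hv : v ∈ EE b y K) :
    2 * ((b * y : ℕ) : ℤ) < |v.1| ∧ |v.1| ≤ (b + 1) * ((b * y : ℕ) : ℤ) ∧ v.2 ≠ 0 ∧
      |v.2| ≤ ((b * y : ℕ) : ℤ) ∧ ((b * y : ℕ) : ℤ) < |b * v.2| ∧
      ∃ N : ℤ, N ≠ 0 ∧ |N| ≤ ((b * y : ℕ) : ℤ) ∧ v.1 ∣ b * v.2 - N := by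
  rw [EE, mem_image] at hv
  obtain ⟨⟨s1, s2, t, ⟨k, e, j⟩⟩, h, rfl⟩ := hv
  rw [mem_fidx] at h
  obtain ⟨h1, h2, ⟨h3, -⟩, ⟨h4, h5⟩, h6⟩ := h
  simp only [emap]
  have hD := DD_big hb h3 h6 h4 t
  have hY : (0 : ℤ) ≤ ((b * y : ℕ) : ℤ) := by positivity
  have hDl := DD_le h3 h6 h5 t (by linarith)
  have hep : (0 : ℤ) < e := by
    have : 0 < e := lt_of_le_of_lt (Nat.zero_le _) h4
    exact_mod_cast this
  have habs1 : |s1 * DD b k e j t| = DD b k e j t := by
    rw [abs_mul, abs_of_pos (by linarith : 0 < DD b k e j t)]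
    rcases h1 with rfl | rfl <;> simp
  have hs2a : |s2| = 1 := by rcases h2 with rfl | rfl <;> simp
  have habs2 : |s2 * (e : ℤ)| = e := by
    rw [abs_mul, hs2a, one_mul, abs_of_pos hep]
  have hbe : ((b * y : ℕ) : ℤ) < b * e := by
    have h7 : (b : ℤ) * y ≤ b * e - 1 := by
      have : (2 * k + 1) * y + 1 ≤ e := h4
      have h8 : y + 1 ≤ e := by nlinarith
      have h9 : b * (y + 1) ≤ b * e := Nat.mul_le_mul_left _ h8
      have h10 : ((b * (y + 1) : ℕ) : ℤ) ≤ ((b * e : ℕ) : ℤ) := by exact_mod_cast h9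
      push_cast at h10
      have hb1 : (1 : ℤ) ≤ b := by exact_mod_cast hb
      linarith
    push_cast
    linarith
  refine ⟨by rw [habs1]; exact hD, by rw [habs1]; exact hDl, ?_, ?_, ?_, ?_⟩
  · intro h0
    rw [h0, abs_zero] at habs2
    linarith
  · rw [habs2]; exact_mod_cast h5
  · have : |(b : ℤ) * (s2 * e)| = b * e := by
      rw [abs_mul, habs2]
      simp
    rw [this]; exact hbe
  · refine ⟨s2 * (b * e - k * DD b k e j t), ?_, ?_, ?_⟩
    · have hne : (b * e : ℤ) - k * DD b k e j t ≠ 0 := by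
        cases t
        · have := (DD_false (e := e) h3 h6).1
          intro h0; linarith
        · have := (DD_true (e := e) h3 h6).1
          intro h0; linarith
      rcases h2 with rfl | rfl
      · simpa using hne
      · intro h0
        apply hne
        linarith
    · rw [abs_mul, hs2a, one_mul, abs_le]
      push_cast
      cases t
      · have := DD_false (e := e) h3 h6
        have h0 : (0 : ℤ) ≤ b * y := by positivity
        constructor <;> linarith [this.1, this.2]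
      · have := DD_true (e := e) h3 h6
        have h0 : (0 : ℤ) ≤ b * y := by positivity
        constructor <;> linarith [this.1, this.2]
    · have e1 : (b : ℤ) * (s2 * e) - s2 * (b * e - k * DD b k e j t) =
          (s1 * DD b k e j t) * (s1 * s2 * k) := by
        rcases h1 with rfl | rfl <;> ring
      rw [e1]
      exact dvd_mul_right _ _

end Pool.Agent.Lib_helper30.NF
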