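import Mathlib
import Pool.Agent.Lib_helper30.NFCount

/-!
# Non-freeness from the count
-/

set_option autoImplicit false

namespace Pool.Agent.Lib_helper30.NF

open Finset

lemma emod_ex {x x' m : ℤ} (h : x' % m = x % m) : ∃ n : ℤ, x' = x + n * m := by
  have h1 : m ∣ x' - x := Int.ModEq.dvd (show x ≡ x' [ZMOD m] from h.symm)
  obtain ⟨n, hn⟩ := h1
  exact ⟨n, by linarith⟩

/-- centred residue -/
def Nf (Y : ℤ) (v : ℤ × ℤ) : ℤ := if v.2 ≤ Y then v.2 else v.2 - |v.1|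

/-- the set of second lines -/
def BB (b y K : ℕ) : Finset (ℤ × ℤ) := (EE b y K).image fun v => (v.1, (b * v.2) % v.1)

lemma BB_prop {b y K : ℕ} (hb : 0 < b) {v : ℤ × ℤ} (hv : v ∈ BB b y K) :
    2 * ((b * y : ℕ) : ℤ) < |v.1| ∧ |v.1| ≤ (b + 1) * ((b * y : ℕ) : ℤ) ∧
      Nf ((b * y : ℕ) : ℤ) v ≠ 0 ∧ |Nf ((b * y : ℕ) : ℤ) v| ≤ ((b * y : ℕ) : ℤ) ∧
      Nf ((b * y : ℕ) : ℤ) v % v.1 = v.2 := by
  rw [BB, mem_image] at hv
  obtain ⟨w, hw, rfl⟩ := hv
  obtain ⟨h1, h2, h3, h4, h5, N, h6, h7, h8⟩ := EE_prop hb hw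
  simp only
  set Y : ℤ := ((b * y : ℕ) : ℤ) with hYdef
  have hY : 0 ≤ Y := by positivity
  have hmod : (b * w.2) % w.1 = N % w.1 := Int.emod_eq_emod_iff_emod_sub_eq_zero.2 (Int.emod_eq_zero_of_dvd h8)
  have hw1 : w.1 ≠ 0 := by
    intro h0; rw [h0, abs_zero] at h1; linarith
  have hval : (N % w.1 = N ∧ 0 < N) ∨ (N % w.1 = N + |w.1| ∧ N < 0) := by
    have h9 := abs_le.1 h7
    rcases lt_or_gt_of_ne h6 with h | h
    · right
      refine ⟨?_, h⟩
      have h10 : N % |w.1| = (N + |w.1|) % |w.1| := (Int.add_emod_right _ _).symm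
      rw [← Int.emod_abs, h10]
      apply Int.emod_eq_of_lt <;> linarith [h9.1]
    · left
      refine ⟨?_, h⟩
      rw [← Int.emod_abs]
      apply Int.emod_eq_of_lt h.le
      linarith [h9.2]
  have hNf : Nf Y (w.1, (b * w.2) % w.1) = N := by
    have h9 := abs_le.1 h7
    simp only [Nf]
    rw [hmod]
    rcases hval with ⟨e, h⟩ | ⟨e, h⟩
    · rw [e, if_pos h9.2]
    · rw [e, if_neg (by linarith [h9.1])]
      ring
  rw [hNf]
  exact ⟨h1, h2, h6, h7, hmod.symm⟩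

/-- index type of the points -/
abbrev Idx := ℕ × ((ℤ × ℤ) ⊕ (ℤ × ℤ))

/-- first integer coordinate -/
def oo : Idx → ℤ := fun p => Sum.elim (fun v => v.1) (fun v => v.1) p.2

/-- second integer coordinate -/
def ee (b : ℕ) (Y : ℤ) : Idx → ℤ := fun p => Sum.elim (fun v => b * v.2) (fun v => Nf Y v) p.2

/-- scale for the upper lines -/
def tt : Idx → ℕ := fun p => Sum.elim (fun _ => p.1) (fun _ => p.1 + 1) p.2

/-- level for the upper lines -/
def et (Y : ℤ) : Idx → ℤ := fun p => Sum.elim (fun v => v.2) (fun v => Nf Y v) p.2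

/-- coordinate for the upper lines -/
def xx (b : ℕ) : Idx → ℤ := fun p => Sum.elim (fun v => v.1) (fun v => b * v.1) p.2

/-- the vectors -/
def vec (b : ℕ) (Y : ℤ) (p : Idx) : ℚ × ℚ := ((oo p : ℚ) / b ^ p.1, (ee b Y p : ℚ) / b ^ p.1)

lemma vec_eq {b : ℕ} (hb : 0 < b) (Y : ℤ) (p : Idx) :
    vec b Y p = ((xx b p : ℚ) / b ^ tt p, (b : ℚ) * (et Y p : ℚ) / b ^ tt p) := by
  have hb0 : (b : ℚ) ≠ 0 := by exact_mod_cast hb.ne'
  obtain ⟨s, v | v⟩ := p
  · simp [vec, oo, ee, xx, tt, et]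
  · simp only [vec, oo, ee, xx, tt, et, Sum.elim_inr, Prod.mk.injEq]
    push_cast
    rw [pow_succ]
    constructor
    · field_simp
    · field_simp

/-- the set of points -/
def PP (b y K I : ℕ) : Finset Idx := range I ×ˢ (EE b y K).disjSum (BB b y K)

lemma mem_PP_inl {b y K I s : ℕ} {v : ℤ × ℤ} :
    ((s, Sum.inl v) : Idx) ∈ PP b y K I ↔ s < I ∧ v ∈ EE b y K := by
  simp [PP]

lemma mem_PP_inr {b y K I s : ℕ} {v : ℤ × ℤ} :
    ((s, Sum.inr v) : Idx) ∈ PP b y K I ↔ s < I ∧ v ∈ BB b y K := by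
  simp [PP]

lemma PP_card (b y K I : ℕ) : (PP b y K I).card = I * ((EE b y K).card + (BB b y K).card) := by
  rw [PP, card_product, card_range, card_disjSum]

lemma PP_oo {b y K I : ℕ} (hb : 0 < b) {p : Idx} (hp : p ∈ PP b y K I) :
    2 * ((b * y : ℕ) : ℤ) < |oo p| ∧ |oo p| ≤ (b + 1) * ((b * y : ℕ) : ℤ) := by
  obtain ⟨s, v | v⟩ := p
  · rw [mem_PP_inl] at hp
    obtain ⟨h1, h2, -⟩ := EE_prop hb hp.2
    exact ⟨h1, h2⟩
  · rw [mem_PP_inr] at hp
    obtain ⟨h1, h2, -⟩ := BB_prop hb hp.2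
    exact ⟨h1, h2⟩

lemma PP_ne {b y K I : ℕ} (hb : 0 < b) {p : Idx} (hp : p ∈ PP b y K I) :
    ee b ((b * y : ℕ) : ℤ) p ≠ 0 := by
  obtain ⟨s, v | v⟩ := p
  · rw [mem_PP_inl] at hp
    obtain ⟨-, -, h3, -⟩ := EE_prop hb hp.2
    simp only [ee, Sum.elim_inl]
    exact mul_ne_zero (by exact_mod_cast hb.ne') h3
  · rw [mem_PP_inr] at hp
    obtain ⟨-, -, h3, -⟩ := BB_prop hb hp.2
    exact h3

lemma PP_et {b y K I : ℕ} (hb : 0 < b) {p : Idx} (hp : p ∈ PP b y K I) :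
    et ((b * y : ℕ) : ℤ) p ≠ 0 ∧ |et ((b * y : ℕ) : ℤ) p| ≤ ((b * y : ℕ) : ℤ) ∧
      tt p < I + 1 := by
  obtain ⟨s, v | v⟩ := p
  · rw [mem_PP_inl] at hp
    obtain ⟨-, -, h3, h4, -⟩ := EE_prop hb hp.2
    refine ⟨h3, h4, ?_⟩
    simp only [tt, Sum.elim_inl]
    omega
  · rw [mem_PP_inr] at hp
    obtain ⟨-, -, h3, h4, -⟩ := BB_prop hb hp.2
    refine ⟨h3, h4, ?_⟩
    simp only [tt, Sum.elim_inr]
    omega

/-- the vectors are distinct -/
lemma vec_inj {b y K I : ℕ} (hb : 0 < b) {p p' : Idx} (hp : p ∈ PP b y K I)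
    (hp' : p' ∈ PP b y K I) (h : vec b ((b * y : ℕ) : ℤ) p' = vec b ((b * y : ℕ) : ℤ) p) :
    p' = p := by
  have hb0 : (b : ℚ) ≠ 0 := by exact_mod_cast hb.ne'
  have hb1 : (1 : ℤ) ≤ b := by exact_mod_cast hb
  set Y : ℤ := ((b * y : ℕ) : ℤ) with hYdef
  have hY : 0 ≤ Y := by positivity
  have ho := PP_oo hb hp
  have ho' := PP_oo hb hp'
  rw [← hYdef] at ho ho'
  simp only [vec, Prod.mk.injEq] at h
  obtain ⟨h1, h2⟩ := h
  rw [div_eq_div_iff (pow_ne_zero _ hb0) (pow_ne_zero _ hb0)] at h1 h2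
  have h1' : oo p' * b ^ p.1 = oo p * b ^ p'.1 := by exact_mod_cast h1
  have h2' : ee b Y p' * b ^ p.1 = ee b Y p * b ^ p'.1 := by exact_mod_cast h2
  have hs : p'.1 = p.1 := by
    have key : ∀ (q q' : Idx), 2 * Y < |oo q| → |oo q'| ≤ (b + 1) * Y →
        oo q' * b ^ q.1 = oo q * b ^ q'.1 → ¬ q.1 < q'.1 := by
      intro q q' h3 h4 h5 hlt
      obtain ⟨d, hd⟩ := Nat.exists_eq_add_of_lt hlt
      have h6 : oo q' = oo q * b ^ (d + 1) := by
        have h7 : (b : ℤ) ^ q.1 ≠ 0 := pow_ne_zero _ (by exact_mod_cast hb.ne')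
        apply mul_right_cancel₀ h7
        rw [h5, hd]
        ring
      have h8 : |oo q'| = |oo q| * b ^ (d + 1) := by
        rw [h6, abs_mul, abs_of_nonneg (by positivity : (0 : ℤ) ≤ b ^ (d + 1))]
      have h9 : (b : ℤ) ≤ b ^ (d + 1) := by
        calc (b : ℤ) = b ^ 1 := (pow_one _).symm
          _ ≤ b ^ (d + 1) := pow_le_pow_right₀ hb1 (by omega)
      have h10 : |oo q| * b ≤ |oo q'| := by
        rw [h8]; exact mul_le_mul_of_nonneg_left h9 (abs_nonneg _)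
      nlinarith
    rcases lt_trichotomy p.1 p'.1 with hlt | heq | hlt
    · exact absurd hlt (key p p' ho.1 ho'.2 h1')
    · exact heq.symm
    · exact absurd hlt (key p' p ho'.1 ho.2 h1'.symm)
  rw [hs] at h1' h2'
  have hbp : (b : ℤ) ^ p.1 ≠ 0 := pow_ne_zero _ (by exact_mod_cast hb.ne')
  have e1 := mul_right_cancel₀ hbp h1'
  have e2 := mul_right_cancel₀ hbp h2'
  obtain ⟨s, v | v⟩ := p <;> obtain ⟨s', v' | v'⟩ := p'
  · simp only [oo, ee, Sum.elim_inl] at e1 e2 hs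
    have : v' = v := Prod.ext e1 (mul_left_cancel₀ (by exact_mod_cast hb.ne') e2)
    rw [this, hs]
  · exfalso
    simp only [ee, Sum.elim_inl, Sum.elim_inr] at e2
    rw [mem_PP_inl] at hp
    rw [mem_PP_inr] at hp'
    obtain ⟨-, -, -, -, h3, -⟩ := EE_prop hb hp.2
    obtain ⟨-, -, -, h4, -⟩ := BB_prop hb hp'.2
    rw [← hYdef] at h3 h4
    rw [e2] at h4
    linarith
  · exfalso
    simp only [ee, Sum.elim_inl, Sum.elim_inr] at e2
    rw [mem_PP_inr] at hp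
    rw [mem_PP_inl] at hp'
    obtain ⟨-, -, -, -, h3, -⟩ := EE_prop hb hp'.2
    obtain ⟨-, -, -, h4, -⟩ := BB_prop hb hp.2
    rw [← hYdef] at h3 h4
    rw [← e2] at h4
    linarith
  · simp only [oo, ee, Sum.elim_inr] at e1 e2 hs
    rw [mem_PP_inr] at hp hp'
    obtain ⟨-, -, -, -, h3⟩ := BB_prop hb hp.2
    obtain ⟨-, -, -, -, h4⟩ := BB_prop hb hp'.2
    rw [← hYdef] at h3 h4
    have : v' = v := by
      refine Prod.ext e1 ?_
      rw [← h3, ← h4, e2, e1]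
    rw [this, hs]

/-- index of the upper lines -/
def fA (a : ℤ) (b : ℕ) (Y : ℤ) (p : Idx) : ℕ × (Σ _ : ℤ, ℤ) :=
  (tt p, ⟨et Y p, xx b p % (a * et Y p)⟩)

/-- index of the lower lines -/
def fB (b : ℕ) (Y : ℤ) (p : Idx) : ℕ × (ℤ × ℤ) := (p.1, (oo p, ee b Y p % oo p))

lemma sum_natAbs (a : ℤ) (n : ℕ) :
    ∑ η ∈ Icc (-(n : ℤ)) n, (a * η).natAbs = a.natAbs * (n * (n + 1)) := by
  induction n with
  | zero => simp
  | succ n ih =>
    have : Icc (-((n + 1 : ℕ) : ℤ)) ((n + 1 : ℕ) : ℤ) =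
        insert (-((n + 1 : ℕ) : ℤ)) (insert ((n + 1 : ℕ) : ℤ) (Icc (-(n : ℤ)) n)) := by
      ext x
      simp only [mem_Icc, mem_insert]
      push_cast
      omega
    rw [this, sum_insert, sum_insert, ih]
    · rw [Int.natAbs_mul, Int.natAbs_mul, Int.natAbs_neg, Int.natAbs_natCast]
      ring
    · simp only [mem_Icc]; push_cast; omega
    · simp only [mem_insert, mem_Icc]; push_cast; omega

lemma fA_card {a : ℤ} (ha : a ≠ 0) {b y K I : ℕ} (hb : 0 < b) :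
    ((PP b y K I).image (fA a b ((b * y : ℕ) : ℤ))).card ≤
      (I + 1) * (a.natAbs * ((b * y) * (b * y + 1))) := by
  have hsub : (PP b y K I).image (fA a b ((b * y : ℕ) : ℤ)) ⊆
      range (I + 1) ×ˢ ((Icc (-((b * y : ℕ) : ℤ)) ((b * y : ℕ) : ℤ)).sigma
        fun η => Ico (0 : ℤ) |a * η|) := by
    intro z hz
    rw [mem_image] at hz
    obtain ⟨p, hp, rfl⟩ := hz
    obtain ⟨h1, h2, h3⟩ := PP_et hb hp
    simp only [fA, mem_product, mem_range, mem_sigma, mem_Icc, mem_Ico]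
    have h0 : a * et ((b * y : ℕ) : ℤ) p ≠ 0 := mul_ne_zero ha h1
    refine ⟨h3, abs_le.1 h2, Int.emod_nonneg _ h0, Int.emod_lt_abs _ h0⟩
  refine (card_le_card hsub).trans ?_
  rw [card_product, card_range, card_sigma, ← sum_natAbs]
  apply le_of_eq
  congr 1
  apply sum_congr rfl
  intro η _
  rw [Int.card_Ico, sub_zero, Int.abs_eq_natAbs, Int.toNat_natCast]

lemma fB_card {b y K I : ℕ} (hb : 0 < b) :
    ((PP b y K I).image (fB b ((b * y : ℕ) : ℤ))).card ≤ I * (BB b y K).card := by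
  have hsub : (PP b y K I).image (fB b ((b * y : ℕ) : ℤ)) ⊆ range I ×ˢ BB b y K := by
    intro z hz
    rw [mem_image] at hz
    obtain ⟨⟨s, v | v⟩, hp, rfl⟩ := hz
    · rw [mem_PP_inl] at hp
      simp only [fB, oo, ee, Sum.elim_inl, mem_product, mem_range]
      exact ⟨hp.1, by rw [BB]; exact mem_image_of_mem _ hp.2⟩
    · rw [mem_PP_inr] at hp
      simp only [fB, oo, ee, Sum.elim_inr, mem_product, mem_range]
      obtain ⟨-, -, -, -, h3⟩ := BB_prop hb hp.2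
      rw [h3]
      exact ⟨hp.1, hp.2⟩
  refine (card_le_card hsub).trans ?_
  rw [card_product, card_range]

variable {F : Type*} [Field F] [CharZero F]

/-- the counting theorem -/
theorem nonfree_of_count {a : ℤ} (ha : a ≠ 0) {b y K I : ℕ} (hb : 0 < b)
    (hc : (I + 1) * (a.natAbs * ((b * y) * (b * y + 1))) < I * (EE b y K).card)
    (g h : Matrix.GeneralLinearGroup (Fin 2) F)
    (hg : (g : Matrix (Fin 2) (Fin 2) F) = !![1, (((a : ℚ) / b : ℚ) : F); 0, 1])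
    (hh : (h : Matrix (Fin 2) (Fin 2) F) = !![1, 0; 1, 1]) :
    ¬ Function.Injective (FreeGroup.lift ![g, h]) := by
  classical
  have hb0 : (b : ℚ) ≠ 0 := by exact_mod_cast hb.ne'
  set Y : ℤ := ((b * y : ℕ) : ℤ) with hYdef
  refine criterion ((a : ℚ) / b) 1 (PP b y K I) (vec b Y) ?_ ?_ (fA a b Y) (fB b Y) ?_ ?_ ?_
    g h hg (by rw [hh]; simp)
  · intro v hv v' hv' h
    exact vec_inj hb hv hv' h
  · intro v hv
    have h1 := PP_oo hb hv
    have h2 := PP_ne hb hv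
    rw [← hYdef] at h1 h2
    have hY : 0 ≤ Y := by positivity
    have h3 : oo v ≠ 0 := by
      intro h0; rw [h0, abs_zero] at h1; linarith [h1.1]
    simp only [vec]
    exact ⟨div_ne_zero (by exact_mod_cast h3) (pow_ne_zero _ hb0),
      div_ne_zero (by exact_mod_cast h2) (pow_ne_zero _ hb0)⟩
  · intro v hv v' hv' he
    simp only [fA, Prod.mk.injEq, Sigma.mk.injEq, heq_eq_eq] at he
    obtain ⟨e1, e2, e3⟩ := he
    rw [e2] at e3
    obtain ⟨n, hn⟩ := emod_ex e3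
    refine ⟨n, ?_⟩
    rw [vec_eq hb, vec_eq hb, e1, e2, hn]
    simp only [Prod.mk.injEq, and_true]
    push_cast
    field_simp
  · intro v hv v' hv' he
    simp only [fB, Prod.mk.injEq] at he
    obtain ⟨e1, e2, e3⟩ := he
    rw [e2] at e3
    obtain ⟨n, hn⟩ := emod_ex e3
    refine ⟨n, ?_⟩
    simp only [vec, e1, e2, hn, Prod.mk.injEq, true_and]
    push_cast
    field_simp
  · rw [PP_card]
    have h1 := fA_card (y := y) (K := K) (I := I) ha hb
    have h2 := fB_card (y := y) (K := K) (I := I) hb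
    rw [← hYdef] at h1 h2
    rw [mul_add]
    omega

end Pool.Agent.Lib_helper30.NF
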