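import Mathlib
import Pool.Agent.Lib_helper30.NFMain

/-!
# The explicit bound
-/

set_option autoImplicit false

namespace Pool.Agent.Lib_helper30.NF

open Finset

variable {F : Type*} [Field F] [CharZero F]

/-- non-freeness from the inequality `|a| b < 8 ((b - 1) H_K - 2 K)`, `K = (b - 1) / 2` -/
theorem nonfree_of_ineq {a : ℤ} (ha : a ≠ 0) {b : ℕ} (hb : 0 < b)
    (hc : ((a.natAbs * b : ℕ) : ℚ) <
      8 * (((b : ℚ) - 1) * harmonic ((b - 1) / 2) - 2 * ((b - 1) / 2 : ℕ)))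
    (g h : Matrix.GeneralLinearGroup (Fin 2) F)
    (hg : (g : Matrix (Fin 2) (Fin 2) F) = !![1, (((a : ℚ) / b : ℚ) : F); 0, 1])
    (hh : (h : Matrix (Fin 2) (Fin 2) F) = !![1, 0; 1, 1]) :
    ¬ Function.Injective (FreeGroup.lift ![g, h]) := by
  set K : ℕ := (b - 1) / 2 with hK
  set S : ℚ := ((b : ℚ) - 1) * harmonic K - 2 * K with hS
  set δ : ℚ := 8 * S - ((a.natAbs * b : ℕ) : ℚ) with hδ
  have hδ0 : 0 < δ := by rw [hδ]; linarith
  obtain ⟨c, hcc⟩ := exists_nat_gt ((a.natAbs * (b + 2) : ℚ) / δ)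
  have hc0 : 0 < c := by
    have : (0 : ℚ) < c := lt_of_le_of_lt (by positivity) hcc
    exact_mod_cast this
  set y : ℕ := K.factorial * c with hy
  have hy0 : 0 < y := Nat.mul_pos (Nat.factorial_pos _) hc0
  have hcy : (c : ℚ) ≤ y := by
    have : c ≤ y := Nat.le_mul_of_pos_left _ (Nat.factorial_pos _)
    exact_mod_cast this
  refine nonfree_of_count (y := y) (K := K) (I := y) ha hb ?_ g h hg hh
  rw [EE_card hb]
  have hsum : ((∑ k ∈ Icc 1 K, (b * y - (2 * k + 1) * y) * (b * y / k) : ℕ) : ℚ) =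
      b * y ^ 2 * S := by
    have h2K : 2 * K + 1 ≤ b := by omega
    have hH : harmonic K = ∑ k ∈ Icc 1 K, (k : ℚ)⁻¹ := harmonic_eq_sum_Icc
    have hK' : (K : ℚ) = ∑ k ∈ Icc 1 K, (1 : ℚ) := by simp
    rw [hS, hH]
    rw [hK', mul_sum, mul_sum, ← sum_sub_distrib, mul_sum]
    push_cast
    apply sum_congr rfl
    intro k hk
    rw [mem_Icc] at hk
    have hdvd : k ∣ y := (Nat.dvd_factorial hk.1 hk.2).trans (dvd_mul_right _ _)
    have hdvd' : k ∣ b * y := hdvd.mul_left b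
    have hle : (2 * k + 1) * y ≤ b * y := Nat.mul_le_mul_right _ (by omega)
    have hk0 : (k : ℚ) ≠ 0 := by
      have : k ≠ 0 := by omega
      exact_mod_cast this
    rw [Nat.cast_sub hle, Nat.cast_div hdvd' hk0]
    push_cast
    field_simp
    ring
  have hmain : (((y + 1) * (a.natAbs * (b * y * (b * y + 1))) : ℕ) : ℚ) <
      ((y * (8 * ∑ k ∈ Icc 1 K, (b * y - (2 * k + 1) * y) * (b * y / k)) : ℕ) : ℚ) := by
    rw [Nat.cast_mul y, Nat.cast_mul 8, hsum]
    push_cast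
    have hyq : (0 : ℚ) < y := by exact_mod_cast hy0
    have hy1 : (1 : ℚ) ≤ y := by exact_mod_cast hy0
    have hbq : (0 : ℚ) < b := by exact_mod_cast hb
    have hA : (0 : ℚ) ≤ (a.natAbs : ℚ) := by positivity
    have e1 : (a.natAbs : ℚ) * (b + 2) < y * δ := by
      have := (div_lt_iff₀ hδ0).1 hcc
      nlinarith
    have e2 : (8 : ℚ) * S = δ + a.natAbs * b := by rw [hδ]; push_cast; ring
    have e3 : (y : ℚ) * (8 * (b * y ^ 2 * S)) = y * (b * y) * (y * (δ + a.natAbs * b)) := by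
      rw [← e2]; ring
    rw [e3]
    have e4 : ((y : ℚ) + 1) * (a.natAbs * (b * y * (b * y + 1))) =
        (b * y) * ((y + 1) * (a.natAbs * (b * y + 1))) := by ring
    rw [e4]
    have e5 : (y : ℚ) * (b * y) * (y * (δ + a.natAbs * b)) =
        (b * y) * (y * (y * (δ + a.natAbs * b))) := by ring
    rw [e5]
    apply mul_lt_mul_of_pos_left _ (by positivity)
    nlinarith
  exact_mod_cast hmain

end Pool.Agent.Lib_helper30.NF
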