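import Mathlib
import Pool.Agent.Lib_helper30.NFBound

/-!
# The closed form of the bound
-/

set_option autoImplicit false

namespace Pool.Agent.Lib_helper30.NF

open Finset Real

lemma log_bound_small {b : ℕ} (h4 : 4 ≤ b) (h12 : b ≤ 12) :
    (b : ℝ) * log (b / 4) < (b - 1) * (harmonic ((b - 1) / 2) : ℝ) - 2 * ((b - 1) / 2 : ℕ) := by
  have l2 := Real.log_two_lt_d9
  have key : ∀ x : ℝ, 0 < x → log x ≤ x - 1 := fun x hx => Real.log_le_sub_one_of_pos hx
  have key2 : ∀ x : ℝ, 0 < x → log (2 * x) ≤ 0.6931471808 + (x - 1) := by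
    intro x hx
    rw [Real.log_mul (by norm_num) hx.ne']
    linarith [key x hx]
  interval_cases b
  · norm_num [harmonic, sum_range_succ]
  · have := key (5 / 4) (by norm_num)
    norm_num [harmonic, sum_range_succ]
    linarith
  · have := key (3 / 2) (by norm_num)
    norm_num [harmonic, sum_range_succ]
    linarith
  · have := key2 (7 / 8) (by norm_num)
    norm_num [harmonic, sum_range_succ] at this ⊢
    linarith
  · have := key2 1 (by norm_num)
    norm_num [harmonic, sum_range_succ] at this ⊢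
    linarith
  · have := key2 (9 / 8) (by norm_num)
    norm_num [harmonic, sum_range_succ] at this ⊢
    linarith
  · have := key2 (5 / 4) (by norm_num)
    norm_num [harmonic, sum_range_succ] at this ⊢
    linarith
  · have := key2 (11 / 8) (by norm_num)
    norm_num [harmonic, sum_range_succ] at this ⊢
    linarith
  · have := key2 (3 / 2) (by norm_num)
    norm_num [harmonic, sum_range_succ] at this ⊢
    linarith

lemma log_bound_large {b : ℕ} (h13 : 13 ≤ b) :
    (b : ℝ) * log (b / 4) < (b - 1) * (harmonic ((b - 1) / 2) : ℝ) - 2 * ((b - 1) / 2 : ℕ) := by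
  set K : ℕ := (b - 1) / 2 with hK
  have h6 : 6 ≤ K := by omega
  have h1 : (1 : ℝ) / 2 < (harmonic K : ℝ) - log (K + 1) := by
    have h2 := Real.one_half_lt_eulerMascheroniSeq_six
    have h3 := Real.strictMono_eulerMascheroniSeq.monotone h6
    have h4 : Real.eulerMascheroniSeq K = (harmonic K : ℝ) - log (K + 1) := rfl
    rw [← h4]
    exact lt_of_lt_of_le h2 h3
  have hbr : (13 : ℝ) ≤ b := by exact_mod_cast h13
  have h5 : (2 : ℝ) * (K : ℕ) ≤ b - 1 := by
    have : 2 * K + 1 ≤ b := by omega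
    have : ((2 * K + 1 : ℕ) : ℝ) ≤ b := by exact_mod_cast this
    push_cast at this
    linarith
  have h7 : (b : ℝ) / 2 ≤ K + 1 := by
    have : b ≤ 2 * (K + 1) := by omega
    have : (b : ℝ) ≤ ((2 * (K + 1) : ℕ) : ℝ) := by exact_mod_cast this
    push_cast at this
    linarith
  have h8 : log (b / 4) + log 2 ≤ log (K + 1) := by
    rw [← Real.log_mul (by positivity) (by norm_num)]
    apply Real.log_le_log (by positivity)
    linarith
  have h9 : log (b / 4) ≤ b / 16 - 1 + 2 * log 2 := by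
    have e : (b : ℝ) / 4 = (b / 16) * (2 * 2) := by ring
    rw [e, Real.log_mul (by positivity) (by norm_num), Real.log_mul (by norm_num) (by norm_num)]
    have := Real.log_le_sub_one_of_pos (show (0 : ℝ) < b / 16 by positivity)
    linarith
  have l1 := Real.log_two_gt_d9
  have l2 := Real.log_two_lt_d9
  have h10 : 0 < (b : ℝ) - 1 := by linarith
  have h11 : ((b : ℝ) - 1) * (log (b / 4) + log 2 + 1 / 2) ≤ (b - 1) * (harmonic K : ℝ) :=
    mul_le_mul_of_nonneg_left (by linarith) h10.le
  nlinarith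

lemma log_bound {b : ℕ} (h4 : 4 ≤ b) :
    (b : ℝ) * log (b / 4) < (b - 1) * (harmonic ((b - 1) / 2) : ℝ) - 2 * ((b - 1) / 2 : ℕ) := by
  rcases Nat.lt_or_ge 12 b with h | h
  · exact log_bound_large h
  · exact log_bound_small h4 h

variable {F : Type*} [Field F] [CharZero F]

/-- non-freeness of `a / b` for `b ≥ 4 exp (|a| / 8)` -/
theorem nonfree_of_exp {a : ℤ} (ha : a ≠ 0) {b : ℕ}
    (hb : 4 * Real.exp ((a.natAbs : ℝ) / 8) ≤ b)
    (g h : Matrix.GeneralLinearGroup (Fin 2) F)
    (hg : (g : Matrix (Fin 2) (Fin 2) F) = !![1, (((a : ℚ) / b : ℚ) : F); 0, 1])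
    (hh : (h : Matrix (Fin 2) (Fin 2) F) = !![1, 0; 1, 1]) :
    ¬ Function.Injective (FreeGroup.lift ![g, h]) := by
  have h1 : (4 : ℝ) ≤ b := by
    have : (1 : ℝ) ≤ Real.exp ((a.natAbs : ℝ) / 8) := Real.one_le_exp (by positivity)
    linarith
  have h4 : 4 ≤ b := by exact_mod_cast h1
  have hL : (a.natAbs : ℝ) ≤ 8 * log (b / 4) := by
    have : Real.exp ((a.natAbs : ℝ) / 8) ≤ b / 4 := by linarith
    have h2 := (Real.le_log_iff_exp_le (by positivity)).2 this
    linarith
  refine nonfree_of_ineq ha (by omega) ?_ g h hg hh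
  have h5 := log_bound h4
  have h6 : ((a.natAbs * b : ℕ) : ℝ) <
      8 * (((b : ℝ) - 1) * (harmonic ((b - 1) / 2) : ℝ) - 2 * ((b - 1) / 2 : ℕ)) := by
    push_cast
    have h7 : (a.natAbs : ℝ) * b ≤ 8 * log (b / 4) * b :=
      mul_le_mul_of_nonneg_right hL (by positivity)
    linarith
  exact_mod_cast h6

end Pool.Agent.Lib_helper30.NF
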