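import Pool.Agent.Lib_helper30.Proj

set_option autoImplicit false

namespace Pool.Agent.Lib_helper30

open Filter Topology Set

/-- Steps for non-squares. -/
def StepNSq (c : W) (ys : List W) : Prop :=
  (∃ z : W × W, GCw c (catw z.1 z.2) ∧ (z.1 ∈ ys ∨ z.2 ∈ ys)) ∨
  (Clu (val c) ∧ (bw c).natAbs % 2 = 1) ∨
  (Clu (val c) ∧ ∃ k : ℕ, (bw c = ((2 * k : ℕ) : ℤ) ∨ bw (winv c) = ((2 * k : ℕ) : ℤ)) ∧
    (FailW c c k ∨ FailW (winv c) (winv c) k))

/-- Certified non-square. -/
def NSq (c : W) : Prop := Der StepNSq c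

lemma re_NSq : RE NSq := by
  refine RE.der ?_
  unfold StepNSq
  have X : Primrec (fun x : W × List W => x.1) := Primrec.fst
  have Y : Primrec (fun x : W × List W => x.2) := Primrec.snd
  refine RE.or (RE.exd (RE.and ?_ (RE.of_prim ?_))) (RE.or (RE.and (RE.of_prim (pr_clu X))
    (RE.of_prim ?_)) (RE.and (RE.of_prim (pr_clu X)) (RE.exd (RE.and (RE.of_prim ?_)
      (RE.or ?_ ?_)))))
  · exact re_GCw (X.comp Primrec.fst) (pr_catw (Primrec.fst.comp Primrec.snd)
      (Primrec.snd.comp Primrec.snd))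
  · exact (pr_mem (Y.comp Primrec.fst) (Primrec.fst.comp Primrec.snd)).or
      (pr_mem (Y.comp Primrec.fst) (Primrec.snd.comp Primrec.snd))
  · exact pr_eqn (Primrec.nat_mod.comp (pr_bw_abs X) (Primrec.const 2)) (Primrec.const 1)
  · have K : Primrec (fun y : (W × List W) × ℕ => 2 * y.2) :=
      pr_mul (Primrec.const 2) Primrec.snd
    exact (pr_bw (X.comp Primrec.fst) K).or (pr_bw (pr_winv (X.comp Primrec.fst)) K)
  · exact re_FailW (X.comp Primrec.fst) (X.comp Primrec.fst) Primrec.snd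
  · exact re_FailW (pr_winv (X.comp Primrec.fst)) (pr_winv (X.comp Primrec.fst)) Primrec.snd

/-- Being a square in the group. -/
def Sq (c : ℝ ≃o ℝ) : Prop := ∃ x ∈ GG, c = x * x

lemma Sq.GC {c d : ℝ ≃o ℝ} (h : GC c d) (hs : Sq c) : Sq d := by
  obtain ⟨g, hg, rfl⟩ := h
  obtain ⟨x, hx, rfl⟩ := hs
  exact ⟨g * x * g⁻¹, GG.mul_mem (GG.mul_mem hg hx) (GG.inv_mem hg), by group⟩

lemma Sq.inv {c : ℝ ≃o ℝ} (hs : Sq c) : Sq c⁻¹ := by
  obtain ⟨x, hx, rfl⟩ := hs
  exact ⟨x⁻¹, GG.inv_mem hx, by group⟩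

lemma Sq_inv_iff {c : ℝ ≃o ℝ} : Sq c⁻¹ ↔ Sq c :=
  ⟨fun h => by have := h.inv; rwa [inv_inv] at this, Sq.inv⟩

lemma Sq_one : Sq 1 := ⟨1, GG.one_mem, by group⟩

lemma Sq_cat {f g : ℝ ≃o ℝ} : Sq (cat f g) ↔ Sq f ∧ Sq g := by
  constructor
  · rintro ⟨x, hx, h⟩
    have h0 : x (x 0) = 0 := by rw [← mul_apply', ← h, cat_zero]
    have x0 : x 0 = 0 := by
      rcases lt_trichotomy (x 0) 0 with h1 | h1 | h1
      · have := x.strictMono h1
        linarith
      · exact h1
      · have := x.strictMono h1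
        linarith
    obtain ⟨p, hp, r, hr, rfl⟩ := exists_cat hx x0
    rw [cat_mul] at h
    obtain ⟨rfl, rfl⟩ := cat_inj h
    exact ⟨⟨p, hp, rfl⟩, ⟨r, hr, rfl⟩⟩
  · rintro ⟨⟨p, hp, rfl⟩, ⟨r, hr, rfl⟩⟩
    exact ⟨cat p r, cat_mem_GG hp hr, (cat_mul _ _ _ _).symm⟩

theorem NSq_sound {c : W} (h : NSq c) : ¬ Sq (val c) := by
  induction h with
  | mk c ys h _ ih =>
    intro hS
    rcases h with ⟨z, h1, h2⟩ | ⟨h1, h2⟩ | ⟨h1, k, h2, h3⟩
    · rw [GCw_iff, val_catw] at h1
      have := Sq_cat.1 (hS.GC h1)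
      rcases h2 with h2 | h2
      · exact ih _ h2 this.1
      · exact ih _ h2 this.2
    · obtain ⟨k, hk, _⟩ := (clu_square_iff (val_mem c) h1).1 hS
      rw [bt_val] at hk
      omega
    · have h4 : ¬ CCk (val c) (val c) k := by
        rcases h3 with h3 | h3
        · exact failW_sound h1 h3
        · exact failW_sound' h1 h3
      rcases h2 with h2 | h2
      · obtain ⟨k', hk', h5⟩ := (clu_square_iff (val_mem c) h1).1 hS
        rw [bt_val, h2] at hk'
        have : k' = k := by push_cast at hk'; omega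
        rw [this] at h5
        exact h4 h5
      · obtain ⟨k', hk', h5⟩ := (clu_square_iff (GG.inv_mem (val_mem c)) h1.inv).1 hS.inv
        rw [← val_winv, bt_val, h2] at hk'
        have : k' = k := by push_cast at hk'; omega
        rw [this] at h5
        apply h4
        have := h5.inv
        rwa [inv_inv] at this

lemma NSq_complete_aux {d : ℝ ≃o ℝ} (hd : Decomp d) : ∀ c : W, val c = d → ¬ Sq (val c) → NSq c := by
  induction hd with
  | one =>
    intro c hc h
    rw [hc] at h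
    exact absurd Sq_one h
  | clu d hd hcl =>
    intro c hc h
    subst hc
    by_cases hodd : (bw c).natAbs % 2 = 1
    · exact Der.mk _ [] (Or.inr (Or.inl ⟨hcl, hodd⟩)) (by simp)
    · have hk : ∃ k : ℕ, bw c = ((2 * k : ℕ) : ℤ) ∨ bw (winv c) = ((2 * k : ℕ) : ℤ) := by
        rw [bw_winv]
        refine ⟨(bw c).natAbs / 2, ?_⟩
        omega
      obtain ⟨k, hk⟩ := hk
      refine Der.mk _ [] (Or.inr (Or.inr ⟨hcl, k, hk, ?_⟩)) (by simp)
      refine failW_complete hcl hcl rfl rfl ?_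
      intro h5
      rcases hk with hk | hk
      · apply h
        refine (clu_square_iff (val_mem c) hcl).2 ⟨k, ?_, h5⟩
        rw [bt_val, hk]; push_cast; ring
      · apply h
        rw [← Sq_inv_iff]
        refine (clu_square_iff (GG.inv_mem (val_mem c)) hcl.inv).2 ⟨k, ?_, h5.inv⟩
        rw [← val_winv, bt_val, hk]; push_cast; ring
  | cat d f g hf hg _ _ h ih1 ih2 =>
    intro c hc hS
    subst hc
    obtain ⟨u, rfl⟩ := exists_val hf
    obtain ⟨v, rfl⟩ := exists_val hg
    have h1 : ¬ (Sq (val u) ∧ Sq (val v)) := by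
      intro h2
      exact hS ((Sq_cat.2 h2).GC h.symm)
    have hGC : GCw c (catw u v) := by rw [GCw_iff, val_catw]; exact h
    by_cases h2 : Sq (val u)
    · have h3 : ¬ Sq (val v) := fun h3 => h1 ⟨h2, h3⟩
      refine Der.mk _ [v] (Or.inl ⟨(u, v), hGC, Or.inr (by simp)⟩) ?_
      intro y hy
      rw [List.mem_singleton] at hy
      subst hy
      exact ih2 _ rfl h3
    · refine Der.mk _ [u] (Or.inl ⟨(u, v), hGC, Or.inl (by simp)⟩) ?_
      intro y hy
      rw [List.mem_singleton] at hy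
      subst hy
      exact ih1 _ rfl h2

theorem NSq_iff {c : W} : NSq c ↔ ¬ Sq (val c) :=
  ⟨NSq_sound, fun h => NSq_complete_aux (decomp_all (val_mem c)) c rfl h⟩

/-- Steps for unsolvability of a projective equation. -/
def StepNPs (l : List W) (ys : List (List W)) : Prop :=
  ((bw l.flatten).natAbs % 2 = 1) ∨ ((tw l.flatten).natAbs % 2 = 1) ∨
  (∃ z : List W × W × List W, l = z.1 ++ z.2.1 :: z.2.2 ∧ val z.2.1 = 1 ∧ z.1 ++ z.2.2 ∈ ys) ∨
  (∃ c : W, l = [c] ∧ NSq c)

/-- Certified unsolvability of a projective equation. -/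
def NPs (l : List W) : Prop := Der StepNPs l

lemma re_NPs : RE NPs := by
  refine RE.der ?_
  unfold StepNPs
  have X : Primrec (fun x : List W × List (List W) => x.1) := Primrec.fst
  have Y : Primrec (fun x : List W × List (List W) => x.2) := Primrec.snd
  have U : Primrec (fun y : (List W × List (List W)) × (List W × W × List W) =>
    y.2.1) := Primrec.fst.comp Primrec.snd
  have B : Primrec (fun y : (List W × List (List W)) × (List W × W × List W) =>
    y.2.2.1) := Primrec.fst.comp (Primrec.snd.comp Primrec.snd)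
  have V : Primrec (fun y : (List W × List (List W)) × (List W × W × List W) =>
    y.2.2.2) := Primrec.snd.comp (Primrec.snd.comp Primrec.snd)
  have E := pr_eq (X.comp Primrec.fst) (pr_append U (Primrec.list_cons.comp B V))
  refine RE.or (RE.of_prim ?_) (RE.or (RE.of_prim ?_)
    (RE.or (RE.exd (RE.of_prim ?_)) (RE.exd (RE.and (RE.of_prim ?_) ?_))))
  · exact pr_eqn (Primrec.nat_mod.comp (pr_bw_abs (pr_flatten X)) (Primrec.const 2))
      (Primrec.const 1)
  · exact pr_eqn (Primrec.nat_mod.comp (pr_tw_abs (pr_flatten X)) (Primrec.const 2))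
      (Primrec.const 1)
  · exact E.and ((pr_one B).and (pr_mem (Y.comp Primrec.fst) (pr_append U V)))
  · exact pr_eq (X.comp Primrec.fst) (Primrec.list_cons.comp Primrec.snd (Primrec.const []))
  · exact re_NSq.comp Primrec.snd

lemma Psv_singleton {c : ℝ ≃o ℝ} : Psv [c] ↔ Sq c := by
  unfold Psv
  constructor
  · rintro ⟨y, hy, h⟩
    rw [Pr_singleton] at h
    exact Sq.GC h.symm ⟨y, hy, rfl⟩
  · rintro ⟨y, hy, rfl⟩
    exact ⟨y, hy, Pr_singleton.2 (GC.refl _)⟩

lemma Psv.ends {l : List (ℝ ≃o ℝ)} (hG : ∀ c ∈ l, c ∈ GG) (h : Psv l) :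
    (∃ k : ℤ, (l.map bt).sum = 2 * k) ∧ (∃ k : ℤ, (l.map tp).sum = 2 * k) := by
  obtain ⟨y, hy, h⟩ := h
  obtain ⟨_, h1, h2⟩ := Pr_ends hG h
  rw [bt_mul hy hy] at h1
  rw [tp_mul hy hy] at h2
  exact ⟨⟨bt y, by linarith⟩, ⟨tp y, by linarith⟩⟩

theorem NPs_sound {l : List W} (h : NPs l) : ¬ Psv (l.map val) := by
  induction h with
  | mk l ys h _ ih =>
    intro hS
    obtain ⟨⟨k, hb⟩, ⟨k', ht⟩⟩ := hS.ends (map_val_GG _)
    rw [sum_bt_map] at hb
    rw [sum_tp_map] at ht
    rcases h with h | h | ⟨z, h1, h2, h3⟩ | ⟨c, rfl, h1⟩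
    · omega
    · omega
    · refine ih _ h3 ?_
      rw [h1] at hS
      obtain ⟨y, hy, hS⟩ := hS
      exact ⟨y, hy, (Pr_drop h2).1 hS⟩
    · rw [List.map_singleton, Psv_singleton] at hS
      exact NSq_sound h1 hS

lemma NPs_complete (n : ℕ) : ∀ l : List W, l.length = n → ¬ Psv (l.map val) → NPs l := by
  induction n with
  | zero =>
    intro l hl h
    rw [List.length_eq_zero_iff] at hl
    subst hl
    exact absurd ⟨1, GG.one_mem, Pr_nil.2 (by group)⟩ h
  | succ n ih =>
    intro l hl h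
    by_cases hb : (bw l.flatten).natAbs % 2 = 1
    · exact Der.mk _ [] (Or.inl hb) (by simp)
    · by_cases ht : (tw l.flatten).natAbs % 2 = 1
      · exact Der.mk _ [] (Or.inr (Or.inl ht)) (by simp)
      · by_cases htriv : ∃ b ∈ l, val b = 1
        · obtain ⟨b, hb1, hb2⟩ := htriv
          obtain ⟨u, v, rfl⟩ := List.append_of_mem hb1
          refine Der.mk _ [u ++ v] (Or.inr (Or.inr (Or.inl ⟨(u, b, v), rfl, hb2, by simp⟩))) ?_
          intro y hy
          rw [List.mem_singleton] at hy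
          subst hy
          refine ih (u ++ v) ?_ ?_
          · simp at hl ⊢; omega
          · rintro ⟨y, hy, h2⟩
            exact h ⟨y, hy, (Pr_drop hb2).2 h2⟩
        · push Not at htriv
          match l, hl, h, htriv, hb, ht with
          | [c], _, h, _, _, _ =>
            refine Der.mk _ [] (Or.inr (Or.inr (Or.inr ⟨c, rfl, ?_⟩))) (by simp)
            rw [NSq_iff, ← Psv_singleton]
            exact h
          | a :: b :: l', _, h, htriv, hb, ht =>
            exfalso
            apply h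
            refine proj_list l'.length _ (by simp) (map_val_GG _) ?_ ?_ ?_
            · intro c hc
              obtain ⟨w, hw, rfl⟩ := List.mem_map.1 hc
              exact htriv w hw
            · rw [sum_bt_map]
              exact ⟨bw (a :: b :: l').flatten / 2, by omega⟩
            · rw [sum_tp_map]
              exact ⟨tw (a :: b :: l').flatten / 2, by omega⟩

/-- **The projective problem**: unsolvability is certified. -/
theorem NPs_iff {l : List W} : NPs l ↔ ¬ Psv (l.map val) :=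
  ⟨NPs_sound, NPs_complete _ l rfl⟩

end Pool.Agent.Lib_helper30
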