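import Pool.Agent.Lib_helper30.Sph

set_option autoImplicit false

namespace Pool.Agent.Lib_helper30

open Filter Topology Set

/-- The condition on the choices. -/
def Rno (zs : List (W × W)) : Prop :=
  ∀ ns ∈ choices (zs.map (fun z => [z.2, shRw z.2])), bw ns.flatten = 0 → ∀ n ∈ ns, bw n = 0

/-- The left obstruction for words. -/
def LOw (l : List W) : Prop :=
  ¬ l = [] ∧ ∃ zs : List (W × W), zs.map Prod.fst = l ∧
    (∀ z ∈ zs, GCw z.1 (shRw z.2) ∧ ¬ bw z.2 = 0) ∧ Rno zs

lemma LOw_iff {l : List W} : LOw l ↔ LOb (l.map val) := by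
  constructor
  · rintro ⟨h0, zs, rfl, h1, h2⟩
    refine ⟨(zs.map Prod.snd).map val, map_val_GG _, ?_, ?_, ?_⟩
    · clear h0 h2
      induction zs with
      | nil => exact List.Forall₂.nil
      | cons z zs ih =>
        rw [List.map_cons, List.map_cons, List.map_cons, List.map_cons]
        obtain ⟨h2, h3⟩ := h1 z List.mem_cons_self
        rw [GCw_iff, val_shRw] at h2
        exact List.Forall₂.cons ⟨h2, by rw [bt_val]; exact h3⟩
          (ih (fun z hz => h1 z (List.mem_cons_of_mem _ hz)))
    · intro h; apply h0; rwa [List.map_eq_nil_iff] at h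
    · intro ns h3 h4
      have : ∃ ws ∈ choices (zs.map (fun z => [z.2, shRw z.2])), ws.map val = ns := by
        clear h0 h1 h2 h4
        induction zs generalizing ns with
        | nil =>
          rw [List.map_nil, List.map_nil] at h3
          cases h3
          exact ⟨[], by simp [choices_nil], rfl⟩
        | cons z zs ih =>
          rw [List.map_cons, List.map_cons] at h3
          cases h3 with
          | cons k1 k2 =>
            obtain ⟨ws, e1, e2⟩ := ih _ k2
            rw [mem_choices] at e1
            rcases k1 with rfl | rfl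
            · refine ⟨z.2 :: ws, ?_, by rw [List.map_cons, e2]⟩
              rw [mem_choices, List.map_cons]
              exact List.Forall₂.cons (by simp) e1
            · refine ⟨shRw z.2 :: ws, ?_, by rw [List.map_cons, e2, val_shRw]⟩
              rw [mem_choices, List.map_cons]
              exact List.Forall₂.cons (by simp) e1
      obtain ⟨ws, e1, rfl⟩ := this
      rw [sum_bt_map] at h4
      have := h2 ws e1 h4
      intro n hn
      obtain ⟨w, hw, rfl⟩ := List.mem_map.1 hn
      rw [bt_val]
      exact this w hw
  · rintro ⟨ms, hm, h1, h2, h3⟩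
    refine ⟨by rintro rfl; exact h2 rfl, ?_⟩
    have : ∃ zs : List (W × W), zs.map Prod.fst = l ∧ (zs.map Prod.snd).map val = ms := by
      clear h2 h3
      induction l generalizing ms with
      | nil =>
        rw [List.map_nil] at h1
        cases h1
        exact ⟨[], rfl, rfl⟩
      | cons w l ih =>
        rw [List.map_cons] at h1
        cases h1 with
        | cons k1 k2 =>
          rename_i m ms'
          obtain ⟨u, rfl⟩ := exists_val (hm m List.mem_cons_self)
          obtain ⟨zs, e1, e2⟩ := ih ms' (fun m hm' => hm m (List.mem_cons_of_mem _ hm')) k2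
          exact ⟨(w, u) :: zs, by rw [List.map_cons, e1], by
            rw [List.map_cons, List.map_cons, e2]⟩
    obtain ⟨zs, rfl, rfl⟩ := this
    refine ⟨zs, rfl, ?_, ?_⟩
    · clear h2 h3 hm
      induction zs with
      | nil => intro z hz; cases hz
      | cons z zs ih =>
        rw [List.map_cons, List.map_cons, List.map_cons, List.map_cons] at h1
        cases h1 with
        | cons k1 k2 =>
          intro y hy
          rcases List.mem_cons.1 hy with rfl | hy
          · rw [GCw_iff, val_shRw, ← bt_val]
            exact k1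
          · exact ih k2 y hy
    · intro ws hws h4
      have h5 : List.Forall₂ RSh ((zs.map Prod.snd).map val) (ws.map val) := by
        clear h1 h2 h3 hm h4
        induction zs generalizing ws with
        | nil =>
          rw [List.map_nil, choices_nil, List.mem_singleton] at hws
          subst hws
          exact List.Forall₂.nil
        | cons z zs ih =>
          rw [mem_choices, List.map_cons] at hws
          cases hws with
          | cons k1 k2 =>
            rw [List.map_cons, List.map_cons, List.map_cons]
            refine List.Forall₂.cons ?_ (ih _ (mem_choices.2 k2))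
            simp only [List.mem_cons, List.not_mem_nil, or_false] at k1
            rcases k1 with rfl | rfl
            · exact Or.inl rfl
            · exact Or.inr (val_shRw _)
      have h6 := h3 _ h5 (by rw [sum_bt_map]; exact h4)
      intro n hn
      rw [← bt_val]
      exact h6 _ (List.mem_map_of_mem hn)

section
variable {α : Type*} [Primcodable α]

lemma pr_Rno {f : α → List (W × W)} (hf : Primrec f) : PrimrecPred (fun a => Rno (f a)) := by
  unfold Rno
  have h1 : Primrec (fun y : α × (W × W) => [y.2.2, shRw y.2.2]) :=
    Primrec.list_cons.comp (Primrec.snd.comp Primrec.snd) (Primrec.list_cons.comp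
      (pr_shRw (Primrec.snd.comp Primrec.snd)) (Primrec.const []))
  have h2 : Primrec (fun a => (f a).map (fun z => [z.2, shRw z.2])) :=
    Primrec.list_map hf h1.to₂
  refine pr_all (p := fun ns _ => bw ns.flatten = 0 → ∀ n ∈ ns, bw n = 0) (pr_choices h2) ?_
  have h3 : PrimrecPred (fun y : List W × α => ¬ bw y.1.flatten = 0 ∨ ∀ n ∈ y.1, bw n = 0) :=
    (pr_bw0 (pr_flatten Primrec.fst)).not.or (pr_all (p := fun n _ => bw n = 0) Primrec.fst
      (pr_bw0 Primrec.fst))
  exact h3.of_eq (fun y => by tauto)

lemma re_LOw {f : α → List W} (hf : Primrec f) : RE (fun a => LOw (f a)) := by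
  unfold LOw
  refine RE.and (RE.of_prim (pr_eq hf (Primrec.const [])).not) (RE.exd (RE.and (RE.of_prim ?_)
    (RE.and ?_ (RE.of_prim (pr_Rno Primrec.snd)))))
  · exact pr_eq (Primrec.list_map Primrec.snd (Primrec.fst.comp Primrec.snd).to₂)
      (hf.comp Primrec.fst)
  · have h1 : RE (fun y : Unit × (W × W) => GCw y.2.1 (shRw y.2.2) ∧ ¬ bw y.2.2 = 0) :=
      RE.and (re_GCw (Primrec.fst.comp Primrec.snd) (pr_shRw (Primrec.snd.comp Primrec.snd)))
        (RE.of_prim (pr_bw0 (Primrec.snd.comp Primrec.snd)).not)
    exact (RE.all_list h1).comp (Primrec.pair (Primrec.const ()) Primrec.snd)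

lemma pr_map_rfw {f : α → List W} (hf : Primrec f) : Primrec (fun a => (f a).map rfw) :=
  Primrec.list_map hf (pr_rfw Primrec.snd).to₂

lemma pr_map_winv {f : α → List W} (hf : Primrec f) : Primrec (fun a => (f a).map winv) :=
  Primrec.list_map hf (pr_winv Primrec.snd).to₂

end

/-- Steps for unsolvability of a spherical equation. -/
def StepNSv (l : List W) (ys : List (List W)) : Prop :=
  (¬ bw l.flatten = 0) ∨ (¬ tw l.flatten = 0) ∨
  (∃ z : List W × W × List W, l = z.1 ++ z.2.1 :: z.2.2 ∧ val z.2.1 = 1 ∧ z.1 ++ z.2.2 ∈ ys) ∨
  (∃ z : List W × W × List W, l = z.1 ++ z.2.1 :: z.2.2 ∧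
    (ND (winv z.2.1, z.1 ++ z.2.2) ∨ ND (z.2.1, (z.1 ++ z.2.2).map winv))) ∨
  LOw l ∨ LOw (l.map rfw)

/-- Certified unsolvability of a spherical equation. -/
def NSv (l : List W) : Prop := Der StepNSv l

lemma re_NSv : RE NSv := by
  refine RE.der ?_
  unfold StepNSv
  have X : Primrec (fun x : List W × List (List W) => x.1) := Primrec.fst
  have Y : Primrec (fun x : List W × List (List W) => x.2) := Primrec.snd
  have U : Primrec (fun y : (List W × List (List W)) × (List W × W × List W) =>
    y.2.1) := Primrec.fst.comp Primrec.snd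
  have B : Primrec (fun y : (List W × List (List W)) × (List W × W × List W) =>
    y.2.2.1) := Primrec.fst.comp (Primrec.snd.comp Primrec.snd)
  have V : Primrec (fun y : (List W × List (List W)) × (List W × W × List W) =>
    y.2.2.2) := Primrec.snd.comp (Primrec.snd.comp Primrec.snd)
  have E := pr_eq (X.comp Primrec.fst) (pr_append U (Primrec.list_cons.comp B V))
  refine RE.or (RE.of_prim (pr_bw0 (pr_flatten X)).not)
    (RE.or (RE.of_prim (pr_tw0 (pr_flatten X)).not)
    (RE.or (RE.exd (RE.of_prim ?_))
    (RE.or (RE.exd (RE.and (RE.of_prim ?_) (RE.or ?_ ?_)))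
    (RE.or (re_LOw X) (re_LOw (pr_map_rfw X))))))
  · exact E.and ((pr_one B).and (pr_mem (Y.comp Primrec.fst) (pr_append U V)))
  · exact E
  · exact re_ND.comp (Primrec.pair (pr_winv B) (pr_append U V))
  · exact re_ND.comp (Primrec.pair B (pr_map_winv (pr_append U V)))

lemma map_val_winv (l : List W) : (l.map winv).map val = (l.map val).map (fun c => c⁻¹) := by
  rw [List.map_map, List.map_map]
  exact List.map_congr_left (fun w _ => val_winv w)

lemma Pr_inv {l : List (ℝ ≃o ℝ)} (hG : ∀ c ∈ l, c ∈ GG) : ∀ {x : ℝ ≃o ℝ}, Pr l x →
    Pr (l.map (fun c => c⁻¹)) x⁻¹ := by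
  induction l with
  | nil =>
    intro x h
    rw [Pr_nil] at h
    rw [List.map_nil, Pr_nil, h, inv_one]
  | cons a l ih =>
    intro x h
    rw [Pr_cons] at h
    obtain ⟨a', y, h1, h2, rfl⟩ := h
    have hG' : ∀ c ∈ l, c ∈ GG := fun c hc => hG c (List.mem_cons_of_mem _ hc)
    have hy := (Pr_ends hG' h2).1
    rw [List.map_cons, Pr_cons]
    refine ⟨y⁻¹ * a'⁻¹ * y⁻¹⁻¹, y⁻¹, h1.inv.conj (GG.inv_mem hy), ih hG' h2, ?_⟩
    group

lemma Pr_inv_iff {l : List (ℝ ≃o ℝ)} (hG : ∀ c ∈ l, c ∈ GG) {x : ℝ ≃o ℝ} :
    Pr (l.map (fun c => c⁻¹)) x⁻¹ ↔ Pr l x := by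
  constructor
  · intro h
    have h1 : ∀ c ∈ l.map (fun c => c⁻¹), c ∈ GG := by
      intro c hc
      obtain ⟨d, hd, rfl⟩ := List.mem_map.1 hc
      exact GG.inv_mem (hG d hd)
    have h2 := Pr_inv h1 h
    rw [inv_inv, List.map_map] at h2
    have : ((fun c : ℝ ≃o ℝ => c⁻¹) ∘ fun c => c⁻¹) = id := by funext c; simp
    rwa [this, List.map_id] at h2
  · exact Pr_inv hG

lemma Sv_cons_iff {c : ℝ ≃o ℝ} {l : List (ℝ ≃o ℝ)} : Sv (c :: l) ↔ Pr l c⁻¹ := by
  unfold Sv
  rw [Pr_cons]
  constructor
  · rintro ⟨a', y, h1, h2, h3⟩
    have : y = a'⁻¹ := eq_inv_of_mul_eq_one_right h3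
    rw [this] at h2
    exact h2.of_GC h1.inv.symm
  · intro h
    exact ⟨c, c⁻¹, GC.refl c, h, mul_inv_cancel c⟩

lemma Sv_middle {u v : List W} {c : W} :
    Sv ((u ++ c :: v).map val) ↔ Pr ((u ++ v).map val) (val c)⁻¹ := by
  rw [← Sv_cons_iff]
  have p : ((u ++ c :: v).map val).Perm ((c :: (u ++ v)).map val) :=
    List.Perm.map _ List.perm_middle
  constructor
  · exact fun h => h.perm p (map_val_GG _)
  · exact fun h => h.perm p.symm (map_val_GG _)

theorem NSv_sound {l : List W} (h : NSv l) : ¬ Sv (l.map val) := by
  induction h with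
  | mk l ys h _ ih =>
    intro hS
    obtain ⟨hb, ht⟩ := hS.ends (map_val_GG _)
    rw [sum_bt_map] at hb
    rw [sum_tp_map] at ht
    rcases h with h | h | ⟨z, h1, h2, h3⟩ | ⟨z, h1, h2⟩ | h | h
    · exact h hb
    · exact h ht
    · refine ih _ h3 ?_
      rw [h1] at hS
      exact (Pr_drop h2).1 hS
    · rw [h1, Sv_middle] at hS
      rcases h2 with h2 | h2
      · apply ND_sound h2
        simp only
        rw [val_winv]
        exact hS
      · apply ND_sound h2
        simp only
        rw [map_val_winv]
        have := Pr_inv (map_val_GG _) hS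
        rwa [inv_inv] at this
    · exact LOb_sound (LOw_iff.1 h) hS
    · rw [LOw_iff] at h
      have e : (l.map rfw).map val = (l.map val).map rf := by
        rw [List.map_map, List.map_map]
        exact List.map_congr_left (fun w _ => val_rfw w)
      rw [e] at h
      exact LOb_sound h (Sv_rf hS)

lemma exists_exc {Q : (ℝ ≃o ℝ) → Prop} (l : List W) (hl : l ≠ []) (h : ct Q (l.map val) ≤ 1) :
    ∃ u c v, l = u ++ c :: v ∧ ∀ b ∈ u ++ v, ¬ Q (val b) := by
  classical
  by_cases h0 : ∃ c ∈ l, Q (val c)
  · obtain ⟨c, hc, hQ⟩ := h0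
    obtain ⟨u, v, rfl⟩ := List.append_of_mem hc
    refine ⟨u, c, v, rfl, ?_⟩
    have p : ((u ++ c :: v).map val).Perm ((c :: (u ++ v)).map val) :=
      List.Perm.map _ List.perm_middle
    rw [ct_perm Q p, List.map_cons, ct_cons, if_pos hQ] at h
    intro b hb hQb
    have : 0 < ct Q ((u ++ v).map val) := ct_pos.2 ⟨val b, List.mem_map_of_mem hb, hQb⟩
    omega
  · push Not at h0
    obtain ⟨c, l', rfl⟩ := List.exists_cons_of_ne_nil hl
    exact ⟨[], c, l', rfl, fun b hb => h0 b (List.mem_cons_of_mem _ hb)⟩

lemma NSv.leaf {l : List W} (h : StepNSv l []) : NSv l := Der.mk l [] h (by simp)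

lemma NSv_complete (n : ℕ) : ∀ l : List W, l.length = n → ¬ Sv (l.map val) → NSv l := by
  induction n with
  | zero =>
    intro l hl h
    rw [List.length_eq_zero_iff] at hl
    subst hl
    exact absurd Sv_nil h
  | succ n ih =>
    intro l hl h
    by_cases hb : bw l.flatten = 0
    · by_cases ht : tw l.flatten = 0
      · by_cases htriv : ∃ b ∈ l, val b = 1
        · obtain ⟨b, hb1, hb2⟩ := htriv
          obtain ⟨u, v, rfl⟩ := List.append_of_mem hb1
          refine Der.mk _ [u ++ v] (Or.inr (Or.inr (Or.inl ⟨(u, b, v), rfl, hb2, by simp⟩))) ?_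
          intro y hy
          rw [List.mem_singleton] at hy
          subst hy
          refine ih (u ++ v) ?_ ?_
          · simp at hl ⊢; omega
          · intro h2; exact h ((Pr_drop hb2).2 h2)
        · push Not at htriv
          have hlne : l ≠ [] := by rintro rfl; simp at hl
          by_cases hN : ct HasN (l.map val) ≤ 1
          · obtain ⟨u, c, v, rfl, h1⟩ := exists_exc l hlne hN
            refine NSv.leaf (Or.inr (Or.inr (Or.inr (Or.inl ⟨(u, c, v), rfl, Or.inl ?_⟩))))
            rw [ND_iff (Or.inl h1), val_winv, ← Sv_middle]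
            exact h
          · by_cases hP : ct HasP (l.map val) ≤ 1
            · obtain ⟨u, c, v, rfl, h1⟩ := exists_exc l hlne hP
              refine NSv.leaf (Or.inr (Or.inr (Or.inr (Or.inl ⟨(u, c, v), rfl, Or.inr ?_⟩))))
              rw [ND_iff]
              · rw [map_val_winv]
                intro h2
                apply h
                rw [Sv_middle, ← Pr_inv_iff (map_val_GG _), inv_inv]
                exact h2
              · left
                intro b hb'
                obtain ⟨w, hw, rfl⟩ := List.mem_map.1 hb'
                rw [val_winv, hasN_inv]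
                exact h1 w hw
            · push Not at hN hP
              by_cases hlen : 3 ≤ l.length
              · by_cases hL : LOw l
                · exact NSv.leaf (Or.inr (Or.inr (Or.inr (Or.inr (Or.inl hL)))))
                · by_cases hR : LOw (l.map rfw)
                  · exact NSv.leaf (Or.inr (Or.inr (Or.inr (Or.inr (Or.inr hR)))))
                  · exfalso
                    apply h
                    have e : (l.map rfw).map val = (l.map val).map rf := by
                      rw [List.map_map, List.map_map]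
                      exact List.map_congr_left (fun w _ => val_rfw w)
                    rw [LOw_iff] at hL hR
                    rw [e] at hR
                    refine sphere_solvable ?_ hL hR
                    constructor
                    · exact map_val_GG _
                    · intro c hc
                      obtain ⟨w, hw, rfl⟩ := List.mem_map.1 hc
                      exact htriv w hw
                    · rw [List.length_map]; exact hlen
                    · exact hP
                    · exact hN
                    · rw [sum_bt_map]; exact hb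
                    · rw [sum_tp_map]; exact ht
              · match l, hlne, hl, h, hlen with
                | [c], _, _, h, _ =>
                  refine NSv.leaf (Or.inr (Or.inr (Or.inr (Or.inl ⟨([], c, []), rfl,
                    Or.inl ?_⟩))))
                  rw [ND_iff (Or.inl (by simp)), val_winv, ← Sv_middle]
                  exact h
                | [c, b], _, _, h, _ =>
                  refine NSv.leaf (Or.inr (Or.inr (Or.inr (Or.inl ⟨([], c, [b]), rfl,
                    Or.inl ?_⟩))))
                  rw [ND_iff (Or.inr rfl), val_winv, ← Sv_middle]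
                  exact h
                | a :: b :: c :: l', _, _, _, hlen => simp at hlen
      · exact NSv.leaf (Or.inr (Or.inl ht))
    · exact NSv.leaf (Or.inl hb)

/-- **The spherical problem**: unsolvability is certified. -/
theorem NSv_iff {l : List W} : NSv l ↔ ¬ Sv (l.map val) :=
  ⟨NSv_sound, NSv_complete _ l rfl⟩

end Pool.Agent.Lib_helper30
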