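import Mathlib

set_option autoImplicit false

namespace Pool.Agent.Lib_helper30

open Filter Topology Set

/-- The subring of dyadic rationals inside the reals. -/
def Dy : Subring ℝ where
  carrier := {x | ∃ (n : ℕ) (a : ℤ), x * 2 ^ n = a}
  mul_mem' := by
    rintro x y ⟨n, a, ha⟩ ⟨m, b, hb⟩
    refine ⟨n + m, a * b, ?_⟩
    push_cast
    rw [← ha, ← hb, pow_add]; ring
  one_mem' := ⟨0, 1, by simp⟩
  add_mem' := by
    rintro x y ⟨n, a, ha⟩ ⟨m, b, hb⟩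
    refine ⟨n + m, a * 2 ^ m + b * 2 ^ n, ?_⟩
    push_cast
    rw [← ha, ← hb, pow_add]; ring
  zero_mem' := ⟨0, 0, by simp⟩
  neg_mem' := by
    rintro x ⟨n, a, ha⟩
    refine ⟨n, -a, ?_⟩
    push_cast
    rw [← ha]; ring

lemma Dy_int (a : ℤ) : (a : ℝ) ∈ Dy := ⟨0, a, by simp⟩
lemma Dy_nat (a : ℕ) : (a : ℝ) ∈ Dy := ⟨0, a, by simp⟩

lemma Dy_half : (1 / 2 : ℝ) ∈ Dy := ⟨1, 1, by norm_num⟩

lemma Dy_zpow (m : ℤ) : (2 : ℝ) ^ m ∈ Dy := by
  rcases m.eq_nat_or_neg with ⟨n, rfl | rfl⟩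
  · refine ⟨0, 2 ^ n, by simp⟩
  · refine ⟨n, 1, ?_⟩
    rw [zpow_neg, zpow_natCast]
    field_simp
    simp

lemma Dy_dense {a b : ℝ} (h : a < b) : ∃ x ∈ Dy, a < x ∧ x < b := by
  obtain ⟨n, hn⟩ : ∃ n : ℕ, 1 / (b - a) < 2 ^ n := pow_unbounded_of_one_lt _ (by norm_num)
  have hba : 0 < b - a := sub_pos.2 h
  have h2 : (0 : ℝ) < 2 ^ n := by positivity
  have h3 : 1 < (b - a) * 2 ^ n := by
    rw [div_lt_iff₀ hba] at hn; linarith [mul_comm (b - a) (2 ^ n : ℝ)]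
  refine ⟨(⌊a * 2 ^ n⌋ + 1 : ℤ) / 2 ^ n, ?_, ?_, ?_⟩
  · refine ⟨n, ⌊a * 2 ^ n⌋ + 1, ?_⟩
    field_simp
  · rw [lt_div_iff₀ h2]
    push_cast
    exact Int.lt_floor_add_one _
  · rw [div_lt_iff₀ h2]
    push_cast
    have := Int.floor_le (a * 2 ^ n)
    nlinarith

/-- `f` is eventually along `l` an affine map with slope a power of two and dyadic constant. -/
def Aff (f : ℝ → ℝ) (l : Filter ℝ) : Prop :=
  ∃ m : ℤ, ∃ b ∈ Dy, ∀ᶠ t in l, f t = 2 ^ m * t + b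

lemma Aff.congr {f g : ℝ → ℝ} {l : Filter ℝ} (h : Aff f l) (h' : ∀ᶠ t in l, g t = f t) :
    Aff g l := by
  obtain ⟨m, b, hb, hm⟩ := h
  refine ⟨m, b, hb, ?_⟩
  filter_upwards [hm, h'] with t h1 h2
  rw [h2, h1]

lemma Aff.mono {f : ℝ → ℝ} {l l' : Filter ℝ} (h : Aff f l) (hl : l' ≤ l) : Aff f l' := by
  obtain ⟨m, b, hb, hm⟩ := h
  exact ⟨m, b, hb, hm.filter_mono hl⟩

lemma Aff.comp {f g : ℝ → ℝ} {l l' : Filter ℝ} (hf : Aff f l') (hg : Aff g l)
    (ht : Tendsto g l l') : Aff (f ∘ g) l := by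
  obtain ⟨m, b, hb, hm⟩ := hf
  obtain ⟨n, c, hc, hn⟩ := hg
  refine ⟨m + n, 2 ^ m * c + b, Dy.add_mem (Dy.mul_mem (Dy_zpow m) hc) hb, ?_⟩
  filter_upwards [hn, ht.eventually hm] with t h1 h2
  simp only [Function.comp]
  rw [h2, h1, zpow_add₀ (by norm_num)]
  ring

/-- The germ conditions defining piecewise linear maps with dyadic breakpoints and slopes
powers of two (locally finitely many breakpoints). -/
structure PL2 (f : ℝ ≃o ℝ) : Prop where
  left : ∀ x, Aff f (𝓝[≤] x)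
  right : ∀ x, Aff f (𝓝[≥] x)
  both : ∀ x, x ∉ Dy → Aff f (𝓝 x)

lemma tendsto_le (f : ℝ ≃o ℝ) (x : ℝ) : Tendsto f (𝓝[≤] x) (𝓝[≤] (f x)) :=
  f.continuous.continuousWithinAt.tendsto_nhdsWithin (fun _ h => f.monotone h)

lemma tendsto_ge (f : ℝ ≃o ℝ) (x : ℝ) : Tendsto f (𝓝[≥] x) (𝓝[≥] (f x)) :=
  f.continuous.continuousWithinAt.tendsto_nhdsWithin (fun _ h => f.monotone h)

lemma tendsto_both (f : ℝ ≃o ℝ) (x : ℝ) : Tendsto f (𝓝 x) (𝓝 (f x)) :=
  f.continuous.tendsto x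

lemma PL2.dy_iff {f : ℝ ≃o ℝ} (hf : PL2 f) (x : ℝ) : f x ∈ Dy ↔ x ∈ Dy := by
  obtain ⟨m, b, hb, hm⟩ := hf.right x
  have h := hm.self_of_nhdsWithin (Set.mem_Ici.2 le_rfl)
  rw [h]
  constructor
  · intro h1
    have h2 := Dy.mul_mem (Dy_zpow (-m)) (Dy.sub_mem h1 hb)
    have h3 : (2 : ℝ) ^ (-m) * (2 ^ m * x + b - b) = x := by
      rw [zpow_neg]
      have : (2 : ℝ) ^ m ≠ 0 := by positivity
      field_simp
      ring
    rwa [h3] at h2
  · intro h1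
    exact Dy.add_mem (Dy.mul_mem (Dy_zpow m) h1) hb

lemma mul_apply' (f g : ℝ ≃o ℝ) (x : ℝ) : (f * g) x = f (g x) := rfl

lemma one_apply' (x : ℝ) : (1 : ℝ ≃o ℝ) x = x := rfl

lemma inv_apply' (f : ℝ ≃o ℝ) (x : ℝ) : f⁻¹ (f x) = x := by
  rw [← mul_apply', inv_mul_cancel]; rfl

lemma apply_inv' (f : ℝ ≃o ℝ) (x : ℝ) : f (f⁻¹ x) = x := by
  rw [← mul_apply', mul_inv_cancel]; rfl

lemma PL2.mul {f g : ℝ ≃o ℝ} (hf : PL2 f) (hg : PL2 g) : PL2 (f * g) where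
  left x := (hf.left (g x)).comp (hg.left x) (tendsto_le g x)
  right x := (hf.right (g x)).comp (hg.right x) (tendsto_ge g x)
  both x hx := (hf.both (g x) (fun h => hx ((hg.dy_iff x).1 h))).comp (hg.both x hx)
    (tendsto_both g x)

lemma Aff.inv {f : ℝ ≃o ℝ} {l l' : Filter ℝ} (hf : Aff f l) (ht : Tendsto (f⁻¹ : ℝ ≃o ℝ) l' l) :
    Aff (f⁻¹ : ℝ ≃o ℝ) l' := by
  obtain ⟨m, b, hb, hm⟩ := hf
  refine ⟨-m, - (2 ^ (-m) * b), Dy.neg_mem (Dy.mul_mem (Dy_zpow _) hb), ?_⟩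
  filter_upwards [ht.eventually hm] with s hs
  rw [apply_inv'] at hs
  have h2 : (2 : ℝ) ^ m ≠ 0 := by positivity
  rw [zpow_neg]
  field_simp
  linarith

lemma PL2.inv {f : ℝ ≃o ℝ} (hf : PL2 f) : PL2 f⁻¹ where
  left x := by
    refine (hf.left (f⁻¹ x)).inv ?_
    exact tendsto_le f⁻¹ x
  right x := by
    refine (hf.right (f⁻¹ x)).inv ?_
    exact tendsto_ge f⁻¹ x
  both x hx := by
    refine (hf.both (f⁻¹ x) (fun h => hx ?_)).inv ?_
    · have := (hf.dy_iff (f⁻¹ x)).2 h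
      rwa [apply_inv'] at this
    · exact tendsto_both f⁻¹ x

lemma Aff_id (l : Filter ℝ) : Aff (fun t => t) l :=
  ⟨0, 0, Dy.zero_mem, by simp⟩

lemma PL2_one : PL2 1 where
  left _ := Aff_id _
  right _ := Aff_id _
  both _ _ := Aff_id _

/-- The group of locally finite piecewise linear homeomorphisms. -/
def HH : Subgroup (ℝ ≃o ℝ) where
  carrier := {f | PL2 f}
  mul_mem' := PL2.mul
  one_mem' := PL2_one
  inv_mem' := PL2.inv

lemma mem_HH {f : ℝ ≃o ℝ} : f ∈ HH ↔ PL2 f := Iff.rfl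

/-- Translation by a real number. -/
def tr (a : ℝ) : ℝ ≃o ℝ := OrderIso.addRight a

@[simp] lemma tr_apply (a t : ℝ) : tr a t = t + a := rfl

lemma tr_mul (a b : ℝ) : tr a * tr b = tr (a + b) := by
  ext t; rw [mul_apply']; simp; ring

lemma tr_zero : tr 0 = 1 := by
  ext t; simp

lemma tr_inv (a : ℝ) : (tr a)⁻¹ = tr (-a) := by
  rw [inv_eq_iff_mul_eq_one, tr_mul, add_neg_cancel, tr_zero]

lemma tr_pow (a : ℝ) (n : ℕ) : tr a ^ n = tr (n * a) := by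
  induction n with
  | zero => simp [tr_zero]
  | succ n ih => rw [pow_succ, ih, tr_mul]; push_cast; ring_nf

lemma tr_mem_HH {a : ℝ} (ha : a ∈ Dy) : tr a ∈ HH := by
  have h : ∀ l : Filter ℝ, Aff (tr a) l := fun l => ⟨0, a, ha, by simp⟩
  exact ⟨fun x => h _, fun x => h _, fun x _ => h _⟩

/-- Scaling by a power of two. -/
noncomputable def sc (m : ℤ) : ℝ ≃o ℝ := OrderIso.mulLeft₀ ((2 : ℝ) ^ m) (by positivity)

@[simp] lemma sc_apply (m : ℤ) (t : ℝ) : sc m t = 2 ^ m * t := rfl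

lemma sc_mem_HH (m : ℤ) : sc m ∈ HH := by
  have h : ∀ l : Filter ℝ, Aff (sc m) l := fun l => ⟨m, 0, Dy.zero_mem, by simp⟩
  exact ⟨fun x => h _, fun x => h _, fun x _ => h _⟩

lemma sc_inv (m : ℤ) : (sc m)⁻¹ = sc (-m) := by
  rw [inv_eq_iff_mul_eq_one]
  ext t
  rw [mul_apply', sc_apply, sc_apply, ← mul_assoc, ← zpow_add₀ (by norm_num)]
  simp

/-- Gluing two order isomorphisms at a point where they agree. -/
noncomputable def glue (f g : ℝ ≃o ℝ) (p : ℝ) (h : f p = g p) : ℝ ≃o ℝ := by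
  refine StrictMono.orderIsoOfSurjective (fun t => if t ≤ p then f t else g t) ?_ ?_
  · intro a b hab
    simp only
    by_cases ha : a ≤ p
    · by_cases hb : b ≤ p
      · rw [if_pos ha, if_pos hb]; exact f.strictMono hab
      · rw [if_pos ha, if_neg hb]
        push Not at hb
        calc f a ≤ f p := f.monotone ha
          _ = g p := h
          _ < g b := g.strictMono hb
    · have hb : ¬ b ≤ p := fun hb => ha (hab.le.trans hb)
      rw [if_neg ha, if_neg hb]; exact g.strictMono hab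
  · intro s
    by_cases hs : s ≤ f p
    · refine ⟨f⁻¹ s, ?_⟩
      have : f⁻¹ s ≤ p := by
        rw [← f.le_iff_le, apply_inv']; exact hs
      simp only
      rw [if_pos this, apply_inv']
    · refine ⟨g⁻¹ s, ?_⟩
      have : ¬ g⁻¹ s ≤ p := by
        rw [← g.le_iff_le, apply_inv', ← h]; exact hs
      simp only
      rw [if_neg this, apply_inv']

lemma glue_apply (f g : ℝ ≃o ℝ) (p : ℝ) (h : f p = g p) (t : ℝ) :
    glue f g p h t = if t ≤ p then f t else g t := by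
  rfl

lemma glue_le {f g : ℝ ≃o ℝ} {p : ℝ} {h : f p = g p} {t : ℝ} (ht : t ≤ p) :
    glue f g p h t = f t := by
  rw [glue_apply, if_pos ht]

lemma glue_ge {f g : ℝ ≃o ℝ} {p : ℝ} {h : f p = g p} {t : ℝ} (ht : p ≤ t) :
    glue f g p h t = g t := by
  rw [glue_apply]
  split_ifs with h1
  · rw [le_antisymm h1 ht, h]
  · rfl

lemma glue_mem_HH {f g : ℝ ≃o ℝ} {p : ℝ} {h : f p = g p} (hf : f ∈ HH) (hg : g ∈ HH)
    (hp : p ∈ Dy) : glue f g p h ∈ HH := by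
  refine ⟨fun x => ?_, fun x => ?_, fun x hx => ?_⟩
  · by_cases hxp : x ≤ p
    · refine (hf.left x).congr ?_
      filter_upwards [self_mem_nhdsWithin] with t ht
      exact glue_le (le_trans ht hxp)
    · push Not at hxp
      refine (hg.left x).congr ?_
      filter_upwards [mem_nhdsWithin_of_mem_nhds (Ioi_mem_nhds hxp)] with t ht
      exact glue_ge (le_of_lt ht)
  · by_cases hxp : p ≤ x
    · refine (hg.right x).congr ?_
      filter_upwards [self_mem_nhdsWithin] with t ht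
      exact glue_ge (le_trans hxp ht)
    · push Not at hxp
      refine (hf.right x).congr ?_
      filter_upwards [mem_nhdsWithin_of_mem_nhds (Iio_mem_nhds hxp)] with t ht
      exact glue_le (le_of_lt ht)
  · rcases lt_trichotomy x p with hxp | hxp | hxp
    · refine (hf.both x hx).congr ?_
      filter_upwards [Iio_mem_nhds hxp] with t ht
      exact glue_le (le_of_lt ht)
    · exact absurd (hxp ▸ hp) hx
    · refine (hg.both x hx).congr ?_
      filter_upwards [Ioi_mem_nhds hxp] with t ht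
      exact glue_ge (le_of_lt ht)

/-- A locality principle: membership in `HH` can be checked with local models. -/
lemma mem_HH_of_local {f : ℝ ≃o ℝ}
    (hl : ∀ x, ∃ g ∈ HH, ∀ᶠ t in 𝓝[≤] x, f t = g t)
    (hr : ∀ x, ∃ g ∈ HH, ∀ᶠ t in 𝓝[≥] x, f t = g t)
    (hb : ∀ x, x ∉ Dy → ∃ g ∈ HH, ∀ᶠ t in 𝓝 x, f t = g t) : f ∈ HH := by
  refine ⟨fun x => ?_, fun x => ?_, fun x hx => ?_⟩
  · obtain ⟨g, hg, h⟩ := hl x
    exact (hg.left x).congr h
  · obtain ⟨g, hg, h⟩ := hr x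
    exact (hg.right x).congr h
  · obtain ⟨g, hg, h⟩ := hb x hx
    exact (hg.both x hx).congr h

end Pool.Agent.Lib_helper30
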