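import Pool.Agent.Lib_helper30.Reflect

set_option autoImplicit false

namespace Pool.Agent.Lib_helper30

open Filter Topology Set

/-- Eventually positive. -/
def EvP (f : ℝ ≃o ℝ) : Prop := ∀ᶠ t in atTop, t < f t

/-- Eventually negative. -/
def EvN (f : ℝ ≃o ℝ) : Prop := ∀ᶠ t in atTop, f t < t

lemma EvP.inv {f : ℝ ≃o ℝ} (h : EvP f) : EvN f⁻¹ := by
  filter_upwards [(f⁻¹.tendsto_atTop).eventually h] with t ht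
  rwa [apply_inv'] at ht

lemma EvN.inv {f : ℝ ≃o ℝ} (h : EvN f) : EvP f⁻¹ := by
  filter_upwards [(f⁻¹.tendsto_atTop).eventually h] with t ht
  rwa [apply_inv'] at ht

lemma EvP_tr {b : ℤ} (hb : 0 < b) : EvP (tr b) := by
  apply Eventually.of_forall
  intro t
  rw [tr_apply]
  have : (0 : ℝ) < b := by exact_mod_cast hb
  linarith

lemma EvN_tr {b : ℤ} (hb : b < 0) : EvN (tr b) := by
  apply Eventually.of_forall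
  intro t
  rw [tr_apply]
  have : (b : ℝ) < 0 := by exact_mod_cast hb
  linarith

lemma St.rot {f₁ f₂ f₃ : ℝ ≃o ℝ} (h : St f₁ f₂ f₃) : St f₂ f₃ f₁ := by
  obtain ⟨F₁, h₁, F₂, h₂, F₃, h₃, k1, k2, k3, hp⟩ := h
  refine ⟨F₂, h₂, F₃, h₃, F₁, h₁, k2, k3, k1, ?_⟩
  calc F₂ * F₃ * F₁ = F₁⁻¹ * (F₁ * F₂ * F₃) * F₁ := by group
    _ = 1 := by rw [hp]; group

lemma St.swap {f₁ f₂ f₃ : ℝ ≃o ℝ} (h : St f₁ f₂ f₃) : St f₂ f₁ f₃ := by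
  obtain ⟨F₁, h₁, F₂, h₂, F₃, h₃, k1, k2, k3, hp⟩ := h
  refine ⟨F₂, h₂, F₂⁻¹ * F₁ * F₂⁻¹⁻¹, GG.mul_mem (GG.mul_mem (GG.inv_mem h₂) h₁)
    (GG.inv_mem (GG.inv_mem h₂)), F₃, h₃, k2, k1.conj (GG.inv_mem h₂), k3, ?_⟩
  rw [← hp]; group

lemma St.symm {f₁ f₂ f₃ : ℝ ≃o ℝ} (h : St f₁ f₂ f₃) : St f₃ f₂ f₁ := h.swap.rot.rot

lemma St.invs {f₁ f₂ f₃ : ℝ ≃o ℝ} (h : St f₁ f₂ f₃) : St f₃⁻¹ f₂⁻¹ f₁⁻¹ := by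
  obtain ⟨F₁, h₁, F₂, h₂, F₃, h₃, k1, k2, k3, hp⟩ := h
  refine ⟨F₃⁻¹, GG.inv_mem h₃, F₂⁻¹, GG.inv_mem h₂, F₁⁻¹, GG.inv_mem h₁, k3.inv, k2.inv, k1.inv, ?_⟩
  calc F₃⁻¹ * F₂⁻¹ * F₁⁻¹ = (F₁ * F₂ * F₃)⁻¹ := by group
    _ = 1 := by rw [hp]; group

lemma St.mono₃ {f₁ f₂ f₃ f₃' : ℝ ≃o ℝ} (h : St f₁ f₂ f₃) (h' : LC f₃ f₃') : St f₁ f₂ f₃' := by
  obtain ⟨F₁, h₁, F₂, h₂, F₃, h₃, k1, k2, k3, hp⟩ := h
  exact ⟨F₁, h₁, F₂, h₂, F₃, h₃, k1, k2, h'.symm.trans k3, hp⟩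

/-- Opposite eventual signs. -/
def Opp (f g : ℝ ≃o ℝ) : Prop := (EvP f ∧ EvN g) ∨ (EvN f ∧ EvP g)

lemma St.mid {f₁ f₂ f₂' f₃ : ℝ ≃o ℝ} (h : St f₁ f₂ f₃) (hf₂ : f₂ ∈ GG) (hf₂' : f₂' ∈ GG)
    (h2 : Ext f₂ f₂') (ho : Opp f₁ f₃) : St f₁ f₂' f₃ := by
  rcases ho with ⟨a, b⟩ | ⟨a, b⟩
  · exact macro_move hf₂ hf₂' h a b h2
  · exact (macro_move hf₂ hf₂' h.symm b a h2).symm

lemma St.left {f₁ f₁' f₂ f₃ : ℝ ≃o ℝ} (h : St f₁ f₂ f₃) (hf₁ : f₁ ∈ GG) (hf₁' : f₁' ∈ GG)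
    (h2 : Ext f₁ f₁') (ho : Opp f₂ f₃) : St f₁' f₂ f₃ :=
  (h.swap.mid hf₁ hf₁' h2 ho).swap

lemma St.right {f₁ f₂ f₃ f₃' : ℝ ≃o ℝ} (h : St f₁ f₂ f₃) (hf₃ : f₃ ∈ GG) (hf₃' : f₃' ∈ GG)
    (h2 : Ext f₃ f₃') (ho : Opp f₁ f₂) : St f₁ f₂ f₃' :=
  (h.rot.mid hf₃ hf₃' h2 (by rcases ho with ⟨a, b⟩ | ⟨a, b⟩; exacts [Or.inr ⟨b, a⟩, Or.inl ⟨b, a⟩])).rot.rot

lemma tr_mem_GG (b : ℤ) : tr b ∈ GG := tr_int_GG b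

/-- A translation may be extended to any element with the same germ at `-∞`. -/
lemma Ext_tr {φ : ℝ ≃o ℝ} {b : ℤ} (h : EndBot φ b) : Ext (tr b) φ := by
  unfold EndBot at h
  obtain ⟨x, hx⟩ := eventually_atBot.1 h
  obtain ⟨n, hn⟩ := exists_nat_gt (-x)
  refine ⟨-(n : ℝ), Dy.neg_mem (Dy_nat n), ?_, ?_⟩
  · intro t ht
    rw [hx t (by linarith), tr_apply]
  · rcases lt_trichotomy b 0 with hb | hb | hb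
    · right; left
      intro t _
      rw [tr_apply]
      have : (b : ℝ) < 0 := by exact_mod_cast hb
      linarith
    · right; right
      refine ⟨-(n : ℝ) - 1, Dy.sub_mem (Dy.neg_mem (Dy_nat n)) Dy.one_mem, by linarith, ?_⟩
      intro t _
      rw [tr_apply, hb]; simp
    · left
      intro t _
      rw [tr_apply]
      have : (0 : ℝ) < b := by exact_mod_cast hb
      linarith

lemma St_tr {b₁ b₂ b₃ : ℤ} (h : b₁ + b₂ + b₃ = 0) : St (tr b₁) (tr b₂) (tr b₃) := by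
  refine ⟨_, tr_mem_GG b₁, _, tr_mem_GG b₂, _, tr_mem_GG b₃, LC.refl _, LC.refl _, LC.refl _, ?_⟩
  rw [tr_mul, tr_mul, ← tr_zero]
  congr 1
  exact_mod_cast h

/-- Existence of half solutions. -/
theorem past_half {φ₁ φ₂ φ₃ : ℝ ≃o ℝ} (h₁ : φ₁ ∈ GG) (h₂ : φ₂ ∈ GG) (h₃ : φ₃ ∈ GG) {b₁ b₂ b₃ : ℤ}
    (k₁ : EndBot φ₁ b₁) (k₂ : EndBot φ₂ b₂) (k₃ : EndBot φ₃ b₃) (hsum : b₁ + b₂ + b₃ = 0)
    (hne : b₁ ≠ 0 ∨ b₂ ≠ 0 ∨ b₃ ≠ 0) (e₁ : EvN φ₁) (e₂ : EvN φ₂) (e₃ : EvP φ₃)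
    (hpos : 0 < b₃ → ∀ t, t < φ₃ t) : St φ₁ φ₂ φ₃ := by
  have S0 := St_tr hsum
  have t₁ := tr_mem_GG b₁
  have t₂ := tr_mem_GG b₂
  have t₃ := tr_mem_GG b₃
  -- the final phase
  have fin : ∀ (S : St (tr b₁) (tr b₂) φ₃), (b₁ < 0 ∨ b₂ < 0) → St φ₁ φ₂ φ₃ := by
    intro S hb
    rcases hb with hb | hb
    · have S1 := S.mid t₂ h₂ (Ext_tr k₂) (Or.inr ⟨EvN_tr hb, e₃⟩)
      exact S1.left t₁ h₁ (Ext_tr k₁) (Or.inr ⟨e₂, e₃⟩)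
    · have S1 := S.left t₁ h₁ (Ext_tr k₁) (Or.inr ⟨EvN_tr hb, e₃⟩)
      exact S1.mid t₂ h₂ (Ext_tr k₂) (Or.inr ⟨e₁, e₃⟩)
  rcases lt_trichotomy b₃ 0 with hb | hb | hb
  · by_cases hb2 : 0 < b₂
    · have S1 := S0.left t₁ h₁ (Ext_tr k₁) (Or.inl ⟨EvP_tr hb2, EvN_tr hb⟩)
      have S2 := S1.right t₃ h₃ (Ext_tr k₃) (Or.inr ⟨e₁, EvP_tr hb2⟩)
      exact S2.mid t₂ h₂ (Ext_tr k₂) (Or.inr ⟨e₁, e₃⟩)
    · have hb1 : 0 < b₁ := by omega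
      have S1 := S0.mid t₂ h₂ (Ext_tr k₂) (Or.inl ⟨EvP_tr hb1, EvN_tr hb⟩)
      have S2 := S1.right t₃ h₃ (Ext_tr k₃) (Or.inl ⟨EvP_tr hb1, e₂⟩)
      exact S2.left t₁ h₁ (Ext_tr k₁) (Or.inr ⟨e₂, e₃⟩)
  · have hopp : Opp (tr b₁) (tr b₂) := by
      rcases lt_trichotomy b₁ 0 with h | h | h
      · exact Or.inr ⟨EvN_tr h, EvP_tr (by omega)⟩
      · exfalso; omega
      · exact Or.inl ⟨EvP_tr h, EvN_tr (by omega)⟩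
    have S1 := S0.right t₃ h₃ (Ext_tr k₃) hopp
    exact fin S1 (by omega)
  · have hLC : LC (tr b₃) φ₃ := by
      obtain ⟨s, hs, hag, -⟩ := Ext_tr k₃
      obtain ⟨g, hg, hg1, hg2⟩ := conj_of_agree t₃.1 h₃.1 hs hag (by
        intro t _
        rw [tr_apply]
        have : (0 : ℝ) < b₃ := by exact_mod_cast hb
        linarith) (fun t _ => hpos hb t)
      refine ⟨g, hg, ⟨0, ?_⟩, by rw [hg2]; group⟩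
      unfold EndBot
      filter_upwards [eventually_le_atBot (tr b₃ s)] with t ht
      rw [hg1 t ht]; simp
    exact fin (S0.mono₃ hLC) (by omega)

end Pool.Agent.Lib_helper30
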