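import Pool.Agent.Lib_helper30.Iso

set_option autoImplicit false

namespace Pool.Agent.Lib_helper30

open Filter Topology Set
open scoped commutatorElement

/-- Elements of `HH` with compact support. -/
def GcR : Subgroup (ℝ ≃o ℝ) where
  carrier := {f | ∃ n : ℕ, f ∈ Gc (-(n : ℝ)) n}
  mul_mem' := by
    rintro f g ⟨n, hn⟩ ⟨m, hm⟩
    have h1 : (n : ℝ) ≤ (max n m : ℕ) := by exact_mod_cast le_max_left n m
    have h2 : (m : ℝ) ≤ (max n m : ℕ) := by exact_mod_cast le_max_right n m
    exact ⟨max n m, Subgroup.mul_mem _ (Gc_mono (by linarith) h1 hn) (Gc_mono (by linarith) h2 hm)⟩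
  one_mem' := ⟨0, Subgroup.one_mem _⟩
  inv_mem' := by
    rintro f ⟨n, hn⟩
    exact ⟨n, Subgroup.inv_mem _ hn⟩

lemma Gc_le_GcR (a b : ℝ) : Gc a b ≤ GcR := by
  intro f hf
  obtain ⟨n, hn⟩ := exists_nat_gt (max (-a) b)
  have h1 := (le_max_left (-a) b).trans_lt hn
  have h2 := (le_max_right (-a) b).trans_lt hn
  exact ⟨n, Gc_mono (by linarith) h2.le hf⟩

lemma GcR_le_GG : GcR ≤ GG := by
  rintro f ⟨n, hn⟩
  exact Gc_le_GG _ _ hn

lemma GcR_conj {f g : ℝ ≃o ℝ} (hf : f ∈ GcR) (hg : g ∈ HH) : g * f * g⁻¹ ∈ GcR := by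
  obtain ⟨n, hn⟩ := hf
  exact Gc_le_GcR _ _ (Gc_conj hn hg le_rfl le_rfl)

/-- Elements of `GG` which are trivial near both ends. -/
lemma GG_trivial_ends {f : ℝ ≃o ℝ} (hf : f ∈ GG) (h1 : ∀ᶠ t in atBot, f t = t)
    (h2 : ∀ᶠ t in atTop, f t = t) : f ∈ GcR := by
  obtain ⟨a, ha⟩ := eventually_atBot.1 h1
  obtain ⟨b, hb⟩ := eventually_atTop.1 h2
  exact Gc_le_GcR (a - 1) (b + 1) ⟨hf.1, a, b, by linarith, by linarith, ha, hb⟩

/-- Every element of `F` is `x_0^m x_1^n` modulo the commutator subgroup. -/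
lemma exists_exponents (g : TF) : ∃ m n : ℤ, Abelianization.of g =
    Abelianization.of gA ^ m * Abelianization.of gB ^ n := by
  have hmem : g ∈ Subgroup.closure {gA, gB} := by rw [closure_TF]; trivial
  induction hmem using Subgroup.closure_induction with
  | mem x hx =>
    rcases hx with rfl | hx
    · exact ⟨1, 0, by simp⟩
    · rw [Set.mem_singleton_iff.1 hx]; exact ⟨0, 1, by simp⟩
  | one => exact ⟨0, 0, by simp⟩
  | mul x y _ _ hx hy =>
    obtain ⟨m, n, h1⟩ := hx
    obtain ⟨m', n', h2⟩ := hy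
    refine ⟨m + m', n + n', ?_⟩
    rw [map_mul, h1, h2, zpow_add, zpow_add]
    exact mul_mul_mul_comm _ _ _ _
  | inv x _ hx =>
    obtain ⟨m, n, h1⟩ := hx
    refine ⟨-m, -n, ?_⟩
    rw [map_inv, h1, zpow_neg, zpow_neg, mul_inv]

/-- The translation number at `-∞`, as a relation. -/
def EndBot (f : ℝ ≃o ℝ) (p : ℤ) : Prop := ∀ᶠ t in atBot, f t = t + p
/-- The translation number at `+∞`, as a relation. -/
def EndTop (f : ℝ ≃o ℝ) (p : ℤ) : Prop := ∀ᶠ t in atTop, f t = t + p

lemma EndBot.mul {f g : ℝ ≃o ℝ} {p q : ℤ} (hf : EndBot f p) (hg : EndBot g q) :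
    EndBot (f * g) (p + q) := by
  unfold EndBot at *
  filter_upwards [hg, (g.tendsto_atBot).eventually hf] with t h1 h2
  rw [mul_apply', h2, h1]; push_cast; ring

lemma EndTop.mul {f g : ℝ ≃o ℝ} {p q : ℤ} (hf : EndTop f p) (hg : EndTop g q) :
    EndTop (f * g) (p + q) := by
  unfold EndTop at *
  filter_upwards [hg, (g.tendsto_atTop).eventually hf] with t h1 h2
  rw [mul_apply', h2, h1]; push_cast; ring

lemma EndBot.inv {f : ℝ ≃o ℝ} {p : ℤ} (hf : EndBot f p) : EndBot f⁻¹ (-p) := by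
  unfold EndBot at *
  filter_upwards [(f⁻¹.tendsto_atBot).eventually hf] with t h1
  rw [apply_inv'] at h1; push_cast; linarith

lemma EndTop.inv {f : ℝ ≃o ℝ} {p : ℤ} (hf : EndTop f p) : EndTop f⁻¹ (-p) := by
  unfold EndTop at *
  filter_upwards [(f⁻¹.tendsto_atTop).eventually hf] with t h1
  rw [apply_inv'] at h1; push_cast; linarith

lemma EndBot.one : EndBot 1 0 := by unfold EndBot; simp
lemma EndTop.one : EndTop 1 0 := by unfold EndTop; simp

lemma EndBot.unique {f : ℝ ≃o ℝ} {p q : ℤ} (h1 : EndBot f p) (h2 : EndBot f q) : p = q := by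
  obtain ⟨t, h1, h2⟩ := (h1.and h2).exists
  have : (p : ℝ) = q := by linarith
  exact_mod_cast this

lemma EndTop.unique {f : ℝ ≃o ℝ} {p q : ℤ} (h1 : EndTop f p) (h2 : EndTop f q) : p = q := by
  obtain ⟨t, h1, h2⟩ := (h1.and h2).exists
  have : (p : ℝ) = q := by linarith
  exact_mod_cast this

lemma EndBot.pow {f : ℝ ≃o ℝ} {p : ℤ} (hf : EndBot f p) (n : ℕ) : EndBot (f ^ n) (n * p) := by
  induction n with
  | zero => simpa using EndBot.one
  | succ n ih =>
    rw [pow_succ]
    have := ih.mul hf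
    convert this using 1
    push_cast; ring

lemma EndTop.pow {f : ℝ ≃o ℝ} {p : ℤ} (hf : EndTop f p) (n : ℕ) : EndTop (f ^ n) (n * p) := by
  induction n with
  | zero => simpa using EndTop.one
  | succ n ih =>
    rw [pow_succ]
    have := ih.mul hf
    convert this using 1
    push_cast; ring

lemma EndBot.zpow {f : ℝ ≃o ℝ} {p : ℤ} (hf : EndBot f p) (n : ℤ) : EndBot (f ^ n) (n * p) := by
  rcases n.eq_nat_or_neg with ⟨m, rfl | rfl⟩
  · rw [zpow_natCast]; exact hf.pow m
  · rw [zpow_neg, zpow_natCast]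
    have := (hf.pow m).inv
    convert this using 1
    ring

lemma EndTop.zpow {f : ℝ ≃o ℝ} {p : ℤ} (hf : EndTop f p) (n : ℤ) : EndTop (f ^ n) (n * p) := by
  rcases n.eq_nat_or_neg with ⟨m, rfl | rfl⟩
  · rw [zpow_natCast]; exact hf.pow m
  · rw [zpow_neg, zpow_natCast]
    have := (hf.pow m).inv
    convert this using 1
    ring

lemma X0_bot : EndBot X0 (-1) := by unfold EndBot X0; simp
lemma X0_top : EndTop X0 (-1) := by unfold EndTop X0; simp
lemma X1_bot : EndBot X1 0 := by
  unfold EndBot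
  filter_upwards [eventually_le_atBot 0] with t ht
  rw [X1_le ht]; simp
lemma X1_top : EndTop X1 (-1) := by
  unfold EndTop
  filter_upwards [eventually_ge_atTop 2] with t ht
  rw [X1_ge ht]; push_cast; ring

lemma ends_exist (x : TF) : ∃ p q : ℤ, EndBot (Phi x) p ∧ EndTop (Phi x) q := by
  obtain ⟨_, ⟨p, hp⟩, ⟨q, hq⟩⟩ := Phi_mem x
  exact ⟨p, q, hp, hq⟩

lemma ends_of_commutator {g : TF} (hg : g ∈ commutator TF) :
    EndBot (Phi g) 0 ∧ EndTop (Phi g) 0 := by
  let S : Subgroup TF :=
    { carrier := {g | EndBot (Phi g) 0 ∧ EndTop (Phi g) 0}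
      mul_mem' := by
        rintro x y hx hy
        simp only [Set.mem_ofPred_eq, map_mul] at *
        exact ⟨by simpa using hx.1.mul hy.1, by simpa using hx.2.mul hy.2⟩
      one_mem' := by
        simp only [Set.mem_ofPred_eq, map_one]; exact ⟨EndBot.one, EndTop.one⟩
      inv_mem' := by
        rintro x hx
        simp only [Set.mem_ofPred_eq, map_inv] at *
        exact ⟨by simpa using hx.1.inv, by simpa using hx.2.inv⟩ }
  have hle : commutator TF ≤ S := by
    rw [commutator_def, Subgroup.commutator_le]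
    intro x _ y _
    obtain ⟨p, q, h1, h2⟩ := ends_exist x
    obtain ⟨p', q', h3, h4⟩ := ends_exist y
    change EndBot (Phi ⁅x, y⁆) 0 ∧ EndTop (Phi ⁅x, y⁆) 0
    rw [commutatorElement_def, map_mul, map_mul, map_mul, map_inv, map_inv]
    constructor
    · have := ((h1.mul h3).mul h1.inv).mul h3.inv
      convert this using 1
      ring
    · have := ((h2.mul h4).mul h2.inv).mul h4.inv
      convert this using 1
      ring
  exact hle hg

lemma commutator_of_ends {g : TF} (h1 : EndBot (Phi g) 0) (h2 : EndTop (Phi g) 0) :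
    g ∈ commutator TF := by
  obtain ⟨m, n, hmn⟩ := exists_exponents g
  have h3 : g * (gA ^ m * gB ^ n)⁻¹ ∈ commutator TF := by
    rw [← Abelianization.ker_of, MonoidHom.mem_ker, map_mul, map_inv, hmn, map_mul, map_zpow,
      map_zpow, mul_inv_cancel]
  obtain ⟨h4, h5⟩ := ends_of_commutator h3
  have e1 : EndBot (Phi (g * (gA ^ m * gB ^ n)⁻¹)) (0 + -(m * (-1) + n * 0)) := by
    rw [map_mul, map_inv, map_mul, map_zpow, map_zpow, Phi_A, Phi_B]
    exact h1.mul ((X0_bot.zpow m).mul (X1_bot.zpow n)).inv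
  have e2 : EndTop (Phi (g * (gA ^ m * gB ^ n)⁻¹)) (0 + -(m * (-1) + n * (-1))) := by
    rw [map_mul, map_inv, map_mul, map_zpow, map_zpow, Phi_A, Phi_B]
    exact h2.mul ((X0_top.zpow m).mul (X1_top.zpow n)).inv
  have e3 := e1.unique h4
  have e4 := e2.unique h5
  have hm : m = 0 := by linarith
  have hn : n = 0 := by rw [hm] at e4; linarith
  rw [hm, hn] at h3
  simpa using h3

/-- The commutator subgroup of a group generated by two elements is the normal closure of their
commutator. -/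
lemma commutator_le_normalClosure : commutator TF ≤ Subgroup.normalClosure {⁅gA, gB⁆} := by
  set N := Subgroup.normalClosure {⁅gA, gB⁆} with hN
  have hcomm : Commute (QuotientGroup.mk' N gA) (QuotientGroup.mk' N gB) := by
    have h1 : ⁅gA, gB⁆ ∈ N := Subgroup.subset_normalClosure (Set.mem_singleton _)
    have h2 : QuotientGroup.mk' N ⁅gA, gB⁆ = 1 := (QuotientGroup.eq_one_iff (N := N) _).2 h1
    rw [map_commutatorElement, commutatorElement_eq_one_iff_commute] at h2
    exact h2
  -- every element commutes with every other in the quotient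
  have hA : ∀ g : TF, Commute (QuotientGroup.mk' N gA) (QuotientGroup.mk' N g) := by
    intro g
    have hmem : g ∈ Subgroup.closure {gA, gB} := by rw [closure_TF]; trivial
    induction hmem using Subgroup.closure_induction with
    | mem x hx =>
      rcases hx with rfl | hx
      · exact Commute.refl _
      · rw [Set.mem_singleton_iff.1 hx]; exact hcomm
    | one => rw [map_one]; exact Commute.one_right _
    | mul x y _ _ hx hy => rw [map_mul]; exact hx.mul_right hy
    | inv x _ hx => rw [map_inv]; exact hx.inv_right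
  have hB : ∀ g : TF, Commute (QuotientGroup.mk' N gB) (QuotientGroup.mk' N g) := by
    intro g
    have hmem : g ∈ Subgroup.closure {gA, gB} := by rw [closure_TF]; trivial
    induction hmem using Subgroup.closure_induction with
    | mem x hx =>
      rcases hx with rfl | hx
      · exact hcomm.symm
      · rw [Set.mem_singleton_iff.1 hx]
    | one => rw [map_one]; exact Commute.one_right _
    | mul x y _ _ hx hy => rw [map_mul]; exact hx.mul_right hy
    | inv x _ hx => rw [map_inv]; exact hx.inv_right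
  have hall : ∀ h g : TF, Commute (QuotientGroup.mk' N h) (QuotientGroup.mk' N g) := by
    intro h g
    have hmem : h ∈ Subgroup.closure {gA, gB} := by rw [closure_TF]; trivial
    induction hmem using Subgroup.closure_induction with
    | mem x hx =>
      rcases hx with rfl | hx
      · exact hA g
      · rw [Set.mem_singleton_iff.1 hx]; exact hB g
    | one => rw [map_one]; exact Commute.one_left _
    | mul x y _ _ hx hy => rw [map_mul]; exact hx.mul_left hy
    | inv x _ hx => rw [map_inv]; exact hx.inv_left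
  rw [commutator_def, Subgroup.commutator_le]
  intro x _ y _
  have h2 : QuotientGroup.mk' N ⁅x, y⁆ = 1 := by
    rw [map_commutatorElement, commutatorElement_eq_one_iff_commute]
    exact hall x y
  exact (QuotientGroup.eq_one_iff (N := N) _).1 h2

/-- Two compactly supported elements with the same commutator as `X0`, `X1`. -/
lemma basic_commutator : ∃ a ∈ GcR, ∃ b ∈ GcR, ⁅a, b⁆ = ⁅X0, X1⁆ := by
  have hX0 : X0 ∈ HH := GcR_le_GG.trans GG_le_HH |> fun _ => by
    unfold X0; exact tr_mem_HH (Dy.neg_mem Dy.one_mem)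
  have hX1 : X1 ∈ HH := HH.inv_mem dbl_mem_HH
  have d := fun n : ℤ => Dy_int n
  have X0a : ∀ t, X0 t = t - 1 := fun t => by unfold X0; simp; ring
  -- a cut-off translation
  obtain ⟨a1, ha1, ha2, ha3⟩ := interp (f₁ := 1) (f₂ := X0) HH.one_mem hX0 (a := -6) (b := -4)
    (by simpa using d (-6)) (by simpa using d (-4)) (by norm_num) (by
      rw [one_apply', X0a]; norm_num)
  obtain ⟨a, hb1, hb2, hb3⟩ := interp (f₁ := a1) (f₂ := 1) ha1 HH.one_mem (a := 4) (b := 6)
    (by simpa using d 4) (by simpa using d 6) (by norm_num) (by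
      rw [one_apply', ha3 _ (by norm_num), X0a]; norm_num)
  have ha_le : ∀ t, t ≤ -6 → a t = t := fun t ht => by
    rw [hb2 t (by linarith), ha2 t ht]; rfl
  have ha_mid : ∀ t, -4 ≤ t → t ≤ 4 → a t = t - 1 := fun t h1 h2 => by
    rw [hb2 t h2, ha3 t h1, X0a]
  have ha_ge : ∀ t, 6 ≤ t → a t = t := fun t ht => by rw [hb3 t ht]; rfl
  have hglue : X1 2 = a 2 := by
    rw [X1_ge le_rfl, ha_mid 2 (by norm_num) (by norm_num)]
  set b := glue X1 a 2 hglue with hb
  have hbH : b ∈ HH := glue_mem_HH hX1 hb1 (by simpa using d 2)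
  have hb_le : ∀ t, t ≤ 2 → b t = X1 t := fun t ht => glue_le ht
  have hb_ge : ∀ t, 2 ≤ t → b t = a t := fun t ht => glue_ge ht
  have ha_inv : ∀ t, -5 ≤ t → t ≤ 3 → a⁻¹ t = t + 1 := fun t h1 h2 => by
    have h3 := inv_apply' a (t + 1)
    rw [ha_mid _ (by linarith) (by linarith)] at h3
    rwa [show t + 1 - 1 = t by ring] at h3
  have hb_inv_le : ∀ t, t ≤ 1 → b⁻¹ t = X1⁻¹ t := fun t ht => by
    have h3 : X1⁻¹ t ≤ 2 := by
      rw [← X1.le_iff_le, apply_inv', X1_ge le_rfl]; linarith
    have h4 := inv_apply' b (X1⁻¹ t)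
    rw [hb_le _ h3, apply_inv'] at h4
    exact h4
  have hb_inv_ge : ∀ t, 1 ≤ t → b⁻¹ t = a⁻¹ t := fun t ht => by
    have h3 : 2 ≤ a⁻¹ t := by
      rw [← a.le_iff_le, apply_inv', ha_mid 2 (by norm_num) (by norm_num)]; linarith
    have h4 := inv_apply' b (a⁻¹ t)
    rw [hb_ge _ h3, apply_inv'] at h4
    exact h4
  have hmain : ⁅a, b⁆ = ⁅X0, X1⁆ := by
    have hR : ⁅X0, X1⁆ = X0 * X1 * X0⁻¹ * X1⁻¹ := commutatorElement_def _ _
    have hX0inv : ∀ t, X0⁻¹ t = t + 1 := fun t => by
      unfold X0; rw [tr_inv, tr_apply]; ring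
    have hX1inv_ge : ∀ t, 1 ≤ t → X1⁻¹ t = t + 1 := fun t ht => by
      unfold X1; rw [inv_inv, dbl_ge ht]
    have hX1inv_le : ∀ t, t ≤ 0 → X1⁻¹ t = t := fun t ht => by
      unfold X1; rw [inv_inv, dbl_le ht]
    rw [hR, commutatorElement_def]
    ext t
    simp only [mul_apply']
    rcases le_total 1 t with ht | ht
    · -- both sides equal `t`
      rw [hb_inv_ge t ht]
      have h3 : 2 ≤ a⁻¹ t := by
        rw [← a.le_iff_le, apply_inv', ha_mid 2 (by norm_num) (by norm_num)]; linarith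
      have h4 : 2 ≤ a⁻¹ (a⁻¹ t) := by
        rw [← a.le_iff_le, apply_inv', ha_mid 2 (by norm_num) (by norm_num)]; linarith
      rw [hb_ge _ h4, apply_inv', apply_inv', hX1inv_ge t ht, hX0inv, X1_ge (by linarith), X0a]
      ring
    · rw [hb_inv_le t ht]
      rcases le_total t (-1) with ht2 | ht2
      · rw [hX1inv_le t (by linarith)]
        have h3 : a⁻¹ t ≤ 0 := by
          rw [← a.le_iff_le, apply_inv', ha_mid 0 (by norm_num) (by norm_num)]; linarith
        rw [hb_le _ (by linarith), X1_le h3, apply_inv', hX0inv, X1_le (by linarith), X0a]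
        ring
      · have h5 : X1⁻¹ t ≤ 2 := by
          rw [← X1.le_iff_le, apply_inv', X1_ge le_rfl]; linarith
        have h6 : -1 ≤ X1⁻¹ t := by
          rw [← X1.le_iff_le, apply_inv', X1_le (by norm_num)]; linarith
        rw [ha_inv _ (by linarith) (by linarith), hX0inv]
        have h7 : b (X1⁻¹ t + 1) = X1 (X1⁻¹ t + 1) := by
          rcases le_total (X1⁻¹ t + 1) 2 with h8 | h8
          · exact hb_le _ h8
          · rw [hb_ge _ h8, X1_ge h8, ha_mid _ (by linarith) (by linarith)]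
        rw [h7]
        have h9 : X1 (X1⁻¹ t + 1) ≤ 2 := by
          have := X1.monotone (show X1⁻¹ t + 1 ≤ 3 by linarith)
          rw [X1_ge (t := 3) (by norm_num)] at this
          linarith
        have h10 : 0 ≤ X1 (X1⁻¹ t + 1) := by
          have := X1.monotone (show 0 ≤ X1⁻¹ t + 1 by linarith)
          rw [X1_le le_rfl] at this
          exact this
        rw [ha_mid _ (by linarith) (by linarith), X0a]
  refine ⟨a, ?_, b, ?_, hmain⟩
  · exact Gc_le_GcR (-7) 7 ⟨hb1, -6, 6, by norm_num, by norm_num, ha_le, ha_ge⟩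
  · refine Gc_le_GcR (-7) 7 ⟨hbH, -6, 6, by norm_num, by norm_num, ?_, ?_⟩
    · intro t ht
      rw [hb_le _ (by linarith), X1_le (by linarith)]
    · intro t ht
      rw [hb_ge _ (by linarith), ha_ge t ht]

/-- The group of compactly supported elements is perfect. -/
lemma GcR_perfect : GcR ≤ ⁅GcR, GcR⁆ := by
  -- normality of `⁅GcR, GcR⁆` under `GG`
  have hnorm : ∀ g ∈ GG, ∀ f ∈ ⁅GcR, GcR⁆, g * f * g⁻¹ ∈ ⁅GcR, GcR⁆ := by
    intro g hg f hf
    have h1 : (⁅GcR, GcR⁆).map (MulAut.conj g).toMonoidHom ≤ ⁅GcR, GcR⁆ := by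
      rw [Subgroup.map_commutator]
      have h2 : GcR.map (MulAut.conj g).toMonoidHom ≤ GcR := by
        rintro _ ⟨x, hx, rfl⟩
        exact GcR_conj hx (GG_le_HH hg)
      exact Subgroup.commutator_mono h2 h2
    exact h1 ⟨f, hf, rfl⟩
  intro f hf
  have hfG : f ∈ GG := GcR_le_GG hf
  obtain ⟨g, rfl⟩ := exists_Phi hfG
  have h1 : EndBot (Phi g) 0 := by
    obtain ⟨n, _, a', b', _, _, h4, h5⟩ := hf
    unfold EndBot
    filter_upwards [eventually_le_atBot a'] with t ht
    rw [h4 t ht]; simp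
  have h2 : EndTop (Phi g) 0 := by
    obtain ⟨n, _, a', b', _, _, h4, h5⟩ := hf
    unfold EndTop
    filter_upwards [eventually_ge_atTop b'] with t ht
    rw [h5 t ht]; simp
  have h3 := commutator_le_normalClosure (commutator_of_ends h1 h2)
  let S : Subgroup TF := (⁅GcR, GcR⁆).comap Phi
  have hSn : S.Normal := by
    refine ⟨fun n hn g => ?_⟩
    change Phi (g * n * g⁻¹) ∈ ⁅GcR, GcR⁆
    rw [map_mul, map_mul, map_inv]
    exact hnorm _ (Phi_mem g) _ hn
  have h4 : Subgroup.normalClosure {⁅gA, gB⁆} ≤ S := by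
    apply Subgroup.normalClosure_le_normal
    rw [Set.singleton_subset_iff]
    change Phi ⁅gA, gB⁆ ∈ ⁅GcR, GcR⁆
    rw [map_commutatorElement, Phi_A, Phi_B]
    obtain ⟨a, ha, b, hb, hab⟩ := basic_commutator
    rw [← hab]
    exact Subgroup.commutator_mem_commutator ha hb
  exact h4 h3

end Pool.Agent.Lib_helper30
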