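import Pool.Agent.Lib_helper30.SubW

set_option autoImplicit false

namespace Pool.Agent.Lib_helper30

open Filter Topology Set

lemma GC.clu {c b : ℝ ≃o ℝ} (hg : GC c b) (hc : Clu c) : Clu b := by
  obtain ⟨g, hg, e⟩ := hg
  rw [e]
  intro t ht h2
  rw [mul_apply', mul_apply'] at h2
  have h3 : c (g⁻¹ t) = g⁻¹ t := by
    have := congrArg (g⁻¹ : ℝ ≃o ℝ) h2
    rwa [inv_apply'] at this
  exact hc _ (((mem_HH.1 (GG_le_HH (GG.inv_mem hg))).dy_iff t).2 ht) h3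

lemma zero_dy : (0 : ℝ) ∈ Dy := by simpa using Dy_nat 0

lemma not_clu_cat (p r : ℝ ≃o ℝ) : ¬ Clu (cat p r) := fun h => h 0 zero_dy (cat_zero p r)

lemma split_one {p r : ℝ ≃o ℝ} (h : GC 1 (cat p r)) : p = 1 ∧ r = 1 := by
  rw [GC_one_iff, ← cat_one] at h
  exact cat_inj h

lemma Pr.mono {l l' : List (ℝ ≃o ℝ)} (h : List.Forall₂ GC l l') {x : ℝ ≃o ℝ} (hx : Pr l' x) :
    Pr l x := by
  obtain ⟨l'', h', e⟩ := hx
  refine ⟨l'', ?_, e⟩
  clear e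
  induction h generalizing l'' with
  | nil => exact h'
  | cons h1 _ ih =>
    cases h' with
    | cons h3 h4 => exact List.Forall₂.cons (h1.trans h3) (ih _ h4)

lemma Pr.of_GC {l : List (ℝ ≃o ℝ)} {x y : ℝ ≃o ℝ} (hxy : GC x y) (h : Pr l x) : Pr l y := by
  obtain ⟨g, hg, rfl⟩ := hxy
  exact h.conj hg

lemma Pr_one_cons {l : List (ℝ ≃o ℝ)} {x : ℝ ≃o ℝ} : Pr (1 :: l) x ↔ Pr l x := by
  rw [Pr_cons]
  constructor
  · rintro ⟨a', y, h1, h2, h3⟩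
    rw [GC_one_iff] at h1
    rw [h1, one_mul] at h3
    rwa [h3] at h2
  · intro h
    exact ⟨1, x, GC.refl 1, h, one_mul x⟩

lemma Pr_singleton {b x : ℝ ≃o ℝ} : Pr [b] x ↔ GC b x := by
  rw [Pr_cons]
  constructor
  · rintro ⟨a', y, h1, h2, h3⟩
    rw [Pr_nil] at h2
    rw [h2, mul_one] at h3
    rwa [← h3]
  · intro h
    exact ⟨x, 1, h, Pr_nil.2 rfl, mul_one x⟩

lemma Pr_all_one {l : List (ℝ ≃o ℝ)} (h : ∀ b ∈ l, b = 1) {x : ℝ ≃o ℝ} : Pr l x ↔ x = 1 := by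
  induction l with
  | nil => exact Pr_nil
  | cons a l ih =>
    have := h a List.mem_cons_self
    subst this
    rw [Pr_one_cons]
    exact ih (fun b hb => h b (List.mem_cons_of_mem _ hb))

lemma Pr_ge {l : List (ℝ ≃o ℝ)} (h : ∀ b ∈ l, ¬ HasN b) : ∀ {x : ℝ ≃o ℝ}, Pr l x → ∀ t, t ≤ x t := by
  induction l with
  | nil => intro x hx t; rw [Pr_nil] at hx; rw [hx]; exact le_rfl
  | cons a l ih =>
    intro x hx t
    rw [Pr_cons] at hx
    obtain ⟨a', y, h1, h2, rfl⟩ := hx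
    have h3 := ih (fun b hb => h b (List.mem_cons_of_mem _ hb)) h2 t
    have h4 : ¬ HasN a' := fun h5 => h a List.mem_cons_self (h1.symm.hasN h5)
    rw [mul_apply']
    exact h3.trans (ge_of_not_hasN h4 _)

lemma Pr_ne_one {l : List (ℝ ≃o ℝ)} (h : ∀ b ∈ l, ¬ HasN b) (hne : ∃ b ∈ l, b ≠ 1) :
    ∀ {x : ℝ ≃o ℝ}, Pr l x → x ≠ 1 := by
  induction l with
  | nil => obtain ⟨b, hb, _⟩ := hne; cases hb
  | cons a l ih =>
    intro x hx hx1
    rw [Pr_cons] at hx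
    obtain ⟨a', y, h1, h2, h3⟩ := hx
    have hy := Pr_ge (fun b hb => h b (List.mem_cons_of_mem _ hb)) h2
    have h4 : ¬ HasN a' := fun h5 => h a List.mem_cons_self (h1.symm.hasN h5)
    have ha' := ge_of_not_hasN h4
    have e1 : a' = 1 := by
      ext t
      refine le_antisymm ?_ (ha' t)
      have h5 : a' (y (y⁻¹ t)) = y⁻¹ t := by
        rw [← mul_apply', h3, hx1]; rfl
      rw [apply_inv'] at h5
      rw [h5]
      have := hy (y⁻¹ t)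
      rwa [apply_inv'] at this
    have e2 : y = 1 := by rw [e1, one_mul, hx1] at h3; exact h3
    obtain ⟨b, hb, hb1⟩ := hne
    rcases List.mem_cons.1 hb with rfl | hb
    · rw [e1] at h1
      exact hb1 (GC_to_one_iff.1 h1)
    · exact ih (fun b hb => h b (List.mem_cons_of_mem _ hb)) ⟨b, hb, hb1⟩ h2 e2

/-- The lists in which the splitting lemma applies. -/
def Gd (l : List (ℝ ≃o ℝ)) : Prop := (∀ c ∈ l, ¬ HasN c) ∨ l.length = 1

lemma Pr_cat_join {l : List (ℝ ≃o ℝ)} {ps : List ((ℝ ≃o ℝ) × (ℝ ≃o ℝ))}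
    (h : List.Forall₂ (fun c p => GC c (cat p.1 p.2)) l ps) :
    ∀ {x y : ℝ ≃o ℝ}, Pr (ps.map Prod.fst) x → Pr (ps.map Prod.snd) y → Pr l (cat x y) := by
  induction h with
  | nil =>
    intro x y hx hy
    rw [List.map_nil, Pr_nil] at hx hy
    rw [hx, hy, cat_one, Pr_nil]
  | cons h1 _ ih =>
    intro x y hx hy
    rw [List.map_cons, Pr_cons] at hx hy
    obtain ⟨a, x', ha, hx', rfl⟩ := hx
    obtain ⟨b, y', hb, hy', rfl⟩ := hy
    rw [Pr_cons]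
    exact ⟨cat a b, cat x' y', h1.trans (GC.cat ha hb), ih hx' hy', cat_mul _ _ _ _⟩

lemma Pr_cat_split_ge {l : List (ℝ ≃o ℝ)} (hG : ∀ c ∈ l, c ∈ GG) (h : ∀ b ∈ l, ¬ HasN b) :
    ∀ {x y : ℝ ≃o ℝ}, Pr l (cat x y) →
    ∃ ps : List ((ℝ ≃o ℝ) × (ℝ ≃o ℝ)),
      List.Forall₂ (fun c p => p.1 ∈ GG ∧ p.2 ∈ GG ∧ GC c (cat p.1 p.2)) l ps ∧
        (ps.map Prod.fst).prod = x ∧ (ps.map Prod.snd).prod = y := by
  induction l with
  | nil =>
    intro x y hx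
    rw [Pr_nil, ← cat_one] at hx
    obtain ⟨rfl, rfl⟩ := cat_inj hx
    exact ⟨[], List.Forall₂.nil, rfl, rfl⟩
  | cons a l ih =>
    intro x y hx
    rw [Pr_cons] at hx
    obtain ⟨a', z, h1, h2, h3⟩ := hx
    have hG' : ∀ c ∈ l, c ∈ GG := fun b hb => hG b (List.mem_cons_of_mem _ hb)
    have hz := Pr_ge (fun b hb => h b (List.mem_cons_of_mem _ hb)) h2
    have h4 : ¬ HasN a' := fun h5 => h a List.mem_cons_self (h1.symm.hasN h5)
    have ha' := ge_of_not_hasN h4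
    have e0 : a' (z 0) = 0 := by rw [← mul_apply', h3, cat_zero]
    have z0 : z 0 = 0 := le_antisymm ((ha' _).trans e0.le) (hz 0)
    have a0 : a' 0 = 0 := by rwa [z0] at e0
    have hzG : z ∈ GG := (Pr_ends hG' h2).1
    obtain ⟨p, hp, r, hr, ep⟩ := exists_cat (h1.mem (hG a List.mem_cons_self)) a0
    obtain ⟨x', hx', y', hy', ez⟩ := exists_cat hzG z0
    rw [ep, ez, cat_mul] at h3
    obtain ⟨rfl, rfl⟩ := cat_inj h3
    rw [ez] at h2
    obtain ⟨ps, f1, f2, f3⟩ := ih hG' (fun b hb => h b (List.mem_cons_of_mem _ hb)) h2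
    refine ⟨(p, r) :: ps, List.Forall₂.cons ⟨hp, hr, ?_⟩ f1, ?_, ?_⟩
    · rw [← ep]; exact h1
    · rw [List.map_cons, List.prod_cons, f2]
    · rw [List.map_cons, List.prod_cons, f3]

theorem Pr_cat_split {l : List (ℝ ≃o ℝ)} (hG : ∀ c ∈ l, c ∈ GG) (h : Gd l)
    {x y : ℝ ≃o ℝ} (hxy : Pr l (cat x y)) :
    ∃ ps : List ((ℝ ≃o ℝ) × (ℝ ≃o ℝ)),
      List.Forall₂ (fun c p => p.1 ∈ GG ∧ p.2 ∈ GG ∧ GC c (cat p.1 p.2)) l ps ∧
        (ps.map Prod.fst).prod = x ∧ (ps.map Prod.snd).prod = y := by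
  rcases h with h | h
  · exact Pr_cat_split_ge hG h hxy
  · obtain ⟨b, rfl⟩ := List.length_eq_one_iff.1 h
    rw [Pr_singleton] at hxy
    have h1 := hxy.mem (hG b List.mem_cons_self)
    obtain ⟨p, hp, r, hr, ep⟩ := exists_cat h1 (cat_zero x y)
    obtain ⟨rfl, rfl⟩ := cat_inj ep
    exact ⟨[(x, y)], List.Forall₂.cons ⟨hp, hr, hxy⟩ List.Forall₂.nil, by simp, by simp⟩

/-- A positive bump is a product of conjugates of any nonnegative elements with the right ends. -/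
theorem Pr_bump {a b : ℝ ≃o ℝ} {l : List (ℝ ≃o ℝ)} (hG : ∀ c ∈ a :: b :: l, c ∈ GG)
    (hge : ∀ c ∈ a :: b :: l, ¬ HasN c) (ha1 : a ≠ 1) (hb1 : b ≠ 1) {x : ℝ ≃o ℝ} (hx : x ∈ GG)
    (hpos : ∀ t, t < x t) (hbt : ((a :: b :: l).map bt).sum = bt x)
    (htp : ((a :: b :: l).map tp).sum = tp x) : Pr (a :: b :: l) x := by
  have hG' : ∀ c ∈ b :: l, c ∈ GG := fun c hc => hG c (List.mem_cons_of_mem _ hc)
  have hge' : ∀ c ∈ b :: l, ¬ HasN c := fun c hc => hge c (List.mem_cons_of_mem _ hc)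
  have h1 : Pr (b :: l) (b :: l).prod := ⟨_, List.forall₂_same.2 (fun c _ => GC.refl c), rfl⟩
  have h2 : (b :: l).prod ≠ 1 := Pr_ne_one hge' ⟨b, List.mem_cons_self, hb1⟩ h1
  have h3 := Pr_ge hge' h1
  obtain ⟨hrG, hr1, hr2⟩ := Pr_ends hG' h1
  have hP : HasP (b :: l).prod := by
    rcases hasP_or_hasN h2 with h | h
    · exact h
    · obtain ⟨t, _, ht⟩ := h
      exact absurd ht (not_lt.2 (h3 t))
  generalize (b :: l).prod = r at h1 h2 h3 hrG hr1 hr2 hP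
  have haG := hG a List.mem_cons_self
  have haP : HasP a := (hasP_or_hasN ha1).resolve_right (hge a List.mem_cons_self)
  rw [List.map_cons, List.sum_cons, ← hr1] at hbt
  rw [List.map_cons, List.sum_cons, ← hr2] at htp
  have key := fb_bump (GG.inv_mem hrG) (GG.inv_mem haG) hx (bt_spec (GG.inv_mem hrG))
    (bt_spec (GG.inv_mem haG)) (bt_spec hx) (tp_spec (GG.inv_mem hrG)) (tp_spec (GG.inv_mem haG))
    (tp_spec hx) (by rw [bt_inv hrG, bt_inv haG, ← hbt]; ring)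
    (by rw [tp_inv hrG, tp_inv haG, ← htp]; ring) (hasN_inv.2 hP) (hasN_inv.2 haP) hpos
  obtain ⟨d₁, d₂, d₃, k1, k2, k3, k⟩ := key
  have e : d₃ = d₂⁻¹ * d₁⁻¹ := by
    rw [← mul_inv_rev]
    exact eq_inv_of_mul_eq_one_right k
  have k1' : GC r d₁⁻¹ := by simpa using k1.inv
  have k2' : GC a d₂⁻¹ := by simpa using k2.inv
  refine Pr.of_GC k3.symm ?_
  rw [Pr_cons]
  exact ⟨d₂⁻¹, d₁⁻¹, k2', Pr.of_GC k1' h1, e.symm⟩

lemma clu_ge_pos {c : ℝ ≃o ℝ} (hc : c ∈ GG) (h : Clu c) (hge : ∀ t, t ≤ c t) : ∀ t, t < c t := by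
  intro t
  obtain ⟨d, hd, h1, _⟩ := exists_dy_lt2 t t
  have h2 : d < c d := lt_of_le_of_ne (hge d) (fun e => h d hd e.symm)
  exact strict_pos (GG_le_HH hc) h h2 (fun y _ => hge y) t h1.le

end Pool.Agent.Lib_helper30
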