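import Pool.Agent.Lib_helper30.Code

set_option autoImplicit false

namespace Pool.Agent.Lib_helper30

open Filter Topology Set

section
variable {α β : Type*} [Primcodable α] [Primcodable β]

lemma primrec_forall_lt {q : ℕ → α → Prop} (hq : PrimrecRel q) :
    PrimrecRel (fun (m : ℕ) (a : α) => ∀ n < m, q n a) := by
  have h := hq.forall_mem_list
  refine (h.comp (Primrec.list_range.comp Primrec.fst) Primrec.snd).of_eq ?_
  intro x
  simp

lemma pr_len {f : α → W} (hf : Primrec f) : Primrec (fun a => (f a).length) :=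
  Primrec.list_length.comp hf

lemma pr_append {f g : α → List β} (hf : Primrec f) (hg : Primrec g) :
    Primrec (fun a => f a ++ g a) := Primrec.list_append.comp hf hg

lemma pr_winv {f : α → W} (hf : Primrec f) : Primrec (fun a => winv (f a)) := by
  have h : Primrec winv := by
    unfold winv
    refine Primrec.list_reverse.comp (Primrec.list_map Primrec.id ?_)
    exact (Primrec.pair (Primrec.not.comp (Primrec.fst.comp Primrec.snd))
      (Primrec.snd.comp Primrec.snd)).to₂
  exact h.comp hf

end

lemma dval_shift (m C N : ℕ) : dval (m, C, N) = (((m : ℤ) - C * 2 ^ N : ℤ) : ℝ) / 2 ^ N := by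
  unfold dval
  simp only
  push_cast
  field_simp

/-! ## Positivity -/

lemma ge_iff_code (w : W) : (∀ t, t ≤ val w t) ↔
    ∀ m < (2 * w.length + 2) * 2 ^ w.length + 1,
      dval (m, w.length, w.length) ≤ dval (evD w (m, w.length, w.length)) := by
  rw [ge_iff_grid]
  set n := w.length with hn
  constructor
  · intro h m hm
    rw [dval_evD, dval_shift]
    apply h
    · have : (0 : ℤ) ≤ m := by positivity
      linarith
    · have : (m : ℤ) < (2 * n + 2) * 2 ^ n + 1 := by exact_mod_cast hm
      linarith
  · intro h a h1 h2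
    obtain ⟨m, hm⟩ : ∃ m : ℕ, (m : ℤ) = a + n * 2 ^ n := ⟨(a + n * 2 ^ n).toNat,
      Int.toNat_of_nonneg (by linarith)⟩
    have h3 : m < (2 * n + 2) * 2 ^ n + 1 := by
      have : (m : ℤ) < (2 * n + 2) * 2 ^ n + 1 := by rw [hm]; linarith
      exact_mod_cast this
    have h4 := h m h3
    rw [dval_evD, dval_shift, hm] at h4
    have e : (a + (n : ℤ) * 2 ^ n - n * 2 ^ n : ℤ) = a := by ring
    rw [e] at h4
    exact h4

lemma clu_iff_code (w : W) : Clu (val w) ↔
    ∀ m < (2 * w.length + 2) * 2 ^ w.length + 1,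
      ¬ dval (evD w (m, w.length, w.length)) = dval (m, w.length, w.length) := by
  rw [clu_iff_grid]
  set n := w.length with hn
  constructor
  · intro h m hm
    rw [dval_evD, dval_shift]
    apply h
    · have : (0 : ℤ) ≤ m := by positivity
      linarith
    · have : (m : ℤ) < (2 * n + 2) * 2 ^ n + 1 := by exact_mod_cast hm
      linarith
  · intro h a h1 h2
    obtain ⟨m, hm⟩ : ∃ m : ℕ, (m : ℤ) = a + n * 2 ^ n := ⟨(a + n * 2 ^ n).toNat,
      Int.toNat_of_nonneg (by linarith)⟩
    have h3 : m < (2 * n + 2) * 2 ^ n + 1 := by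
      have : (m : ℤ) < (2 * n + 2) * 2 ^ n + 1 := by rw [hm]; linarith
      exact_mod_cast this
    have h4 := h m h3
    rw [dval_evD, dval_shift, hm] at h4
    have e : (a + (n : ℤ) * 2 ^ n - n * 2 ^ n : ℤ) = a := by ring
    rw [e] at h4
    exact h4

lemma primrec_ge : PrimrecPred (fun w : W => ∀ t, t ≤ val w t) := by
  have hq : PrimrecRel (fun (m : ℕ) (w : W) =>
      dval (m, w.length, w.length) ≤ dval (evD w (m, w.length, w.length))) := by
    have hL : Primrec (fun x : ℕ × W => x.2.length) := pr_len Primrec.snd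
    have hc := pr_mk (α := ℕ × W) Primrec.fst hL hL
    exact pr_dle hc (pr_ev Primrec.snd hc)
  have hL : Primrec (fun w : W => w.length) := pr_len Primrec.id
  refine ((primrec_forall_lt hq).comp (f := fun w : W => (2 * w.length + 2) * 2 ^ w.length + 1)
    (g := fun w => w) ?_ Primrec.id).of_eq (fun w => (ge_iff_code w).symm)
  exact pr_add (pr_mul (pr_add (pr_mul (Primrec.const 2) hL) (Primrec.const 2)) (pr_pow2 hL))
    (Primrec.const 1)

lemma primrec_clu : PrimrecPred (fun w : W => Clu (val w)) := by
  have hq : PrimrecRel (fun (m : ℕ) (w : W) =>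
      ¬ dval (evD w (m, w.length, w.length)) = dval (m, w.length, w.length)) := by
    have hL : Primrec (fun x : ℕ × W => x.2.length) := pr_len Primrec.snd
    have hc := pr_mk (α := ℕ × W) Primrec.fst hL hL
    exact (pr_deq (pr_ev Primrec.snd hc) hc).not
  have hL : Primrec (fun w : W => w.length) := pr_len Primrec.id
  refine ((primrec_forall_lt hq).comp (f := fun w : W => (2 * w.length + 2) * 2 ^ w.length + 1)
    (g := fun w => w) ?_ Primrec.id).of_eq (fun w => (clu_iff_code w).symm)
  exact pr_add (pr_mul (pr_add (pr_mul (Primrec.const 2) hL) (Primrec.const 2)) (pr_pow2 hL))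
    (Primrec.const 1)

lemma hasN_val_iff (w : W) : HasN (val w) ↔ ¬ ∀ t, t ≤ val w t := by
  constructor
  · rintro ⟨t, _, ht⟩ h
    exact absurd (h t) (not_le.2 ht)
  · intro h
    by_contra hcon
    exact h (fun t => ge_of_not_hasN hcon t)

lemma hasP_val_iff (w : W) : HasP (val w) ↔ ¬ ∀ t, t ≤ val (winv w) t := by
  rw [← hasN_val_iff, val_winv, hasN_inv]

section
variable {α : Type*} [Primcodable α]

lemma pr_hasN {f : α → W} (hf : Primrec f) : PrimrecPred (fun a => HasN (val (f a))) :=
  ((primrec_ge.comp hf).not).of_eq (fun _ => (hasN_val_iff _).symm)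

lemma pr_hasP {f : α → W} (hf : Primrec f) : PrimrecPred (fun a => HasP (val (f a))) :=
  ((primrec_ge.comp (pr_winv hf)).not).of_eq (fun _ => (hasP_val_iff _).symm)

lemma pr_clu {f : α → W} (hf : Primrec f) : PrimrecPred (fun a => Clu (val (f a))) :=
  primrec_clu.comp hf

lemma pr_one {f : α → W} (hf : Primrec f) : PrimrecPred (fun a => val (f a) = 1) := by
  refine (((pr_hasN hf).or (pr_hasP hf)).not).of_eq ?_
  intro a
  constructor
  · intro h
    by_contra hcon
    exact h ((hasP_or_hasN hcon).symm)
  · rintro h (h1 | h1)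
    · exact h1.ne_one h
    · exact h1.ne_one h

lemma pr_eqv {f g : α → W} (hf : Primrec f) (hg : Primrec g) :
    PrimrecPred (fun a => val (f a) = val (g a)) := by
  refine (pr_one (pr_append (pr_winv hf) hg)).of_eq ?_
  intro a
  rw [val_append, val_winv, inv_mul_eq_one]

end

/-! ## End germs -/

lemma bw_append (u v : W) : bw (u ++ v) = bw u + bw v := by
  unfold bw; rw [List.count_append, List.count_append]; push_cast; ring

lemma tw_append (u v : W) : tw (u ++ v) = tw u + tw v := by
  unfold tw; rw [List.countP_append, List.countP_append]; push_cast; ring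

lemma bw_flatten (l : List W) : bw l.flatten = (l.map bw).sum := by
  induction l with
  | nil => rfl
  | cons a l ih => rw [List.flatten_cons, bw_append, ih, List.map_cons, List.sum_cons]

lemma tw_flatten (l : List W) : tw l.flatten = (l.map tw).sum := by
  induction l with
  | nil => rfl
  | cons a l ih => rw [List.flatten_cons, tw_append, ih, List.map_cons, List.sum_cons]

section
variable {α : Type*} [Primcodable α]

lemma pr_count (x : Bool × Bool) {f : α → W} (hf : Primrec f) :
    Primrec (fun a => (f a).count x) := by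
  have h : Primrec (fun w : W => w.count x) := by
    have h1 : Primrec (fun w : W => (w.filter (fun p => decide (p = x))).length) :=
      Primrec.list_length.comp (Primrec.listFilter (Primrec.eq.comp Primrec.id (Primrec.const x)))
    refine h1.of_eq ?_
    intro w
    rw [List.count, List.countP_eq_length_filter]
    congr 1
    apply List.filter_congr
    intro y _
    rcases y with ⟨s, c⟩
    rcases x with ⟨s', c'⟩
    cases s <;> cases c <;> cases s' <;> cases c' <;> rfl
  exact h.comp hf

lemma countP_fst (w : W) : w.countP (fun p => p.1) = w.count (true, true) + w.count (true, false) := by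
  induction w with
  | nil => rfl
  | cons p w ih =>
    rw [List.countP_cons, List.count_cons, List.count_cons, ih]
    rcases p with ⟨s, c⟩
    cases s <;> cases c <;> simp <;> omega

lemma countP_not_fst (w : W) :
    w.countP (fun p => !p.1) = w.count (false, true) + w.count (false, false) := by
  induction w with
  | nil => rfl
  | cons p w ih =>
    rw [List.countP_cons, List.count_cons, List.count_cons, ih]
    rcases p with ⟨s, c⟩
    cases s <;> cases c <;> simp <;> omega

/-- `bw w = k` for a natural number `k`. -/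
lemma pr_bw {f : α → W} {k : α → ℕ} (hf : Primrec f) (hk : Primrec k) :
    PrimrecPred (fun a => bw (f a) = (k a : ℤ)) := by
  refine (pr_eqn (pr_count (false, false) hf) (pr_add (pr_count (true, false) hf) hk)).of_eq ?_
  intro a
  unfold bw
  omega

lemma pr_tw {f : α → W} {k : α → ℕ} (hf : Primrec f) (hk : Primrec k) :
    PrimrecPred (fun a => tw (f a) = (k a : ℤ)) := by
  refine (pr_eqn (pr_add (pr_count (false, true) hf) (pr_count (false, false) hf))
    (pr_add (pr_add (pr_count (true, true) hf) (pr_count (true, false) hf)) hk)).of_eq ?_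
  intro a
  unfold tw
  rw [countP_fst, countP_not_fst]
  omega

lemma pr_bw0 {f : α → W} (hf : Primrec f) : PrimrecPred (fun a => bw (f a) = 0) :=
  (pr_bw hf (Primrec.const 0)).of_eq (fun _ => by simp)

lemma pr_tw0 {f : α → W} (hf : Primrec f) : PrimrecPred (fun a => tw (f a) = 0) :=
  (pr_tw hf (Primrec.const 0)).of_eq (fun _ => by simp)

lemma bw_winv (w : W) : bw (winv w) = - bw w := by
  have h1 := bt_val (winv w)
  rw [val_winv, bt_inv (val_mem w), bt_val] at h1
  exact h1.symm

lemma tw_winv (w : W) : tw (winv w) = - tw w := by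
  have h1 := tp_val (winv w)
  rw [val_winv, tp_inv (val_mem w), tp_val] at h1
  exact h1.symm

lemma pr_bw_eq {f g : α → W} (hf : Primrec f) (hg : Primrec g) :
    PrimrecPred (fun a => bw (f a) = bw (g a)) := by
  refine (pr_bw0 (pr_append (pr_winv hf) hg)).of_eq ?_
  intro a
  rw [bw_append, bw_winv]
  omega

lemma pr_tw_eq {f g : α → W} (hf : Primrec f) (hg : Primrec g) :
    PrimrecPred (fun a => tw (f a) = tw (g a)) := by
  refine (pr_tw0 (pr_append (pr_winv hf) hg)).of_eq ?_
  intro a
  rw [tw_append, tw_winv]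
  omega

lemma pr_bw_abs {f : α → W} (hf : Primrec f) : Primrec (fun a => (bw (f a)).natAbs) := by
  refine (pr_add (pr_sub (pr_count (false, false) hf) (pr_count (true, false) hf))
    (pr_sub (pr_count (true, false) hf) (pr_count (false, false) hf))).of_eq ?_
  intro a
  unfold bw
  omega

lemma pr_tw_abs {f : α → W} (hf : Primrec f) : Primrec (fun a => (tw (f a)).natAbs) := by
  refine (pr_add (pr_sub (pr_add (pr_count (false, true) hf) (pr_count (false, false) hf))
    (pr_add (pr_count (true, true) hf) (pr_count (true, false) hf)))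
    (pr_sub (pr_add (pr_count (true, true) hf) (pr_count (true, false) hf))
      (pr_add (pr_count (false, true) hf) (pr_count (false, false) hf)))).of_eq ?_
  intro a
  unfold tw
  rw [countP_fst, countP_not_fst]
  omega

end

/-! ## Positivity beyond a point -/

lemma posAfter_iff (w : W) (d : DC) : (∀ y, dval d ≤ y → y < val w y) ↔
    ∀ m < (d.2.2 + w.length + 2 + d.2.1) * 2 ^ (d.2.2 + w.length) + 1,
      dval (d.1 * 2 ^ w.length + m, d.2.1, d.2.2 + w.length) <
        dval (evD w (d.1 * 2 ^ w.length + m, d.2.1, d.2.2 + w.length)) := by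
  obtain ⟨a, C, N₀⟩ := d
  simp only
  set n := w.length with hn
  set N := N₀ + n with hN
  have h2 : (0 : ℝ) < 2 ^ N := by positivity
  have h0 : dval (a * 2 ^ n, C, N) = dval (a, C, N₀) := by
    unfold dval
    simp only
    rw [hN, pow_add]
    push_cast
    field_simp
  have hm : ∀ m : ℕ, dval (a * 2 ^ n + m, C, N) = dval (a, C, N₀) + m / 2 ^ N := by
    intro m
    rw [← h0]
    unfold dval
    simp only
    push_cast
    ring
  constructor
  · intro h m _
    rw [dval_evD]
    apply h
    rw [hm]
    have : (0 : ℝ) ≤ m / 2 ^ N := by positivity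
    linarith
  · intro h y hy
    set A : ℕ := (N + 2 + C) * 2 ^ N with hA
    have hA1 : dval (a * 2 ^ n + A, C, N) = dval (a, C, N₀) + (N + 2 + C) := by
      rw [hm, hA]; push_cast; field_simp
    have hd0 : -(C : ℝ) ≤ dval (a, C, N₀) := by
      unfold dval
      simp only
      have : (0 : ℝ) ≤ a / 2 ^ N₀ := by positivity
      linarith
    have hnN : (n : ℝ) ≤ N := by exact_mod_cast (by omega : n ≤ N)
    rcases le_total y (dval (a * 2 ^ n + A, C, N)) with h1 | h1
    · refine grid_gt w N (by omega) (((a * 2 ^ n : ℕ) : ℤ) - C * 2 ^ N)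
        (((a * 2 ^ n + A : ℕ) : ℤ) - C * 2 ^ N) ?_ (le_of_eq (dval_shift _ _ _)) ?_ y hy h1
      · rw [← dval_shift, h0]
      · intro b hb1 hb2
        obtain ⟨m, hm'⟩ : ∃ m : ℕ, (m : ℤ) = b - (((a * 2 ^ n : ℕ) : ℤ) - C * 2 ^ N) :=
          ⟨(b - (((a * 2 ^ n : ℕ) : ℤ) - C * 2 ^ N)).toNat, Int.toNat_of_nonneg (by linarith)⟩
        have hmA : m < A + 1 := by
          have : (m : ℤ) < A + 1 := by rw [hm']; push_cast at hb2 ⊢; linarith
          exact_mod_cast this
        have h3 := h m hmA
        rw [dval_evD, dval_shift] at h3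
        have e : (((a * 2 ^ n + m : ℕ) : ℤ) - C * 2 ^ N) = b := by push_cast at hm' ⊢; linarith
        rw [e] at h3
        exact h3
    · have h3 := h A (by omega)
      rw [dval_evD] at h3
      rw [(val_high w _ (by rw [hA1]; linarith)).1] at h3
      rw [(val_high w y (by rw [hA1] at h1; linarith)).1]
      linarith

/-! ## Identity up to a point -/

lemma grid_eq (w : W) (N : ℕ) (h : w.length ≤ N) {u v : ℝ} (a₀ a₁ : ℤ)
    (hu : (a₀ : ℝ) / 2 ^ N ≤ u) (hv : v ≤ (a₁ : ℝ) / 2 ^ N)
    (hg : ∀ a : ℤ, a₀ ≤ a → a ≤ a₁ → val w ((a : ℝ) / 2 ^ N) = a / 2 ^ N) :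
    ∀ t, u ≤ t → t ≤ v → val w t = t := by
  intro t h1 h2
  apply le_antisymm
  · by_contra hcon
    push Not at hcon
    -- use the inverse word
    have h3 := grid_ge (winv w) N (by rw [winv_length]; exact h) a₀ a₁ hu hv (by
      intro a ha ha'
      rw [val_winv]
      apply le_of_eq
      symm
      exact inv_eq_of_apply (hg a ha ha')) t h1 h2
    rw [val_winv, le_inv_iff'] at h3
    linarith
  · exact grid_ge w N h a₀ a₁ hu hv (fun a ha ha' => (hg a ha ha').ge) t h1 h2

lemma idUpTo_iff (w : W) (d : DC) : (∀ t, t ≤ dval d → val w t = t) ↔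
    ∀ m < (d.1 + (w.length + 1) * 2 ^ d.2.2) * 2 ^ w.length + 1,
      dval (evD w (m, d.2.1 + w.length + 1, d.2.2 + w.length)) =
        dval (m, d.2.1 + w.length + 1, d.2.2 + w.length) := by
  obtain ⟨a, C₀, N₀⟩ := d
  simp only
  set n := w.length with hn
  set N := N₀ + n with hN
  set C := C₀ + n + 1 with hC
  set A := (a + (n + 1) * 2 ^ N₀) * 2 ^ n with hA
  have h2 : (0 : ℝ) < 2 ^ N := by positivity
  have h0 : dval (A, C, N) = dval (a, C₀, N₀) := by
    unfold dval
    simp only
    rw [hN, pow_add, hA, hC]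
    push_cast
    field_simp
    ring
  have hmono : ∀ m, m ≤ A → dval (m, C, N) ≤ dval (A, C, N) := by
    intro m hm
    unfold dval
    simp only
    have : (m : ℝ) ≤ A := by exact_mod_cast hm
    have := div_le_div_of_nonneg_right this h2.le
    linarith
  constructor
  · intro h m hm
    rw [dval_evD]
    apply h
    rw [← h0]
    exact hmono m (by omega)
  · intro h t ht
    have hlow : dval (0, C, N) = -(C : ℝ) := by unfold dval; simp
    have hnC : (n : ℝ) ≤ C := by exact_mod_cast (by omega : n ≤ C)
    have hbw : (bw w : ℝ) = 0 := by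
      have h3 := h 0 (by omega)
      rw [dval_evD, hlow, (val_low w _ (by linarith)).1] at h3
      linarith
    rcases le_total t (-(C : ℝ)) with h1 | h1
    · rw [(val_low w t (by linarith)).1, hbw, add_zero]
    · refine grid_eq w N (by omega) (((0 : ℕ) : ℤ) - C * 2 ^ N) ((A : ℤ) - C * 2 ^ N)
        (by rw [← dval_shift, hlow]) (v := dval (A, C, N)) (le_of_eq (dval_shift _ _ _)) ?_ t h1
        (by rw [h0]; exact ht)
      intro b hb1 hb2
      obtain ⟨m, hm'⟩ : ∃ m : ℕ, (m : ℤ) = b + C * 2 ^ N :=
        ⟨(b + C * 2 ^ N).toNat, Int.toNat_of_nonneg (by push_cast at hb1; linarith)⟩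
      have hmA : m < A + 1 := by
        have : (m : ℤ) < A + 1 := by rw [hm']; linarith
        exact_mod_cast this
      have h3 := h m hmA
      rw [dval_evD, dval_shift] at h3
      have e : ((m : ℤ) - C * 2 ^ N) = b := by rw [hm']; ring
      rw [e] at h3
      exact h3

section
variable {α : Type*} [Primcodable α]

lemma pr_posAfter {f : α → W} {g : α → DC} (hf : Primrec f) (hg : Primrec g) :
    PrimrecPred (fun a => ∀ y, dval (g a) ≤ y → y < val (f a) y) := by
  have h : PrimrecPred (fun x : W × DC => ∀ y, dval x.2 ≤ y → y < val x.1 y) := by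
    have hq : PrimrecRel (fun (m : ℕ) (x : W × DC) =>
        dval (x.2.1 * 2 ^ x.1.length + m, x.2.2.1, x.2.2.2 + x.1.length) <
        dval (evD x.1 (x.2.1 * 2 ^ x.1.length + m, x.2.2.1, x.2.2.2 + x.1.length))) := by
      have hw : Primrec (fun y : ℕ × (W × DC) => y.2.1) := Primrec.fst.comp Primrec.snd
      have hd : Primrec (fun y : ℕ × (W × DC) => y.2.2) := Primrec.snd.comp Primrec.snd
      have hL := pr_len hw
      have hc := pr_mk (pr_add (pr_mul (pr_d1 hd) (pr_pow2 hL)) Primrec.fst) (pr_d2 hd)
        (pr_add (pr_d3 hd) hL)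
      exact pr_dlt hc (pr_ev hw hc)
    have hw : Primrec (fun y : W × DC => y.1) := Primrec.fst
    have hd : Primrec (fun y : W × DC => y.2) := Primrec.snd
    have hL := pr_len hw
    refine ((primrec_forall_lt hq).comp
      (f := fun x : W × DC => (x.2.2.2 + x.1.length + 2 + x.2.2.1) * 2 ^ (x.2.2.2 + x.1.length) + 1)
      (g := fun x => x) ?_ Primrec.id).of_eq (fun x => (posAfter_iff x.1 x.2).symm)
    exact pr_add (pr_mul (pr_add (pr_add (pr_add (pr_d3 hd) hL) (Primrec.const 2)) (pr_d2 hd))
      (pr_pow2 (pr_add (pr_d3 hd) hL))) (Primrec.const 1)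
  exact h.comp (Primrec.pair hf hg)

lemma pr_idUpTo {f : α → W} {g : α → DC} (hf : Primrec f) (hg : Primrec g) :
    PrimrecPred (fun a => ∀ t, t ≤ dval (g a) → val (f a) t = t) := by
  have h : PrimrecPred (fun x : W × DC => ∀ t, t ≤ dval x.2 → val x.1 t = t) := by
    have hq : PrimrecRel (fun (m : ℕ) (x : W × DC) =>
        dval (evD x.1 (m, x.2.2.1 + x.1.length + 1, x.2.2.2 + x.1.length)) =
        dval (m, x.2.2.1 + x.1.length + 1, x.2.2.2 + x.1.length)) := by
      have hw : Primrec (fun y : ℕ × (W × DC) => y.2.1) := Primrec.fst.comp Primrec.snd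
      have hd : Primrec (fun y : ℕ × (W × DC) => y.2.2) := Primrec.snd.comp Primrec.snd
      have hL := pr_len hw
      have hc := pr_mk (α := ℕ × (W × DC)) Primrec.fst
        (pr_add (pr_add (pr_d2 hd) hL) (Primrec.const 1)) (pr_add (pr_d3 hd) hL)
      exact pr_deq (pr_ev hw hc) hc
    have hw : Primrec (fun y : W × DC => y.1) := Primrec.fst
    have hd : Primrec (fun y : W × DC => y.2) := Primrec.snd
    have hL := pr_len hw
    refine ((primrec_forall_lt hq).comp
      (f := fun x : W × DC => (x.2.1 + (x.1.length + 1) * 2 ^ x.2.2.2) * 2 ^ x.1.length + 1)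
      (g := fun x => x) ?_ Primrec.id).of_eq (fun x => (idUpTo_iff x.1 x.2).symm)
    exact pr_add (pr_mul (pr_add (pr_d1 hd) (pr_mul (pr_add hL (Primrec.const 1))
      (pr_pow2 (pr_d3 hd)))) (pr_pow2 hL)) (Primrec.const 1)
  exact h.comp (Primrec.pair hf hg)

end

end Pool.Agent.Lib_helper30
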