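import Pool.Agent.Lib_helper30.NSv

set_option autoImplicit false

namespace Pool.Agent.Lib_helper30

open Filter Topology Set

/-- Some product of conjugates is a square. -/
def Psv (l : List (ℝ ≃o ℝ)) : Prop := ∃ y ∈ GG, Pr l (y * y)

lemma Psv.perm {l l' : List (ℝ ≃o ℝ)} (h : l.Perm l') (hG : ∀ c ∈ l, c ∈ GG) (hs : Psv l) :
    Psv l' := by
  obtain ⟨y, hy, h1⟩ := hs
  exact ⟨y, hy, Pr_perm h hG _ h1⟩

lemma Psv.inv {l : List (ℝ ≃o ℝ)} (hG : ∀ c ∈ l, c ∈ GG) (hs : Psv l) :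
    Psv (l.map (fun c => c⁻¹)) := by
  obtain ⟨y, hy, h1⟩ := hs
  refine ⟨y⁻¹, GG.inv_mem hy, ?_⟩
  have := Pr_inv hG h1
  rwa [mul_inv_rev] at this

lemma prod_map_shR (L : List (ℝ ≃o ℝ)) : (L.map shR).prod = shR L.prod := by
  induction L with
  | nil => simp [shR_one]
  | cons a L ih => rw [List.map_cons, List.prod_cons, List.prod_cons, shR_mul, ih]

lemma prod_map_rf (L : List (ℝ ≃o ℝ)) : (L.map rf).prod = rf L.prod := by
  induction L with
  | nil => simp [rf_one]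
  | cons a L ih => rw [List.map_cons, List.prod_cons, List.prod_cons, rf_mul, ih]

lemma Pr_shR {l ns : List (ℝ ≃o ℝ)} (h : List.Forall₂ (fun c n => GC c (shR n)) l ns)
    {x : ℝ ≃o ℝ} (hs : Pr ns x) : Pr l (shR x) := by
  obtain ⟨ns', h1, h2⟩ := hs
  refine ⟨ns'.map shR, ?_, by rw [prod_map_shR, h2]⟩
  clear h2
  induction h generalizing ns' with
  | nil => cases h1; exact List.Forall₂.nil
  | cons k _ ih =>
    cases h1 with
    | cons j1 j2 => exact List.Forall₂.cons (k.trans j1.shR) (ih _ j2)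

lemma Pr_rf {l : List (ℝ ≃o ℝ)} {x : ℝ ≃o ℝ} (hs : Pr l x) : Pr (l.map rf) (rf x) := by
  obtain ⟨l', h1, h2⟩ := hs
  refine ⟨l'.map rf, ?_, by rw [prod_map_rf, h2]⟩
  clear h2
  induction h1 with
  | nil => exact List.Forall₂.nil
  | cons k _ ih => exact List.Forall₂.cons k.rf ih

lemma Psv_shR {l ns : List (ℝ ≃o ℝ)} (h : List.Forall₂ (fun c n => GC c (shR n)) l ns)
    (hs : Psv ns) : Psv l := by
  obtain ⟨y, hy, h1⟩ := hs
  exact ⟨shR y, shR_mem_GG hy, by rw [← shR_mul]; exact Pr_shR h h1⟩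

lemma Psv_rf {l : List (ℝ ≃o ℝ)} (hs : Psv l) : Psv (l.map rf) := by
  obtain ⟨y, hy, h1⟩ := hs
  exact ⟨rf y, rf_mem_GG hy, by rw [← rf_mul]; exact Pr_rf h1⟩

lemma hasP_cat_right {f g : ℝ ≃o ℝ} (h : HasP g) : HasP (cat f g) := by
  obtain ⟨x, _, hx⟩ := h
  refine hasP_of_real (t := hf x) ?_
  rw [cat_ge _ _ (hf_pos _).le, shR_hf]
  exact hf_strictMono hx

lemma hasN_cat_right {f g : ℝ ≃o ℝ} (h : HasN g) : HasN (cat f g) := by
  obtain ⟨x, _, hx⟩ := h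
  refine hasN_of_real (t := hf x) ?_
  rw [cat_ge _ _ (hf_pos _).le, shR_hf]
  exact hf_strictMono hx

lemma hasP_cat_left {f g : ℝ ≃o ℝ} (h : HasP f) : HasP (cat f g) := by
  rw [← hasN_rf, rf_cat]
  exact hasN_cat_right (hasN_rf.2 h)

lemma hasN_cat_left {f g : ℝ ≃o ℝ} (h : HasN f) : HasN (cat f g) := by
  rw [← hasP_rf, rf_cat]
  exact hasP_cat_right (hasP_rf.2 h)

lemma tr_bt (k : ℤ) : bt (tr (k : ℝ)) = k := bt_eq (tr_bot k)
lemma tr_tp (k : ℤ) : tp (tr (k : ℝ)) = k := tp_eq (tr_top k)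

lemma shR_ge_id {c : ℝ ≃o ℝ} (h : ∀ t, t ≤ c t) : ∀ t, t ≤ shR c t := by
  intro t
  by_cases h0 : t ≤ 0
  · rw [shR_le _ h0]
  · push Not at h0
    obtain ⟨s, rfl⟩ := hf_surj h0
    rw [shR_hf]
    exact hf_strictMono.monotone (h s)

lemma shL_ge_id {c : ℝ ≃o ℝ} (h : ∀ t, t ≤ c t) : ∀ t, t ≤ shL c t := by
  intro t
  have h1 : ∀ s, s ≤ (rf c)⁻¹ s := by
    intro s
    have h2 : (rf c) s ≤ s := by
      rw [rf_apply]
      have := h (-s)
      linarith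
    have := ((rf c)⁻¹).monotone h2
    rwa [inv_apply'] at this
  have h3 := shR_ge_id h1 (shR (rf c) (-t))
  rw [shR_inv, inv_apply'] at h3
  show t ≤ rf (shR (rf c)) t
  rw [rf_apply]
  linarith

/-- Everywhere positive elements with given positive ends. -/
lemma exists_pos_ends {p q : ℤ} (hp : 0 < p) (hq : 0 < q) :
    ∃ y ∈ GG, bt y = p ∧ tp y = q ∧ ∀ t, t < y t := by
  rcases le_total p q with h | h
  · have hk : ∀ t : ℝ, t ≤ tr ((q - p : ℤ) : ℝ) t := by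
      intro t
      rw [tr_apply]
      have : (0 : ℝ) ≤ ((q - p : ℤ) : ℝ) := by exact_mod_cast sub_nonneg.2 h
      linarith
    have hpr : (0 : ℝ) < (p : ℝ) := by exact_mod_cast hp
    refine ⟨tr (p : ℝ) * shR (tr ((q - p : ℤ) : ℝ)),
      GG.mul_mem (tr_int_GG p) (shR_mem_GG (tr_int_GG _)), ?_, ?_, ?_⟩
    · rw [bt_mul (tr_int_GG p) (shR_mem_GG (tr_int_GG _)), tr_bt, shR_bt, add_zero]
    · rw [tp_mul (tr_int_GG p) (shR_mem_GG (tr_int_GG _)), tr_tp, shR_tp (tr_int_GG _), tr_tp]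
      ring
    · intro t
      rw [mul_apply', tr_apply]
      have := shR_ge_id hk t
      linarith
  · have hk : ∀ t : ℝ, t ≤ tr ((p - q : ℤ) : ℝ) t := by
      intro t
      rw [tr_apply]
      have : (0 : ℝ) ≤ ((p - q : ℤ) : ℝ) := by exact_mod_cast sub_nonneg.2 h
      linarith
    have hqr : (0 : ℝ) < (q : ℝ) := by exact_mod_cast hq
    refine ⟨tr (q : ℝ) * shL (tr ((p - q : ℤ) : ℝ)),
      GG.mul_mem (tr_int_GG q) (shL_mem_GG (tr_int_GG _)), ?_, ?_, ?_⟩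
    · rw [bt_mul (tr_int_GG q) (shL_mem_GG (tr_int_GG _)), tr_bt, shL_bt (tr_int_GG _), tr_bt]
      ring
    · rw [tp_mul (tr_int_GG q) (shL_mem_GG (tr_int_GG _)), tr_tp, shL_tp (tr_int_GG _), add_zero]
    · intro t
      rw [mul_apply', tr_apply]
      have := shL_ge_id hk t
      linarith

/-- Elements of both signs with given ends. -/
lemma exists_mixed_ends (p q : ℤ) : ∃ y ∈ GG, bt y = p ∧ tp y = q ∧ HasP y ∧ HasN y := by
  have e1 : tr ((1 : ℤ) : ℝ) ∈ GG := tr_int_GG 1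
  have e2 : tr ((-1 : ℤ) : ℝ) ∈ GG := tr_int_GG (-1)
  have i1 := cat_mem_GG e2 (tr_int_GG q)
  have i2 := cat_mem_GG e1 i1
  refine ⟨cat (tr (p : ℝ)) (cat (tr ((1 : ℤ) : ℝ)) (cat (tr ((-1 : ℤ) : ℝ)) (tr (q : ℝ)))),
    cat_mem_GG (tr_int_GG p) i2, ?_, ?_, ?_, ?_⟩
  · rw [cat_bt (tr_int_GG p) i2, tr_bt]
  · rw [cat_tp (tr_int_GG p) i2, cat_tp e1 i1, cat_tp e2 (tr_int_GG q), tr_tp]
  · apply hasP_cat_right
    apply hasP_cat_left
    refine hasP_of_real (t := 0) ?_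
    rw [tr_apply]; norm_num
  · apply hasN_cat_right
    apply hasN_cat_right
    apply hasN_cat_left
    refine hasN_of_real (t := 0) ?_
    rw [tr_apply]; norm_num

lemma hasP_sq {y : ℝ ≃o ℝ} (h : HasP y) : HasP (y * y) := by
  obtain ⟨t, _, ht⟩ := h
  refine hasP_of_real (t := t) ?_
  rw [mul_apply']
  exact ht.trans (y.strictMono ht)

lemma hasN_sq {y : ℝ ≃o ℝ} (h : HasN y) : HasN (y * y) := by
  obtain ⟨t, _, ht⟩ := h
  refine hasN_of_real (t := t) ?_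
  rw [mul_apply']
  exact (y.strictMono ht).trans ht

lemma ends_nonneg {c : ℝ ≃o ℝ} (hc : c ∈ GG) (h : ¬ HasN c) : 0 ≤ bt c ∧ 0 ≤ tp c := by
  have hge := ge_of_not_hasN h
  constructor
  · obtain ⟨T, hT⟩ := (Filter.eventually_atBot.1 (bt_spec hc))
    have := hT T le_rfl
    have h2 := hge T
    rw [this] at h2
    have : (0 : ℝ) ≤ bt c := by linarith
    exact_mod_cast this
  · obtain ⟨T, hT⟩ := (Filter.eventually_atTop.1 (tp_spec hc))
    have := hT T le_rfl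
    have h2 := hge T
    rw [this] at h2
    have : (0 : ℝ) ≤ tp c := by linarith
    exact_mod_cast this

/-- The hypotheses for two elements. -/
structure Hyp2 (a b : ℝ ≃o ℝ) : Prop where
  ma : a ∈ GG
  mb : b ∈ GG
  na : a ≠ 1
  nb : b ≠ 1
  eb : ∃ k : ℤ, bt a + bt b = 2 * k
  et : ∃ k : ℤ, tp a + tp b = 2 * k

lemma Hyp2.rf {a b : ℝ ≃o ℝ} (h : Hyp2 a b) : Hyp2 (rf a) (rf b) where
  ma := rf_mem_GG h.ma
  mb := rf_mem_GG h.mb
  na := by
    intro h2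
    apply h.na
    rw [← rf_rf a, h2, rf_one]
  nb := by
    intro h2
    apply h.nb
    rw [← rf_rf b, h2, rf_one]
  eb := by
    obtain ⟨k, hk⟩ := h.et
    exact ⟨-k, by rw [rf_bt h.ma, rf_bt h.mb]; linarith⟩
  et := by
    obtain ⟨k, hk⟩ := h.eb
    exact ⟨-k, by rw [rf_tp h.ma, rf_tp h.mb]; linarith⟩

lemma norm_two {a b : ℝ ≃o ℝ} (h : Hyp2 a b) : ∃ a' b', Hyp2 a' b' ∧
    (bt a' ≠ 0 ∨ bt b' ≠ 0) ∧ tp a' = tp a ∧ tp b' = tp b ∧ (Psv [a', b'] → Psv [a, b]) := by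
  by_cases h0 : bt a ≠ 0 ∨ bt b ≠ 0
  · exact ⟨a, b, h, h0, rfl, rfl, fun h => h⟩
  · push Not at h0
    obtain ⟨m, hm, e1, e2⟩ := exists_germ (decomp_all h.ma) h.na h.ma h0.1
    obtain ⟨n, hn, e3, e4⟩ := exists_germ (decomp_all h.mb) h.nb h.mb h0.2
    have hm1 : m ≠ 1 := by rintro rfl; exact e2 bt_one
    have hn1 : n ≠ 1 := by rintro rfl; exact e4 bt_one
    have t1 : tp m = tp a := by rw [← e1.tp h.ma, shR_tp hm]
    have t2 : tp n = tp b := by rw [← e3.tp h.mb, shR_tp hn]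
    obtain ⟨k, hk⟩ := h.et
    rcases Int.even_or_odd' (bt m) with ⟨i, hi | hi⟩
    · rcases Int.even_or_odd' (bt n) with ⟨j, hj | hj⟩
      · refine ⟨m, n, ⟨hm, hn, hm1, hn1, ⟨i + j, by linarith⟩, ⟨k, by rw [t1, t2, hk]⟩⟩,
          Or.inl e2, t1, t2, Psv_shR ?_⟩
        exact List.Forall₂.cons e1 (List.Forall₂.cons e3 List.Forall₂.nil)
      · refine ⟨m, shR n, ⟨hm, shR_mem_GG hn, hm1, shR_ne_one hn1,
          ⟨i, by rw [shR_bt, hi, add_zero]⟩, ⟨k, by rw [t1, shR_tp hn, t2, hk]⟩⟩,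
          Or.inl e2, t1, by rw [shR_tp hn, t2], Psv_shR ?_⟩
        exact List.Forall₂.cons e1 (List.Forall₂.cons (e3.trans (GC_shR_shR _)) List.Forall₂.nil)
    · rcases Int.even_or_odd' (bt n) with ⟨j, hj | hj⟩
      · refine ⟨shR m, n, ⟨shR_mem_GG hm, hn, shR_ne_one hm1, hn1,
          ⟨j, by rw [shR_bt, hj, zero_add]⟩, ⟨k, by rw [shR_tp hm, t1, t2, hk]⟩⟩,
          Or.inr e4, by rw [shR_tp hm, t1], t2, Psv_shR ?_⟩
        exact List.Forall₂.cons (e1.trans (GC_shR_shR _)) (List.Forall₂.cons e3 List.Forall₂.nil)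
      · refine ⟨m, n, ⟨hm, hn, hm1, hn1, ⟨i + j + 1, by linarith⟩, ⟨k, by rw [t1, t2, hk]⟩⟩,
          Or.inl e2, t1, t2, Psv_shR ?_⟩
        exact List.Forall₂.cons e1 (List.Forall₂.cons e3 List.Forall₂.nil)

lemma proj_mixed {a b : ℝ ≃o ℝ} (h : Hyp2 a b) (hb : bt a ≠ 0 ∨ bt b ≠ 0)
    (ht : tp a ≠ 0 ∨ tp b ≠ 0) (hN : HasN a) (hP : HasP b) : Psv [a, b] := by
  obtain ⟨k, hk⟩ := h.eb
  obtain ⟨k', hk'⟩ := h.et
  obtain ⟨y, hy, y1, y2, y3, y4⟩ := exists_mixed_ends k k'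
  have hyy := GG.mul_mem hy hy
  have hd := GG.inv_mem hyy
  have b1 : bt (y * y)⁻¹ = - (2 * k) := by rw [bt_inv hyy, bt_mul hy hy, y1]; ring
  have b2 : tp (y * y)⁻¹ = - (2 * k') := by rw [tp_inv hyy, tp_mul hy hy, y2]; ring
  have key := fb_three h.ma hd h.mb (bt_spec h.ma) (bt_spec hd) (bt_spec h.mb) (tp_spec h.ma)
    (tp_spec hd) (tp_spec h.mb) (by rw [b1]; linarith) (by rw [b2]; linarith)
    (by tauto) (by tauto) hN (hasN_inv.2 (hasP_sq y3)) (hasP_inv.2 (hasN_sq y4)) hP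
  have h2 := Sv_of_Sv3 key
  have h3 : Sv [(y * y)⁻¹, a, b] := by
    refine h2.perm (List.Perm.swap _ _ _) ?_
    intro c hc
    simp only [List.mem_cons, List.not_mem_nil, or_false] at hc
    rcases hc with rfl | rfl | rfl
    · exact h.ma
    · exact hd
    · exact h.mb
  rw [Sv_cons_iff, inv_inv] at h3
  exact ⟨y, hy, h3⟩

lemma proj_pos {a b : ℝ ≃o ℝ} (h : Hyp2 a b) (hb : bt a ≠ 0 ∨ bt b ≠ 0)
    (ht : tp a ≠ 0 ∨ tp b ≠ 0) (ha : ¬ HasN a) (hb' : ¬ HasN b) : Psv [a, b] := by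
  obtain ⟨k, hk⟩ := h.eb
  obtain ⟨k', hk'⟩ := h.et
  obtain ⟨a1, a2⟩ := ends_nonneg h.ma ha
  obtain ⟨b1, b2⟩ := ends_nonneg h.mb hb'
  obtain ⟨y, hy, y1, y2, y3⟩ := exists_pos_ends (p := k) (q := k') (by omega) (by omega)
  refine ⟨y, hy, ?_⟩
  refine Pr_bump (l := []) ?_ ?_ h.na h.nb (GG.mul_mem hy hy) ?_ ?_ ?_
  · intro c hc
    simp only [List.mem_cons, List.not_mem_nil, or_false] at hc
    rcases hc with rfl | rfl
    · exact h.ma
    · exact h.mb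
  · intro c hc
    simp only [List.mem_cons, List.not_mem_nil, or_false] at hc
    rcases hc with rfl | rfl
    · exact ha
    · exact hb'
  · intro t
    rw [mul_apply']
    exact (y3 t).trans (y3 (y t))
  · rw [bt_mul hy hy, y1]; simp; linarith
  · rw [tp_mul hy hy, y2]; simp; linarith

lemma Psv.swap {a b : ℝ ≃o ℝ} (ha : a ∈ GG) (hb : b ∈ GG) (h : Psv [a, b]) : Psv [b, a] := by
  refine h.perm (List.Perm.swap _ _ _) ?_
  intro c hc
  simp only [List.mem_cons, List.not_mem_nil, or_false] at hc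
  rcases hc with rfl | rfl
  · exact ha
  · exact hb

lemma Hyp2.inv {a b : ℝ ≃o ℝ} (h : Hyp2 a b) : Hyp2 a⁻¹ b⁻¹ where
  ma := GG.inv_mem h.ma
  mb := GG.inv_mem h.mb
  na := inv_ne_one.2 h.na
  nb := inv_ne_one.2 h.nb
  eb := by
    obtain ⟨k, hk⟩ := h.eb
    exact ⟨-k, by rw [bt_inv h.ma, bt_inv h.mb]; linarith⟩
  et := by
    obtain ⟨k, hk⟩ := h.et
    exact ⟨-k, by rw [tp_inv h.ma, tp_inv h.mb]; linarith⟩

lemma Hyp2.swap {a b : ℝ ≃o ℝ} (h : Hyp2 a b) : Hyp2 b a where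
  ma := h.mb
  mb := h.ma
  na := h.nb
  nb := h.na
  eb := by
    obtain ⟨k, hk⟩ := h.eb
    exact ⟨k, by linarith⟩
  et := by
    obtain ⟨k, hk⟩ := h.et
    exact ⟨k, by linarith⟩

lemma proj_ends {a b : ℝ ≃o ℝ} (h : Hyp2 a b) (hb : bt a ≠ 0 ∨ bt b ≠ 0)
    (ht : tp a ≠ 0 ∨ tp b ≠ 0) : Psv [a, b] := by
  by_cases hNa : HasN a
  · by_cases hPb : HasP b
    · exact proj_mixed h hb ht hNa hPb
    · have hNb := (hasP_or_hasN h.nb).resolve_left hPb
      by_cases hPa : HasP a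
      · exact (proj_mixed h.swap hb.symm ht.symm hNb hPa).swap h.mb h.ma
      · -- both nonpositive
        have h1 := proj_pos h.inv (by
            rw [bt_inv h.ma, bt_inv h.mb]; simpa using hb) (by
            rw [tp_inv h.ma, tp_inv h.mb]; simpa using ht) (fun h2 => hPa (hasN_inv.1 h2))
            (fun h2 => hPb (hasN_inv.1 h2))
        have h2 := h1.inv (by
          intro c hc
          simp only [List.mem_cons, List.not_mem_nil, or_false] at hc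
          rcases hc with rfl | rfl
          · exact GG.inv_mem h.ma
          · exact GG.inv_mem h.mb)
        simpa using h2
  · by_cases hNb : HasN b
    · have hPa := (hasP_or_hasN h.na).resolve_right hNa
      exact (proj_mixed h.swap hb.symm ht.symm hNb hPa).swap h.mb h.ma
    · exact proj_pos h hb ht hNa hNb

theorem proj_two {a b : ℝ ≃o ℝ} (h : Hyp2 a b) : Psv [a, b] := by
  obtain ⟨a₁, b₁, h₁, e1, _, _, e2⟩ := norm_two h
  obtain ⟨a₂, b₂, h₂, e3, e4, e5, e6⟩ := norm_two h₁.rf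
  apply e2
  have h3 : Psv ([rf a₁, rf b₁].map rf) := by
    apply Psv_rf
    apply e6
    have h4 := h₂.rf
    have : Psv ([rf a₂, rf b₂].map rf) := by
      apply Psv_rf
      refine proj_ends h₂.rf ?_ ?_
      · rw [rf_bt h₂.ma, rf_bt h₂.mb, e4, e5, rf_tp h₁.ma, rf_tp h₁.mb]
        simpa using e1
      · rw [rf_tp h₂.ma, rf_tp h₂.mb]
        simpa using e3
    simpa [rf_rf] using this
  simpa [rf_rf] using h3

lemma Pr.of_merge {a b b' x : ℝ ≃o ℝ} {l : List (ℝ ≃o ℝ)} (hb : GC b b')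
    (h : Pr (a * b' :: l) x) : Pr (a :: b :: l) x := by
  rw [Pr_cons] at h
  obtain ⟨c, y, ⟨g, hg, rfl⟩, h2, rfl⟩ := h
  rw [Pr_cons]
  refine ⟨g * a * g⁻¹, (g * b' * g⁻¹) * y, ⟨g, hg, rfl⟩, ?_, by group⟩
  rw [Pr_cons]
  exact ⟨g * b' * g⁻¹, y, hb.conj hg, h2, rfl⟩

theorem proj_list (n : ℕ) : ∀ l : List (ℝ ≃o ℝ), l.length = n + 2 → (∀ c ∈ l, c ∈ GG) →
    (∀ c ∈ l, c ≠ 1) → (∃ k : ℤ, (l.map bt).sum = 2 * k) → (∃ k : ℤ, (l.map tp).sum = 2 * k) →
    Psv l := by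
  induction n with
  | zero =>
    intro l hl hG h1 hb ht
    match l, hl with
    | [a, b], _ =>
      refine proj_two ⟨hG a (by simp), hG b (by simp), h1 a (by simp), h1 b (by simp), ?_, ?_⟩
      · simpa using hb
      · simpa using ht
  | succ n ih =>
    intro l hl hG h1 hb ht
    match l, hl with
    | a :: b :: l', hl =>
      have ha := hG a (by simp)
      have hb' := hG b (by simp)
      obtain ⟨g, hg, k1, k2⟩ := merge ha hb' (h1 b (by simp))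
      have hbg : g * b * g⁻¹ ∈ GG := GG.mul_mem (GG.mul_mem hg hb') (GG.inv_mem hg)
      have hbGC : GC b (g * b * g⁻¹) := ⟨g, hg, rfl⟩
      have h2 : Psv (a * (g * b * g⁻¹) :: l') := by
        refine ih _ ?_ ?_ ?_ ?_ ?_
        · simp at hl ⊢; omega
        · intro c hc
          rcases List.mem_cons.1 hc with rfl | hc
          · exact GG.mul_mem ha hbg
          · exact hG c (by simp [hc])
        · intro c hc
          rcases List.mem_cons.1 hc with rfl | hc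
          · rcases hasP_or_hasN (h1 a (by simp)) with h | h
            · exact (k1 (Or.inl h)).ne_one
            · exact (k2 (Or.inl h)).ne_one
          · exact h1 c (by simp [hc])
        · obtain ⟨k, hk⟩ := hb
          refine ⟨k, ?_⟩
          rw [List.map_cons, List.sum_cons, bt_mul ha hbg, hbGC.bt hb']
          simpa [add_assoc] using hk
        · obtain ⟨k, hk⟩ := ht
          refine ⟨k, ?_⟩
          rw [List.map_cons, List.sum_cons, tp_mul ha hbg, hbGC.tp hb']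
          simpa [add_assoc] using hk
      obtain ⟨y, hy, h3⟩ := h2
      exact ⟨y, hy, Pr.of_merge hbGC h3⟩

end Pool.Agent.Lib_helper30
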