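import Pool.Agent.Lib_helper30.NPs
import Pool.Agent.Lib_helper30.Crit

set_option autoImplicit false

namespace Pool.Agent.Lib_helper30

open Filter Topology Set

/-- Equation words. -/
abbrev EW : Type := List (Bool × (Bool ⊕ ℕ))

/-- Letters of constants. -/
def embL (p : Bool × Bool) : Bool × (Bool ⊕ ℕ) := (p.1, Sum.inl p.2)

/-- Words of constants. -/
def emb (u : W) : EW := u.map embL

/-- Value of an equation word. -/
noncomputable def eG (σ : ℕ → (ℝ ≃o ℝ)) (w : EW) : ℝ ≃o ℝ := ev genImg σ w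

lemma eG_append (σ : ℕ → (ℝ ≃o ℝ)) (u v : EW) : eG σ (u ++ v) = eG σ u * eG σ v :=
  ev_append _ _ _ _

lemma eG_cons (σ : ℕ → (ℝ ≃o ℝ)) (p : Bool × (Bool ⊕ ℕ)) (v : EW) :
    eG σ (p :: v) = evL genImg σ p * eG σ v := ev_cons _ _ _ _

lemma eG_nil (σ : ℕ → (ℝ ≃o ℝ)) : eG σ [] = 1 := rfl

lemma eG_var (σ : ℕ → (ℝ ≃o ℝ)) (s : Bool) (n : ℕ) (v : EW) :
    eG σ ((s, Sum.inr n) :: v) = sgn s (σ n) * eG σ v := by
  rw [eG_cons, evL_var]

lemma eG_emb (σ : ℕ → (ℝ ≃o ℝ)) (u : W) : eG σ (emb u) = val u := by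
  induction u with
  | nil => rfl
  | cons p u ih =>
    have : emb (p :: u) = embL p :: emb u := rfl
    rw [this, eG_cons, ih, val_cons]
    congr 1

lemma sgn_mem {s : Bool} {g : ℝ ≃o ℝ} (h : g ∈ GG) : sgn s g ∈ GG := by
  cases s
  · exact GG.inv_mem h
  · exact h

lemma sgn_not (s : Bool) (g : ℝ ≃o ℝ) : sgn (!s) g = (sgn s g)⁻¹ := by
  cases s
  · simp [sgn]
  · simp [sgn]

lemma eG_mem {σ : ℕ → (ℝ ≃o ℝ)} (h : ∀ n, σ n ∈ GG) (w : EW) : eG σ w ∈ GG := by
  induction w with
  | nil => exact GG.one_mem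
  | cons p w ih =>
    obtain ⟨s, c | n⟩ := p
    · rw [eG_cons]
      refine GG.mul_mem ?_ ih
      unfold evL
      simp only [Sum.elim_inl]
      split_ifs
      · exact genImg_mem c
      · exact GG.inv_mem (genImg_mem c)
    · rw [eG_var]
      exact GG.mul_mem (sgn_mem (h n)) ih

/-- The variable `x` does not occur in `w`. -/
def Av (x : ℕ) (w : EW) : Prop := ∀ p ∈ w, ¬ p.2 = Sum.inr x

lemma eG_update {x : ℕ} {w : EW} (h : Av x w) (σ : ℕ → (ℝ ≃o ℝ)) (g : ℝ ≃o ℝ) :
    eG (Function.update σ x g) w = eG σ w := by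
  refine ev_congr _ ?_
  intro p hp n hn
  have : n ≠ x := by rintro rfl; exact h p hp hn
  rw [Function.update_of_ne this]

/-- Final condition. -/
def Tc (b : Bool) (z : ℝ ≃o ℝ) : Prop := if b then Sq z else z = 1

lemma Tc.GC {b : Bool} {z z' : ℝ ≃o ℝ} (h : GC z z') (ht : Tc b z) : Tc b z' := by
  cases b
  · have : z = 1 := ht
    rw [this, GC_one_iff] at h
    exact h
  · exact Sq.GC h ht

/-- Solvability of a state. -/
def SSt (b : Bool) (w : EW) (l : List W) : Prop :=
  ∃ σ : ℕ → (ℝ ≃o ℝ), (∀ n, σ n ∈ GG) ∧ ∃ x, Pr (l.map val) x ∧ Tc b (eG σ w * x)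

lemma SSt_reduce {b : Bool} {A C : EW} {x : ℕ} {s : Bool} {u : W} {l : List W} (hA : Av x A)
    (hC : Av x C) :
    SSt b (A ++ (s, Sum.inr x) :: (emb u ++ (!s, Sum.inr x) :: C)) l ↔ SSt b (A ++ C) (u :: l) := by
  constructor
  · rintro ⟨σ, hσ, X, hX, h⟩
    have hXG := (Pr_ends (map_val_GG _) hX).1
    refine ⟨σ, hσ, ((eG σ C)⁻¹ * (sgn s (σ x) * val u * (sgn s (σ x))⁻¹) * (eG σ C)⁻¹⁻¹) * X,
      ?_, ?_⟩
    · rw [List.map_cons, Pr_cons]
      refine ⟨_, X, ?_, hX, rfl⟩
      exact GC.conj ⟨_, sgn_mem (hσ x), rfl⟩ (GG.inv_mem (eG_mem hσ C))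
    · rw [eG_append, eG_var, eG_append, eG_emb, eG_var, sgn_not] at h
      rw [eG_append]
      convert h using 1
      group
  · rintro ⟨σ, hσ, X, hX, h⟩
    rw [List.map_cons, Pr_cons] at hX
    obtain ⟨u', Y, ⟨g, hg, rfl⟩, hY, rfl⟩ := hX
    have hCG := eG_mem hσ C
    refine ⟨Function.update σ x (sgn s (eG σ C * g)), ?_, Y, hY, ?_⟩
    · intro n
      by_cases hn : n = x
      · subst hn
        rw [Function.update_self]
        exact sgn_mem (GG.mul_mem hCG hg)
      · rw [Function.update_of_ne hn]; exact hσ n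
    · rw [eG_append, eG_var, eG_append, eG_emb, eG_var, sgn_not, Function.update_self,
        eG_update hA, eG_update hC, sgn_sgn]
      rw [eG_append] at h
      have : (s == s) = true := by simp
      rw [this, sgn_true]
      convert h using 1
      group

lemma SSt_const_false {u : W} {l : List W} : SSt false (emb u) l ↔ Sv ((u :: l).map val) := by
  rw [List.map_cons, Sv_cons_iff]
  constructor
  · rintro ⟨σ, _, X, hX, h⟩
    have h2 : eG σ (emb u) * X = 1 := h
    rw [eG_emb] at h2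
    rwa [← eq_inv_of_mul_eq_one_right h2]
  · intro h
    refine ⟨fun _ => 1, fun _ => GG.one_mem, _, h, ?_⟩
    show eG _ (emb u) * _ = 1
    rw [eG_emb, mul_inv_cancel]

lemma SSt_const_true {u : W} {l : List W} : SSt true (emb u) l ↔ Psv ((u :: l).map val) := by
  rw [List.map_cons]
  constructor
  · rintro ⟨σ, _, X, hX, h⟩
    have h2 : Sq (eG σ (emb u) * X) := h
    rw [eG_emb] at h2
    obtain ⟨y, hy, h3⟩ := h2
    refine ⟨y, hy, ?_⟩
    rw [Pr_cons]
    exact ⟨val u, X, GC.refl _, hX, h3⟩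
  · rintro ⟨y, hy, h⟩
    rw [Pr_cons] at h
    obtain ⟨u', X, ⟨g, hg, rfl⟩, hX, h⟩ := h
    refine ⟨fun _ => 1, fun _ => GG.one_mem, g⁻¹ * X * g⁻¹⁻¹, hX.conj (GG.inv_mem hg), ?_⟩
    show Sq (eG _ (emb u) * _)
    rw [eG_emb]
    refine ⟨g⁻¹ * y * g⁻¹⁻¹, GG.mul_mem (GG.mul_mem (GG.inv_mem hg) hy)
      (GG.inv_mem (GG.inv_mem hg)), ?_⟩
    have : g⁻¹ * y * g⁻¹⁻¹ * (g⁻¹ * y * g⁻¹⁻¹) = g⁻¹ * (y * y) * g := by group
    rw [this, ← h]
    group

/-- A reducible decomposition. -/
abbrev RD : Type := (EW × EW) × (Bool × ℕ) × W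

/-- The word of a reducible decomposition. -/
def rdw (z : RD) : EW :=
  z.1.1 ++ (z.2.1.1, Sum.inr z.2.1.2) :: (emb z.2.2 ++ (!z.2.1.1, Sum.inr z.2.1.2) :: z.1.2)

/-- Steps for unsolvability of planar states. -/
def StepU (s : EW × List W × Bool) (ys : List (EW × List W × Bool)) : Prop :=
  (∃ z : RD, s.1 = rdw z ∧ Av z.2.1.2 z.1.1 ∧ Av z.2.1.2 z.1.2 ∧
    (z.1.1 ++ z.1.2, z.2.2 :: s.2.1, s.2.2) ∈ ys) ∨
  (∃ u : W, s.1 = emb u ∧ ((s.2.2 = false ∧ NSv (u :: s.2.1)) ∨ (s.2.2 = true ∧ NPs (u :: s.2.1))))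

/-- Certified unsolvability of planar states. -/
def UU (s : EW × List W × Bool) : Prop := Der StepU s

theorem UU_sound {s : EW × List W × Bool} (h : UU s) : ¬ SSt s.2.2 s.1 s.2.1 := by
  induction h with
  | mk s ys h _ ih =>
    intro hS
    rcases h with ⟨z, h1, h2, h3, h4⟩ | ⟨u, h1, h2⟩
    · refine ih _ h4 ?_
      rw [h1] at hS
      exact (SSt_reduce h2 h3).1 hS
    · rw [h1] at hS
      rcases h2 with ⟨h2, h3⟩ | ⟨h2, h3⟩
      · rw [h2] at hS
        exact NSv_sound h3 (SSt_const_false.1 hS)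
      · rw [h2] at hS
        exact NPs_sound h3 (SSt_const_true.1 hS)

/-- No variable occurs twice with the same sign. -/
def NoSame (w : EW) : Prop :=
  ∀ (x : ℕ) (s : Bool), ¬ List.Sublist [(s, Sum.inr x), (s, Sum.inr x)] w

/-- No two variables are linked. -/
def NoLink (w : EW) : Prop :=
  ∀ (x y : ℕ), x ≠ y → ∀ s1 s2 s3 s4 : Bool,
    ¬ List.Sublist [(s1, Sum.inr x), (s2, Sum.inr y), (s3, Sum.inr x), (s4, Sum.inr y)] w

lemma NoSame.sub {w v : EW} (h : NoSame w) (hs : List.Sublist v w) : NoSame v :=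
  fun x s h2 => h x s (h2.trans hs)

lemma NoLink.sub {w v : EW} (h : NoLink w) (hs : List.Sublist v w) : NoLink v :=
  fun x y hxy s1 s2 s3 s4 h2 => h x y hxy s1 s2 s3 s4 (h2.trans hs)

/-- Number of occurrences of a variable. -/
def oc (w : EW) (n : ℕ) : ℕ := w.countP (fun p : Bool × (Bool ⊕ ℕ) => decide (p.2 = Sum.inr n))

lemma oc_append (u v : EW) (n : ℕ) : oc (u ++ v) n = oc u n + oc v n := List.countP_append

lemma oc_cons (p : Bool × (Bool ⊕ ℕ)) (v : EW) (n : ℕ) :
    oc (p :: v) n = oc v n + if p.2 = Sum.inr n then 1 else 0 := by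
  unfold oc
  rw [List.countP_cons]
  simp

lemma oc_emb (u : W) (n : ℕ) : oc (emb u) n = 0 := by
  induction u with
  | nil => rfl
  | cons p u ih =>
    have : emb (p :: u) = embL p :: emb u := rfl
    rw [this, oc_cons, ih]
    simp [embL]

lemma oc_pos {w : EW} {n : ℕ} : 0 < oc w n ↔ ∃ s, (s, Sum.inr n) ∈ w := by
  unfold oc
  rw [List.countP_pos_iff]
  constructor
  · rintro ⟨⟨s, q⟩, hp, h⟩
    simp only [decide_eq_true_eq] at h
    subst h
    exact ⟨s, hp⟩
  · rintro ⟨s, hs⟩
    exact ⟨_, hs, by simp⟩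

lemma av_iff {w : EW} {n : ℕ} : Av n w ↔ oc w n = 0 := by
  constructor
  · intro h
    by_contra h2
    obtain ⟨s, hs⟩ := oc_pos.1 (Nat.pos_of_ne_zero h2)
    exact h _ hs rfl
  · rintro h ⟨s, q⟩ hp hq
    simp only at hq
    subst hq
    have := oc_pos.2 ⟨s, hp⟩
    omega

lemma quad_iff {w : EW} : Quad w ↔ ∀ n, oc w n = 0 ∨ oc w n = 2 := Iff.rfl

/-- Either a word is constant or it has a variable. -/
lemma const_or_var (w : EW) : (∃ u, w = emb u) ∨ ∃ A s x C, w = A ++ (s, Sum.inr x) :: C := by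
  induction w with
  | nil => exact Or.inl ⟨[], rfl⟩
  | cons p w ih =>
    obtain ⟨s, c | n⟩ := p
    · rcases ih with ⟨u, rfl⟩ | ⟨A, s', x, C, rfl⟩
      · exact Or.inl ⟨(s, c) :: u, rfl⟩
      · exact Or.inr ⟨(s, Sum.inl c) :: A, s', x, C, rfl⟩
    · exact Or.inr ⟨[], s, n, w, rfl⟩

lemma mem_sub {α : Type*} {a : α} {l : List α} (h : a ∈ l) : List.Sublist [a] l :=
  List.singleton_sublist.2 h

/-- Existence of an innermost pair. -/
lemma innermost {w : EW} (hq : Quad w) (hl : NoLink w) (n : ℕ) : ∀ (A B C : EW) (s t : Bool) (x : ℕ),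
    B.length ≤ n → w = A ++ (s, Sum.inr x) :: (B ++ (t, Sum.inr x) :: C) →
    ∃ (A : EW) (u : W) (C : EW) (s t : Bool) (x : ℕ),
      w = A ++ (s, Sum.inr x) :: (emb u ++ (t, Sum.inr x) :: C) := by
  induction n with
  | zero =>
    intro A B C s t x hB hw
    have : B = [] := by
      rw [← List.length_eq_zero_iff]; omega
    subst this
    exact ⟨A, [], C, s, t, x, hw⟩
  | succ n ih =>
    intro A B C s t x hB hw
    rcases const_or_var B with ⟨u, rfl⟩ | ⟨B₁, r, y, B₂, rfl⟩
    · exact ⟨A, u, C, s, t, x, hw⟩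
    · have h1 := hq x
      have h2 := hq y
      have e1 : oc w x = 0 ∨ oc w x = 2 := h1
      have e2 : oc w y = 0 ∨ oc w y = 2 := h2
      rw [hw] at e1 e2
      simp only [oc_append, oc_cons, if_true] at e1 e2
      have hxy : x ≠ y := by
        rintro rfl
        simp only [if_true] at e1
        omega
      have hxy' : ¬ (Sum.inr x : Bool ⊕ ℕ) = Sum.inr y := by simpa using hxy
      simp only [hxy', if_false] at e2
      -- the other occurrence of `y`
      have h3 : 0 < oc A y ∨ 0 < oc B₁ y ∨ 0 < oc B₂ y ∨ 0 < oc C y := by omega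
      rcases h3 with h3 | h3 | h3 | h3
      · exfalso
        obtain ⟨r', hr'⟩ := oc_pos.1 h3
        apply hl y x hxy.symm r' s r t
        rw [hw]
        refine (mem_sub hr').append (List.Sublist.cons_cons _ ?_)
        rw [List.append_assoc]
        refine List.Sublist.trans ?_ (List.sublist_append_right B₁ _)
        rw [List.cons_append]
        refine List.Sublist.cons_cons _ ?_
        refine List.Sublist.trans ?_ (List.sublist_append_right B₂ _)
        exact List.Sublist.cons_cons _ (List.nil_sublist _)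
      · obtain ⟨r', hr'⟩ := oc_pos.1 h3
        obtain ⟨D, E, rfl⟩ := List.append_of_mem hr'
        refine ih (A ++ (s, Sum.inr x) :: D) E (B₂ ++ (t, Sum.inr x) :: C) r' r y ?_ ?_
        · simp at hB; omega
        · rw [hw]; simp
      · obtain ⟨r', hr'⟩ := oc_pos.1 h3
        obtain ⟨D, E, rfl⟩ := List.append_of_mem hr'
        refine ih (A ++ (s, Sum.inr x) :: B₁) D (E ++ (t, Sum.inr x) :: C) r r' y ?_ ?_
        · simp at hB; omega
        · rw [hw]; simp
      · exfalso
        obtain ⟨r', hr'⟩ := oc_pos.1 h3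
        apply hl x y hxy s r t r'
        rw [hw]
        refine List.Sublist.trans ?_ (List.sublist_append_right A _)
        refine List.Sublist.cons_cons _ ?_
        rw [List.append_assoc]
        refine List.Sublist.trans ?_ (List.sublist_append_right B₁ _)
        rw [List.cons_append]
        refine List.Sublist.cons_cons _ ?_
        refine List.Sublist.trans ?_ (List.sublist_append_right B₂ _)
        exact List.Sublist.cons_cons _ (mem_sub hr')

theorem UU_complete (n : ℕ) : ∀ (w : EW) (l : List W) (b : Bool), w.length ≤ n → Quad w → NoSame w →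
    NoLink w → ¬ SSt b w l → UU (w, l, b) := by
  induction n with
  | zero =>
    intro w l b hw hq _ _ hS
    have : w = [] := by
      rw [← List.length_eq_zero_iff]; omega
    subst this
    refine Der.mk _ [] (Or.inr ⟨[], rfl, ?_⟩) (by simp)
    have e : ([] : EW) = emb [] := rfl
    rw [e] at hS
    cases b
    · exact Or.inl ⟨rfl, NSv_iff.2 (fun h => hS (SSt_const_false.2 h))⟩
    · exact Or.inr ⟨rfl, NPs_iff.2 (fun h => hS (SSt_const_true.2 h))⟩
  | succ n ih =>
    intro w l b hw hq hs hl hS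
    rcases const_or_var w with ⟨u, rfl⟩ | ⟨A, s, x, C, hwx⟩
    · refine Der.mk _ [] (Or.inr ⟨u, rfl, ?_⟩) (by simp)
      cases b
      · exact Or.inl ⟨rfl, NSv_iff.2 (fun h => hS (SSt_const_false.2 h))⟩
      · exact Or.inr ⟨rfl, NPs_iff.2 (fun h => hS (SSt_const_true.2 h))⟩
    · -- find a pair
      have hpair : ∃ (A B C : EW) (s t : Bool), w = A ++ (s, Sum.inr x) :: (B ++ (t, Sum.inr x) :: C) := by
        have e1 : oc w x = 0 ∨ oc w x = 2 := hq x
        rw [hwx] at e1
        simp only [oc_append, oc_cons, if_true] at e1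
        have h3 : 0 < oc A x ∨ 0 < oc C x := by omega
        rcases h3 with h3 | h3
        · obtain ⟨r', hr'⟩ := oc_pos.1 h3
          obtain ⟨D, E, rfl⟩ := List.append_of_mem hr'
          exact ⟨D, E, C, r', s, by rw [hwx]; simp⟩
        · obtain ⟨r', hr'⟩ := oc_pos.1 h3
          obtain ⟨D, E, rfl⟩ := List.append_of_mem hr'
          exact ⟨A, D, E, s, r', by rw [hwx]⟩
      obtain ⟨A, B, C, s, t, hw1⟩ := hpair
      obtain ⟨A, u, C, s, t, x, hw2⟩ := innermost hq hl B.length A B C s t x le_rfl hw1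
      clear hw1 hwx
      have hst : t = !s := by
        by_contra hcon
        have : t = s := by
          cases s <;> cases t <;> simp_all
        subst this
        apply hs x t
        rw [hw2]
        refine List.Sublist.trans ?_ (List.sublist_append_right A _)
        refine List.Sublist.cons_cons _ ?_
        refine List.Sublist.trans ?_ (List.sublist_append_right (emb u) _)
        exact List.Sublist.cons_cons _ (List.nil_sublist _)
      subst hst
      have e1 : oc w x = 0 ∨ oc w x = 2 := hq x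
      rw [hw2] at e1
      simp only [oc_append, oc_cons, oc_emb, if_true] at e1
      have hA : Av x A := av_iff.2 (by omega)
      have hC : Av x C := av_iff.2 (by omega)
      have hsub : List.Sublist (A ++ C) w := by
        rw [hw2]
        refine List.Sublist.append (List.Sublist.refl A) ?_
        refine List.Sublist.cons _ ?_
        refine List.Sublist.trans ?_ (List.sublist_append_right (emb u) _)
        exact List.Sublist.cons _ (List.Sublist.refl C)
      have hq' : Quad (A ++ C) := by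
        intro n
        have e2 : oc w n = 0 ∨ oc w n = 2 := hq n
        rw [hw2] at e2
        simp only [oc_append, oc_cons, oc_emb] at e2
        show oc (A ++ C) n = 0 ∨ oc (A ++ C) n = 2
        rw [oc_append]
        by_cases hn : (Sum.inr x : Bool ⊕ ℕ) = Sum.inr n
        · have : x = n := by simpa using hn
          subst this
          left
          rw [av_iff.1 hA, av_iff.1 hC]
        · simp only [hn, if_false] at e2
          omega
      refine Der.mk _ [(A ++ C, u :: l, b)] (Or.inl ⟨((A, C), (s, x), u), hw2, hA, hC,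
        by simp⟩) ?_
      intro y hy
      rw [List.mem_singleton] at hy
      subst hy
      refine ih (A ++ C) (u :: l) b ?_ hq' (hs.sub hsub) (hl.sub hsub) ?_
      · rw [hw2] at hw
        simp at hw ⊢
        omega
      · intro h
        apply hS
        rw [hw2, SSt_reduce hA hC]
        exact h

end Pool.Agent.Lib_helper30
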