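import Pool.Agent.Lib_helper30.Half

set_option autoImplicit false

namespace Pool.Agent.Lib_helper30

open Filter Topology Set

/-- The reflection `f ↦ (t ↦ -f(-t))`. -/
def rf (f : ℝ ≃o ℝ) : ℝ ≃o ℝ where
  toFun t := - f (-t)
  invFun t := - f⁻¹ (-t)
  left_inv t := by
    show - f⁻¹ (- (- f (-t))) = t
    rw [neg_neg, inv_apply', neg_neg]
  right_inv t := by
    show - f (- (- f⁻¹ (-t))) = t
    rw [neg_neg, apply_inv', neg_neg]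
  map_rel_iff' := by
    intro a b
    show - f (-a) ≤ - f (-b) ↔ a ≤ b
    rw [neg_le_neg_iff, f.le_iff_le, neg_le_neg_iff]

lemma rf_apply (f : ℝ ≃o ℝ) (t : ℝ) : rf f t = - f (-t) := rfl

lemma rf_mul (f g : ℝ ≃o ℝ) : rf (f * g) = rf f * rf g := by
  ext t
  rw [mul_apply', rf_apply, rf_apply, rf_apply, mul_apply', neg_neg]

lemma rf_one : rf 1 = 1 := by
  ext t; rw [rf_apply, one_apply', one_apply', neg_neg]

lemma rf_rf (f : ℝ ≃o ℝ) : rf (rf f) = f := by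
  ext t; rw [rf_apply, rf_apply, neg_neg, neg_neg]

lemma rf_inv (f : ℝ ≃o ℝ) : rf f⁻¹ = (rf f)⁻¹ := by
  rw [eq_inv_iff_mul_eq_one, ← rf_mul, inv_mul_cancel, rf_one]

lemma rf_pow (f : ℝ ≃o ℝ) (n : ℕ) : rf (f ^ n) = (rf f) ^ n := by
  induction n with
  | zero => rw [pow_zero, pow_zero, rf_one]
  | succ n ih => rw [pow_succ, pow_succ, rf_mul, ih]

lemma rf_mem_HH {f : ℝ ≃o ℝ} (hf : f ∈ HH) : rf f ∈ HH := by
  have hneg : ∀ {l l' : Filter ℝ}, Tendsto (fun t : ℝ => -t) l' l → Aff f l → Aff (rf f) l' := by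
    rintro l l' ht ⟨m, b, hb, h⟩
    refine ⟨m, -b, Dy.neg_mem hb, ?_⟩
    filter_upwards [ht.eventually h] with t h1
    rw [rf_apply, h1]; ring
  refine ⟨fun x => ?_, fun x => ?_, fun x hx => ?_⟩
  · refine hneg ?_ (hf.right (-x))
    exact (continuous_neg.continuousWithinAt).tendsto_nhdsWithin
      (fun t (ht : t ≤ x) => neg_le_neg ht)
  · refine hneg ?_ (hf.left (-x))
    exact (continuous_neg.continuousWithinAt).tendsto_nhdsWithin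
      (fun t (ht : x ≤ t) => neg_le_neg ht)
  · refine hneg (continuous_neg.tendsto x) (hf.both (-x) ?_)
    intro h
    apply hx
    simpa using Dy.neg_mem h

lemma EndBot.rf {f : ℝ ≃o ℝ} {p : ℤ} (h : EndBot f p) : EndTop (rf f) (-p) := by
  unfold EndTop EndBot at *
  filter_upwards [tendsto_neg_atTop_atBot.eventually h] with t ht
  rw [rf_apply, ht]; push_cast; ring

lemma EndTop.rf {f : ℝ ≃o ℝ} {p : ℤ} (h : EndTop f p) : EndBot (rf f) (-p) := by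
  unfold EndTop EndBot at *
  filter_upwards [tendsto_neg_atBot_atTop.eventually h] with t ht
  rw [rf_apply, ht]; push_cast; ring

lemma rf_mem_GG {f : ℝ ≃o ℝ} (hf : f ∈ GG) : rf f ∈ GG := by
  obtain ⟨h, ⟨p, hp⟩, ⟨q, hq⟩⟩ := hf
  exact ⟨rf_mem_HH h, ⟨-q, EndTop.rf hq⟩, ⟨-p, EndBot.rf hp⟩⟩

/-- Conjugacy by elements of `HH` which are integer translations near `+∞`. -/
def RC (f F : ℝ ≃o ℝ) : Prop := ∃ g ∈ HH, (∃ p : ℤ, EndTop g p) ∧ F = g * f * g⁻¹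

lemma LC.rf {f F : ℝ ≃o ℝ} (h : LC f F) : RC (rf f) (rf F) := by
  obtain ⟨g, hg, ⟨p, hp⟩, rfl⟩ := h
  exact ⟨Pool.Agent.Lib_helper30.rf g, rf_mem_HH hg, ⟨-p, hp.rf⟩, by rw [rf_mul, rf_mul, rf_inv]⟩

lemma RC.rf {f F : ℝ ≃o ℝ} (h : RC f F) : LC (rf f) (rf F) := by
  obtain ⟨g, hg, ⟨p, hp⟩, rfl⟩ := h
  exact ⟨Pool.Agent.Lib_helper30.rf g, rf_mem_HH hg, ⟨-p, hp.rf⟩, by rw [rf_mul, rf_mul, rf_inv]⟩

lemma RC.inv {f g : ℝ ≃o ℝ} (h1 : RC f g) : RC f⁻¹ g⁻¹ := by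
  obtain ⟨a, ha, ⟨p, hp⟩, rfl⟩ := h1
  exact ⟨a, ha, ⟨p, hp⟩, by group⟩

/-- A half solution on the right. -/
def RSt (f₁ f₂ f₃ : ℝ ≃o ℝ) : Prop := ∃ F₁ ∈ GG, ∃ F₂ ∈ GG, ∃ F₃ ∈ GG,
  RC f₁ F₁ ∧ RC f₂ F₂ ∧ RC f₃ F₃ ∧ F₁ * F₂ * F₃ = 1

lemma St.rf {f₁ f₂ f₃ : ℝ ≃o ℝ} (h : St (rf f₁) (rf f₂) (rf f₃)) : RSt f₁ f₂ f₃ := by
  obtain ⟨F₁, hF₁, F₂, hF₂, F₃, hF₃, k1, k2, k3, hp⟩ := h
  refine ⟨Pool.Agent.Lib_helper30.rf F₁, rf_mem_GG hF₁, Pool.Agent.Lib_helper30.rf F₂, rf_mem_GG hF₂,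
    Pool.Agent.Lib_helper30.rf F₃, rf_mem_GG hF₃, ?_, ?_, ?_, ?_⟩
  · have := k1.rf; rwa [rf_rf] at this
  · have := k2.rf; rwa [rf_rf] at this
  · have := k3.rf; rwa [rf_rf] at this
  · rw [← rf_mul, ← rf_mul, hp, rf_one]

/-- The mirror image of `left_conj`. -/
lemma right_conj {f f' F : ℝ ≃o ℝ} (hf : f ∈ GG) (hf' : f' ∈ GG) (hRC : RC f F)
    {s : ℝ} (hs : s ∈ Dy) (hag : ∀ t, s ≤ t → f t = f' t) (hp : ∀ t, t ≤ s → t < f t) (X : ℝ) :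
    ∃ G ∈ HH, (∃ p : ℤ, EndTop G p) ∧ ∃ N : ℕ, (∀ t, (f'⁻¹ ^ N) s ≤ t → F (G t) = G (f' t)) ∧
      G ((f'⁻¹ ^ N) s) < X := by
  have hss : f' s = f s := (hag s le_rfl).symm
  have hfs : s < f s := hp s le_rfl
  have hfi : ∀ u, u ≤ f s → f⁻¹ u < u := by
    intro u hu
    obtain ⟨v, rfl⟩ := f.surjective u
    rw [inv_apply']
    exact hp v (f.le_iff_le.1 hu)
  have hagi : ∀ u, f s ≤ u → f⁻¹ u = f'⁻¹ u := by
    intro u hu
    obtain ⟨v, rfl⟩ := f.surjective u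
    have hv := f.le_iff_le.1 hu
    rw [inv_apply', hag v hv, inv_apply']
  have hsr : -(f s) ∈ Dy := Dy.neg_mem ((PL2.dy_iff hf.1 s).2 hs)
  obtain ⟨G, hG, ⟨p, hGp⟩, N, h1, h2⟩ := left_conj (f := rf f⁻¹) (f' := rf f'⁻¹) (F := rf F⁻¹)
    (rf_mem_GG (GG.inv_mem hf)) (rf_mem_GG (GG.inv_mem hf')) hRC.inv.rf hsr (by
      intro t ht
      rw [rf_apply, rf_apply, hagi (-t) (by linarith)]) (by
      intro t ht
      rw [rf_apply]
      have := hfi (-t) (by linarith)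
      linarith) (-X)
  have e1 : ((rf f'⁻¹) ^ N) (-(f s)) = -((f'⁻¹ ^ N) (f' s)) := by
    rw [← rf_pow, rf_apply, neg_neg, hss]
  have hlt : (f'⁻¹ ^ N) s < (f'⁻¹ ^ N) (f' s) := by
    apply (f'⁻¹ ^ N).strictMono; rw [hss]; exact hfs
  refine ⟨Pool.Agent.Lib_helper30.rf G, rf_mem_HH hG, ⟨-p, hGp.rf⟩, N, ?_, ?_⟩
  · intro v hv
    have h3 := h1 (-(f' v)) (by
      rw [e1, neg_le_neg_iff]
      have h4 := f'.monotone hv
      have h5 : f' ((f'⁻¹ ^ N) s) = (f'⁻¹ ^ N) (f' s) := by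
        rw [← mul_apply', ← mul_apply']
        congr 1
        exact (Commute.inv_right (Commute.refl f')).pow_right N
      rwa [h5] at h4)
    rw [rf_apply, rf_apply, neg_neg, inv_apply'] at h3
    rw [rf_apply, rf_apply, ← h3, neg_neg, apply_inv']
  · rw [rf_apply]
    rw [e1] at h2
    have h6 := G.strictMono (neg_lt_neg hlt)
    linarith

end Pool.Agent.Lib_helper30
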