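import Pool.Agent.Lib_helper30.ELemma2

set_option autoImplicit false

namespace Pool.Agent.Lib_helper30

open Filter Topology Set

lemma pow_gt {d : ℝ ≃o ℝ} (hd : ∀ t, t < d t) (n : ℕ) (t : ℝ) : t < (d ^ (n + 1)) t := by
  induction n with
  | zero => simpa using hd t
  | succ n ih =>
    rw [pow_succ', mul_apply']
    exact ih.trans (hd _)

lemma zpow_lt {d : ℝ ≃o ℝ} (hd : ∀ t, t < d t) {m n : ℤ} (h : m < n) (t : ℝ) :
    (d ^ m) t < (d ^ n) t := by
  obtain ⟨k, hk⟩ := Int.eq_ofNat_of_zero_le (show 0 ≤ n - m - 1 by omega)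
  have e : n = ((k + 1 : ℕ) : ℤ) + m := by push_cast; omega
  rw [e, zpow_add, mul_apply', zpow_natCast]
  exact pow_gt hd k _

lemma zpow_le {d : ℝ ≃o ℝ} (hd : ∀ t, t < d t) {m n : ℤ} (h : m ≤ n) (t : ℝ) :
    (d ^ m) t ≤ (d ^ n) t := by
  rcases h.eq_or_lt with rfl | h
  · exact le_rfl
  · exact (zpow_lt hd h t).le

/-- Orbits of a fixed point free map are unbounded. -/
lemma exists_zpow_gt {d : ℝ ≃o ℝ} (hd : ∀ t, t < d t) (p y : ℝ) : ∃ n : ℕ, y < (d ^ n) p := by
  by_contra hcon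
  push Not at hcon
  set S : Set ℝ := range (fun n : ℕ => (d ^ n) p) with hS
  have hne : S.Nonempty := ⟨_, 0, rfl⟩
  have hbd : BddAbove S := ⟨y, by rintro _ ⟨n, rfl⟩; exact hcon n⟩
  have hlt : d⁻¹ (sSup S) < sSup S := by
    have := hd (d⁻¹ (sSup S))
    rwa [apply_inv'] at this
  obtain ⟨_, ⟨n, rfl⟩, hn⟩ := exists_lt_of_lt_csSup hne hlt
  have h1 : sSup S < (d ^ (n + 1)) p := by
    rw [pow_succ', mul_apply']
    have := d.strictMono hn
    rwa [apply_inv'] at this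
  exact absurd (le_csSup hbd ⟨n + 1, rfl⟩) (not_le.2 h1)

lemma exists_zpow_lt {d : ℝ ≃o ℝ} (hd : ∀ t, t < d t) (p y : ℝ) : ∃ n : ℕ, (d ^ (-(n : ℤ))) p < y := by
  obtain ⟨n, hn⟩ := exists_zpow_gt hd y p
  refine ⟨n, ?_⟩
  have := (d ^ (-(n : ℤ))).strictMono hn
  rw [← zpow_natCast, ← mul_apply', ← zpow_add] at this
  simpa using this

lemma exists_orbit {d : ℝ ≃o ℝ} (hd : ∀ t, t < d t) (p y : ℝ) :
    ∃ n : ℤ, (d ^ n) p ≤ y ∧ y < (d ^ (n + 1)) p := by
  obtain ⟨a, ha⟩ := exists_zpow_gt hd p y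
  obtain ⟨b, hb⟩ := exists_zpow_lt hd p y
  have hbdd : ∃ B : ℤ, ∀ z : ℤ, (d ^ z) p ≤ y → z ≤ B := by
    refine ⟨a, fun z hz => ?_⟩
    by_contra h
    push Not at h
    have := zpow_lt hd h p
    rw [zpow_natCast] at this
    linarith
  obtain ⟨n, hn, hmax⟩ := Int.exists_greatest_of_bdd hbdd ⟨_, hb.le⟩
  refine ⟨n, hn, ?_⟩
  by_contra h
  push Not at h
  have := hmax _ h
  omega

/-- Solving `h ∘ T^N = d ∘ h` with prescribed values on a fundamental domain. -/
theorem exists_sol {d h₀ : ℝ ≃o ℝ} {x₀ N : ℝ} (hd : d ∈ HH) (hdp : ∀ t, t < d t) (hx₀ : x₀ ∈ Dy)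
    (hN : N ∈ Dy) (hNpos : 0 < N) (hh₀ : h₀ ∈ HH) (hmatch : h₀ (x₀ + N) = d (h₀ x₀)) :
    ∃ h ∈ HH, (∀ t, x₀ ≤ t → t ≤ x₀ + N → h t = h₀ t) ∧ h * tr N = d * h := by
  classical
  set g : ℤ → (ℝ ≃o ℝ) := fun n => d ^ n * h₀ * tr (-(N * n)) with hg
  have g_apply : ∀ n t, g n t = (d ^ n) (h₀ (t - N * n)) := by
    intro n t
    rw [hg]; simp only [mul_apply', tr_apply, sub_eq_add_neg]
  have hND : ∀ n : ℤ, N * n ∈ Dy := fun n => Dy.mul_mem hN (Dy_int n)
  have gH : ∀ n, g n ∈ HH := fun n =>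
    HH.mul_mem (HH.mul_mem (HH.zpow_mem hd n) hh₀) (tr_mem_HH (Dy.neg_mem (hND n)))
  have g_start : ∀ n : ℤ, g n (x₀ + N * n) = (d ^ n) (h₀ x₀) := by
    intro n; rw [g_apply]; congr 2; ring
  have g_end : ∀ n : ℤ, g n (x₀ + N * (n + 1)) = (d ^ (n + 1)) (h₀ x₀) := by
    intro n
    rw [g_apply, show x₀ + N * ((n : ℝ) + 1) - N * n = x₀ + N by ring, hmatch, zpow_add, zpow_one,
      mul_apply']
  -- the index
  set ν : ℝ → ℤ := fun t => ⌊(t - x₀) / N⌋ with hν
  have ν1 : ∀ t, x₀ + N * ν t ≤ t := by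
    intro t
    have := Int.floor_le ((t - x₀) / N)
    rw [le_div_iff₀ hNpos] at this
    show x₀ + N * (⌊(t - x₀) / N⌋ : ℝ) ≤ t
    linarith
  have ν2 : ∀ t, t < x₀ + N * (ν t + 1) := by
    intro t
    have := Int.lt_floor_add_one ((t - x₀) / N)
    rw [div_lt_iff₀ hNpos] at this
    show t < x₀ + N * ((⌊(t - x₀) / N⌋ : ℝ) + 1)
    linarith
  have νeq : ∀ t (n : ℤ), x₀ + N * n ≤ t → t < x₀ + N * (n + 1) → ν t = n := by
    intro t n h1 h2
    rw [hν]
    simp only
    rw [Int.floor_eq_iff]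
    constructor
    · rw [le_div_iff₀ hNpos]; linarith
    · rw [div_lt_iff₀ hNpos]; linarith
  set F : ℝ → ℝ := fun t => g (ν t) t with hF
  have F_eq : ∀ t (n : ℤ), x₀ + N * n ≤ t → t ≤ x₀ + N * (n + 1) → F t = g n t := by
    intro t n h1 h2
    rcases h2.lt_or_eq with h2 | h2
    · show g (ν t) t = g n t
      rw [νeq t n h1 h2]
    · have h3 : ν t = n + 1 := by
        apply νeq
        · push_cast; linarith
        · push_cast; linarith
      show g (ν t) t = g n t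
      rw [h3, h2, g_end, show x₀ + N * ((n : ℝ) + 1) = x₀ + N * ((n + 1 : ℤ) : ℝ) by push_cast; ring,
        g_start]
  have F_lo : ∀ t (n : ℤ), x₀ + N * n ≤ t → (d ^ n) (h₀ x₀) ≤ F t := by
    intro t n h
    have h1 : n ≤ ν t := by
      rw [hν]
      simp only
      rw [Int.le_floor, le_div_iff₀ hNpos]; linarith
    refine (zpow_le hdp h1 _).trans ?_
    show (d ^ ν t) (h₀ x₀) ≤ g (ν t) t
    rw [← g_start]
    exact (g (ν t)).monotone (ν1 t)
  have F_hi : ∀ t (n : ℤ), t < x₀ + N * n → F t < (d ^ n) (h₀ x₀) := by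
    intro t n h
    have h1 : ν t + 1 ≤ n := by
      have h2 : ν t < n := by
        rw [hν]
        simp only
        rw [Int.floor_lt, div_lt_iff₀ hNpos]; linarith
      omega
    refine lt_of_lt_of_le ?_ (zpow_le hdp h1 _)
    show g (ν t) t < _
    rw [← g_end]
    exact (g (ν t)).strictMono (ν2 t)
  have hmono : StrictMono F := by
    intro s t hst
    rcases lt_or_ge (ν s) (ν t) with h | h
    · have h1 : s < x₀ + N * (ν t) := by
        have h2 := ν2 s
        have h3 : ((ν s : ℝ) + 1) ≤ ν t := by exact_mod_cast h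
        have h4 := mul_le_mul_of_nonneg_left h3 hNpos.le
        linarith
      exact (F_hi s _ h1).trans_le (F_lo t _ (ν1 t))
    · have h1 : ν s = ν t := by
        apply le_antisymm _ h
        rw [hν]
        simp only
        apply Int.floor_le_floor
        rw [div_le_div_iff_of_pos_right hNpos]; linarith
      show g (ν s) s < g (ν t) t
      rw [h1]
      exact (g (ν t)).strictMono hst
  have hsurj : Function.Surjective F := by
    intro y
    obtain ⟨n, h1, h2⟩ := exists_orbit hdp (h₀ x₀) y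
    rw [← g_start] at h1
    rw [← g_end] at h2
    refine ⟨(g n)⁻¹ y, ?_⟩
    rw [F_eq _ n, apply_inv']
    · rw [← (g n).le_iff_le, apply_inv']; exact h1
    · rw [← (g n).le_iff_le, apply_inv']; exact h2.le
  set h := hmono.orderIsoOfSurjective F hsurj with hh
  have h_apply : ∀ t, h t = F t := fun t => rfl
  refine ⟨h, ?_, ?_, ?_⟩
  · refine mem_HH_of_local ?_ ?_ ?_
    · intro x
      -- left germs
      obtain ⟨n, hn1, hn2⟩ : ∃ n : ℤ, x₀ + N * n < x ∧ x ≤ x₀ + N * (n + 1) := by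
        rcases (ν1 x).lt_or_eq with hx | hx
        · exact ⟨ν x, hx, (ν2 x).le⟩
        · refine ⟨ν x - 1, ?_, ?_⟩
          · push_cast; linarith
          · push_cast; linarith
      refine ⟨g n, gH n, ?_⟩
      filter_upwards [self_mem_nhdsWithin, mem_nhdsWithin_of_mem_nhds (Ioi_mem_nhds hn1)] with t h1 h2
      rw [h_apply]
      exact F_eq t n (le_of_lt h2) (le_trans h1 hn2)
    · intro x
      refine ⟨g (ν x), gH _, ?_⟩
      filter_upwards [self_mem_nhdsWithin, mem_nhdsWithin_of_mem_nhds (Iio_mem_nhds (ν2 x))]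
        with t h1 h2
      rw [h_apply]
      exact F_eq t _ ((ν1 x).trans h1) (le_of_lt h2)
    · intro x hx
      have hlt : x₀ + N * ν x < x := by
        refine (ν1 x).lt_of_ne ?_
        intro h
        apply hx
        rw [← h]
        exact Dy.add_mem hx₀ (hND _)
      refine ⟨g (ν x), gH _, ?_⟩
      filter_upwards [Ioi_mem_nhds hlt, Iio_mem_nhds (ν2 x)] with t h1 h2
      rw [h_apply]
      exact F_eq t _ (le_of_lt h1) (le_of_lt h2)
  · intro t h1 h2
    rw [h_apply, F_eq t 0 (by simpa using h1) (by simpa using h2), g_apply]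
    simp
  · ext t
    rw [mul_apply', mul_apply', tr_apply, h_apply, h_apply,
      F_eq (t + N) (ν t + 1) (by have := ν1 t; push_cast; linarith)
        (by have := ν2 t; push_cast; linarith), g_apply]
    show _ = d (g (ν t) t)
    rw [g_apply, zpow_add, zpow_one]
    have e : t + N - N * ((ν t + 1 : ℤ) : ℝ) = t - N * ν t := by push_cast; ring
    rw [e]
    have hc : d ^ ν t * d = d * d ^ ν t := (Commute.refl d).zpow_left _ |>.eq
    rw [hc, mul_apply']

end Pool.Agent.Lib_helper30
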