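import Pool.Agent.Lib_helper30.ND2
import Pool.Agent.Lib_helper30.FBList

set_option autoImplicit false

namespace Pool.Agent.Lib_helper30

open Filter Topology Set

lemma cat_one_left (g : ℝ ≃o ℝ) : cat 1 g = shR g := by
  unfold cat; rw [shL_one, one_mul]

lemma cat_one_right (g : ℝ ≃o ℝ) : cat g 1 = shL g := by
  unfold cat; rw [shR_one, mul_one]

lemma GC.shR {a b : ℝ ≃o ℝ} (h : GC a b) : GC (shR a) (shR b) := by
  rw [← cat_one_left, ← cat_one_left]
  exact GC.cat (GC.refl _) h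

lemma GC.shL {a b : ℝ ≃o ℝ} (h : GC a b) : GC (shL a) (shL b) := by
  rw [← cat_one_right, ← cat_one_right]
  exact GC.cat h (GC.refl _)

lemma GC_shR_shR (a : ℝ ≃o ℝ) : GC (shR a) (shR (shR a)) := ⟨tr 1, tr_one_mem_GG, (tr_shR a).symm⟩

lemma shR_ne_one {a : ℝ ≃o ℝ} (h : a ≠ 1) : shR a ≠ 1 := by
  intro h2
  apply h
  rw [← cat_one_left, ← cat_one] at h2
  exact (cat_inj h2).2

lemma shR_inj {a b : ℝ ≃o ℝ} (h : shR a = shR b) : a = b := by
  rw [← cat_one_left, ← cat_one_left] at h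
  exact (cat_inj h).2

/-- Existence of the left germ. -/
lemma exists_germ {c : ℝ ≃o ℝ} (h : Decomp c) : c ≠ 1 → c ∈ GG → bt c = 0 →
    ∃ m ∈ GG, GC c (shR m) ∧ bt m ≠ 0 := by
  induction h with
  | one => intro h; exact absurd rfl h
  | clu c hc h => intro _ _ h2; exact absurd h2 (h.bt_ne hc)
  | cat c f g hf hg _ _ h ih1 ih2 =>
    intro hc1 hc hb
    have e1 : bt f = 0 := by
      have := h.bt hc
      rw [cat_bt hf hg, hb] at this
      exact this
    by_cases hf1 : f = 1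
    · subst hf1
      rw [cat_one_left] at h
      by_cases hg0 : bt g = 0
      · have hg1 : g ≠ 1 := by
          rintro rfl
          rw [shR_one, GC_to_one_iff] at h
          exact hc1 h
        obtain ⟨m, hm, e2, e3⟩ := ih2 hg1 hg hg0
        exact ⟨m, hm, (h.trans e2.shR).trans (GC_shR_shR m).symm, e3⟩
      · exact ⟨g, hg, h, hg0⟩
    · obtain ⟨m, hm, e2, e3⟩ := ih1 hf1 hf e1
      refine ⟨cat m g, cat_mem_GG hm hg, ?_, by rw [cat_bt hm hg]; exact e3⟩
      rw [← cat_one_left] at e2 ⊢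
      exact (h.trans (GC.cat e2 (GC.refl _))).trans (GC_assoc _ _ _)

lemma shR_split {m e : ℝ ≃o ℝ} (hm : m ∈ GG) (hb : bt m ≠ 0) (h : GC (shR m) (shR e)) :
    GC m e ∨ GC (shR m) e := by
  rw [← cat_one_left, ← cat_one_left] at h
  rcases split_cat GG.one_mem hm h with ⟨_, k⟩ | ⟨s₁, _, s₂, _, k1, k2, k3⟩ |
    ⟨s₁, _, s₂, hs₂, k1, k2, k3⟩
  · exact Or.inl k
  · obtain ⟨rfl, rfl⟩ := split_one k1
    rw [cat_one_left] at k3
    exact Or.inr k3
  · exfalso
    obtain ⟨_, rfl⟩ := split_one k2.symm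
    apply hb
    rw [← k1.bt hm, cat_bt GG.one_mem hs₂, bt_one]

/-- Relation of a germ to its two normal positions. -/
def RSh (m n : ℝ ≃o ℝ) : Prop := n = m ∨ n = shR m

/-- The left obstruction. -/
def LOb (l : List (ℝ ≃o ℝ)) : Prop :=
  ∃ ms, (∀ m ∈ ms, m ∈ GG) ∧ List.Forall₂ (fun c m => GC c (shR m) ∧ bt m ≠ 0) l ms ∧ l ≠ [] ∧
    ∀ ns, List.Forall₂ RSh ms ns → (ns.map bt).sum = 0 → ∀ n ∈ ns, bt n = 0

lemma exists_shR {u : ℝ ≃o ℝ} (hu : u ∈ GG) (h : ∀ x, x ≤ 0 → u x = x) : ∃ e ∈ GG, u = shR e := by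
  refine ⟨resR u (h 0 le_rfl), resR_mem_GG _ hu, ?_⟩
  ext x
  rcases le_total x 0 with hx | hx
  · rw [shR_le _ hx, h x hx]
  · rw [shR_resR _ hx]

lemma LOb_aux (L : List ((ℝ ≃o ℝ) × (ℝ ≃o ℝ))) (h : ∀ p ∈ L, p.1 ∈ GG ∧ p.2 ∈ GG ∧ bt p.2 ≠ 0 ∧
    0 ≤ p.1 0) : ∃ ns, List.Forall₂ RSh (L.map Prod.snd) ns ∧ ∃ E ∈ GG,
      (L.map (fun p => p.1 * shR p.2 * p.1⁻¹)).prod = shR E ∧ bt E = (ns.map bt).sum ∧
        ((∃ p ∈ L, p.1 0 = 0) → ∃ n ∈ ns, bt n ≠ 0) := by
  induction L with
  | nil =>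
    exact ⟨[], List.Forall₂.nil, 1, GG.one_mem, by simp [shR_one], by simp [bt_one], by simp⟩
  | cons p L ih =>
    obtain ⟨ns, h1, E, hE, h2, h3, h4⟩ := ih (fun q hq => h q (List.mem_cons_of_mem _ hq))
    obtain ⟨hp1, hp2, hp3, hp4⟩ := h p List.mem_cons_self
    have hid : ∀ x, x ≤ 0 → (p.1 * shR p.2 * p.1⁻¹) x = x := by
      intro x hx
      rw [mul_apply', mul_apply']
      have hx2 : p.1⁻¹ x ≤ 0 := by
        have := (p.1⁻¹).monotone (hx.trans hp4)
        rwa [inv_apply'] at this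
      rw [shR_le _ hx2, apply_inv']
    obtain ⟨e, he, h5⟩ := exists_shR (GG.mul_mem (GG.mul_mem hp1 (shR_mem_GG hp2))
      (GG.inv_mem hp1)) hid
    by_cases h0 : p.1 0 = 0
    · have h6 : GC p.2 e := by
        have := GC_cat_split (f := 1) (g := p.2) (f' := 1) (g' := e) hp1 h0
          (by rw [cat_one_left, cat_one_left, h5])
        exact this.2
      refine ⟨p.2 :: ns, List.Forall₂.cons (Or.inl rfl) h1, e * E, GG.mul_mem he hE, ?_, ?_, ?_⟩
      · rw [List.map_cons, List.prod_cons, h2, h5, shR_mul]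
      · rw [bt_mul he hE, h3, List.map_cons, List.sum_cons, h6.bt hp2]
      · intro _
        exact ⟨p.2, List.mem_cons_self, hp3⟩
    · have h6 : GC p.2 e ∨ GC (shR p.2) e := shR_split hp2 hp3 ⟨p.1, hp1, h5.symm⟩
      obtain ⟨n, hn, h7⟩ : ∃ n, RSh p.2 n ∧ bt e = bt n := by
        rcases h6 with h6 | h6
        · exact ⟨p.2, Or.inl rfl, h6.bt hp2⟩
        · exact ⟨shR p.2, Or.inr rfl, h6.bt (shR_mem_GG hp2)⟩
      refine ⟨n :: ns, List.Forall₂.cons hn h1, e * E, GG.mul_mem he hE, ?_, ?_, ?_⟩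
      · rw [List.map_cons, List.prod_cons, h2, h5, shR_mul]
      · rw [bt_mul he hE, h3, List.map_cons, List.sum_cons, h7]
      · rintro ⟨q, hq, hq0⟩
        rcases List.mem_cons.1 hq with rfl | hq
        · exact absurd hq0 h0
        · obtain ⟨n', hn', h8⟩ := h4 ⟨q, hq, hq0⟩
          exact ⟨n', List.mem_cons_of_mem _ hn', h8⟩

lemma exists_min_list (L : List ((ℝ ≃o ℝ) × (ℝ ≃o ℝ))) (h : L ≠ []) :
    ∃ p ∈ L, ∀ q ∈ L, p.1 0 ≤ q.1 0 := by
  induction L with
  | nil => exact absurd rfl h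
  | cons a L ih =>
    by_cases hL : L = []
    · subst hL
      exact ⟨a, List.mem_cons_self, fun q hq => by rw [List.mem_singleton.1 hq]⟩
    · obtain ⟨p, hp, h1⟩ := ih hL
      rcases le_total (a.1 0) (p.1 0) with h2 | h2
      · refine ⟨a, List.mem_cons_self, fun q hq => ?_⟩
        rcases List.mem_cons.1 hq with rfl | hq
        · exact le_rfl
        · exact h2.trans (h1 q hq)
      · refine ⟨p, List.mem_cons_of_mem _ hp, fun q hq => ?_⟩
        rcases List.mem_cons.1 hq with rfl | hq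
        · exact h2
        · exact h1 q hq

lemma prod_conj_map {ι : Type*} (γ : ℝ ≃o ℝ) (f : ι → (ℝ ≃o ℝ)) (L : List ι) :
    (L.map (fun p => γ * f p * γ⁻¹)).prod = γ * (L.map f).prod * γ⁻¹ := by
  induction L with
  | nil => simp
  | cons a L ih => rw [List.map_cons, List.prod_cons, ih, List.map_cons, List.prod_cons]; group

theorem LOb_sound {l : List (ℝ ≃o ℝ)} (h : LOb l) : ¬ Sv l := by
  rintro ⟨l', hl', hprod⟩
  obtain ⟨ms, hm, h1, hne, h2⟩ := h
  -- encode
  have key : ∀ (l ms : List (ℝ ≃o ℝ)), List.Forall₂ (fun c m => GC c (shR m) ∧ bt m ≠ 0) l ms →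
      (∀ m ∈ ms, m ∈ GG) → ∀ l', List.Forall₂ GC l l' → ∃ L : List ((ℝ ≃o ℝ) × (ℝ ≃o ℝ)),
        (∀ p ∈ L, p.1 ∈ GG ∧ p.2 ∈ GG ∧ bt p.2 ≠ 0) ∧ L.map Prod.snd = ms ∧
          L.map (fun p => p.1 * shR p.2 * p.1⁻¹) = l' := by
    intro l ms h
    induction h with
    | nil =>
      intro _ l' h'
      cases h'
      exact ⟨[], by simp, rfl, rfl⟩
    | cons ha _ ih =>
      intro hm l' h'
      cases h' with
      | cons k1 k2 =>
        obtain ⟨L, e1, e2, e3⟩ := ih (fun m hm' => hm m (List.mem_cons_of_mem _ hm')) _ k2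
        obtain ⟨γ, hγ, e4⟩ := ha.1.symm.trans k1
        refine ⟨(γ, _) :: L, ?_, by rw [List.map_cons, e2], by rw [List.map_cons, e3, ← e4]⟩
        intro p hp
        rcases List.mem_cons.1 hp with rfl | hp
        · exact ⟨hγ, hm _ List.mem_cons_self, ha.2⟩
        · exact e1 p hp
  obtain ⟨L, e1, e2, e3⟩ := key l ms h1 hm l' hl'
  have hLne : L ≠ [] := by
    rintro rfl
    rw [List.map_nil] at e2
    subst e2
    cases h1
    exact hne rfl
  obtain ⟨p₀, hp₀, hmin⟩ := exists_min_list L hLne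
  have hd : p₀.1 0 ∈ Dy := ((mem_HH.1 (GG_le_HH (e1 p₀ hp₀).1)).dy_iff 0).2 zero_dy
  obtain ⟨γ, hγ, hγ0⟩ := exists_GG_pt hd zero_dy
  obtain ⟨ns, k1, E, hE, k2, k3, k4⟩ := LOb_aux (L.map (fun p => (γ * p.1, p.2))) (by
    intro q hq
    obtain ⟨p, hp, rfl⟩ := List.mem_map.1 hq
    refine ⟨GG.mul_mem hγ (e1 p hp).1, (e1 p hp).2.1, (e1 p hp).2.2, ?_⟩
    show 0 ≤ (γ * p.1) 0
    rw [mul_apply']
    exact hγ0.symm.le.trans (γ.monotone (hmin p hp)))
  have k5 : (L.map (fun p => (γ * p.1, p.2))).map Prod.snd = ms := by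
    rw [List.map_map, ← e2]; rfl
  rw [k5] at k1
  have k6 : E = 1 := by
    apply shR_inj
    rw [← k2, List.map_map, shR_one]
    have : ((fun p : (ℝ ≃o ℝ) × (ℝ ≃o ℝ) => p.1 * shR p.2 * p.1⁻¹) ∘
        fun p : (ℝ ≃o ℝ) × (ℝ ≃o ℝ) => (γ * p.1, p.2)) =
        fun p : (ℝ ≃o ℝ) × (ℝ ≃o ℝ) => γ * (p.1 * shR p.2 * p.1⁻¹) * γ⁻¹ := by
      funext p
      simp only [Function.comp]
      group
    rw [this, prod_conj_map, e3, hprod]
    group
  rw [k6, bt_one] at k3
  obtain ⟨n, hn, hn0⟩ := k4 ⟨(γ * p₀.1, p₀.2), List.mem_map.2 ⟨p₀, hp₀, rfl⟩, by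
    show (γ * p₀.1) 0 = 0
    rw [mul_apply', hγ0]⟩
  exact hn0 (h2 ns k1 k3.symm n hn)

lemma norm_left {l : List (ℝ ≃o ℝ)} (hG : ∀ c ∈ l, c ∈ GG) (h1 : ∀ c ∈ l, c ≠ 1)
    (hb : ∀ c ∈ l, bt c = 0) (hne : l ≠ []) (h : ¬ LOb l) :
    ∃ ns, (∀ n ∈ ns, n ∈ GG) ∧ List.Forall₂ (fun c n => GC c (shR n)) l ns ∧
      (ns.map bt).sum = 0 ∧ ∃ n ∈ ns, bt n ≠ 0 := by
  have hms : ∃ ms, (∀ m ∈ ms, m ∈ GG) ∧
      List.Forall₂ (fun c m => GC c (shR m) ∧ bt m ≠ 0) l ms := by
    clear h hne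
    induction l with
    | nil => exact ⟨[], by simp, List.Forall₂.nil⟩
    | cons c l ih =>
      obtain ⟨ms, e1, e2⟩ := ih (fun c hc => hG c (List.mem_cons_of_mem _ hc))
        (fun c hc => h1 c (List.mem_cons_of_mem _ hc)) (fun c hc => hb c (List.mem_cons_of_mem _ hc))
      have hcG := hG c List.mem_cons_self
      obtain ⟨m, hm, e3, e4⟩ := exists_germ (decomp_all hcG) (h1 c List.mem_cons_self) hcG
        (hb c List.mem_cons_self)
      refine ⟨m :: ms, ?_, List.Forall₂.cons ⟨e3, e4⟩ e2⟩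
      intro m' hm'
      rcases List.mem_cons.1 hm' with rfl | hm'
      · exact hm
      · exact e1 m' hm'
  obtain ⟨ms, hm, h2⟩ := hms
  unfold LOb at h
  push Not at h
  obtain ⟨ns, h3, h4, h5⟩ := h ms hm h2 hne
  refine ⟨ns, ?_, ?_, h4, h5⟩
  · clear h h1 h2 h4 h5
    induction h3 with
    | nil => simp
    | cons k _ ih =>
      intro n hn
      rcases List.mem_cons.1 hn with rfl | hn
      · rcases k with rfl | rfl
        · exact hm _ List.mem_cons_self
        · exact shR_mem_GG (hm _ List.mem_cons_self)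
      · exact ih (fun m hm' => hm m (List.mem_cons_of_mem _ hm')) n hn
  · clear h h1 hm h4 h5 hb hG hne
    induction h2 generalizing ns with
    | nil => cases h3; exact List.Forall₂.nil
    | cons k _ ih =>
      cases h3 with
      | cons k1 k2 =>
        refine List.Forall₂.cons ?_ (ih _ k2)
        rcases k1 with rfl | rfl
        · exact k.1
        · exact k.1.trans (GC_shR_shR _)

/-- Invariance of the right obstruction. -/
lemma ROb_inv {l ns : List (ℝ ≃o ℝ)} (h : List.Forall₂ (fun c n => GC c (shR n)) l ns)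
    (h2 : LOb (ns.map rf)) : LOb (l.map rf) := by
  obtain ⟨ms, hm, e1, e2, e3⟩ := h2
  refine ⟨ms.map shL, ?_, ?_, ?_, ?_⟩
  · intro m hm'
    obtain ⟨m', hm'', rfl⟩ := List.mem_map.1 hm'
    exact shL_mem_GG (hm m' hm'')
  · clear e2 e3
    induction h generalizing ms with
    | nil =>
      rw [List.map_nil] at e1
      cases e1
      exact List.Forall₂.nil
    | cons k _ ih =>
      rw [List.map_cons] at e1
      cases e1 with
      | cons k1 k2 =>
        rename_i m ms'
        rw [List.map_cons, List.map_cons]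
        refine List.Forall₂.cons ⟨?_, ?_⟩ (ih ms' (fun m hm' => hm m (List.mem_cons_of_mem _ hm')) k2)
        · have e4 := k.rf
          rw [rf_shR] at e4
          exact (e4.trans k1.1.shL).trans ⟨tr 1, tr_one_mem_GG, (tr_shLR _).symm⟩
        · rw [shL_bt (hm m List.mem_cons_self)]
          exact k1.2
  · intro h3
    apply e2
    rw [List.map_eq_nil_iff] at h3 ⊢
    subst h3
    cases h
    rfl
  · intro ns' k1 k2
    have : ∃ ns'', List.Forall₂ RSh ms ns'' ∧ ns''.map bt = ns'.map bt := by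
      clear e1 e2 e3 k2
      induction ms generalizing ns' with
      | nil =>
        rw [List.map_nil] at k1
        cases k1
        exact ⟨[], List.Forall₂.nil, rfl⟩
      | cons m ms ih =>
        rw [List.map_cons] at k1
        cases k1 with
        | cons j1 j2 =>
          obtain ⟨ns'', i1, i2⟩ := ih (fun m hm' => hm m (List.mem_cons_of_mem _ hm')) _ j2
          rcases j1 with rfl | rfl
          · refine ⟨m :: ns'', List.Forall₂.cons (Or.inl rfl) i1, ?_⟩
            rw [List.map_cons, List.map_cons, i2, shL_bt (hm m List.mem_cons_self)]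
          · refine ⟨shR m :: ns'', List.Forall₂.cons (Or.inr rfl) i1, ?_⟩
            rw [List.map_cons, List.map_cons, i2, shR_bt, shR_bt]
    obtain ⟨ns'', i1, i2⟩ := this
    have i3 := e3 ns'' i1 (by rw [i2]; exact k2)
    intro n hn
    have : bt n ∈ ns''.map bt := by rw [i2]; exact List.mem_map_of_mem hn
    obtain ⟨n', hn', e⟩ := List.mem_map.1 this
    rw [← e]
    exact i3 n' hn'

lemma ct_congr {Q : (ℝ ≃o ℝ) → Prop} {l l' : List (ℝ ≃o ℝ)}
    (h : List.Forall₂ (fun a b => Q a ↔ Q b) l l') : ct Q l = ct Q l' := by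
  classical
  induction h with
  | nil => rfl
  | cons h1 _ ih =>
    rw [ct_cons, ct_cons, ih]
    simp only [h1]

lemma hasP_shR {c : ℝ ≃o ℝ} : HasP (shR c) ↔ HasP c := by
  constructor
  · rintro ⟨t, _, ht⟩
    by_cases h0 : t ≤ 0
    · rw [shR_le _ h0] at ht; exact absurd ht (lt_irrefl _)
    · push Not at h0
      obtain ⟨s, rfl⟩ := hf_surj h0
      rw [shR_hf] at ht
      exact hasP_of_real (hf_strictMono.lt_iff_lt.1 ht)
  · rintro ⟨t, _, ht⟩
    refine hasP_of_real (t := hf t) ?_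
    rw [shR_hf]
    exact hf_strictMono ht

lemma hasN_shR {c : ℝ ≃o ℝ} : HasN (shR c) ↔ HasN c := by
  rw [← hasP_inv, ← shR_inv, hasP_shR, hasP_inv]

lemma Sv_shR {l ns : List (ℝ ≃o ℝ)} (h : List.Forall₂ (fun c n => GC c (shR n)) l ns) (hs : Sv ns) :
    Sv l := by
  obtain ⟨ns', h1, h2⟩ := hs
  refine ⟨ns'.map shR, ?_, ?_⟩
  · clear h2
    induction h generalizing ns' with
    | nil => cases h1; exact List.Forall₂.nil
    | cons k _ ih =>
      cases h1 with
      | cons j1 j2 => exact List.Forall₂.cons (k.trans j1.shR) (ih _ j2)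
  · have : ∀ L : List (ℝ ≃o ℝ), (L.map shR).prod = shR L.prod := by
      intro L
      induction L with
      | nil => simp [shR_one]
      | cons a L ih => rw [List.map_cons, List.prod_cons, List.prod_cons, shR_mul, ih]
    rw [this, h2, shR_one]

lemma Sv_rf {l : List (ℝ ≃o ℝ)} (hs : Sv l) : Sv (l.map rf) := by
  obtain ⟨l', h1, h2⟩ := hs
  refine ⟨l'.map rf, ?_, ?_⟩
  · clear h2
    induction h1 with
    | nil => exact List.Forall₂.nil
    | cons k _ ih => exact List.Forall₂.cons k.rf ih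
  · have : ∀ L : List (ℝ ≃o ℝ), (L.map rf).prod = rf L.prod := by
      intro L
      induction L with
      | nil => simp [rf_one]
      | cons a L ih => rw [List.map_cons, List.prod_cons, List.prod_cons, rf_mul, ih]
    rw [this, h2, rf_one]

lemma map_rf_rf (l : List (ℝ ≃o ℝ)) : (l.map rf).map rf = l := by
  rw [List.map_map]
  have : (rf ∘ rf) = id := by funext c; exact rf_rf c
  rw [this, List.map_id]

lemma Sv_rf_iff {l : List (ℝ ≃o ℝ)} : Sv (l.map rf) ↔ Sv l :=
  ⟨fun h => by have := Sv_rf h; rwa [map_rf_rf] at this, Sv_rf⟩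

lemma sum_neg_map (l : List ℤ) : (l.map (fun x => -x)).sum = - l.sum := by
  induction l with
  | nil => simp
  | cons a l ih => rw [List.map_cons, List.sum_cons, List.sum_cons, ih]; ring

/-- The hypotheses of the sphere theorem. -/
structure Hyp (l : List (ℝ ≃o ℝ)) : Prop where
  mem : ∀ c ∈ l, c ∈ GG
  ne : ∀ c ∈ l, c ≠ 1
  len : 3 ≤ l.length
  hP : 2 ≤ ct HasP l
  hN : 2 ≤ ct HasN l
  sb : (l.map bt).sum = 0
  st : (l.map tp).sum = 0

lemma Hyp.rf {l : List (ℝ ≃o ℝ)} (h : Hyp l) : Hyp (l.map rf) where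
  mem := by
    intro c hc
    obtain ⟨d, hd, rfl⟩ := List.mem_map.1 hc
    exact rf_mem_GG (h.mem d hd)
  ne := by
    intro c hc
    obtain ⟨d, hd, rfl⟩ := List.mem_map.1 hc
    intro h2
    apply h.ne d hd
    rw [← rf_rf d, h2, rf_one]
  len := by rw [List.length_map]; exact h.len
  hP := by
    have := h.hN
    have e : ct HasP (l.map Pool.Agent.Lib_helper30.rf) = ct HasN l := by
      clear this h
      classical
      induction l with
      | nil => rfl
      | cons a l ih => rw [List.map_cons, ct_cons, ct_cons, ih]; simp only [hasP_rf]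
    rwa [e]
  hN := by
    have := h.hP
    have e : ct HasN (l.map Pool.Agent.Lib_helper30.rf) = ct HasP l := by
      clear this h
      classical
      induction l with
      | nil => rfl
      | cons a l ih => rw [List.map_cons, ct_cons, ct_cons, ih]; simp only [hasN_rf]
    rwa [e]
  sb := by
    have h1 : (l.map Pool.Agent.Lib_helper30.rf).map bt = (l.map tp).map (fun x => -x) := by
      rw [List.map_map, List.map_map]
      exact List.map_congr_left (fun c hc => rf_bt (h.mem c hc))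
    rw [h1, sum_neg_map, h.st, neg_zero]
  st := by
    have h1 : (l.map Pool.Agent.Lib_helper30.rf).map tp = (l.map bt).map (fun x => -x) := by
      rw [List.map_map, List.map_map]
      exact List.map_congr_left (fun c hc => rf_tp (h.mem c hc))
    rw [h1, sum_neg_map, h.sb, neg_zero]

lemma forall₂_imp_mem {α β : Type*} {R : α → β → Prop} {Q : α → Prop} {l : List α} {l' : List β}
    (h : List.Forall₂ R l l') (hQ : ∀ a ∈ l, Q a) : List.Forall₂ (fun a b => R a b ∧ Q a) l l' := by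
  induction h with
  | nil => exact List.Forall₂.nil
  | cons k _ ih =>
    exact List.Forall₂.cons ⟨k, hQ _ List.mem_cons_self⟩
      (ih (fun a ha => hQ a (List.mem_cons_of_mem _ ha)))

lemma Hyp.shR {l ns : List (ℝ ≃o ℝ)} (h : Hyp l) (hG : ∀ n ∈ ns, n ∈ GG)
    (hf : List.Forall₂ (fun c n => GC c (shR n)) l ns) (hs : (ns.map bt).sum = 0) : Hyp ns where
  mem := hG
  ne := by
    have h1 := h.ne
    clear hs hG h
    induction hf with
    | nil => simp
    | cons k _ ih =>
      intro c hc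
      rcases List.mem_cons.1 hc with rfl | hc
      · rintro rfl
        rw [shR_one, GC_to_one_iff] at k
        exact h1 _ List.mem_cons_self k
      · exact ih (fun c hc => h1 c (List.mem_cons_of_mem _ hc)) c hc
  len := by rw [← hf.length_eq]; exact h.len
  hP := by
    have e : ct HasP l = ct HasP ns := ct_congr (hf.imp (fun a b hab =>
      ⟨fun ha => hasP_shR.1 (hab.hasP ha), fun hb => hab.symm.hasP (hasP_shR.2 hb)⟩))
    rw [← e]; exact h.hP
  hN := by
    have e : ct HasN l = ct HasN ns := ct_congr (hf.imp (fun a b hab =>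
      ⟨fun ha => hasN_shR.1 (hab.hasN ha), fun hb => hab.symm.hasN (hasN_shR.2 hb)⟩))
    rw [← e]; exact h.hN
  sb := hs
  st := by
    have h1 := h.st
    have e : l.map tp = ns.map tp := by
      have h2 := h.mem
      clear hs h1 h
      induction hf with
      | nil => rfl
      | cons k _ ih =>
        rw [List.map_cons, List.map_cons, ih (fun n hn => hG n (List.mem_cons_of_mem _ hn))
          (fun c hc => h2 c (List.mem_cons_of_mem _ hc)), ← k.tp (h2 _ List.mem_cons_self),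
          shR_tp (hG _ List.mem_cons_self)]
    rwa [← e]

/-- **The sphere theorem**. -/
theorem sphere_solvable {l : List (ℝ ≃o ℝ)} (h : Hyp l) (hL : ¬ LOb l) (hR : ¬ LOb (l.map rf)) :
    Sv l := by
  -- first step
  obtain ⟨l₁, H₁, hR₁, hb₁, hS₁⟩ : ∃ l₁, Hyp l₁ ∧ ¬ LOb (l₁.map rf) ∧ (∃ c ∈ l₁, bt c ≠ 0) ∧
      (Sv l₁ → Sv l) := by
    by_cases hb : ∃ c ∈ l, bt c ≠ 0
    · exact ⟨l, h, hR, hb, fun h => h⟩
    · push Not at hb
      have hne : l ≠ [] := by
        rintro rfl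
        have := h.len
        simp at this
      obtain ⟨ns, h1, h2, h3, h4⟩ := norm_left h.mem h.ne hb hne hL
      exact ⟨ns, h.shR h1 h2 h3, fun h5 => hR (ROb_inv h2 h5), h4, fun h5 => Sv_shR h2 h5⟩
  obtain ⟨l₂, H₂, ht₂, hb₂, hS₂⟩ : ∃ l₂, Hyp l₂ ∧ (∃ c ∈ l₂, tp c ≠ 0) ∧ (∃ c ∈ l₂, bt c ≠ 0) ∧
      (Sv l₂ → Sv l₁) := by
    by_cases ht : ∃ c ∈ l₁, tp c ≠ 0
    · exact ⟨l₁, H₁, ht, hb₁, fun h => h⟩
    · push Not at ht
      have H₁' := H₁.rf
      have hne : l₁.map rf ≠ [] := by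
        intro h0
        have := H₁'.len
        rw [h0] at this
        simp at this
      obtain ⟨ns, h1, h2, h3, c, hc, h4⟩ := norm_left H₁'.mem H₁'.ne (by
        intro c hc
        obtain ⟨d, hd, rfl⟩ := List.mem_map.1 hc
        rw [rf_bt (H₁.mem d hd), ht d hd, neg_zero]) hne hR₁
      have H₃ := (H₁'.shR h1 h2 h3).rf
      refine ⟨ns.map rf, H₃, ⟨rf c, List.mem_map_of_mem hc, ?_⟩, ?_, ?_⟩
      · rw [rf_tp (h1 c hc)]
        simpa using h4
      · by_contra hcon
        push Not at hcon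
        obtain ⟨d, hd, hd0⟩ := hb₁
        apply hd0
        have key : ∀ (l ns : List (ℝ ≃o ℝ)), List.Forall₂ (fun c n => GC c (shR n)) (l.map rf) ns →
            (∀ c ∈ l, c ∈ GG) → (∀ n ∈ ns, n ∈ GG) → (∀ n ∈ ns.map rf, bt n = 0) →
            ∀ d ∈ l, bt d = 0 := by
          intro l
          induction l with
          | nil => intro ns _ _ _ _ d hd; cases hd
          | cons a l ih =>
            intro ns hf hG hG' hz d hd
            rw [List.map_cons] at hf
            cases hf with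
            | cons k1 k2 =>
              rename_i n ns'
              rcases List.mem_cons.1 hd with rfl | hd
              · have e1 := k1.rf
                rw [rf_rf, rf_shR] at e1
                have hn := hG' n List.mem_cons_self
                rw [← e1.bt (hG d List.mem_cons_self), shL_bt (rf_mem_GG hn)]
                exact hz _ (List.mem_map_of_mem List.mem_cons_self)
              · exact ih ns' k2 (fun c hc => hG c (List.mem_cons_of_mem _ hc))
                  (fun c hc => hG' c (List.mem_cons_of_mem _ hc))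
                  (fun c hc => hz c (by rw [List.map_cons]; exact List.mem_cons_of_mem _ hc)) d hd
        exact key l₁ ns h2 H₁.mem h1 hcon d hd
      · intro h5
        have h6 := Sv_rf h5
        rw [map_rf_rf] at h6
        have h7 := Sv_rf (Sv_shR h2 h6)
        rwa [map_rf_rf] at h7
  apply hS₁
  apply hS₂
  obtain ⟨n, hn⟩ : ∃ n, l₂.length = n + 3 := ⟨l₂.length - 3, by have := H₂.len; omega⟩
  exact fb_list n l₂ hn H₂.mem H₂.ne H₂.sb H₂.st H₂.hP H₂.hN
    (two_of_sum H₂.sb (ct_pos.2 hb₂)) (two_of_sum H₂.st (ct_pos.2 ht₂))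

end Pool.Agent.Lib_helper30
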