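import Pool.Agent.Lib_helper30.Key

set_option autoImplicit false

namespace Pool.Agent.Lib_helper30

open Filter Topology Set

/-- The steering lemma: on a region where both factors are unit translations, the product can be
corrected, by conjugating the first factor with an element supported in the region, so that its
left and right linearisations match. -/
theorem steering : ∃ M₀ : ℕ, 0 < M₀ ∧ ∀ N : ℕ, 0 < N → ∀ c ∈ HH, ∀ y ∈ HH,
    (∀ t : ℝ, t < c (y t)) → (∀ t : ℝ, 0 ≤ t → t ≤ M₀ → c t = t + 1) →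
    (∀ t : ℝ, 0 ≤ t → t ≤ M₀ → y t = t + 1) →
    ∀ u₀ ∈ HH, ∀ v₀ ∈ HH, c * y * u₀ = u₀ * tr N → c * y * v₀ = v₀ * tr N →
    ∃ g ∈ Gc 0 M₀, ∃ w ∈ HH, ∃ k : ℤ, (g * c * g⁻¹) * y = w * tr N * w⁻¹ ∧
      (∀ t, u₀ t ≤ 0 → w t = u₀ t) ∧ (∀ t, M₀ ≤ v₀ (t + k) → w t = v₀ (t + k)) := by
  obtain ⟨C, hC2, hC⟩ := InE.all_one
  obtain ⟨n₀, hn₀⟩ := exists_nat_ge C
  obtain ⟨j₀, hj₀⟩ := exists_nat_ge (C + 2)
  obtain ⟨M₀, hM₀⟩ := exists_nat_ge ((n₀ : ℝ) + 2 * j₀ + C + 10)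
  have hn₀' : (0 : ℝ) ≤ n₀ := Nat.cast_nonneg _
  have hj₀' : (0 : ℝ) ≤ j₀ := Nat.cast_nonneg _
  refine ⟨M₀, ?_, ?_⟩
  · have : (0 : ℝ) < M₀ := by linarith
    exact_mod_cast this
  intro N hN c hcG y hyG hpos hcT hyT u₀ hu₀ v₀ hv₀ hu₀d hv₀d
  have hNR : (0 : ℝ) < N := by exact_mod_cast hN
  have hN1 : (1 : ℝ) ≤ N := by exact_mod_cast hN
  set d := c * y with hd
  have hdH : d ∈ HH := HH.mul_mem hcG hyG
  have hdp : ∀ t, t < d t := hpos
  have hd2 : ∀ t : ℝ, 0 ≤ t → t ≤ M₀ - 1 → d t = t + 2 := by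
    intro t h1 h2
    rw [hd, mul_apply', hyT t h1 (by linarith), hcT _ (by linarith) (by linarith)]; ring
  have hu₀' : ∀ t, d (u₀ t) = u₀ (t + N) := fun t => by
    have := congrArg (fun f : ℝ ≃o ℝ => f t) hu₀d
    simpa only [mul_apply', tr_apply] using this
  have hv₀' : ∀ t, d (v₀ t) = v₀ (t + N) := fun t => by
    have := congrArg (fun f : ℝ ≃o ℝ => f t) hv₀d
    simpa only [mul_apply', tr_apply] using this
  -- the first fundamental domain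
  set δ₁ : ℝ := (n₀ : ℝ) with hδ₁
  have hδ₁D : δ₁ ∈ Dy := Dy_nat n₀
  set t₁ := u₀⁻¹ δ₁ with ht₁
  have hu₀t₁ : u₀ t₁ = δ₁ := apply_inv' _ _
  have ht₁D : t₁ ∈ Dy := by
    rw [← PL2.dy_iff hu₀, hu₀t₁]; exact hδ₁D
  have hdδ₁ : d δ₁ = δ₁ + 2 := hd2 _ hn₀' (by linarith)
  have hu₀t₁N : u₀ (t₁ + N) = δ₁ + 2 := by rw [← hu₀', hu₀t₁, hdδ₁]
  set τ := v₀⁻¹ δ₁ with hτ
  have hv₀τ : v₀ τ = δ₁ := apply_inv' _ _
  have hv₀τN : v₀ (τ + N) = δ₁ + 2 := by rw [← hv₀', hv₀τ, hdδ₁]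
  set k : ℤ := ⌊τ - t₁⌋ with hk
  have hk1 : t₁ + k ≤ τ := by have := Int.floor_le (τ - t₁); linarith
  have hk2 : τ < t₁ + k + 1 := by have := Int.lt_floor_add_one (τ - t₁); linarith
  set P := v₀ * tr k with hP
  have hPH : P ∈ HH := HH.mul_mem hv₀ (tr_mem_HH (Dy_int k))
  have P_apply : ∀ t, P t = v₀ (t + k) := fun t => rfl
  have hPd : ∀ t, d (P t) = P (t + N) := by
    intro t
    rw [P_apply, P_apply, hv₀']; congr 1; ring
  -- the window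
  obtain ⟨a₁, ha₁D, ha₁, ha₁'⟩ := Dy_dense (show τ - k < t₁ + N by linarith)
  obtain ⟨a₂, ha₂D, ha₂, ha₂'⟩ := Dy_dense ha₁'
  obtain ⟨as, hasD, has, has'⟩ := Dy_dense ha₂
  have hPa₁ : δ₁ < P a₁ := by
    rw [P_apply, ← hv₀τ]; exact v₀.strictMono (by linarith)
  have hPa₂ : P a₂ < δ₁ + 2 := by
    rw [P_apply, ← hv₀τN]; exact v₀.strictMono (by linarith)
  have hua₁ : δ₁ < u₀ a₁ := by
    rw [← hu₀t₁]; exact u₀.strictMono (by linarith)
  have hua₂ : u₀ a₂ < δ₁ + 2 := by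
    rw [← hu₀t₁N]; exact u₀.strictMono ha₂'
  -- the first correction
  obtain ⟨b₁, hb₁D, hb₁, hb₁'⟩ := Dy_dense (show δ₁ < min (u₀ a₁) (P a₁) from lt_min hua₁ hPa₁)
  obtain ⟨b₂, hb₂D, hb₂, hb₂'⟩ := Dy_dense (show max (u₀ a₂) (P a₂) < δ₁ + 2 from max_lt hua₂ hPa₂)
  rw [lt_min_iff] at hb₁'
  rw [max_lt_iff] at hb₂
  have hQH : P * u₀⁻¹ ∈ HH := HH.mul_mem hPH (HH.inv_mem hu₀)
  have hQ : ∀ t, (P * u₀⁻¹) (u₀ t) = P t := by
    intro t; rw [mul_apply', inv_apply']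
  obtain ⟨e0, he0, he01, he02⟩ := interp (f₁ := 1) (f₂ := P * u₀⁻¹) HH.one_mem hQH hb₁D
    ((PL2.dy_iff hu₀ a₁).2 ha₁D) hb₁'.1 (by rw [one_apply', hQ]; exact hb₁'.2)
  obtain ⟨κ₁, hκ₁H, hκ₁1, hκ₁2⟩ := interp (f₁ := e0) (f₂ := 1) he0 HH.one_mem
    ((PL2.dy_iff hu₀ a₂).2 ha₂D) hb₂D hb₂.1 (by
      rw [one_apply', he02 _ (u₀.monotone ha₂.le), hQ]; exact hb₂.2)
  have hκ₁m : κ₁ ∈ Gc δ₁ (δ₁ + 2) := by
    refine ⟨hκ₁H, b₁, b₂, hb₁, hb₂', ?_, ?_⟩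
    · intro t ht
      have h1 : t ≤ u₀ a₂ := by
        have := u₀.monotone ha₂.le; linarith
      rw [hκ₁1 t h1, he01 t ht]; rfl
    · intro t ht
      rw [hκ₁2 t ht]; rfl
  have hκ₁a : ∀ t, a₁ ≤ t → t ≤ a₂ → κ₁ (u₀ t) = P t := by
    intro t h1 h2
    rw [hκ₁1 _ (u₀.monotone h2), he02 _ (u₀.monotone h1), hQ]
  -- the modified left solution
  set d₁ := d * κ₁ with hd₁
  have hd₁H : d₁ ∈ HH := HH.mul_mem hdH hκ₁H
  have hκ₁low : ∀ t, t ≤ δ₁ → κ₁ t = t := fun t ht => Gc_le_apply hκ₁m ht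
  have hκ₁high : ∀ t, δ₁ + 2 ≤ t → κ₁ t = t := fun t ht => Gc_ge_apply hκ₁m ht
  have hd₁p : ∀ t, t < d₁ t := by
    intro t
    rw [hd₁, mul_apply']
    rcases le_or_gt t δ₁ with h1 | h1
    · rw [hκ₁low t h1]; exact hdp t
    · rcases le_or_gt (δ₁ + 2) t with h2 | h2
      · rw [hκ₁high t h2]; exact hdp t
      · have h3 : δ₁ ≤ κ₁ t := by
          have := κ₁.monotone h1.le; rwa [hκ₁low δ₁ le_rfl] at this
        have h4 := d.monotone h3
        rw [hdδ₁] at h4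
        linarith
  obtain ⟨u₁, hu₁, hu₁a, hu₁b⟩ := exists_sol (h₀ := u₀) (x₀ := t₁) (N := N) hd₁H hd₁p ht₁D (Dy_nat N)
    hNR hu₀ (by rw [hu₀t₁N, hu₀t₁, hd₁, mul_apply', hκ₁low δ₁ le_rfl, hdδ₁])
  have hu₁' : ∀ t, d (κ₁ (u₁ t)) = u₁ (t + N) := fun t => by
    have := congrArg (fun f : ℝ ≃o ℝ => f t) hu₁b
    simp only [mul_apply', tr_apply, hd₁] at this
    exact this.symm
  have hu₁low : ∀ t, t ≤ t₁ + N → u₁ t = u₀ t := by
    refine down_induction hNR hu₁a ?_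
    intro t ht hPt
    have h1 := hu₁' t
    have h2 : d (κ₁ (u₀ t)) = u₀ (t + N) := by
      rw [hκ₁low (u₀ t) (by rw [← hu₀t₁]; exact u₀.monotone ht), hu₀']
    rw [hPt, ← h2] at h1
    exact κ₁.injective (d.injective h1)
  have hu₁win : ∀ j : ℕ, ∀ t, a₁ + (j + 1) * N ≤ t → t ≤ a₂ + (j + 1) * N → u₁ t = P t := by
    intro j
    induction j with
    | zero =>
      intro t h1 h2
      have h3 := hu₁' (t - N)
      rw [sub_add_cancel, hu₁low (t - N) (by push_cast at h2; linarith),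
        hκ₁a (t - N) (by push_cast at h1; linarith) (by push_cast at h2; linarith), hPd,
        sub_add_cancel] at h3
      exact h3.symm
    | succ j ih =>
      intro t h1 h2
      push_cast at h1 h2
      have h4 := ih (t - N) (by linarith) (by linarith)
      have h3 := hu₁' (t - N)
      have h5 : δ₁ + 2 ≤ P (t - N) := by
        have h6 : P (a₁ + N) = d (P a₁) := (hPd a₁).symm
        have h7 : P (a₁ + N) ≤ P (t - N) := by
          apply P.monotone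
          have : 0 ≤ (j : ℝ) * N := by positivity
          nlinarith
        have h8 : δ₁ + 2 ≤ d (P a₁) := by
          rw [← hdδ₁]; exact d.monotone hPa₁.le
        linarith
      rw [sub_add_cancel, h4, hκ₁high _ h5, hPd, sub_add_cancel] at h3
      exact h3.symm
  -- positions along the region
  have hPpos : ∀ j : ℕ, j ≤ j₀ + 2 → P (as + j * N) = P as + 2 * j := by
    intro j
    induction j with
    | zero => intro _; simp
    | succ j ih =>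
      intro hj
      have h1 := ih (by omega)
      have h2 : P (as + (j + 1 : ℕ) * N) = d (P (as + j * N)) := by
        rw [hPd]; congr 1; push_cast; ring
      have hjR : (j : ℝ) + 1 ≤ j₀ + 2 := by exact_mod_cast hj
      have h3 : P as < δ₁ + 2 := (P.strictMono has').trans hPa₂
      have h4 : δ₁ < P as := hPa₁.trans (P.strictMono has)
      rw [h2, h1, hd2 _ (by have : (0:ℝ) ≤ j := Nat.cast_nonneg _
                            linarith) (by linarith)]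
      push_cast; ring
  have hPas1 : P as < δ₁ + 2 := (P.strictMono has').trans hPa₂
  have hPas2 : δ₁ < P as := hPa₁.trans (P.strictMono has)
  -- the second fundamental domain
  set t₂ := as + (j₀ + 1) * N with ht₂
  set δ₂ := P t₂ with hδ₂
  have hδ₂eq : δ₂ = P as + 2 * (j₀ + 1) := by
    have := hPpos (j₀ + 1) (by omega)
    push_cast at this
    rw [hδ₂, ht₂, this]
  have hδ₂N : P (t₂ + N) = δ₂ + 2 := by
    have := hPpos (j₀ + 2) (by omega)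
    push_cast at this
    rw [hδ₂eq, ht₂, show as + (j₀ + 1) * N + N = as + (j₀ + 2) * N by ring, this]; ring
  have ht₂D : t₂ ∈ Dy := by
    refine Dy.add_mem hasD (Dy.mul_mem ?_ (Dy_nat N))
    exact Dy.add_mem (Dy_nat j₀) Dy.one_mem
  have hδ₂D : δ₂ ∈ Dy := (PL2.dy_iff hPH t₂).2 ht₂D
  have h2D : (2 : ℝ) ∈ Dy := by simpa using Dy_nat 2
  have hu₁t₂ : u₁ t₂ = δ₂ := hu₁win j₀ t₂ (by linarith) (by linarith)
  have hu₁t₂N : u₁ (t₂ + N) = δ₂ + 2 := by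
    rw [← hδ₂N]
    refine hu₁win (j₀ + 1) _ ?_ ?_
    · push_cast; linarith
    · push_cast; linarith
  set Q := P * u₁⁻¹ with hQdef
  have hQH' : Q ∈ HH := HH.mul_mem hPH (HH.inv_mem hu₁)
  have hQ' : ∀ t, Q (u₁ t) = P t := by
    intro t; rw [hQdef, mul_apply', inv_apply']
  have hQδ₂ : Q δ₂ = δ₂ := by
    have h := hQ' t₂
    rwa [hu₁t₂] at h
  have hQδ₂N : Q (δ₂ + 2) = δ₂ + 2 := by
    have h := hQ' (t₂ + N)
    rwa [hu₁t₂N, hδ₂N] at h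
  set κ₂ := glue (glue 1 Q δ₂ (by rw [hQδ₂, one_apply'])) 1 (δ₂ + 2) (by
    rw [glue_ge (by linarith), hQδ₂N, one_apply']) with hκ₂
  have hκ₂low : ∀ t, t ≤ δ₂ → κ₂ t = t := by
    intro t ht
    rw [hκ₂, glue_le (by linarith), glue_le ht]; rfl
  have hκ₂high : ∀ t, δ₂ + 2 ≤ t → κ₂ t = t := by
    intro t ht
    rw [hκ₂, glue_ge ht]; rfl
  have hκ₂mid : ∀ t, δ₂ ≤ t → t ≤ δ₂ + 2 → κ₂ t = Q t := by
    intro t h1 h2
    rw [hκ₂, glue_le h2, glue_ge h1]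
  have hκ₂H : κ₂ ∈ HH := glue_mem_HH (glue_mem_HH HH.one_mem hQH' hδ₂D) HH.one_mem
    (Dy.add_mem hδ₂D h2D)
  have hκ₂m : κ₂ ∈ Gc δ₂ (δ₂ + 2) := by
    refine ⟨hκ₂H, u₁ (a₂ + (j₀ + 1) * N), u₁ (a₁ + (j₀ + 2) * N), ?_, ?_, ?_, ?_⟩
    · rw [← hu₁t₂]; exact u₁.strictMono (by linarith)
    · rw [← hu₁t₂N]; exact u₁.strictMono (by linarith)
    · intro t ht
      rcases le_or_gt t δ₂ with h1 | h1
      · exact hκ₂low t h1
      · have hs1 : t₂ ≤ u₁⁻¹ t := by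
          rw [← u₁.le_iff_le, apply_inv', hu₁t₂]; exact h1.le
        have hs2 : u₁⁻¹ t ≤ a₂ + (j₀ + 1) * N := by
          rw [← u₁.le_iff_le, apply_inv']; exact ht
        have hs3 : u₁ (u₁⁻¹ t) = P (u₁⁻¹ t) := hu₁win j₀ _ (by linarith) hs2
        rw [apply_inv'] at hs3
        have hs4 : t ≤ δ₂ + 2 := by
          rw [← hu₁t₂N]
          refine ht.trans (u₁.monotone ?_)
          have h5 : a₂ < t₁ + N := ha₂'
          have h6 : t₁ < as := by linarith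
          linarith
        rw [hκ₂mid t h1.le hs4, hQdef, mul_apply', ← hs3]
    · intro t ht
      rcases le_or_gt (δ₂ + 2) t with h1 | h1
      · exact hκ₂high t h1
      · have hs1 : u₁⁻¹ t ≤ t₂ + N := by
          rw [← u₁.le_iff_le, apply_inv', hu₁t₂N]; exact h1.le
        have hs2 : a₁ + (j₀ + 2) * N ≤ u₁⁻¹ t := by
          rw [← u₁.le_iff_le, apply_inv']; exact ht
        have hs3 : u₁ (u₁⁻¹ t) = P (u₁⁻¹ t) := by
          refine hu₁win (j₀ + 1) _ ?_ ?_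
          · push_cast; linarith
          · push_cast; linarith
        rw [apply_inv'] at hs3
        have hs4 : δ₂ ≤ t := by
          rw [← hu₁t₂]
          refine le_trans (u₁.monotone ?_) ht
          have h5 : a₂ < t₁ + N := ha₂'
          have h6 : t₁ < a₁ := by linarith
          linarith
        rw [hκ₂mid t hs4 h1.le, hQdef, mul_apply', ← hs3]
  -- the conjugator
  set u := glue u₁ P (t₂ + N) (by rw [hu₁t₂N, hδ₂N]) with hu
  have huH : u ∈ HH := glue_mem_HH hu₁ hPH (Dy.add_mem ht₂D (Dy_nat N))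
  have huleft : ∀ t, u₀ t ≤ 0 → u t = u₀ t := by
    intro t ht
    have h1 : t ≤ t₁ + N := by
      rw [← u₀.le_iff_le, hu₀t₁N]; linarith
    have h2 : 0 ≤ ((j₀ : ℝ) + 1) * N := by positivity
    have h3 : t ≤ t₂ + N := by rw [ht₂]; linarith
    rw [hu, glue_le h3, hu₁low t h1]
  have huright : ∀ t, δ₂ + 2 ≤ P t → u t = P t := by
    intro t ht
    rw [← hδ₂N, P.le_iff_le] at ht
    rw [hu, glue_ge ht]
  have h12 : δ₁ + 2 ≤ δ₂ := by rw [hδ₂eq]; linarith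
  have hconj : d * κ₁ * κ₂ * u = u * tr N := by
    ext t
    simp only [mul_apply', tr_apply]
    rcases le_or_gt t t₂ with h1 | h1
    · have e1 : u t = u₁ t := by rw [hu, glue_le (by linarith)]
      have e2 : u (t + N) = u₁ (t + N) := by rw [hu, glue_le (by linarith)]
      have e3 : u₁ t ≤ δ₂ := by rw [← hu₁t₂]; exact u₁.monotone h1
      rw [e1, e2, hκ₂low _ e3, hu₁']
    · have e2 : u (t + N) = P (t + N) := by rw [hu, glue_ge (by linarith)]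
      rcases le_or_gt t (t₂ + N) with h2 | h2
      · have e1 : u t = u₁ t := by rw [hu, glue_le h2]
        have e3 : δ₂ ≤ u₁ t := by rw [← hu₁t₂]; exact u₁.monotone h1.le
        have e4 : u₁ t ≤ δ₂ + 2 := by rw [← hu₁t₂N]; exact u₁.monotone h2
        have e5 : δ₂ ≤ P t := P.monotone h1.le
        rw [e1, e2, hκ₂mid _ e3 e4, hQ', hκ₁high _ (by linarith), hPd]
      · have e1 : u t = P t := by rw [hu, glue_ge h2.le]
        have e5 : δ₂ + 2 ≤ P t := by rw [← hδ₂N]; exact P.monotone h2.le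
        rw [e1, e2, hκ₂high _ e5, hκ₁high _ (by linarith), hPd]
  -- the twisted factorisation
  obtain ⟨γ₁, hγ₁, v₁, hv₁, he₁⟩ := hC δ₁ hδ₁D κ₁ hκ₁m
  obtain ⟨γ₂, hγ₂, v₂, hv₂, he₂⟩ := hC δ₂ hδ₂D κ₂ hκ₂m
  have h1 := InE.expand he₁
  have h2 := InE.expand he₂
  have hsep : δ₁ + C + 2 ≤ δ₂ - C := by rw [hδ₂eq]; linarith
  have mX : ∀ x ∈ ({γ₁⁻¹, v₁, (sh 1 v₁)⁻¹, sh 2 γ₁} : Set (ℝ ≃o ℝ)),
      x ∈ Gc (δ₁ - C) (δ₁ + C + 2) := by
    intro x hx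
    rcases hx with rfl | rfl | rfl | hx
    · exact Subgroup.inv_mem _ (Gc_mono (by linarith) (by linarith) hγ₁)
    · exact Gc_mono (by linarith) (by linarith) hv₁
    · exact Subgroup.inv_mem _ (Gc_mono (by linarith) (by linarith) (sh_mem Dy.one_mem hv₁))
    · rw [Set.mem_singleton_iff.1 hx]
      exact Gc_mono (by linarith) (by linarith) (sh_mem h2D hγ₁)
  have mY : ∀ y ∈ ({γ₂⁻¹, v₂, (sh 1 v₂)⁻¹, sh 2 γ₂} : Set (ℝ ≃o ℝ)),
      y ∈ Gc (δ₂ - C) (δ₂ + C + 2) := by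
    intro x hx
    rcases hx with rfl | rfl | rfl | hx
    · exact Subgroup.inv_mem _ (Gc_mono (by linarith) (by linarith) hγ₂)
    · exact Gc_mono (by linarith) (by linarith) hv₂
    · exact Subgroup.inv_mem _ (Gc_mono (by linarith) (by linarith) (sh_mem Dy.one_mem hv₂))
    · rw [Set.mem_singleton_iff.1 hx]
      exact Gc_mono (by linarith) (by linarith) (sh_mem h2D hγ₂)
  have hint := interleave (fun x hx y hy => Gc_comm hsep (mX x hx) (mY y hy) :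
    ∀ x ∈ ({γ₁⁻¹, v₁, (sh 1 v₁)⁻¹, sh 2 γ₁} : Set (ℝ ≃o ℝ)),
      ∀ y ∈ ({γ₂⁻¹, v₂, (sh 1 v₂)⁻¹, sh 2 γ₂} : Set (ℝ ≃o ℝ)), Commute x y)
  set γ := γ₁ * γ₂ with hγ
  set v := v₁ * v₂ with hv
  have hprod : κ₁ * κ₂ = γ⁻¹ * v * (sh 1 v)⁻¹ * sh 2 γ := by
    rw [h1, h2, hγ, hv, sh_mul, sh_mul, mul_inv_rev, mul_inv_rev, ← hint]
  have hγm : γ ∈ Gc (δ₁ - C) (δ₂ + C) := Subgroup.mul_mem _
    (Gc_mono le_rfl (by linarith) hγ₁) (Gc_mono (by linarith) le_rfl hγ₂)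
  have hvm : v ∈ Gc (δ₁ - C) (δ₂ + C) := Subgroup.mul_mem _
    (Gc_mono le_rfl (by linarith) hv₁) (Gc_mono (by linarith) le_rfl hv₂)
  have hid := key_identity (M := M₀) hcT hyT (by linarith) (by rw [hδ₂eq]; linarith) hγm hvm
  rw [← hprod, ← hd, ← mul_assoc] at hid
  have hconj' : d * κ₁ * κ₂ = u * tr N * u⁻¹ := by rw [← hconj]; group
  have hγ2 : sh 2 γ ∈ Gc (δ₁ - C + 2) (δ₂ + C + 2) := sh_mem h2D hγm
  have hv2 : sh 2 v ∈ Gc (δ₁ - C + 2) (δ₂ + C + 2) := sh_mem h2D hvm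
  refine ⟨sh 2 v, Gc_mono (by linarith) (by rw [hδ₂eq]; linarith) hv2, sh 2 γ * u,
    HH.mul_mem hγ2.1 huH, k, ?_, ?_, ?_⟩
  · rw [hconj'] at hid
    calc (sh 2 v * c * (sh 2 v)⁻¹) * y
        = sh 2 γ * ((sh 2 γ)⁻¹ * ((sh 2 v * c * (sh 2 v)⁻¹) * y) * sh 2 γ) * (sh 2 γ)⁻¹ := by group
      _ = sh 2 γ * (u * tr N * u⁻¹) * (sh 2 γ)⁻¹ := by rw [hid]
      _ = _ := by group
  · intro t ht
    rw [mul_apply', huleft t ht, Gc_le_apply hγ2 (by linarith)]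
  · intro t ht
    have h3 : P t = v₀ (t + k) := P_apply t
    have h4 : δ₂ + C + 2 ≤ P t := by rw [h3, hδ₂eq]; linarith
    rw [mul_apply', huright t (by linarith), Gc_ge_apply hγ2 h4, h3]

end Pool.Agent.Lib_helper30
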