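import Pool.Agent.Lib_helper30.FailRE
import Pool.Agent.Lib_helper30.Dec

set_option autoImplicit false

namespace Pool.Agent.Lib_helper30

open Filter Topology Set

/-- Shift to the right half, on letters. -/
def shL1 (p : Bool × Bool) : W :=
  if p.2 = false then [(p.1, true)] else [(false, false), (p.1, true), (true, false)]

/-- Reflection, on letters. -/
def rfL1 (p : Bool × Bool) : W :=
  if p.2 = false then [(!p.1, false)]
  else if p.1 = true then [(true, false), (true, true), (false, false), (false, false)]
  else [(true, false), (true, false), (false, true), (false, false)]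

/-- `shR` on words. -/
def shRw (w : W) : W := w.flatMap shL1
/-- `rf` on words. -/
def rfw (w : W) : W := w.flatMap rfL1
/-- `shL` on words. -/
def shLw (w : W) : W := rfw (shRw (rfw w))
/-- `cat` on words. -/
def catw (u v : W) : W := shLw u ++ shRw v

lemma X0_apply (t : ℝ) : X0 t = t - 1 := by unfold X0; rw [tr_apply]; ring

lemma X0_inv_apply (t : ℝ) : X0⁻¹ t = t + 1 := by
  apply inv_eq_of_apply
  rw [X0_apply]; ring

lemma shR_X0 : shR X0 = X1 := by
  apply eq_of_hf
  · intro x hx
    rw [shR_le _ hx, X1_le hx]
  · intro t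
    rw [shR_hf, X0_apply]
    rcases le_total 1 t with h | h
    · rw [hf_nonneg (by linarith), hf_nonneg (by linarith), X1_ge (by linarith)]; ring
    · rcases le_total 0 t with h0 | h0
      · rw [hf_nonneg h0, hf_nonpos (by linarith), X1_mid (by linarith) (by linarith),
          Ex_cell (n := -1) (by push_cast; linarith) (by push_cast; linarith)]
        push_cast
        norm_num
        ring
      · have := hf_add_int (t := t) (p := -1) h0 (by push_cast; linarith)
        push_cast at this
        rw [← sub_eq_add_neg] at this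
        rw [this, X1_mid (hf_pos t).le]
        · norm_num; ring
        · have := hf_strictMono.monotone h0
          rw [hf_nonneg le_rfl] at this
          linarith

lemma shR_X1 : shR X1 = X0⁻¹ * X1 * X0 := by
  apply eq_of_hf
  · intro x hx
    rw [shR_le _ hx, mul_apply', mul_apply', X0_apply, X0_inv_apply, X1_le (by linarith)]; ring
  · intro t
    rw [shR_hf, mul_apply', mul_apply', X0_apply, X0_inv_apply]
    rcases le_total t 0 with h | h
    · rw [X1_le h, X1_le, sub_add_cancel]
      have := hf_strictMono.monotone h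
      rw [hf_nonneg le_rfl] at this
      linarith
    · rw [hf_nonneg h, add_sub_cancel_right, hf_nonneg]
      have := X1.monotone h
      rwa [X1_le le_rfl] at this

lemma rf_X0 : rf X0 = X0⁻¹ := by
  ext t
  rw [rf_apply, X0_apply, X0_inv_apply]; ring

lemma rf_X1 : rf X1 = X0 * (X1 * (X0⁻¹ * X0⁻¹)) := by
  ext t
  rw [rf_apply, mul_apply', mul_apply', mul_apply', X0_inv_apply, X0_inv_apply, X0_apply]
  rcases le_total t (-2) with h | h
  · rw [X1_ge (by linarith), X1_le (by linarith)]; ring
  · rcases le_total t 0 with h0 | h0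
    · rw [X1_mid (by linarith) (by linarith), X1_mid (by linarith) (by linarith)]; ring
    · rw [X1_le (by linarith), X1_ge (by linarith)]; ring

lemma lt1_t (c : Bool) : lt1 (true, c) = genImg c := rfl
lemma lt1_f (c : Bool) : lt1 (false, c) = (genImg c)⁻¹ := rfl
lemma genImg_f : genImg false = X0 := rfl
lemma genImg_t : genImg true = X1 := rfl

lemma val_shL1 (p : Bool × Bool) : val (shL1 p) = shR (lt1 p) := by
  obtain ⟨s, c⟩ := p
  cases c
  · show val [(s, true)] = _
    cases s
    · rw [val_cons, val_nil, mul_one, lt1_f, lt1_f, genImg_f, genImg_t, shR_inv, shR_X0]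
    · rw [val_cons, val_nil, mul_one, lt1_t, lt1_t, genImg_f, genImg_t, shR_X0]
  · show val [(false, false), (s, true), (true, false)] = _
    cases s
    · simp only [val_cons, val_nil, mul_one, lt1_f, lt1_t, genImg_f, genImg_t, shR_inv, shR_X1]
      group
    · simp only [val_cons, val_nil, mul_one, lt1_f, lt1_t, genImg_f, genImg_t, shR_X1]
      group

lemma val_rfL1 (p : Bool × Bool) : val (rfL1 p) = rf (lt1 p) := by
  obtain ⟨s, c⟩ := p
  cases c
  · show val [(!s, false)] = _
    cases s
    · simp only [val_cons, val_nil, mul_one, lt1_f, lt1_t, genImg_f, rf_inv, rf_X0, inv_inv,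
        Bool.not_false]
    · simp only [val_cons, val_nil, mul_one, lt1_f, lt1_t, genImg_f, rf_X0, Bool.not_true]
  · cases s
    · show val [(true, false), (true, false), (false, true), (false, false)] = _
      simp only [val_cons, val_nil, mul_one, lt1_f, lt1_t, genImg_f, genImg_t, rf_inv, rf_X1,
        mul_inv_rev, inv_inv, mul_assoc]
    · show val [(true, false), (true, true), (false, false), (false, false)] = _
      simp only [val_cons, val_nil, mul_one, lt1_f, lt1_t, genImg_f, genImg_t, rf_X1]

lemma val_shRw (w : W) : val (shRw w) = shR (val w) := by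
  induction w with
  | nil => exact shR_one.symm
  | cons p w ih =>
    have : shRw (p :: w) = shL1 p ++ shRw w := rfl
    rw [this, val_append, val_cons, shR_mul, ih, val_shL1]

lemma val_rfw (w : W) : val (rfw w) = rf (val w) := by
  induction w with
  | nil => exact rf_one.symm
  | cons p w ih =>
    have : rfw (p :: w) = rfL1 p ++ rfw w := rfl
    rw [this, val_append, val_cons, rf_mul, ih, val_rfL1]

lemma val_shLw (w : W) : val (shLw w) = shL (val w) := by
  unfold shLw shL
  rw [val_rfw, val_shRw, val_rfw]

lemma val_catw (u v : W) : val (catw u v) = cat (val u) (val v) := by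
  unfold catw cat
  rw [val_append, val_shLw, val_shRw]

section
variable {α : Type*} [Primcodable α]

lemma pr_shRw {f : α → W} (hf : Primrec f) : Primrec (fun a => shRw (f a)) :=
  Primrec.list_flatMap hf ((Primrec.dom_finite shL1).comp Primrec.snd).to₂

lemma pr_rfw {f : α → W} (hf : Primrec f) : Primrec (fun a => rfw (f a)) :=
  Primrec.list_flatMap hf ((Primrec.dom_finite rfL1).comp Primrec.snd).to₂

lemma pr_shLw {f : α → W} (hf : Primrec f) : Primrec (fun a => shLw (f a)) :=
  pr_rfw (pr_shRw (pr_rfw hf))

lemma pr_catw {f g : α → W} (hf : Primrec f) (hg : Primrec g) :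
    Primrec (fun a => catw (f a) (g a)) := pr_append (pr_shLw hf) (pr_shRw hg)

/-- Conjugacy of words. -/
def GCw (u v : W) : Prop := ∃ g : W, val (g ++ u ++ winv g) = val v

lemma GCw_iff {u v : W} : GCw u v ↔ GC (val u) (val v) := by
  unfold GCw
  constructor
  · rintro ⟨g, hg⟩
    refine ⟨val g, val_mem g, ?_⟩
    rw [← hg, val_append, val_append, val_winv]
  · rintro ⟨g, hg, h⟩
    obtain ⟨w, rfl⟩ := exists_val hg
    refine ⟨w, ?_⟩
    rw [val_append, val_append, val_winv, h]

lemma re_GCw {f g : α → W} (hf : Primrec f) (hg : Primrec g) : RE (fun a => GCw (f a) (g a)) := by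
  unfold GCw
  refine RE.exd (RE.of_prim ?_)
  exact pr_eqv (pr_append (pr_append Primrec.snd (hf.comp Primrec.fst)) (pr_winv Primrec.snd))
    (hg.comp Primrec.fst)

/-- `c` is not conjugate to the cluster... cluster `c` is not conjugate to `b`. -/
def NConj (c b : W) : Prop :=
  ¬ Clu (val b) ∨ ∀ k < (bw c).natAbs, FailW c b k ∨ FailW (winv c) (winv b) k

lemma failW_sound {c b : W} {k : ℕ} (hc : Clu (val c)) (h : FailW c b k) :
    ¬ CCk (val c) (val b) k :=
  failP_sound hc (cells_KW c _ le_rfl) (cells_KW b _ le_rfl) h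

lemma failW_sound' {c b : W} {k : ℕ} (hc : Clu (val c)) (h : FailW (winv c) (winv b) k) :
    ¬ CCk (val c) (val b) k := by
  intro h2
  refine failW_sound (c := winv c) (b := winv b) ?_ h ?_
  · rw [val_winv]; exact hc.inv
  · rw [val_winv, val_winv]; exact h2.inv

lemma failW_complete {c b : W} {k : ℕ} (hc : Clu (val c)) (hb : Clu (val b)) (hbt : bw c = bw b)
    (htp : tw c = tw b) (h : ¬ CCk (val c) (val b) k) : FailW c b k ∨ FailW (winv c) (winv b) k := by
  by_contra hcon
  push Not at hcon
  apply h
  have e1 := cells_KW (winv c) _ le_rfl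
  have e2 := cells_KW (winv b) _ le_rfl
  rw [val_winv] at e1 e2
  refine cc_complete (val_mem c) (val_mem b) hc hb ?_ ?_ (cells_KW c _ le_rfl) (cells_KW b _ le_rfl)
    e1 e2 hcon.1 ?_
  · rw [bt_val, bt_val, hbt]
  · rw [tp_val, tp_val, htp]
  · have := hcon.2
    unfold FailW at this
    rw [val_winv, val_winv] at this
    exact this

lemma nconj_sound {c b : W} (hc : Clu (val c)) (h : NConj c b) : ¬ GC (val c) (val b) := by
  intro hg
  rcases h with h | h
  · apply h
    obtain ⟨g, hg, e⟩ := hg
    rw [e]
    intro t ht h2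
    rw [mul_apply', mul_apply'] at h2
    have h3 : val c (g⁻¹ t) = g⁻¹ t := by
      have := congrArg (g⁻¹ : ℝ ≃o ℝ) h2
      rwa [inv_apply'] at this
    exact hc _ (((mem_HH.1 (GG_le_HH (GG.inv_mem hg))).dy_iff t).2 ht) h3
  · obtain ⟨k, hk, h2⟩ := (clu_conj_iff (val_mem c) hc).1 hg
    rw [bt_val] at hk
    rcases h k hk with h | h
    · exact failW_sound hc h h2
    · exact failW_sound' hc h h2

lemma nconj_complete {c b : W} (hc : Clu (val c)) (hbt : bw c = bw b)
    (htp : tw c = tw b) (h : ¬ GC (val c) (val b)) : NConj c b := by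
  by_cases hb : Clu (val b)
  · refine Or.inr (fun k hk => failW_complete hc hb hbt htp (fun h2 => h ?_))
    rw [clu_conj_iff (val_mem c) hc]
    exact ⟨k, by rwa [bt_val], h2⟩
  · exact Or.inl hb

lemma re_nconj {c b : α → W} (hc : Primrec c) (hb : Primrec b) : RE (fun a => NConj (c a) (b a)) := by
  unfold NConj
  refine RE.or (RE.of_prim (pr_clu hb).not) ?_
  have h1 : RE (fun y : α × ℕ => FailW (c y.1) (b y.1) y.2 ∨
      FailW (winv (c y.1)) (winv (b y.1)) y.2) :=
    RE.or (re_FailW (hc.comp Primrec.fst) (hb.comp Primrec.fst) Primrec.snd)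
      (re_FailW (pr_winv (hc.comp Primrec.fst)) (pr_winv (hb.comp Primrec.fst)) Primrec.snd)
  exact (RE.all_lt h1).comp (Primrec.pair Primrec.id (pr_bw_abs hc))

end

end Pool.Agent.Lib_helper30
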