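import Pool.Agent.Lib_helper30.FB

set_option autoImplicit false

namespace Pool.Agent.Lib_helper30

open Filter Topology Set

/-- `x` is a product of conjugates of the elements of the list. -/
def Pr (l : List (ℝ ≃o ℝ)) (x : ℝ ≃o ℝ) : Prop := ∃ l', List.Forall₂ GC l l' ∧ l'.prod = x

/-- Some conjugates of the elements of the list have product one. -/
def Sv (l : List (ℝ ≃o ℝ)) : Prop := Pr l 1

lemma Pr_nil {x : ℝ ≃o ℝ} : Pr [] x ↔ x = 1 := by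
  constructor
  · rintro ⟨l', h, rfl⟩
    cases h
    rfl
  · rintro rfl
    exact ⟨[], List.Forall₂.nil, rfl⟩

lemma Pr_cons {a : ℝ ≃o ℝ} {l : List (ℝ ≃o ℝ)} {x : ℝ ≃o ℝ} :
    Pr (a :: l) x ↔ ∃ a' y, GC a a' ∧ Pr l y ∧ a' * y = x := by
  constructor
  · rintro ⟨l', h, rfl⟩
    cases h with
    | cons h1 h2 => exact ⟨_, _, h1, ⟨_, h2, rfl⟩, by rw [List.prod_cons]⟩
  · rintro ⟨a', y, h1, ⟨l', h2, rfl⟩, rfl⟩
    exact ⟨a' :: l', List.Forall₂.cons h1 h2, by rw [List.prod_cons]⟩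

lemma Pr_perm {l l' : List (ℝ ≃o ℝ)} (h : l.Perm l') : (∀ c ∈ l, c ∈ GG) → ∀ x, Pr l x → Pr l' x := by
  induction h with
  | nil => intro _ x hx; exact hx
  | cons a _ ih =>
    intro hG x hx
    rw [Pr_cons] at hx ⊢
    obtain ⟨a', y, h1, h2, h3⟩ := hx
    exact ⟨a', y, h1, ih (fun c hc => hG c (List.mem_cons_of_mem _ hc)) y h2, h3⟩
  | swap a b l =>
    intro hG x hx
    rw [Pr_cons] at hx
    obtain ⟨b', y, h1, h2, h3⟩ := hx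
    rw [Pr_cons] at h2
    obtain ⟨a', z, h4, h5, h6⟩ := h2
    rw [Pr_cons]
    refine ⟨b' * a' * b'⁻¹, b' * z, h4.conj (h1.mem (hG b List.mem_cons_self)), ?_, ?_⟩
    · rw [Pr_cons]; exact ⟨b', z, h1, h5, rfl⟩
    · rw [← h3, ← h6]; group
  | trans p1 _ ih1 ih2 =>
    intro hG x hx
    exact ih2 (fun c hc => hG c (p1.mem_iff.2 hc)) x (ih1 hG x hx)

lemma Sv.perm {l l' : List (ℝ ≃o ℝ)} (h : l.Perm l') (hG : ∀ c ∈ l, c ∈ GG) (hs : Sv l) : Sv l' :=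
  Pr_perm h hG 1 hs

lemma Pr.conj {l : List (ℝ ≃o ℝ)} {g : ℝ ≃o ℝ} (hg : g ∈ GG) : ∀ {x : ℝ ≃o ℝ}, Pr l x →
    Pr l (g * x * g⁻¹) := by
  induction l with
  | nil => intro x h; rw [Pr_nil] at h ⊢; rw [h]; group
  | cons a l ih =>
    intro x h
    rw [Pr_cons] at h ⊢
    obtain ⟨a', y, h1, h2, rfl⟩ := h
    exact ⟨g * a' * g⁻¹, g * y * g⁻¹, h1.conj hg, ih h2, by group⟩

lemma GC_one_iff {x : ℝ ≃o ℝ} : GC 1 x ↔ x = 1 := by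
  constructor
  · rintro ⟨g, _, rfl⟩; group
  · rintro rfl; exact GC.refl 1

lemma GC_to_one_iff {x : ℝ ≃o ℝ} : GC x 1 ↔ x = 1 :=
  ⟨fun h => GC_one_iff.1 h.symm, fun h => by rw [h]; exact GC.refl 1⟩

lemma Sv_one_cons {l : List (ℝ ≃o ℝ)} : Sv (1 :: l) ↔ Sv l := by
  unfold Sv
  rw [Pr_cons]
  constructor
  · rintro ⟨a', y, h1, h2, h3⟩
    rw [GC_one_iff] at h1
    rw [h1, one_mul] at h3
    rwa [h3] at h2
  · intro h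
    exact ⟨1, 1, GC.refl 1, h, one_mul 1⟩

lemma Sv_nil : Sv [] := Pr_nil.2 rfl

lemma Sv_singleton {c : ℝ ≃o ℝ} : Sv [c] ↔ c = 1 := by
  unfold Sv
  rw [Pr_cons]
  constructor
  · rintro ⟨a', y, h1, h2, h3⟩
    rw [Pr_nil] at h2
    rw [h2, mul_one] at h3
    rw [h3] at h1
    exact GC_to_one_iff.1 h1
  · intro h
    exact ⟨1, 1, by rw [h]; exact GC.refl 1, Pr_nil.2 rfl, one_mul 1⟩

lemma Sv_pair {c b : ℝ ≃o ℝ} : Sv [c, b] ↔ GC c⁻¹ b := by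
  unfold Sv
  rw [Pr_cons]
  constructor
  · rintro ⟨a', y, h1, h2, h3⟩
    rw [Pr_cons] at h2
    obtain ⟨b', z, h4, h5, h6⟩ := h2
    rw [Pr_nil] at h5
    rw [h5, mul_one] at h6
    rw [← h6] at h3
    have : b' = a'⁻¹ := eq_inv_of_mul_eq_one_right h3
    rw [this] at h4
    exact h1.inv.trans h4.symm
  · intro h
    exact ⟨c, c⁻¹, GC.refl c, Pr_cons.2 ⟨c⁻¹, 1, h.symm, Pr_nil.2 rfl, mul_one _⟩, mul_inv_cancel _⟩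

lemma Sv_of_Sv3 {a b c : ℝ ≃o ℝ} (h : Sv3 a b c) : Sv [a, b, c] := by
  obtain ⟨d₁, d₂, d₃, h1, h2, h3, h⟩ := h
  exact ⟨[d₁, d₂, d₃], List.Forall₂.cons h1 (List.Forall₂.cons h2 (List.Forall₂.cons h3
    List.Forall₂.nil)), by simp [← mul_assoc, h]⟩

/-- Merging. -/
lemma Sv.of_merge {a b b' : ℝ ≃o ℝ} {l : List (ℝ ≃o ℝ)} (hb : GC b b') (h : Sv (a * b' :: l)) :
    Sv (a :: b :: l) := by
  unfold Sv at *
  rw [Pr_cons] at h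
  obtain ⟨x, y, ⟨g, hg, rfl⟩, h2, h3⟩ := h
  rw [Pr_cons]
  refine ⟨g * a * g⁻¹, (g * b' * g⁻¹) * y, ⟨g, hg, rfl⟩, ?_, ?_⟩
  · rw [Pr_cons]; exact ⟨g * b' * g⁻¹, y, hb.conj hg, h2, rfl⟩
  · rw [← h3]; group

/-! ## End germs as functions -/

/-- Translation number at `-∞`. -/
noncomputable def bt (c : ℝ ≃o ℝ) : ℤ := by
  classical exact if h : ∃ p, EndBot c p then h.choose else 0

/-- Translation number at `+∞`. -/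
noncomputable def tp (c : ℝ ≃o ℝ) : ℤ := by
  classical exact if h : ∃ p, EndTop c p then h.choose else 0

lemma bt_spec {c : ℝ ≃o ℝ} (hc : c ∈ GG) : EndBot c (bt c) := by
  have h : ∃ p, EndBot c p := hc.2.1
  unfold bt
  rw [dif_pos h]
  exact h.choose_spec

lemma tp_spec {c : ℝ ≃o ℝ} (hc : c ∈ GG) : EndTop c (tp c) := by
  have h : ∃ p, EndTop c p := hc.2.2
  unfold tp
  rw [dif_pos h]
  exact h.choose_spec

lemma bt_eq {c : ℝ ≃o ℝ} {p : ℤ} (h : EndBot c p) : bt c = p := by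
  have h' : ∃ p, EndBot c p := ⟨p, h⟩
  unfold bt
  rw [dif_pos h']
  exact h'.choose_spec.unique h

lemma tp_eq {c : ℝ ≃o ℝ} {p : ℤ} (h : EndTop c p) : tp c = p := by
  have h' : ∃ p, EndTop c p := ⟨p, h⟩
  unfold tp
  rw [dif_pos h']
  exact h'.choose_spec.unique h

lemma bt_mul {a b : ℝ ≃o ℝ} (ha : a ∈ GG) (hb : b ∈ GG) : bt (a * b) = bt a + bt b :=
  bt_eq ((bt_spec ha).mul (bt_spec hb))

lemma tp_mul {a b : ℝ ≃o ℝ} (ha : a ∈ GG) (hb : b ∈ GG) : tp (a * b) = tp a + tp b :=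
  tp_eq ((tp_spec ha).mul (tp_spec hb))

lemma bt_inv {a : ℝ ≃o ℝ} (ha : a ∈ GG) : bt a⁻¹ = - bt a := bt_eq (bt_spec ha).inv
lemma tp_inv {a : ℝ ≃o ℝ} (ha : a ∈ GG) : tp a⁻¹ = - tp a := tp_eq (tp_spec ha).inv

lemma bt_one : bt 1 = 0 := bt_eq EndBot.one
lemma tp_one : tp 1 = 0 := tp_eq EndTop.one

lemma GC.bt {a b : ℝ ≃o ℝ} (h : GC a b) (ha : a ∈ GG) : bt b = bt a := by
  obtain ⟨g, hg, rfl⟩ := h
  rw [bt_mul (GG.mul_mem hg ha) (GG.inv_mem hg), bt_mul hg ha, bt_inv hg]; ring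

lemma GC.tp {a b : ℝ ≃o ℝ} (h : GC a b) (ha : a ∈ GG) : tp b = tp a := by
  obtain ⟨g, hg, rfl⟩ := h
  rw [tp_mul (GG.mul_mem hg ha) (GG.inv_mem hg), tp_mul hg ha, tp_inv hg]; ring

lemma Pr_ends {l : List (ℝ ≃o ℝ)} : (∀ c ∈ l, c ∈ GG) → ∀ {x : ℝ ≃o ℝ}, Pr l x →
    x ∈ GG ∧ bt x = (l.map bt).sum ∧ tp x = (l.map tp).sum := by
  induction l with
  | nil =>
    intro _ x h
    rw [Pr_nil] at h
    subst h
    exact ⟨GG.one_mem, by simp [bt_one], by simp [tp_one]⟩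
  | cons a l ih =>
    intro hG x h
    rw [Pr_cons] at h
    obtain ⟨a', y, h1, h2, rfl⟩ := h
    have ha : a ∈ GG := hG a List.mem_cons_self
    obtain ⟨h3, h4, h5⟩ := ih (fun c hc => hG c (List.mem_cons_of_mem _ hc)) h2
    refine ⟨GG.mul_mem (h1.mem ha) h3, ?_, ?_⟩
    · rw [bt_mul (h1.mem ha) h3, h4, h1.bt ha]; simp
    · rw [tp_mul (h1.mem ha) h3, h5, h1.tp ha]; simp

lemma Sv.ends {l : List (ℝ ≃o ℝ)} (hG : ∀ c ∈ l, c ∈ GG) (h : Sv l) :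
    (l.map bt).sum = 0 ∧ (l.map tp).sum = 0 := by
  obtain ⟨_, h2, h3⟩ := Pr_ends hG h
  rw [bt_one] at h2; rw [tp_one] at h3
  exact ⟨h2.symm, h3.symm⟩

/-! ## Signs -/

/-- The element moves some dyadic point to the right. -/
def HasP (c : ℝ ≃o ℝ) : Prop := ∃ t ∈ Dy, t < c t
/-- The element moves some dyadic point to the left. -/
def HasN (c : ℝ ≃o ℝ) : Prop := ∃ t ∈ Dy, c t < t

lemma hasP_of_real {c : ℝ ≃o ℝ} {t : ℝ} (h : t < c t) : HasP c := by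
  obtain ⟨s, hs, h1, h2⟩ := Dy_dense h
  refine ⟨s, hs, h2.trans (c.strictMono h1)⟩

lemma hasN_of_real {c : ℝ ≃o ℝ} {t : ℝ} (h : c t < t) : HasN c := by
  obtain ⟨s, hs, h1, h2⟩ := Dy_dense h
  exact ⟨s, hs, (c.strictMono h2).trans h1⟩

lemma ge_of_not_hasN {c : ℝ ≃o ℝ} (h : ¬ HasN c) (t : ℝ) : t ≤ c t := by
  by_contra hcon
  exact h (hasN_of_real (not_le.1 hcon))

lemma le_of_not_hasP {c : ℝ ≃o ℝ} (h : ¬ HasP c) (t : ℝ) : c t ≤ t := by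
  by_contra hcon
  exact h (hasP_of_real (not_le.1 hcon))

lemma hasP_or_hasN {c : ℝ ≃o ℝ} (h : c ≠ 1) : HasP c ∨ HasN c := by
  by_contra hcon
  push Not at hcon
  apply h
  ext t
  exact le_antisymm (le_of_not_hasP hcon.1 t) (ge_of_not_hasN hcon.2 t)

lemma HasP.ne_one {c : ℝ ≃o ℝ} (h : HasP c) : c ≠ 1 := by
  rintro rfl
  obtain ⟨t, _, ht⟩ := h
  exact lt_irrefl _ ht

lemma HasN.ne_one {c : ℝ ≃o ℝ} (h : HasN c) : c ≠ 1 := by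
  rintro rfl
  obtain ⟨t, _, ht⟩ := h
  exact lt_irrefl _ ht

lemma GC.hasP {a b : ℝ ≃o ℝ} (h : GC a b) : HasP a → HasP b := by
  obtain ⟨g, hg, rfl⟩ := h
  rintro ⟨t, ht, h1⟩
  refine ⟨g t, (PL2.dy_iff hg.1 t).2 ht, ?_⟩
  rw [mul_apply', mul_apply', inv_apply']
  exact g.strictMono h1

lemma GC.hasN {a b : ℝ ≃o ℝ} (h : GC a b) : HasN a → HasN b := by
  obtain ⟨g, hg, rfl⟩ := h
  rintro ⟨t, ht, h1⟩
  refine ⟨g t, (PL2.dy_iff hg.1 t).2 ht, ?_⟩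
  rw [mul_apply', mul_apply', inv_apply']
  exact g.strictMono h1

lemma hasP_inv {a : ℝ ≃o ℝ} : HasP a⁻¹ ↔ HasN a := by
  constructor
  · rintro ⟨t, ht, h⟩; exact ⟨t, ht, lt_inv_iff'.1 h⟩
  · rintro ⟨t, ht, h⟩; exact ⟨t, ht, lt_inv_iff'.2 h⟩

lemma hasN_inv {a : ℝ ≃o ℝ} : HasN a⁻¹ ↔ HasP a := by
  rw [← hasP_inv, inv_inv]

lemma hasP_rf {a : ℝ ≃o ℝ} : HasP (rf a) ↔ HasN a := by
  constructor
  · rintro ⟨t, ht, h⟩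
    rw [rf_apply] at h
    exact ⟨-t, Dy.neg_mem ht, by linarith⟩
  · rintro ⟨t, ht, h⟩
    refine ⟨-t, Dy.neg_mem ht, ?_⟩
    rw [rf_apply, neg_neg]; linarith

lemma hasN_rf {a : ℝ ≃o ℝ} : HasN (rf a) ↔ HasP a := by
  rw [← hasP_rf, rf_rf]

/-! ## Elements through prescribed points -/

lemma exists_GG_pt {x y : ℝ} (hx : x ∈ Dy) (hy : y ∈ Dy) : ∃ g ∈ GG, g x = y := by
  obtain ⟨n, hn⟩ := exists_nat_gt (max (-x) (-y))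
  have h1 : -(n : ℝ) < x := by have := le_max_left (-x) (-y); linarith
  have h2 : -(n : ℝ) < y := by have := le_max_right (-x) (-y); linarith
  obtain ⟨f, hf, hf1, hf2⟩ := ext_basic (Dy.neg_mem (Dy_nat n)) hx (Dy.neg_mem (Dy_nat n)) hy h1 h2
  have hb : ∃ p : ℤ, EndBot f p := by
    refine ⟨0, ?_⟩
    unfold EndBot
    filter_upwards [eventually_le_atBot (-(n : ℝ))] with t ht
    rw [hf1 t ht]; simp
  obtain ⟨g, hg, hg1, -⟩ := exists_ext_right hf hb hx 0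
  refine ⟨g, hg, ?_⟩
  rw [hg1 x le_rfl, hf2 x le_rfl]; ring

lemma exists_GG_cons {x y x' : ℝ} (hx : x ∈ Dy) (hy : y ∈ Dy) (hx' : x' ∈ Dy) {g : ℝ ≃o ℝ}
    (hg : g ∈ GG) (hxx : x < x') (hyy : y < g x') :
    ∃ f ∈ GG, f x = y ∧ ∀ t, x' ≤ t → f t = g t := by
  obtain ⟨f₁, hf₁, h1⟩ := exists_GG_pt hx hy
  obtain ⟨f, hf, hfa, hfb⟩ := interp hf₁.1 hg.1 hx hx' hxx (by rw [h1]; exact hyy)
  obtain ⟨p, hp⟩ := hf₁.2.1
  obtain ⟨q, hq⟩ := hg.2.2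
  refine ⟨f, ⟨hf, ⟨p, ?_⟩, ⟨q, ?_⟩⟩, by rw [hfa x le_rfl, h1], hfb⟩
  · filter_upwards [hp, eventually_le_atBot x] with t h3 h4
    rw [hfa t h4, h3]
  · filter_upwards [hq, eventually_ge_atTop x'] with t h3 h4
    rw [hfb t h4, h3]

lemma exists_GG_2 {x₁ x₂ y₁ y₂ : ℝ} (h1 : x₁ ∈ Dy) (h2 : x₂ ∈ Dy) (k1 : y₁ ∈ Dy) (k2 : y₂ ∈ Dy)
    (hx : x₁ < x₂) (hy : y₁ < y₂) : ∃ g ∈ GG, g x₁ = y₁ ∧ g x₂ = y₂ := by
  obtain ⟨g, hg, hg1⟩ := exists_GG_pt h2 k2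
  obtain ⟨f, hf, hf1, hf2⟩ := exists_GG_cons h1 k1 h2 hg hx (by rw [hg1]; exact hy)
  exact ⟨f, hf, hf1, by rw [hf2 _ le_rfl, hg1]⟩

lemma exists_GG_3 {x₁ x₂ x₃ y₁ y₂ y₃ : ℝ} (h1 : x₁ ∈ Dy) (h2 : x₂ ∈ Dy) (h3 : x₃ ∈ Dy)
    (k1 : y₁ ∈ Dy) (k2 : y₂ ∈ Dy) (k3 : y₃ ∈ Dy)
    (hx : x₁ < x₂) (hx' : x₂ < x₃) (hy : y₁ < y₂) (hy' : y₂ < y₃) :
    ∃ g ∈ GG, g x₁ = y₁ ∧ g x₂ = y₂ ∧ g x₃ = y₃ := by
  obtain ⟨g, hg, hg1, hg2⟩ := exists_GG_2 h2 h3 k2 k3 hx' hy'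
  obtain ⟨f, hf, hf1, hf2⟩ := exists_GG_cons h1 k1 h2 hg hx (by rw [hg1]; exact hy)
  exact ⟨f, hf, hf1, by rw [hf2 _ le_rfl, hg1], by rw [hf2 _ hx'.le, hg2]⟩

lemma exists_GG_4 {x₁ x₂ x₃ x₄ y₁ y₂ y₃ y₄ : ℝ} (h1 : x₁ ∈ Dy) (h2 : x₂ ∈ Dy) (h3 : x₃ ∈ Dy)
    (h4 : x₄ ∈ Dy) (k1 : y₁ ∈ Dy) (k2 : y₂ ∈ Dy) (k3 : y₃ ∈ Dy) (k4 : y₄ ∈ Dy)
    (hx : x₁ < x₂) (hx' : x₂ < x₃) (hx'' : x₃ < x₄) (hy : y₁ < y₂) (hy' : y₂ < y₃)
    (hy'' : y₃ < y₄) :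
    ∃ g ∈ GG, g x₁ = y₁ ∧ g x₂ = y₂ ∧ g x₃ = y₃ ∧ g x₄ = y₄ := by
  obtain ⟨g, hg, hg1, hg2, hg3⟩ := exists_GG_3 h2 h3 h4 k2 k3 k4 hx' hx'' hy' hy''
  obtain ⟨f, hf, hf1, hf2⟩ := exists_GG_cons h1 k1 h2 hg hx (by rw [hg1]; exact hy)
  exact ⟨f, hf, hf1, by rw [hf2 _ le_rfl, hg1], by rw [hf2 _ hx'.le, hg2],
    by rw [hf2 _ (hx'.trans hx'').le, hg3]⟩

lemma exists_nat_gt2 (x y : ℝ) : ∃ n : ℕ, x < n ∧ y < n := by
  obtain ⟨n, hn⟩ := exists_nat_gt (max x y)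
  exact ⟨n, lt_of_le_of_lt (le_max_left _ _) hn, lt_of_le_of_lt (le_max_right _ _) hn⟩

lemma exists_dy_lt2 (x y : ℝ) : ∃ d ∈ Dy, d < x ∧ d < y := by
  obtain ⟨n, h1, h2⟩ := exists_nat_gt2 (-x) (-y)
  exact ⟨-(n : ℝ), Dy.neg_mem (Dy_nat n), by linarith, by linarith⟩

lemma exists_dy_gt2 (x y : ℝ) : ∃ d ∈ Dy, x < d ∧ y < d := by
  obtain ⟨n, h1, h2⟩ := exists_nat_gt2 x y
  exact ⟨(n : ℝ), Dy_nat n, h1, h2⟩

/-- The merging lemma, one-sided case. -/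
lemma merge_pos {a b : ℝ ≃o ℝ} (ha : a ∈ GG) (hb : b ∈ GG) (hP : HasP b) (hN : ¬ HasN b) :
    ∃ g ∈ GG, HasP (a * (g * b * g⁻¹)) ∧ (HasN a → HasN (a * (g * b * g⁻¹))) := by
  obtain ⟨p, hp, hbp⟩ := hP
  have hbpD := (PL2.dy_iff hb.1 p).2 hp
  by_cases hNa : HasN a
  · obtain ⟨n, hn, han⟩ := hNa
    obtain ⟨m, hm, hm1, hm2⟩ := Dy_dense (lt_inv_iff'.2 han)
    obtain ⟨w, hw, hw1, hw2⟩ := exists_dy_gt2 m (a⁻¹ m)
    have hyD : b⁻¹ p ∈ Dy := (PL2.dy_iff (HH.inv_mem hb.1) p).2 hp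
    obtain ⟨g, hg, g1, g2, g3⟩ := exists_GG_3 hyD hp hbpD hn hm hw (inv_lt_iff'.2 hbp) hbp hm1 hw1
    refine ⟨g, hg, ⟨m, hm, ?_⟩, fun _ => ⟨n, hn, ?_⟩⟩
    · rw [mul_apply', mul_apply', mul_apply', inv_eq_of_apply g2, g3]
      exact inv_lt_iff'.1 hw2
    · rw [mul_apply', mul_apply', mul_apply', inv_eq_of_apply g1, apply_inv', g2]
      exact lt_inv_iff'.1 hm2
  · obtain ⟨w, hw, hw1, hw2⟩ := exists_dy_gt2 p (a⁻¹ p)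
    obtain ⟨g, hg, g1, g2⟩ := exists_GG_2 hp hbpD hp hw hbp hw1
    refine ⟨g, hg, ⟨p, hp, ?_⟩, fun h => absurd h hNa⟩
    rw [mul_apply', mul_apply', mul_apply', inv_eq_of_apply g1, g2]
    exact inv_lt_iff'.1 hw2

lemma rf_conj (g b : ℝ ≃o ℝ) : rf (g * b * g⁻¹) = rf g * rf b * (rf g)⁻¹ := by
  rw [rf_mul, rf_mul, rf_inv]

/-- Components of opposite signs are disjoint. -/
lemma sep_of_signs {b : ℝ ≃o ℝ} {p n : ℝ} (hp : p < b p) (hn : b n < n) (h : p < n) :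
    b p < b n ∧ p < b n := by
  have h1 := b.strictMono h
  exact ⟨h1, hp.trans h1⟩

/-- The merging lemma. -/
lemma merge {a b : ℝ ≃o ℝ} (ha : a ∈ GG) (hb : b ∈ GG) (h1 : b ≠ 1) :
    ∃ g ∈ GG, (HasP a ∨ HasP b → HasP (a * (g * b * g⁻¹))) ∧
      (HasN a ∨ HasN b → HasN (a * (g * b * g⁻¹))) := by
  by_cases hP : HasP b
  · by_cases hN : HasN b
    · obtain ⟨p, hp, hbp⟩ := hP
      obtain ⟨n, hn, hbn⟩ := hN
      have hbpD := (PL2.dy_iff hb.1 p).2 hp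
      have hbnD := (PL2.dy_iff hb.1 n).2 hn
      have hne : p ≠ n := by rintro rfl; exact lt_asymm hbp hbn
      rcases lt_or_gt_of_ne hne with h | h
      · -- order A
        have h2 := b.strictMono h
        obtain ⟨w₁, hw₁, w1, w2⟩ := exists_dy_gt2 0 (a⁻¹ 0)
        obtain ⟨z₂, hz₂, z1, z2⟩ := exists_dy_gt2 (w₁ + 1) (a (w₁ + 1))
        obtain ⟨g, hg, g1, g2, g3, g4⟩ := exists_GG_4 hp hbpD hbnD hn Dy.zero_mem hw₁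
          (Dy.add_mem hw₁ Dy.one_mem) hz₂ hbp h2 hbn w1 (by linarith) z1
        refine ⟨g, hg, fun _ => ⟨0, Dy.zero_mem, ?_⟩, fun _ => ⟨z₂, hz₂, ?_⟩⟩
        · rw [mul_apply', mul_apply', mul_apply', inv_eq_of_apply g1, g2]
          exact inv_lt_iff'.1 w2
        · rw [mul_apply', mul_apply', mul_apply', inv_eq_of_apply g4, g3]
          exact z2
      · -- order B
        have h2 := b.strictMono h
        have h3 : n < p := h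
        obtain ⟨w₂, hw₂, w1, w2⟩ := exists_dy_lt2 0 (a⁻¹ 0)
        obtain ⟨w₁, hw₁, z1, z2⟩ := exists_dy_gt2 1 (a⁻¹ 1)
        obtain ⟨g, hg, g1, g2, g3, g4⟩ := exists_GG_4 hbnD hn hp hbpD hw₂ Dy.zero_mem Dy.one_mem
          hw₁ hbn h3 hbp w1 zero_lt_one z1
        refine ⟨g, hg, fun _ => ⟨1, Dy.one_mem, ?_⟩, fun _ => ⟨0, Dy.zero_mem, ?_⟩⟩
        · rw [mul_apply', mul_apply', mul_apply', inv_eq_of_apply g3, g4]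
          exact inv_lt_iff'.1 z2
        · rw [mul_apply', mul_apply', mul_apply', inv_eq_of_apply g2, g1]
          exact lt_inv_iff'.1 w2
    · obtain ⟨g, hg, g1, g2⟩ := merge_pos ha hb hP hN
      exact ⟨g, hg, fun _ => g1, fun h => g2 (h.resolve_right hN)⟩
  · have hN : HasN b := (hasP_or_hasN h1).resolve_left hP
    obtain ⟨g, hg, g1, g2⟩ := merge_pos (rf_mem_GG ha) (rf_mem_GG hb) (hasP_rf.2 hN)
      (fun h => hP (hasN_rf.1 h))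
    have e : rf (a * (rf g * b * (rf g)⁻¹)) = rf a * (g * rf b * g⁻¹) := by
      rw [rf_mul, rf_conj, rf_rf]
    refine ⟨rf g, rf_mem_GG hg, ?_, ?_⟩
    · intro h
      rw [← hasN_rf, e]
      exact g2 (hasN_rf.2 (h.resolve_right hP))
    · intro _
      rw [← hasP_rf, e]
      exact g1

end Pool.Agent.Lib_helper30
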