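import Mathlib
import Pool.Agent.Lib_helper30.NFCrit

/-!
# Relations with a bounded number of syllables

Everything needed for: the closure of the set of real `q` such that `A`, `B_q` satisfy a
relation with at most `L` syllables consists of non-free algebraic numbers of bounded degree.
-/

set_option autoImplicit false

namespace Pool.Agent.Lib_helper30.Syl

open Matrix Filter Topology Polynomial

/-- the matrix `A` of the problem -/
def A : SpecialLinearGroup (Fin 2) ℝ := ⟨!![1, 1; 0, 1], by simp⟩

/-- the matrix `B_q` of the problem -/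
def B (q : ℝ) : SpecialLinearGroup (Fin 2) ℝ := ⟨!![1, 0; q, 1], by simp⟩

/-- `q` is non-free -/
def NonFree (q : ℝ) : Prop := ¬ Function.Injective (FreeGroup.lift ![A, B q])

/-- the alternating product `x ^ m₁ * y ^ m₂ * x ^ m₃ * ⋯` -/
def alt {G : Type*} [Group G] : G → G → List ℤ → G
  | _, _, [] => 1
  | x, y, m :: l => x ^ m * alt y x l

/-- real parameters with a relation of at most `L` syllables -/
def R (L : ℕ) : Set ℝ :=
  {q | ∃ l : List ℤ, l ≠ [] ∧ l.length ≤ L ∧ (∀ m ∈ l, m ≠ 0) ∧
    (alt A (B q) l = 1 ∨ alt (B q) A l = 1)}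

section ring

variable {S : Type*} [CommRing S]

/-- the nilpotent matrices -/
def E (x : S) : Bool → Matrix (Fin 2) (Fin 2) S
  | true => !![0, 1; 0, 0]
  | false => !![0, 0; x, 0]

/-- alternating product of matrices -/
def M (x : S) : Bool → List ℤ → Matrix (Fin 2) (Fin 2) S
  | _, [] => 1
  | t, m :: l => (1 + (m : S) • E x t) * M x (!t) l

/-- type of the letter following an alternating word -/
def endT {α : Type*} : Bool → List α → Bool
  | t, [] => t
  | t, _ :: l => endT (!t) l

/-- rows -/
def vv : Bool → Fin 2 → S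
  | true => ![0, 1]
  | false => ![1, 0]

/-- the hot index -/
def hi : Bool → Fin 2
  | true => 0
  | false => 1

/-- the hot entry -/
def hot (x : S) (t : Bool) (l : List ℤ) : S := ((vv (!t) : Fin 2 → S) ᵥ* M x t l) (hi (endT t l))

lemma endT_append {α : Type*} (t : Bool) (l l' : List α) :
    endT t (l ++ l') = endT (endT t l) l' := by
  induction l generalizing t with
  | nil => rfl
  | cons m l ih => exact ih (!t)

lemma M_append (x : S) (t : Bool) (l l' : List ℤ) :
    M x t (l ++ l') = M x t l * M x (endT t l) l' := by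
  induction l generalizing t with
  | nil => simp [M, endT]
  | cons m l ih => simp [M, endT, ih, mul_assoc]

lemma vecMul_E_true (x : S) (ρ : Fin 2 → S) : ρ ᵥ* E x true = ![0, ρ 0] := by
  ext i
  fin_cases i <;> simp [E, Matrix.vecMul, dotProduct, Fin.sum_univ_two]

lemma vecMul_E_false (x : S) (ρ : Fin 2 → S) : ρ ᵥ* E x false = ![ρ 1 * x, 0] := by
  ext i
  fin_cases i <;> simp [E, Matrix.vecMul, dotProduct, Fin.sum_univ_two]

lemma step_true (x : S) (m : ℤ) (ρ : Fin 2 → S) :
    ρ ᵥ* (1 + (m : S) • E x true) = ![ρ 0, ρ 1 + m * ρ 0] := by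
  rw [Matrix.vecMul_add, Matrix.vecMul_one, Matrix.vecMul_smul, vecMul_E_true]
  ext i
  fin_cases i <;> simp

lemma step_false (x : S) (m : ℤ) (ρ : Fin 2 → S) :
    ρ ᵥ* (1 + (m : S) • E x false) = ![ρ 0 + m * (ρ 1 * x), ρ 1] := by
  rw [Matrix.vecMul_add, Matrix.vecMul_one, Matrix.vecMul_smul, vecMul_E_false]
  ext i
  fin_cases i <;> simp

end ring

/-! ### the hot entry as a polynomial -/

/-- the invariant for the polynomial rows -/
def Inv : Bool → (Fin 2 → ℤ[X]) → ℕ → ℤ → Prop
  | true, ρ, k, c => ∃ r : ℕ, 2 * r ≤ k + 1 ∧ (ρ 0).natDegree ≤ r ∧ (ρ 0).coeff r = c ∧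
      (ρ 1).degree < r
  | false, ρ, k, c => ∃ r : ℕ, 2 * r ≤ k ∧ (ρ 1).natDegree ≤ r ∧ (ρ 1).coeff r = c ∧
      (ρ 0).natDegree ≤ r

lemma inv_step (t : Bool) (ρ : Fin 2 → ℤ[X]) (k : ℕ) (c m : ℤ) (h : Inv t ρ k c) :
    Inv (!t) (ρ ᵥ* (1 + (m : ℤ[X]) • E X t)) (k + 1) (c * m) := by
  cases t with
  | true =>
    obtain ⟨r, h1, h2, h3, h4⟩ := h
    rw [step_true]
    refine ⟨r, by omega, ?_, ?_, ?_⟩
    · change (ρ 1 + (m : ℤ[X]) * ρ 0).natDegree ≤ r
      have h5 : (ρ 1).natDegree ≤ r := natDegree_le_of_degree_le h4.le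
      have h6 : ((m : ℤ[X]) * ρ 0).natDegree ≤ r := by
        refine (natDegree_mul_le).trans ?_
        simp only [natDegree_intCast, zero_add]
        exact h2
      exact (natDegree_add_le _ _).trans (max_le h5 h6)
    · change (ρ 1 + (m : ℤ[X]) * ρ 0).coeff r = c * m
      rw [coeff_add, coeff_eq_zero_of_degree_lt h4, zero_add,
        show ((m : ℤ[X]) * ρ 0) = C m * ρ 0 by simp, coeff_C_mul, h3, mul_comm]
    · exact h2
  | false =>
    obtain ⟨r, h1, h2, h3, h4⟩ := h
    rw [step_false]
    refine ⟨r + 1, by omega, ?_, ?_, ?_⟩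
    · change (ρ 0 + (m : ℤ[X]) * (ρ 1 * X)).natDegree ≤ r + 1
      have h6 : ((m : ℤ[X]) * (ρ 1 * X)).natDegree ≤ r + 1 := by
        refine (natDegree_mul_le).trans ?_
        simp only [natDegree_intCast, zero_add]
        refine (natDegree_mul_le).trans ?_
        have := natDegree_X_le (R := ℤ)
        omega
      exact (natDegree_add_le _ _).trans (max_le (by omega) h6)
    · change (ρ 0 + (m : ℤ[X]) * (ρ 1 * X)).coeff (r + 1) = c * m
      rw [coeff_add, coeff_eq_zero_of_natDegree_lt (by omega), zero_add,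
        show ((m : ℤ[X]) * (ρ 1 * X)) = C m * (ρ 1 * X) by simp, coeff_C_mul, coeff_mul_X, h3,
        mul_comm]
    · change (ρ 1).degree < ((r + 1 : ℕ) : WithBot ℕ)
      refine lt_of_le_of_lt (natDegree_le_iff_degree_le.1 h2) ?_
      exact_mod_cast Nat.lt_succ_self r

lemma inv_M (l : List ℤ) : ∀ (t : Bool) (ρ : Fin 2 → ℤ[X]) (k : ℕ) (c : ℤ), Inv t ρ k c →
    Inv (endT t l) (ρ ᵥ* M X t l) (k + l.length) (c * l.prod) := by
  induction l with
  | nil => intro t ρ k c h; simpa [M, endT] using h
  | cons m l ih =>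
    intro t ρ k c h
    have := ih (!t) _ (k + 1) (c * m) (inv_step t ρ k c m h)
    simp only [M, endT, List.length_cons, List.prod_cons]
    rw [← Matrix.vecMul_vecMul]
    have e1 : k + (l.length + 1) = k + 1 + l.length := by ring
    have e2 : c * (m * l.prod) = c * m * l.prod := by ring
    rw [e1, e2]
    exact this

lemma inv_start (t : Bool) : Inv t (vv (!t)) 0 1 := by
  cases t with
  | true => exact ⟨0, by omega, by simp [vv], by simp [vv], by simp [vv]⟩
  | false => exact ⟨0, by omega, by simp [vv], by simp [vv], by simp [vv]⟩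

lemma hot_poly (t : Bool) (l : List ℤ) (hl : ∀ m ∈ l, m ≠ 0) :
    hot (X : ℤ[X]) t l ≠ 0 ∧ (hot (X : ℤ[X]) t l).natDegree ≤ (l.length + 1) / 2 := by
  have h := inv_M l t _ 0 1 (inv_start t)
  rw [zero_add, one_mul] at h
  have hp : l.prod ≠ 0 := by
    intro h0
    rw [List.prod_eq_zero_iff] at h0
    exact hl 0 h0 rfl
  unfold hot
  generalize endT t l = n at h ⊢
  cases n with
  | true =>
    obtain ⟨r, h1, h2, h3, h4⟩ := h
    simp only [hi]
    refine ⟨?_, by omega⟩
    intro h0
    rw [h0] at h3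
    exact hp (by simpa using h3.symm)
  | false =>
    obtain ⟨r, h1, h2, h3, h4⟩ := h
    simp only [hi]
    refine ⟨?_, by omega⟩
    intro h0
    rw [h0] at h3
    exact hp (by simpa using h3.symm)

lemma E_map (q : ℝ) (t : Bool) : (E (X : ℤ[X]) t).map (aeval q) = E q t := by
  cases t <;> · ext i j; fin_cases i <;> fin_cases j <;> simp [E]

lemma M_map (q : ℝ) (l : List ℤ) : ∀ t : Bool, (M (X : ℤ[X]) t l).map (aeval q) = M q t l := by
  induction l with
  | nil => intro t; simp [M]
  | cons m l ih =>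
    intro t
    simp only [M]
    rw [Matrix.map_mul, ih]
    congr 1
    rw [← E_map q t]
    ext i j
    by_cases hij : i = j <;> simp [hij]

lemma hot_map (q : ℝ) (t : Bool) (l : List ℤ) : aeval q (hot (X : ℤ[X]) t l) = hot q t l := by
  unfold hot
  rw [← M_map q l t]
  cases t <;> simp [vv, Matrix.vecMul, dotProduct, Fin.sum_univ_two]

/-- a zero of a hot entry is algebraic of small degree -/
lemma algebraic_of_hot {q : ℝ} {t : Bool} {l : List ℤ} (hl : ∀ m ∈ l, m ≠ 0)
    (h : hot q t l = 0) : IsAlgebraic ℚ q ∧ (minpoly ℚ q).natDegree ≤ (l.length + 1) / 2 := by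
  obtain ⟨h1, h2⟩ := hot_poly t l hl
  set p : ℤ[X] := hot (X : ℤ[X]) t l with hp
  have h3 : aeval q p = 0 := by rw [hp, hot_map, h]
  set P : ℚ[X] := p.map (Int.castRingHom ℚ) with hP
  have hP0 : P ≠ 0 := by
    rw [hP, Polynomial.map_ne_zero_iff (RingHom.injective_int _)]
    exact h1
  have h4 : aeval q P = 0 := by
    rw [hP, ← h3]
    have e : (algebraMap ℚ ℝ).comp (Int.castRingHom ℚ) = Int.castRingHom ℝ := RingHom.ext_int _ _
    simp [aeval_def, eval₂_map, e]
  have hPd : P.natDegree ≤ (l.length + 1) / 2 := by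
    rw [hP]
    exact (natDegree_map_le).trans h2
  refine ⟨⟨P, hP0, h4⟩, ?_⟩
  have h5 := minpoly.dvd ℚ q h4
  exact (natDegree_le_of_dvd h5 hP0).trans hPd

/-! ### limits of alternating products -/

/-- limit of an alternating product in which some exponents (`none`) tend to infinity -/
def N (q : ℝ) : Bool → List (Option ℤ) → Matrix (Fin 2) (Fin 2) ℝ
  | _, [] => 1
  | t, some m :: l => (1 + (m : ℝ) • E q t) * N q (!t) l
  | t, none :: l => E q t * N q (!t) l

lemma dichotomy (U : Ultrafilter ℝ) (f : ℝ → ℤ) :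
    (∃ c, ∀ᶠ x in U, f x = c) ∨ Tendsto (fun x => ((f x : ℝ))⁻¹) U (𝓝 0) := by
  by_cases h : ∃ c, ∀ᶠ x in U, f x = c
  · exact Or.inl h
  · right
    push Not at h
    have h1 : Tendsto f U cofinite := by
      rw [tendsto_def]
      intro s hs
      have hfin : sᶜ.Finite := hs
      have h2 : ∀ c ∈ sᶜ, ∀ᶠ x in U, f x ≠ c := by
        intro c _
        exact h c
      have h3 := (Filter.eventually_all_finite hfin).2 h2
      filter_upwards [h3] with x hx
      by_contra h4
      exact hx (f x) h4 rfl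
    have h2 : Tendsto (fun x => (f x : ℝ)) U (cocompact ℝ) :=
      Int.tendsto_coe_cofinite.comp h1
    rw [← Metric.cobounded_eq_cocompact] at h2
    exact tendsto_inv₀_cobounded.comp h2

lemma E_tendsto (U : Filter ℝ) (q : ℝ) (hU : U ≤ 𝓝 q) (t : Bool) :
    Tendsto (fun x => E x t) U (𝓝 (E q t)) := by
  cases t with
  | true => exact tendsto_const_nhds
  | false =>
    refine tendsto_pi_nhds.2 fun i => tendsto_pi_nhds.2 fun j => ?_
    fin_cases i <;> fin_cases j
    · exact tendsto_const_nhds
    · exact tendsto_const_nhds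
    · exact hU
    · exact tendsto_const_nhds

lemma limit (U : Ultrafilter ℝ) (q : ℝ) (hU : (U : Filter ℝ) ≤ 𝓝 q) (fs : List (ℝ → ℤ)) :
    ∀ t : Bool, (∀ f ∈ fs, ∀ᶠ x in U, f x ≠ 0) →
    ∃ (os : List (Option ℤ)) (s : ℝ → ℝ), os.length = fs.length ∧
      (∀ c, some c ∈ os → c ≠ 0) ∧
      Tendsto (fun x => s x • M x t (fs.map (fun f => f x))) U (𝓝 (N q t os)) := by
  induction fs with
  | nil =>
    intro t _
    exact ⟨[], fun _ => 1, rfl, by simp, by simp [M, N]⟩
  | cons f fs ih =>
    intro t hf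
    obtain ⟨os, s, h1, h2, h3⟩ := ih (!t) (fun g hg => hf g (List.mem_cons_of_mem _ hg))
    have hE := E_tendsto U q hU t
    rcases dichotomy U f with ⟨c, hc⟩ | hlim
    · have hc0 : c ≠ 0 := by
        obtain ⟨x, hx1, hx2⟩ := (hc.and (hf f (List.mem_cons_self ..))).exists
        rw [← hx1]
        exact hx2
      refine ⟨some c :: os, s, by simp [h1], ?_, ?_⟩
      · intro c' hc'
        rcases List.mem_cons.1 hc' with h | h
        · rw [Option.some_inj.1 h]
          exact hc0
        · exact h2 c' h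
      · have h4 : Tendsto (fun x => (1 + (c : ℝ) • E x t) * (s x • M x (!t) (fs.map fun f => f x)))
            U (𝓝 ((1 + (c : ℝ) • E q t) * N q (!t) os)) :=
          (tendsto_const_nhds.add (hE.const_smul _)).mul h3
        refine h4.congr' ?_
        filter_upwards [hc] with x hx
        simp only [List.map_cons, M, hx, Matrix.mul_smul]
    · refine ⟨none :: os, fun x => (f x : ℝ)⁻¹ * s x, by simp [h1], ?_, ?_⟩
      · intro c' hc'
        rcases List.mem_cons.1 hc' with h | h
        · simp at h
        · exact h2 c' h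
      · have h4 : Tendsto (fun x => ((f x : ℝ)⁻¹ • (1 : Matrix (Fin 2) (Fin 2) ℝ) + E x t) *
            (s x • M x (!t) (fs.map fun f => f x))) U
            (𝓝 (((0 : ℝ) • (1 : Matrix (Fin 2) (Fin 2) ℝ) + E q t) * N q (!t) os)) :=
          ((hlim.smul_const _).add hE).mul h3
        rw [zero_smul, zero_add] at h4
        refine h4.congr' ?_
        filter_upwards [hf f (List.mem_cons_self ..)] with x hx
        have hx' : (f x : ℝ) ≠ 0 := by exact_mod_cast hx
        simp only [List.map_cons, M]
        rw [mul_smul, ← Matrix.mul_smul, ← Matrix.smul_mul, smul_add, smul_smul,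
          inv_mul_cancel₀ hx', one_smul]

/-- the hot entry of a limit product -/
lemma split (q : ℝ) (hq : q ≠ 0) (os : List (Option ℤ)) :
    ∀ (t0 : Bool) (acc : List ℤ), (∀ m ∈ acc, m ≠ 0) → (∀ c, some c ∈ os → c ≠ 0) →
    (((vv (!t0) : Fin 2 → ℝ) ᵥ* M q t0 acc) ᵥ* N q (endT t0 acc) os)
      (hi (endT (endT t0 acc) os)) = 0 →
    ∃ (t1 : Bool) (W : List ℤ), (∀ m ∈ W, m ≠ 0) ∧ W.length ≤ acc.length + os.length ∧
      hot q t1 W = 0 := by
  induction os with
  | nil =>
    intro t0 acc hacc _ h
    refine ⟨t0, acc, hacc, by simp, ?_⟩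
    simpa [N, endT, hot] using h
  | cons o os ih =>
    intro t0 acc hacc hos h
    cases o with
    | some c =>
      have h1 := ih t0 (acc ++ [c]) (by
        intro m hm
        rcases List.mem_append.1 hm with h' | h'
        · exact hacc m h'
        · rw [List.mem_singleton.1 h']
          exact hos c (List.mem_cons_self ..)) (fun c' hc' => hos c' (List.mem_cons_of_mem _ hc'))
        (by
          rw [M_append, endT_append]
          simp only [M, endT, N, mul_one] at h ⊢
          rw [← Matrix.vecMul_vecMul]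
          rw [← Matrix.vecMul_vecMul] at h
          exact h)
      obtain ⟨t1, W, h2, h3, h4⟩ := h1
      refine ⟨t1, W, h2, ?_, h4⟩
      simp only [List.length_append, List.length_cons, List.length_nil] at h3 ⊢
      omega
    | none =>
      simp only [N, endT] at h
      rw [← Matrix.vecMul_vecMul] at h
      have key : (hot q t0 acc = 0) ∨ (((vv (!(!endT t0 acc)) : Fin 2 → ℝ) ᵥ* N q (!endT t0 acc) os)
          (hi (endT (!endT t0 acc) os)) = 0) := by
        unfold hot
        set ρ : Fin 2 → ℝ := (vv (!t0) : Fin 2 → ℝ) ᵥ* M q t0 acc with hρ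
        rw [Bool.not_not]
        generalize endT t0 acc = n at h ⊢
        cases n with
        | true =>
          rw [vecMul_E_true] at h
          have e : (![0, ρ 0] : Fin 2 → ℝ) = ρ 0 • vv true := by
            ext i; fin_cases i <;> simp [vv]
          rw [e, Matrix.smul_vecMul, Pi.smul_apply, smul_eq_mul, mul_eq_zero] at h
          exact h
        | false =>
          rw [vecMul_E_false] at h
          have e : (![ρ 1 * q, 0] : Fin 2 → ℝ) = (ρ 1 * q) • vv false := by
            ext i; fin_cases i <;> simp [vv]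
          rw [e, Matrix.smul_vecMul, Pi.smul_apply, smul_eq_mul, mul_eq_zero, mul_eq_zero] at h
          rcases h with (h | h) | h
          · exact Or.inl h
          · exact absurd h hq
          · exact Or.inr h
      rcases key with h1 | h1
      · exact ⟨t0, acc, hacc, by simp, h1⟩
      · obtain ⟨t1, W, h2, h3, h4⟩ := ih (!endT t0 acc) [] (by simp)
          (fun c' hc' => hos c' (List.mem_cons_of_mem _ hc')) (by simpa [M, endT] using h1)
        refine ⟨t1, W, h2, ?_, h4⟩
        simp only [List.length_cons, List.length_nil] at h3 ⊢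
        omega

/-- parameters for which some hot entry of a word with at most `L` syllables vanishes -/
def Z (L : ℕ) : Set ℝ :=
  {q | ∃ (t : Bool) (l : List ℤ), (∀ m ∈ l, m ≠ 0) ∧ l.length ≤ L ∧ hot q t l = 0}

lemma zero_mem_Z {L : ℕ} (hL : 1 ≤ L) : (0 : ℝ) ∈ Z L := by
  refine ⟨false, [1], by simp, by simpa using hL, ?_⟩
  simp [hot, M, endT, hi, vv, E, Matrix.vecMul, dotProduct, Fin.sum_univ_two]

lemma Z_zero : Z 0 = ∅ := by
  ext q
  refine ⟨?_, fun h => h.elim⟩
  rintro ⟨t, l, _, hl, hz⟩
  exfalso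
  revert hz
  have : l = [] := List.length_eq_zero_iff.1 (by omega)
  subst this
  cases t <;> simp [hot, M, endT, hi, vv]

theorem isClosed_Z (L : ℕ) : IsClosed (Z L) := by
  rcases Nat.eq_zero_or_pos L with h0 | hL
  · subst h0; rw [Z_zero]; exact isClosed_empty
  rw [← closure_subset_iff_isClosed]
  intro q hq
  by_cases hq0 : q = 0
  · subst hq0; exact zero_mem_Z hL
  rw [mem_closure_iff_ultrafilter] at hq
  obtain ⟨U, hUZ, hU⟩ := hq
  -- choose the words
  have hch : ∀ x : ℝ, ∃ (t : Bool) (l : List ℤ), x ∈ Z L →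
      (∀ m ∈ l, m ≠ 0) ∧ l.length ≤ L ∧ hot x t l = 0 := by
    intro x
    by_cases hx : x ∈ Z L
    · obtain ⟨t, l, h⟩ := hx
      exact ⟨t, l, fun _ => h⟩
    · exact ⟨true, [], fun h => absurd h hx⟩
  choose t l htl using hch
  -- the type and the length are constant
  have h1 : ∃ p : Bool × Fin (L + 1), ∀ᶠ x in U, x ∈ Z L ∧ t x = p.1 ∧ (l x).length = p.2 := by
    by_contra hne
    push Not at hne
    have h2 : ∀ p : Bool × Fin (L + 1), ∀ᶠ x in U, ¬ (x ∈ Z L ∧ t x = p.1 ∧ (l x).length = p.2) := by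
      intro p
      filter_upwards [hne p] with x hx h
      exact hx h.1 h.2.1 h.2.2
    have h3 := Filter.eventually_all.2 h2
    obtain ⟨x, hx1, hx2⟩ := (h3.and hUZ).exists
    have h4 := htl x hx2
    exact hx1 (t x, ⟨(l x).length, by omega⟩) ⟨hx2, rfl, rfl⟩
  obtain ⟨⟨t0, k⟩, hk⟩ := h1
  set fs : List (ℝ → ℤ) := List.ofFn (fun j : Fin k => fun x => (l x).getD j 0) with hfs
  have hmap : ∀ x, (l x).length = k → fs.map (fun f => f x) = l x := by
    intro x hx
    apply List.ext_getElem
    · simp [hfs, hx]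
    · intro i h5 h6
      simp [hfs, List.getElem?_eq_getElem h6]
  obtain ⟨os, s, h2, h3, h4⟩ := limit U q hU fs t0 (by
    intro f hf
    filter_upwards [hk] with x hx
    have hm := hmap x hx.2.2
    have h5 : f x ∈ l x := by
      rw [← hm]
      exact List.mem_map.2 ⟨f, hf, rfl⟩
    exact (htl x hx.1).1 _ h5)
  have h5 : (((vv (!t0) : Fin 2 → ℝ) ᵥ* N q t0 os) (hi (endT t0 os))) = 0 := by
    have h6 : Tendsto (fun x => ((vv (!t0) : Fin 2 → ℝ) ᵥ*
        (s x • M x t0 (fs.map (fun f => f x)))) (hi (endT t0 os))) U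
        (𝓝 (((vv (!t0) : Fin 2 → ℝ) ᵥ* N q t0 os) (hi (endT t0 os)))) := by
      have hc : Continuous (fun m : Matrix (Fin 2) (Fin 2) ℝ =>
          ((vv (!t0) : Fin 2 → ℝ) ᵥ* m) (hi (endT t0 os))) := by
        have : Continuous (fun m : Matrix (Fin 2) (Fin 2) ℝ => ((vv (!t0) : Fin 2 → ℝ) ᵥ* m)) :=
          continuous_const.matrix_vecMul continuous_id
        exact (continuous_apply _).comp this
      exact (hc.tendsto _).comp h4
    have h7 : Tendsto (fun x => ((vv (!t0) : Fin 2 → ℝ) ᵥ*
        (s x • M x t0 (fs.map (fun f => f x)))) (hi (endT t0 os))) U (𝓝 0) := by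
      refine tendsto_const_nhds.congr' ?_
      filter_upwards [hk] with x hx
      have h8 := (htl x hx.1).2.2
      have hm := hmap x hx.2.2
      have hlen : ∀ (t : Bool), endT t os = endT t (l x) := by
        have : os.length = (l x).length := by
          rw [h2, hx.2.2]; simp [hfs]
        clear * - this
        generalize l x = l' at this
        induction os generalizing l' with
        | nil =>
          intro t
          have : l' = [] := List.length_eq_zero_iff.1 this.symm
          subst this; rfl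
        | cons o os ih =>
          intro t
          cases l' with
          | nil => simp at this
          | cons m l' =>
            simp only [endT]
            exact ih l' (by simpa using this) (!t)
      rw [hm, Matrix.vecMul_smul, Pi.smul_apply, hlen t0]
      have ht : t x = t0 := hx.2.1
      rw [ht] at h8
      unfold hot at h8
      rw [h8, smul_zero]
    exact tendsto_nhds_unique h6 h7
  obtain ⟨t1, W, h6, h7, h8⟩ := split q hq0 os t0 [] (by simp) h3 (by simpa [M, endT] using h5)
  refine ⟨t1, W, h6, ?_, h8⟩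
  have : os.length = k := by rw [h2]; simp [hfs]
  have hk2 := k.2
  simp only [List.length_nil, zero_add] at h7
  omega

end Pool.Agent.Lib_helper30.Syl
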