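import Mathlib
import Pool.Agent.Lib_helper30.Syl

/-!
# Relations with a bounded number of syllables: the group part
-/

set_option autoImplicit false

namespace Pool.Agent.Lib_helper30.Syl

open Matrix Filter Topology Polynomial

section ring

variable {S : Type*} [CommRing S]

/-- the two generators over a ring -/
def gen (x : S) : Bool → SpecialLinearGroup (Fin 2) S
  | true => ⟨!![1, 1; 0, 1], by simp⟩
  | false => ⟨!![1, 0; x, 1], by simp⟩

lemma gen_coe (x : S) (t : Bool) : ((gen x t : SpecialLinearGroup (Fin 2) S) :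
    Matrix (Fin 2) (Fin 2) S) = 1 + E x t := by
  cases t <;> simp [gen, E, Matrix.one_fin_two]

lemma E_sq (x : S) (t : Bool) : E x t * E x t = 0 := by
  cases t <;> · ext i j; fin_cases i <;> fin_cases j <;> simp [E, Matrix.mul_apply]

lemma gen_inv_coe (x : S) (t : Bool) : (((gen x t)⁻¹ : SpecialLinearGroup (Fin 2) S) :
    Matrix (Fin 2) (Fin 2) S) = 1 - E x t := by
  rw [Matrix.SpecialLinearGroup.coe_inv, gen_coe, Matrix.adjugate_fin_two]
  cases t <;> · ext i j; fin_cases i <;> fin_cases j <;> simp [E]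

lemma gen_zpow_coe (x : S) (t : Bool) (n : ℤ) :
    (((gen x t) ^ n : SpecialLinearGroup (Fin 2) S) : Matrix (Fin 2) (Fin 2) S) =
      1 + (n : S) • E x t := by
  induction n using Int.induction_on with
  | zero => simp
  | succ i ih =>
    rw [_root_.zpow_add_one, Matrix.SpecialLinearGroup.coe_mul, ih, gen_coe]
    rw [add_mul, one_mul, mul_add, mul_one, Matrix.smul_mul, E_sq, smul_zero, add_zero]
    push_cast
    rw [add_smul, one_smul]
    abel
  | pred i ih =>
    rw [_root_.zpow_sub_one, Matrix.SpecialLinearGroup.coe_mul, ih, gen_inv_coe]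
    rw [add_mul, one_mul, mul_sub, mul_one, Matrix.smul_mul, E_sq, smul_zero, sub_zero]
    push_cast
    rw [sub_smul, one_smul]
    abel

lemma alt_coe (x : S) (l : List ℤ) : ∀ t : Bool,
    ((alt (gen x t) (gen x (!t)) l : SpecialLinearGroup (Fin 2) S) :
      Matrix (Fin 2) (Fin 2) S) = M x t l := by
  induction l with
  | nil => intro t; simp [alt, M]
  | cons m l ih =>
    intro t
    have := ih (!t)
    rw [Bool.not_not] at this
    simp only [alt, M]
    rw [Matrix.SpecialLinearGroup.coe_mul, gen_zpow_coe, this]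

lemma vv_hi (t : Bool) : (vv t : Fin 2 → S) (hi t) = 0 := by
  cases t <;> simp [vv, hi]

lemma vv_step (x : S) (t : Bool) (m : ℤ) :
    (vv t : Fin 2 → S) ᵥ* (1 + (m : S) • E x t) = vv t := by
  cases t
  · rw [step_false]; ext i; fin_cases i <;> simp [vv]
  · rw [step_true]; ext i; fin_cases i <;> simp [vv]

lemma hot_of_eq_one (x : S) (t : Bool) (l : List ℤ) (hl : l ≠ []) (h : M x t l = 1) :
    ∃ (t' : Bool) (l' : List ℤ), (∀ m ∈ l', m ∈ l) ∧ l'.length ≤ l.length ∧ hot x t' l' = 0 := by
  by_cases ht : endT t l = t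
  · cases l with
    | nil => exact absurd rfl hl
    | cons m l' =>
      refine ⟨!t, l', fun m' hm' => List.mem_cons_of_mem _ hm', by simp, ?_⟩
      have h1 : (vv t : Fin 2 → S) ᵥ* M x (!t) l' = vv t := by
        have h2 : (vv t : Fin 2 → S) ᵥ* M x t (m :: l') = vv t := by rw [h, Matrix.vecMul_one]
        simp only [M] at h2
        rwa [← Matrix.vecMul_vecMul, vv_step] at h2
      unfold hot
      rw [Bool.not_not, h1]
      simp only [endT] at ht
      rw [ht]
      exact vv_hi t
  · refine ⟨t, l, fun _ h => h, le_refl _, ?_⟩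
    unfold hot
    have h1 : endT t l = !t := by
      cases h2 : endT t l <;> cases t <;> simp_all
    rw [h, Matrix.vecMul_one, h1]
    exact vv_hi _

end ring

lemma alt_map {G H : Type*} [Group G] [Group H] (f : G →* H) (l : List ℤ) :
    ∀ x y : G, f (alt x y l) = alt (f x) (f y) l := by
  induction l with
  | nil => intro x y; simp [alt]
  | cons m l ih => intro x y; simp [alt, ih]

/-- the free generators -/
def fgen : Bool → FreeGroup (Fin 2)
  | true => FreeGroup.of 0
  | false => FreeGroup.of 1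

lemma alt_ne_one (t : Bool) (l : List ℤ) (hl : l ≠ []) (hm : ∀ m ∈ l, m ≠ 0) :
    alt (fgen t) (fgen (!t)) l ≠ 1 := by
  intro h
  let φ : FreeGroup (Fin 2) →* SpecialLinearGroup (Fin 2) ℤ[X] :=
    FreeGroup.lift ![gen X true, gen X false]
  have hφ : ∀ s, φ (fgen s) = gen X s := by
    intro s
    cases s <;> simp [φ, fgen]
  have h1 := congrArg φ h
  rw [alt_map, hφ, hφ, map_one] at h1
  have h2 := alt_coe (X : ℤ[X]) l t
  rw [h1, Matrix.SpecialLinearGroup.coe_one] at h2
  obtain ⟨t', l', h3, h4, h5⟩ := hot_of_eq_one (X : ℤ[X]) t l hl h2.symm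
  exact (hot_poly t' l' (fun m hm' => hm m (h3 m hm'))).1 h5

/-- being trivial or an alternating product -/
def Alt (w : FreeGroup (Fin 2)) : Prop :=
  w = 1 ∨ ∃ (t : Bool) (l : List ℤ), l ≠ [] ∧ (∀ m ∈ l, m ≠ 0) ∧ w = alt (fgen t) (fgen (!t)) l

lemma Alt_step (w : FreeGroup (Fin 2)) (hw : Alt w) (s : Bool) (k : ℤ) (hk : k ≠ 0) :
    Alt (fgen s ^ k * w) := by
  rcases hw with rfl | ⟨t, l, hl, hm, rfl⟩
  · exact Or.inr ⟨s, [k], by simp, by simpa using hk, by simp [alt]⟩
  · cases l with
    | nil => exact absurd rfl hl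
    | cons m l =>
      by_cases hst : s = t
      · subst hst
        simp only [alt]
        rw [← mul_assoc, ← _root_.zpow_add]
        by_cases h0 : k + m = 0
        · rw [h0, zpow_zero, one_mul]
          cases l with
          | nil => left; simp [alt]
          | cons m' l =>
            right
            refine ⟨!s, m' :: l, by simp, fun x hx => hm x (List.mem_cons_of_mem _ hx), ?_⟩
            rw [Bool.not_not]
        · right
          refine ⟨s, (k + m) :: l, by simp, ?_, by simp [alt]⟩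
          intro x hx
          rcases List.mem_cons.1 hx with rfl | hx
          · exact h0
          · exact hm x (List.mem_cons_of_mem _ hx)
      · have hst' : t = !s := by cases s <;> cases t <;> simp_all
        subst hst'
        right
        refine ⟨s, k :: m :: l, by simp, ?_, ?_⟩
        · intro x hx
          rcases List.mem_cons.1 hx with rfl | hx
          · exact hk
          · exact hm x hx
        · rw [Bool.not_not]
          simp [alt]

lemma Alt_all (w : FreeGroup (Fin 2)) : Alt w := by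
  have key : ∀ L : List (Fin 2 × Bool), Alt (FreeGroup.mk L) := by
    intro L
    induction L with
    | nil => exact Or.inl rfl
    | cons p L ih =>
      have h1 : FreeGroup.mk (p :: L) = FreeGroup.mk [p] * FreeGroup.mk L := by
        rw [FreeGroup.mul_mk]; rfl
      have h2 : ∃ (s : Bool) (k : ℤ), k ≠ 0 ∧ FreeGroup.mk [p] = fgen s ^ k := by
        obtain ⟨i, b⟩ := p
        have h3 : ∃ s, FreeGroup.of i = fgen s := by
          fin_cases i
          · exact ⟨true, rfl⟩
          · exact ⟨false, rfl⟩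
        obtain ⟨s, hs⟩ := h3
        cases b with
        | true => exact ⟨s, 1, one_ne_zero, by rw [zpow_one, ← hs]; rfl⟩
        | false =>
          refine ⟨s, -1, by norm_num, ?_⟩
          rw [_root_.zpow_neg_one, ← hs]
          rfl
      obtain ⟨s, k, hk, h4⟩ := h2
      rw [h1, h4]
      exact Alt_step _ ih s k hk
  have := key w.toWord
  rwa [FreeGroup.mk_toWord] at this

lemma lift_fgen (q : ℝ) (s : Bool) : FreeGroup.lift ![A, B q] (fgen s) = gen q s := by
  cases s
  · simp only [fgen, FreeGroup.lift_apply_of]; rfl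
  · simp only [fgen, FreeGroup.lift_apply_of]; rfl

lemma mem_R_iff (q : ℝ) (L : ℕ) : q ∈ R L ↔ ∃ (t : Bool) (l : List ℤ), l ≠ [] ∧ l.length ≤ L ∧
    (∀ m ∈ l, m ≠ 0) ∧ alt (gen q t) (gen q (!t)) l = 1 := by
  constructor
  · rintro ⟨l, h1, h2, h3, h4 | h4⟩
    · exact ⟨true, l, h1, h2, h3, h4⟩
    · exact ⟨false, l, h1, h2, h3, h4⟩
  · rintro ⟨t, l, h1, h2, h3, h4⟩
    refine ⟨l, h1, h2, h3, ?_⟩
    cases t
    · exact Or.inr h4
    · exact Or.inl h4

lemma nonFree_of_mem_R {q : ℝ} {L : ℕ} (h : q ∈ R L) : NonFree q := by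
  rw [mem_R_iff] at h
  obtain ⟨t, l, h1, h2, h3, h4⟩ := h
  intro hinj
  apply alt_ne_one t l h1 h3
  apply hinj
  rw [alt_map, lift_fgen, lift_fgen, h4, map_one]

lemma mem_R_of_nonFree {q : ℝ} (h : NonFree q) : ∃ L, q ∈ R L := by
  unfold NonFree at h
  rw [injective_iff_map_eq_one] at h
  push Not at h
  obtain ⟨w, hw1, hw2⟩ := h
  rcases Alt_all w with h0 | ⟨t, l, hl, hm, rfl⟩
  · exact absurd h0 hw2
  · rw [alt_map, lift_fgen, lift_fgen] at hw1
    exact ⟨l.length, (mem_R_iff q _).2 ⟨t, l, hl, le_refl _, hm, hw1⟩⟩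

lemma R_subset_Z (L : ℕ) : R L ⊆ Z L := by
  intro q hq
  rw [mem_R_iff] at hq
  obtain ⟨t, l, h1, h2, h3, h4⟩ := hq
  have h5 := alt_coe q l t
  rw [h4, Matrix.SpecialLinearGroup.coe_one] at h5
  obtain ⟨t', l', h6, h7, h8⟩ := hot_of_eq_one q t l h1 h5.symm
  exact ⟨t', l', fun m hm => h3 m (h6 m hm), h7.trans h2, h8⟩

/-! ### from a vanishing hot entry to a relation -/

lemma alt_append (q : ℝ) (l l' : List ℤ) : ∀ t : Bool,
    alt (gen q t) (gen q (!t)) (l ++ l') =
      alt (gen q t) (gen q (!t)) l * alt (gen q (endT t l)) (gen q (!endT t l)) l' := by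
  induction l with
  | nil => intro t; simp [alt, endT]
  | cons m l ih =>
    intro t
    have := ih (!t)
    rw [Bool.not_not] at this
    simp only [List.cons_append, alt, endT]
    rw [this, mul_assoc]

/-- exponents of the inverse word -/
def rv (l : List ℤ) : List ℤ := l.reverse.map (fun m => -m)

lemma rv_cons (m : ℤ) (l : List ℤ) : rv (m :: l) = rv l ++ [-m] := by
  simp [rv]

lemma alt_inv (q : ℝ) (l : List ℤ) : ∀ t : Bool,
    alt (gen q (!endT t l)) (gen q (!!endT t l)) (rv l) = (alt (gen q t) (gen q (!t)) l)⁻¹ ∧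
      endT (!endT t l) (rv l) = !t := by
  induction l with
  | nil => intro t; simp [alt, endT, rv]
  | cons m l ih =>
    intro t
    obtain ⟨h1, h2⟩ := ih (!t)
    rw [rv_cons]
    simp only [endT]
    constructor
    · rw [alt_append, h1, h2]
      simp [alt]
    · rw [endT_append, h2]
      simp [endT]

lemma comm_of_hot (q : ℝ) (t : Bool) (l : List ℤ) (h : hot q t l = 0) :
    gen q (!t) * (alt (gen q t) (gen q (!t)) l * (gen q (endT t l) *
      (alt (gen q t) (gen q (!t)) l)⁻¹)) =
    alt (gen q t) (gen q (!t)) l * (gen q (endT t l) *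
      (alt (gen q t) (gen q (!t)) l)⁻¹) * gen q (!t) := by
  unfold hot at h
  rw [← alt_coe] at h
  generalize alt (gen q t) (gen q (!t)) l = G at h ⊢
  generalize endT t l = n at h ⊢
  have hdet := G.2
  rw [Matrix.det_fin_two] at hdet
  apply Subtype.ext
  simp only [Matrix.SpecialLinearGroup.coe_mul, Matrix.SpecialLinearGroup.coe_inv, gen_coe,
    Matrix.adjugate_fin_two]
  have hG : ((G : SpecialLinearGroup (Fin 2) ℝ) : Matrix (Fin 2) (Fin 2) ℝ) =
      !![G.1 0 0, G.1 0 1; G.1 1 0, G.1 1 1] := Matrix.eta_fin_two _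
  change (↑G : Matrix (Fin 2) (Fin 2) ℝ) = _ at hG
  generalize G.1 0 0 = a at hdet hG ⊢
  generalize G.1 0 1 = b at hdet hG ⊢
  generalize G.1 1 0 = c at hdet hG ⊢
  generalize G.1 1 1 = d at hdet hG ⊢
  rw [hG] at h ⊢
  have E1 : (1 : Matrix (Fin 2) (Fin 2) ℝ) + E q true = !![1, 1; 0, 1] := by
    ext i j; fin_cases i <;> fin_cases j <;> simp [E]
  have E2 : (1 : Matrix (Fin 2) (Fin 2) ℝ) + E q false = !![1, 0; q, 1] := by
    ext i j; fin_cases i <;> fin_cases j <;> simp [E]
  cases t <;> cases n <;>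
    simp only [vv, hi, Bool.not_true, Bool.not_false, Matrix.vecMul, dotProduct,
      Fin.sum_univ_two, Matrix.of_apply, Matrix.cons_val_zero, Matrix.cons_val_one,
      zero_mul, one_mul, zero_add, add_zero] at h
  all_goals
    simp only [Bool.not_true, Bool.not_false, E1, E2, Matrix.mul_fin_two]
    ext i j
    fin_cases i <;> fin_cases j <;>
      simp only [Fin.zero_eta, Fin.mk_one, Matrix.of_apply, Matrix.cons_val_zero,
        Matrix.cons_val_one, Fin.isValue, Matrix.cons_val'] <;> grind

theorem Z_subset_R (L : ℕ) : Z L ⊆ R (4 * L + 4) := by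
  rintro q ⟨t, l, hm, hL, h⟩
  rw [mem_R_iff]
  have hc := comm_of_hot q t l h
  have hinv := alt_inv q l t
  set G := alt (gen q t) (gen q (!t)) l with hG
  set n := endT t l with hn
  have hW : ∀ m : ℤ, alt (gen q (!t)) (gen q (!!t)) (m :: l) = gen q (!t) ^ m * G := by
    intro m
    simp only [alt]
    rw [Bool.not_not, hG]
  refine ⟨!t, ([1] ++ l) ++ (([1] ++ rv l) ++ (([-1] ++ l) ++ ([-1] ++ rv l))), by simp, ?_, ?_, ?_⟩
  · simp [rv]
    omega
  · have hrv : ∀ m ∈ rv l, m ≠ 0 := by
      intro m hm'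
      simp only [rv, List.mem_map, List.mem_reverse] at hm'
      obtain ⟨m', h1, rfl⟩ := hm'
      exact neg_ne_zero.2 (hm m' h1)
    intro m hm'
    simp only [List.mem_append, List.mem_singleton] at hm'
    rcases hm' with (rfl | h1) | (rfl | h1) | (rfl | h1) | (rfl | h1)
    · norm_num
    · exact hm m h1
    · norm_num
    · exact hrv m h1
    · norm_num
    · exact hm m h1
    · norm_num
    · exact hrv m h1
  · have e1 : endT (!t) ([1] ++ l : List ℤ) = n := by
      simp [endT, hn]
    have e2 : endT n ([1] ++ rv l : List ℤ) = !t := by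
      simp only [List.cons_append, List.nil_append, endT]
      exact hinv.2
    have e3 : endT (!t) ([-1] ++ l : List ℤ) = n := by
      simp [endT, hn]
    have f1 : alt (gen q (!t)) (gen q (!!t)) ([1] ++ l) = gen q (!t) * G := by
      have := hW 1
      rw [zpow_one] at this
      exact this
    have f2 : alt (gen q n) (gen q (!n)) ([1] ++ rv l) = gen q n * G⁻¹ := by
      have h1 := hinv.1
      simp only [Bool.not_not] at h1
      simp only [List.cons_append, List.nil_append, alt, zpow_one]
      rw [h1]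
    have f3 : alt (gen q (!t)) (gen q (!!t)) ([-1] ++ l) = (gen q (!t))⁻¹ * G := by
      have := hW (-1)
      rw [_root_.zpow_neg_one] at this
      exact this
    have f4 : alt (gen q n) (gen q (!n)) ([-1] ++ rv l) = (gen q n)⁻¹ * G⁻¹ := by
      have h1 := hinv.1
      simp only [Bool.not_not] at h1
      simp only [List.cons_append, List.nil_append, alt, _root_.zpow_neg_one]
      rw [h1]
    rw [alt_append q ([1] ++ l) _ (!t), e1, alt_append q ([1] ++ rv l) _ n, e2,
      alt_append q ([-1] ++ l) _ (!t), e3, f1, f2, f3, f4]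
    have h2 : gen q (!t) * G * (gen q n * G⁻¹ * ((gen q (!t))⁻¹ * G * ((gen q n)⁻¹ * G⁻¹))) =
        (gen q (!t) * (G * (gen q n * G⁻¹))) * (G * (gen q n * G⁻¹) * gen q (!t))⁻¹ := by
      group
    rw [h2, hc, mul_inv_cancel]

/-- the non-free real algebraic numbers of degree at most `d` -/
def Rdeg (d : ℕ) : Set ℝ :=
  {q | IsAlgebraic ℚ q ∧ (minpoly ℚ q).natDegree ≤ d ∧ NonFree q}

theorem closure_subset (L : ℕ) : closure (R L) ⊆ R (4 * L + 4) ∩ Rdeg ((L + 1) / 2) := by
  have h1 : closure (R L) ⊆ Z L := closure_minimal (R_subset_Z L) (isClosed_Z L)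
  intro q hq
  have hZ := h1 hq
  have hR := Z_subset_R L hZ
  refine ⟨hR, ?_⟩
  obtain ⟨t, l, h2, h3, h4⟩ := hZ
  obtain ⟨h5, h6⟩ := algebraic_of_hot h2 h4
  exact ⟨h5, h6.trans (by omega), nonFree_of_mem_R hR⟩

theorem countable_closure (L : ℕ) : (closure (R L)).Countable := by
  refine Set.Countable.mono ?_ (Algebraic.countable ℚ ℝ)
  intro q hq
  exact (closure_subset L hq).2.1

end Pool.Agent.Lib_helper30.Syl
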