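import Mathlib
import Pool.Agent.Lib_helper30.SylGrp

/-!
# Non-free parameters near zero: small gaps

For every `k` and every small `x > 0` there is a parameter `q ∈ [x, x + x ^ (2 k + 2)]` with a
vanishing hot entry of a word with `2 k + 3` syllables.
-/

set_option autoImplicit false

namespace Pool.Agent.Lib_helper30.Syl

open Matrix Filter Topology Polynomial

/-- a function with values in `[lo, up]` on `[x, x + δ]` and slopes in `[a, b]` -/
structure P (a b x δ lo up : ℝ) (g : ℝ → ℝ) : Prop where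
  lo : ∀ q ∈ Set.Icc x (x + δ), lo ≤ g q
  up : ∀ q ∈ Set.Icc x (x + δ), g q ≤ up
  sl : ∀ q₁ ∈ Set.Icc x (x + δ), ∀ q₂ ∈ Set.Icc x (x + δ), q₁ ≤ q₂ →
    a * (q₂ - q₁) ≤ g q₂ - g q₁
  sl' : ∀ q₁ ∈ Set.Icc x (x + δ), ∀ q₂ ∈ Set.Icc x (x + δ), q₁ ≤ q₂ →
    g q₂ - g q₁ ≤ b * (q₂ - q₁)

lemma P.mono {a b x δ δ' lo up : ℝ} {g : ℝ → ℝ} (h : P a b x δ lo up g) (hδ : δ' ≤ δ) :
    P a b x δ' lo up g := by
  have hsub : Set.Icc x (x + δ') ⊆ Set.Icc x (x + δ) := Set.Icc_subset_Icc_right (by linarith)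
  exact ⟨fun q hq => h.lo q (hsub hq), fun q hq => h.up q (hsub hq),
    fun q₁ h₁ q₂ h₂ => h.sl q₁ (hsub h₁) q₂ (hsub h₂),
    fun q₁ h₁ q₂ h₂ => h.sl' q₁ (hsub h₁) q₂ (hsub h₂)⟩

lemma P.mid {a b x δ : ℝ} {g : ℝ → ℝ} (hx : 0 < x) (hx1 : x ≤ 1 / 10) (ha : 0 < a) (hδ : 0 ≤ δ)
    (hab : a ≤ b) (hb : b * δ ≤ x ^ 2) (h : P a b x δ x (3 * x) g) :
    ∃ n : ℤ, 1 ≤ n ∧ (∀ q ∈ Set.Icc x (x + δ), x ≤ 1 - n * g q) ∧
      P (a / (25 * x ^ 2)) (b / x ^ 2) x δ (1 / 5) 3 (fun q => g q / (1 - n * g q)) := by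
  have hxm : x ∈ Set.Icc x (x + δ) := ⟨le_refl _, by linarith⟩
  have g1 := h.lo x hxm
  have g2 := h.up x hxm
  have hgpos : 0 < g x := by linarith
  set n : ℤ := ⌊(1 - 2 * x) / g x⌋ with hn
  have hn1 : 1 ≤ n := by
    rw [hn, Int.le_floor]
    rw [le_div_iff₀ hgpos]
    push_cast
    linarith
  have hnr : (1 : ℝ) ≤ n := by exact_mod_cast hn1
  have hn2 : (n : ℝ) * g x ≤ 1 - 2 * x := by
    have := Int.floor_le ((1 - 2 * x) / g x)
    rw [le_div_iff₀ hgpos] at this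
    exact this
  have hn3 : 1 - 2 * x < (n + 1) * g x := by
    have := Int.lt_floor_add_one ((1 - 2 * x) / g x)
    rw [div_lt_iff₀ hgpos] at this
    exact this
  have hnx : (n : ℝ) * x ≤ 1 := by nlinarith
  have hb0 : 0 < b := by linarith
  have hval : ∀ q ∈ Set.Icc x (x + δ), x ≤ 1 - n * g q ∧ 1 - n * g q ≤ 5 * x := by
    intro q hq
    have s1 := h.sl x hxm q hq hq.1
    have s2 := h.sl' x hxm q hq hq.1
    have hq0 : 0 ≤ q - x := by linarith [hq.1]
    have hqδ : q - x ≤ δ := by linarith [hq.2]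
    have s3 : g q - g x ≤ x ^ 2 := by
      have : b * (q - x) ≤ b * δ := mul_le_mul_of_nonneg_left hqδ hb0.le
      linarith
    have s4 : 0 ≤ g q - g x := by
      have : 0 ≤ a * (q - x) := mul_nonneg ha.le hq0
      linarith
    constructor
    · have : (n : ℝ) * (g q - g x) ≤ n * x ^ 2 := mul_le_mul_of_nonneg_left s3 (by linarith)
      have h4 : (n : ℝ) * x ^ 2 ≤ x := by nlinarith
      nlinarith
    · have : 0 ≤ (n : ℝ) * (g q - g x) := mul_nonneg (by linarith) s4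
      nlinarith
  refine ⟨n, hn1, fun q hq => (hval q hq).1, ?_, ?_, ?_, ?_⟩
  · intro q hq
    obtain ⟨v1, v2⟩ := hval q hq
    have hpos : 0 < 1 - n * g q := by linarith
    rw [le_div_iff₀ hpos]
    have := h.lo q hq
    linarith
  · intro q hq
    obtain ⟨v1, v2⟩ := hval q hq
    have hpos : 0 < 1 - n * g q := by linarith
    rw [div_le_iff₀ hpos]
    have := h.up q hq
    linarith
  · intro q₁ h₁ q₂ h₂ h12
    obtain ⟨v1, v2⟩ := hval q₁ h₁
    obtain ⟨w1, w2⟩ := hval q₂ h₂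
    have hp1 : 0 < 1 - n * g q₁ := by linarith
    have hp2 : 0 < 1 - n * g q₂ := by linarith
    have e : g q₂ / (1 - n * g q₂) - g q₁ / (1 - n * g q₁) =
        (g q₂ - g q₁) / ((1 - n * g q₁) * (1 - n * g q₂)) := by
      have e1 := hp1.ne'
      have e2 := hp2.ne'
      rw [div_sub_div _ _ e2 e1, mul_comm (1 - n * g q₂) (1 - n * g q₁)]
      congr 1
      ring
    have s1 := h.sl q₁ h₁ q₂ h₂ h12
    have hd : 0 ≤ q₂ - q₁ := by linarith
    rw [e, div_mul_eq_mul_div, div_le_div_iff₀ (by positivity) (by positivity)]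
    have h5 : (1 - n * g q₁) * (1 - n * g q₂) ≤ 25 * x ^ 2 := by nlinarith
    have h6 : 0 ≤ a * (q₂ - q₁) := mul_nonneg ha.le hd
    calc a * (q₂ - q₁) * ((1 - n * g q₁) * (1 - n * g q₂))
        ≤ a * (q₂ - q₁) * (25 * x ^ 2) := mul_le_mul_of_nonneg_left h5 h6
      _ ≤ (g q₂ - g q₁) * (25 * x ^ 2) := mul_le_mul_of_nonneg_right s1 (by positivity)
  · intro q₁ h₁ q₂ h₂ h12
    obtain ⟨v1, v2⟩ := hval q₁ h₁
    obtain ⟨w1, w2⟩ := hval q₂ h₂
    have hp1 : 0 < 1 - n * g q₁ := by linarith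
    have hp2 : 0 < 1 - n * g q₂ := by linarith
    have e : g q₂ / (1 - n * g q₂) - g q₁ / (1 - n * g q₁) =
        (g q₂ - g q₁) / ((1 - n * g q₁) * (1 - n * g q₂)) := by
      have e1 := hp1.ne'
      have e2 := hp2.ne'
      rw [div_sub_div _ _ e2 e1, mul_comm (1 - n * g q₂) (1 - n * g q₁)]
      congr 1
      ring
    have s1 := h.sl' q₁ h₁ q₂ h₂ h12
    have s0 := h.sl q₁ h₁ q₂ h₂ h12
    have hd : 0 ≤ q₂ - q₁ := by linarith
    rw [e, div_mul_eq_mul_div, div_le_div_iff₀ (by positivity) (by positivity)]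
    have h5 : x ^ 2 ≤ (1 - n * g q₁) * (1 - n * g q₂) := by nlinarith
    have h6 : 0 ≤ b * (q₂ - q₁) := mul_nonneg hb0.le hd
    have h7 : 0 ≤ g q₂ - g q₁ := by
      have : 0 ≤ a * (q₂ - q₁) := mul_nonneg ha.le hd
      linarith
    calc (g q₂ - g q₁) * x ^ 2 ≤ (b * (q₂ - q₁)) * x ^ 2 :=
          mul_le_mul_of_nonneg_right s1 (by positivity)
      _ ≤ b * (q₂ - q₁) * ((1 - n * g q₁) * (1 - n * g q₂)) :=
          mul_le_mul_of_nonneg_left h5 h6

lemma P.stepB {a b x δ : ℝ} {g : ℝ → ℝ} (hx : 0 < x) (hx1 : x ≤ 1 / 10) (hδ : 0 ≤ δ)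
    (ha : 6 / x ≤ a) (hab : a ≤ b) (hb : b * δ ≤ x) (h : P a b x δ (1 / 5) 3 g) :
    ∃ m : ℤ, 1 ≤ m ∧ P (a / 2) b x δ x (3 * x) (fun q => g q - m * q) := by
  have hxm : x ∈ Set.Icc x (x + δ) := ⟨le_refl _, by linarith⟩
  have g1 := h.lo x hxm
  have g2 := h.up x hxm
  set m : ℤ := ⌊g x / x - 1⌋ with hm
  have hm1 : 1 ≤ m := by
    rw [hm, Int.le_floor]
    have : 2 ≤ g x / x := by
      rw [le_div_iff₀ hx]
      linarith
    push_cast
    linarith
  have hmr : (1 : ℝ) ≤ m := by exact_mod_cast hm1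
  have hm2 : (m : ℝ) * x ≤ g x - x := by
    have := Int.floor_le (g x / x - 1)
    rw [← hm] at this
    have h2 : (m : ℝ) * x ≤ (g x / x - 1) * x := mul_le_mul_of_nonneg_right this hx.le
    have h3 : (g x / x - 1) * x = g x - x := by field_simp
    linarith
  have hm3 : g x - x < (m + 1) * x := by
    have := Int.lt_floor_add_one (g x / x - 1)
    rw [← hm] at this
    have h2 : (g x / x - 1) * x < (m + 1) * x := mul_lt_mul_of_pos_right this hx
    have h3 : (g x / x - 1) * x = g x - x := by field_simp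
    linarith
  have hm4 : (m : ℝ) ≤ 3 / x := by
    rw [le_div_iff₀ hx]
    linarith
  have ha0 : 0 < a := lt_of_lt_of_le (by positivity) ha
  have hma : (m : ℝ) ≤ a / 2 := by
    have : 6 / x = 2 * (3 / x) := by ring
    linarith
  refine ⟨m, hm1, ?_, ?_, ?_, ?_⟩
  · intro q hq
    have s1 := h.sl x hxm q hq hq.1
    have hd : 0 ≤ q - x := by linarith [hq.1]
    have : (m : ℝ) * (q - x) ≤ a * (q - x) := mul_le_mul_of_nonneg_right (by linarith) hd
    nlinarith
  · intro q hq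
    have s1 := h.sl' x hxm q hq hq.1
    have hd : 0 ≤ q - x := by linarith [hq.1]
    have hd' : q - x ≤ δ := by linarith [hq.2]
    have h1 : b * (q - x) ≤ b * δ := mul_le_mul_of_nonneg_left hd' (by linarith)
    have h2 : 0 ≤ (m : ℝ) * (q - x) := mul_nonneg (by linarith) hd
    nlinarith
  · intro q₁ h₁ q₂ h₂ h12
    have s1 := h.sl q₁ h₁ q₂ h₂ h12
    have hd : 0 ≤ q₂ - q₁ := by linarith
    have : (m : ℝ) * (q₂ - q₁) ≤ a / 2 * (q₂ - q₁) := mul_le_mul_of_nonneg_right hma hd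
    nlinarith
  · intro q₁ h₁ q₂ h₂ h12
    have s1 := h.sl' q₁ h₁ q₂ h₂ h12
    have hd : 0 ≤ q₂ - q₁ := by linarith
    have h2 : 0 ≤ (m : ℝ) * (q₂ - q₁) := mul_nonneg (by linarith) hd
    nlinarith

lemma P.final {a b x δ : ℝ} {g : ℝ → ℝ} (hx : 0 < x) (hx1 : x ≤ 1 / 10) (hδ : 0 ≤ δ)
    (ha : 8 / x ≤ a) (haδ : 2 * x ≤ a * δ) (h : P a b x δ (1 / 5) 3 g) :
    ∃ m : ℤ, 1 ≤ m ∧ ∃ q ∈ Set.Icc x (x + δ), g q - m * q = 0 := by
  have hxm : x ∈ Set.Icc x (x + δ) := ⟨le_refl _, by linarith⟩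
  have hym : x + δ ∈ Set.Icc x (x + δ) := ⟨by linarith, le_refl _⟩
  have g1 := h.lo x hxm
  have g2 := h.up x hxm
  set m : ℤ := ⌊g x / x⌋ + 1 with hm
  have hm1 : 1 ≤ m := by
    have : 0 ≤ ⌊g x / x⌋ := by
      rw [Int.floor_nonneg]
      exact div_nonneg (by linarith) hx.le
    omega
  have hmr : (1 : ℝ) ≤ m := by exact_mod_cast hm1
  have hm2 : g x < m * x := by
    have := Int.lt_floor_add_one (g x / x)
    rw [div_lt_iff₀ hx] at this
    rw [hm]
    push_cast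
    exact this
  have hm3 : (m - 1) * x ≤ g x := by
    have := Int.floor_le (g x / x)
    rw [le_div_iff₀ hx] at this
    rw [hm]
    push_cast
    linarith
  have hm4 : (m : ℝ) ≤ 4 / x := by
    rw [le_div_iff₀ hx]
    linarith
  have ha0 : 0 < a := lt_of_lt_of_le (by positivity) ha
  have hma : (m : ℝ) ≤ a / 2 := by
    have : 8 / x = 2 * (4 / x) := by ring
    linarith
  have hcont : ContinuousOn (fun q => g q - m * q) (Set.Icc x (x + δ)) := by
    refine ContinuousOn.sub ?_ (continuousOn_const.mul continuousOn_id)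
    have hL : LipschitzOnWith (Real.toNNReal |b|) g (Set.Icc x (x + δ)) := by
      apply LipschitzOnWith.of_dist_le_mul
      intro q₁ h₁ q₂ h₂
      rw [Real.dist_eq, Real.dist_eq, Real.coe_toNNReal _ (abs_nonneg b)]
      rcases le_total q₁ q₂ with h12 | h12
      · have s1 := h.sl' q₁ h₁ q₂ h₂ h12
        have s0 := h.sl q₁ h₁ q₂ h₂ h12
        have hd : 0 ≤ q₂ - q₁ := by linarith
        have h0 : 0 ≤ g q₂ - g q₁ := le_trans (mul_nonneg ha0.le hd) s0
        rw [abs_sub_comm (g q₁), abs_of_nonneg h0, abs_sub_comm q₁, abs_of_nonneg hd]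
        exact s1.trans (mul_le_mul_of_nonneg_right (le_abs_self b) hd)
      · have s1 := h.sl' q₂ h₂ q₁ h₁ h12
        have s0 := h.sl q₂ h₂ q₁ h₁ h12
        have hd : 0 ≤ q₁ - q₂ := by linarith
        have h0 : 0 ≤ g q₁ - g q₂ := le_trans (mul_nonneg ha0.le hd) s0
        rw [abs_of_nonneg h0, abs_of_nonneg hd]
        exact s1.trans (mul_le_mul_of_nonneg_right (le_abs_self b) hd)
    exact hL.continuousOn
  have hl : (fun q => g q - m * q) x ≤ 0 := by
    beta_reduce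
    linarith
  have hr : 0 ≤ (fun q => g q - m * q) (x + δ) := by
    beta_reduce
    have s1 := h.sl x hxm (x + δ) hym (by linarith)
    have h1 : (m : ℝ) * δ ≤ a / 2 * δ := mul_le_mul_of_nonneg_right hma hδ
    nlinarith
  have := intermediate_value_Icc (by linarith : x ≤ x + δ) hcont
  obtain ⟨q, hq, hq0⟩ := this ⟨hl, hr⟩
  exact ⟨m, hm1, q, hq, hq0⟩

/-- the row of a word starting with a power of `B` -/
def row (W : List ℤ) (q : ℝ) : Fin 2 → ℝ := (vv true : Fin 2 → ℝ) ᵥ* M q false W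

lemma row_append (W : List ℤ) (hW : endT false W = true) (n m : ℤ) (q : ℝ) :
    row (W ++ [n, m]) q = ![row W q 0 + m * ((row W q 1 + n * row W q 0) * q),
      row W q 1 + n * row W q 0] := by
  unfold row
  rw [M_append, hW, ← Matrix.vecMul_vecMul]
  simp only [M, Bool.not_true, mul_one]
  rw [← Matrix.vecMul_vecMul, step_true, step_false]
  simp

/-- the inductive statement -/
def St (k : ℕ) (x : ℝ) (W : List ℤ) (g : ℝ → ℝ) : Prop :=
  W.length = 2 * k + 1 ∧ (∀ m ∈ W, m ≠ 0) ∧ endT false W = true ∧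
    P ((50 ^ k * x ^ (2 * k))⁻¹) ((x ^ (2 * k))⁻¹) x (x ^ (2 * k + 1)) x (3 * x) g ∧
    ∀ q ∈ Set.Icc x (x + x ^ (2 * k + 1)), 0 < row W q 1 ∧ row W q 0 = -(g q) * row W q 1

lemma St_zero {x : ℝ} (hx : 0 < x) : St 0 x [-1] (fun q => q) := by
  refine ⟨rfl, by simp, rfl, ⟨?_, ?_, ?_, ?_⟩, ?_⟩
  · intro q hq; exact hq.1
  · intro q hq
    have := hq.2
    simp only [mul_zero, zero_add, pow_one] at this
    linarith
  · intro q₁ _ q₂ _ _
    simp
  · intro q₁ _ q₂ _ _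
    simp
  · intro q hq
    have : row [-1] q = ![-q, 1] := by
      unfold row
      simp only [M, mul_one]
      rw [step_false]
      simp [vv]
    rw [this]
    simp

lemma St_mid {k : ℕ} {x : ℝ} {W : List ℤ} {g : ℝ → ℝ} (hx : 0 < x) (hx1 : x ≤ 1 / 10)
    (h : St k x W g) :
    ∃ n : ℤ, 1 ≤ n ∧ (∀ q ∈ Set.Icc x (x + x ^ (2 * k + 2)), x ≤ 1 - n * g q) ∧
      P ((25 * 50 ^ k * x ^ (2 * k + 2))⁻¹) ((x ^ (2 * k + 2))⁻¹) x (x ^ (2 * k + 2)) (1 / 5) 3
        (fun q => g q / (1 - n * g q)) := by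
  obtain ⟨h1, h2, h3, h4, h5⟩ := h
  have hle : x ^ (2 * k + 2) ≤ x ^ (2 * k + 1) := by
    apply pow_le_pow_of_le_one hx.le (by linarith)
    omega
  have h6 := h4.mono hle
  obtain ⟨n, h7, h8, h9⟩ := h6.mid hx hx1 (by positivity) (by positivity) (by
    rw [inv_le_inv₀ (by positivity) (by positivity)]
    have : (1 : ℝ) ≤ 50 ^ k := one_le_pow₀ (by norm_num)
    have h0 : 0 < x ^ (2 * k) := by positivity
    nlinarith) (by
    rw [pow_add x (2 * k) 2, ← mul_assoc, inv_mul_cancel₀ (by positivity), one_mul])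
  refine ⟨n, h7, h8, ?_⟩
  have e1 : (50 ^ k * x ^ (2 * k))⁻¹ / (25 * x ^ 2) = (25 * 50 ^ k * x ^ (2 * k + 2))⁻¹ := by
    rw [div_eq_mul_inv, ← mul_inv]
    congr 1
    ring
  have e2 : (x ^ (2 * k))⁻¹ / x ^ 2 = (x ^ (2 * k + 2))⁻¹ := by
    rw [div_eq_mul_inv, ← mul_inv]
    congr 1
    ring
  rw [e1, e2] at h9
  exact h9

lemma row_mid {k : ℕ} {x : ℝ} {W : List ℤ} {g : ℝ → ℝ} (hx : 0 < x) (hx1 : x ≤ 1 / 10)
    (h : St k x W g) {n : ℤ} (hn : ∀ q ∈ Set.Icc x (x + x ^ (2 * k + 2)), x ≤ 1 - n * g q)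
    (m : ℤ) : ∀ q ∈ Set.Icc x (x + x ^ (2 * k + 2)), 0 < row (W ++ [n, m]) q 1 ∧
      row (W ++ [n, m]) q 0 = -(g q / (1 - n * g q) - m * q) * row (W ++ [n, m]) q 1 := by
  obtain ⟨h1, h2, h3, h4, h5⟩ := h
  have hle : x ^ (2 * k + 2) ≤ x ^ (2 * k + 1) := by
    apply pow_le_pow_of_le_one hx.le (by linarith)
    omega
  intro q hq
  obtain ⟨h6, h7⟩ := h5 q ⟨hq.1, by linarith [hq.2]⟩
  have h8 := hn q hq
  have h9 : 0 < 1 - n * g q := by linarith
  have h10 := h9.ne'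
  rw [row_append W h3 n m q]
  simp only [Matrix.cons_val_zero, Matrix.cons_val_one]
  have e : row W q 1 + n * row W q 0 = row W q 1 * (1 - n * g q) := by
    rw [h7]; ring
  rw [e]
  refine ⟨mul_pos h6 h9, ?_⟩
  rw [h7]
  have key : g q / (1 - n * g q) * (row W q 1 * (1 - n * g q)) = g q * row W q 1 := by
    rw [mul_comm (row W q 1), ← mul_assoc, div_mul_cancel₀ _ h10]
  linear_combination key

lemma St_exists (k : ℕ) : ∀ x : ℝ, 0 < x → x ≤ 1 / (200 * 50 ^ k) →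
    ∃ (W : List ℤ) (g : ℝ → ℝ), St k x W g := by
  induction k with
  | zero => intro x hx _; exact ⟨_, _, St_zero hx⟩
  | succ k ih =>
    intro x hx hxk
    have h50 : (1 : ℝ) ≤ 50 ^ k := one_le_pow₀ (by norm_num)
    have hxk' : x ≤ 1 / (200 * 50 ^ k) := by
      refine hxk.trans ?_
      apply one_div_le_one_div_of_le (by positivity)
      rw [pow_succ]
      nlinarith
    have hx1 : x ≤ 1 / 10 := by
      refine hxk'.trans ?_
      apply one_div_le_one_div_of_le (by norm_num)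
      linarith
    obtain ⟨W, g, hS⟩ := ih x hx hxk'
    obtain ⟨n, hn1, hn2, hn3⟩ := St_mid hx hx1 hS
    have hle : x ^ (2 * k + 3) ≤ x ^ (2 * k + 2) := by
      apply pow_le_pow_of_le_one hx.le (by linarith)
      omega
    have hn4 := hn3.mono hle
    obtain ⟨m, hm1, hm2⟩ := hn4.stepB hx hx1 (by positivity) (by
      rw [div_le_iff₀ hx, ← div_eq_inv_mul, le_div_iff₀ (by positivity)]
      have h1 : x ^ (2 * k + 1) ≤ x := by
        have := pow_le_pow_of_le_one hx.le (by linarith : x ≤ 1) (by omega : 1 ≤ 2 * k + 1)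
        simpa using this
      have h2 : x * (200 * 50 ^ k) ≤ 1 := by
        rw [le_div_iff₀ (by positivity)] at hxk'
        exact hxk'
      have e : x ^ (2 * k + 2) = x ^ (2 * k + 1) * x := by ring
      rw [e]
      have h3 : 6 * (25 * 50 ^ k * (x ^ (2 * k + 1) * x)) ≤ 6 * (25 * 50 ^ k * (x * x)) := by
        have : x ^ (2 * k + 1) * x ≤ x * x := mul_le_mul_of_nonneg_right h1 hx.le
        have h4 : (0 : ℝ) ≤ 25 * 50 ^ k := by positivity
        nlinarith [mul_le_mul_of_nonneg_left this h4]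
      have h5 : 6 * (25 * 50 ^ k * (x * x)) = (150 * 50 ^ k * x) * x := by ring
      have h6 : (150 * 50 ^ k * x) ≤ 1 := by
        have : (0 : ℝ) ≤ 50 * 50 ^ k * x := by positivity
        linarith
      have h7 : (150 * 50 ^ k * x) * x ≤ 1 * x := mul_le_mul_of_nonneg_right h6 hx.le
      linarith) (by
      rw [inv_le_inv₀ (by positivity) (by positivity)]
      have h0 : 0 < x ^ (2 * k + 2) := by positivity
      nlinarith) (by
      rw [show 2 * k + 3 = (2 * k + 2) + 1 by ring, pow_succ x (2 * k + 2), ← mul_assoc,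
        inv_mul_cancel₀ (by positivity), one_mul])
    refine ⟨W ++ [n, m], fun q => g q / (1 - n * g q) - m * q, ?_, ?_, ?_, ?_, ?_⟩
    · simp only [List.length_append, hS.1, List.length_cons, List.length_nil]
      ring
    · intro j hj
      rcases List.mem_append.1 hj with hj | hj
      · exact hS.2.1 j hj
      · simp only [List.mem_cons, List.not_mem_nil, or_false] at hj
        rcases hj with rfl | rfl
        · omega
        · omega
    · rw [endT_append, hS.2.2.1]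
      rfl
    · have e1 : (25 * 50 ^ k * x ^ (2 * k + 2))⁻¹ / 2 = (50 ^ (k + 1) * x ^ (2 * (k + 1)))⁻¹ := by
        rw [div_eq_mul_inv, ← mul_inv]
        congr 1
        ring
      rw [e1] at hm2
      exact hm2
    · intro q hq
      have hq' : q ∈ Set.Icc x (x + x ^ (2 * k + 2)) := by
        refine ⟨hq.1, hq.2.trans ?_⟩
        have : 2 * (k + 1) + 1 = 2 * k + 3 := by ring
        rw [this]
        linarith
      exact row_mid hx hx1 hS hn2 m q hq'

/-- small gaps near zero -/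
theorem gap (k : ℕ) (x : ℝ) (hx : 0 < x) (hxk : x ≤ 1 / (200 * 50 ^ k)) :
    ∃ W : List ℤ, (∀ m ∈ W, m ≠ 0) ∧ W.length = 2 * k + 3 ∧
      ∃ q ∈ Set.Icc x (x + x ^ (2 * k + 2)), hot q false W = 0 := by
  obtain ⟨W, g, hS⟩ := St_exists k x hx hxk
  have h50 : (1 : ℝ) ≤ 50 ^ k := one_le_pow₀ (by norm_num)
  have hx1 : x ≤ 1 / 10 := by
    refine hxk.trans ?_
    apply one_div_le_one_div_of_le (by norm_num)
    linarith
  have h2 : x * (200 * 50 ^ k) ≤ 1 := by
    rw [le_div_iff₀ (by positivity)] at hxk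
    exact hxk
  obtain ⟨n, hn1, hn2, hn3⟩ := St_mid hx hx1 hS
  obtain ⟨m, hm1, q, hq, hq0⟩ := hn3.final hx hx1 (by positivity) (by
      rw [div_le_iff₀ hx, ← div_eq_inv_mul, le_div_iff₀ (by positivity)]
      have h1 : x ^ (2 * k + 1) ≤ x := by
        have := pow_le_pow_of_le_one hx.le (by linarith : x ≤ 1) (by omega : 1 ≤ 2 * k + 1)
        simpa using this
      have e : x ^ (2 * k + 2) = x ^ (2 * k + 1) * x := by ring
      rw [e]
      have h3 : 8 * (25 * 50 ^ k * (x ^ (2 * k + 1) * x)) ≤ 8 * (25 * 50 ^ k * (x * x)) := by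
        have : x ^ (2 * k + 1) * x ≤ x * x := mul_le_mul_of_nonneg_right h1 hx.le
        have h4 : (0 : ℝ) ≤ 25 * 50 ^ k := by positivity
        nlinarith [mul_le_mul_of_nonneg_left this h4]
      have h5 : 8 * (25 * 50 ^ k * (x * x)) = (200 * 50 ^ k * x) * x := by ring
      have h7 : (200 * 50 ^ k * x) * x ≤ 1 * x := mul_le_mul_of_nonneg_right (by linarith) hx.le
      linarith) (by
      have e : (25 * 50 ^ k * x ^ (2 * k + 2))⁻¹ * x ^ (2 * k + 2) = (25 * 50 ^ k)⁻¹ := by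
        rw [mul_inv, mul_assoc, inv_mul_cancel₀ (by positivity), mul_one]
      rw [e, ← one_div, le_div_iff₀ (by positivity)]
      have : (0 : ℝ) ≤ x * (150 * 50 ^ k) := by positivity
      linarith)
  refine ⟨W ++ [n, m], ?_, ?_, q, hq, ?_⟩
  · intro j hj
    rcases List.mem_append.1 hj with hj | hj
    · exact hS.2.1 j hj
    · simp only [List.mem_cons, List.not_mem_nil, or_false] at hj
      rcases hj with rfl | rfl
      · omega
      · omega
  · simp only [List.length_append, hS.1, List.length_cons, List.length_nil]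
  · have h3 := (row_mid hx hx1 hS hn2 m q hq).2
    rw [hq0, neg_zero, zero_mul] at h3
    have h4 : endT false (W ++ [n, m]) = true := by
      rw [endT_append, hS.2.2.1]
      rfl
    unfold hot
    rw [h4]
    exact h3

end Pool.Agent.Lib_helper30.Syl
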