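import Mathlib
import Pool.Agent.Lib_helper30.SylGap

/-!
# Transfer from small parameters to parameters in a given interval
-/

set_option autoImplicit false

namespace Pool.Agent.Lib_helper30.Syl

open Matrix Filter Topology Polynomial

section gen

variable {G : Type*} [Group G] (g : Bool → G)

lemma galt_append (l l' : List ℤ) : ∀ t : Bool,
    alt (g t) (g (!t)) (l ++ l') =
      alt (g t) (g (!t)) l * alt (g (endT t l)) (g (!endT t l)) l' := by
  induction l with
  | nil => intro t; simp [alt, endT]
  | cons m l ih =>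
    intro t
    have := ih (!t)
    rw [Bool.not_not] at this
    simp only [List.cons_append, alt, endT]
    rw [this, mul_assoc]

lemma galt_inv (l : List ℤ) : ∀ t : Bool,
    alt (g (!endT t l)) (g (!!endT t l)) (rv l) = (alt (g t) (g (!t)) l)⁻¹ ∧
      endT (!endT t l) (rv l) = !t := by
  induction l with
  | nil => intro t; simp [alt, endT, rv]
  | cons m l ih =>
    intro t
    obtain ⟨h1, h2⟩ := ih (!t)
    rw [rv_cons]
    simp only [endT]
    constructor
    · rw [galt_append, h1, h2]
      simp [alt]
    · rw [endT_append, h2]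
      simp [endT]

/-- expansion of an alternating word in `x`, `w x⁻¹ w⁻¹` -/
def expand (W : List ℤ) : Bool → List ℤ → List ℤ
  | _, [] => []
  | true, m :: l => m :: expand W false l
  | false, m :: l => W ++ ([-m] ++ (rv W ++ expand W true l))

/-- the pair `x`, `w x⁻¹ w⁻¹` -/
def newg (W : List ℤ) : Bool → G
  | true => g true
  | false => alt (g false) (g true) W * (g true)⁻¹ * (alt (g false) (g true) W)⁻¹

lemma conj_zpow' (a b : G) (m : ℤ) : (a * b⁻¹ * a⁻¹) ^ m = a * b ^ (-m) * a⁻¹ := by
  rw [← MulAut.conj_apply, ← map_zpow, MulAut.conj_apply, _root_.inv_zpow']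

lemma expand_spec (W : List ℤ) (hW : endT false W = true) (l : List ℤ) : ∀ t : Bool,
    alt (g t) (g (!t)) (expand W t l) = alt (newg g W t) (newg g W (!t)) l := by
  induction l with
  | nil => intro t; cases t <;> rfl
  | cons m l ih =>
    intro t
    cases t with
    | true =>
      simp only [expand, alt, Bool.not_true]
      have := ih false
      simp only [Bool.not_false] at this
      rw [this]
      rfl
    | false =>
      have h1 := ih true
      simp only [Bool.not_true] at h1
      have h2 := galt_inv g W false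
      rw [hW] at h2
      simp only [Bool.not_true, Bool.not_false] at h2
      simp only [expand, Bool.not_false]
      have e1 := galt_append g W ([-m] ++ (rv W ++ expand W true l)) false
      rw [hW] at e1
      simp only [Bool.not_false, Bool.not_true] at e1
      rw [e1]
      simp only [List.cons_append, List.nil_append, alt]
      have e2 := galt_append g (rv W) (expand W true l) false
      rw [h2.2] at e2
      simp only [Bool.not_false, Bool.not_true] at e2
      rw [e2, h2.1, h1]
      have e3 : newg g W false ^ m = alt (g false) (g true) W * g true ^ (-m) *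
          (alt (g false) (g true) W)⁻¹ := conj_zpow' _ _ m
      rw [e3]
      simp only [mul_assoc]

lemma expand_ne_nil (W : List ℤ) (t : Bool) (l : List ℤ) (hl : l ≠ []) : expand W t l ≠ [] := by
  cases l with
  | nil => exact absurd rfl hl
  | cons m l => cases t <;> simp [expand]

lemma rv_ne_zero {W : List ℤ} (hW : ∀ m ∈ W, m ≠ 0) : ∀ m ∈ rv W, m ≠ 0 := by
  intro m hm'
  simp only [rv, List.mem_map, List.mem_reverse] at hm'
  obtain ⟨m', h1, rfl⟩ := hm'
  exact neg_ne_zero.2 (hW m' h1)

lemma expand_ne_zero {W : List ℤ} (hW : ∀ m ∈ W, m ≠ 0) (l : List ℤ) : ∀ t : Bool,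
    (∀ m ∈ l, m ≠ 0) → ∀ m ∈ expand W t l, m ≠ 0 := by
  induction l with
  | nil => intro t _ m hm; simp [expand] at hm
  | cons j l ih =>
    intro t hl m hm
    have h1 := fun t => ih t (fun i hi => hl i (List.mem_cons_of_mem _ hi))
    cases t with
    | true =>
      simp only [expand, List.mem_cons] at hm
      rcases hm with rfl | hm
      · exact hl m (List.mem_cons_self ..)
      · exact h1 false m hm
    | false =>
      simp only [expand, List.mem_append, List.mem_singleton] at hm
      rcases hm with hm | rfl | hm | hm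
      · exact hW m hm
      · exact neg_ne_zero.2 (hl j (List.mem_cons_self ..))
      · exact rv_ne_zero hW m hm
      · exact h1 true m hm

end gen

/-- if the small parameter `z²` is non-free, then `q` is non-free -/
lemma transfer (W : List ℤ) (hW0 : ∀ m ∈ W, m ≠ 0) (hW : endT false W = true) (q : ℝ)
    (hz : row W q 0 ≠ 0) (h : NonFree ((row W q 0) ^ 2)) : NonFree q := by
  intro hinj
  apply h
  set z : ℝ := row W q 0 with hzdef
  -- the homomorphism between free groups
  let φ : FreeGroup (Fin 2) →* FreeGroup (Fin 2) :=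
    FreeGroup.lift ![newg fgen W true, newg fgen W false]
  have hφt : ∀ s, φ (fgen s) = newg fgen W s := by
    intro s
    cases s
    · simp only [φ, fgen, FreeGroup.lift_apply_of]; rfl
    · simp only [φ, fgen, FreeGroup.lift_apply_of]; rfl
  have hφ : Function.Injective φ := by
    rw [injective_iff_map_eq_one]
    intro u hu
    by_contra hne
    rcases Alt_all u with h0 | ⟨t, l, hl, hm, rfl⟩
    · exact hne h0
    · rw [alt_map, hφt, hφt, ← expand_spec fgen W hW l t] at hu
      exact alt_ne_one t _ (expand_ne_nil W t l hl) (expand_ne_zero hW0 l t hm) hu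
  -- matrices
  set Gm : SpecialLinearGroup (Fin 2) ℝ := alt (gen q false) (gen q true) W with hGm
  have hGcoe : (Gm : Matrix (Fin 2) (Fin 2) ℝ) = M q false W := alt_coe q W false
  have hz10 : Gm.1 1 0 = z := by
    rw [hzdef]
    unfold row
    rw [hGcoe]
    simp [vv, Matrix.vecMul, dotProduct, Fin.sum_univ_two]
  let T : SpecialLinearGroup (Fin 2) ℝ := ⟨!![1, -(Gm.1 0 0) / z; 0, 1], by simp⟩
  have hT1 : T * A * T⁻¹ = A := by
    rw [mul_inv_eq_iff_eq_mul]
    apply Subtype.ext
    simp only [Matrix.SpecialLinearGroup.coe_mul]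
    change !![1, -(Gm.1 0 0) / z; 0, 1] * !![1, 1; 0, 1] = !![1, 1; 0, 1] *
      !![1, -(Gm.1 0 0) / z; 0, 1]
    rw [Matrix.mul_fin_two, Matrix.mul_fin_two]
    simp [add_comm]
  have hT2 : T * (Gm * A⁻¹ * Gm⁻¹) * T⁻¹ = B (z ^ 2) := by
    rw [mul_inv_eq_iff_eq_mul, ← mul_assoc, ← mul_assoc, mul_inv_eq_iff_eq_mul]
    have hdet := Gm.2
    rw [Matrix.det_fin_two] at hdet
    have hG : (Gm : Matrix (Fin 2) (Fin 2) ℝ) =
      !![Gm.1 0 0, Gm.1 0 1; Gm.1 1 0, Gm.1 1 1] := Matrix.eta_fin_two _
    have hAinv : ((A⁻¹ : SpecialLinearGroup (Fin 2) ℝ) : Matrix (Fin 2) (Fin 2) ℝ) =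
        !![1, -1; 0, 1] := by
      rw [Matrix.SpecialLinearGroup.coe_inv]
      change Matrix.adjugate !![1, 1; 0, 1] = _
      rw [Matrix.adjugate_fin_two]
      simp
    have hT : (T : Matrix (Fin 2) (Fin 2) ℝ) = !![1, -(Gm.1 0 0) / z; 0, 1] := rfl
    have hB : ((B (z ^ 2) : SpecialLinearGroup (Fin 2) ℝ) : Matrix (Fin 2) (Fin 2) ℝ) =
        !![1, 0; z ^ 2, 1] := rfl
    apply Subtype.ext
    simp only [Matrix.SpecialLinearGroup.coe_mul]
    rw [hT, hAinv, hB, hG]
    rw [hz10] at hdet ⊢
    generalize Gm.1 0 0 = a at hdet ⊢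
    generalize Gm.1 0 1 = b at hdet ⊢
    generalize Gm.1 1 1 = d at hdet ⊢
    simp only [Matrix.mul_fin_two]
    have hdiv : -a / z * z = -a := by field_simp
    generalize -a / z = s at hdiv ⊢
    ext i j
    fin_cases i <;> fin_cases j <;>
      simp only [Fin.zero_eta, Fin.mk_one, Matrix.of_apply, Matrix.cons_val_zero,
        Matrix.cons_val_one, Fin.isValue, Matrix.cons_val'] <;> grind
  let ψ : SpecialLinearGroup (Fin 2) ℝ →* SpecialLinearGroup (Fin 2) ℝ :=
    (MulAut.conj T).toMonoidHom
  have hψ : Function.Injective ψ := (MulAut.conj T).injective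
  have hcomp : FreeGroup.lift ![A, B (z ^ 2)] = ψ.comp ((FreeGroup.lift ![A, B q]).comp φ) := by
    have hl : ∀ s, FreeGroup.lift ![A, B q] (newg fgen W s) = newg (gen q) W s := by
      intro s
      cases s
      · simp only [newg, map_mul, map_inv, alt_map, lift_fgen]
      · simp only [newg, lift_fgen]
    have hAg : gen q true = A := rfl
    ext i : 1
    fin_cases i
    · change FreeGroup.lift ![A, B (z ^ 2)] (fgen true) =
        ψ (FreeGroup.lift ![A, B q] (φ (fgen true)))
      rw [hφt, hl, lift_fgen]
      simp only [newg, hAg]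
      exact hT1.symm
    · change FreeGroup.lift ![A, B (z ^ 2)] (fgen false) =
        ψ (FreeGroup.lift ![A, B q] (φ (fgen false)))
      rw [hφt, hl, lift_fgen]
      simp only [newg, hAg]
      rw [← hAg, ← hGm, hAg]
      exact hT2.symm
  rw [hcomp]
  exact hψ.comp (hinj.comp hφ)

end Pool.Agent.Lib_helper30.Syl
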