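import Mathlib
import Pool.Agent.Lib_helper30.SylTr

/-!
# Covering numbers of the non-free numbers of bounded degree in an interval
-/

set_option autoImplicit false

namespace Pool.Agent.Lib_helper30.Syl

open Matrix Filter Topology Polynomial

lemma algebraic_of_poly {q : ℝ} {p : ℤ[X]} {D : ℕ} (hp : p ≠ 0) (hd : p.natDegree ≤ D)
    (h3 : aeval q p = 0) : IsAlgebraic ℚ q ∧ (minpoly ℚ q).natDegree ≤ D := by
  set P : ℚ[X] := p.map (Int.castRingHom ℚ) with hP
  have hP0 : P ≠ 0 := by
    rw [hP, Polynomial.map_ne_zero_iff (RingHom.injective_int _)]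
    exact hp
  have h4 : aeval q P = 0 := by
    rw [hP, ← h3]
    have e : (algebraMap ℚ ℝ).comp (Int.castRingHom ℚ) = Int.castRingHom ℝ := RingHom.ext_int _ _
    simp [aeval_def, eval₂_map, e]
  have hPd : P.natDegree ≤ D := by
    rw [hP]
    exact (natDegree_map_le).trans hd
  refine ⟨⟨P, hP0, h4⟩, ?_⟩
  have h5 := minpoly.dvd ℚ q h4
  exact (natDegree_le_of_dvd h5 hP0).trans hPd

/-- the exponents of `B^{-σ} (A B^{-σ})^j` -/
def ww (σ : ℤ) : ℕ → List ℤ
  | 0 => [-σ]
  | j + 1 => ww σ j ++ [1, -σ]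

lemma ww_endT (σ : ℤ) (j : ℕ) : endT false (ww σ j) = true := by
  induction j with
  | zero => rfl
  | succ j ih =>
    simp only [ww]
    rw [endT_append, ih]
    rfl

lemma ww_length (σ : ℤ) (j : ℕ) : (ww σ j).length = 2 * j + 1 := by
  induction j with
  | zero => rfl
  | succ j ih =>
    simp only [ww, List.length_append, ih, List.length_cons, List.length_nil]
    ring

lemma ww_ne_zero {σ : ℤ} (hσ : σ ≠ 0) (j : ℕ) : ∀ m ∈ ww σ j, m ≠ 0 := by
  induction j with
  | zero => simpa [ww] using hσ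
  | succ j ih =>
    intro m hm
    simp only [ww, List.mem_append, List.mem_cons, List.not_mem_nil, or_false] at hm
    rcases hm with hm | rfl | rfl
    · exact ih m hm
    · norm_num
    · exact neg_ne_zero.2 hσ

lemma ww_trig (σ : ℤ) (θ q : ℝ) (hq : (σ : ℝ) * q = 2 - 2 * Real.cos θ) (j : ℕ) :
    Real.sin θ * row (ww σ j) q 0 = -(2 - 2 * Real.cos θ) * Real.sin ((j + 1) * θ) ∧
    Real.sin θ * row (ww σ j) q 1 = Real.sin ((j + 1) * θ) - Real.sin (j * θ) := by
  induction j with
  | zero =>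
    have : row (ww σ 0) q = ![-(σ * q), 1] := by
      unfold row
      simp only [ww, M, mul_one]
      rw [step_false]
      simp [vv]
    rw [this, hq]
    simp
    ring
  | succ j ih =>
    obtain ⟨h1, h2⟩ := ih
    simp only [ww]
    rw [row_append _ (ww_endT σ j) 1 (-σ) q]
    simp only [Matrix.cons_val_zero, Matrix.cons_val_one, Int.cast_one, one_mul, Int.cast_neg]
    have hs : Real.sin (((j + 1 : ℕ) + 1) * θ) =
        2 * Real.cos θ * Real.sin ((j + 1) * θ) - Real.sin (j * θ) := by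
      push_cast
      have e1 : ((j : ℝ) + 1 + 1) * θ = (j + 1) * θ + θ := by ring
      have e2 : (j : ℝ) * θ = (j + 1) * θ - θ := by ring
      rw [e1, e2, Real.sin_add, Real.sin_sub]
      ring
    rw [hs]
    push_cast
    constructor
    · linear_combination h1 - (σ * q) * (h1 + h2) +
        (-(Real.sin ((j + 1) * θ) - Real.sin (j * θ)
          - (2 - 2 * Real.cos θ) * Real.sin ((j + 1) * θ))) * hq
    · linear_combination h1 + h2

lemma exists_zero (α β : ℝ) (h0 : 0 ≤ α) (h4 : β ≤ 4) (hαβ : α < β) :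
    ∃ (j : ℕ) (p : ℝ), α < p ∧ p < β ∧ ∀ (σ : ℤ) (q : ℝ), (σ : ℝ) * q = p →
      row (ww σ j) q 0 = 0 := by
  set a := Real.arccos (1 - α / 2) with ha
  set b := Real.arccos (1 - β / 2) with hb
  have hab : a < b := Real.strictAntiOn_arccos ⟨by linarith, by linarith⟩
    ⟨by linarith, by linarith⟩ (by linarith)
  have ha0 : 0 ≤ a := Real.arccos_nonneg _
  have hbπ : b ≤ Real.pi := Real.arccos_le_pi _
  have hπ := Real.pi_pos
  obtain ⟨r, hr1, hr2⟩ := exists_rat_btwn (div_lt_div_of_pos_right hab hπ)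
  set θ : ℝ := r * Real.pi with hθ
  have hθ1 : a < θ := by
    rw [div_lt_iff₀ hπ] at hr1
    exact hr1
  have hθ2 : θ < b := by
    rw [lt_div_iff₀ hπ] at hr2
    exact hr2
  have hc1 : Real.cos θ < 1 - α / 2 := by
    have := Real.strictAntiOn_cos ⟨ha0, by linarith⟩ ⟨by linarith, by linarith⟩ hθ1
    rw [ha, Real.cos_arccos (by linarith) (by linarith)] at this
    exact this
  have hc2 : 1 - β / 2 < Real.cos θ := by
    have := Real.strictAntiOn_cos ⟨by linarith, by linarith⟩ ⟨by linarith, hbπ⟩ hθ2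
    rw [hb, Real.cos_arccos (by linarith) (by linarith)] at this
    exact this
  have hsin : 0 < Real.sin θ := Real.sin_pos_of_pos_of_lt_pi (by linarith) (by linarith)
  have hden := r.den_pos
  refine ⟨r.den - 1, 2 - 2 * Real.cos θ, by linarith, by linarith, ?_⟩
  intro σ q hq
  have h := (ww_trig σ θ q hq (r.den - 1)).1
  have e : (((r.den - 1 : ℕ) : ℝ) + 1) * θ = r.num * Real.pi := by
    have h1 : (((r.den - 1 : ℕ) : ℝ) + 1) = r.den := by
      have : ((r.den - 1 : ℕ) : ℝ) + 1 = ((r.den - 1 + 1 : ℕ) : ℝ) := by push_cast; ring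
      rw [this]
      congr 1
      omega
    rw [h1, hθ, ← mul_assoc]
    congr 1
    have := Rat.den_mul_eq_num r
    exact_mod_cast this
  rw [e, Real.sin_int_mul_pi, mul_zero] at h
  rcases mul_eq_zero.1 h with h | h
  · exact absurd h hsin.ne'
  · exact h

lemma hot_eq_row (W : List ℤ) (hW : endT false W = true) (q : ℝ) :
    hot q false W = row W q 0 := by
  unfold hot row
  rw [hW]
  rfl

lemma row_eq_aeval (W : List ℤ) (hW : endT false W = true) (q : ℝ) :
    row W q 0 = aeval q (hot (X : ℤ[X]) false W) := by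
  rw [hot_map, hot_eq_row W hW]

lemma row_continuous (W : List ℤ) (hW : endT false W = true) :
    Continuous (fun q => row W q 0) := by
  simp only [row_eq_aeval W hW]
  exact Polynomial.continuous_aeval _

/-- the square of the corner entry takes all small positive values in the interval -/
lemma range_row (W : List ℤ) (hW0 : ∀ m ∈ W, m ≠ 0) (hW : endT false W = true) (u v p : ℝ)
    (hup : u < p) (hpv : p < v) (hp : row W p 0 = 0) :
    ∃ y₀ : ℝ, 0 < y₀ ∧ ∀ y, 0 ≤ y → y ≤ y₀ → ∃ q, u < q ∧ q < v ∧ (row W q 0) ^ 2 = y := by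
  -- a point of the interval with nonzero corner
  have h1 : ∃ r, u < r ∧ r < v ∧ row W r 0 ≠ 0 := by
    by_contra hne
    push Not at hne
    set Q : ℝ[X] := (hot (X : ℤ[X]) false W).map (Int.castRingHom ℝ) with hQ
    have hQ0 : Q ≠ 0 := by
      rw [hQ, Polynomial.map_ne_zero_iff (RingHom.injective_int _)]
      exact (hot_poly false W hW0).1
    have hfin : (Q.rootSet ℝ).Finite := Polynomial.rootSet_finite Q ℝ
    have hsub : Set.Ioo u v ⊆ Q.rootSet ℝ := by
      intro r hr
      rw [Polynomial.mem_rootSet]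
      refine ⟨hQ0, ?_⟩
      have := hne r hr.1 hr.2
      rw [row_eq_aeval W hW] at this
      rw [hQ]
      simpa [aeval_def, eval₂_map, eval₂_eq_eval_map] using this
    exact (Set.Ioo_infinite (hup.trans hpv)) (hfin.subset hsub)
  obtain ⟨r, hr1, hr2, hr⟩ := h1
  have hcont : Continuous (fun q => (row W q 0) ^ 2) := (row_continuous W hW).pow 2
  refine ⟨(row W r 0) ^ 2, by positivity, ?_⟩
  intro y hy0 hy1
  have h2 := intermediate_value_uIcc (a := p) (b := r) hcont.continuousOn
  have h3 : y ∈ Set.uIcc ((row W p 0) ^ 2) ((row W r 0) ^ 2) := by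
    rw [hp, zero_pow two_ne_zero, Set.uIcc_of_le (sq_nonneg _)]
    exact ⟨hy0, hy1⟩
  obtain ⟨q, hq, hq2⟩ := h2 h3
  refine ⟨q, ?_, ?_, hq2⟩
  · have := (Set.mem_uIcc.1 hq)
    rcases this with h | h <;> linarith [h.1, h.2]
  · have := (Set.mem_uIcc.1 hq)
    rcases this with h | h <;> linarith [h.1, h.2]

/-- the Lipschitz bound -/
lemma lip_row (W : List ℤ) (hW : endT false W = true) :
    ∃ K : ℝ, 1 ≤ K ∧ ∀ x ∈ Set.Icc (-4 : ℝ) 4, ∀ y ∈ Set.Icc (-4 : ℝ) 4,
      |(row W x 0) ^ 2 - (row W y 0) ^ 2| ≤ K * |x - y| := by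
  set Q : ℝ[X] := ((hot (X : ℤ[X]) false W).map (Int.castRingHom ℝ)) ^ 2 with hQ
  have hrow : ∀ x, (row W x 0) ^ 2 = Q.eval x := by
    intro x
    rw [row_eq_aeval W hW, hQ, eval_pow, eval_map]
    rfl
  obtain ⟨C, hC⟩ := (isCompact_Icc (a := (-4 : ℝ)) (b := 4)).exists_bound_of_continuousOn
    (Q.derivative.continuous.continuousOn)
  refine ⟨max C 1, le_max_right _ _, ?_⟩
  intro x hx y hy
  rw [hrow, hrow]
  have := Convex.norm_image_sub_le_of_norm_deriv_le (f := fun x => Q.eval x) (C := max C 1)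
    (s := Set.Icc (-4 : ℝ) 4) (fun z _ => Q.differentiable.differentiableAt)
    (fun z hz => by
      rw [Polynomial.deriv]
      exact (hC z hz).trans (le_max_left _ _)) (convex_Icc _ _) hy hx
  simpa [Real.norm_eq_abs] using this

/-- small parameters with a vanishing hot entry of a word with `2 k + 3` syllables -/
def NZ (k : ℕ) (y : ℝ) : Prop :=
  ∃ V : List ℤ, (∀ m ∈ V, m ≠ 0) ∧ V.length = 2 * k + 3 ∧ hot y false V = 0

/-- many separated small parameters -/
lemma many (k : ℕ) (y₀ K : ℝ) (hy₀ : 0 < y₀) (hK : 1 ≤ K) :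
    ∃ c : ℝ, 0 < c ∧ ∀ ε : ℝ, 0 < ε → ε < 1 → ∃ (n : ℕ) (y : Fin n → ℝ),
      (∀ i, 0 < y i ∧ y i ≤ y₀ ∧ NZ k (y i)) ∧ (∀ i j, i ≠ j → K * ε < |y i - y j|) ∧
      c * ε ^ (-(1 - 1 / (2 * k + 2) : ℝ)) ≤ n := by
  set e : ℝ := 1 / (2 * k + 2) with he
  have hk2 : (0 : ℝ) < 2 * k + 2 := by positivity
  have he0 : 0 < e := by positivity
  have hK0 : 0 < K := by linarith
  set xm : ℝ := min (min (1 / (400 * 50 ^ k)) (y₀ / 4)) (1 / 2) with hxm
  have hxm0 : 0 < xm := by
    rw [hxm]
    have : (0 : ℝ) < 1 / (400 * 50 ^ k) := by positivity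
    exact lt_min (lt_min this (by linarith)) (by norm_num)
  set η : ℝ := min (1 / 2) (xm / K ^ e) with hη
  have hKe : 0 < K ^ e := Real.rpow_pos_of_pos hK0 e
  have hη0 : 0 < η := lt_min (by norm_num) (by positivity)
  refine ⟨η / 3 * K ^ (-(1 - e)), by positivity, ?_⟩
  intro ε hε hε1
  set E : ℝ := K * ε with hE
  have hE0 : 0 < E := by positivity
  set x : ℝ := η * E ^ e with hx
  have hEe : 0 < E ^ e := Real.rpow_pos_of_pos hE0 e
  have hx0 : 0 < x := by positivity
  have hxxm : x ≤ xm := by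
    have h1 : E ^ e ≤ K ^ e := by
      apply Real.rpow_le_rpow hE0.le _ he0.le
      rw [hE]
      nlinarith
    calc x ≤ (xm / K ^ e) * K ^ e := by
          rw [hx]
          exact mul_le_mul (min_le_right _ _) h1 hEe.le (by positivity)
      _ = xm := by field_simp
  have hx2 : x ≤ 1 / 2 := hxxm.trans (min_le_right _ _)
  have hx3 : x ≤ y₀ / 4 := hxxm.trans ((min_le_left _ _).trans (min_le_right _ _))
  have hx4 : 2 * x ≤ 1 / (200 * 50 ^ k) := by
    have h1 : x ≤ 1 / (400 * 50 ^ k) := hxxm.trans ((min_le_left _ _).trans (min_le_left _ _))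
    have h2 : (1 : ℝ) / (200 * 50 ^ k) = 2 * (1 / (400 * 50 ^ k)) := by
      field_simp
      ring
    linarith
  have hpow : (2 * x) ^ (2 * k + 2) ≤ E := by
    have h1 : 2 * x ≤ E ^ e := by
      have : η ≤ 1 / 2 := min_le_left _ _
      rw [hx]
      nlinarith
    calc (2 * x) ^ (2 * k + 2) ≤ (E ^ e) ^ (2 * k + 2) :=
          pow_le_pow_left₀ (by positivity) h1 _
      _ = E := by
          rw [← Real.rpow_natCast, ← Real.rpow_mul hE0.le]
          have : e * ((2 * k + 2 : ℕ) : ℝ) = 1 := by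
            rw [he]
            push_cast
            field_simp
          rw [this, Real.rpow_one]
  have hpow2 : (2 * x) ^ (2 * k + 2) ≤ 2 * x := by
    have := pow_le_pow_of_le_one (by positivity : (0 : ℝ) ≤ 2 * x) (by linarith)
      (by omega : 1 ≤ 2 * k + 2)
    simpa using this
  set n : ℕ := ⌊x / (3 * E)⌋₊ + 1 with hn
  have hpt : ∀ i : Fin n, ∃ q, x + 3 * (i : ℕ) * E ≤ q ∧ q ≤ x + 3 * (i : ℕ) * E + E ∧
      q ≤ y₀ ∧ NZ k q := by
    intro i
    have hi : ((i : ℕ) : ℝ) ≤ x / (3 * E) := by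
      have h1 : (i : ℕ) ≤ ⌊x / (3 * E)⌋₊ := by
        have := i.2
        omega
      exact (Nat.le_floor_iff (by positivity)).1 h1
    have hi2 : 3 * ((i : ℕ) : ℝ) * E ≤ x := by
      rw [le_div_iff₀ (by positivity)] at hi
      linarith
    have hi0 : 0 ≤ 3 * ((i : ℕ) : ℝ) * E := by positivity
    obtain ⟨V, h1, h2, q, hq, h3⟩ := gap k (x + 3 * (i : ℕ) * E) (by linarith) (by linarith)
    have h4 : (x + 3 * ((i : ℕ) : ℝ) * E) ^ (2 * k + 2) ≤ (2 * x) ^ (2 * k + 2) :=
      pow_le_pow_left₀ (by linarith) (by linarith) _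
    refine ⟨q, hq.1, ?_, ?_, V, h1, h2, h3⟩
    · have := hq.2
      linarith
    · have := hq.2
      linarith
  choose y hy1 hy2 hy3 hy4 using hpt
  refine ⟨n, y, ?_, ?_, ?_⟩
  · intro i
    have hi0 : 0 ≤ 3 * ((i : ℕ) : ℝ) * E := by positivity
    exact ⟨by linarith [hy1 i], hy3 i, hy4 i⟩
  · have key : ∀ i j : Fin n, i < j → E < |y i - y j| := by
      intro i j hij
      have h1 : ((i : ℕ) : ℝ) + 1 ≤ ((j : ℕ) : ℝ) := by exact_mod_cast hij
      have h2 : E * (((i : ℕ) : ℝ) + 1) ≤ E * ((j : ℕ) : ℝ) :=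
        mul_le_mul_of_nonneg_left h1 hE0.le
      have h3 : 2 * E ≤ y j - y i := by linarith [hy2 i, hy1 j]
      rw [abs_sub_comm]
      have := le_abs_self (y j - y i)
      linarith
    intro i j hij
    rcases lt_or_gt_of_ne hij with h | h
    · exact key i j h
    · rw [abs_sub_comm]
      exact key j i h
  · have h1 : x / (3 * E) < n := by
      have := Nat.lt_floor_add_one (x / (3 * E))
      rw [hn]
      push_cast
      exact this
    refine le_trans (le_of_eq ?_) h1.le
    rw [hx, hE, Real.mul_rpow hK0.le hε.le]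
    rw [show (-(1 - e)) = e - 1 by ring, Real.rpow_sub hK0, Real.rpow_sub hε, Real.rpow_one,
      Real.rpow_one]
    field_simp

/-- reflection is not needed: the exponents `σ = ± 1` treat both signs -/
theorem box (u v : ℝ) (huv : u < v) (hu : -4 ≤ u) (hv : v ≤ 4) :
    ∃ n : ℕ, ∀ k : ℕ, ∃ c : ℝ, 0 < c ∧ ∀ ε : ℝ, 0 < ε → ε < 1 → ∀ T : Finset ℝ,
      (Rdeg (2 * n * (k + 2)) ∩ Set.Ioo u v ⊆ ⋃ t ∈ T, Set.Icc t (t + ε)) →
      c * ε ^ (-(1 - 1 / (2 * k + 2) : ℝ)) ≤ T.card := by
  -- a zero of the corner entry in the interval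
  have h1 : ∃ (σ : ℤ) (j : ℕ) (p : ℝ), σ ≠ 0 ∧ u < p ∧ p < v ∧ row (ww σ j) p 0 = 0 := by
    rcases le_or_gt v 0 with hv0 | hv0
    · obtain ⟨j, p, h1, h2, h3⟩ := exists_zero (-v) (-u) (by linarith) (by linarith) (by linarith)
      exact ⟨-1, j, -p, by norm_num, by linarith, by linarith, h3 (-1) (-p) (by push_cast; ring)⟩
    · obtain ⟨j, p, h1, h2, h3⟩ := exists_zero (max u 0) v (le_max_right _ _) hv
        (max_lt huv hv0)
      have := le_max_left u 0
      exact ⟨1, j, p, by norm_num, by linarith, h2, h3 1 p (by push_cast; ring)⟩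
  obtain ⟨σ, j, p, hσ, hup, hpv, hp⟩ := h1
  set W := ww σ j with hW
  have hW0 := ww_ne_zero hσ j
  have hWe := ww_endT σ j
  have hWl := ww_length σ j
  obtain ⟨y₀, hy₀, hrange⟩ := range_row W hW0 hWe u v p hup hpv hp
  obtain ⟨K, hK, hlip⟩ := lip_row W hWe
  refine ⟨j + 1, fun k => ?_⟩
  obtain ⟨c, hc, hmany⟩ := many k y₀ K hy₀ hK
  refine ⟨c, hc, ?_⟩
  intro ε hε hε1 T hT
  obtain ⟨n, y, hy1, hy2, hy3⟩ := hmany ε hε hε1
  refine hy3.trans ?_
  -- preimages
  have hq : ∀ i, ∃ q, u < q ∧ q < v ∧ (row W q 0) ^ 2 = y i := fun i =>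
    hrange (y i) (hy1 i).1.le (hy1 i).2.1
  choose q hq1 hq2 hq3 using hq
  have hmem : ∀ i, q i ∈ Rdeg (2 * (j + 1) * (k + 2)) := by
    intro i
    obtain ⟨hpos, -, V, hV0, hVl, hVhot⟩ := hy1 i
    have hz : row W (q i) 0 ≠ 0 := by
      intro h0
      have := hq3 i
      rw [h0] at this
      simp at this
      exact hpos.ne this
    have hnf : NonFree ((row W (q i) 0) ^ 2) := by
      rw [hq3 i]
      have hZ : y i ∈ Z (2 * k + 3) := ⟨false, V, hV0, hVl.le, hVhot⟩
      exact nonFree_of_mem_R (Z_subset_R _ hZ)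
    have hnf2 : NonFree (q i) := transfer W hW0 hWe (q i) hz hnf
    -- the degree
    set Zp : ℤ[X] := hot (X : ℤ[X]) false W with hZp
    have hZp1 := hot_poly false W hW0
    rw [← hZp] at hZp1
    set Pv : ℤ[X] := hot (X : ℤ[X]) false V with hPv
    have hPv1 := hot_poly false V hV0
    rw [← hPv] at hPv1
    have hcomp0 : Pv.comp (Zp ^ 2) ≠ 0 := by
      intro h0
      rw [Polynomial.comp_eq_zero_iff] at h0
      rcases h0 with h0 | ⟨h0, h0'⟩
      · exact hPv1.1 h0
      · -- `Zp ^ 2` would be constant, but it vanishes at `0`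
        have e1 : Zp.eval 0 = 0 := by
          have h2 : aeval (0 : ℝ) Zp = 0 := by
            rw [hZp, ← row_eq_aeval W hWe]
            have h3 : ∀ (W : List ℤ), (vv true : Fin 2 → ℝ) ᵥ* M (0 : ℝ) false W = vv true ∧
                (vv true : Fin 2 → ℝ) ᵥ* M (0 : ℝ) true W = vv true := by
              intro W
              induction W with
              | nil => simp [M]
              | cons m W ih =>
                obtain ⟨i1, i2⟩ := ih
                constructor
                · simp only [M, Bool.not_false]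
                  rw [← Matrix.vecMul_vecMul, step_false]
                  have : (![(vv true : Fin 2 → ℝ) 0 + m * ((vv true : Fin 2 → ℝ) 1 * 0),
                      (vv true : Fin 2 → ℝ) 1] : Fin 2 → ℝ) = vv true := by
                    ext i; fin_cases i <;> simp [vv]
                  rw [this]
                  exact i2
                · simp only [M, Bool.not_true]
                  rw [← Matrix.vecMul_vecMul, vv_step]
                  exact i1
            have h4 := (h3 W).1
            unfold row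
            rw [h4]
            simp [vv]
          have h3 : aeval (0 : ℝ) Zp = ((Zp.eval 0 : ℤ) : ℝ) := by
            have := Polynomial.aeval_algebraMap_apply ℝ (0 : ℤ) Zp
            simpa using this
          rw [h3] at h2
          exact_mod_cast h2
        have e2 : (Zp ^ 2).eval 0 = 0 := by rw [eval_pow, e1]; norm_num
        rw [h0', eval_C] at e2
        rw [e2, map_zero] at h0'
        exact hZp1.1 (pow_eq_zero_iff two_ne_zero |>.1 h0')
    have hdeg : (Pv.comp (Zp ^ 2)).natDegree ≤ 2 * (j + 1) * (k + 2) := by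
      rw [natDegree_comp, natDegree_pow]
      have a1 : Pv.natDegree ≤ k + 2 := by
        refine hPv1.2.trans ?_
        rw [hVl]
        omega
      have a2 : Zp.natDegree ≤ j + 1 := by
        refine hZp1.2.trans ?_
        rw [hWl]
        omega
      calc Pv.natDegree * (2 * Zp.natDegree) ≤ (k + 2) * (2 * (j + 1)) :=
            Nat.mul_le_mul a1 (Nat.mul_le_mul_left 2 a2)
        _ = 2 * (j + 1) * (k + 2) := by ring
    have haeval : aeval (q i) (Pv.comp (Zp ^ 2)) = 0 := by
      rw [aeval_comp, map_pow, hZp, ← row_eq_aeval W hWe, hq3 i, hPv, hot_map]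
      exact hVhot
    obtain ⟨b1, b2⟩ := algebraic_of_poly hcomp0 hdeg haeval
    exact ⟨b1, b2, hnf2⟩
  -- the covering
  have hcov : ∀ i, ∃ t ∈ T, q i ∈ Set.Icc t (t + ε) := by
    intro i
    have := hT ⟨hmem i, hq1 i, hq2 i⟩
    simp only [Set.mem_iUnion, exists_prop] at this
    exact this
  choose t ht1 ht2 using hcov
  have hinj : Function.Injective t := by
    intro i i' hii
    by_contra hne
    have h1 := hy2 i i' hne
    have h2 : |q i - q i'| ≤ ε := by
      have a1 := ht2 i
      have a2 := ht2 i'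
      rw [← hii] at a2
      rw [abs_le]
      constructor <;> linarith [a1.1, a1.2, a2.1, a2.2]
    have h3 := hlip (q i) ⟨by linarith [hq1 i], by linarith [hq2 i]⟩ (q i')
      ⟨by linarith [hq1 i'], by linarith [hq2 i']⟩
    rw [hq3 i, hq3 i'] at h3
    have h4 : K * |q i - q i'| ≤ K * ε := mul_le_mul_of_nonneg_left h2 (by linarith)
    linarith
  have hcard : n ≤ T.card := by
    have := Finset.card_le_card_of_injOn (s := (Finset.univ : Finset (Fin n))) (t := T) t
      (fun i _ => ht1 i) (hinj.injOn)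
    simpa using this
  exact_mod_cast hcard

end Pool.Agent.Lib_helper30.Syl
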