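import Pool.Agent.Lib_helper30.Ext

set_option autoImplicit false

namespace Pool.Agent.Lib_helper30

/-! ## Abstract consequences of the two relators -/

section Abstract

variable {P : Type*} [Group P]

/-- The infinite family of generators. -/
def xg (a b : P) : ℕ → P
  | 0 => a
  | (n + 1) => (a ^ n)⁻¹ * b * a ^ n

/-- The two defining relations of Thompson's group, in commutation form. -/
structure FRel (a b : P) : Prop where
  r1 : (a * b⁻¹) * (a⁻¹ * b * a) = (a⁻¹ * b * a) * (a * b⁻¹)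
  r2 : (a * b⁻¹) * (a⁻¹ * a⁻¹ * b * a * a) = (a⁻¹ * a⁻¹ * b * a * a) * (a * b⁻¹)

lemma xg_succ (a b : P) (n : ℕ) : xg a b (n + 1) = (a ^ n)⁻¹ * b * a ^ n := rfl

lemma xg_succ_succ (a b : P) (n : ℕ) : xg a b (n + 2) = a⁻¹ * xg a b (n + 1) * a := by
  simp only [xg, pow_succ, mul_inv_rev]
  group

variable {a b : P} (h : FRel a b)
include h

lemma base2 : b⁻¹ * xg a b 2 * b = xg a b 3 := by
  have h1 := h.r1
  simp only [xg, pow_succ, pow_zero, one_mul, mul_inv_rev]
  have h2 : a⁻¹ * b * a = (a * b⁻¹)⁻¹ * (a⁻¹ * b * a) * (a * b⁻¹) := by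
    rw [mul_assoc (a * b⁻¹)⁻¹, ← h1]; group
  have h3 : b⁻¹ * (a⁻¹ * b * a) * b = b⁻¹ * ((a * b⁻¹)⁻¹ * (a⁻¹ * b * a) * (a * b⁻¹)) * b := by
    rw [← h2]
  rw [h3]; group

lemma base3 : b⁻¹ * xg a b 3 * b = xg a b 4 := by
  have h1 := h.r2
  simp only [xg, pow_succ, pow_zero, one_mul, mul_inv_rev]
  have h2 : a⁻¹ * a⁻¹ * b * a * a = (a * b⁻¹)⁻¹ * (a⁻¹ * a⁻¹ * b * a * a) * (a * b⁻¹) := by
    rw [mul_assoc (a * b⁻¹)⁻¹, ← h1]; group
  have h3 : b⁻¹ * (a⁻¹ * a⁻¹ * b * a * a) * b
      = b⁻¹ * ((a * b⁻¹)⁻¹ * (a⁻¹ * a⁻¹ * b * a * a) * (a * b⁻¹)) * b := by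
    rw [← h2]
  have h4 : a⁻¹ * a⁻¹ * b * (a * a) = a⁻¹ * a⁻¹ * b * a * a := by group
  rw [h4, h3]; group

omit h in
lemma conj_pow_x (n k : ℕ) : (a ^ k)⁻¹ * xg a b (n + 1) * a ^ k = xg a b (n + 1 + k) := by
  induction k with
  | zero => simp
  | succ k ih =>
    have : n + 1 + (k + 1) = (n + k) + 2 := by ring
    rw [this, xg_succ_succ, show n + k + 1 = n + 1 + k by ring, ← ih, pow_succ]
    group

/-- `b⁻¹ x_n b = x_{n+1}` for `n ≥ 2`. -/
lemma conj_b (n : ℕ) : b⁻¹ * xg a b (n + 2) * b = xg a b (n + 3) := by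
  induction n using Nat.strong_induction_on with
  | _ n ih =>
    rcases n with _ | _ | n
    · exact base2 h
    · exact base3 h
    · -- `x_{n+4} = x_2⁻¹ x_{n+3} x_2`
      have e1 : (xg a b 2)⁻¹ * xg a b (n + 3) * xg a b 2 = xg a b (n + 4) := by
        have h1 := ih n (by omega)
        have h2 : (a ^ 1)⁻¹ * (b⁻¹ * xg a b (n + 2) * b) * a ^ 1
            = (a ^ 1)⁻¹ * xg a b (n + 3) * a ^ 1 := by rw [h1]
        rw [conj_pow_x] at h2
        rw [show n + 2 + 1 + 1 = n + 4 by ring] at h2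
        rw [← h2]
        have h3 : xg a b 2 = (a ^ 1)⁻¹ * b * a ^ 1 := by simp [xg]
        have h4 : xg a b (n + 3) = (a ^ 1)⁻¹ * xg a b (n + 2) * a ^ 1 := by
          rw [show n + 2 = (n + 1) + 1 by ring, conj_pow_x]
        rw [h3, h4]
        group
      have e2 : (xg a b 3)⁻¹ * xg a b (n + 4) * xg a b 3 = xg a b (n + 5) := by
        have h1 := ih n (by omega)
        have h2 : (a ^ 2)⁻¹ * (b⁻¹ * xg a b (n + 2) * b) * a ^ 2
            = (a ^ 2)⁻¹ * xg a b (n + 3) * a ^ 2 := by rw [h1]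
        rw [conj_pow_x] at h2
        rw [show n + 2 + 1 + 2 = n + 5 by ring] at h2
        rw [← h2]
        have h3 : xg a b 3 = (a ^ 2)⁻¹ * b * a ^ 2 := by simp [xg]
        have h4 : xg a b (n + 4) = (a ^ 2)⁻¹ * xg a b (n + 2) * a ^ 2 := by
          rw [show n + 2 = (n + 1) + 1 by ring, conj_pow_x]
        rw [h3, h4]
        group
      have e3 := ih (n + 1) (by omega)
      have e4 := base2 h
      change b⁻¹ * xg a b (n + 4) * b = xg a b (n + 5)
      rw [← e2, ← e1]
      change b⁻¹ * xg a b (n + 3) * b = xg a b (n + 4) at e3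
      have e5 : b⁻¹ * ((xg a b 2)⁻¹ * xg a b (n + 3) * xg a b 2) * b
          = (b⁻¹ * xg a b 2 * b)⁻¹ * (b⁻¹ * xg a b (n + 3) * b) * (b⁻¹ * xg a b 2 * b) := by
        group
      rw [e5, e4, e3, e1]

/-- The relations of the infinite presentation. -/
lemma rel_inf {i j : ℕ} (hij : i < j) :
    xg a b j * xg a b i = xg a b i * xg a b (j + 1) := by
  rcases i with _ | i
  · obtain ⟨n, rfl⟩ : ∃ n, j = n + 1 := ⟨j - 1, by omega⟩
    rw [show n + 1 + 1 = n + 2 by ring, xg_succ_succ]
    simp only [xg]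
    group
  · obtain ⟨n, rfl⟩ : ∃ n, j = n + 2 + i := ⟨j - 2 - i, by omega⟩
    have h1 := conj_b h n
    have h2 : (a ^ i)⁻¹ * (b⁻¹ * xg a b (n + 2) * b) * a ^ i
        = (a ^ i)⁻¹ * xg a b (n + 3) * a ^ i := by rw [h1]
    rw [conj_pow_x] at h2
    have h4 : xg a b (n + 2 + i) = (a ^ i)⁻¹ * xg a b (n + 2) * a ^ i := by
      rw [show n + 2 = (n + 1) + 1 by ring, conj_pow_x]
    have h5 : xg a b (i + 1) = (a ^ i)⁻¹ * b * a ^ i := rfl
    rw [show n + 2 + i + 1 = n + 2 + 1 + i by ring, ← h2, h4, h5]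
    group

/-- Sorting a positive word. -/
lemma insert_sorted (l : List ℕ) (hl : l.Pairwise (· ≤ ·)) (n : ℕ) :
    ∃ l' : List ℕ, l'.Pairwise (· ≤ ·) ∧ (∀ m, (∀ k ∈ l, m ≤ k) → m ≤ n → ∀ k ∈ l', m ≤ k) ∧
      xg a b n * (l.map (xg a b)).prod = (l'.map (xg a b)).prod := by
  induction l generalizing n with
  | nil => exact ⟨[n], by simp, by simp, by simp⟩
  | cons i l ih =>
    rw [List.pairwise_cons] at hl
    rcases le_or_gt n i with hn | hn
    · refine ⟨n :: i :: l, ?_, ?_, by simp⟩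
      · rw [List.pairwise_cons]
        refine ⟨?_, List.pairwise_cons.2 hl⟩
        intro k hk
        rcases List.mem_cons.1 hk with rfl | hk
        · exact hn
        · exact hn.trans (hl.1 k hk)
      · intro m hm hmn k hk
        rcases List.mem_cons.1 hk with rfl | hk
        · exact hmn
        · exact hm k hk
    · obtain ⟨l', h1, h2, h3⟩ := ih hl.2 (n + 1)
      refine ⟨i :: l', ?_, ?_, ?_⟩
      · rw [List.pairwise_cons]
        exact ⟨h2 i hl.1 (by omega), h1⟩
      · intro m hm hmn k hk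
        rcases List.mem_cons.1 hk with rfl | hk
        · exact hm k (List.mem_cons_self)
        · exact h2 m (fun k hk => hm k (List.mem_cons_of_mem _ hk)) (by omega) k hk
      · rw [List.map_cons, List.prod_cons, ← mul_assoc, rel_inf h hn, mul_assoc, h3,
          List.map_cons, List.prod_cons]

lemma exists_sorted (l : List ℕ) : ∃ l' : List ℕ, l'.Pairwise (· ≤ ·) ∧
    (l.map (xg a b)).prod = (l'.map (xg a b)).prod := by
  induction l with
  | nil => exact ⟨[], by simp, by simp⟩
  | cons n l ih =>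
    obtain ⟨l', h1, h2⟩ := ih
    obtain ⟨l'', h3, _, h4⟩ := insert_sorted h l' h1 n
    exact ⟨l'', h3, by rw [List.map_cons, List.prod_cons, h2, h4]⟩

/-- Moving an inverse generator to the right through a positive word. -/
lemma inv_mul_pos (l : List ℕ) (n : ℕ) : ∃ l' : List ℕ, ∃ q : List ℕ,
    (xg a b n)⁻¹ * (l.map (xg a b)).prod
      = (l'.map (xg a b)).prod * ((q.map (xg a b)).prod)⁻¹ := by
  induction l generalizing n with
  | nil => exact ⟨[], [n], by simp⟩
  | cons i l ih =>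
    rcases lt_trichotomy i n with hi | rfl | hi
    · -- `x_n⁻¹ x_i = x_i x_{n+1}⁻¹`
      obtain ⟨l', q, h1⟩ := ih (n + 1)
      refine ⟨i :: l', q, ?_⟩
      have h2 := rel_inf h hi
      have h3 : (xg a b n)⁻¹ * xg a b i = xg a b i * (xg a b (n + 1))⁻¹ := by
        rw [inv_mul_eq_iff_eq_mul, ← mul_assoc, h2]; group
      rw [List.map_cons, List.prod_cons, ← mul_assoc, h3, mul_assoc, h1, List.map_cons,
        List.prod_cons, mul_assoc]
    · exact ⟨l, [], by simp⟩
    · -- `x_n⁻¹ x_i = x_{i+1} x_n⁻¹`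
      obtain ⟨l', q, h1⟩ := ih n
      refine ⟨(i + 1) :: l', q, ?_⟩
      have h2 := rel_inf h hi
      have h3 : (xg a b n)⁻¹ * xg a b i = xg a b (i + 1) * (xg a b n)⁻¹ := by
        rw [inv_mul_eq_iff_eq_mul, ← mul_assoc, ← h2]; group
      rw [List.map_cons, List.prod_cons, ← mul_assoc, h3, mul_assoc, h1, List.map_cons,
        List.prod_cons, mul_assoc]

/-- Every element of the subgroup generated by `a, b` is a fraction of positive words. -/
lemma exists_frac {g : P} (hg : g ∈ Subgroup.closure {a, b}) : ∃ l q : List ℕ,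
    g = (l.map (xg a b)).prod * ((q.map (xg a b)).prod)⁻¹ := by
  have step : ∀ n : ℕ, ∀ x : P, (∃ l q : List ℕ,
      x = (l.map (xg a b)).prod * ((q.map (xg a b)).prod)⁻¹) → (∃ l q : List ℕ,
      xg a b n * x = (l.map (xg a b)).prod * ((q.map (xg a b)).prod)⁻¹) ∧ (∃ l q : List ℕ,
      (xg a b n)⁻¹ * x = (l.map (xg a b)).prod * ((q.map (xg a b)).prod)⁻¹) := by
    rintro n x ⟨l, q, rfl⟩
    refine ⟨⟨n :: l, q, by simp [mul_assoc]⟩, ?_⟩
    obtain ⟨l', q', h1⟩ := inv_mul_pos h l n
    refine ⟨l', q ++ q', ?_⟩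
    rw [← mul_assoc, h1, List.map_append, List.prod_append, mul_inv_rev, mul_assoc]
  induction hg using Subgroup.closure_induction_left with
  | one => exact ⟨[], [], by simp⟩
  | mul_left x hx y hy ih =>
    rcases hx with rfl | hx
    · exact (step 0 y ih).1
    · rw [Set.mem_singleton_iff.1 hx]
      have := (step 1 y ih).1
      simpa [xg] using this
  | inv_mul_cancel x hx y hy ih =>
    rcases hx with rfl | hx
    · exact (step 0 y ih).2
    · rw [Set.mem_singleton_iff.1 hx]
      have := (step 1 y ih).2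
      simpa [xg] using this

end Abstract

/-! ## The piecewise linear model -/

/-- The image of the generator `x_0`. -/
noncomputable def X0 : ℝ ≃o ℝ := tr (-1)

/-- The image of the generator `x_1`. -/
noncomputable def X1 : ℝ ≃o ℝ := dbl⁻¹

lemma X1_le {t : ℝ} (ht : t ≤ 0) : X1 t = t := by
  unfold X1
  have := dbl_le ht
  rw [← this, inv_apply', this]

lemma X1_mid {t : ℝ} (h0 : 0 ≤ t) (h2 : t ≤ 2) : X1 t = t / 2 := by
  unfold X1
  have h := inv_apply' dbl (t / 2)
  rw [dbl_mid (by linarith) (by linarith), show 2 * (t / 2) = t by ring] at h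
  exact h

lemma X1_ge {t : ℝ} (ht : 2 ≤ t) : X1 t = t - 1 := by
  unfold X1
  have h := inv_apply' dbl (t - 1)
  rw [dbl_ge (by linarith), show t - 1 + 1 = t by ring] at h
  exact h

lemma frel_model : FRel X0 X1 := by
  have hf : ∀ t, (1 : ℝ) ≤ t → (X0 * X1⁻¹) t = t := by
    intro t ht
    unfold X0 X1
    rw [inv_inv, mul_apply', dbl_ge ht, tr_apply]; ring
  constructor
  · apply comm_of_sep (p := 1) hf
    intro t ht
    unfold X0
    simp only [mul_apply', tr_inv, tr_apply]
    rw [X1_le (by linarith)]; ring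
  · apply comm_of_sep (p := 1) hf
    intro t ht
    unfold X0
    simp only [mul_apply', tr_inv, tr_apply]
    rw [X1_le (by linarith)]; ring

lemma xg_model_le (n : ℕ) {t : ℝ} (ht : t ≤ n) : xg X0 X1 (n + 1) t = t := by
  rw [xg_succ]
  unfold X0
  simp only [tr_pow, tr_inv, mul_apply', tr_apply]
  rw [X1_le (by linarith)]; ring

lemma X1_apply_le (t : ℝ) : X1 t ≤ t := by
  rcases le_total t 0 with h | h
  · rw [X1_le h]
  · rcases le_total t 2 with h2 | h2
    · rw [X1_mid h h2]; linarith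
    · rw [X1_ge h2]; linarith

lemma X1_apply_lt {t : ℝ} (ht : 0 < t) : X1 t < t := by
  rcases le_total t 2 with h2 | h2
  · rw [X1_mid ht.le h2]; linarith
  · rw [X1_ge h2]; linarith

lemma xg_model_apply_le (n : ℕ) (t : ℝ) : xg X0 X1 n t ≤ t := by
  rcases n with _ | n
  · simp [xg, X0]
  · rw [xg_succ]
    unfold X0
    simp only [tr_pow, tr_inv, mul_apply', tr_apply]
    have := X1_apply_le (t + n * -1)
    linarith

lemma xg_model_apply_lt (n : ℕ) {t : ℝ} (ht : (n : ℝ) - 1 < t) : xg X0 X1 n t < t := by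
  rcases n with _ | n
  · simp [xg, X0]
  · rw [xg_succ]
    unfold X0
    simp only [tr_pow, tr_inv, mul_apply', tr_apply]
    push_cast at ht
    have := X1_apply_lt (t := t + n * -1) (by linarith)
    linarith

lemma prod_model_apply_le (l : List ℕ) (t : ℝ) : (l.map (xg X0 X1)).prod t ≤ t := by
  induction l generalizing t with
  | nil => simp
  | cons n l ih =>
    rw [List.map_cons, List.prod_cons, mul_apply']
    exact (xg_model_apply_le n _).trans (ih t)

lemma prod_model_fix (l : List ℕ) (m : ℕ) (hl : ∀ k ∈ l, m + 1 ≤ k) :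
    (l.map (xg X0 X1)).prod (m : ℝ) = m := by
  induction l with
  | nil => simp
  | cons n l ih =>
    rw [List.map_cons, List.prod_cons, mul_apply', ih (fun k hk => hl k (List.mem_cons_of_mem _ hk))]
    have hn := hl n List.mem_cons_self
    obtain ⟨k, rfl⟩ : ∃ k, n = k + 1 := ⟨n - 1, by omega⟩
    exact xg_model_le k (by exact_mod_cast (by omega : m ≤ k))

/-- Sorted positive words are faithful in the model. -/
lemma sorted_unique (l l' : List ℕ) (hl : l.Pairwise (· ≤ ·)) (hl' : l'.Pairwise (· ≤ ·))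
    (h : (l.map (xg X0 X1)).prod = (l'.map (xg X0 X1)).prod) : l = l' := by
  -- a strictly smaller head is impossible
  have key : ∀ (i : ℕ) (l l' : List ℕ), (∀ k ∈ l', i + 1 ≤ k) →
      ((i :: l).map (xg X0 X1)).prod ≠ (l'.map (xg X0 X1)).prod := by
    intro i l l' h1 h2
    have h3 : ((i :: l).map (xg X0 X1)).prod (i : ℝ) = (l'.map (xg X0 X1)).prod (i : ℝ) := by
      rw [h2]
    rw [prod_model_fix l' i h1, List.map_cons, List.prod_cons, mul_apply'] at h3
    have h4 : (l.map (xg X0 X1)).prod (i : ℝ) ≤ i := prod_model_apply_le l i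
    have h5 : xg X0 X1 i (i : ℝ) < i := xg_model_apply_lt i (by linarith)
    have h6 := (xg X0 X1 i).monotone h4
    linarith
  induction l generalizing l' with
  | nil =>
    rcases l' with _ | ⟨j, l'⟩
    · rfl
    · exact absurd h.symm (key j l' [] (by simp))
  | cons i l ih =>
    rcases l' with _ | ⟨j, l'⟩
    · exact absurd h (key i l [] (by simp))
    · rcases lt_trichotomy i j with hij | rfl | hij
      · exact absurd h (key i l (j :: l') (by
          intro k hk
          rcases List.mem_cons.1 hk with rfl | hk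
          · exact hij
          · exact lt_of_lt_of_le hij ((List.pairwise_cons.1 hl').1 k hk)))
      · rw [List.map_cons, List.prod_cons, List.map_cons, List.prod_cons] at h
        rw [ih l' (List.pairwise_cons.1 hl).2 (List.pairwise_cons.1 hl').2 (mul_left_cancel h)]
      · exact absurd h.symm (key j l' (i :: l) (by
          intro k hk
          rcases List.mem_cons.1 hk with rfl | hk
          · exact hij
          · exact lt_of_lt_of_le hij ((List.pairwise_cons.1 hl).1 k hk)))

end Pool.Agent.Lib_helper30
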