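import Pool.Agent.Lib_helper30.Comm

set_option autoImplicit false

namespace Pool.Agent.Lib_helper30

open scoped commutatorElement

/-- Value of a letter under an assignment. -/
def evL {G : Type*} [Group G] (c : Bool → G) (σ : ℕ → G) (p : Bool × (Bool ⊕ ℕ)) : G :=
  if p.1 then Sum.elim c σ p.2 else (Sum.elim c σ p.2)⁻¹

/-- Value of a word under an assignment. -/
def ev {G : Type*} [Group G] (c : Bool → G) (σ : ℕ → G) (w : List (Bool × (Bool ⊕ ℕ))) : G :=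
  (w.map (evL c σ)).prod

section
variable {G : Type*} [Group G]

lemma ev_append (c : Bool → G) (σ : ℕ → G) (u v : List (Bool × (Bool ⊕ ℕ))) :
    ev c σ (u ++ v) = ev c σ u * ev c σ v := by
  unfold ev; rw [List.map_append, List.prod_append]

lemma ev_cons (c : Bool → G) (σ : ℕ → G) (p : Bool × (Bool ⊕ ℕ)) (v : List (Bool × (Bool ⊕ ℕ))) :
    ev c σ (p :: v) = evL c σ p * ev c σ v := by
  unfold ev; rw [List.map_cons, List.prod_cons]

lemma ev_nil (c : Bool → G) (σ : ℕ → G) : ev c σ [] = 1 := rfl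

lemma ev_congr (c : Bool → G) {σ τ : ℕ → G} {w : List (Bool × (Bool ⊕ ℕ))}
    (h : ∀ p ∈ w, ∀ n, p.2 = Sum.inr n → σ n = τ n) : ev c σ w = ev c τ w := by
  unfold ev
  congr 1
  apply List.map_congr_left
  intro p hp
  unfold evL
  rcases hp2 : p.2 with x | n
  · simp
  · simp only [Sum.elim_inr]; rw [h p hp n hp2]

lemma map_ev {H : Type*} [Group H] (φ : G →* H) (c : Bool → G) (σ : ℕ → G)
    (w : List (Bool × (Bool ⊕ ℕ))) : φ (ev c σ w) = ev (φ ∘ c) (φ ∘ σ) w := by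
  unfold ev
  rw [map_list_prod, List.map_map]
  congr 1
  apply List.map_congr_left
  intro p _
  unfold evL
  simp only [Function.comp]
  rcases p.2 with x | n
  · simp only [Sum.elim_inl]; split_ifs <;> simp
  · simp only [Sum.elim_inr]; split_ifs <;> simp

/-- Signed letter. -/
def sgn (s : Bool) (x : G) : G := if s then x else x⁻¹

lemma sgn_true (x : G) : sgn true x = x := rfl
lemma sgn_false (x : G) : sgn false x = x⁻¹ := rfl

lemma evL_var (c : Bool → G) (σ : ℕ → G) (s : Bool) (n : ℕ) :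
    evL c σ (s, Sum.inr n) = sgn s (σ n) := by
  unfold evL sgn; simp

lemma map_sgn {H : Type*} [Group H] (φ : G →* H) (s : Bool) (x : G) :
    φ (sgn s x) = sgn s (φ x) := by
  unfold sgn; split_ifs <;> simp

lemma sgn_sgn (s t : Bool) (x : G) : sgn s (sgn t x) = sgn (s == t) x := by
  cases s <;> cases t <;> simp [sgn]

end

/-- The class in the abelianization of `F`. -/
noncomputable def cl (g : TF) : Additive (Abelianization TF) := Additive.ofMul (Abelianization.of g)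

lemma cl_mul (g h : TF) : cl (g * h) = cl g + cl h := by
  unfold cl; rw [map_mul, ofMul_mul]

lemma cl_inv (g : TF) : cl g⁻¹ = - cl g := by
  unfold cl; rw [map_inv, ofMul_inv]

lemma cl_one : cl (1 : TF) = 0 := by unfold cl; rw [map_one, ofMul_one]

lemma solve_comm {κ : TF} (h : cl κ = 0) : ∃ a b : TF, κ = ⁅a, b⁆ := by
  apply commutator_width_one
  rw [← Abelianization.ker_of, MonoidHom.mem_ker]
  exact h

lemma solve_sq {κ : TF} (r : TF) (h : cl κ = cl r + cl r) : ∃ a b : TF, κ = a ^ 2 * b ^ 2 := by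
  apply two_squares
  exact ⟨Abelianization.of r, h⟩

lemma solve_TTFF {a b c d e x y : TF}
    (h : cl (a * x * b * y * c * x⁻¹ * d * y⁻¹ * e) = 0) :
    ∃ X Y : TF, a * X * b * Y * c * X⁻¹ * d * Y⁻¹ * e = 1 := by
  obtain ⟨p, v, hpv⟩ := solve_comm (κ := (d * c * b)⁻¹ * (a⁻¹ * e⁻¹)) (by
    simp only [cl_mul, cl_inv] at h ⊢
    have e1 : -(cl d + cl c + cl b) + (-cl a + -cl e) =
      -(cl a + cl x + cl b + cl y + cl c + -cl x + cl d + -cl y + cl e) := by abel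
    rw [e1, h, neg_zero])
  rw [commutatorElement_def] at hpv
  refine ⟨d * c * b * p * b⁻¹, v * b⁻¹ * c⁻¹, ?_⟩
  calc a * (d * c * b * p * b⁻¹) * b * (v * b⁻¹ * c⁻¹) * c * (d * c * b * p * b⁻¹)⁻¹ * d *
        (v * b⁻¹ * c⁻¹)⁻¹ * e = a * (d * c * b) * (p * v * p⁻¹ * v⁻¹) * e := by group
    _ = 1 := by rw [← hpv]; group

lemma solve_TTTF {a b c d e x y : TF}
    (h : cl (a * x * b * y * c * x * d * y⁻¹ * e) = 0) :
    ∃ X Y : TF, a * X * b * Y * c * X * d * Y⁻¹ * e = 1 := by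
  obtain ⟨s, t, hst⟩ := solve_sq (κ := (a⁻¹ * e⁻¹) * (b⁻¹ * d * c)) (c * d * x) (by
    simp only [cl_mul, cl_inv] at h ⊢
    have e1 : -cl a + -cl e + (-cl b + cl d + cl c) =
      -(cl a + cl x + cl b + cl y + cl c + cl x + cl d + -cl y + cl e) +
      (cl c + cl d + cl x + (cl c + cl d + cl x)) := by abel
    rw [e1, h, neg_zero, zero_add])
  rw [pow_two, pow_two] at hst
  refine ⟨s * ((b⁻¹ * d * c) * t⁻¹)⁻¹ * b⁻¹, (b⁻¹ * d * c) * t⁻¹ * c⁻¹, ?_⟩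
  calc a * (s * (b⁻¹ * d * c * t⁻¹)⁻¹ * b⁻¹) * b * (b⁻¹ * d * c * t⁻¹ * c⁻¹) * c *
        (s * (b⁻¹ * d * c * t⁻¹)⁻¹ * b⁻¹) * d * (b⁻¹ * d * c * t⁻¹ * c⁻¹)⁻¹ * e
      = a * ((s * s * (t * t)) * (b⁻¹ * d * c)⁻¹) * e := by group
    _ = 1 := by rw [← hst]; group

lemma solve_TTFT {a b c d e x y : TF}
    (h : cl (a * x * b * y * c * x⁻¹ * d * y * e) = 0) :
    ∃ X Y : TF, a * X * b * Y * c * X⁻¹ * d * Y * e = 1 := by
  obtain ⟨X₁, Y₁, h1⟩ := solve_TTTF (a := 1) (b := b⁻¹) (c := a⁻¹ * e⁻¹) (d := d⁻¹) (e := c⁻¹)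
    (x := y⁻¹) (y := x⁻¹) (by
      simp only [cl_mul, cl_inv, cl_one] at h ⊢
      have e1 : 0 + -cl y + -cl b + -cl x + (-cl a + -cl e) + -cl y + -cl d + - -cl x + -cl c =
        -(cl a + cl x + cl b + cl y + cl c + -cl x + cl d + cl y + cl e) := by abel
      rw [e1, h, neg_zero])
  refine ⟨Y₁⁻¹, X₁⁻¹, ?_⟩
  have h2 : (1 * X₁ * b⁻¹ * Y₁ * (a⁻¹ * e⁻¹) * X₁ * d⁻¹ * Y₁⁻¹ * c⁻¹)⁻¹ = 1 := by
    rw [h1, inv_one]
  calc a * Y₁⁻¹ * b * X₁⁻¹ * c * Y₁⁻¹⁻¹ * d * X₁⁻¹ * e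
      = (a * Y₁⁻¹ * b * X₁⁻¹) *
        (1 * X₁ * b⁻¹ * Y₁ * (a⁻¹ * e⁻¹) * X₁ * d⁻¹ * Y₁⁻¹ * c⁻¹)⁻¹ *
        (a * Y₁⁻¹ * b * X₁⁻¹)⁻¹ := by group
    _ = 1 := by rw [h2]; group

/-- Linked pairs, not both of the same-sign type. -/
lemma solve_linked {a b c d e x y : TF} {s1 s2 s3 s4 : Bool} (hs : s1 ≠ s3 ∨ s2 ≠ s4)
    (h : cl (a * sgn s1 x * b * sgn s2 y * c * sgn s3 x * d * sgn s4 y * e) = 0) :
    ∃ X Y : TF, a * sgn s1 X * b * sgn s2 Y * c * sgn s3 X * d * sgn s4 Y * e = 1 := by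
  -- normalise the first signs
  have key : ∀ t3 t4 : Bool, (true ≠ t3 ∨ true ≠ t4) → ∀ x y : TF,
      cl (a * x * b * y * c * sgn t3 x * d * sgn t4 y * e) = 0 →
      ∃ X Y : TF, a * X * b * Y * c * sgn t3 X * d * sgn t4 Y * e = 1 := by
    intro t3 t4 ht x y h
    cases t3 <;> cases t4
    · exact solve_TTFF h
    · exact solve_TTFT h
    · exact solve_TTTF h
    · simp at ht
  have hx : sgn s3 x = sgn (s3 == s1) (sgn s1 x) := by
    rw [sgn_sgn]; cases s1 <;> cases s3 <;> rfl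
  have hy : sgn s4 y = sgn (s4 == s2) (sgn s2 y) := by
    rw [sgn_sgn]; cases s2 <;> cases s4 <;> rfl
  rw [hx, hy] at h
  obtain ⟨X, Y, hXY⟩ := key _ _ (by
    cases s1 <;> cases s3 <;> cases s2 <;> cases s4 <;> simp at hs ⊢) _ _ h
  refine ⟨sgn s1 X, sgn s2 Y, ?_⟩
  have e1 : sgn s1 (sgn s1 X) = X := by rw [sgn_sgn]; cases s1 <;> rfl
  have e2 : sgn s2 (sgn s2 Y) = Y := by rw [sgn_sgn]; cases s2 <;> rfl
  have e3 : sgn s3 (sgn s1 X) = sgn (s3 == s1) X := by rw [sgn_sgn]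
  have e4 : sgn s4 (sgn s2 Y) = sgn (s4 == s2) Y := by rw [sgn_sgn]
  rw [e1, e2, e3, e4]; exact hXY

/-- Unlinked same-sign pairs, side by side. -/
lemma solve_side {a b c d e x y : TF} {s t : Bool}
    (h : cl (a * sgn s x * b * sgn s x * c * sgn t y * d * sgn t y * e) = 0) :
    ∃ X Y : TF, a * sgn s X * b * sgn s X * c * sgn t Y * d * sgn t Y * e = 1 := by
  have key : ∀ x y : TF, cl (a * x * b * x * c * y * d * y * e) = 0 →
      ∃ X Y : TF, a * X * b * X * c * Y * d * Y * e = 1 := by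
    intro x y h
    obtain ⟨p, q, hpq⟩ := solve_sq (κ := ((b⁻¹ * c) * d⁻¹ * e * a)⁻¹) (b * x * y * d) (by
      simp only [cl_mul, cl_inv] at h ⊢
      have e1 : -(-cl b + cl c + -cl d + cl e + cl a) =
        -(cl a + cl x + cl b + cl x + cl c + cl y + cl d + cl y + cl e) +
        (cl b + cl x + cl y + cl d + (cl b + cl x + cl y + cl d)) := by abel
      rw [e1, h, neg_zero, zero_add])
    rw [pow_two, pow_two] at hpq
    refine ⟨p * b⁻¹, (b⁻¹ * c)⁻¹ * q * (b⁻¹ * c) * d⁻¹, ?_⟩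
    calc a * (p * b⁻¹) * b * (p * b⁻¹) * c * ((b⁻¹ * c)⁻¹ * q * (b⁻¹ * c) * d⁻¹) * d *
          ((b⁻¹ * c)⁻¹ * q * (b⁻¹ * c) * d⁻¹) * e
        = a * (p * p * (q * q)) * ((b⁻¹ * c) * d⁻¹ * e) := by group
      _ = 1 := by rw [← hpq]; group
  obtain ⟨X, Y, hXY⟩ := key _ _ h
  refine ⟨sgn s X, sgn t Y, ?_⟩
  have e1 : sgn s (sgn s X) = X := by rw [sgn_sgn]; cases s <;> rfl
  have e2 : sgn t (sgn t Y) = Y := by rw [sgn_sgn]; cases t <;> rfl
  rw [e1, e2]; exact hXY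

/-- Unlinked same-sign pairs, nested. -/
lemma solve_nested {a b c d e x y : TF} {s t : Bool}
    (h : cl (a * sgn s x * b * sgn t y * c * sgn t y * d * sgn s x * e) = 0) :
    ∃ X Y : TF, a * sgn s X * b * sgn t Y * c * sgn t Y * d * sgn s X * e = 1 := by
  have key : ∀ x y : TF, cl (a * x * b * y * c * y * d * x * e) = 0 →
      ∃ X Y : TF, a * X * b * Y * c * Y * d * X * e = 1 := by
    intro x y h
    obtain ⟨p, q, hpq⟩ := solve_sq (κ := (a⁻¹ * e⁻¹) * (b * (c⁻¹ * d))) (b * x * y * d) (by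
      simp only [cl_mul, cl_inv] at h ⊢
      have e1 : -cl a + -cl e + (cl b + (-cl c + cl d)) =
        -(cl a + cl x + cl b + cl y + cl c + cl y + cl d + cl x + cl e) +
        (cl b + cl x + cl y + cl d + (cl b + cl x + cl y + cl d)) := by abel
      rw [e1, h, neg_zero, zero_add])
    rw [pow_two, pow_two] at hpq
    -- `X = q (b M)⁻¹`, `Y c = b⁻¹ X⁻¹ p X b`
    refine ⟨q * (b * (c⁻¹ * d))⁻¹,
      b⁻¹ * (q * (b * (c⁻¹ * d))⁻¹)⁻¹ * p * (q * (b * (c⁻¹ * d))⁻¹) * b * c⁻¹, ?_⟩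
    set X := q * (b * (c⁻¹ * d))⁻¹ with hX
    have hq : q = X * (b * (c⁻¹ * d)) := by rw [hX]; group
    calc a * X * b * (b⁻¹ * X⁻¹ * p * X * b * c⁻¹) * c * (b⁻¹ * X⁻¹ * p * X * b * c⁻¹) * d * X * e
        = a * (p * p * ((X * (b * (c⁻¹ * d))) * (X * (b * (c⁻¹ * d))))) *
          (b * (c⁻¹ * d))⁻¹ * e := by group
      _ = a * (p * p * (q * q)) * (b * (c⁻¹ * d))⁻¹ * e := by rw [← hq]
      _ = 1 := by rw [← hpq]; group
  obtain ⟨X, Y, hXY⟩ := key _ _ h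
  refine ⟨sgn s X, sgn t Y, ?_⟩
  have e1 : sgn s (sgn s X) = X := by rw [sgn_sgn]; cases s <;> rfl
  have e2 : sgn t (sgn t Y) = Y := by rw [sgn_sgn]; cases t <;> rfl
  rw [e1, e2]; exact hXY

/-- The linking pattern of two variables forcing Euler genus at least two. -/
inductive PairPattern (x y : ℕ) (w : List (Bool × (Bool ⊕ ℕ))) : Prop
  | linked (A B C D E : List (Bool × (Bool ⊕ ℕ))) (s1 s2 s3 s4 : Bool) (hs : s1 ≠ s3 ∨ s2 ≠ s4)
      (hw : w = A ++ (s1, Sum.inr x) :: (B ++ (s2, Sum.inr y) :: (C ++ (s3, Sum.inr x) ::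
        (D ++ (s4, Sum.inr y) :: E)))) : PairPattern x y w
  | side (A B C D E : List (Bool × (Bool ⊕ ℕ))) (s t : Bool)
      (hw : w = A ++ (s, Sum.inr x) :: (B ++ (s, Sum.inr x) :: (C ++ (t, Sum.inr y) ::
        (D ++ (t, Sum.inr y) :: E)))) : PairPattern x y w
  | nested (A B C D E : List (Bool × (Bool ⊕ ℕ))) (s t : Bool)
      (hw : w = A ++ (s, Sum.inr x) :: (B ++ (t, Sum.inr y) :: (C ++ (t, Sum.inr y) ::
        (D ++ (s, Sum.inr x) :: E)))) : PairPattern x y w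

end Pool.Agent.Lib_helper30
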