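import Pool.Agent.Lib_helper30.Words

set_option autoImplicit false

namespace Pool.Agent.Lib_helper30

open scoped commutatorElement

/-- The constants of the equations, as elements of `F`. -/
def cst (b : Bool) : TF := PresentedGroup.of b

/-- Every variable occurs exactly twice or not at all. -/
def Quad (w : List (Bool × (Bool ⊕ ℕ))) : Prop :=
  ∀ n : ℕ, w.countP (fun p : Bool × (Bool ⊕ ℕ) => decide (p.2 = Sum.inr n)) = 0 ∨
    w.countP (fun p : Bool × (Bool ⊕ ℕ) => decide (p.2 = Sum.inr n)) = 2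

lemma avoid {w : List (Bool × (Bool ⊕ ℕ))} {n : ℕ}
    (h : w.countP (fun p : Bool × (Bool ⊕ ℕ) => decide (p.2 = Sum.inr n)) = 0) :
    ∀ p ∈ w, p.2 ≠ Sum.inr n := by
  intro p hp hpn
  rw [List.countP_eq_zero] at h
  exact h p hp (by simpa using hpn)

lemma ev_update {w : List (Bool × (Bool ⊕ ℕ))} {x y : ℕ} (σ₀ : ℕ → TF) (X Y : TF)
    (hx : ∀ p ∈ w, p.2 ≠ Sum.inr x) (hy : ∀ p ∈ w, p.2 ≠ Sum.inr y) :
    ev cst (Function.update (Function.update σ₀ x X) y Y) w = ev cst σ₀ w := by
  apply ev_congr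
  intro p hp n hn
  have h1 : n ≠ x := by rintro rfl; exact hx p hp hn
  have h2 : n ≠ y := by rintro rfl; exact hy p hp hn
  rw [Function.update_of_ne h2, Function.update_of_ne h1]

/-- For quadratic words containing one of the pair patterns, solvability in the abelianization
implies solvability. -/
theorem solvable_of_pattern {w : List (Bool × (Bool ⊕ ℕ))} (hq : Quad w) {x y : ℕ} (hxy : x ≠ y)
    (hp : PairPattern x y w) {τ : ℕ → Abelianization TF}
    (hτ : ev (Abelianization.of ∘ cst) τ w = 1) : ∃ σ : ℕ → TF, ev cst σ w = 1 := by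
  -- lift the solution
  choose σ₀ hσ₀ using fun n => QuotientGroup.mk_surjective (τ n)
  have hlift : (Abelianization.of : TF →* Abelianization TF) ∘ σ₀ = τ := by
    funext n; exact hσ₀ n
  have h0 : cl (ev cst σ₀ w) = 0 := by
    unfold cl
    rw [map_ev, hlift, hτ, ofMul_one]
  have hcx := hq x
  have hcy := hq y
  have hyx : y ≠ x := hxy.symm
  cases hp with
  | linked A B C D E s1 s2 s3 s4 hs hw =>
    subst hw
    simp only [List.countP_append, List.countP_cons, Sum.inr.injEq, hxy, hyx, decide_true,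
      decide_false, if_true, Bool.false_eq_true, if_false] at hcx hcy
    have xA : ∀ p ∈ A, p.2 ≠ Sum.inr x := avoid (by omega)
    have xB : ∀ p ∈ B, p.2 ≠ Sum.inr x := avoid (by omega)
    have xC : ∀ p ∈ C, p.2 ≠ Sum.inr x := avoid (by omega)
    have xD : ∀ p ∈ D, p.2 ≠ Sum.inr x := avoid (by omega)
    have xE : ∀ p ∈ E, p.2 ≠ Sum.inr x := avoid (by omega)
    have yA : ∀ p ∈ A, p.2 ≠ Sum.inr y := avoid (by omega)
    have yB : ∀ p ∈ B, p.2 ≠ Sum.inr y := avoid (by omega)
    have yC : ∀ p ∈ C, p.2 ≠ Sum.inr y := avoid (by omega)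
    have yD : ∀ p ∈ D, p.2 ≠ Sum.inr y := avoid (by omega)
    have yE : ∀ p ∈ E, p.2 ≠ Sum.inr y := avoid (by omega)
    have hform : ∀ σ : ℕ → TF, ev cst σ (A ++ (s1, Sum.inr x) :: (B ++ (s2, Sum.inr y) ::
        (C ++ (s3, Sum.inr x) :: (D ++ (s4, Sum.inr y) :: E)))) =
        ev cst σ A * sgn s1 (σ x) * ev cst σ B * sgn s2 (σ y) * ev cst σ C * sgn s3 (σ x) *
          ev cst σ D * sgn s4 (σ y) * ev cst σ E := by
      intro σ
      simp only [ev_append, ev_cons, evL_var, mul_assoc]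
    rw [hform] at h0
    obtain ⟨X, Y, hXY⟩ := solve_linked hs h0
    refine ⟨Function.update (Function.update σ₀ x X) y Y, ?_⟩
    rw [hform, ev_update σ₀ X Y xA yA, ev_update σ₀ X Y xB yB, ev_update σ₀ X Y xC yC,
      ev_update σ₀ X Y xD yD, ev_update σ₀ X Y xE yE, Function.update_self,
      Function.update_of_ne hxy, Function.update_self]
    exact hXY
  | side A B C D E s t hw =>
    subst hw
    simp only [List.countP_append, List.countP_cons, Sum.inr.injEq, hxy, hyx, decide_true,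
      decide_false, if_true, Bool.false_eq_true, if_false] at hcx hcy
    have xA : ∀ p ∈ A, p.2 ≠ Sum.inr x := avoid (by omega)
    have xB : ∀ p ∈ B, p.2 ≠ Sum.inr x := avoid (by omega)
    have xC : ∀ p ∈ C, p.2 ≠ Sum.inr x := avoid (by omega)
    have xD : ∀ p ∈ D, p.2 ≠ Sum.inr x := avoid (by omega)
    have xE : ∀ p ∈ E, p.2 ≠ Sum.inr x := avoid (by omega)
    have yA : ∀ p ∈ A, p.2 ≠ Sum.inr y := avoid (by omega)
    have yB : ∀ p ∈ B, p.2 ≠ Sum.inr y := avoid (by omega)
    have yC : ∀ p ∈ C, p.2 ≠ Sum.inr y := avoid (by omega)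
    have yD : ∀ p ∈ D, p.2 ≠ Sum.inr y := avoid (by omega)
    have yE : ∀ p ∈ E, p.2 ≠ Sum.inr y := avoid (by omega)
    have hform : ∀ σ : ℕ → TF, ev cst σ (A ++ (s, Sum.inr x) :: (B ++ (s, Sum.inr x) ::
        (C ++ (t, Sum.inr y) :: (D ++ (t, Sum.inr y) :: E)))) =
        ev cst σ A * sgn s (σ x) * ev cst σ B * sgn s (σ x) * ev cst σ C * sgn t (σ y) *
          ev cst σ D * sgn t (σ y) * ev cst σ E := by
      intro σ
      simp only [ev_append, ev_cons, evL_var, mul_assoc]
    rw [hform] at h0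
    obtain ⟨X, Y, hXY⟩ := solve_side h0
    refine ⟨Function.update (Function.update σ₀ x X) y Y, ?_⟩
    rw [hform, ev_update σ₀ X Y xA yA, ev_update σ₀ X Y xB yB, ev_update σ₀ X Y xC yC,
      ev_update σ₀ X Y xD yD, ev_update σ₀ X Y xE yE, Function.update_self,
      Function.update_of_ne hxy, Function.update_self]
    exact hXY
  | nested A B C D E s t hw =>
    subst hw
    simp only [List.countP_append, List.countP_cons, Sum.inr.injEq, hxy, hyx, decide_true,
      decide_false, if_true, Bool.false_eq_true, if_false] at hcx hcy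
    have xA : ∀ p ∈ A, p.2 ≠ Sum.inr x := avoid (by omega)
    have xB : ∀ p ∈ B, p.2 ≠ Sum.inr x := avoid (by omega)
    have xC : ∀ p ∈ C, p.2 ≠ Sum.inr x := avoid (by omega)
    have xD : ∀ p ∈ D, p.2 ≠ Sum.inr x := avoid (by omega)
    have xE : ∀ p ∈ E, p.2 ≠ Sum.inr x := avoid (by omega)
    have yA : ∀ p ∈ A, p.2 ≠ Sum.inr y := avoid (by omega)
    have yB : ∀ p ∈ B, p.2 ≠ Sum.inr y := avoid (by omega)
    have yC : ∀ p ∈ C, p.2 ≠ Sum.inr y := avoid (by omega)
    have yD : ∀ p ∈ D, p.2 ≠ Sum.inr y := avoid (by omega)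
    have yE : ∀ p ∈ E, p.2 ≠ Sum.inr y := avoid (by omega)
    have hform : ∀ σ : ℕ → TF, ev cst σ (A ++ (s, Sum.inr x) :: (B ++ (t, Sum.inr y) ::
        (C ++ (t, Sum.inr y) :: (D ++ (s, Sum.inr x) :: E)))) =
        ev cst σ A * sgn s (σ x) * ev cst σ B * sgn t (σ y) * ev cst σ C * sgn t (σ y) *
          ev cst σ D * sgn s (σ x) * ev cst σ E := by
      intro σ
      simp only [ev_append, ev_cons, evL_var, mul_assoc]
    rw [hform] at h0
    obtain ⟨X, Y, hXY⟩ := solve_nested h0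
    refine ⟨Function.update (Function.update σ₀ x X) y Y, ?_⟩
    rw [hform, ev_update σ₀ X Y xA yA, ev_update σ₀ X Y xB yB, ev_update σ₀ X Y xC yC,
      ev_update σ₀ X Y xD yD, ev_update σ₀ X Y xE yE, Function.update_self,
      Function.update_of_ne hxy, Function.update_self]
    exact hXY

end Pool.Agent.Lib_helper30
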